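import Pool.Agent.W615.SqZero

/-!
# Vector fields with a plane of zeros and two Jordan blocks (helper615)
-/

set_option autoImplicit false
set_option maxHeartbeats 400000

open MvPolynomial H960VB H938TB

namespace Pool.Agent.W615

theorem lsub_comp {l m n : ℕ} (S : (Fin (l + 1) → ℂ) →ₗ[ℂ] (Fin (m + 1) → ℂ))
    (T : (Fin (m + 1) → ℂ) →ₗ[ℂ] (Fin (n + 1) → ℂ)) (p : MvPolynomial (Fin (n + 1)) ℂ) :
    lsub S (lsub T p) = lsub (T ∘ₗ S) p := by
  apply MvPolynomial.funext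
  intro x
  rw [eval_lsub, eval_lsub, eval_lsub]
  rfl

section
variable {n : ℕ} {E : Bundle2 n} {N : Matrix (Fin (n + 1)) (Fin (n + 1)) ℂ}

theorem ker_res_iff {m : ℕ} (T : (Fin (m + 1 + 1) → ℂ) →ₗ[ℂ] (Fin (n + 1) → ℂ))
    (hT : Function.Injective T) (H : Vec E.a m) :
    Ker (resE (E.pull T hT)) H ↔ ∀ k, ∑ i, lsub (T ∘ₗ hI m) (E.B k i) * H i = 0 := by
  have h : ∀ k, ∑ i, (resE (E.pull T hT)).B k i * H i =
      ∑ i, lsub (T ∘ₗ hI m) (E.B k i) * H i := by
    intro k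
    refine Finset.sum_congr rfl fun i _ => ?_
    rw [← lsub_comp]
    rfl
  constructor
  · intro hk k
    rw [← h]
    exact hk k
  · intro hk k
    exact (h k).trans (hk k)

theorem ep_ela (L : Lft (triv E) 0 (vf N))
    {m : ℕ} (T : (Fin (m + 1 + 1) → ℂ) →ₗ[ℂ] (Fin (n + 1) → ℂ)) (hT : Function.Injective T)
    (k : Fin (m + 1)) (h0) (h1) (H : Vec E.a m) (i : Fin E.a) :
    ep (elaLft L T hT k h0 h1) H i = ∑ j, lsub (T ∘ₗ hI m) (L.ν i j) * H j := by
  show ∑ j, lsub (hI m) (lsub T (L.ν i j)) * H j = _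
  exact Finset.sum_congr rfl fun j _ => by rw [lsub_comp]

theorem ep_ela_shift (L : Lft (triv E) 0 (vf N)) (l : ℂ)
    {m : ℕ} (T : (Fin (m + 1 + 1) → ℂ) →ₗ[ℂ] (Fin (n + 1) → ℂ)) (hT : Function.Injective T)
    (k : Fin (m + 1)) (h0) (h1) (H : Vec E.a m) (i : Fin E.a) :
    ep (elaLft (L.shift l) T hT k h0 h1) H i =
      ep (elaLft L T hT k h0 h1) H i - C l * H i := by
  rw [ep_ela, ep_ela]
  have h2 : ∀ j, lsub (T ∘ₗ hI m) ((L.shift l).ν i j) * H j =
      lsub (T ∘ₗ hI m) (L.ν i j) * H j - (if i = j then C l * H j else 0) := by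
    intro j
    show lsub (T ∘ₗ hI m) (L.ν i j - dg n E.a l i j) * H j = _
    rw [map_sub, sub_mul]
    congr 1
    unfold dg
    split_ifs
    · rw [lsub, aeval_C]
      rfl
    · rw [map_zero, zero_mul]
  simp_rw [h2]
  rw [Finset.sum_sub_distrib, Finset.sum_ite_eq, if_pos (Finset.mem_univ i)]

/-- **Theorem.**  A bundle with a lift of a linear vector field `N` such that `ker N` contains
three independent vectors, two of which are in the image of `N`, splits. -/
theorem two_blocks (L : Lft (triv E) 0 (vf N)) (y₁ y₂ z : Fin (n + 1) → ℂ)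
    (h1 : N.mulVec (N.mulVec y₁) = 0) (h2 : N.mulVec (N.mulVec y₂) = 0) (hz : N.mulVec z = 0)
    (hli : LinearIndependent ℂ ![N.mulVec y₁, N.mulVec y₂, z]) : E.Splits := by
  by_contra hE
  set c₁ := N.mulVec y₁ with hc₁
  set c₂ := N.mulVec y₂ with hc₂
  have hli4 : ∀ y c, N.mulVec y = c → c ≠ 0 → LinearIndependent ℂ ![c₁, c₂, z, y] := by
    intro y c hy hc
    rw [Fintype.linearIndependent_iff]
    intro g hg
    rw [Fin.sum_univ_four] at hg
    simp only [Matrix.cons_val] at hg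
    have h3 := congrArg N.mulVec hg
    rw [Matrix.mulVec_add, Matrix.mulVec_add, Matrix.mulVec_add, Matrix.mulVec_smul,
      Matrix.mulVec_smul, Matrix.mulVec_smul, Matrix.mulVec_smul, h1, h2, hz, hy,
      Matrix.mulVec_zero, smul_zero, smul_zero, smul_zero, zero_add, zero_add, zero_add] at h3
    have h4 : g 3 = 0 := (smul_eq_zero.1 h3).resolve_right hc
    rw [h4, zero_smul, add_zero] at hg
    have h5 := (Fintype.linearIndependent_iff.1 hli) ![g 0, g 1, g 2] (by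
      rw [Fin.sum_univ_three]
      simpa using hg)
    intro i
    fin_cases i
    · exact h5 0
    · exact h5 1
    · exact h5 2
    · exact h4
  let T : (Fin (n + 1) → ℂ) → (Fin 4 → ℂ) →ₗ[ℂ] (Fin (n + 1) → ℂ) := fun y =>
    Fintype.linearCombination ℂ ![c₁, c₂, z, y]
  have hTs : ∀ y t, T y (Pi.single t 1) = ![c₁, c₂, z, y] t := by
    intro y t
    simp only [T]
    rw [Fintype.linearCombination_apply_single, one_smul]
  have hc₁0 : c₁ ≠ 0 := hli.ne_zero 0
  have hc₂0 : c₂ ≠ 0 := hli.ne_zero 1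
  have hT₁ : Function.Injective (T y₁) := (hli4 y₁ c₁ rfl hc₁0).fintypeLinearCombination_injective
  have hT₂ : Function.Injective (T y₂) := (hli4 y₂ c₂ rfl hc₂0).fintypeLinearCombination_injective
  have h0 : ∀ y, ∀ t : Fin 3, N.mulVec (T y (Pi.single t.castSucc 1)) = 0 := by
    intro y t
    rw [hTs]
    fin_cases t
    · exact h1
    · exact h2
    · exact hz
  have hl₁ : N.mulVec (T y₁ (Pi.single (Fin.last 3) 1)) = T y₁ (Pi.single (0 : Fin 3).castSucc 1) := by
    rw [hTs, hTs]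
    rfl
  have hl₂ : N.mulVec (T y₂ (Pi.single (Fin.last 3) 1)) = T y₂ (Pi.single (1 : Fin 3).castSucc 1) := by
    rw [hTs, hTs]
    rfl
  have hU : T y₁ ∘ₗ hI 2 = T y₂ ∘ₗ hI 2 := by
    apply LinearMap.pi_ext'
    intro t
    apply LinearMap.ext_ring
    show T y₁ (hI 2 (Pi.single t 1)) = T y₂ (hI 2 (Pi.single t 1))
    rw [cInc_single, hTs, hTs]
    fin_cases t <;> rfl
  -- dimensions
  have h3n : 3 ≤ n := by
    have h3 := LinearMap.finrank_le_finrank_of_injective hT₁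
    rw [Module.finrank_fintype_fun_eq_card, Module.finrank_fintype_fun_eq_card, Fintype.card_fin,
      Fintype.card_fin] at h3
    omega
  have hE₁ : ¬ (E.pull (T y₁) hT₁).Splits := fun h =>
    hE (Bundle2.splits_of_pull (n - 3) 3 n (by norm_num) (by omega) E _ _ h)
  have hE₂ : ¬ (E.pull (T y₂) hT₂).Splits := fun h =>
    hE (Bundle2.splits_of_pull (n - 3) 3 n (by norm_num) (by omega) E _ _ h)
  have hF₁ : ¬ (resE (E.pull (T y₁) hT₁)).Splits := fun h =>
    hE₁ (splits_of_cInc (le_refl 2) (by norm_num) _ _ (Fin.castSucc_injective _) h)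
  have hF₂ : ¬ (resE (E.pull (T y₂) hT₂)).Splits := fun h =>
    hE₂ (splits_of_cInc (le_refl 2) (by norm_num) _ _ (Fin.castSucc_injective _) h)
  obtain ⟨W₁⟩ := exists_wedge (by norm_num) (triv (E.pull (T y₁) hT₁))
  obtain ⟨W₂⟩ := exists_wedge (by norm_num) (triv (E.pull (T y₂) hT₂))
  obtain ⟨W₁'⟩ := exists_wedge (by norm_num) (resD (E.pull (T y₁) hT₁))
  obtain ⟨W₂'⟩ := exists_wedge (by norm_num) (resD (E.pull (T y₂) hT₂))
  -- the eigenvalue
  obtain ⟨l, hl⟩ := exists_eigen W₁' (resL (elaLft L (T y₁) hT₁ 0 (h0 y₁) hl₁)) (by norm_num)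
  set L' := L.shift l with hL'
  set L₁ := elaLft L' (T y₁) hT₁ 0 (h0 y₁) hl₁ with hL₁
  set L₂ := elaLft L' (T y₂) hT₂ 1 (h0 y₂) hl₂ with hL₂
  have hep : ∀ (H : Vec E.a 2) (i : Fin E.a), ep L₁ H i = ep L₂ H i := by
    intro H i
    rw [hL₁, hL₂, ep_ela, ep_ela, hU]
  have hep' : ∀ (H : Vec E.a 2), (ep L₁ H : Vec E.a 2) = ep L₂ H := fun H => funext (hep H)
  have hker : ∀ H : Vec E.a 2, Ker (resE (E.pull (T y₁) hT₁)) H ↔
      Ker (resE (E.pull (T y₂) hT₂)) H := by
    intro H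
    rw [ker_res_iff, ker_res_iff, hU]
  have hdet₁ : ∀ G G' : Vec E.a 2, Ker (resE (E.pull (T y₁) hT₁)) G →
      Ker (resE (E.pull (T y₁) hT₁)) G' → W₁'.wd (ep L₁ G) (ep L₁ G') = 0 := by
    intro G G' hG hG'
    have h3 := hl G G' hG hG'
    have h4 : ∀ H : Vec E.a 2,
        ((resL (elaLft L (T y₁) hT₁ 0 (h0 y₁) hl₁)).shift l).op H = ep L₁ H := by
      intro H
      funext i
      rw [Lft.shift_op, ep_eq, hL₁, hL', ep_ela_shift]
    rw [h4, h4] at h3
    exact h3
  have hdet₂ : ∀ G G' : Vec E.a 2, Ker (resE (E.pull (T y₂) hT₂)) G →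
      Ker (resE (E.pull (T y₂) hT₂)) G' → W₂'.wd (ep L₂ G) (ep L₂ G') = 0 := by
    intro G G' hG hG'
    have k1 : Ker (resE (E.pull (T y₁) hT₁)) (ep L₁ G) := ep_ker L₁ ((hker G).2 hG)
    have k2 : Ker (resE (E.pull (T y₁) hT₁)) (ep L₁ G') := ep_ker L₁ ((hker G').2 hG')
    have h3 := hdet₁ G G' ((hker G).2 hG) ((hker G').2 hG')
    have h4 : ∀ i j : Fin E.a, ep L₁ G i * ep L₁ G' j = ep L₁ G j * ep L₁ G' i :=
      par_of_wd W₁' k1 k2 h3
    have h5 : ∀ i j : Fin E.a, ep L₂ G i * ep L₂ G' j - ep L₂ G j * ep L₂ G' i =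
        0 * W₂'.P i j := by
      intro i j
      rw [zero_mul, sub_eq_zero, ← hep, ← hep, ← hep, ← hep]
      exact h4 i j
    exact wd_eq_of W₂' (ep_ker L₂ hG) (ep_ker L₂ hG') h5
  obtain ⟨e₁⟩ := exists_ED (by norm_num) hE₁ hF₁ L₁ W₁ W₁' hdet₁
  obtain ⟨e₂⟩ := exists_ED (by norm_num) hE₂ hF₂ L₂ W₂ W₂' hdet₂
  -- nonvanishing away from the centres
  have nv₁ : ∀ q : Fin 3 → ℂ, (q 1 ≠ 0 ∨ q 2 ≠ 0) → evv e₁.s q ≠ 0 := by
    intro q hq
    have hq0 : q ≠ 0 := by
      rintro rfl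
      rcases hq with h | h <;> exact h rfl
    obtain ⟨x, hx⟩ := exists_line e₁.hsp (fun i => homZ_of (e₁.hs.hom i)) 0 (q := q) hq
    refine e₁.ne_zero_of (by norm_num) W₁ hq0 x (fun h => ?_) hx
    have h3 := congrFun h 1
    have h4 := congrFun h 2
    simp at h3 h4
    rcases hq with h | h
    · exact h h3
    · exact h h4
  have nv₂ : ∀ q : Fin 3 → ℂ, (q 2 ≠ 0 ∨ q 0 ≠ 0) → evv e₂.s q ≠ 0 := by
    intro q hq
    have hq0 : q ≠ 0 := by
      rintro rfl
      rcases hq with h | h <;> exact h rfl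
    obtain ⟨x, hx⟩ := exists_line e₂.hsp (fun i => homZ_of (e₂.hs.hom i)) 1 (q := q) hq
    refine e₂.ne_zero_of (by norm_num) W₂ hq0 x (fun h => ?_) hx
    have h3 := congrFun h 2
    have h4 := congrFun h 0
    simp at h3 h4
    rcases hq with h | h
    · exact h h3
    · exact h h4
  -- the two sections are proportional
  have hs₁ : Ker (resE (E.pull (T y₂) hT₂)) (e₁.s : Vec E.a 2) := (hker e₁.s).1 e₁.hs.ker
  obtain ⟨f, hf⟩ := e₂.kerA hs₁ (fun i => by rw [← hep]; exact e₁.As i)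
  have hfu : IsUnit f := e₁.hsp f fun i => ⟨e₂.s i, hf i⟩
  apply hF₁
  refine splits_of_nowhere_zero e₁.hs fun q hq => ?_
  by_cases h3 : q 1 ≠ 0 ∨ q 2 ≠ 0
  · exact nv₁ q h3
  · push Not at h3
    have h4 : q 0 ≠ 0 := by
      intro h4
      apply hq
      ext i
      fin_cases i
      · exact h4
      · exact h3.1
      · exact h3.2
    have h5 := nv₂ q (Or.inr h4)
    intro h6
    apply h5
    funext i
    have h7 := congrFun h6 i
    have h8 : eval q (e₁.s i) = 0 := h7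
    rw [hf i, map_mul] at h8
    have h9 : eval q f ≠ 0 := (hfu.map (eval q)).ne_zero
    exact (mul_eq_zero.1 h8).resolve_left h9

end

theorem homZ_mul {n : ℕ} {p q : MvPolynomial (Fin (n + 1)) ℂ} {d e : ℤ} (hp : HomZ p d)
    (hq : HomZ q e) : HomZ (p * q) (d + e) := hp.mul' hq

/-- Euler's identity in the form needed. -/
theorem euler {n : ℕ} {p : MvPolynomial (Fin (n + 1)) ℂ} {d : ℤ} (hp : HomZ p d) :
    ∑ s, pderiv s p * X s = C (d : ℂ) * p := by
  rcases hp with rfl | ⟨k, rfl, hk⟩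
  · simp
  · have h := hk.sum_X_mul_pderiv
    rw [nsmul_eq_mul] at h
    have h1 : ∑ s, pderiv s p * X s = ∑ s, X s * pderiv s p :=
      Finset.sum_congr rfl fun s _ => mul_comm _ _
    rw [h1, h]
    simp

/-- the theorem with an arbitrary eigenvalue. -/
theorem two_blocks' {n : ℕ} {E : Bundle2 n} (N : Matrix (Fin (n + 1)) (Fin (n + 1)) ℂ)
    (ν : Matrix (Fin E.a) (Fin E.a) (MvPolynomial (Fin (n + 1)) ℂ))
    (μ : Matrix (Fin E.c) (Fin E.c) (MvPolynomial (Fin (n + 1)) ℂ))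
    (hν : ∀ i j, HomZ (ν i j) (E.β i - E.β j))
    (hc : ∀ k i, ∑ s, pderiv s (E.B k i) * (∑ t, C (N s t) * X t) =
      ∑ l, μ k l * E.B l i + ∑ j, E.B k j * ν j i)
    (l : ℂ) (y₁ y₂ z : Fin (n + 1) → ℂ)
    (h1 : (N - Matrix.scalar _ l).mulVec ((N - Matrix.scalar _ l).mulVec y₁) = 0)
    (h2 : (N - Matrix.scalar _ l).mulVec ((N - Matrix.scalar _ l).mulVec y₂) = 0)
    (hz : (N - Matrix.scalar _ l).mulVec z = 0)
    (hli : LinearIndependent ℂ ![(N - Matrix.scalar _ l).mulVec y₁,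
      (N - Matrix.scalar _ l).mulVec y₂, z]) : E.Splits := by
  refine two_blocks (N := N - Matrix.scalar _ l)
    (mkLft E (N - Matrix.scalar _ l) (fun i j => ν i j + dg n E.a (l * (E.β i : ℂ)) i j)
      (fun i j => μ i j - dg n E.c (l * (E.γ i : ℂ)) i j) ?_ ?_) y₁ y₂ z h1 h2 hz hli
  · intro i j
    unfold dg
    split_ifs with hij
    · subst hij
      refine (hν i i).add' ?_
      rw [sub_self]
      exact Or.inr ⟨0, rfl, isHomogeneous_C _ _⟩
    · rw [add_zero]
      exact hν i j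
  · intro k i
    have e1 : vf (N - Matrix.scalar _ l) (E.B k i) =
        ∑ s, pderiv s (E.B k i) * (∑ t, C (N s t) * X t) -
        C l * ∑ s, pderiv s (E.B k i) * X s := by
      rw [der_eq_sum, Finset.mul_sum, ← Finset.sum_sub_distrib]
      refine Finset.sum_congr rfl fun s _ => ?_
      rw [vf_X]
      have h3 : ∑ j, C ((N - Matrix.scalar (Fin (n + 1)) l) s j) * (X j : MvPolynomial (Fin (n + 1)) ℂ) =
          ∑ t, C (N s t) * X t - C l * X s := by
        have h4 : ∀ j, C ((N - Matrix.scalar (Fin (n + 1)) l) s j) * (X j : MvPolynomial (Fin (n + 1)) ℂ) =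
            C (N s j) * X j - (if s = j then C l * X j else 0) := by
          intro j
          rw [Matrix.sub_apply, Matrix.scalar_apply, Matrix.diagonal_apply, C_sub, sub_mul]
          split_ifs
          · rfl
          · rw [C_0, zero_mul]
        simp_rw [h4]
        rw [Finset.sum_sub_distrib, Finset.sum_ite_eq, if_pos (Finset.mem_univ s)]
      rw [h3]
      ring
    rw [e1, euler (E.hom k i), hc]
    have e2 : ∑ l', (μ k l' - dg n E.c (l * (E.γ k : ℂ)) k l') * E.B l' i =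
        ∑ l', μ k l' * E.B l' i - C (l * (E.γ k : ℂ)) * E.B k i := by
      simp only [sub_mul, Finset.sum_sub_distrib]
      congr 1
      rw [Finset.sum_eq_single k]
      · rw [dg, if_pos rfl]
      · intro b _ hb
        rw [dg, if_neg (Ne.symm hb), zero_mul]
      · intro h; exact absurd (Finset.mem_univ _) h
    have e3 : ∑ j, E.B k j * (ν j i + dg n E.a (l * (E.β j : ℂ)) j i) =
        ∑ j, E.B k j * ν j i + C (l * (E.β i : ℂ)) * E.B k i := by
      simp only [mul_add, Finset.sum_add_distrib]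
      congr 1
      rw [Finset.sum_eq_single i]
      · rw [dg, if_pos rfl, mul_comm]
      · intro b _ hb
        rw [dg, if_neg hb, mul_zero]
      · intro h; exact absurd (Finset.mem_univ _) h
    rw [e2, e3]
    push_cast
    simp only [C_mul, C_sub]
    ring

end Pool.Agent.W615
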