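import Pool.Agent.W615.Endo

/-!
# A bundle on the plane with a nowhere vanishing section splits (helper615)
-/

set_option autoImplicit false
set_option maxHeartbeats 400000

open MvPolynomial H960VB H938TB

namespace Pool.Agent.W615

/-- components of products -/
theorem whc_mul {n : ℕ} {ω : Fin (n + 1) → M} {p q : MvPolynomial (Fin (n + 1)) ℂ} {a : M}
    (hp : IsWeightedHomogeneous ω p a) (b : M) :
    weightedHomogeneousComponent ω (a + b) (p * q) = p * weightedHomogeneousComponent ω b q := by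
  classical
  ext d
  rw [coeff_weightedHomogeneousComponent, coeff_mul, coeff_mul]
  split_ifs with hd
  · refine Finset.sum_congr rfl fun x hx => ?_
    rw [Finset.HasAntidiagonal.mem_antidiagonal] at hx
    rw [coeff_weightedHomogeneousComponent]
    by_cases h1 : coeff x.1 p = 0
    · rw [h1, zero_mul, zero_mul]
    · have h2 := hp h1
      rw [if_pos]
      rw [← hx, map_add, h2] at hd
      exact add_left_cancel hd
  · symm
    refine Finset.sum_eq_zero fun x hx => ?_
    rw [Finset.HasAntidiagonal.mem_antidiagonal] at hx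
    rw [coeff_weightedHomogeneousComponent]
    by_cases h1 : coeff x.1 p = 0
    · rw [h1, zero_mul]
    · have h2 := hp h1
      rw [if_neg, mul_zero]
      intro h3
      apply hd
      rw [← hx, map_add, h2, h3]

section
variable {n : ℕ} {w : Fin (n + 1) → ℤ × ℤ} {E : Bundle2 n} {D : EqB E w} (W : Wedge D)

theorem P_hom (i j : Fin E.a) : IsWeightedHomogeneous (tw w) (W.P i j)
    (((E.β i, D.b i) : M) + (E.β j, D.b j) - W.κ) := by
  by_cases h0 : W.P i j = 0
  · rw [h0]
    exact isWeightedHomogeneous_zero _ _ _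
  obtain ⟨μ, μ', G, G', hG, hG', hp⟩ := exists_ne W (D := D) (fun _ => 1)
    (fun h => by simpa using congrFun h 0)
  have h1 : W.wd G G' ≠ 0 := fun h0 => hp (by rw [h0, map_zero])
  have h2 := T3aux.mm_hom hG hG' i j
  have h3 : T3aux.mm G G' i j = W.wd G G' * W.P i j := W.eq G G' hG.ker hG'.ker i j
  rw [h3] at h2
  obtain ⟨e, e', hee, he, he'⟩ := hom_of_mul (tw w) h2 (mul_ne_zero h1 h0)
  have h4 : e = μ + μ' + W.κ := he.inj_right h1 (W.hom _ _ _ _ hG hG')
  have h5 : e' = ((E.β i, D.b i) : M) + (E.β j, D.b j) - W.κ := by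
    have : e' = e + e' - e := by abel
    rw [this, hee, h4]
    abel
  rw [← h5]
  exact he'

/-- the homogeneous component of a vector. -/
noncomputable def vcomp (D : EqB E w) (τ : M) (G : Vec E.a n) : Vec E.a n := fun i =>
  weightedHomogeneousComponent (tw w) (((E.β i, D.b i) : M) + τ) (G i)

theorem vcomp_sec {G : Vec E.a n} (hG : Ker E G) (τ : M) : HSec D τ (vcomp D τ G) where
  hom := fun i => weightedHomogeneousComponent_isWeightedHomogeneous _ _
  ker := by
    intro k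
    have h1 : ∀ i, E.B k i * vcomp D τ G i =
        weightedHomogeneousComponent (tw w) (((E.γ k, D.c k) : M) + τ) (E.B k i * G i) := by
      intro i
      have h2 := whc_mul (q := G i) (D.hB k i) (((E.β i, D.b i) : M) + τ)
      rw [show ((E.γ k, D.c k) - (E.β i, D.b i) + ((E.β i, D.b i) + τ) : M) =
        (E.γ k, D.c k) + τ by abel] at h2
      exact h2.symm
    simp_rw [h1]
    rw [← map_sum, hG k, map_zero]

/-- if `s` has a partner with wedge product one, the bundle splits. -/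
theorem splits_of_partner {τ : M} {s : Vec E.a n} (hs : HSec D τ s) {G : Vec E.a n}
    (hG : Ker E G) (h : W.wd s G = 1) : E.Splits := by
  have h1 := vcomp_sec (D := D) hG (-τ - W.κ)
  refine splits_of_const W hs h1 1 one_ne_zero ?_
  rw [C_1]
  apply wd_eq_of W hs.ker h1.ker
  intro i j
  have h2 := W.eq s G hs.ker hG i j
  rw [h, one_mul] at h2
  have h3 : weightedHomogeneousComponent (tw w)
      (((E.β i, D.b i) : M) + (E.β j, D.b j) - W.κ) (W.P i j) = W.P i j :=
    weightedHomogeneousComponent_eq_self (P_hom W i j)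
  rw [one_mul, ← h3, ← h2, map_sub]
  have e1 := whc_mul (q := G j) (hs.hom i) (((E.β j, D.b j) : M) + (-τ - W.κ))
  have e2 := whc_mul (q := G i) (hs.hom j) (((E.β i, D.b i) : M) + (-τ - W.κ))
  rw [show ((E.β i, D.b i) + τ + ((E.β j, D.b j) + (-τ - W.κ)) : M) =
    ((E.β i, D.b i) : M) + (E.β j, D.b j) - W.κ by abel] at e1
  rw [show ((E.β j, D.b j) + τ + ((E.β i, D.b i) + (-τ - W.κ)) : M) =
    ((E.β i, D.b i) : M) + (E.β j, D.b j) - W.κ by abel] at e2
  rw [e1, e2]
  rfl

/-- powers of the variables are wedge products with a nowhere vanishing section. -/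
theorem exists_pow {s : Vec E.a n} (hs : Ker E s)
    (hnz : ∀ x : Fin (n + 1) → ℂ, x ≠ 0 → evv s x ≠ 0) :
    ∃ N : ℕ, ∀ i : Fin (n + 1), ∃ H : Vec E.a n, Ker E H ∧ W.wd s H = X i ^ N := by
  classical
  let A : Ideal (MvPolynomial (Fin (n + 1)) ℂ) :=
    { carrier := {f | ∃ H : Vec E.a n, Ker E H ∧ W.wd s H = f}
      add_mem' := by
        rintro f g ⟨u, hu, rfl⟩ ⟨v, hv, rfl⟩
        exact ⟨fun i => u i + v i, ker_add hu hv, wd_add_right W hu hv hs⟩
      zero_mem' := ⟨fun _ => 0, ker_zero, wd_zero_right W hs ker_zero (fun _ => rfl)⟩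
      smul_mem' := by
        rintro g f ⟨u, hu, rfl⟩
        exact ⟨fun i => g * u i, ker_mul hu g, wd_mul_right W hu hs g⟩ }
  have hmem : ∀ f, f ∈ A ↔ ∃ H : Vec E.a n, Ker E H ∧ W.wd s H = f := fun f => Iff.rfl
  have hzero : ∀ x : Fin (n + 1) → ℂ, x ∈ zeroLocus ℂ A → x = 0 := by
    intro x hx
    by_contra hx0
    obtain ⟨τ, τ', G, G', hG, hG', hp⟩ := exists_ne W (D := D) x hx0
    have h1 : eval x (W.wd s G) = 0 := by
      have := (mem_zeroLocus_iff.1 hx) _ ((hmem _).2 ⟨G, hG.ker, rfl⟩)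
      simpa [MvPolynomial.aeval_eq_eval] using this
    have h2 : eval x (W.wd s G') = 0 := by
      have := (mem_zeroLocus_iff.1 hx) _ ((hmem _).2 ⟨G', hG'.ker, rfl⟩)
      simpa [MvPolynomial.aeval_eq_eval] using this
    apply hnz x hx0
    funext i
    have h3 := congrArg (eval x) (W.three s G G' hs hG.ker hG'.ker i)
    rw [map_add, map_sub, map_mul, map_mul, map_mul, h1, h2, map_zero, zero_mul, zero_mul,
      sub_zero, add_zero] at h3
    exact (mul_eq_zero.1 h3).resolve_left hp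
  have hrad : ∀ i : Fin (n + 1), ∃ N : ℕ, X i ^ N ∈ A := by
    intro i
    have h1 : (X i : MvPolynomial (Fin (n + 1)) ℂ) ∈ A.radical := by
      rw [← vanishingIdeal_zeroLocus_eq_radical (K := ℂ) A, mem_vanishingIdeal_iff]
      intro x hx
      rw [hzero x hx]
      simp
    exact h1
  choose Nf hNf using hrad
  refine ⟨∑ i, Nf i, fun i => (hmem _).1 ?_⟩
  exact A.pow_mem_of_pow_mem (hNf i) (Finset.single_le_sum (f := Nf) (fun _ _ => Nat.zero_le _)
    (Finset.mem_univ i))

end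

variable {w : Fin 3 → ℤ × ℤ} {E : Bundle2 2} {D : EqB E w}

/-- **A rank two bundle on the plane with a nowhere vanishing section splits.** -/
theorem splits_of_nowhere_zero {τ : M} {s : Vec E.a 2} (hs : HSec D τ s)
    (hnz : ∀ x : Fin 3 → ℂ, x ≠ 0 → evv s x ≠ 0) : E.Splits := by
  obtain ⟨W⟩ := exists_wedge (by norm_num) D
  have hp : Prm s := prm_of_no_zero (by norm_num) hnz
  obtain ⟨N, hN⟩ := exists_pow W hs.ker hnz
  obtain ⟨H0, hH0, w0⟩ := hN 0
  obtain ⟨H1, hH1, w1⟩ := hN 1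
  obtain ⟨H2, hH2, w2⟩ := hN 2
  have key : ∀ (p q : MvPolynomial (Fin 3) ℂ) (H K : Vec E.a 2), Ker E H → Ker E K →
      p * W.wd s H = q * W.wd s K → ∃ f, ∀ i, p * H i - q * K i = f * s i := by
    intro p q H K hH hK h
    apply hp.dvd_wd W hs.ker (ker_sub (ker_mul hH p) (ker_mul hK q))
    rw [wd_sub_right W (ker_mul hH p) (ker_mul hK q) hs.ker, wd_mul_right W hH hs.ker,
      wd_mul_right W hK hs.ker, h, sub_self]
  obtain ⟨f01, h01⟩ := key (X 1 ^ N) (X 0 ^ N) H0 H1 hH0 hH1 (by rw [w0, w1]; ring)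
  obtain ⟨f12, h12⟩ := key (X 2 ^ N) (X 1 ^ N) H1 H2 hH1 hH2 (by rw [w1, w2]; ring)
  obtain ⟨f20, h20⟩ := key (X 0 ^ N) (X 2 ^ N) H2 H0 hH2 hH0 (by rw [w0, w2]; ring)
  obtain ⟨i0, hi0⟩ := hp.ne
  have hrel : X 2 ^ N * f01 = X 1 ^ N * (-f20) - X 0 ^ N * f12 := by
    apply mul_right_cancel₀ hi0
    linear_combination (-X 2 ^ N) * h01 i0 - X 0 ^ N * h12 i0 - X 1 ^ N * h20 i0
  obtain ⟨b₀, b₁, hb⟩ := H1_mono (0 : Fin 3) 1 2 (by decide) (by decide) N f01 (-f20) f12 hrel
  -- the corrected sections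
  have h3 : ∀ i, X 1 ^ N * (H0 i - b₀ * s i) = X 0 ^ N * (H1 i - b₁ * s i) := by
    intro i
    linear_combination h01 i + s i * hb
  have h4 : ∀ i, (X 0 : MvPolynomial (Fin 3) ℂ) ^ N ∣ H0 i - b₀ * s i := by
    intro i
    refine Prime.pow_dvd_of_dvd_mul_left (X_prime (i := (0 : Fin 3)) (R := ℂ)) N
      (a := X 1 ^ N) ?_ ⟨_, h3 i⟩
    intro h5
    have h6 := (X_prime (i := (0 : Fin 3)) (R := ℂ)).dvd_of_dvd_pow h5
    rw [X_dvd_X] at h6
    exact absurd h6 (by decide)
  choose G hG using h4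
  have hX : (X 0 : MvPolynomial (Fin 3) ℂ) ^ N ≠ 0 := pow_ne_zero _ (X_ne_zero _)
  have hK : Ker E (fun i => H0 i - b₀ * s i) := ker_sub hH0 (ker_mul hs.ker b₀)
  have hGk : Ker E G := by
    apply ker_of_mul hX
    have h5 : (fun i => X 0 ^ N * G i) = fun i => H0 i - b₀ * s i := funext fun i => (hG i).symm
    rw [h5]
    exact hK
  refine splits_of_partner W hs hGk ?_
  apply mul_left_cancel₀ hX
  have h6 := wd_of_mul_right W hGk hs.ker (K := s) hG
  rw [← h6, wd_sub_right W hH0 (ker_mul hs.ker b₀) hs.ker, wd_mul_right W hs.ker hs.ker,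
    wd_self W hs.ker, w0]
  ring

end Pool.Agent.W615
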