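import Pool.Agent.W615.Fx

/-!
# Elations of the three-dimensional space (helper615)
-/

set_option autoImplicit false
set_option maxHeartbeats 400000

open MvPolynomial H960VB H938TB

namespace Pool.Agent.W615

/-- a polynomial vanishing on a punctured line vanishes on the line -/
theorem line_zero {N : ℕ} (p : MvPolynomial (Fin N) ℂ) (x y : Fin N → ℂ)
    (h : ∀ w : ℂ, w ≠ 0 → eval (x + w • y) p = 0) : eval x p = 0 := by
  let ψ : MvPolynomial (Fin N) ℂ →ₐ[ℂ] Polynomial ℂ :=
    aeval (fun i => Polynomial.C (x i) + Polynomial.C (y i) * Polynomial.X)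
  have hψ : ∀ (w : ℂ) (p : MvPolynomial (Fin N) ℂ),
      Polynomial.eval w (ψ p) = eval (x + w • y) p := by
    intro w p
    induction p using MvPolynomial.induction_on with
    | C a => simp [ψ]
    | add p q hp hq => rw [map_add, Polynomial.eval_add, hp, hq, map_add]
    | mul_X p i hp =>
      rw [map_mul, Polynomial.eval_mul, hp, map_mul, eval_X]
      congr 1
      simp [ψ]
      ring
  have h1 : Polynomial.X * ψ p = 0 := by
    refine Polynomial.funext fun w => ?_
    rw [Polynomial.eval_mul, Polynomial.eval_X, Polynomial.eval_zero, hψ]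
    by_cases hw : w = 0
    · rw [hw, zero_mul]
    · rw [h w hw, mul_zero]
  have h2 : ψ p = 0 := (mul_eq_zero.1 h1).resolve_left Polynomial.X_ne_zero
  have h3 := hψ 0 p
  rw [h2, Polynomial.eval_zero, zero_smul, add_zero] at h3
  exact h3.symm

/-- **Elations of `P^3`**: the action at the centre is scalar. -/
theorem elB {E : Bundle2 (2 + 1)} {k : Fin (2 + 1)} (hE : ¬ E.Splits)
    (L : Lft (triv E) 0 (elat k)) : Sc L (Pi.single k.castSucc 1) := by
  have hF : ¬ (resE E).Splits := fun h =>
    hE (splits_of_cInc (by omega) (by omega) _ _ (Fin.castSucc_injective _) h)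
  obtain ⟨W⟩ := exists_wedge (by omega) (triv E)
  obtain ⟨W'⟩ := exists_wedge (by omega) (resD E)
  obtain ⟨l, hl⟩ := exists_eigen W' (resL L) (by omega)
  have hdet : ∀ G G' : Vec E.a 2, Ker (resE E) G → Ker (resE E) G' →
      W'.wd (ep (L.shift l) G) (ep (L.shift l) G') = 0 := by
    intro G G' hG hG'
    have h3 := hl G G' hG hG'
    have h4 : ∀ H : Vec E.a 2, ((resL L).shift l).op H = ep (L.shift l) H := by
      intro H
      funext i
      rw [Lft.shift_op, ep_eq, ep_shift]
    rw [h4, h4] at h3
    exact h3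
  obtain ⟨e⟩ := exists_ED (by omega) hE hF (L.shift l) W W' hdet
  set v : Fin (2 + 1) → ℂ := Pi.single k 1 with hv
  have hv0 : v ≠ 0 := fun h => by simpa [hv] using congrFun h k
  have hz : evv e.s v = 0 := by
    by_contra hne
    apply hF
    refine splits_of_nowhere_zero e.hs fun q hq h0 => ?_
    have key : ∀ z : ℂ, q + z • v ≠ 0 → evv e.s (q + z • v) = 0 := by
      intro z hz
      by_contra h1
      exact e.ne_zero_of (by omega) W hq z hz h1 h0
    by_cases hqv : ∃ z : ℂ, q + z • v = 0
    · obtain ⟨z, hz⟩ := hqv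
      have hz0 : z ≠ 0 := by
        rintro rfl
        rw [zero_smul, add_zero] at hz
        exact hq hz
      apply hne
      funext i
      have h1 := eval_smul_of (e.hs.hom i) (-z⁻¹) q (congrFun h0 i)
      have h2 : (-z⁻¹) • q = v := by
        have h3 : q = -(z • v) := eq_neg_of_add_eq_zero_left hz
        rw [h3, smul_neg, neg_smul, neg_neg, smul_smul, inv_mul_cancel₀ hz0, one_smul]
      rw [h2] at h1
      exact h1
    · push Not at hqv
      apply hne
      funext i
      show eval v (e.s i) = 0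
      refine line_zero (e.s i) v q fun w hw => ?_
      have h1 := eval_smul_of (e.hs.hom i) w _ (congrFun (key w⁻¹ (hqv w⁻¹)) i)
      have h2 : w • (q + w⁻¹ • v) = v + w • q := by
        rw [smul_add, smul_smul, mul_inv_cancel₀ hw, one_smul]
        exact add_comm _ _
      rw [h2] at h1
      exact h1
  refine ⟨l, fun G hG => ?_⟩
  have hh : hI 2 v = Pi.single k.castSucc 1 := cInc_single _ _
  obtain ⟨f, hf⟩ := e.img (rv_ker hG)
  funext i
  have h1 : eval v (rv ((L.shift l).op G) i) = 0 := by
    rw [rv_op, hf, map_mul, show eval v (e.s i) = 0 from congrFun hz i, mul_zero]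
  have h2 : eval v (rv ((L.shift l).op G) i) = eval (hI 2 v) ((L.shift l).op G i) :=
    eval_lsub _ _ _
  rw [h2, hh, Lft.shift_op, map_sub, map_mul, eval_C] at h1
  exact sub_eq_zero.1 h1

section
variable {n : ℕ} {E : Bundle2 n} {N : Matrix (Fin (n + 1)) (Fin (n + 1)) ℂ}

/-- an elation of a three-dimensional subspace: the action at the centre is scalar. -/
theorem sc_three (hE : ¬ E.Splits) (L : Lft (triv E) 0 (vf N)) {y z₁ z₂ : Fin (n + 1) → ℂ}
    (hy : N.mulVec (N.mulVec y) = 0) (h₁ : N.mulVec z₁ = 0) (h₂ : N.mulVec z₂ = 0)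
    (hli : LinearIndependent ℂ ![N.mulVec y, z₁, z₂]) : Sc L (N.mulVec y) := by
  set c := N.mulVec y with hc
  have hc0 : c ≠ 0 := hli.ne_zero 0
  have hli5 : LinearIndependent ℂ ![c, z₁, z₂, y] := by
    rw [Fintype.linearIndependent_iff]
    intro g hg
    rw [Fin.sum_univ_four] at hg
    simp only [Matrix.cons_val] at hg
    have h3 := congrArg N.mulVec hg
    rw [Matrix.mulVec_add, Matrix.mulVec_add, Matrix.mulVec_add,
      Matrix.mulVec_smul, Matrix.mulVec_smul, Matrix.mulVec_smul, Matrix.mulVec_smul,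
      hy, h₁, h₂, Matrix.mulVec_zero, smul_zero, smul_zero, smul_zero,
      zero_add, zero_add, zero_add] at h3
    have h4 : g 3 = 0 := (smul_eq_zero.1 h3).resolve_right hc0
    rw [h4, zero_smul, add_zero] at hg
    have h5 := (Fintype.linearIndependent_iff.1 hli) ![g 0, g 1, g 2] (by
      rw [Fin.sum_univ_three]
      simpa using hg)
    intro i
    fin_cases i
    · exact h5 0
    · exact h5 1
    · exact h5 2
    · exact h4
  let T : (Fin (2 + 1 + 1) → ℂ) →ₗ[ℂ] (Fin (n + 1) → ℂ) :=
    Fintype.linearCombination ℂ ![c, z₁, z₂, y]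
  have hTs : ∀ t, T (Pi.single t 1) = ![c, z₁, z₂, y] t := by
    intro t
    simp only [T]
    rw [Fintype.linearCombination_apply_single, one_smul]
  have hT : Function.Injective T := hli5.fintypeLinearCombination_injective
  have h0 : ∀ t : Fin (2 + 1), N.mulVec (T (Pi.single t.castSucc 1)) = 0 := by
    intro t
    rw [hTs]
    fin_cases t
    · exact hy
    · exact h₁
    · exact h₂
  have h1 : N.mulVec (T (Pi.single (Fin.last (2 + 1)) 1)) =
      T (Pi.single (0 : Fin (2 + 1)).castSucc 1) := by
    rw [hTs, hTs]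
    rfl
  have h4n : 3 ≤ n := by
    have h3 := LinearMap.finrank_le_finrank_of_injective hT
    rw [Module.finrank_fintype_fun_eq_card, Module.finrank_fintype_fun_eq_card, Fintype.card_fin,
      Fintype.card_fin] at h3
    omega
  have hE' : ¬ (E.pull T hT).Splits := fun h =>
    hE (Bundle2.splits_of_pull (n - 3) 3 n (by norm_num) (by omega) E T hT h)
  have h2 := elB hE' (elaLft L T hT 0 h0 h1)
  have h3 := sc_pull L T hT _ _ _ _ _ h2
  have h4 : T (Pi.single (0 : Fin (2 + 1)).castSucc 1) = c := hTs 0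
  rw [h4] at h3
  exact h3

/-- three blocks, one of which has size at least three. -/
theorem three_blocks (L : Lft (triv E) 0 (vf N)) {u z₁ z₂ : Fin (n + 1) → ℂ}
    (hu : N.mulVec (N.mulVec (N.mulVec u)) = 0) (h₁ : N.mulVec z₁ = 0) (h₂ : N.mulVec z₂ = 0)
    (hli : LinearIndependent ℂ ![N.mulVec (N.mulVec u), z₁, z₂]) : E.Splits := by
  by_contra hE
  exact not_sc_string hE L hu (hli.ne_zero 0) (sc_three hE L hu h₁ h₂ hli)

end

end Pool.Agent.W615
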