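import Pool.Agent.W615.ElB

/-!
# Lifts of elations with two eigenvalues (helper615)
-/

set_option autoImplicit false
set_option maxHeartbeats 400000

open MvPolynomial H960VB H938TB

namespace Pool.Agent.W615

section
variable {m : ℕ} {E : Bundle2 (m + 1)} {k : Fin (m + 1)}

theorem elat_eig {p γ : MvPolynomial (Fin (m + 1 + 1)) ℂ} (h : elat k p = γ * p) :
    elat k p = 0 := by
  by_contra hne
  have hf : p ≠ 0 := fun h0 => hne (by rw [h0, map_zero])
  have hγ : γ ≠ 0 := fun h0 => hne (by rw [h, h0, zero_mul])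
  rw [elat_apply] at h hne
  have hp : pderiv k.castSucc p ≠ 0 := fun h0 => hne (by rw [h0, mul_zero])
  have h1 : degreeOf k.castSucc (tX m * pderiv k.castSucc p) =
      degreeOf k.castSucc (pderiv k.castSucc p) := by
    rw [degreeOf_mul_eq (tX_ne m) hp, degreeOf_X, if_neg (Fin.castSucc_ne_last k), zero_add]
  have h2 : degreeOf k.castSucc (γ * p) = degreeOf k.castSucc γ + degreeOf k.castSucc p :=
    degreeOf_mul_eq hγ hf
  have h3 : degreeOf k.castSucc (pderiv k.castSucc p) + 1 ≤ degreeOf k.castSucc p := by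
    obtain ⟨u, hu, h4⟩ : ∃ u ∈ (pderiv k.castSucc p).support,
        degreeOf k.castSucc (pderiv k.castSucc p) = u k.castSucc := by
      rw [degreeOf_eq_sup]
      exact Finset.exists_mem_eq_sup _ (support_nonempty.2 hp) _
    rw [mem_support_iff, coeff_pderiv] at hu
    have h5 := monomial_le_degreeOf k.castSucc (mem_support_iff.2 (left_ne_zero_of_mul hu))
    rw [h4]
    simpa using h5
  rw [h] at h1
  omega

/-- nilpotent sections for a lift with nonzero trace are parallel. -/
theorem par_nil (W : Wedge (triv E)) (L : Lft (triv E) 0 (elat k)) {θ : ℂ} (hθ : θ ≠ 0)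
    (htr : ∀ G G', Ker E G → Ker E G' →
      W.wd (L.op G) G' + W.wd G (L.op G') = elat k (W.wd G G') + C θ * W.wd G G')
    {G G' : Vec E.a (m + 1)} (hG : Ker E G) (hG' : Ker E G') {a : ℕ}
    (h : ∀ i, L.op^[a] G i = 0) (h' : ∀ i, L.op^[a] G' i = 0) : W.wd G G' = 0 := by
  have hk : ∀ (j : ℕ) (H : Vec E.a (m + 1)), Ker E H → Ker E (L.op^[j] H) := by
    intro j H hH
    induction j with
    | zero => exact hH
    | succ j ih =>
      rw [Function.iterate_succ_apply']
      exact L.op_ker ih
  have hz : ∀ (j : ℕ) (H : Vec E.a (m + 1)), (∀ i, L.op^[a] H i = 0) → a ≤ j →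
      ∀ i, L.op^[j] H i = 0 := by
    intro j H hH haj
    induction j, haj using Nat.le_induction with
    | base => exact hH
    | succ j _ ih =>
      intro i
      rw [Function.iterate_succ_apply']
      exact L.op_zero ih i
  have key : ∀ (r i j : ℕ), 2 * a ≤ i + j + r → W.wd (L.op^[i] G) (L.op^[j] G') = 0 := by
    intro r
    induction r with
    | zero =>
      intro i j hij
      rcases Nat.lt_or_ge i a with hi | hi
      · exact wd_zero_right W (hk i G hG) (hk j G' hG') (hz j G' h' (by omega))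
      · exact wd_zero_left W (hk i G hG) (hk j G' hG') (hz i G h hi)
    | succ r ih =>
      intro i j hij
      have h1 := htr _ _ (hk i G hG) (hk j G' hG')
      rw [show L.op (L.op^[i] G) = L.op^[i + 1] G from (Function.iterate_succ_apply' L.op i G).symm,
        show L.op (L.op^[j] G') = L.op^[j + 1] G' from (Function.iterate_succ_apply' L.op j G').symm,
        ih (i + 1) j (by omega), ih i (j + 1) (by omega), add_zero] at h1
      have h2 : elat k (W.wd (L.op^[i] G) (L.op^[j] G')) =
          (-C θ) * W.wd (L.op^[i] G) (L.op^[j] G') := by linear_combination -h1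
      have h3 := elat_eig h2
      rw [h3] at h2
      rcases mul_eq_zero.1 h2.symm with h4 | h4
      · exact absurd (C_eq_zero.1 (neg_eq_zero.1 h4)) hθ
      · exact h4
  exact key (2 * a) 0 0 (by omega)

/-- the lift as a linear map -/
noncomputable def Lop (L : Lft (triv E) 0 (elat k)) : Module.End ℂ (Vec E.a (m + 1)) where
  toFun G := L.op G
  map_add' G H := L.op_add G H
  map_smul' c G := by
    funext i
    have h1 : ∀ i, (c • G) i = C c * G i := fun i => by
      rw [Pi.smul_apply, smul_eq_C_mul]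
    rw [op_mul_at L h1]
    show _ = (c • L.op G) i
    rw [Pi.smul_apply, smul_eq_C_mul, derivation_C, zero_mul, zero_add]

theorem Lop_apply (L : Lft (triv E) 0 (elat k)) (G : Vec E.a (m + 1)) : Lop L G = L.op G := rfl

theorem aeval_sec (L : Lft (triv E) 0 (elat k)) (p : Polynomial ℂ) {τ : M} {G : Vec E.a (m + 1)}
    (hG : HSec (triv E) τ G) : HSec (triv E) τ (Polynomial.aeval (Lop L) p G) := by
  have hz : HSec (triv E) τ (0 : Vec E.a (m + 1)) :=
    ⟨fun i => isWeightedHomogeneous_zero _ _ _, ker_zero⟩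
  have hs : ∀ (c : ℂ) (H : Vec E.a (m + 1)), HSec (triv E) τ H → HSec (triv E) τ (c • H) := by
    intro c H hH
    have h1 : c • H = fun i => C c * H i := by
      funext i
      rw [Pi.smul_apply, smul_eq_C_mul]
    rw [h1]
    exact hsec_mul (wh_C _) hH (zero_add _).symm
  have hp : ∀ j : ℕ, HSec (triv E) τ ((Lop L ^ j) G) := by
    intro j
    induction j with
    | zero => exact hG
    | succ j ih =>
      rw [pow_succ', Module.End.mul_apply]
      have h := L.op_hom ih
      rwa [add_zero] at h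
  rw [Polynomial.aeval_eq_sum_range, LinearMap.sum_apply]
  induction Finset.range (p.natDegree + 1) using Finset.induction_on with
  | empty => exact hz
  | insert a s ha ih =>
    rw [Finset.sum_insert ha]
    exact hsec_add (hs _ _ (hp a)) ih

theorem Lop_pow (L : Lft (triv E) 0 (elat k)) (j : ℕ) (G : Vec E.a (m + 1)) :
    (Lop L ^ j) G = L.op^[j] G := by
  rw [Module.End.pow_apply]
  rfl

/-- a bundle with a lift having two eigenvalues splits. -/
theorem two_eig (hm : 1 ≤ m) (W : Wedge (triv E)) (W' : Wedge (resD E))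
    (L : Lft (triv E) 0 (elat k)) {θ : ℂ} (hθ : θ ≠ 0)
    (htr : ∀ H H' : Vec E.a m, Ker (resE E) H → Ker (resE E) H' →
      W'.wd (ep L H) H' + W'.wd H (ep L H') = C θ * W'.wd H H')
    (hsq : ∀ H : Vec E.a m, Ker (resE E) H → ∀ i, ep L (ep L H) i = C θ * ep L H i) :
    E.Splits := by
  classical
  obtain ⟨c, hc, hcw⟩ := res_wd hm W W'
  -- the trace
  obtain ⟨θ', -, hθ'⟩ := L.exists_trace W (by omega) rfl
  have h1ne : (fun _ => 1 : Fin (m + 1) → ℂ) ≠ 0 := fun h => by simpa using congrFun h 0
  have hth : θ' = θ := by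
    obtain ⟨τ, τ', G, G', hG, hG', hp⟩ := exists_ne W (D := triv E) (hI m (fun _ => 1))
      (fun h => h1ne (hI_inj m (h.trans (map_zero _).symm)))
    have a1 := congrArg (lsub (hI m)) (hθ' G G' hG.ker hG'.ker)
    have a3 : lsub (hI m) (C θ') = C θ' := by
      rw [lsub, aeval_C]
      rfl
    rw [map_add, map_add, map_mul, elat_apply, map_mul, lsub_tX, zero_mul, zero_add, a3,
      hcw _ _ (L.op_ker hG.ker) hG'.ker, hcw _ _ hG.ker (L.op_ker hG'.ker),
      hcw _ _ hG.ker hG'.ker] at a1
    have r1 : ∀ H : Vec E.a (m + 1), rv (L.op H) = ep L (rv H) := fun H => by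
      ext1 j
      exact rv_op L H j
    have a1' : C c * W'.wd (ep L (rv G)) (rv G') + C c * W'.wd (rv G) (ep L (rv G')) =
        C θ' * (C c * W'.wd (rv G) (rv G')) :=
      (congrArg₂ (fun z z' => C c * W'.wd z (rv G') + C c * W'.wd (rv G) z') (r1 G)
        (r1 G')).symm.trans a1
    have key : ∀ y1 y2 w : MvPolynomial (Fin (m + 1)) ℂ,
        C c * y1 + C c * y2 = C θ' * (C c * w) → y1 + y2 = C θ * w →
        (C θ' - C θ) * (C c * w) = 0 := by
      intro y1 y2 w h1 h2
      linear_combination (C c) * h2 - h1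
    have a4 := htr (rv G) (rv G') (rv_ker hG.ker) (rv_ker hG'.ker)
    have a5 : C c * W'.wd (rv G) (rv G') ≠ 0 := by
      have a6 := hcw G G' hG.ker hG'.ker
      intro h0
      apply hp
      rw [← eval_lsub, a6]
      have : eval (fun _ => 1 : Fin (m + 1) → ℂ) (C c * W'.wd (rv G) (rv G')) = 0 := by
        rw [h0, map_zero]
      exact this
    have a7 : (C θ' - C θ : MvPolynomial (Fin (m + 1)) ℂ) * (C c * W'.wd (rv G) (rv G')) = 0 :=
      key _ _ _ a1' a4
    have a8 := (mul_eq_zero.1 a7).resolve_right a5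
    rw [← C_sub, C_eq_zero] at a8
    exact sub_eq_zero.1 a8
  rw [hth] at hθ'
  have htr2 : ∀ G G', Ker E G → Ker E G' →
      W.wd ((L.shift θ).op G) G' + W.wd G ((L.shift θ).op G') =
        elat k (W.wd G G') + C (-θ) * W.wd G G' := by
    intro G G' hG hG'
    have e1 : ∀ G, (L.shift θ).op G = fun i => L.op G i - C θ * G i :=
      fun G => funext fun i => L.shift_op θ G i
    have e2 := hθ' G G' hG hG'
    rw [e1, e1, wd_sub_left W (L.op_ker hG) (ker_mul hG _) hG',
      wd_sub_right W (L.op_ker hG') (ker_mul hG' _) hG, W.smul _ _ _ hG hG',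
      wd_mul_right W hG' hG, C_neg]
    linear_combination e2
  -- local finiteness
  have hfin : ∀ (d : ℕ) (τ : M) (G : Vec E.a (m + 1)), HSec (triv E) τ G →
      τ.1 + ∑ i, |E.β i| < d → ∃ r : ℕ, ∀ i,
        Polynomial.aeval (Lop L) ((Polynomial.X * (Polynomial.X - Polynomial.C θ)) ^ r) G i = 0 := by
    intro d
    induction d with
    | zero =>
      intro τ G hG hlt
      refine ⟨0, fun i => ?_⟩
      rw [pow_zero, map_one, Module.End.one_apply]
      by_contra hne
      have h3 := degree_nonneg (hG.hom i) hne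
      have h4 : ((E.β i, (triv E).b i) + τ : M).1 = E.β i + τ.1 := rfl
      rw [h4] at h3
      have h5 : E.β i ≤ ∑ i, |E.β i| := (le_abs_self _).trans
        (Finset.single_le_sum (f := fun i => |E.β i|) (fun _ _ => abs_nonneg _)
          (Finset.mem_univ i))
      push_cast at hlt
      linarith
    | succ d ih =>
      intro τ G hG hlt
      set q : Polynomial ℂ := Polynomial.X * (Polynomial.X - Polynomial.C θ) with hq
      have h1 : HSec (triv E) τ (Polynomial.aeval (Lop L) q G) := aeval_sec L q hG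
      have e1 : ∀ i, Polynomial.aeval (Lop L) q G i = L.op (L.op G) i - C θ * L.op G i := by
        intro i
        have e2 : Polynomial.aeval (Lop L) q G = Lop L (Lop L G) - θ • Lop L G := by
          rw [hq, mul_sub, map_sub, map_mul, map_mul, Polynomial.aeval_X, Polynomial.aeval_C,
            LinearMap.sub_apply, Module.End.mul_apply, Module.End.mul_apply,
            Module.algebraMap_end_apply, map_smul]
        rw [e2, Pi.sub_apply, Pi.smul_apply, smul_eq_C_mul]
        rfl
      have h2 : ∀ i, rv (Polynomial.aeval (Lop L) q G) i = 0 := by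
        intro i
        show lsub (hI m) (Polynomial.aeval (Lop L) q G i) = 0
        rw [e1, map_sub, map_mul]
        have a3 : lsub (hI m) (C θ) = C θ := by
          rw [lsub, aeval_C]
          rfl
        have r1 : ∀ H : Vec E.a (m + 1), ∀ i, lsub (hI m) (L.op H i) = ep L (rv H) i :=
          fun H i => rv_op L H i
        have r2 : rv (L.op G) = ep L (rv G) := by
          ext1 j
          exact rv_op L G j
        rw [a3, r1, r1, r2]
        exact sub_eq_zero.2 (hsq (rv G) (rv_ker hG.ker) i)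
      obtain ⟨G', k', hG'⟩ := exists_div h1.ker h2
      have h3 := sec_div (j := Fin.last (m + 1)) h1 hG'
      obtain ⟨r, hr⟩ := ih _ G' h3 (by
        show τ.1 - 1 + ∑ i, |E.β i| < (d : ℤ)
        push_cast at hlt
        linarith)
      refine ⟨r + 1, fun i => ?_⟩
      rw [pow_succ, map_mul, Module.End.mul_apply]
      -- the operators commute with multiplication by the last coordinate
      have hcom : ∀ (p : Polynomial ℂ) (H K : Vec E.a (m + 1)), (∀ i, H i = tX m * K i) →
          ∀ i, Polynomial.aeval (Lop L) p H i = tX m * Polynomial.aeval (Lop L) p K i := by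
        intro p
        induction p using Polynomial.induction_on with
        | C a =>
          intro H K hHK i
          rw [Polynomial.aeval_C, Module.algebraMap_end_apply, Module.algebraMap_end_apply,
            Pi.smul_apply, Pi.smul_apply, hHK, mul_smul_comm]
        | add p p' hp hp' =>
          intro H K hHK i
          rw [map_add, LinearMap.add_apply, LinearMap.add_apply, Pi.add_apply, Pi.add_apply,
            hp H K hHK, hp' H K hHK, mul_add]
        | monomial j a hj =>
          intro H K hHK i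
          rw [pow_succ, ← mul_assoc, map_mul, Module.End.mul_apply, Module.End.mul_apply,
            Polynomial.aeval_X]
          exact hj _ _ (fun i => op_tX L hHK i) i
      rw [hcom _ _ _ hG', hr, mul_zero]
  -- decomposition
  have hdec : ∀ (τ : M) (G : Vec E.a (m + 1)), HSec (triv E) τ G →
      ∃ (r : ℕ) (A B : Vec E.a (m + 1)), HSec (triv E) τ A ∧ HSec (triv E) τ B ∧
        (∀ i, G i = A i + B i) ∧ (∀ i, L.op^[r] A i = 0) ∧
        ∀ i, (L.shift θ).op^[r] B i = 0 := by
    intro τ G hG
    obtain ⟨d, hd⟩ : ∃ d : ℕ, τ.1 + ∑ i, |E.β i| < d :=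
      ⟨(τ.1 + ∑ i, |E.β i| + 1).toNat, by
        have := Int.self_le_toNat (τ.1 + ∑ i, |E.β i| + 1)
        omega⟩
    obtain ⟨r, hr⟩ := hfin d τ G hG hd
    have hcop : IsCoprime ((Polynomial.X : Polynomial ℂ) ^ r)
        ((Polynomial.X - Polynomial.C θ) ^ r) := by
      apply IsCoprime.pow
      have h1 := Polynomial.isCoprime_X_sub_C_of_isUnit_sub (R := ℂ) (a := 0) (b := θ)
        (isUnit_iff_ne_zero.2 (by rw [zero_sub]; exact neg_ne_zero.2 hθ))
      rwa [Polynomial.C_0, sub_zero] at h1
    obtain ⟨u, v, huv⟩ := hcop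
    have hr' : Polynomial.aeval (Lop L) ((Polynomial.X * (Polynomial.X - Polynomial.C θ)) ^ r) G =
      0 := funext hr
    refine ⟨r, Polynomial.aeval (Lop L) (v * (Polynomial.X - Polynomial.C θ) ^ r) G,
      Polynomial.aeval (Lop L) (u * Polynomial.X ^ r) G, aeval_sec L _ hG, aeval_sec L _ hG,
      fun i => ?_, fun i => ?_, fun i => ?_⟩
    · rw [← Pi.add_apply, ← LinearMap.add_apply, ← map_add,
        add_comm (v * (Polynomial.X - Polynomial.C θ) ^ r), huv, map_one,
        Module.End.one_apply]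
    · rw [← Lop_pow, ← Polynomial.aeval_X (Lop L) (R := ℂ)]
      have e1 : (Polynomial.aeval (Lop L) (Polynomial.X : Polynomial ℂ)) ^ r =
        Polynomial.aeval (Lop L) ((Polynomial.X : Polynomial ℂ) ^ r) := (map_pow _ _ _).symm
      rw [Polynomial.aeval_X] at e1 ⊢
      rw [e1, ← Module.End.mul_apply, ← map_mul]
      have e2 : (Polynomial.X : Polynomial ℂ) ^ r * (v * (Polynomial.X - Polynomial.C θ) ^ r) =
          v * (Polynomial.X * (Polynomial.X - Polynomial.C θ)) ^ r := by
        rw [mul_pow]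
        ring
      rw [e2, map_mul, Module.End.mul_apply, hr', map_zero]
      rfl
    · have e0 : Polynomial.aeval (Lop L) (Polynomial.X - Polynomial.C θ : Polynomial ℂ) =
          Lop (L.shift θ) := by
        refine LinearMap.ext fun H => ?_
        rw [map_sub, Polynomial.aeval_X, Polynomial.aeval_C, LinearMap.sub_apply,
          Module.algebraMap_end_apply]
        funext i
        rw [Pi.sub_apply, Pi.smul_apply, smul_eq_C_mul]
        exact (L.shift_op θ H i).symm
      rw [← Lop_pow, ← e0]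
      have e1 : (Polynomial.aeval (Lop L) (Polynomial.X - Polynomial.C θ : Polynomial ℂ)) ^ r =
        Polynomial.aeval (Lop L) ((Polynomial.X - Polynomial.C θ : Polynomial ℂ) ^ r) :=
          (map_pow _ _ _).symm
      rw [e1, ← Module.End.mul_apply, ← map_mul]
      have e2 : (Polynomial.X - Polynomial.C θ : Polynomial ℂ) ^ r * (u * Polynomial.X ^ r) =
          u * (Polynomial.X * (Polynomial.X - Polynomial.C θ)) ^ r := by
        rw [mul_pow]
        ring
      rw [e2, map_mul, Module.End.mul_apply, hr', map_zero]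
      rfl
  have hzero : ∀ (L' : Lft (triv E) 0 (elat k)) (r r' : ℕ) (H : Vec E.a (m + 1)), r ≤ r' →
      (∀ i, L'.op^[r] H i = 0) → ∀ i, L'.op^[r'] H i = 0 := by
    intro L' r r' H hrr h
    induction r', hrr using Nat.le_induction with
    | base => exact h
    | succ j _ ih =>
      intro i
      rw [Function.iterate_succ_apply']
      exact L'.op_zero ih i
  have parA : ∀ (r r' : ℕ) (H H' : Vec E.a (m + 1)), Ker E H → Ker E H' →
      (∀ i, L.op^[r] H i = 0) → (∀ i, L.op^[r'] H' i = 0) → W.wd H H' = 0 :=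
    fun r r' H H' hH hH' h h' => par_nil W L hθ hθ' hH hH' (a := max r r')
      (hzero L _ _ _ (le_max_left _ _) h) (hzero L _ _ _ (le_max_right _ _) h')
  have parB : ∀ (r r' : ℕ) (H H' : Vec E.a (m + 1)), Ker E H → Ker E H' →
      (∀ i, (L.shift θ).op^[r] H i = 0) → (∀ i, (L.shift θ).op^[r'] H' i = 0) →
      W.wd H H' = 0 :=
    fun r r' H H' hH hH' h h' => par_nil W (L.shift θ) (neg_ne_zero.2 hθ) htr2 hH hH'
      (a := max r r')
      (hzero _ _ _ _ (le_max_left _ _) h) (hzero _ _ _ _ (le_max_right _ _) h')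
  -- nonzero eigensections
  have hne2 : ∀ (x : Fin (m + 1 + 1) → ℂ), x ≠ 0 → ∃ (r r' : ℕ) (τ τ' : M)
      (A B : Vec E.a (m + 1)), HSec (triv E) τ A ∧ HSec (triv E) τ' B ∧ (∀ i, L.op^[r] A i = 0) ∧
        (∀ i, (L.shift θ).op^[r'] B i = 0) ∧ eval x (W.wd A B) ≠ 0 := by
    intro x hx
    obtain ⟨τ, τ', G, G', hG, hG', hp⟩ := exists_ne W (D := triv E) x hx
    obtain ⟨r, A, B, hA, hB, hAB, eA, eB⟩ := hdec τ G hG
    obtain ⟨r', A', B', hA', hB', hAB', eA', eB'⟩ := hdec τ' G' hG'
    have h1 : W.wd G G' = W.wd A B' + W.wd B A' := by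
      rw [show G = fun i => A i + B i from funext hAB,
        show G' = fun i => A' i + B' i from funext hAB',
        wd_add_left W hA.ker hB.ker (ker_add hA'.ker hB'.ker),
        wd_add_right W hA'.ker hB'.ker hA.ker, wd_add_right W hA'.ker hB'.ker hB.ker,
        parA r r' A A' hA.ker hA'.ker eA eA', parB r r' B B' hB.ker hB'.ker eB eB']
      ring
    rw [h1, map_add] at hp
    by_cases h2 : eval x (W.wd A B') = 0
    · rw [h2, zero_add] at hp
      refine ⟨r', r, τ', τ, A', B, hA', hB, eA', eB, ?_⟩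
      rw [W.anti A' B hA'.ker hB.ker, map_neg]
      exact neg_ne_zero.2 hp
    · exact ⟨r, r', τ, τ', A, B', hA, hB', eA, eB', h2⟩
  obtain ⟨r₀, r₀', τ₀, τ₀', A₀, B₀, hA₀, hB₀, eA₀, eB₀, hp₀⟩ := hne2 (fun _ => 1)
    (fun h => by simpa using congrFun h 0)
  have hw₀ : W.wd A₀ B₀ ≠ 0 := fun h => hp₀ (by rw [h, map_zero])
  obtain ⟨δ₁, g₁, s₁, hg₁, -, hs₁, hsp₁, hAs⟩ := exists_prm hA₀ (ne_of_wd_left W hA₀.ker hB₀.ker hw₀)
  obtain ⟨δ₂, g₂, s₂, hg₂, -, hs₂, hsp₂, hBs⟩ := exists_prm hB₀
    (ne_of_wd_right W hA₀.ker hB₀.ker hw₀)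
  refine splits_of_no_zero W (by omega) hs₁ hs₂ fun x hx h0 => ?_
  obtain ⟨r, r', τ, τ', A, B, hA, hB, eA, eB, hp⟩ := hne2 x hx
  obtain ⟨f, hf⟩ := hsp₁.dvd_wd W hs₁.ker hA.ker (by
    have h1 := parA r₀ r A₀ A hA₀.ker hA.ker eA₀ eA
    rw [wd_of_mul_left W hs₁.ker hA.ker hAs] at h1
    exact (mul_eq_zero.1 h1).resolve_left hg₁)
  obtain ⟨f', hf'⟩ := hsp₂.dvd_wd W hs₂.ker hB.ker (by
    have h1 := parB r₀' r' B₀ B hB₀.ker hB.ker eB₀ eB
    rw [wd_of_mul_left W hs₂.ker hB.ker hBs] at h1
    exact (mul_eq_zero.1 h1).resolve_left hg₂)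
  apply hp
  rw [wd_of_mul_left W hs₁.ker hB.ker hf, wd_of_mul_right W hs₂.ker hs₁.ker hf', map_mul, map_mul,
    h0, mul_zero, mul_zero]

end

end Pool.Agent.W615
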