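import Pool.Agent.W615.P2E2

/-!
# Elations normalised by a torus: the plane (helper615)
-/

set_option autoImplicit false
set_option maxHeartbeats 400000

open MvPolynomial H960VB H938TB

namespace Pool.Agent.W615

section
variable {m : ℕ} {E : Bundle2 (m + 1)} {k : Fin (m + 1)} {w : Fin (m + 1 + 1) → ℤ × ℤ}
  {D : EqB E w} (W : Wedge D) {ω : M}
  (L : Lft D ω (elat k)) (hω1 : ω.1 = 0) {W' : Wedge (resD E)}
  {L0 : Lft (triv E) 0 (elat k)} (hop : ∀ G : Vec E.a (m + 1), L0.op G = L.op G)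

/-- the homogeneous generator of the kernel on the hyperplane. -/
theorem exists_gen (e' : ED L0 W') {τ : M} {G : Vec E.a (m + 1)} (hG : HSec D τ G)
    (hM : Mp L0 G) (h0 : ∃ i, rv G i ≠ 0) :
    ∃ (δ' : M) (f : MvPolynomial (Fin (m + 1)) ℂ) (s : Vec E.a m), f ≠ 0 ∧
      IsWeightedHomogeneous (tw (w ∘ Fin.castSucc : Fin (m + 1) → ℤ × ℤ)) f δ' ∧
      (∀ i, IsWeightedHomogeneous (tw (w ∘ Fin.castSucc : Fin (m + 1) → ℤ × ℤ)) (s i)
        (((E.β i, D.b i) : M) + (τ - δ'))) ∧ (∃ i, s i ≠ 0) ∧ (∀ i, rv G i = f * s i) ∧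
      ∀ g : Vec E.a (m + 1), Mp L0 g → ∃ π, ∀ i, rv g i = π * s i := by
  obtain ⟨δ', f, s, hf0, hf, hs, hsp, hfs⟩ := exists_prm (D := DT D) (G := rv G)
    (hG.pull (hI m) (hI_inj m) (w ∘ Fin.castSucc) (cInc_weight Fin.castSucc w)) h0
  have hAs : ∀ i, ep L0 s i = 0 := by
    intro i
    apply mul_left_cancel₀ hf0
    have a1 : ep L0 (rv G) i = f * ep L0 s i := ep_mul L0 f hfs i
    have a2 : ep L0 (rv G) i = 0 := hM.2 i
    exact a1.symm.trans (a2.trans (mul_zero f).symm)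
  have hks : Ker (resE E) s := hs.ker
  obtain ⟨f', hf'⟩ := e'.kerA hks hAs
  have hfu : IsUnit f' := hsp f' fun i => ⟨e'.s i, hf' i⟩
  obtain ⟨f'', hf''⟩ := hfu.exists_left_inv
  refine ⟨δ', f, s, hf0, hf, fun i => hs.hom i, hsp.ne, hfs, fun g hg => ?_⟩
  obtain ⟨π, hπ⟩ := e'.kerA (rv_ker hg.1) hg.2
  refine ⟨π * f'', fun i => ?_⟩
  rw [hπ i, hf' i]
  linear_combination (-(π * e'.s i)) * hf''

theorem pi_hom {τ τs : M} {g : Vec E.a (m + 1)} (hg : HSec D τ g) {s : Vec E.a m}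
    (hs : ∀ i, IsWeightedHomogeneous (tw (w ∘ Fin.castSucc : Fin (m + 1) → ℤ × ℤ)) (s i)
        (((E.β i, D.b i) : M) + τs)) (hs0 : ∃ i, s i ≠ 0) {π : MvPolynomial (Fin (m + 1)) ℂ}
    (h : ∀ i, rv g i = π * s i) :
    IsWeightedHomogeneous (tw (w ∘ Fin.castSucc : Fin (m + 1) → ℤ × ℤ)) π (τ - τs) := by
  obtain ⟨i, hi⟩ := hs0
  have h1 : IsWeightedHomogeneous (tw (w ∘ Fin.castSucc : Fin (m + 1) → ℤ × ℤ)) (rv g i)
      (((E.β i, D.b i) : M) + τ) := isWH_lsub (hI m) (cInc_weight Fin.castSucc w) (hg.hom i)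
  rw [h i, mul_comm] at h1
  have h2 := wh_div hi (hs i) h1
  have e : (((E.β i, D.b i) : M) + τ - (((E.β i, D.b i) : M) + τs)) = τ - τs := by abel
  rw [e] at h2
  exact h2

end

section
variable {E : Bundle2 (1 + 1)} {w : Fin (1 + 1 + 1) → ℤ × ℤ} {D : EqB E w} {ω : M}

/-- **Lemma P2E.** -/
theorem p2e (L : Lft D ω (elat (0 : Fin (1 + 1)))) (hω1 : ω.1 = 0) (hω0 : ω ≠ 0) (W : Wedge D)
    (χ : M →+ ℤ) {e c : ℤ} (he : e ≠ 0) (h0 : χ (tw w 0) = 0) (h1 : χ (tw w 1) = e)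
    (h2 : χ (tw w (Fin.last (1 + 1))) = c) (hω : χ ω = c) {τ : M} {G : Vec E.a (1 + 1)}
    (hG : HSec D τ G)
    (hne : eval (Pi.single (Fin.castSucc (0 : Fin (1 + 1))) 1 : Fin (1 + 1 + 1) → ℂ)
      (W.wd G (L.op G)) ≠ 0) : E.Splits := by
  by_contra hE
  obtain ⟨W0⟩ := exists_wedge (by norm_num) (triv E)
  obtain ⟨W'⟩ := exists_wedge (by norm_num) (resD E)
  obtain ⟨L0, hop, n1, n2⟩ : ∃ L0 : Lft (triv E) 0 (elat (0 : Fin (1 + 1))),
      (∀ G, L0.op G = L.op G) ∧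
      (∀ H H' : Vec E.a 1, Ker (resE E) H → Ker (resE E) H' →
        W'.wd (ep L0 H) H' + W'.wd H (ep L0 H') = 0) ∧
      (∀ H : Vec E.a 1, Ker (resE E) H → ∀ i, ep L0 (ep L0 H) i = 0) :=
    ⟨frg L hω1, frg_op L hω1, nilT (le_refl 1) L hω1 hω0 W'⟩
  obtain ⟨e'⟩ := exists_ED' hE L0 W0 W' n1 n2
  obtain ⟨τ₁, τ₂, g, g', j, hg, hg', hM, hM', hw, hj⟩ :=
    exists_pair W L hω1 hop (le_refl 1) hω0 e' n2 hG hne
  have hM1 := Mp_opT L hop n2 hG.ker
  have hG1 : HSec D (τ + ω) (L.op G) := L.op_hom hG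
  have x0 : (Pi.single (Fin.castSucc (0 : Fin (1 + 1))) 1 : Fin (1 + 1 + 1) → ℂ) ≠ 0 :=
    e0_ne (1 + 1)
  have hχ1 : χ τ + χ τ + c + χ W.κ = 0 := by
    have h3 := chi_of_eval χ h0 (W.hom _ _ _ _ hG hG1) hne
    rw [map_add, map_add, map_add, hω] at h3
    linarith
  have hev : evv (L.op G) (Pi.single (Fin.castSucc (0 : Fin (1 + 1))) 1) ≠ 0 :=
    (ne_of_eval_wd W x0 hG.ker hG1.ker hne).2
  have hh0 : hI 1 (Pi.single 0 1) = Pi.single (Fin.castSucc (0 : Fin (1 + 1))) 1 :=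
    cInc_single _ 0
  have hev' : evv (rv (L.op G)) (Pi.single 0 1 : Fin (1 + 1) → ℂ) ≠ 0 := by
    rw [rv_eval, hh0]
    exact hev
  have hi₀ : ∃ i, rv (L.op G) i ≠ 0 := by
    by_contra hc
    push Not at hc
    apply hev'
    funext i
    show eval _ (rv (L.op G) i) = 0
    rw [hc i, map_zero]
  obtain ⟨δ', f, s, hf0, hf, hs, hs0, hfs, hall⟩ := exists_gen e' hG1 hM1 hi₀
  have hfe : eval (Pi.single 0 1 : Fin (1 + 1) → ℂ) f ≠ 0 := by
    intro h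
    apply hev'
    funext i
    show eval _ (rv (L.op G) i) = 0
    rw [hfs, map_mul, h, zero_mul]
  have h0' : χ (tw (w ∘ Fin.castSucc : Fin (1 + 1) → ℤ × ℤ) 0) = 0 := h0
  have h1' : χ (tw (w ∘ Fin.castSucc : Fin (1 + 1) → ℤ × ℤ) 1) = e := h1
  have hδ' : χ δ' = 0 := chi_of_eval χ h0' hf hfe
  have hσ : χ (τ + ω - δ') = χ τ + c := by
    rw [map_sub, map_add, hω, hδ', sub_zero]
  obtain ⟨π, hπ⟩ := hall g hM
  obtain ⟨π', hπ'⟩ := hall g' hM'
  have tπ := pi_hom hg hs hs0 hπ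
  have tπ' := pi_hom hg' hs hs0 hπ'
  -- the sum of the weights
  have hsum : χ τ₁ + χ τ₂ + χ W.κ = c := by
    have a1 : IsWeightedHomogeneous (tw w) (tX 1 * C j) (τ₁ + τ₂ + W.κ) := by
      rw [← hw]
      exact W.hom _ _ _ _ hg hg'
    have a2 : IsWeightedHomogeneous (tw w) (tX 1 * C j) (tw w (Fin.last (1 + 1))) := by
      have a3 := (isWeightedHomogeneous_X ℂ (tw w) (Fin.last (1 + 1))).mul
        (isWeightedHomogeneous_C (tw w) j)
      rwa [add_zero] at a3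
    have a4 := a1.inj_right (mul_ne_zero (tX_ne 1) (by rwa [Ne, C_eq_zero])) a2
    have a5 := congrArg χ a4
    rw [map_add, map_add, h2] at a5
    exact a5
  have hnv : ∀ q : Fin (1 + 1) → ℂ, q ≠ 0 → eval q π ≠ 0 ∨ eval q π' ≠ 0 := by
    intro q hq
    by_contra hc
    push Not at hc
    have a1 : evv g (hI 1 q) = 0 := by
      rw [← rv_eval]
      funext i
      show eval q (rv g i) = 0
      rw [hπ, map_mul, hc.1, zero_mul]
    have a2 : evv g' (hI 1 q) = 0 := by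
      rw [← rv_eval]
      funext i
      show eval q (rv g' i) = 0
      rw [hπ', map_mul, hc.2, zero_mul]
    have a3 := J_eval (L := L0) W hq hg.ker hg'.ker a1 a2 hw
    rw [eval_C] at a3
    exact hj a3
  -- both weights agree at the centre
  have hχ2 : χ τ₁ = χ (τ + ω - δ') ∧ χ τ₂ = χ (τ + ω - δ') := by
    rcases hnv (Pi.single 0 1) (e0_ne 1) with h | h
    · have a1 := chi_of_eval χ h0' tπ h
      rw [map_sub] at a1
      constructor
      · linarith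
      · linarith
    · have a1 := chi_of_eval χ h0' tπ' h
      rw [map_sub] at a1
      constructor
      · linarith
      · linarith
  have x1 : (Pi.single 1 1 : Fin (1 + 1) → ℂ) ≠ 0 := fun h => by simpa using congrFun h 1
  have cst : ∀ (τ₀ : M) (p : MvPolynomial (Fin (1 + 1)) ℂ),
      IsWeightedHomogeneous (tw (w ∘ Fin.castSucc : Fin (1 + 1) → ℤ × ℤ)) p
        (τ₀ - (τ + ω - δ')) → χ τ₀ = χ (τ + ω - δ') → eval (Pi.single 1 1) p ≠ 0 →
      ∃ a : ℂ, a ≠ 0 ∧ p = C a := by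
    intro τ₀ p hp hτ₀ hev
    obtain ⟨N, hN⟩ := type_of_eval 1 hp hev
    have a1 := congrArg χ hN
    rw [map_sub, hτ₀, sub_self, map_nsmul, h1', nsmul_eq_mul] at a1
    have a2 : N = 0 := by
      rcases mul_eq_zero.1 a1.symm with a3 | a3
      · exact_mod_cast a3
      · exact absurd a3 he
    rw [a2, zero_smul] at hN
    rw [hN] at hp
    exact const_of_degree_zero hp (fun h => hev (by rw [h, map_zero])) rfl
  rcases hnv (Pi.single 1 1) x1 with h | h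
  · obtain ⟨a, ha, rfl⟩ := cst τ₁ π tπ hχ2.1 h
    exact hE (final_split W hg hg'.ker ha hj hπ hπ' hw)
  · obtain ⟨a, ha, rfl⟩ := cst τ₂ π' tπ' hχ2.2 h
    refine hE (final_split W hg' hg.ker ha (neg_ne_zero.2 hj) hπ' hπ ?_)
    rw [W.anti g' g hg'.ker hg.ker, hw, C_neg]
    ring

end

end Pool.Agent.W615
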