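import Pool.Agent.W615.ElC1
import Pool.Agent.W615.P2E3

/-!
# Elations of the plane whose endomorphism on the axis is nowhere scalar (helper615)
-/

set_option autoImplicit false
set_option maxHeartbeats 400000

open MvPolynomial H960VB H938TB

namespace Pool.Agent.W615

section
variable {m : ℕ} {E : Bundle2 (m + 1)} {k : Fin (m + 1)} {L : Lft (triv E) 0 (elat k)}
  {W' : Wedge (resD E)} (W : Wedge (triv E))

/-- lowering the degree of a pair of sections. -/
theorem lower0 (hm : 1 ≤ m) (e' : ED L W') :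
    ∀ (d : ℕ) (τ₁ τ₂ : M) (g g' : Vec E.a (m + 1)) (J : MvPolynomial (Fin (m + 1 + 1)) ℂ),
      HSec (triv E) τ₁ g → HSec (triv E) τ₂ g' → Mp L g → Mp L g' →
      W.wd g g' = tX m * J →
      eval (Pi.single k.castSucc 1 : Fin (m + 1 + 1) → ℂ) J ≠ 0 →
      (τ₁ + τ₂ + W.κ - tw 0 (Fin.last (m + 1))).1 = d →
      ∃ (τ₁ τ₂ : M) (g g' : Vec E.a (m + 1)) (j : ℂ), HSec (triv E) τ₁ g ∧ HSec (triv E) τ₂ g' ∧
        Mp L g ∧ Mp L g' ∧ W.wd g g' = tX m * C j ∧ j ≠ 0 := by
  intro d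
  induction d with
  | zero =>
    intro τ₁ τ₂ g g' J hg hg' hM hM' hw hJ hd
    have h3 := J_hom W hg hg' hw
    obtain ⟨j, hj, rfl⟩ := const_of_degree_zero h3 (fun h => hJ (by rw [h, map_zero]))
      (by simpa using hd)
    exact ⟨τ₁, τ₂, g, g', j, hg, hg', hM, hM', hw, hj⟩
  | succ d ih =>
    intro τ₁ τ₂ g g' J hg hg' hM hM' hw hJ hd
    have h3 := J_hom W hg hg' hw
    have h4 : J.IsHomogeneous (d + 1) := by
      rcases homZ_of h3 with h5 | ⟨l, hl, h5⟩
      · rw [h5]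
        exact isHomogeneous_zero _ _ _
      · rw [hd] at hl
        have h6 : l = d + 1 := by exact_mod_cast hl
        rwa [h6] at h5
    have h5 := euler_at h4 hJ
    obtain ⟨g₁, hg₁, e₁⟩ := e'.Mp_op hM
    obtain ⟨g₁', hg₁', e₁'⟩ := e'.Mp_op hM'
    have s₁ : HSec (triv E) (τ₁ + 0 - tw 0 (Fin.last (m + 1))) g₁ := sec_div (L.op_hom hg) e₁
    have s₁' : HSec (triv E) (τ₂ + 0 - tw 0 (Fin.last (m + 1))) g₁' :=
      sec_div (L.op_hom hg') e₁'
    obtain ⟨u₁, hu₁⟩ := dvd_wdT e' W hg₁ hM'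
    obtain ⟨u₂, hu₂⟩ := dvd_wdT e' W hM hg₁'
    have h6 := e'.trace hm W g g' hg.ker hg'.ker
    rw [wd_of_mul_left W hg₁.1 hg'.ker e₁, wd_of_mul_right W hg₁'.1 hg.ker e₁', hu₁, hu₂, hw,
      elat_apply, Derivation.leibniz, pderiv_tX, smul_zero, add_zero, smul_eq_mul] at h6
    have h7 : pderiv k.castSucc J = u₁ + u₂ := by
      apply mul_left_cancel₀ (tX_ne m)
      apply mul_left_cancel₀ (tX_ne m)
      rw [← h6]
      ring
    rw [h7, map_add] at h5
    have h9 : (tw (0 : Fin (m + 1 + 1) → ℤ × ℤ) (Fin.last (m + 1))).1 = 1 := rfl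
    by_cases h10 : eval (Pi.single k.castSucc 1 : Fin (m + 1 + 1) → ℂ) u₁ = 0
    · rw [h10, zero_add] at h5
      refine ih _ _ _ _ _ hg s₁' hM hg₁' hu₂ h5 ?_
      simp only [Prod.fst_add, Prod.fst_sub, h9, add_zero] at hd ⊢
      push_cast at hd ⊢
      linarith
    · refine ih _ _ _ _ _ s₁ hg' hg₁ hM' hu₁ h10 ?_
      simp only [Prod.fst_add, Prod.fst_sub, h9, add_zero] at hd ⊢
      push_cast at hd ⊢
      linarith

/-- a basis of the modification of the bundle. -/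
theorem exists_pair0 (hm : 1 ≤ m) (e' : ED L W')
    {τ : M} {G : Vec E.a (m + 1)} (hG : HSec (triv E) τ G)
    (hne : eval (Pi.single k.castSucc 1 : Fin (m + 1 + 1) → ℂ) (W.wd G (L.op G)) ≠ 0) :
    ∃ (τ₁ τ₂ : M) (g g' : Vec E.a (m + 1)) (j : ℂ), HSec (triv E) τ₁ g ∧ HSec (triv E) τ₂ g' ∧
      Mp L g ∧ Mp L g' ∧ W.wd g g' = tX m * C j ∧ j ≠ 0 := by
  have hG1 : HSec (triv E) (τ + 0) (L.op G) := L.op_hom hG
  have hM1 : Mp L (L.op G) := by
    refine ⟨L.op_ker hG.ker, fun i => ?_⟩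
    have h3 : rv (L.op G) = ep L (rv G) := by
      ext1 j
      exact rv_op L G j
    rw [h3]
    have hk : Ker (resE E) (rv (a := E.a) G) := rv_ker hG.ker
    exact e'.nil2 (rv G) hk i
  have hM2 : Mp L (fun i => tX m * G i) := ED.Mp_tX hG.ker
  have hG2 : HSec (triv E) (τ + tw 0 (Fin.last (m + 1))) (fun i => tX m * G i) :=
    hsec_mul (isWeightedHomogeneous_X ℂ (tw 0) (Fin.last (m + 1))) hG (add_comm _ _)
  have hw0 : W.wd (L.op G) (fun i => tX m * G i) = tX m * (- W.wd G (L.op G)) := by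
    rw [wd_mul_right W hG.ker hG1.ker, W.anti (L.op G) G hG1.ker hG.ker]
  have hJ0 : eval (Pi.single k.castSucc 1 : Fin (m + 1 + 1) → ℂ) (- W.wd G (L.op G)) ≠ 0 := by
    rw [map_neg]
    exact neg_ne_zero.2 hne
  have hwh0 := J_hom W hG1 hG2 hw0
  have hdeg := degree_nonneg hwh0 (fun h => hJ0 (by rw [h, map_zero]))
  obtain ⟨d, hd⟩ := Int.eq_ofNat_of_zero_le hdeg
  exact lower0 W hm e' d _ _ _ _ _ hG1 hG2 hM1 hM2 hw0 hJ0 hd

end

theorem ED.combine {m : ℕ} {E : Bundle2 (m + 1)} {k : Fin (m + 1)} {L : Lft (triv E) 0 (elat k)}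
    {W' : Wedge (resD E)} (e : ED L W') {r H : Vec E.a m} (kr : Ker (resE E) r)
    (kH : Ker (resE E) H) {w0 : ℂ} (hsr : W'.wd e.s r = C w0) (i : Fin E.a) :
    C w0 * ep L H i = W'.wd e.s H * ep L r i := by
  have h1 := fun i => W'.three e.s r H e.hs.ker kr kH i
  have h6 : ep L (fun i => C w0 * H i + 0 * H i + 0 * H i + 0 * H i) i =
      C w0 * ep L H i + 0 * ep L H i + 0 * ep L H i + 0 * ep L H i :=
    ep_lin4 L _ _ _ _ _ _ _ _ i
  have h7 : ep L (fun i => W'.wd e.s H * r i + (-(W'.wd r H)) * e.s i +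
      0 * e.s i + 0 * e.s i) i = W'.wd e.s H * ep L r i +
      (-(W'.wd r H)) * ep L e.s i + 0 * ep L e.s i + 0 * ep L e.s i :=
    ep_lin4 L _ _ _ _ _ _ _ _ i
  have h8 : (fun i => C w0 * H i + 0 * H i + 0 * H i + 0 * H i) =
      (fun i => W'.wd e.s H * r i + (-(W'.wd r H)) * e.s i +
      0 * e.s i + 0 * e.s i) := by
    funext i
    have h2 := h1 i
    rw [hsr] at h2
    linear_combination h2
  rw [h8, h7, e.As] at h6
  linear_combination -h6

section
variable {E : Bundle2 (1 + 1)} {k : Fin (1 + 1)}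

theorem elat_fix (q : Fin (1 + 1) → ℂ) (p : MvPolynomial (Fin (1 + 1 + 1)) ℂ) :
    eval (hI 1 q) (elat k p) = 0 := by
  rw [elat_apply, map_mul, ← eval_lsub, lsub_tX, map_zero, zero_mul]

/-- the plane, nilpotent case. -/
theorem elC_nil (hE : ¬ E.Splits) (W : Wedge (triv E)) (W' : Wedge (resD E))
    (L : Lft (triv E) 0 (elat k)) (e : ED L W')
    (hA : ∀ q : Fin (1 + 1) → ℂ, q ≠ 0 → ∃ G, Ker E G ∧ evv (L.op G) (hI 1 q) ≠ 0) : False := by
  have hv : (Pi.single k 1 : Fin (1 + 1) → ℂ) ≠ 0 := fun h => by simpa using congrFun h k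
  have hh : hI 1 (Pi.single k 1) = Pi.single k.castSucc 1 := cInc_single _ _
  have hx : (Pi.single k.castSucc 1 : Fin (1 + 1 + 1) → ℂ) ≠ 0 := fun h => by
    simpa using congrFun h k.castSucc
  have hfix : ∀ p, eval (Pi.single k.castSucc 1 : Fin (1 + 1 + 1) → ℂ) (elat k p) = 0 := by
    intro p
    rw [← hh]
    exact elat_fix _ _
  -- a homogeneous section with nonzero image at the centre
  obtain ⟨τ, G, hG, hne⟩ : ∃ (τ : M) (G : Vec E.a (1 + 1)), HSec (triv E) τ G ∧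
      evv (L.op G) (Pi.single k.castSucc 1) ≠ 0 := by
    by_contra hc
    push Not at hc
    obtain ⟨τ₁, τ₂, G₁, G₂, h₁, h₂, hu⟩ := exists_ne W (D := triv E) _ hx
    obtain ⟨G, hG, hG0⟩ := hA _ hv
    apply hG0
    rw [hh]
    have h1 := sc_of L W hfix h₁.ker h₂.ker hu 0 (by rw [hc _ _ h₁, zero_smul])
      (by rw [hc _ _ h₂, zero_smul]) G hG
    rw [h1, zero_smul]
  have kL := L.op_ker hG.ker
  have hnil : evv (L.op (L.op G)) (Pi.single k.castSucc 1) = 0 := by
    funext i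
    show eval _ (L.op (L.op G) i) = 0
    rw [← hh, ← eval_lsub]
    have h3 : rv (L.op G) = ep L (rv G) := by
      ext1 j
      exact rv_op L G j
    have h4 : lsub (hI 1) (L.op (L.op G) i) = ep L (rv (L.op G)) i := rv_op L (L.op G) i
    rw [h4, h3]
    have hk : Ker (resE E) (rv (a := E.a) G) := rv_ker hG.ker
    rw [e.nil2 (rv G) hk i, map_zero]
  have hne' : eval (Pi.single k.castSucc 1 : Fin (1 + 1 + 1) → ℂ) (W.wd G (L.op G)) ≠ 0 := by
    intro h0
    have h1 : ¬ LinearIndependent ℂ ![evv G (Pi.single k.castSucc 1),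
        evv (L.op G) (Pi.single k.castSucc 1)] := fun h =>
      (W.ind _ hx G (L.op G) hG.ker kL).2 h h0
    rw [LinearIndependent.pair_iff] at h1
    push Not at h1
    obtain ⟨a, b, hab, h2⟩ := h1
    -- apply the operator
    have h3 : ∀ i, a * evv (L.op G) (Pi.single k.castSucc 1) i = 0 := by
      intro i
      have h4 := congrFun hnil i
      rw [op_eval L hfix, Pi.zero_apply] at h4
      rw [op_eval L hfix, Finset.mul_sum]
      have h5 : ∀ j, a * (eval (Pi.single k.castSucc 1) (L.ν i j) *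
          evv G (Pi.single k.castSucc 1) j) =
          -b * (eval (Pi.single k.castSucc 1) (L.ν i j) *
          evv (L.op G) (Pi.single k.castSucc 1) j) := by
        intro j
        have h6 := congrFun hab j
        simp only [Pi.add_apply, Pi.smul_apply, smul_eq_mul, Pi.zero_apply] at h6
        linear_combination (eval (Pi.single k.castSucc 1) (L.ν i j)) * h6
      rw [Finset.sum_congr rfl (fun j _ => h5 j), ← Finset.mul_sum, h4, mul_zero]
    have ha : a = 0 := by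
      by_contra ha
      apply hne
      funext i
      exact (mul_eq_zero.1 (h3 i)).resolve_left ha
    rw [ha, zero_smul, zero_add] at hab
    have hb := h2 ha
    exact hne ((smul_eq_zero.1 hab).resolve_left hb)
  obtain ⟨τ₁, τ₂, g, g', j, hg, hg', hM, hM', hw, hj⟩ := exists_pair0 W (le_refl 1) e hG hne'
  obtain ⟨π, hπ⟩ := e.kerA (rv_ker hM.1) hM.2
  obtain ⟨π', hπ'⟩ := e.kerA (rv_ker hM'.1) hM'.2
  have hnv : ∀ q : Fin (1 + 1) → ℂ, q ≠ 0 → eval q π ≠ 0 ∨ eval q π' ≠ 0 := by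
    intro q hq
    by_contra hc
    push Not at hc
    have a1 : evv g (hI 1 q) = 0 := by
      rw [← rv_eval]
      funext i
      show eval q (rv g i) = 0
      rw [hπ, map_mul, hc.1, zero_mul]
    have a2 : evv g' (hI 1 q) = 0 := by
      rw [← rv_eval]
      funext i
      show eval q (rv g' i) = 0
      rw [hπ', map_mul, hc.2, zero_mul]
    have a3 := J_eval (L := L) W hq hg.ker hg'.ker a1 a2 hw
    rw [eval_C] at a3
    exact hj a3
  -- weights
  have hs0 : ∃ i, e.s i ≠ 0 := e.hsp.ne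
  have hsw : ∀ i, IsWeightedHomogeneous
      (tw ((0 : Fin (1 + 1 + 1) → ℤ × ℤ) ∘ Fin.castSucc : Fin (1 + 1) → ℤ × ℤ)) (e.s i)
      (((E.β i, (triv E).b i) : M) + e.τs) := fun i => e.hs.hom i
  have tπ := pi_hom hg hsw hs0 hπ
  have tπ' := pi_hom hg' hsw hs0 hπ'
  have up_hom : ∀ {f : MvPolynomial (Fin (1 + 1)) ℂ} {σ : M},
      IsWeightedHomogeneous
        (tw ((0 : Fin (1 + 1 + 1) → ℤ × ℤ) ∘ Fin.castSucc : Fin (1 + 1) → ℤ × ℤ)) f σ →
      IsWeightedHomogeneous (tw (0 : Fin (1 + 1 + 1) → ℤ × ℤ)) (rename Fin.castSucc f)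
        (σ.1, 0) := by
    intro f σ hf
    apply wh_triv
    rcases homZ_of hf with h1 | ⟨l, hl, h1⟩
    · exact Or.inl (by rw [h1, map_zero])
    · exact Or.inr ⟨l, hl, h1.rename_isHomogeneous⟩
  have uπ := up_hom tπ
  have uπ' := up_hom tπ'
  have hg0 := hsec_triv hg
  have hg0' := hsec_triv hg'
  let K : Vec E.a (1 + 1) := fun i => (fun i => rename Fin.castSucc π' * g i) i -
    (fun i => rename Fin.castSucc π * g' i) i
  have hK : HSec (triv E) ((τ₁.1 + τ₂.1 - e.τs.1, 0) : M) K := by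
    refine hsec_sub (hsec_mul uπ' hg0 ?_) (hsec_mul uπ hg0' ?_)
    · refine Prod.ext ?_ rfl
      show τ₁.1 + τ₂.1 - e.τs.1 = τ₂.1 - e.τs.1 + τ₁.1
      ring
    · refine Prod.ext ?_ rfl
      show τ₁.1 + τ₂.1 - e.τs.1 = τ₁.1 - e.τs.1 + τ₂.1
      ring
  have rK : ∀ i, rv K i = 0 := by
    intro i
    show lsub (hI 1) (rename Fin.castSucc π' * g i - rename Fin.castSucc π * g' i) = 0
    have a1 : lsub (hI 1) (g i) = π * e.s i := hπ i
    have a2 : lsub (hI 1) (g' i) = π' * e.s i := hπ' i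
    rw [map_sub, map_mul, map_mul, lsub_rename, lsub_rename, a1, a2]
    ring
  obtain ⟨ρ, kρ, hρ⟩ := exists_div hK.ker rK
  have sρ := sec_div (j := Fin.last (1 + 1)) hK hρ
  have w1 : W.wd g ρ = -(rename Fin.castSucc π * C j) := by
    apply mul_left_cancel₀ (tX_ne 1)
    rw [← wd_of_mul_right W kρ hg.ker hρ]
    show W.wd g (fun i => (fun i => rename Fin.castSucc π' * g i) i -
      (fun i => rename Fin.castSucc π * g' i) i) = _
    rw [wd_sub_right W (ker_mul hg.ker _) (ker_mul hg'.ker _) hg.ker, wd_mul_right W hg.ker hg.ker,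
      wd_mul_right W hg'.ker hg.ker, wd_self W hg.ker, hw]
    ring
  have w2 : W.wd g' ρ = -(rename Fin.castSucc π' * C j) := by
    apply mul_left_cancel₀ (tX_ne 1)
    rw [← wd_of_mul_right W kρ hg'.ker hρ]
    show W.wd g' (fun i => (fun i => rename Fin.castSucc π' * g i) i -
      (fun i => rename Fin.castSucc π * g' i) i) = _
    rw [wd_sub_right W (ker_mul hg.ker _) (ker_mul hg'.ker _) hg'.ker,
      wd_mul_right W hg.ker hg'.ker, wd_mul_right W hg'.ker hg'.ker, wd_self W hg'.ker,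
      W.anti g' g hg'.ker hg.ker, hw]
    ring
  obtain ⟨c, hc, hcw⟩ := res_wd (le_refl 1) W W'
  have kr : Ker (resE E) (rv (a := E.a) ρ) := rv_ker kρ
  have ks : Ker (resE E) e.s := e.hs.ker
  -- the wedge product with the section on the line is constant
  obtain ⟨w0, hw0, hsr⟩ : ∃ w0 : ℂ, w0 ≠ 0 ∧ W'.wd e.s (rv ρ) = C w0 := by
    refine ⟨-(c⁻¹ * j), neg_ne_zero.2 (mul_ne_zero (inv_ne_zero hc) hj), ?_⟩
    have hCc : (C c⁻¹ * C c : MvPolynomial (Fin (1 + 1)) ℂ) = 1 := by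
      rw [← C_mul, inv_mul_cancel₀ hc, C_1]
    have hCj : lsub (hI 1) (C j) = C j := by
      rw [lsub, aeval_C]
      rfl
    have key : ∀ (p : MvPolynomial (Fin (1 + 1)) ℂ) (G : Vec E.a (1 + 1)), Ker E G → p ≠ 0 →
        (∀ i, rv G i = p * e.s i) → W.wd G ρ = -(rename Fin.castSucc p * C j) →
        W'.wd e.s (rv ρ) = C (-(c⁻¹ * j)) := by
      intro p G kG hp hGp hwG
      apply mul_left_cancel₀ hp
      have h1 := hcw G ρ kG kρ
      have h2 : W'.wd (rv G) (rv ρ) = p * W'.wd e.s (rv ρ) := wd_of_mul_left W' ks kr hGp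
      rw [h2, hwG, map_neg, map_mul, lsub_rename, hCj] at h1
      rw [C_neg, C_mul]
      linear_combination (-(C c⁻¹)) * h1 - (p * W'.wd e.s (rv ρ)) * hCc
    rcases hnv (Pi.single k 1) hv with h | h
    · exact key π g hg.ker (fun h0 => h (by rw [h0, map_zero])) hπ w1
    · exact key π' g' hg'.ker (fun h0 => h (by rw [h0, map_zero])) hπ' w2
  obtain ⟨f, hf⟩ := e.img kr
  -- the image of `ρ` has no zero on the line
  have hfnz : ∀ q : Fin (1 + 1) → ℂ, q ≠ 0 → eval q f ≠ 0 := by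
    intro q hq h0
    obtain ⟨G, kG, hG0⟩ := hA q hq
    apply hG0
    have kH : Ker (resE E) (rv (a := E.a) G) := rv_ker kG
    funext i
    have h5 : C w0 * ep L (rv G) i = W'.wd e.s (rv G) * ep L (rv ρ) i := e.combine kr kH hsr i
    have h9 : eval q (ep L (rv G) i) = 0 := by
      have h10 := congrArg (eval q) h5
      rw [map_mul, map_mul, eval_C, hf, map_mul, h0, zero_mul, mul_zero] at h10
      exact (mul_eq_zero.1 h10).resolve_left hw0
    show eval (hI 1 q) (L.op G i) = 0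
    rw [← eval_lsub]
    have h11 : lsub (hI 1) (L.op G i) = ep L (rv G) i := rv_op L G i
    rw [h11]
    exact h9
  obtain ⟨f0, hf0, rfl⟩ := const_of_no_zero (le_refl 2) hfnz
  -- the wedge product of `ρ` and its image
  have kLρ := L.op_ker kρ
  have hP : lsub (hI 1) (W.wd ρ (L.op ρ)) = C (-(c * (f0 * w0))) := by
    have h1 := hcw ρ (L.op ρ) kρ kLρ
    have h3 : rv (L.op ρ) = ep L (rv ρ) := by
      ext1 i
      exact rv_op L ρ i
    have h4 : W'.wd (rv ρ) (rv (L.op ρ)) = W'.wd (rv ρ) (ep L (rv ρ)) :=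
      congrArg (fun z => W'.wd (rv ρ) z) h3
    have h5 : W'.wd (rv ρ) (ep L (rv ρ)) = C f0 * W'.wd (rv ρ) e.s := wd_of_mul_right W' ks kr hf
    have h6 : W'.wd (rv ρ) e.s = - W'.wd e.s (rv ρ) := W'.anti _ _ kr ks
    refine h1.trans ?_
    have h7 : W'.wd (rv ρ) (rv (L.op ρ)) = C f0 * (-C w0) := by
      rw [← hsr]
      exact h4.trans (h5.trans (congrArg (fun z => C f0 * z) h6))
    have h8 : C c * W'.wd (rv ρ) (rv (L.op ρ)) = C c * (C f0 * (-C w0)) :=
      congrArg (fun z => C c * z) h7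
    refine h8.trans ?_
    rw [C_neg, C_mul, C_mul]
    ring
  have hcc : -(c * (f0 * w0)) ≠ 0 := neg_ne_zero.2 (mul_ne_zero hc (mul_ne_zero hf0 hw0))
  have hPh := W.hom _ _ _ _ sρ (L.op_hom sρ)
  have hPh' := isWH_lsub (hI 1) (w := (0 : Fin (1 + 1 + 1) → ℤ × ℤ))
    (w' := (0 : Fin (1 + 1) → ℤ × ℤ)) (fun _ _ _ => rfl) hPh
  rw [hP] at hPh'
  have hdeg := hPh'.inj_right (by rwa [Ne, C_eq_zero]) (isWeightedHomogeneous_C _ _)
  obtain ⟨z, hz, hPz⟩ := const_of_degree_zero hPh (fun h => by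
    rw [h, map_zero] at hP
    exact hcc (C_eq_zero.1 hP.symm)) (by rw [hdeg]; rfl)
  exact hE (splits_of_const W sρ (L.op_hom sρ) z hz hPz)

/-- **Elations of the plane**: the action is scalar at some point of the axis. -/
theorem elC (L : Lft (triv E) 0 (elat k))
    (hA : ∀ q : Fin (1 + 1) → ℂ, q ≠ 0 → ¬ Sc L (hI 1 q)) : E.Splits := by
  by_contra hE
  obtain ⟨W⟩ := exists_wedge (by norm_num) (triv E)
  obtain ⟨W'⟩ := exists_wedge (le_refl 1) (resD E)
  obtain ⟨l, hl⟩ := exists_eigen W' (resL L) (le_refl 1)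
  have hs : ∀ H : Vec E.a 1, ((resL L).shift l).op H = ep (L.shift l) H := by
    intro H
    funext i
    rw [Lft.shift_op, ep_eq, ep_shift]
  obtain ⟨θ, h1, h2⟩ := ch W' ((resL L).shift l) (le_refl 1) hl
  have h1' : ∀ H H' : Vec E.a 1, Ker (resE E) H → Ker (resE E) H' →
      W'.wd (ep (L.shift l) H) H' + W'.wd H (ep (L.shift l) H') = C θ * W'.wd H H' := by
    intro H H' hH hH'
    have h3 := h1 H H' hH hH'
    rwa [hs, hs] at h3
  have h2' : ∀ H : Vec E.a 1, Ker (resE E) H → ∀ i,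
      ep (L.shift l) (ep (L.shift l) H) i = C θ * ep (L.shift l) H i := by
    intro H hH i
    have h3 := h2 H hH i
    rwa [hs, hs] at h3
  by_cases hθ : θ = 0
  · subst hθ
    obtain ⟨e⟩ := exists_ED' hE (L.shift l) W W' (fun H H' hH hH' => by
      rw [h1' H H' hH hH', C_0, zero_mul]) (fun H hH i => by
      rw [h2' H hH i, C_0, zero_mul])
    refine elC_nil hE W W' (L.shift l) e fun q hq => ?_
    by_contra hc
    push Not at hc
    refine hA q hq ⟨l, fun G hG => ?_⟩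
    funext i
    have h3 := congrFun (hc G hG) i
    have h4 : eval (hI 1 q) ((L.shift l).op G i) = 0 := h3
    rw [Lft.shift_op, map_sub, map_mul, eval_C] at h4
    exact sub_eq_zero.1 h4
  · exact hE (two_eig (le_refl 1) W W' (L.shift l) hθ h1' h2')

end

end Pool.Agent.W615
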