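import Pool.Agent.W615.GThm

/-!
# Elations of the plane which are not scalar at the centre (helper615)
-/

set_option autoImplicit false
set_option maxHeartbeats 400000

open MvPolynomial H960VB H938TB

namespace Pool.Agent.W615

section
variable {E : Bundle2 (1 + 1)} {k : Fin (1 + 1)}

/-- the structure of a bundle on the plane with an elation which is not scalar at the centre. -/
structure PS {L : Lft (triv E) 0 (elat k)} {W' : Wedge (resD E)} (e : ED L W') where
  g : Vec E.a (1 + 1)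
  g' : Vec E.a (1 + 1)
  ρ : Vec E.a (1 + 1)
  π : MvPolynomial (Fin (1 + 1)) ℂ
  π' : MvPolynomial (Fin (1 + 1)) ℂ
  w0 : ℂ
  kg : Ker E g
  kg' : Ker E g'
  kρ : Ker E ρ
  hπ : ∀ i, rv g i = π * e.s i
  hπ' : ∀ i, rv g' i = π' * e.s i
  hρ : ∀ i, rename Fin.castSucc π' * g i - rename Fin.castSucc π * g' i = tX 1 * ρ i
  hw0 : w0 ≠ 0
  hs : W'.wd e.s (rv ρ) = C w0
  nv : ∀ q : Fin (1 + 1) → ℂ, q ≠ 0 → eval q π ≠ 0 ∨ eval q π' ≠ 0
  z : eval 0 π = 0
  z' : eval 0 π' = 0

theorem eval_zero_of_hom {n : ℕ} {w : Fin (n + 1) → ℤ × ℤ} {p : MvPolynomial (Fin (n + 1)) ℂ}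
    {τ : M} (hp : IsWeightedHomogeneous (tw w) p τ) (h : eval 0 p ≠ 0) :
    ∃ c : ℂ, c ≠ 0 ∧ p = C c := by
  have hp0 : p ≠ 0 := fun h0 => h (by rw [h0, map_zero])
  rcases homZ_of hp with h1 | ⟨l, hl, h1⟩
  · exact absurd h1 hp0
  · rcases Nat.eq_zero_or_pos l with h2 | h2
    · rw [h2] at hl
      exact const_of_degree_zero hp hp0 (by rw [← hl]; rfl)
    · exfalso
      apply h
      rw [eval_zero, constantCoeff_eq]
      apply h1.coeff_eq_zero
      rw [map_zero]
      omega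

theorem plane_str (hE : ¬ E.Splits) (W : Wedge (triv E)) (W' : Wedge (resD E))
    (L : Lft (triv E) 0 (elat k)) (e : ED L W')
    (hA : ∃ G, Ker E G ∧ evv (L.op G) (Pi.single k.castSucc 1) ≠ 0) : Nonempty (PS e) := by
  have hv : (Pi.single k 1 : Fin (1 + 1) → ℂ) ≠ 0 := fun h => by simpa using congrFun h k
  have hh : hI 1 (Pi.single k 1) = Pi.single k.castSucc 1 := cInc_single _ _
  have hx : (Pi.single k.castSucc 1 : Fin (1 + 1 + 1) → ℂ) ≠ 0 := fun h => by
    simpa using congrFun h k.castSucc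
  have hfix : ∀ p, eval (Pi.single k.castSucc 1 : Fin (1 + 1 + 1) → ℂ) (elat k p) = 0 := by
    intro p
    rw [← hh]
    exact elat_fix _ _
  -- a homogeneous section with nonzero image at the centre
  obtain ⟨τ, G, hG, hne⟩ : ∃ (τ : M) (G : Vec E.a (1 + 1)), HSec (triv E) τ G ∧
      evv (L.op G) (Pi.single k.castSucc 1) ≠ 0 := by
    by_contra hc
    push Not at hc
    obtain ⟨τ₁, τ₂, G₁, G₂, h₁, h₂, hu⟩ := exists_ne W (D := triv E) _ hx
    obtain ⟨G, hG, hG0⟩ := hA
    apply hG0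
    have h1 := sc_of L W hfix h₁.ker h₂.ker hu 0 (by rw [hc _ _ h₁, zero_smul])
      (by rw [hc _ _ h₂, zero_smul]) G hG
    rw [h1, zero_smul]
  have kL := L.op_ker hG.ker
  have hnil : evv (L.op (L.op G)) (Pi.single k.castSucc 1) = 0 := by
    funext i
    show eval _ (L.op (L.op G) i) = 0
    rw [← hh, ← eval_lsub]
    have h3 : rv (L.op G) = ep L (rv G) := by
      ext1 j
      exact rv_op L G j
    have h4 : lsub (hI 1) (L.op (L.op G) i) = ep L (rv (L.op G)) i := rv_op L (L.op G) i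
    rw [h4, h3]
    have hk : Ker (resE E) (rv (a := E.a) G) := rv_ker hG.ker
    rw [e.nil2 (rv G) hk i, map_zero]
  have hne' : eval (Pi.single k.castSucc 1 : Fin (1 + 1 + 1) → ℂ) (W.wd G (L.op G)) ≠ 0 := by
    intro h0
    have h1 : ¬ LinearIndependent ℂ ![evv G (Pi.single k.castSucc 1),
        evv (L.op G) (Pi.single k.castSucc 1)] := fun h =>
      (W.ind _ hx G (L.op G) hG.ker kL).2 h h0
    rw [LinearIndependent.pair_iff] at h1
    push Not at h1
    obtain ⟨a, b, hab, h2⟩ := h1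
    -- apply the operator
    have h3 : ∀ i, a * evv (L.op G) (Pi.single k.castSucc 1) i = 0 := by
      intro i
      have h4 := congrFun hnil i
      rw [op_eval L hfix, Pi.zero_apply] at h4
      rw [op_eval L hfix, Finset.mul_sum]
      have h5 : ∀ j, a * (eval (Pi.single k.castSucc 1) (L.ν i j) *
          evv G (Pi.single k.castSucc 1) j) =
          -b * (eval (Pi.single k.castSucc 1) (L.ν i j) *
          evv (L.op G) (Pi.single k.castSucc 1) j) := by
        intro j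
        have h6 := congrFun hab j
        simp only [Pi.add_apply, Pi.smul_apply, smul_eq_mul, Pi.zero_apply] at h6
        linear_combination (eval (Pi.single k.castSucc 1) (L.ν i j)) * h6
      rw [Finset.sum_congr rfl (fun j _ => h5 j), ← Finset.mul_sum, h4, mul_zero]
    have ha : a = 0 := by
      by_contra ha
      apply hne
      funext i
      exact (mul_eq_zero.1 (h3 i)).resolve_left ha
    rw [ha, zero_smul, zero_add] at hab
    have hb := h2 ha
    exact hne ((smul_eq_zero.1 hab).resolve_left hb)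
  obtain ⟨τ₁, τ₂, g, g', j, hg, hg', hM, hM', hw, hj⟩ := exists_pair0 W (le_refl 1) e hG hne'
  obtain ⟨π, hπ⟩ := e.kerA (rv_ker hM.1) hM.2
  obtain ⟨π', hπ'⟩ := e.kerA (rv_ker hM'.1) hM'.2
  have hnv : ∀ q : Fin (1 + 1) → ℂ, q ≠ 0 → eval q π ≠ 0 ∨ eval q π' ≠ 0 := by
    intro q hq
    by_contra hc
    push Not at hc
    have a1 : evv g (hI 1 q) = 0 := by
      rw [← rv_eval]
      funext i
      show eval q (rv g i) = 0
      rw [hπ, map_mul, hc.1, zero_mul]
    have a2 : evv g' (hI 1 q) = 0 := by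
      rw [← rv_eval]
      funext i
      show eval q (rv g' i) = 0
      rw [hπ', map_mul, hc.2, zero_mul]
    have a3 := J_eval (L := L) W hq hg.ker hg'.ker a1 a2 hw
    rw [eval_C] at a3
    exact hj a3
  have hs0 : ∃ i, e.s i ≠ 0 := e.hsp.ne
  have hsw : ∀ i, IsWeightedHomogeneous
      (tw ((0 : Fin (1 + 1 + 1) → ℤ × ℤ) ∘ Fin.castSucc : Fin (1 + 1) → ℤ × ℤ)) (e.s i)
      (((E.β i, (triv E).b i) : M) + e.τs) := fun i => e.hs.hom i
  have tπ := pi_hom hg hsw hs0 hπ
  have tπ' := pi_hom hg' hsw hs0 hπ'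
  let K : Vec E.a (1 + 1) := fun i => (fun i => rename Fin.castSucc π' * g i) i -
    (fun i => rename Fin.castSucc π * g' i) i
  have hK : Ker E K := ker_sub (ker_mul hg.ker _) (ker_mul hg'.ker _)
  have rK : ∀ i, rv K i = 0 := by
    intro i
    show lsub (hI 1) (rename Fin.castSucc π' * g i - rename Fin.castSucc π * g' i) = 0
    have a1 : lsub (hI 1) (g i) = π * e.s i := hπ i
    have a2 : lsub (hI 1) (g' i) = π' * e.s i := hπ' i
    rw [map_sub, map_mul, map_mul, lsub_rename, lsub_rename, a1, a2]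
    ring
  obtain ⟨ρ, kρ, hρ⟩ := exists_div hK rK
  have w1 : W.wd g ρ = -(rename Fin.castSucc π * C j) := by
    apply mul_left_cancel₀ (tX_ne 1)
    rw [← wd_of_mul_right W kρ hg.ker hρ]
    show W.wd g (fun i => (fun i => rename Fin.castSucc π' * g i) i -
      (fun i => rename Fin.castSucc π * g' i) i) = _
    rw [wd_sub_right W (ker_mul hg.ker _) (ker_mul hg'.ker _) hg.ker, wd_mul_right W hg.ker hg.ker,
      wd_mul_right W hg'.ker hg.ker, wd_self W hg.ker, hw]
    ring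
  have w2 : W.wd g' ρ = -(rename Fin.castSucc π' * C j) := by
    apply mul_left_cancel₀ (tX_ne 1)
    rw [← wd_of_mul_right W kρ hg'.ker hρ]
    show W.wd g' (fun i => (fun i => rename Fin.castSucc π' * g i) i -
      (fun i => rename Fin.castSucc π * g' i) i) = _
    rw [wd_sub_right W (ker_mul hg.ker _) (ker_mul hg'.ker _) hg'.ker,
      wd_mul_right W hg.ker hg'.ker, wd_mul_right W hg'.ker hg'.ker, wd_self W hg'.ker,
      W.anti g' g hg'.ker hg.ker, hw]
    ring
  obtain ⟨c, hc, hcw⟩ := res_wd (le_refl 1) W W'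
  have kr : Ker (resE E) (rv (a := E.a) ρ) := rv_ker kρ
  have ks : Ker (resE E) e.s := e.hs.ker
  have hsr : W'.wd e.s (rv ρ) = C (-(c⁻¹ * j)) := by
    have hCc : (C c⁻¹ * C c : MvPolynomial (Fin (1 + 1)) ℂ) = 1 := by
      rw [← C_mul, inv_mul_cancel₀ hc, C_1]
    have hCj : lsub (hI 1) (C j) = C j := by
      rw [lsub, aeval_C]
      rfl
    have key : ∀ (p : MvPolynomial (Fin (1 + 1)) ℂ) (G : Vec E.a (1 + 1)), Ker E G → p ≠ 0 →
        (∀ i, rv G i = p * e.s i) → W.wd G ρ = -(rename Fin.castSucc p * C j) →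
        W'.wd e.s (rv ρ) = C (-(c⁻¹ * j)) := by
      intro p G kG hp hGp hwG
      apply mul_left_cancel₀ hp
      have h1 := hcw G ρ kG kρ
      have h2 : W'.wd (rv G) (rv ρ) = p * W'.wd e.s (rv ρ) := wd_of_mul_left W' ks kr hGp
      rw [h2, hwG, map_neg, map_mul, lsub_rename, hCj] at h1
      rw [C_neg, C_mul]
      linear_combination (-(C c⁻¹)) * h1 - (p * W'.wd e.s (rv ρ)) * hCc
    rcases hnv (Pi.single k 1) hv with h | h
    · exact key π g hg.ker (fun h0 => h (by rw [h0, map_zero])) hπ w1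
    · exact key π' g' hg'.ker (fun h0 => h (by rw [h0, map_zero])) hπ' w2
  refine ⟨⟨g, g', ρ, π, π', -(c⁻¹ * j), hg.ker, hg'.ker, kρ, hπ, hπ', hρ,
    neg_ne_zero.2 (mul_ne_zero (inv_ne_zero hc) hj), hsr, hnv, ?_, ?_⟩⟩
  · by_contra h0
    obtain ⟨a, ha, rfl⟩ := eval_zero_of_hom tπ h0
    exact hE (final_split W hg hg'.ker ha hj hπ hπ' hw)
  · by_contra h0
    obtain ⟨a, ha, rfl⟩ := eval_zero_of_hom tπ' h0
    refine hE (final_split W hg' hg.ker ha (neg_ne_zero.2 hj) hπ' hπ ?_)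
    rw [W.anti g' g hg'.ker hg.ker, hw, C_neg]
    ring

end

/-- divisibility of proportional families -/
theorem fam_dvd {ι : Type*} {N : ℕ} (a b : ι → MvPolynomial (Fin N) ℂ)
    (h : ∀ i j, a i * b j = a j * b i)
    (hp : ∀ p : MvPolynomial (Fin N) ℂ, (∀ i, p ∣ a i) → IsUnit p) :
    ∃ f : MvPolynomial (Fin N) ℂ, ∀ i, b i = f * a i := by
  obtain ⟨i0, hi0⟩ : ∃ i, a i ≠ 0 := by
    by_contra hc
    push Not at hc
    exact not_isUnit_zero (hp 0 fun i => by rw [hc i])
  have hd : a i0 ∣ b i0 := by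
    refine dvd_of_primes hi0 fun π hπ _ => ?_
    by_contra hc
    push Not at hc
    apply hπ.not_isUnit
    apply hp
    intro j
    exact hc (a j) (b j) (h i0 j)
  obtain ⟨f, hf⟩ := hd
  refine ⟨f, fun j => ?_⟩
  apply mul_left_cancel₀ hi0
  rw [h i0 j, hf]
  ring

/-- a family without common zeros -/
theorem unit_of_no_zero {ι : Type*} {N : ℕ} (hN : 2 ≤ N) (a : ι → MvPolynomial (Fin N) ℂ)
    (h : ∀ x : Fin N → ℂ, x ≠ 0 → ∃ i, eval x (a i) ≠ 0) (p : MvPolynomial (Fin N) ℂ)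
    (hp : ∀ i, p ∣ a i) : IsUnit p := by
  have h2 : ∀ x : Fin N → ℂ, x ≠ 0 → eval x p ≠ 0 := by
    intro x hx h0
    obtain ⟨i, hi⟩ := h x hx
    obtain ⟨q, hq⟩ := hp i
    apply hi
    rw [hq, map_mul, h0, zero_mul]
  obtain ⟨c, hc, rfl⟩ := const_of_no_zero hN h2
  exact (isUnit_iff_ne_zero.2 hc).map C

end Pool.Agent.W615
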