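import Pool.Agent.W615.ElD1

/-!
# Nilpotent vector fields of type (3,1) on the three-dimensional space (helper615)
-/

set_option autoImplicit false
set_option maxHeartbeats 400000

open MvPolynomial H960VB H938TB

namespace Pool.Agent.W615

/-- the vector field `x₂ ∂₀ + x₃ ∂₂` -/
noncomputable def δ4 : Der (2 + 1) := mkDerivation ℂ ![X 2, 0, X 3, 0]

theorem δ4_X (i : Fin 4) : δ4 (X i) =
    (![X 2, 0, X 3, 0] : Fin 4 → MvPolynomial (Fin (2 + 1 + 1)) ℂ) i := mkDerivation_X _ _ _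

theorem δ4_C (a : ℂ) : δ4 (C a) = 0 := derivation_C _ _

theorem δ4_eq (p : MvPolynomial (Fin (2 + 1 + 1)) ℂ) :
    δ4 p = X 2 * pderiv 0 p + X 3 * pderiv 2 p := by
  rw [der_eq_sum δ4 p]
  show ∑ i : Fin 4, _ = _
  rw [Fin.sum_univ_four, δ4_X, δ4_X, δ4_X, δ4_X]
  simp
  ring

/-- restriction to the line -/
noncomputable def rr (p : MvPolynomial (Fin (2 + 1 + 1)) ℂ) : MvPolynomial (Fin (1 + 1)) ℂ :=
  lsub (hI 1) (lsub (hI 2) p)

theorem rr_add (p q : MvPolynomial (Fin (2 + 1 + 1)) ℂ) : rr (p + q) = rr p + rr q := by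
  simp only [rr, map_add]

theorem rr_sub (p q : MvPolynomial (Fin (2 + 1 + 1)) ℂ) : rr (p - q) = rr p - rr q := by
  simp only [rr, map_sub]

theorem rr_mul (p q : MvPolynomial (Fin (2 + 1 + 1)) ℂ) : rr (p * q) = rr p * rr q := by
  simp only [rr, map_mul]

theorem rr_zero : rr 0 = 0 := by
  simp only [rr, map_zero]

theorem rr_X3 : rr (X 3) = 0 := by
  have h : lsub (hI 2) (X 3) = 0 := lsub_tX (m := 2)
  rw [rr, h, map_zero]

theorem lsub_X2 : lsub (hI 2) (X 2) = tX 1 :=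
  lsub_cInc_X (Fin.castSucc : Fin (2 + 1) → Fin (2 + 1 + 1)) (Fin.castSucc_injective _) (2 : Fin 3)

theorem rr_X2 : rr (X 2) = 0 := by
  rw [rr, lsub_X2, lsub_tX]

theorem rr_ren (p : MvPolynomial (Fin (2 + 1)) ℂ) : rr (rename Fin.castSucc p) = lsub (hI 1) p := by
  rw [rr, lsub_rename]

theorem rr_eval (q : Fin (1 + 1) → ℂ) (p : MvPolynomial (Fin (2 + 1 + 1)) ℂ) :
    eval q (rr p) = eval (hI 2 (hI 1 q)) p := by
  rw [rr, eval_lsub, eval_lsub]

section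
variable {E : Bundle2 (2 + 1)} (W : Wedge (triv E)) {s : Vec E.a 1}

theorem rr_P : ∃ i j, rr (W.P i j) ≠ 0 := by
  have h0 : hI 2 (hI 1 (fun _ => 1)) ≠ 0 := by
    intro h
    have h1 := hI_inj 1 ((hI_inj 2 (h.trans (map_zero _).symm)).trans (map_zero _).symm)
    simpa using congrFun h1 0
  obtain ⟨i, j, h⟩ := W.P_ne _ h0
  refine ⟨i, j, fun h2 => h ?_⟩
  rw [← rr_eval, h2, map_zero]

theorem rr_wd {H G : Vec E.a (2 + 1)} (hH : Ker E H) (hG : Ker E G)
    {h h' : MvPolynomial (Fin (1 + 1)) ℂ} (e : ∀ i, rr (H i) = h * s i)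
    (e' : ∀ i, rr (G i) = h' * s i) : rr (W.wd H G) = 0 := by
  obtain ⟨i, j, hP⟩ := rr_P W
  have h1 := congrArg rr (W.eq H G hH hG i j)
  rw [rr_sub, rr_mul, rr_mul, rr_mul, e, e, e', e'] at h1
  refine (mul_eq_zero.1 ?_).resolve_right hP
  rw [← h1]
  ring

/-- (P1) -/
theorem rr_pd {H H' V : Vec E.a (2 + 1)} (hH : Ker E H) (hH' : Ker E H') (hV : Ker E V)
    {h h' : MvPolynomial (Fin (1 + 1)) ℂ} (e : ∀ i, rr (H i) = h * s i)
    (e' : ∀ i, rr (H' i) = h' * s i) (h0 : ∀ i, rr (V i) = 0) :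
    h' * rr (pderiv 3 (W.wd H V)) = h * rr (pderiv 3 (W.wd H' V)) := by
  obtain ⟨i, j, hP⟩ := rr_P W
  have key : ∀ (H : Vec E.a (2 + 1)) (h : MvPolynomial (Fin (1 + 1)) ℂ), Ker E H →
      (∀ i, rr (H i) = h * s i) →
      h * (s i * rr (pderiv 3 (V j)) - s j * rr (pderiv 3 (V i))) =
        rr (pderiv 3 (W.wd H V)) * rr (W.P i j) := by
    intro H h hH e
    have h1 := congrArg (fun p => rr (pderiv 3 p)) (W.eq H V hH hV i j)
    have h2 : rr (W.wd H V) = 0 := rr_wd W hH hV e (h' := 0) (fun i => by rw [h0, zero_mul])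
    simp only [map_sub, Derivation.leibniz, smul_eq_mul, rr_sub, rr_add, rr_mul, e, h0, h2,
      zero_mul, mul_zero, add_zero, zero_add] at h1
    linear_combination h1
  have k1 := key H h hH e
  have k2 := key H' h' hH' e'
  apply mul_right_cancel₀ hP
  linear_combination h * k2 - h' * k1

variable (L : Lft (triv E) 0 δ4)

/-- the residue -/
noncomputable def omg (H G : Vec E.a (2 + 1)) : MvPolynomial (Fin (1 + 1)) ℂ :=
  rr (pderiv 3 (W.wd H (L.op G)))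

theorem om_mul (hL : ∀ G, Ker E G → ∃ f, ∀ i, rr (L.op G i) = f * s i)
    {H G : Vec E.a (2 + 1)} (hH : Ker E H) (hG : Ker E G)
    {h h' : MvPolynomial (Fin (1 + 1)) ℂ} (e : ∀ i, rr (H i) = h * s i)
    (e' : ∀ i, rr (G i) = h' * s i) (p : MvPolynomial (Fin (2 + 1 + 1)) ℂ) :
    omg W L H (fun i => p * G i) = rr p * omg W L H G := by
  have h1 : W.wd H (L.op (fun i => p * G i)) = δ4 p * W.wd H G + p * W.wd H (L.op G) := by
    rw [L.op_mul]
    exact (wd_add_right W (ker_mul hG _) (ker_mul (L.op_ker hG) _) hH).trans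
      (congrArg₂ (· + ·) (wd_mul_right W hG hH _) (wd_mul_right W (L.op_ker hG) hH _))
  obtain ⟨f, hf⟩ := hL G hG
  have h2 : rr (W.wd H G) = 0 := rr_wd W hH hG e e'
  have h3 : rr (W.wd H (L.op G)) = 0 := rr_wd W hH (L.op_ker hG) e hf
  have h4 : rr (δ4 p) = 0 := by
    rw [δ4_eq, rr_add, rr_mul, rr_mul, rr_X2, rr_X3]
    ring
  unfold omg
  rw [h1, map_add, Derivation.leibniz, Derivation.leibniz, smul_eq_mul, smul_eq_mul, smul_eq_mul,
    smul_eq_mul, rr_add, rr_add, rr_add, rr_mul, rr_mul, rr_mul, rr_mul, h2, h3, h4]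
  ring

theorem om_sub {H G G' : Vec E.a (2 + 1)} (hH : Ker E H) (hG : Ker E G) (hG' : Ker E G') :
    omg W L H (fun i => G i - G' i) = omg W L H G - omg W L H G' := by
  unfold omg
  rw [L.op_sub, wd_sub_right W (L.op_ker hG) (L.op_ker hG') hH, map_sub, rr_sub]

theorem om_X3 (hL : ∀ G, Ker E G → ∃ f, ∀ i, rr (L.op G i) = f * s i)
    {H G : Vec E.a (2 + 1)} (hH : Ker E H) (hG : Ker E G)
    {h : MvPolynomial (Fin (1 + 1)) ℂ} (e : ∀ i, rr (H i) = h * s i) :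
    omg W L H (fun i => tX 2 * G i) = 0 := by
  have h1 : W.wd H (L.op (fun i => tX 2 * G i)) = X 3 * W.wd H (L.op G) := by
    have h2 : L.op (fun i => tX 2 * G i) = fun i => X 3 * L.op G i := by
      rw [L.op_mul]
      have h3 : δ4 (tX 2) = 0 := δ4_X 3
      rw [h3]
      funext i
      rw [zero_mul, zero_add]
      rfl
    rw [h2]
    exact wd_mul_right W (L.op_ker hG) hH _
  obtain ⟨f, hf⟩ := hL G hG
  have h3 : rr (W.wd H (L.op G)) = 0 := rr_wd W hH (L.op_ker hG) e hf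
  unfold omg
  rw [h1, Derivation.leibniz, smul_eq_mul, smul_eq_mul, rr_add, rr_mul, rr_mul, h3, rr_X3]
  ring

/-- (P4) -/
theorem om_X2 (hL : ∀ G, Ker E G → ∃ f, ∀ i, rr (L.op G i) = f * s i)
    {H K R : Vec E.a (2 + 1)} (hH : Ker E H) (hK : Ker E K) (hR : Ker E R)
    {h : MvPolynomial (Fin (1 + 1)) ℂ} (e : ∀ i, rr (H i) = h * s i)
    (hKR : ∀ i, lsub (hI 2) (K i) = tX 1 * lsub (hI 2) (R i)) :
    omg W L H K = rr (W.wd H R) := by
  obtain ⟨Q, hQ, hQe⟩ := exists_div (m := 2) (G := fun i => K i - (fun i => X 2 * R i) i)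
    (ker_sub hK (ker_mul hR _)) (fun i => by
      show lsub (hI 2) (K i - X 2 * R i) = 0
      rw [map_sub, map_mul, hKR, lsub_X2, sub_self])
  have h1 := om_X3 W L hL hH hQ e
  have h2 : (fun i => tX 2 * Q i) = fun i => K i - (fun i => X 2 * R i) i :=
    funext fun i => (hQe i).symm
  rw [h2, om_sub W L hH hK (ker_mul hR _)] at h1
  rw [sub_eq_zero.1 h1]
  have h3 : W.wd H (L.op (fun i => X 2 * R i)) = X 3 * W.wd H R + X 2 * W.wd H (L.op R) := by
    rw [L.op_mul]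
    have h3 : δ4 (X 2) = X 3 := δ4_X 2
    rw [h3]
    exact (wd_add_right W (ker_mul hR _) (ker_mul (L.op_ker hR) _) hH).trans
      (congrArg₂ (· + ·) (wd_mul_right W hR hH _) (wd_mul_right W (L.op_ker hR) hH _))
  have h4 : pderiv (3 : Fin (2 + 1 + 1)) (X 3 : MvPolynomial (Fin (2 + 1 + 1)) ℂ) = 1 :=
    pderiv_X_self 3
  have h5 : pderiv (3 : Fin (2 + 1 + 1)) (X 2 : MvPolynomial (Fin (2 + 1 + 1)) ℂ) = 0 :=
    pderiv_X_of_ne (by decide)
  unfold omg
  rw [h3, map_add, Derivation.leibniz, Derivation.leibniz, h4, h5, smul_eq_mul, smul_eq_mul,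
    smul_eq_mul, smul_eq_mul, rr_add, rr_add, rr_add, rr_mul, rr_mul, rr_mul, rr_mul, rr_X2, rr_X3]
  have h6 : rr 1 = 1 := by simp only [rr, map_one]
  rw [h6, rr_zero]
  ring

/-- the core of the argument. -/
theorem elD_core (W₂ : Wedge (resD E))
    (hL : ∀ G, Ker E G → ∃ f, ∀ i, rr (L.op G i) = f * s i)
    (hL0 : ∀ G h, Ker E G → (∀ i, rr (G i) = h * s i) → ∀ i, rr (L.op G i) = 0)
    (g g' ρ : Vec E.a 2) (kg : Ker (resE E) g) (kg' : Ker (resE E) g') (kρ : Ker (resE E) ρ)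
    (π π' : MvPolynomial (Fin (1 + 1)) ℂ)
    (hπ : ∀ i, lsub (hI 1) (g i) = π * s i) (hπ' : ∀ i, lsub (hI 1) (g' i) = π' * s i)
    (hρ : ∀ i, rename Fin.castSucc π' * g i - rename Fin.castSucc π * g' i = tX 1 * ρ i)
    (nv : ∀ q : Fin (1 + 1) → ℂ, q ≠ 0 → eval q π ≠ 0 ∨ eval q π' ≠ 0)
    (z : eval 0 π = 0) (z' : eval 0 π' = 0) (K₀ : ℂ) (hK₀ : K₀ ≠ 0)
    (hW : ∀ H R, Ker E H → Ker E R → ∀ h m, (∀ i, rr (H i) = h * s i) →
      (∀ i, lsub (hI 2) (R i) = m * ρ i) → rr (W.wd H R) = C K₀ * h * lsub (hI 1) m) : False := by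
  -- extensions
  have hext : ∀ (q : Fin (1 + 1) → ℂ), q ≠ 0 → ∃ m : MvPolynomial (Fin (2 + 1)) ℂ,
      eval q (lsub (hI 1) m) ≠ 0 ∧ ∀ g : Vec E.a 2, Ker (resE E) g → ∃ K, Ker E K ∧
        ∀ i, lsub (hI 2) (K i) = m * g i := by
    intro q hq
    have hx : hI 2 (hI 1 q) ≠ 0 := by
      intro h
      exact hq (hI_inj 1 ((hI_inj 2 (h.trans (map_zero _).symm)).trans (map_zero _).symm))
    have hx' : hI 1 q ≠ 0 := fun h => hq (hI_inj 1 (h.trans (map_zero _).symm))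
    obtain ⟨τ, τ', G₁, G₂, hG₁, hG₂, hp⟩ := exists_ne W (D := triv E) _ hx
    have h5 := (W.ind _ hx G₁ G₂ hG₁.ker hG₂.ker).1 hp
    rw [← rv_eval G₁, ← rv_eval G₂] at h5
    have h6 : eval (hI 1 q) (W₂.wd (rv G₁) (rv G₂)) ≠ 0 :=
      (W₂.ind _ hx' (rv G₁) (rv G₂) (rv_ker hG₁.ker) (rv_ker hG₂.ker)).2 h5
    refine ⟨W₂.wd (rv G₁) (rv G₂), by rwa [eval_lsub], fun g kg => ?_⟩
    exact ED.exists_ext (W' := W₂) g kg hG₁.ker hG₂.ker
  have hG : ∀ (g : Vec E.a 2) (π₀ : MvPolynomial (Fin (1 + 1)) ℂ),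
      (∀ i, lsub (hI 1) (g i) = π₀ * s i) → ∀ (G : Vec E.a (2 + 1))
      (m : MvPolynomial (Fin (2 + 1)) ℂ), (∀ i, lsub (hI 2) (G i) = m * g i) →
      ∀ i, rr (G i) = (lsub (hI 1) m * π₀) * s i := by
    intro g π₀ hg G m h i
    rw [rr, h, map_mul, hg]
    ring
  have hHH : ∀ q : Fin (1 + 1) → ℂ, q ≠ 0 → ∃ H h, Ker E H ∧ (∀ i, rr (H i) = h * s i) ∧
      eval q h ≠ 0 := by
    intro q hq
    obtain ⟨m, hm, hmx⟩ := hext q hq
    rcases nv q hq with h | h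
    · obtain ⟨G, kG, eG⟩ := hmx g kg
      exact ⟨G, _, kG, hG g π hπ G m eG, by rw [map_mul]; exact mul_ne_zero hm h⟩
    · obtain ⟨G, kG, eG⟩ := hmx g' kg'
      exact ⟨G, _, kG, hG g' π' hπ' G m eG, by rw [map_mul]; exact mul_ne_zero hm h⟩
  -- the family
  have fam : ∀ (g : Vec E.a 2) (π₀ : MvPolynomial (Fin (1 + 1)) ℂ), Ker (resE E) g →
      (∀ i, lsub (hI 1) (g i) = π₀ * s i) → ∃ b : MvPolynomial (Fin (1 + 1)) ℂ,
        ∀ H h G m, Ker E H → Ker E G → (∀ i, rr (H i) = h * s i) →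
          (∀ i, lsub (hI 2) (G i) = m * g i) → omg W L H G = b * (h * lsub (hI 1) m) := by
    intro g π₀ kg hg
    let ι := {x : (Vec E.a (2 + 1) × MvPolynomial (Fin (1 + 1)) ℂ) ×
      (Vec E.a (2 + 1) × MvPolynomial (Fin (2 + 1)) ℂ) // Ker E x.1.1 ∧ Ker E x.2.1 ∧
        (∀ i, rr (x.1.1 i) = x.1.2 * s i) ∧ ∀ i, lsub (hI 2) (x.2.1 i) = x.2.2 * g i}
    obtain ⟨b, hb⟩ := fam_dvd (ι := ι) (fun x => x.1.1.2 * lsub (hI 1) x.1.2.2)
      (fun x => omg W L x.1.1.1 x.1.2.1) (by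
        rintro ⟨⟨⟨H, h⟩, G, m⟩, hH, kG, eH, eG⟩ ⟨⟨⟨H', h'⟩, G', m'⟩, hH', kG', eH', eG'⟩
        simp only at hH kG eH eG hH' kG' eH' eG' ⊢
        have h1 : h' * omg W L H G = h * omg W L H' G :=
          rr_pd W hH hH' (L.op_ker kG) eH eH' (hL0 G _ kG (hG g π₀ hg G m eG))
        have h2 : lsub (hI 1) m' * omg W L H' G = lsub (hI 1) m * omg W L H' G' := by
          have h3 := om_mul W L hL hH' kG eH' (hG g π₀ hg G m eG) (rename Fin.castSucc m')
          have h4 := om_mul W L hL hH' kG' eH' (hG g π₀ hg G' m' eG') (rename Fin.castSucc m)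
          rw [rr_ren] at h3 h4
          rw [← h3, ← h4, ← sub_eq_zero, ← om_sub W L hH' (ker_mul kG _) (ker_mul kG' _)]
          obtain ⟨Q, hQ, hQe⟩ := exists_div (m := 2)
            (G := fun i => (fun i => rename Fin.castSucc m' * G i) i -
              (fun i => rename Fin.castSucc m * G' i) i)
            (ker_sub (ker_mul kG _) (ker_mul kG' _)) (fun i => by
              show lsub (hI 2) (rename Fin.castSucc m' * G i - rename Fin.castSucc m * G' i) = 0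
              rw [map_sub, map_mul, map_mul, lsub_rename, lsub_rename, eG, eG']
              ring)
          have h5 := om_X3 W L hL hH' hQ eH'
          rw [show (fun i => tX 2 * Q i) = _ from (funext hQe).symm] at h5
          exact h5
        linear_combination (-(lsub (hI 1) m')) * h1 - h * h2) (by
        intro p hp
        refine unit_of_no_zero (by norm_num) _ (fun q hq => ?_) p hp
        obtain ⟨m, hm, hmx⟩ := hext q hq
        obtain ⟨G, kG, eG⟩ := hmx g kg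
        obtain ⟨H, h, kH, eH, hh⟩ := hHH q hq
        exact ⟨⟨((H, h), (G, m)), kH, kG, eH, eG⟩, by
          rw [map_mul]
          exact mul_ne_zero hh hm⟩)
    exact ⟨b, fun H h G m kH kG eH eG => hb ⟨((H, h), (G, m)), kH, kG, eH, eG⟩⟩
  obtain ⟨b, hb⟩ := fam g π kg hπ
  obtain ⟨b', hb'⟩ := fam g' π' kg' hπ'
  have hq : (Pi.single 0 1 : Fin (1 + 1) → ℂ) ≠ 0 := fun h => by simpa using congrFun h 0
  obtain ⟨m, hm, hmx⟩ := hext _ hq
  obtain ⟨H, h, kH, eH, hh⟩ := hHH _ hq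
  obtain ⟨G, kG, eG⟩ := hmx g kg
  obtain ⟨G', kG', eG'⟩ := hmx g' kg'
  obtain ⟨R, kR, eR⟩ := hmx ρ kρ
  -- the combination
  set pi : MvPolynomial (Fin (2 + 1 + 1)) ℂ := rename Fin.castSucc (rename Fin.castSucc π) with hpi
  set pi' : MvPolynomial (Fin (2 + 1 + 1)) ℂ := rename Fin.castSucc (rename Fin.castSucc π')
    with hpi'
  have rpi : rr pi = π := by rw [hpi, rr_ren, lsub_rename]
  have rpi' : rr pi' = π' := by rw [hpi', rr_ren, lsub_rename]
  have kK : Ker E (fun i => (fun i => pi' * G i) i - (fun i => pi * G' i) i) :=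
    ker_sub (ker_mul kG _) (ker_mul kG' _)
  have h1 := om_X2 W L hL kH kK kR eH (fun i => by
    show lsub (hI 2) (pi' * G i - pi * G' i) = _
    rw [map_sub, map_mul, map_mul, hpi, hpi', lsub_rename, lsub_rename, eG, eG', eR]
    linear_combination m * hρ i)
  rw [om_sub W L kH (ker_mul kG _) (ker_mul kG' _),
    om_mul W L hL kH kG eH (hG g π hπ G m eG), om_mul W L hL kH kG' eH (hG g' π' hπ' G' m eG'),
    hW H R kH kR h m eH eR, hb H h G m kH kG eH eG, hb' H h G' m kH kG' eH eG', rpi, rpi'] at h1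
  have hne : h * lsub (hI 1) m ≠ 0 := by
    intro h0
    have h2 := congrArg (eval (Pi.single 0 1 : Fin (1 + 1) → ℂ)) h0
    rw [map_mul, map_zero] at h2
    exact mul_ne_zero hh hm h2
  have h2 : π' * b - π * b' = C K₀ := by
    apply mul_right_cancel₀ hne
    linear_combination h1
  have h3 := congrArg (eval 0) h2
  rw [map_sub, map_mul, map_mul, z, z', eval_C, zero_mul, zero_mul, sub_zero] at h3
  exact hK₀ h3.symm

end

end Pool.Agent.W615
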