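import Pool.Agent.W615.ElD2

/-!
# Nilpotent vector fields with a string of length three and one more vector in the kernel
(helper615)
-/

set_option autoImplicit false
set_option maxHeartbeats 400000

open MvPolynomial H960VB H938TB

namespace Pool.Agent.W615

theorem δ4_res (i : Fin (2 + 1 + 1)) :
    lsub (hI 2) (δ4 (X i)) = elat (0 : Fin (1 + 1)) (lsub (hI 2) (X i)) := by
  have hx : ∀ t : Fin (2 + 1), lsub (hI 2) (X t.castSucc) = X t := fun t =>
    lsub_cInc_X (Fin.castSucc : Fin (2 + 1) → Fin (2 + 1 + 1)) (Fin.castSucc_injective _) t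
  have h3 : lsub (hI 2) (X 3) = 0 := lsub_tX (m := 2)
  have h0 : lsub (hI 2) (X 0) = X 0 := hx 0
  have h1 : lsub (hI 2) (X 1) = X 1 := hx 1
  have h2 : lsub (hI 2) (X 2) = X 2 := hx 2
  have k0 : elat (0 : Fin (1 + 1)) (X 0) = X 2 := by
    rw [elat_apply]
    have : pderiv (0 : Fin (1 + 1)).castSucc (X 0 : MvPolynomial (Fin (1 + 1 + 1)) ℂ) = 1 :=
      pderiv_X_self 0
    rw [this, mul_one]
    rfl
  have k1 : elat (0 : Fin (1 + 1)) (X 1) = 0 := by
    rw [elat_apply]
    have : pderiv (0 : Fin (1 + 1)).castSucc (X 1 : MvPolynomial (Fin (1 + 1 + 1)) ℂ) = 0 :=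
      pderiv_X_of_ne (by decide)
    rw [this, mul_zero]
  have k2 : elat (0 : Fin (1 + 1)) (X 2) = 0 := elat_tX _
  fin_cases i
  · show lsub (hI 2) (δ4 (X 0)) = elat 0 (lsub (hI 2) (X 0))
    rw [h0, k0, δ4_X]
    exact h2
  · show lsub (hI 2) (δ4 (X 1)) = elat 0 (lsub (hI 2) (X 1))
    rw [h1, k1, δ4_X]
    exact map_zero _
  · show lsub (hI 2) (δ4 (X 2)) = elat 0 (lsub (hI 2) (X 2))
    rw [h2, k2, δ4_X]
    exact h3
  · show lsub (hI 2) (δ4 (X 3)) = elat 0 (lsub (hI 2) (X 3))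
    rw [h3, map_zero, δ4_X]
    exact map_zero _

theorem elat_wh {m : ℕ} (k : Fin (m + 1)) (i : Fin (m + 1 + 1)) :
    IsWeightedHomogeneous (tw (0 : Fin (m + 1 + 1) → ℤ × ℤ)) (elat k (X i))
      (tw (0 : Fin (m + 1 + 1) → ℤ × ℤ) i + 0) := by
  rw [elat_apply]
  refine Fin.lastCases ?_ (fun j => ?_) i
  · rw [pderiv_tX, mul_zero]
    exact isWeightedHomogeneous_zero _ _ _
  · by_cases hj : j = k
    · subst hj
      rw [pderiv_X_self, mul_one, add_zero]
      exact isWeightedHomogeneous_X _ _ _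
    · rw [pderiv_X_of_ne (fun h => hj (Fin.castSucc_injective _ h)), mul_zero]
      exact isWeightedHomogeneous_zero _ _ _

/-- restriction to the plane `X₃ = 0`. -/
noncomputable def plL {E : Bundle2 (2 + 1)} (L : Lft (triv E) 0 δ4) :
    Lft (triv (resE E)) 0 (elat (0 : Fin (1 + 1))) :=
  L.pull (hI 2) (hI_inj 2) 0 (fun _ _ _ => rfl) (elat 0) δ4_res (elat_wh 0)

theorem plL_op {E : Bundle2 (2 + 1)} (L : Lft (triv E) 0 δ4) (G : Vec E.a (2 + 1)) (i : Fin E.a) :
    (plL L).op (rv (a := E.a) G) i = lsub (hI 2) (L.op G i) :=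
  pull_op L (hI 2) (hI_inj 2) 0 (fun _ _ _ => rfl) (elat 0) δ4_res (elat_wh 0) G i

theorem plL_shift_op {E : Bundle2 (2 + 1)} (L : Lft (triv E) 0 δ4) (l : ℂ)
    (G : Vec E.a (2 + 1)) (i : Fin E.a) :
    ((plL L).shift l).op (rv (a := E.a) G) i = lsub (hI 2) ((L.shift l).op G i) := by
  have h1 : ((plL L).shift l).op (rv (a := E.a) G) i =
      (plL L).op (rv (a := E.a) G) i - C l * rv G i := Lft.shift_op _ _ _ _
  have h2 : lsub (hI 2) (C l) = C l := by
    rw [lsub, aeval_C]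
    rfl
  rw [h1, plL_op, Lft.shift_op, map_sub, map_mul, h2]
  rfl

/-- **Type (3,1)** -/
theorem elD {E : Bundle2 (2 + 1)} (L : Lft (triv E) 0 δ4) (hsc : ¬ Sc L (Pi.single 0 1)) :
    E.Splits := by
  by_contra hE
  have hF : ¬ (resE E).Splits := fun h =>
    hE (splits_of_cInc (by omega) (by omega) _ _ (Fin.castSucc_injective _) h)
  obtain ⟨W⟩ := exists_wedge (by norm_num) (triv E)
  obtain ⟨W₂⟩ := exists_wedge (by norm_num) (triv (resE E))
  obtain ⟨W₁⟩ := exists_wedge (le_refl 1) (resD (resE E))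
  obtain ⟨l, hl⟩ := exists_eigen W₁ (resL (plL L)) (le_refl 1)
  have hs : ∀ H : Vec (resE E).a 1, ((resL (plL L)).shift l).op H = ep ((plL L).shift l) H := by
    intro H
    funext i
    rw [Lft.shift_op, ep_eq, ep_shift]
  obtain ⟨θ, h1, h2⟩ := ch W₁ ((resL (plL L)).shift l) (le_refl 1) hl
  have h1' : ∀ H H' : Vec (resE E).a 1, Ker (resE (resE E)) H → Ker (resE (resE E)) H' →
      W₁.wd (ep ((plL L).shift l) H) H' + W₁.wd H (ep ((plL L).shift l) H') =
        C θ * W₁.wd H H' := by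
    intro H H' hH hH'
    have h3 := h1 H H' hH hH'
    rwa [hs, hs] at h3
  have h2' : ∀ H : Vec (resE E).a 1, Ker (resE (resE E)) H → ∀ i,
      ep ((plL L).shift l) (ep ((plL L).shift l) H) i = C θ * ep ((plL L).shift l) H i := by
    intro H hH i
    have h3 := h2 H hH i
    rwa [hs, hs] at h3
  by_cases hθ : θ = 0
  swap
  · exact hF (two_eig (le_refl 1) W₂ W₁ ((plL L).shift l) hθ h1' h2')
  subst hθ
  obtain ⟨e⟩ := exists_ED' hF ((plL L).shift l) W₂ W₁ (fun H H' hH hH' => by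
      rw [h1' H H' hH hH', C_0, zero_mul]) (fun H hH i => by
      rw [h2' H hH i, C_0, zero_mul])
  have hh : hI 2 (Pi.single 0 1) = Pi.single 0 1 := cInc_single _ _
  obtain ⟨P⟩ := plane_str hF W₂ W₁ ((plL L).shift l) e (by
    by_contra hc
    push Not at hc
    apply hsc
    have h3 : Sc (plL L) (Pi.single 0 1) := by
      refine ⟨l, fun G hG => ?_⟩
      funext i
      have h3 := congrFun (hc G hG) i
      have h4 : eval (Pi.single 0 1) (((plL L).shift l).op G i) = 0 := h3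
      rw [Lft.shift_op, map_sub, map_mul, eval_C] at h4
      exact sub_eq_zero.1 h4
    have h4 := sc_pull L (hI 2) (hI_inj 2) 0 (fun _ _ _ => rfl) (elat 0) δ4_res (elat_wh 0) h3
    rwa [hh] at h4)
  have hop : ∀ (G : Vec E.a (2 + 1)) (i : Fin E.a), rr ((L.shift l).op G i) =
      ep ((plL L).shift l) (rv (rv G)) i := by
    intro G i
    rw [rr, ← plL_shift_op]
    exact rv_op ((plL L).shift l) (rv (a := E.a) G) i
  obtain ⟨c₂, hc₂, hcw₂⟩ := res_wd (m := 2) (by norm_num) W W₂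
  obtain ⟨c₁, hc₁, hcw₁⟩ := res_wd (m := 1) (le_refl 1) W₂ W₁
  refine elD_core W (L.shift l) (s := e.s) W₂ ?_ ?_ P.g P.g' P.ρ P.kg P.kg' P.kρ P.π P.π'
    P.hπ P.hπ' P.hρ P.nv P.z P.z' (c₂ * (c₁ * P.w0)) (mul_ne_zero hc₂ (mul_ne_zero hc₁ P.hw0)) ?_
  · intro G hG
    have k1 : Ker (resE E) (rv (a := E.a) G) := rv_ker hG
    have k2 : Ker (resE (resE E)) (rv (a := (resE E).a) (rv (a := E.a) G)) := rv_ker k1
    obtain ⟨f, hf⟩ := e.img k2
    exact ⟨f, fun i => (hop G i).trans (hf i)⟩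
  · intro G h hG hGs i
    rw [hop]
    exact (ep_mul ((plL L).shift l) h (H := e.s) hGs i).trans (by
      have h3 := e.As i
      rw [h3, mul_zero])
  · intro H R kH kR h m eH eR
    have k1 : Ker (resE E) (rv (a := E.a) H) := rv_ker kH
    have k2 : Ker (resE E) (rv (a := E.a) R) := rv_ker kR
    have k1' : Ker (resE (resE E)) (rv (a := (resE E).a) (rv (a := E.a) H)) := rv_ker k1
    have k2' : Ker (resE (resE E)) (rv (a := (resE E).a) (rv (a := E.a) R)) := rv_ker k2
    have kρ' : Ker (resE (resE E)) (rv (a := (resE E).a) P.ρ) := rv_ker P.kρ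
    have a1 := hcw₂ H R kH kR
    have a2 := hcw₁ _ _ k1 k2
    have a3 : W₁.wd (rv (rv (a := E.a) H)) (rv (rv (a := E.a) R)) =
        h * W₁.wd e.s (rv (rv (a := E.a) R)) := wd_of_mul_left W₁ e.hs.ker k2' eH
    have a4 : W₁.wd e.s (rv (rv (a := E.a) R)) = lsub (hI 1) m * W₁.wd e.s (rv P.ρ) :=
      wd_of_mul_right W₁ kρ' e.hs.ker (fun i => by
        show lsub (hI 1) (lsub (hI 2) (R i)) = lsub (hI 1) m * lsub (hI 1) (P.ρ i)
        rw [eR, map_mul])
    have a5 : lsub (hI 1) (C c₂) = C c₂ := by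
      rw [lsub, aeval_C]
      rfl
    rw [rr, a1, map_mul, a5]
    have a6 : lsub (hI 1) (W₂.wd (rv H) (rv R)) =
        C c₁ * (h * (lsub (hI 1) m * C P.w0)) := by
      refine a2.trans ?_
      rw [← P.hs, ← a4, ← a3]
    have a7 : lsub (hI 1) (W₂.wd (rv H) (rv R)) * C c₂ =
        C c₁ * (h * (lsub (hI 1) m * C P.w0)) * C c₂ := congrArg (· * C c₂) a6
    rw [C_mul, C_mul]
    refine (mul_comm _ _).trans (a7.trans ?_)
    ring

section
variable {n : ℕ} {E : Bundle2 n} {N : Matrix (Fin (n + 1)) (Fin (n + 1)) ℂ}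

/-- a string of length three and one more vector in the kernel. -/
theorem string_and (L : Lft (triv E) 0 (vf N)) {u z : Fin (n + 1) → ℂ}
    (hu : N.mulVec (N.mulVec (N.mulVec u)) = 0) (hz : N.mulVec z = 0)
    (hli : LinearIndependent ℂ ![N.mulVec (N.mulVec u), z]) : E.Splits := by
  by_contra hE
  set c := N.mulVec (N.mulVec u) with hc
  set y := N.mulVec u with hy
  have hc0 : c ≠ 0 := hli.ne_zero 0
  have hli4 : LinearIndependent ℂ ![c, z, y, u] := by
    rw [Fintype.linearIndependent_iff]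
    intro g hg
    rw [Fin.sum_univ_four] at hg
    simp only [Matrix.cons_val] at hg
    have h3 := congrArg N.mulVec hg
    rw [Matrix.mulVec_add, Matrix.mulVec_add, Matrix.mulVec_add,
      Matrix.mulVec_smul, Matrix.mulVec_smul, Matrix.mulVec_smul, Matrix.mulVec_smul,
      hu, hz, ← hc, ← hy, Matrix.mulVec_zero, smul_zero, smul_zero,
      zero_add, zero_add] at h3
    have h4 := congrArg N.mulVec h3
    rw [Matrix.mulVec_add, Matrix.mulVec_smul, Matrix.mulVec_smul, hu, ← hc,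
      Matrix.mulVec_zero, smul_zero, zero_add] at h4
    have g3 : g 3 = 0 := (smul_eq_zero.1 h4).resolve_right hc0
    rw [g3, zero_smul, add_zero] at h3 hg
    have g2 : g 2 = 0 := (smul_eq_zero.1 h3).resolve_right hc0
    rw [g2, zero_smul, add_zero] at hg
    have h5 := (Fintype.linearIndependent_iff.1 hli) ![g 0, g 1] (by
      rw [Fin.sum_univ_two]
      simpa using hg)
    intro i
    fin_cases i
    · exact h5 0
    · exact h5 1
    · exact g2
    · exact g3
  let T : (Fin (2 + 1 + 1) → ℂ) →ₗ[ℂ] (Fin (n + 1) → ℂ) :=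
    Fintype.linearCombination ℂ ![c, z, y, u]
  have hTs : ∀ t, T (Pi.single t 1) = ![c, z, y, u] t := by
    intro t
    simp only [T]
    rw [Fintype.linearCombination_apply_single, one_smul]
  have hT : Function.Injective T := hli4.fintypeLinearCombination_injective
  have hn : 3 ≤ n := by
    have h3 := LinearMap.finrank_le_finrank_of_injective hT
    rw [Module.finrank_fintype_fun_eq_card, Module.finrank_fintype_fun_eq_card, Fintype.card_fin,
      Fintype.card_fin] at h3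
    omega
  have hd : ∀ i, lsub T (vf N (X i)) = δ4 (lsub T (X i)) := by
    intro i
    rw [lsub_vf, lsub_X, map_sum]
    show ∑ t : Fin 4, _ = ∑ t : Fin 4, _
    rw [Fin.sum_univ_four, Fin.sum_univ_four, hTs, hTs, hTs, hTs]
    show C (N.mulVec c i) * X 0 + C (N.mulVec z i) * X 1 + C (N.mulVec y i) * X 2 +
        C (N.mulVec u i) * X 3 =
      δ4 (C (c i) * X 0) + δ4 (C (z i) * X 1) + δ4 (C (y i) * X 2) + δ4 (C (u i) * X 3)
    rw [hu, hz, ← hc, ← hy, Derivation.leibniz, Derivation.leibniz, Derivation.leibniz,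
      Derivation.leibniz, δ4_C, δ4_C, δ4_C, δ4_C, δ4_X, δ4_X, δ4_X, δ4_X]
    simp
  have hδ' : ∀ i, IsWeightedHomogeneous (tw (0 : Fin (2 + 1 + 1) → ℤ × ℤ)) (δ4 (X i))
      (tw (0 : Fin (2 + 1 + 1) → ℤ × ℤ) i + 0) := by
    intro i
    rw [add_zero, δ4_X]
    fin_cases i
    · exact isWeightedHomogeneous_X _ _ _
    · exact isWeightedHomogeneous_zero _ _ _
    · exact isWeightedHomogeneous_X _ _ _
    · exact isWeightedHomogeneous_zero _ _ _
  have hE' : ¬ (E.pull T hT).Splits := fun h =>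
    hE (Bundle2.splits_of_pull (n - 3) 3 n (by norm_num) (by omega) E T hT h)
  refine hE' (elD (L.pull T hT 0 (fun _ _ _ => rfl) δ4 hd hδ') fun hs => ?_)
  have h3 := sc_pull L T hT 0 (fun _ _ _ => rfl) δ4 hd hδ' hs
  rw [show T (Pi.single 0 1) = c from hTs 0] at h3
  exact not_sc_string hE L hu hc0 h3

end

end Pool.Agent.W615
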