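import Pool.Agent.W615.Endo

/-!
# Elations: vector fields `x_last ∂/∂x_k` (helper615)
-/

set_option autoImplicit false
set_option maxHeartbeats 400000

open MvPolynomial H960VB H938TB

namespace Pool.Agent.W615

variable {m : ℕ}

/-- the inclusion of the hyperplane `x_last = 0` -/
noncomputable abbrev hI (m : ℕ) : (Fin (m + 1) → ℂ) →ₗ[ℂ] (Fin (m + 2) → ℂ) :=
  cInc (Fin.castSucc : Fin (m + 1) → Fin (m + 2))

theorem hI_inj (m : ℕ) : Function.Injective (hI m) :=
  cInc_injective _ (Fin.castSucc_injective _)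

/-- the last coordinate -/
noncomputable abbrev tX (m : ℕ) : MvPolynomial (Fin (m + 1 + 1)) ℂ := X (Fin.last (m + 1))

theorem tX_ne (m : ℕ) : tX m ≠ 0 := X_ne_zero _

/-- the vector field -/
noncomputable def elat (k : Fin (m + 1)) : Der (m + 1) := tX m • (pderiv k.castSucc)

theorem elat_apply (k : Fin (m + 1)) (p : MvPolynomial (Fin (m + 1 + 1)) ℂ) :
    elat k p = tX m * pderiv k.castSucc p := rfl

theorem pderiv_tX (k : Fin (m + 1)) : pderiv k.castSucc (tX m) = 0 :=
  pderiv_X_of_ne (Fin.castSucc_ne_last k).symm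

theorem elat_tX (k : Fin (m + 1)) : elat k (tX m) = 0 := by
  rw [elat_apply, pderiv_tX, mul_zero]

theorem lsub_tX : lsub (hI m) (tX m) = 0 := by
  refine lsub_cInc_X_zero _ _ ?_
  rintro ⟨t, ht⟩
  exact Fin.castSucc_ne_last t ht

theorem lsub_rename (q : MvPolynomial (Fin (m + 1)) ℂ) :
    lsub (hI m) (rename Fin.castSucc q) = q := by
  have h : (lsub (hI m)).comp (rename (Fin.castSucc : Fin (m + 1) → Fin (m + 1 + 1))) =
      AlgHom.id ℂ _ := by
    apply MvPolynomial.algHom_ext
    intro i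
    rw [AlgHom.comp_apply, rename_X, lsub_cInc_X _ (Fin.castSucc_injective _)]
    rfl
  exact congrArg (fun f => f q) h

theorem lsub_pderiv (k : Fin (m + 1)) (p : MvPolynomial (Fin (m + 1 + 1)) ℂ) :
    lsub (hI m) (pderiv k.castSucc p) = pderiv k (lsub (hI m) p) := by
  refine lsub_der (n := m + 1) (hI m) (δ := pderiv k.castSucc) (δ' := pderiv k) (fun i => ?_) p
  refine Fin.lastCases ?_ (fun j => ?_) i
  · rw [pderiv_tX, lsub_tX, map_zero, map_zero]
  · rw [lsub_cInc_X _ (Fin.castSucc_injective _)]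
    by_cases hj : j = k
    · subst hj
      rw [pderiv_X_self, pderiv_X_self, map_one]
    · rw [pderiv_X_of_ne hj, pderiv_X_of_ne (fun h => hj (Fin.castSucc_injective _ h)), map_zero]

theorem dvd_of_res {p : MvPolynomial (Fin (m + 1 + 1)) ℂ} (h : lsub (hI m) p = 0) : tX m ∣ p := by
  refine X_dvd_of_lsub (Fin.last (m + 1)) ?_
  rw [Fin.succAbove_last]
  exact h

/-- restriction to the hyperplane -/
noncomputable def resE (E : Bundle2 (m + 1)) : Bundle2 m := E.pull (hI m) (hI_inj m)

/-- the trivial action on the restriction -/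
noncomputable def resD (E : Bundle2 (m + 1)) : EqB (resE E) 0 :=
  (triv E).pull (hI m) (hI_inj m) 0 (fun _ _ _ => rfl)

/-- restriction of vectors -/
noncomputable def rv {a : ℕ} (G : Vec a (m + 1)) : Vec a m := fun i => lsub (hI m) (G i)

variable {E : Bundle2 (m + 1)}

theorem rv_ker {G : Vec E.a (m + 1)} (hG : Ker E G) : Ker (resE E) (rv (a := E.a) G) :=
  hG.pull (hI m) (hI_inj m)

theorem rv_sec {τ : M} {G : Vec E.a (m + 1)} (hG : HSec (triv E) τ G) :
    HSec (resD E) τ (rv (a := E.a) G) :=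
  hG.pull (hI m) (hI_inj m) 0 (fun _ _ _ => rfl)

theorem rv_eval {a : ℕ} (G : Vec a (m + 1)) (x : Fin (m + 1) → ℂ) :
    evv (rv G) x = evv G (hI m x) :=
  evv_lsub G (hI m) x

/-- a section vanishing on the hyperplane is divisible. -/
theorem exists_div {G : Vec E.a (m + 1)} (hG : Ker E G) (h : ∀ i, rv G i = 0) :
    ∃ G' : Vec E.a (m + 1), Ker E G' ∧ ∀ i, G i = tX m * G' i := by
  have h1 : ∀ i, ∃ q, G i = tX m * q := fun i => dvd_of_res (h i)
  choose G' hG' using h1
  refine ⟨G', ?_, hG'⟩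
  apply ker_of_mul (tX_ne m)
  have h2 : (fun i => tX m * G' i) = G := funext fun i => (hG' i).symm
  rw [h2]
  exact hG

/-- dividing a homogeneous section. -/
theorem sec_div {n : ℕ} {w : Fin (n + 1) → ℤ × ℤ} {E : Bundle2 n} {D : EqB E w} {τ : M}
    {j : Fin (n + 1)} {G H : Vec E.a n} (hG : HSec D τ G)
    (h : ∀ i, G i = X j * H i) : HSec D (τ - tw w j) H where
  hom := by
    intro i v hv
    have h1 : coeff (Finsupp.single j 1 + v) (G i) ≠ 0 := by
      rw [h i, coeff_X_mul]
      exact hv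
    have h2 := hG.hom i h1
    rw [map_add, Finsupp.weight_single, one_smul] at h2
    rw [add_sub_assoc', ← h2]
    abel
  ker := by
    apply ker_of_mul (X_ne_zero j)
    have h2 : (fun i => X j * H i) = G := funext fun i => (h i).symm
    rw [h2]
    exact hG.ker

variable {k : Fin (m + 1)} (L : Lft (triv E) 0 (elat k))

/-- the restriction of the lift to the hyperplane is an endomorphism. -/
noncomputable def resL : Lft (resD E) 0 (0 : Der m) :=
  L.pull (hI m) (hI_inj m) 0 (fun _ _ _ => rfl) 0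
    (by
      intro i
      rw [elat_apply, map_mul, lsub_tX, zero_mul, Derivation.zero_apply])
    (by
      intro i
      rw [Derivation.zero_apply]
      exact isWeightedHomogeneous_zero _ _ _)

/-- the endomorphism on the hyperplane. -/
noncomputable def ep (H : Vec E.a m) : Vec E.a m := fun i => ∑ j, lsub (hI m) (L.ν i j) * H j

theorem ep_eq (H : Vec E.a m) : (resL L).op H = ep L H := by
  funext i
  show (0 : Der m) (H i) + ∑ j, lsub (hI m) (L.ν i j) * H j = _
  rw [Derivation.zero_apply, zero_add]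
  rfl

theorem ep_ker {H : Vec E.a m} (h : Ker (resE E) H) : Ker (resE E) (ep L H) := by
  rw [← ep_eq]
  exact (resL L).op_ker h

theorem ep_lin4 (p q r u : MvPolynomial (Fin (m + 1)) ℂ) (G H K N : Vec E.a m)
    (i : Fin E.a) :
    ep L (fun i => p * G i + q * H i + r * K i + u * N i) i =
      p * ep L G i + q * ep L H i + r * ep L K i + u * ep L N i := by
  simp only [ep]
  rw [Finset.mul_sum, Finset.mul_sum, Finset.mul_sum, Finset.mul_sum,
    ← Finset.sum_add_distrib, ← Finset.sum_add_distrib, ← Finset.sum_add_distrib]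
  exact Finset.sum_congr rfl fun j _ => by ring

theorem ep_mul (p : MvPolynomial (Fin (m + 1)) ℂ) {G H : Vec E.a m} (h : ∀ i, G i = p * H i)
    (i : Fin E.a) : ep L G i = p * ep L H i := by
  simp only [ep, h]
  rw [Finset.mul_sum]
  exact Finset.sum_congr rfl fun j _ => by ring

theorem ep_zero {G : Vec E.a m} (h : ∀ i, G i = 0) (i : Fin E.a) : ep L G i = 0 := by
  simp only [ep, h, mul_zero, Finset.sum_const_zero]

theorem rv_op (G : Vec E.a (m + 1)) (i : Fin E.a) : rv (L.op G) i = ep L (rv G) i := by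
  show lsub (hI m) (elat k (G i) + ∑ j, L.ν i j * G j) =
    ∑ j, lsub (hI m) (L.ν i j) * lsub (hI m) (G j)
  rw [map_add, elat_apply, map_mul, lsub_tX, zero_mul, zero_add, map_sum]
  exact Finset.sum_congr rfl fun j _ => by rw [map_mul]

theorem op_tX {G H : Vec E.a (m + 1)} (h : ∀ i, G i = tX m * H i) (i : Fin E.a) :
    L.op G i = tX m * L.op H i := by
  have h1 : G = fun i => tX m * H i := funext h
  rw [h1, L.op_mul, elat_tX]
  simp

/-- a bundle is split if the lift is divisible by the last coordinate. -/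
theorem splits_of_div (W : Wedge (triv E))
    (h : ∀ τ G, HSec (triv E) τ G → ∀ i, ep L (rv G) i = 0) : E.Splits := by
  classical
  have h1 : ∀ τ G, HSec (triv E) τ G → ∃ G' : Vec E.a (m + 1), Ker E G' ∧
      ∀ i, L.op G i = tX m * G' i := by
    intro τ G hG
    refine exists_div (L.op_ker hG.ker) fun i => ?_
    rw [rv_op, h τ G hG]
  let dn : Vec E.a (m + 1) → Vec E.a (m + 1) := fun G =>
    if hh : ∃ G' : Vec E.a (m + 1), Ker E G' ∧ ∀ i, L.op G i = tX m * G' i then hh.choose else 0
  have hdn : ∀ τ G, HSec (triv E) τ G → Ker E (dn G) ∧ ∀ i, L.op G i = tX m * dn G i := by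
    intro τ G hG
    have h2 := h1 τ G hG
    have h3 : dn G = h2.choose := dif_pos h2
    rw [h3]
    exact h2.choose_spec
  obtain ⟨θ, -, hθ⟩ := L.exists_trace W (by omega) rfl
  -- the trace vanishes
  have hθ0 : ∀ τ τ' G G', HSec (triv E) τ G → HSec (triv E) τ' G' →
      tX m * (W.wd (dn G) G' + W.wd G (dn G')) =
        tX m * pderiv k.castSucc (W.wd G G') + C θ * W.wd G G' := by
    intro τ τ' G G' hG hG'
    have a1 := hθ G G' hG.ker hG'.ker
    obtain ⟨b1, b2⟩ := hdn τ G hG
    obtain ⟨c1, c2⟩ := hdn τ' G' hG'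
    rw [wd_of_mul_left W b1 hG'.ker b2, wd_of_mul_right W c1 hG.ker c2, elat_apply] at a1
    linear_combination a1
  have hθ1 : θ = 0 := by
    by_contra hne
    obtain ⟨τ, τ', G, G', hG, hG', hp⟩ := exists_ne W (D := triv E) (hI m (fun _ => 1))
      (fun h => by
        have := hI_inj m (h.trans (map_zero _).symm)
        simpa using congrFun this 0)
    have a1 := hθ0 τ τ' G G' hG hG'
    have a2 := congrArg (lsub (hI m)) a1
    rw [map_add, map_mul, map_mul, map_mul, lsub_tX, zero_mul, zero_mul, zero_add] at a2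
    have a3 : lsub (hI m) (C θ) = C θ := by
      rw [lsub, aeval_C]
      rfl
    rw [a3] at a2
    have a4 := (mul_eq_zero.1 a2.symm).resolve_left (by rwa [C_eq_zero])
    apply hp
    rw [← eval_lsub, a4, map_zero]
  refine trans W k.castSucc dn (fun τ G hG => ?_) (fun τ τ' G G' hG hG' => ?_)
  · obtain ⟨b1, b2⟩ := hdn τ G hG
    have h2 := L.op_hom hG
    rw [add_zero] at h2
    exact sec_div (j := Fin.last (m + 1)) h2 b2
  · have a1 := hθ0 τ τ' G G' hG hG'
    rw [hθ1, C_0, zero_mul, add_zero] at a1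
    exact (mul_left_cancel₀ (tX_ne m) a1).symm

end Pool.Agent.W615
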