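import Pool.Agent.W615.Elation

/-!
# Elations: the kernel of the endomorphism on the hyperplane (helper615)
-/

set_option autoImplicit false
set_option maxHeartbeats 400000

open MvPolynomial H960VB H938TB

namespace Pool.Agent.W615

variable {m : ℕ} {E : Bundle2 (m + 1)} {k : Fin (m + 1)}

/-- the data attached to an elation acting on a nonsplit bundle. -/
structure ED (L : Lft (triv E) 0 (elat k)) (W' : Wedge (resD E)) where
  nil1 : ∀ H H' : Vec E.a m, Ker (resE E) H → Ker (resE E) H' →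
    W'.wd (ep L H) H' + W'.wd H (ep L H') = 0
  nil2 : ∀ H : Vec E.a m, Ker (resE E) H → ∀ i, ep L (ep L H) i = 0
  G₀ : Vec E.a (m + 1)
  τ₀ : M
  hG₀ : HSec (triv E) τ₀ G₀
  s : Vec E.a m
  τs : M
  hs : HSec (resD E) τs s
  hsp : Prm s
  f₀ : MvPolynomial (Fin (m + 1)) ℂ
  hf₀ : f₀ ≠ 0
  hG₀s : ∀ i, ep L (rv G₀) i = f₀ * s i
  min : ∀ τ G, HSec (triv E) τ G → τ.1 < τ₀.1 → ∀ i, ep L (rv G) i = 0

theorem exists_ED (hm : 1 ≤ m) (hE : ¬ E.Splits) (hF : ¬ (resE E).Splits)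
    (L : Lft (triv E) 0 (elat k))
    (W : Wedge (triv E)) (W' : Wedge (resD E))
    (hdet : ∀ G G' : Vec E.a m, Ker (resE E) G → Ker (resE E) G' →
      W'.wd (ep L G) (ep L G') = 0) : Nonempty (ED L W') := by
  obtain ⟨n1, n2⟩ := nilp W' (resL L) hm hF (by
    intro G G' hG hG'
    have h := hdet G G' hG hG'
    rwa [← ep_eq, ← ep_eq] at h)
  simp only [ep_eq] at n1 n2
  have h1 : ∃ τ G, HSec (triv E) τ G ∧ ∃ i, ep L (rv G) i ≠ 0 := by
    by_contra hc
    push Not at hc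
    exact hE (splits_of_div L W hc)
  obtain ⟨d, ⟨τ₀, G₀, hG₀, hd, i₀, hi₀⟩, hmin⟩ := Int.exists_least_of_bdd
    (P := fun d => ∃ τ G, HSec (triv E) τ G ∧ τ.1 = d ∧ ∃ i, ep L (rv G) i ≠ 0)
    (by
      refine ⟨-∑ i, |E.β i|, ?_⟩
      rintro z ⟨τ, G, hG, rfl, i, hi⟩
      have h2 : ∃ j, G j ≠ 0 := by
        by_contra hc
        push Not at hc
        exact hi (ep_zero L (fun j => by
          show lsub (hI m) (G j) = 0
          rw [hc j, map_zero]) i)
      obtain ⟨j, hj⟩ := h2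
      have h3 := degree_nonneg (hG.hom j) hj
      have h4 : ((E.β j, (triv E).b j) + τ : M).1 = E.β j + τ.1 := rfl
      rw [h4] at h3
      have h5 : E.β j ≤ ∑ i, |E.β i| := (le_abs_self _).trans
        (Finset.single_le_sum (f := fun i => |E.β i|) (fun _ _ => abs_nonneg _)
          (Finset.mem_univ j))
      linarith)
    (by
      obtain ⟨τ, G, hG, h⟩ := h1
      exact ⟨τ.1, τ, G, hG, rfl, h⟩)
  obtain ⟨δ, g, s, hg0, -, hs, hsp, hGs⟩ := exists_prm (D := resD E) (by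
    have h := (resL L).op_hom (rv_sec hG₀)
    rw [ep_eq] at h
    exact h) ⟨i₀, hi₀⟩
  refine ⟨⟨n1, n2, G₀, τ₀, hG₀, s, _, hs, hsp, g, hg0, hGs, ?_⟩⟩
  intro τ G hG hlt i
  by_contra hne
  have := hmin τ.1 ⟨τ, G, hG, rfl, i, hne⟩
  omega

namespace ED

variable {L : Lft (triv E) 0 (elat k)} {W' : Wedge (resD E)} (e : ED L W')

include e

theorem As (i : Fin E.a) : ep L e.s i = 0 := by
  apply mul_left_cancel₀ e.hf₀
  rw [← ep_mul L e.f₀ e.hG₀s, e.nil2 (rv e.G₀) (rv_ker e.hG₀.ker), mul_zero]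

theorem img {H : Vec E.a m} (hH : Ker (resE E) H) :
    ∃ f, ∀ i, ep L H i = f * e.s i := by
  have hk : Ker (resE E) (ep L H) := ep_ker L hH
  apply e.hsp.dvd_wd W' e.hs.ker hk
  have hG : Ker (resE E) (rv e.G₀) := rv_ker e.hG₀.ker
  have a1 := e.nil1 (rv e.G₀) (ep L H) hG hk
  have a2 : W'.wd (rv (a := E.a) e.G₀) (ep L (ep L H)) = 0 :=
    wd_zero_right W' hG (ep_ker L hk) (e.nil2 H hH)
  have a3 : W'.wd (ep L (rv e.G₀)) (ep L H) = e.f₀ * W'.wd e.s (ep L H) :=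
    wd_of_mul_left W' e.hs.ker hk e.hG₀s
  rw [a3, a2, add_zero] at a1
  exact (mul_eq_zero.1 a1).resolve_left e.hf₀

theorem kerA {H : Vec E.a m} (hH : Ker (resE E) H) (h : ∀ i, ep L H i = 0) :
    ∃ f, ∀ i, H i = f * e.s i := by
  apply e.hsp.dvd_wd W' e.hs.ker hH
  have hG : Ker (resE E) (rv e.G₀) := rv_ker e.hG₀.ker
  have a1 := e.nil1 (rv e.G₀) H hG hH
  have a2 : W'.wd (rv (a := E.a) e.G₀) (ep L H) = 0 :=
    wd_zero_right W' hG (ep_ker L hH) h
  have a3 : W'.wd (ep L (rv e.G₀)) H = e.f₀ * W'.wd e.s H :=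
    wd_of_mul_left W' e.hs.ker hH e.hG₀s
  rw [a3, a2, add_zero] at a1
  exact (mul_eq_zero.1 a1).resolve_left e.hf₀

/-- the quotient of the second derivative of the minimal section. -/
theorem exists_G₁ : ∃ G₁ : Vec E.a (m + 1), Ker E G₁ ∧
    (∀ i, L.op (L.op e.G₀) i = tX m * G₁ i) ∧ ∀ i, ep L (rv G₁) i = 0 := by
  have hz : ∀ i, rv (L.op (L.op e.G₀)) i = 0 := by
    intro i
    rw [rv_op]
    have h : rv (L.op e.G₀) = ep L (rv e.G₀) := by
      ext1 j
      exact rv_op L e.G₀ j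
    rw [h]
    have h' : Ker (resE E) (rv (a := E.a) e.G₀) := rv_ker e.hG₀.ker
    exact e.nil2 (rv e.G₀) h' i
  have hk2 : Ker E (L.op (L.op e.G₀)) := L.op_ker (L.op_ker e.hG₀.ker)
  obtain ⟨G₁, h1, h2⟩ := exists_div hk2 hz
  refine ⟨G₁, h1, h2, ?_⟩
  have h3 : HSec (triv E) (e.τ₀ - tw 0 (Fin.last (m + 1))) G₁ := by
    have h4 : HSec (triv E) (e.τ₀ + 0 + 0) (L.op (L.op e.G₀)) := L.op_hom (L.op_hom e.hG₀)
    rw [add_zero, add_zero] at h4
    exact sec_div h4 h2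
  refine e.min _ _ h3 ?_
  show e.τ₀.1 - 1 < e.τ₀.1
  omega

/-- step 2 -/
theorem step2 {G G₁ : Vec E.a (m + 1)} (hG : Ker E G)
    (h : ∀ i, L.op (L.op G) i = tX m * G₁ i) (i : Fin E.a) : ep L (rv G₁) i = 0 := by
  obtain ⟨G₀₁, hk₀₁, h₀₁, hA₀₁⟩ := e.exists_G₁
  obtain ⟨f, hf⟩ := e.img (rv_ker hG)
  set a : MvPolynomial (Fin (m + 1 + 1)) ℂ := rename Fin.castSucc e.f₀ with ha
  set b : MvPolynomial (Fin (m + 1 + 1)) ℂ := rename Fin.castSucc f with hb
  have ra : lsub (hI m) a = e.f₀ := lsub_rename _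
  have rb : lsub (hI m) b = f := lsub_rename _
  let K : Vec E.a (m + 1) := fun i => a * G i - b * e.G₀ i
  have hK : Ker E K := ker_sub (ker_mul hG a) (ker_mul e.hG₀.ker b)
  have oK : L.op K = fun i => (elat k a * G i + a * L.op G i) -
      (elat k b * e.G₀ i + b * L.op e.G₀ i) := by
    rw [show K = fun i => (fun i => a * G i) i - (fun i => b * e.G₀ i) i from rfl, L.op_sub,
      L.op_mul, L.op_mul]
  have ooK : ∀ i, L.op (L.op K) i = (elat k (elat k a) * G i + elat k a * L.op G i +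
      (elat k a * L.op G i + a * L.op (L.op G) i)) -
      (elat k (elat k b) * e.G₀ i + elat k b * L.op e.G₀ i +
      (elat k b * L.op e.G₀ i + b * L.op (L.op e.G₀) i)) := by
    intro i
    rw [oK]
    rw [show (fun i => (elat k a * G i + a * L.op G i) -
      (elat k b * e.G₀ i + b * L.op e.G₀ i)) = fun i =>
        (fun i => (fun i => elat k a * G i) i + (fun i => a * L.op G i) i) i -
        (fun i => (fun i => elat k b * e.G₀ i) i + (fun i => b * L.op e.G₀ i) i) i from rfl,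
      L.op_sub, L.op_add, L.op_add, L.op_mul, L.op_mul, L.op_mul, L.op_mul]
  -- the restriction of K is killed
  have hAK : ∀ i, ep L (rv K) i = 0 := by
    intro i
    have h1 : rv K = fun i => e.f₀ * rv G i + (-f) * rv e.G₀ i + 0 * rv G i + 0 * rv G i := by
      funext i
      show lsub (hI m) (a * G i - b * e.G₀ i) = _
      rw [map_sub, map_mul, map_mul, ra, rb]
      show e.f₀ * rv G i - f * rv e.G₀ i = _
      ring
    rw [h1, ep_lin4, hf, e.hG₀s]
    ring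
  have hz : ∀ i, rv (L.op K) i = 0 := by
    intro i
    rw [rv_op, hAK]
  obtain ⟨m₁, hm₁, hm₁K⟩ := exists_div (L.op_ker hK) hz
  have e1 : ∀ i, tX m * pderiv k.castSucc (pderiv k.castSucc a) * G i +
      2 * pderiv k.castSucc a * L.op G i + a * G₁ i -
      (tX m * pderiv k.castSucc (pderiv k.castSucc b) * e.G₀ i +
      2 * pderiv k.castSucc b * L.op e.G₀ i + b * G₀₁ i) = L.op m₁ i := by
    intro i
    apply mul_left_cancel₀ (tX_ne m)
    have h1 := ooK i
    rw [op_tX L hm₁K, h, h₀₁] at h1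
    rw [h1]
    have h2 : ∀ p, elat k (elat k p) =
        tX m * (tX m * pderiv k.castSucc (pderiv k.castSucc p)) := by
      intro p
      rw [elat_apply, elat_apply, Derivation.leibniz, pderiv_tX, smul_eq_mul, smul_zero, add_zero]
    rw [h2, h2, elat_apply, elat_apply]
    ring
  have e2 : ∀ i, e.f₀ * rv G₁ i + (2 * pderiv k e.f₀) * ep L (rv G) i +
      (-(2 * pderiv k f)) * ep L (rv e.G₀) i + (-f) * rv G₀₁ i =
      ep L (rv m₁) i := by
    intro i
    have h1 := congrArg (lsub (hI m)) (e1 i)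
    have h2 : lsub (hI m) (L.op m₁ i) = ep L (rv m₁) i := rv_op L m₁ i
    have h3 : lsub (hI m) (L.op G i) = ep L (rv G) i := rv_op L G i
    have h4 : lsub (hI m) (L.op e.G₀ i) = ep L (rv e.G₀) i := rv_op L e.G₀ i
    simp only [map_add, map_sub, map_mul, lsub_tX, lsub_pderiv, ra, rb, zero_mul, zero_add,
      map_ofNat] at h1
    rw [h2, h3, h4] at h1
    rw [← h1]
    show e.f₀ * lsub (hI m) (G₁ i) + _ + _ + (-f) * lsub (hI m) (G₀₁ i) = _
    ring
  have e3 := e.nil2 (rv m₁) (rv_ker hm₁) i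
  rw [← show (fun i => e.f₀ * rv G₁ i + (2 * pderiv k e.f₀) * ep L (rv G) i +
      (-(2 * pderiv k f)) * ep L (rv e.G₀) i + (-f) * rv G₀₁ i) =
      ep L (rv m₁) from funext e2, ep_lin4, e.nil2 (rv G) (rv_ker hG),
      e.nil2 (rv e.G₀) (rv_ker e.hG₀.ker), hA₀₁] at e3
  have e4 : e.f₀ * ep L (rv G₁) i = 0 := by linear_combination e3
  exact (mul_eq_zero.1 e4).resolve_left e.hf₀

/-- step 3 -/
theorem step3 {G G₁ : Vec E.a (m + 1)} (hG : Ker E G) (hA : ∀ i, ep L (rv G) i = 0)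
    (h : ∀ i, L.op G i = tX m * G₁ i) (i : Fin E.a) : ep L (rv G₁) i = 0 := by
  obtain ⟨G₀₁, hk₀₁, h₀₁, hA₀₁⟩ := e.exists_G₁
  obtain ⟨f, hf⟩ := e.kerA (rv_ker hG) hA
  set a : MvPolynomial (Fin (m + 1 + 1)) ℂ := rename Fin.castSucc e.f₀ with ha
  set b : MvPolynomial (Fin (m + 1 + 1)) ℂ := rename Fin.castSucc f with hb
  have ra : lsub (hI m) a = e.f₀ := lsub_rename _
  have rb : lsub (hI m) b = f := lsub_rename _
  let K : Vec E.a (m + 1) := fun i => a * G i - b * L.op e.G₀ i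
  have hK : Ker E K := ker_sub (ker_mul hG a) (ker_mul (L.op_ker e.hG₀.ker) b)
  have oK : L.op K = fun i => (elat k a * G i + a * L.op G i) -
      (elat k b * L.op e.G₀ i + b * L.op (L.op e.G₀) i) := by
    rw [show K = fun i => (fun i => a * G i) i - (fun i => b * L.op e.G₀ i) i from rfl, L.op_sub,
      L.op_mul, L.op_mul]
  have hAK : ∀ i, rv K i = 0 := by
    intro i
    show lsub (hI m) (a * G i - b * L.op e.G₀ i) = _
    rw [map_sub, map_mul, map_mul, ra, rb]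
    have h2 : lsub (hI m) (L.op e.G₀ i) = ep L (rv e.G₀) i := rv_op L e.G₀ i
    have h3 : lsub (hI m) (G i) = f * e.s i := hf i
    rw [h2, h3, e.hG₀s]
    ring
  obtain ⟨K₁, hK₁, hKK₁⟩ := exists_div hK hAK
  have e1 : ∀ i, pderiv k.castSucc a * G i + a * G₁ i -
      (pderiv k.castSucc b * L.op e.G₀ i + b * G₀₁ i) = L.op K₁ i := by
    intro i
    apply mul_left_cancel₀ (tX_ne m)
    rw [← op_tX L hKK₁, oK]
    simp only
    rw [h₀₁, h, elat_apply, elat_apply]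
    ring
  have e2 : ∀ i, e.f₀ * rv G₁ i + (pderiv k e.f₀) * rv G i +
      (-(pderiv k f)) * ep L (rv e.G₀) i + (-f) * rv G₀₁ i =
      ep L (rv K₁) i := by
    intro i
    have h1 := congrArg (lsub (hI m)) (e1 i)
    have h2 : lsub (hI m) (L.op K₁ i) = ep L (rv K₁) i := rv_op L K₁ i
    have h4 : lsub (hI m) (L.op e.G₀ i) = ep L (rv e.G₀) i := rv_op L e.G₀ i
    simp only [map_add, map_sub, map_mul, lsub_pderiv, ra, rb] at h1
    rw [h2, h4] at h1
    rw [← h1]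
    show e.f₀ * lsub (hI m) (G₁ i) + _ * lsub (hI m) (G i) + _ + (-f) * lsub (hI m) (G₀₁ i) = _
    ring
  have e3 := e.nil2 (rv K₁) (rv_ker hK₁) i
  rw [← show (fun i => e.f₀ * rv G₁ i + (pderiv k e.f₀) * rv G i +
      (-(pderiv k f)) * ep L (rv e.G₀) i + (-f) * rv G₀₁ i) =
      ep L (rv K₁) from funext e2, ep_lin4, hA,
      e.nil2 (rv e.G₀) (rv_ker e.hG₀.ker), hA₀₁] at e3
  have e4 : e.f₀ * ep L (rv G₁) i = 0 := by linear_combination e3
  exact (mul_eq_zero.1 e4).resolve_left e.hf₀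

/-- the lift is compatible with the wedge product. -/
theorem trace (hm : 1 ≤ m) (W : Wedge (triv E)) (G G' : Vec E.a (m + 1)) (hG : Ker E G)
    (hG' : Ker E G') : W.wd (L.op G) G' + W.wd G (L.op G') = elat k (W.wd G G') := by
  obtain ⟨θ, -, hθ⟩ := L.exists_trace W (by omega) rfl
  have hθ1 : θ = 0 := by
    by_contra hne
    obtain ⟨G₀₁, hk₀₁, h₀₁, hA₀₁⟩ := e.exists_G₁
    have hk := e.hG₀.ker
    have hk' := L.op_ker hk
    have a1 := hθ e.G₀ (L.op e.G₀) hk hk'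
    rw [wd_self W hk', wd_of_mul_right W hk₀₁ hk h₀₁, elat_apply] at a1
    have a2 := congrArg (lsub (hI m)) a1
    have a3 : lsub (hI m) (C θ) = C θ := by
      rw [lsub, aeval_C]
      rfl
    rw [map_add, map_add, map_mul, map_mul, map_mul, lsub_tX, zero_mul, zero_mul, map_zero,
      zero_add, zero_add, a3] at a2
    have a4 := (mul_eq_zero.1 a2.symm).resolve_left (by rwa [C_eq_zero])
    have a5 : ∀ i j, e.s i * rv e.G₀ j = e.s j * rv e.G₀ i := by
      intro i j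
      have b1 := congrArg (lsub (hI m)) (W.eq e.G₀ (L.op e.G₀) hk hk' i j)
      rw [map_mul, a4, zero_mul, map_sub, map_mul, map_mul] at b1
      have b2 : ∀ i, lsub (hI m) (L.op e.G₀ i) = e.f₀ * e.s i := by
        intro i
        rw [← e.hG₀s]
        exact rv_op L e.G₀ i
      rw [b2, b2] at b1
      apply mul_left_cancel₀ e.hf₀
      show e.f₀ * (e.s i * lsub (hI m) (e.G₀ j)) = e.f₀ * (e.s j * lsub (hI m) (e.G₀ i))
      linear_combination -b1
    obtain ⟨g, hg⟩ := e.hsp.dvd a5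
    obtain ⟨i, hi⟩ := e.hsp.ne
    have a6 := e.hG₀s i
    rw [ep_mul L g hg, e.As, mul_zero] at a6
    exact (mul_ne_zero e.hf₀ hi) a6.symm
  have h1 := hθ G G' hG hG'
  rw [hθ1, C_0, zero_mul, add_zero] at h1
  exact h1

end ED

end Pool.Agent.W615
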