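import Pool.Agent.W615.Elation2

/-!
# Elations: the kernel is a subbundle away from the centre (helper615)
-/

set_option autoImplicit false
set_option maxHeartbeats 400000

open MvPolynomial H960VB H938TB

namespace Pool.Agent.W615

/-! ### restriction to a line -/

/-- restriction of polynomials to the line through `y` in the direction `k`. -/
noncomputable def phi {n : ℕ} (y : Fin (n + 1) → ℂ) (k : Fin (n + 1)) :
    MvPolynomial (Fin (n + 1)) ℂ →ₐ[ℂ] Polynomial ℂ :=
  aeval (fun i => Polynomial.C (y i) + if i = k then Polynomial.X else 0)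

theorem phi_eval {n : ℕ} (y : Fin (n + 1) → ℂ) (k : Fin (n + 1)) (z : ℂ)
    (p : MvPolynomial (Fin (n + 1)) ℂ) :
    Polynomial.eval z (phi y k p) = eval (y + z • Pi.single k 1) p := by
  induction p using MvPolynomial.induction_on with
  | C a => simp [phi]
  | add p q hp hq => rw [map_add, Polynomial.eval_add, hp, hq, map_add]
  | mul_X p i hp =>
    rw [map_mul, Polynomial.eval_mul, hp, map_mul, eval_X]
    congr 1
    rw [phi, aeval_X]
    by_cases h : i = k
    · subst h
      simp
    · simp [h]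

theorem phi_deriv {n : ℕ} (y : Fin (n + 1) → ℂ) (k : Fin (n + 1))
    (p : MvPolynomial (Fin (n + 1)) ℂ) :
    Polynomial.derivative (phi y k p) = phi y k (pderiv k p) := by
  induction p using MvPolynomial.induction_on with
  | C a => simp [phi]
  | add p q hp hq => rw [map_add, map_add, hp, hq, map_add, map_add]
  | mul_X p i hp =>
    rw [map_mul, Polynomial.derivative_mul, hp, Derivation.leibniz, smul_eq_mul, smul_eq_mul,
      map_add, map_mul, map_mul]
    have h1 : Polynomial.derivative (phi y k (X i)) = phi y k (pderiv k (X i)) := by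
      rw [phi, aeval_X]
      by_cases h : i = k
      · subst h
        simp
      · rw [pderiv_X_of_ne h, if_neg h]
        simp
    rw [h1]
    ring

/-- a family stable under the derivative, all of whose members vanish at a point, vanishes on the
line through that point. -/
theorem phi_zero {n : ℕ} (y : Fin (n + 1) → ℂ) (k : Fin (n + 1))
    (J : Set (MvPolynomial (Fin (n + 1)) ℂ)) (hJ : ∀ u ∈ J, pderiv k u ∈ J)
    (h0 : ∀ u ∈ J, eval y u = 0) : ∀ u ∈ J, phi y k u = 0 := by
  have key : ∀ (l : ℕ), ∀ u ∈ J, (phi y k u).coeff l = 0 := by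
    intro l
    induction l with
    | zero =>
      intro u hu
      rw [Polynomial.coeff_zero_eq_eval_zero, phi_eval, zero_smul, add_zero]
      exact h0 u hu
    | succ l ih =>
      intro u hu
      have h1 := ih _ (hJ u hu)
      rw [← phi_deriv, Polynomial.coeff_derivative] at h1
      exact (mul_eq_zero.1 h1).resolve_right (by exact_mod_cast Nat.succ_ne_zero l)
  intro u hu
  ext l
  rw [key l u hu, Polynomial.coeff_zero]

variable {m : ℕ} {E : Bundle2 (m + 1)} {k : Fin (m + 1)}

/-- the sections whose restriction to the hyperplane is in the kernel of the endomorphism. -/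
def Mp (L : Lft (triv E) 0 (elat k)) (G : Vec E.a (m + 1)) : Prop :=
  Ker E G ∧ ∀ i, ep L (rv G) i = 0

/-- the wedge products of such sections, divided by the last coordinate. -/
noncomputable def JJ (L : Lft (triv E) 0 (elat k)) (W : Wedge (triv E)) :
    AddSubgroup (MvPolynomial (Fin (m + 1 + 1)) ℂ) :=
  AddSubgroup.closure {u | ∃ G G', Mp L G ∧ Mp L G' ∧ W.wd G G' = tX m * u}

namespace ED

variable {L : Lft (triv E) 0 (elat k)} {W' : Wedge (resD E)} (e : ED L W')

include e

theorem dvd_wd (W : Wedge (triv E)) {G G' : Vec E.a (m + 1)} (hG : Mp L G) (hG' : Mp L G') :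
    ∃ u, W.wd G G' = tX m * u := by
  obtain ⟨f, hf⟩ := e.kerA (rv_ker hG.1) hG.2
  obtain ⟨f', hf'⟩ := e.kerA (rv_ker hG'.1) hG'.2
  have h1 : ∀ i, lsub (hI m) (G i) = f * e.s i := hf
  have h2 : ∀ i, lsub (hI m) (G' i) = f' * e.s i := hf'
  obtain ⟨i, j, hij⟩ := W.P_ne (hI m (fun _ => 1)) (fun h => by
    have := hI_inj m (h.trans (map_zero _).symm)
    simpa using congrFun this 0)
  have h3 : lsub (hI m) (W.P i j) ≠ 0 := by
    intro h0
    apply hij
    rw [← eval_lsub, h0, map_zero]
  have h4 := congrArg (lsub (hI m)) (W.eq G G' hG.1 hG'.1 i j)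
  rw [map_sub, map_mul, map_mul, map_mul, h1, h1, h2, h2] at h4
  have h5 : lsub (hI m) (W.wd G G') * lsub (hI m) (W.P i j) = 0 := by
    rw [← h4]
    ring
  exact dvd_of_res ((mul_eq_zero.1 h5).resolve_right h3)

theorem Mp_op {G : Vec E.a (m + 1)} (hG : Mp L G) : ∃ G₁, Mp L G₁ ∧
    ∀ i, L.op G i = tX m * G₁ i := by
  have hz : ∀ i, rv (L.op G) i = 0 := by
    intro i
    rw [rv_op, hG.2]
  have hk : Ker E (L.op G) := L.op_ker hG.1
  obtain ⟨G₁, h1, h2⟩ := exists_div hk hz
  exact ⟨G₁, ⟨h1, e.step3 hG.1 hG.2 h2⟩, h2⟩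

theorem JJ_der (hm : 1 ≤ m) (W : Wedge (triv E)) {u : MvPolynomial (Fin (m + 1 + 1)) ℂ}
    (hu : u ∈ JJ L W) : pderiv k.castSucc u ∈ JJ L W := by
  unfold JJ at hu ⊢
  induction hu using AddSubgroup.closure_induction with
  | mem u hu =>
    obtain ⟨G, G', hG, hG', hw⟩ := hu
    obtain ⟨G₁, hG₁, h1⟩ := e.Mp_op hG
    obtain ⟨G₁', hG₁', h1'⟩ := e.Mp_op hG'
    obtain ⟨u₁, hu₁⟩ := e.dvd_wd W hG₁ hG'
    obtain ⟨u₂, hu₂⟩ := e.dvd_wd W hG hG₁'
    have h2 := e.trace hm W G G' hG.1 hG'.1
    rw [wd_of_mul_left W hG₁.1 hG'.1 h1, wd_of_mul_right W hG₁'.1 hG.1 h1', hu₁, hu₂, hw,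
      elat_apply, Derivation.leibniz, pderiv_tX, smul_zero, add_zero, smul_eq_mul] at h2
    have h3 : pderiv k.castSucc u = u₁ + u₂ := by
      apply mul_left_cancel₀ (tX_ne m)
      apply mul_left_cancel₀ (tX_ne m)
      rw [← h2]
      ring
    rw [h3]
    exact add_mem (AddSubgroup.subset_closure ⟨G₁, G', hG₁, hG', hu₁⟩)
      (AddSubgroup.subset_closure ⟨G, G₁', hG, hG₁', hu₂⟩)
  | zero => rw [map_zero]; exact zero_mem _
  | add x y _ _ hx hy => rw [map_add]; exact add_mem hx hy
  | neg x _ hx => rw [map_neg]; exact neg_mem hx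

theorem JJ_eval (W : Wedge (triv E)) {q : Fin (m + 1) → ℂ} (hq : q ≠ 0)
    (hs : evv e.s q = 0) {u : MvPolynomial (Fin (m + 1 + 1)) ℂ}
    (hu : u ∈ JJ L W) : eval (hI m q) u = 0 := by
  unfold JJ at hu
  induction hu using AddSubgroup.closure_induction with
  | mem u hu =>
    obtain ⟨G, G', hG, hG', hw⟩ := hu
    obtain ⟨f, hf⟩ := e.kerA (rv_ker hG.1) hG.2
    obtain ⟨f', hf'⟩ := e.kerA (rv_ker hG'.1) hG'.2
    have h1 : ∀ i, eval (hI m q) (G i) = 0 := by
      intro i
      rw [← eval_lsub]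
      show eval q (rv G i) = 0
      have h2 : eval q (e.s i) = 0 := congrFun hs i
      rw [hf, map_mul, h2, mul_zero]
    have h1' : ∀ i, eval (hI m q) (G' i) = 0 := by
      intro i
      rw [← eval_lsub]
      show eval q (rv G' i) = 0
      have h2 : eval q (e.s i) = 0 := congrFun hs i
      rw [hf', map_mul, h2, mul_zero]
    obtain ⟨i, j, hij⟩ := W.P_ne (hI m q) (fun h => hq (hI_inj m (h.trans (map_zero _).symm)))
    have h2 := congrArg (fun p => eval (hI m q) (pderiv (Fin.last (m + 1)) p))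
      (W.eq G G' hG.1 hG'.1 i j)
    simp only [hw, map_sub, Derivation.leibniz, smul_eq_mul, map_add, map_mul, h1, h1', zero_mul,
      add_zero, sub_zero] at h2
    have h3 : eval (hI m q) (tX m) = 0 := by
      rw [← eval_lsub, lsub_tX, map_zero]
    have h4 : pderiv (Fin.last (m + 1)) (tX m) = 1 := pderiv_X_self _
    rw [h3, h4, map_one] at h2
    have h5 : eval (hI m q) (W.P i j) * eval (hI m q) u = 0 := by
      linear_combination -h2
    exact (mul_eq_zero.1 h5).resolve_left hij
  | zero => rw [map_zero]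
  | add x y _ _ hx hy => rw [map_add, hx, hy, add_zero]
  | neg x _ hx => rw [map_neg, hx, neg_zero]

theorem exists_good (W : Wedge (triv E)) {x : Fin (m + 1) → ℂ} (hx : x ≠ 0)
    (hs : evv e.s x ≠ 0) : ∃ u ∈ JJ L W, eval (hI m x) u ≠ 0 := by
  have hx' : hI m x ≠ 0 := fun h => hx (hI_inj m (h.trans (map_zero _).symm))
  obtain ⟨τ, τ', G, G', hG, hG', hp⟩ := exists_ne W (D := triv E) (hI m x) hx'
  have kG : Ker (resE E) (rv (a := E.a) G) := rv_ker hG.ker
  have kG' : Ker (resE E) (rv (a := E.a) G') := rv_ker hG'.ker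
  set p : MvPolynomial (Fin (m + 1)) ℂ := W'.wd e.s (rv G') with hpdef
  set q : MvPolynomial (Fin (m + 1)) ℂ := W'.wd e.s (rv G) with hqdef
  set r : MvPolynomial (Fin (m + 1)) ℂ := W'.wd (rv G) (rv G') with hrdef
  let K : Vec E.a (m + 1) := fun i => rename Fin.castSucc p * G i - rename Fin.castSucc q * G' i
  have hK : Ker E K := ker_sub (ker_mul hG.ker _) (ker_mul hG'.ker _)
  have h3 : ∀ i, rv K i = r * e.s i := by
    intro i
    show lsub (hI m) (rename Fin.castSucc p * G i - rename Fin.castSucc q * G' i) = _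
    rw [map_sub, map_mul, map_mul, lsub_rename, lsub_rename]
    have h4 : r * e.s i - p * lsub (hI m) (G i) + q * lsub (hI m) (G' i) = 0 :=
      W'.three e.s (rv G) (rv G') e.hs.ker kG kG' i
    linear_combination -h4
  have hMp : Mp L K := ⟨hK, fun i => by rw [ep_mul L r h3, e.As, mul_zero]⟩
  -- r does not vanish at x
  have hr : eval x r ≠ 0 := by
    have h5 := (W.ind (hI m x) hx' G G' hG.ker hG'.ker).1 hp
    rw [← rv_eval, ← rv_eval] at h5
    exact (W'.ind x hx (rv G) (rv G') kG kG').2 h5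
  obtain ⟨i, hi⟩ : ∃ i, evv e.s x i ≠ 0 := by
    by_contra hc
    push Not at hc
    exact hs (funext hc)
  have hKi : eval (hI m x) (K i) ≠ 0 := by
    rw [← eval_lsub]
    show eval x (rv K i) ≠ 0
    rw [h3, map_mul]
    exact mul_ne_zero hr hi
  have key : ∀ H : Vec E.a (m + 1), Ker E H → W.wd K H ∈ JJ L W := by
    intro H hH
    have h6 : Mp L (fun i => tX m * H i) := by
      refine ⟨ker_mul hH _, fun i => ?_⟩
      refine ep_zero L (fun j => ?_) i
      show lsub (hI m) (tX m * H j) = 0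
      rw [map_mul, lsub_tX, zero_mul]
    refine AddSubgroup.subset_closure ⟨K, _, hMp, h6, ?_⟩
    exact wd_mul_right W hH hK _
  by_cases h7 : eval (hI m x) (W.wd K G) = 0
  · refine ⟨W.wd K G', key G' hG'.ker, fun h8 => ?_⟩
    have h9 := congrArg (eval (hI m x)) (W.three K G G' hK hG.ker hG'.ker i)
    rw [map_add, map_sub, map_mul, map_mul, map_mul, h7, h8, map_zero, zero_mul, zero_mul,
      sub_zero, add_zero] at h9
    exact (mul_ne_zero hp hKi) h9
  · exact ⟨W.wd K G, key G hG.ker, h7⟩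

/-- if the section does not vanish at some point of the line through `q` and the centre, it does
not vanish at `q`. -/
theorem ne_zero_of (hm : 1 ≤ m) (W : Wedge (triv E)) {q : Fin (m + 1) → ℂ} (hq : q ≠ 0) (z : ℂ)
    (hz : q + z • Pi.single k 1 ≠ 0) (hs : evv e.s (q + z • Pi.single k 1) ≠ 0) :
    evv e.s q ≠ 0 := by
  intro h0
  obtain ⟨u, hu, h1⟩ := e.exists_good W hz hs
  have h2 := phi_zero (hI m q) k.castSucc (JJ L W : Set (MvPolynomial (Fin (m + 1 + 1)) ℂ))
    (fun u hu => e.JJ_der hm W hu) (fun u hu => e.JJ_eval W hq h0 hu) u hu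
  apply h1
  have h3 : hI m (q + z • Pi.single k 1) = hI m q + z • Pi.single k.castSucc 1 := by
    rw [map_add, map_smul, cInc_single]
  rw [h3, ← phi_eval, h2, Polynomial.eval_zero]

end ED

end Pool.Agent.W615
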