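import Pool.Agent.W615.TwoBlocks

/-!
# Sections vanishing on a line, and derivations modulo a section (helper615)

Let `s` be a primitive section of a rank two bundle `E` such that the ideal `{s ∧ G}` is stable
under the derivative in the direction of the coordinate `k`.  If `s` vanishes on a line through
the coordinate point `k`, then `E` splits.
-/

set_option autoImplicit false
set_option maxHeartbeats 400000

open MvPolynomial H960VB H938TB

namespace Pool.Agent.W615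

section general
variable {n : ℕ} {w : Fin (n + 1) → ℤ × ℤ} {E : Bundle2 n} {D : EqB E w} (W : Wedge D)

theorem Prm.dvd_of_mul {a : ℕ} {s : Vec a n} (h : Prm s) {p q : MvPolynomial (Fin (n + 1)) ℂ}
    (hp : ∀ i, p ∣ q * s i) : p ∣ q := by
  by_cases hp0 : p = 0
  · obtain ⟨i, hi⟩ := h.ne
    have h1 := hp i
    rw [hp0, zero_dvd_iff] at h1
    rw [(mul_eq_zero.1 h1).resolve_right hi]
    exact dvd_zero _
  choose H hH using hp
  obtain ⟨f, hf⟩ := h.dvd (H := H) (by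
    intro i j
    apply mul_left_cancel₀ hp0
    linear_combination s j * hH i - s i * hH j)
  obtain ⟨i, hi⟩ := h.ne
  refine ⟨f, ?_⟩
  apply mul_right_cancel₀ hi
  rw [hH i, hf i]
  ring

/-- components of wedge products -/
theorem wd_vcomp {σ : M} {s : Vec E.a n} (hs : HSec D σ s) {G : Vec E.a n} (hG : Ker E G) (τ : M) :
    W.wd s (vcomp D τ G) = weightedHomogeneousComponent (tw w) (σ + τ + W.κ) (W.wd s G) := by
  apply wd_eq_of W hs.ker (vcomp_sec hG τ).ker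
  intro i j
  have e1 := whc_mul (q := G j) (hs.hom i) (((E.β j, D.b j) : M) + τ)
  have e2 := whc_mul (q := G i) (hs.hom j) (((E.β i, D.b i) : M) + τ)
  have e3 := whc_mul (q := W.wd s G) (P_hom W i j) (σ + τ + W.κ)
  have h2 := W.eq s G hs.ker hG i j
  rw [mul_comm, ← h2, map_sub] at e3
  rw [show ((E.β i, D.b i) + σ + ((E.β j, D.b j) + τ) : M) =
    ((E.β i, D.b i) : M) + (E.β j, D.b j) - W.κ + (σ + τ + W.κ) by abel] at e1
  rw [show ((E.β j, D.b j) + σ + ((E.β i, D.b i) + τ) : M) =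
    ((E.β i, D.b i) : M) + (E.β j, D.b j) - W.κ + (σ + τ + W.κ) by abel] at e2
  rw [e1, e2, mul_comm (W.P i j)] at e3
  exact e3

end general

variable {n : ℕ} {E : Bundle2 n} {D : EqB E 0} (W : Wedge D)

section
variable {σ : M} {s : Vec E.a n} (hs : HSec D σ s) (hsp : Prm s) {k : Fin (n + 1)}
  {T : (Fin (1 + 1) → ℂ) →ₗ[ℂ] (Fin (n + 1) → ℂ)} (hT : Function.Injective T)
  (hTd : ∀ p : MvPolynomial (Fin (n + 1)) ℂ, lsub T (pderiv k p) = pderiv 1 (lsub T p))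
  (hline : ∀ i, lsub T (s i) = 0)

include hs hT hline in
/-- wedge products with `s` vanish on the line -/
theorem wd_line {G : Vec E.a n} (hG : Ker E G) : lsub T (W.wd s G) = 0 := by
  obtain ⟨i, j, hij⟩ := W.P_ne (T (fun _ => 1)) (fun h => by
    have := hT (h.trans (map_zero _).symm)
    simpa using congrFun this 0)
  have h3 : lsub T (W.P i j) ≠ 0 := by
    intro h0
    apply hij
    rw [← eval_lsub, h0, map_zero]
  have h4 := congrArg (lsub T) (W.eq s G hs.ker hG i j)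
  rw [map_sub, map_mul, map_mul, map_mul, hline, hline, zero_mul, zero_mul, sub_zero] at h4
  exact (mul_eq_zero.1 h4.symm).resolve_right h3

/-- a section with a derivative modulo `s`. -/
def DP (W : Wedge D) (s : Vec E.a n) (k : Fin (n + 1)) (G G' : Vec E.a n) : Prop :=
  Ker E G ∧ Ker E G' ∧ W.wd s G' = pderiv k (W.wd s G)

/-- the defect of the product rule. -/
noncomputable def TT (W : Wedge D) (k : Fin (n + 1)) (G₁ G₁' G₂ G₂' : Vec E.a n) :
    MvPolynomial (Fin (n + 1)) ℂ :=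
  W.wd G₁' G₂ + W.wd G₁ G₂' - pderiv k (W.wd G₁ G₂)

include hs hsp hT hline in
theorem sub_claim {G₁ G₁' G₂ G₂' G₃ G₃' : Vec E.a n} (d1 : DP W s k G₁ G₁') (d2 : DP W s k G₂ G₂')
    (d3 : DP W s k G₃ G₃') (h0 : lsub T (W.wd G₁ G₂) ≠ 0) :
    lsub T (W.wd G₁ G₂) * lsub T (TT W k G₂ G₂' G₃ G₃') =
      lsub T (W.wd G₂ G₃) * lsub T (TT W k G₁ G₁' G₂ G₂') ∧
    lsub T (W.wd G₁ G₂) * lsub T (TT W k G₁ G₁' G₃ G₃') =
      lsub T (W.wd G₁ G₃) * lsub T (TT W k G₁ G₁' G₂ G₂') := by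
  obtain ⟨k1, k1', e1⟩ := d1
  obtain ⟨k2, k2', e2⟩ := d2
  obtain ⟨k3, k3', e3⟩ := d3
  have f0 := W.four s G₁ G₂ G₃ hs.ker k1 k2 k3
  have f1 := W.four s G₁' G₂ G₃ hs.ker k1' k2 k3
  have f2 := W.four s G₁ G₂' G₃ hs.ker k1 k2' k3
  have f3 := W.four s G₁ G₂ G₃' hs.ker k1 k2 k3'
  have fd := congrArg (pderiv k) f0
  simp only [map_add, map_sub, Derivation.leibniz, smul_eq_mul, map_zero] at fd
  rw [e1] at f1
  rw [e2] at f2
  rw [e3] at f3
  have star : W.wd s G₁ * TT W k G₂ G₂' G₃ G₃' - W.wd s G₂ * TT W k G₁ G₁' G₃ G₃' +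
      W.wd s G₃ * TT W k G₁ G₁' G₂ G₂' = 0 := by
    unfold TT
    linear_combination f1 + f2 + f3 - fd
  set A := W.wd G₁ G₂ * TT W k G₂ G₂' G₃ G₃' - W.wd G₂ G₃ * TT W k G₁ G₁' G₂ G₂' with hA
  set B := W.wd G₁ G₂ * TT W k G₁ G₁' G₃ G₃' - W.wd G₁ G₃ * TT W k G₁ G₁' G₂ G₂' with hB
  have hAB : W.wd s G₁ * A = W.wd s G₂ * B := by
    rw [hA, hB]
    linear_combination W.wd G₁ G₂ * star - TT W k G₁ G₁' G₂ G₂' * f0
  have t : ∀ i, W.wd G₁ G₂ * s i - W.wd s G₂ * G₁ i + W.wd s G₁ * G₂ i = 0 :=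
    fun i => W.three s G₁ G₂ hs.ker k1 k2 i
  have dA : W.wd s G₂ ∣ W.wd G₁ G₂ * A := by
    apply hsp.dvd_of_mul
    intro i
    refine ⟨G₁ i * A - G₂ i * B, ?_⟩
    linear_combination A * t i - G₂ i * hAB
  have dB : W.wd s G₁ ∣ W.wd G₁ G₂ * B := by
    apply hsp.dvd_of_mul
    intro i
    refine ⟨G₁ i * A - G₂ i * B, ?_⟩
    linear_combination B * t i - G₁ i * hAB
  constructor
  · obtain ⟨q, hq⟩ := dA
    have h1 := congrArg (lsub T) hq
    rw [map_mul, map_mul, wd_line W hs hT hline k2, zero_mul] at h1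
    have h2 := (mul_eq_zero.1 h1).resolve_left h0
    rw [hA, map_sub, map_mul, map_mul] at h2
    exact sub_eq_zero.1 h2
  · obtain ⟨q, hq⟩ := dB
    have h1 := congrArg (lsub T) hq
    rw [map_mul, map_mul, wd_line W hs hT hline k1, zero_mul] at h1
    have h2 := (mul_eq_zero.1 h1).resolve_left h0
    rw [hB, map_sub, map_mul, map_mul] at h2
    exact sub_eq_zero.1 h2

include hs hsp hT hline in
theorem main_claim {G₁ G₁' G₂ G₂' H₁ H₁' H₂ H₂' : Vec E.a n} (d1 : DP W s k G₁ G₁')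
    (d2 : DP W s k G₂ G₂') (c1 : DP W s k H₁ H₁') (c2 : DP W s k H₂ H₂')
    (h0 : lsub T (W.wd G₁ G₂) ≠ 0) (h1 : lsub T (W.wd H₁ H₂) ≠ 0) :
    lsub T (W.wd G₁ G₂) * lsub T (TT W k H₁ H₁' H₂ H₂') =
      lsub T (W.wd H₁ H₂) * lsub T (TT W k G₁ G₁' G₂ G₂') := by
  by_cases g1 : lsub T (W.wd G₁ H₁) = 0
  · by_cases g2 : lsub T (W.wd G₂ H₁) = 0
    · exfalso
      have f := congrArg (lsub T) (W.four G₁ G₂ H₁ H₂ d1.1 d2.1 c1.1 c2.1)
      simp only [map_add, map_sub, map_mul, g1, g2, zero_mul, mul_zero, sub_zero, add_zero,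
        map_zero] at f
      exact (mul_ne_zero h0 h1) f
    · have p1 := (sub_claim W hs hsp hT hline d1 d2 c1 h0).1
      have p2 := (sub_claim W hs hsp hT hline d2 c1 c2 g2).1
      apply mul_left_cancel₀ g2
      linear_combination lsub T (W.wd G₁ G₂) * p2 + lsub T (W.wd H₁ H₂) * p1
  · have p1 := (sub_claim W hs hsp hT hline d1 d2 c1 h0).2
    have p2 := (sub_claim W hs hsp hT hline d1 c1 c2 g1).1
    apply mul_left_cancel₀ g1
    linear_combination lsub T (W.wd G₁ G₂) * p2 + lsub T (W.wd H₁ H₂) * p1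

variable (hder : ∀ G, Ker E G → ∃ G', Ker E G' ∧ W.wd s G' = pderiv k (W.wd s G))

include hs hsp hT hline hder in
/-- the product rule holds on the line. -/
theorem TT_zero {τ₁ τ₂ : M} {G₁ G₁' G₂ G₂' : Vec E.a n} (h1 : HSec D τ₁ G₁) (h2 : HSec D τ₂ G₂)
    (h1' : HSec D (τ₁ - tw 0 k) G₁') (h2' : HSec D (τ₂ - tw 0 k) G₂')
    (e1 : W.wd s G₁' = pderiv k (W.wd s G₁)) (e2 : W.wd s G₂' = pderiv k (W.wd s G₂))
    (h0 : lsub T (W.wd G₁ G₂) ≠ 0) : lsub T (TT W k G₁ G₁' G₂ G₂') = 0 := by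
  classical
  set f₁ := lsub T (W.wd G₁ G₂) with hf₁
  set t := lsub T (TT W k G₁ G₁' G₂ G₂') with ht
  have d1 : DP W s k G₁ G₁' := ⟨h1.ker, h1'.ker, e1⟩
  have d2 : DP W s k G₂ G₂' := ⟨h2.ker, h2'.ker, e2⟩
  let A : Ideal (MvPolynomial (Fin (1 + 1)) ℂ) :=
    { carrier := {f | f₁ ∣ f * t}
      add_mem' := by
        intro f g hf hg
        show f₁ ∣ (f + g) * t
        rw [add_mul]
        exact dvd_add hf hg
      zero_mem' := by
        show f₁ ∣ 0 * t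
        rw [zero_mul]
        exact dvd_zero _
      smul_mem' := by
        intro g f hf
        show f₁ ∣ (g * f) * t
        rw [mul_assoc]
        exact Dvd.dvd.mul_left hf g }
  have hmem : ∀ f, f ∈ A ↔ f₁ ∣ f * t := fun f => Iff.rfl
  have hzero : ∀ x : Fin (1 + 1) → ℂ, x ∈ zeroLocus ℂ A → x = 0 := by
    intro x hx
    by_contra hx0
    have hTx : T x ≠ 0 := fun h => hx0 (hT (h.trans (map_zero _).symm))
    obtain ⟨τ, τ', H₁, H₂, hH₁, hH₂, hp⟩ := exists_ne W (D := D) (T x) hTx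
    obtain ⟨H₁', k1, c1⟩ := hder H₁ hH₁.ker
    obtain ⟨H₂', k2, c2⟩ := hder H₂ hH₂.ker
    rw [← eval_lsub] at hp
    have h3 : lsub T (W.wd H₁ H₂) ≠ 0 := fun h => hp (by rw [h, map_zero])
    have h4 := main_claim W hs hsp hT hline d1 d2 ⟨hH₁.ker, k1, c1⟩ ⟨hH₂.ker, k2, c2⟩ h0 h3
    have h5 : lsub T (W.wd H₁ H₂) ∈ A := (hmem _).2 ⟨_, h4.symm⟩
    have h6 := (mem_zeroLocus_iff.1 hx) _ h5
    apply hp
    simpa [MvPolynomial.aeval_eq_eval] using h6
  have hrad : ∀ i : Fin (1 + 1), ∃ N : ℕ, X i ^ N ∈ A := by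
    intro i
    have h1 : (X i : MvPolynomial (Fin (1 + 1)) ℂ) ∈ A.radical := by
      rw [← vanishingIdeal_zeroLocus_eq_radical (K := ℂ) A, mem_vanishingIdeal_iff]
      intro x hx
      rw [hzero x hx]
      simp
    exact h1
  obtain ⟨N, hN⟩ := hrad 0
  obtain ⟨N', hN'⟩ := hrad 1
  obtain ⟨a, ha⟩ := (hmem _).1 hN
  obtain ⟨b, hb⟩ := (hmem _).1 hN'
  have h3 : X 1 ^ N' * a = X 0 ^ N * b := by
    apply mul_left_cancel₀ h0
    linear_combination (-(X 1 ^ N')) * ha + X 0 ^ N * hb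
  have h4 : (X 0 : MvPolynomial (Fin (1 + 1)) ℂ) ^ N ∣ a := by
    refine Prime.pow_dvd_of_dvd_mul_left (X_prime (i := (0 : Fin (1 + 1))) (R := ℂ)) N
      (a := X 1 ^ N') ?_ ⟨_, h3⟩
    intro h5
    have h6 := (X_prime (i := (0 : Fin (1 + 1))) (R := ℂ)).dvd_of_dvd_pow h5
    rw [X_dvd_X] at h6
    exact absurd h6 (by decide)
  obtain ⟨a', ha'⟩ := h4
  have hX : (X 0 : MvPolynomial (Fin (1 + 1)) ℂ) ^ N ≠ 0 := pow_ne_zero _ (X_ne_zero _)
  have h5 : f₁ * a' = t := by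
    apply mul_left_cancel₀ hX
    rw [ha, ha']
    ring
  by_contra ht0
  have hw : ∀ (t' : Fin (1 + 1)) (s' : Fin (n + 1)), T (Pi.single t' 1) s' ≠ 0 →
      (0 : Fin (n + 1) → ℤ × ℤ) s' = (0 : Fin (1 + 1) → ℤ × ℤ) t' := fun _ _ _ => rfl
  have g1 : IsWeightedHomogeneous (tw (0 : Fin (1 + 1) → ℤ × ℤ)) f₁ (τ₁ + τ₂ + W.κ) :=
    isWH_lsub T hw (W.hom _ _ _ _ h1 h2)
  have g2 : IsWeightedHomogeneous (tw (0 : Fin (1 + 1) → ℤ × ℤ)) t
      (τ₁ + τ₂ + W.κ - tw (0 : Fin (n + 1) → ℤ × ℤ) k) := by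
    refine isWH_lsub T hw ?_
    unfold TT
    refine IsWeightedHomogeneous.sub (IsWeightedHomogeneous.add ?_ ?_) ?_
    · have g3 := W.hom _ _ _ _ h1' h2
      have e : τ₁ - tw (0 : Fin (n + 1) → ℤ × ℤ) k + τ₂ + W.κ =
        τ₁ + τ₂ + W.κ - tw (0 : Fin (n + 1) → ℤ × ℤ) k := by abel
      rw [e] at g3
      exact g3
    · have g3 := W.hom _ _ _ _ h1 h2'
      have e : τ₁ + (τ₂ - tw (0 : Fin (n + 1) → ℤ × ℤ) k) + W.κ =
        τ₁ + τ₂ + W.κ - tw (0 : Fin (n + 1) → ℤ × ℤ) k := by abel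
      rw [e] at g3
      exact g3
    · exact (W.hom _ _ _ _ h1 h2).pderiv (by abel)
  rw [← h5] at g2 ht0
  obtain ⟨e, e', hee, he, he'⟩ := hom_of_mul _ g2 ht0
  have g3 : e = τ₁ + τ₂ + W.κ := he.inj_right h0 g1
  have g4 : e' = - tw (0 : Fin (n + 1) → ℤ × ℤ) k := by
    have : e' = e + e' - e := by abel
    rw [this, hee, g3]
    abel
  have g5 := degree_nonneg he' (right_ne_zero_of_mul ht0)
  rw [g4] at g5
  have g6 : (- tw (0 : Fin (n + 1) → ℤ × ℤ) k : M).1 = -1 := rfl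
  rw [g6] at g5
  norm_num at g5

include hs hsp hT hline hder in
/-- **Descent along the line.** -/
theorem splits_of_line (hTk : T (Pi.single 1 1) = Pi.single k 1) : E.Splits := by
  have hder' : ∀ τ G, HSec D τ G → ∃ G', HSec D (τ - tw 0 k) G' ∧
      W.wd s G' = pderiv k (W.wd s G) := by
    intro τ G hG
    obtain ⟨G', k', e'⟩ := hder G hG.ker
    refine ⟨vcomp D (τ - tw 0 k) G', vcomp_sec k' _, ?_⟩
    rw [wd_vcomp W hs k', e']
    apply weightedHomogeneousComponent_eq_self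
    exact (W.hom _ _ _ _ hs hG).pderiv (by abel)
  have key : ∀ (m : ℕ) (τ τ' : M) (G G' : Vec E.a n), HSec D τ G → HSec D τ' G' →
      eval (Pi.single k 1 : Fin (n + 1) → ℂ) (W.wd G G') ≠ 0 → (τ + τ' + W.κ).1 = m →
      E.Splits := by
    intro m
    induction m with
    | zero =>
      intro τ τ' G G' hG hG' h hm
      obtain ⟨c, hc, h1⟩ := const_of_degree_zero (W.hom _ _ _ _ hG hG')
        (fun h0 => h (by rw [h0, map_zero])) (by simpa using hm)
      exact splits_of_const W hG hG' c hc h1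
    | succ m ih =>
      intro τ τ' G G' hG hG' h hm
      have h1 : (W.wd G G').IsHomogeneous (m + 1) := by
        rcases homZ_of (W.hom _ _ _ _ hG hG') with h2 | ⟨l, hl, h2⟩
        · rw [h2]
          exact isHomogeneous_zero _ _ _
        · rw [hm] at hl
          have h3 : l = m + 1 := by exact_mod_cast hl
          rwa [h3] at h2
      have h2 := euler_at h1 h
      obtain ⟨G₁, hG₁, e₁⟩ := hder' _ _ hG
      obtain ⟨G₁', hG₁', e₁'⟩ := hder' _ _ hG'
      have h3 : (tw (0 : Fin (n + 1) → ℤ × ℤ) k).1 = 1 := rfl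
      have h5 : lsub T (W.wd G G') ≠ 0 := by
        intro h6
        apply h
        rw [← hTk, ← eval_lsub, h6, map_zero]
      have h6 := TT_zero W hs hsp hT hline hder hG hG' hG₁ hG₁' e₁ e₁' h5
      have h7 := congrArg (eval (Pi.single 1 1 : Fin (1 + 1) → ℂ)) h6
      rw [eval_lsub, hTk, map_zero] at h7
      unfold TT at h7
      rw [map_sub, map_add, sub_eq_zero] at h7
      rw [← h7] at h2
      by_cases h4 : eval (Pi.single k 1 : Fin (n + 1) → ℂ) (W.wd G₁ G') = 0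
      · rw [h4, zero_add] at h2
        refine ih _ _ _ _ hG hG₁' h2 ?_
        rw [Prod.fst_add, Prod.fst_add] at hm ⊢
        rw [Prod.fst_sub, h3]
        push_cast at hm ⊢
        linarith
      · refine ih _ _ _ _ hG₁ hG' h4 ?_
        rw [Prod.fst_add, Prod.fst_add] at hm ⊢
        rw [Prod.fst_sub, h3]
        push_cast at hm ⊢
        linarith
  obtain ⟨τ, τ', G, G', hG, hG', hp⟩ := exists_ne W (D := D) (Pi.single k 1)
    (fun h => by simpa using congrFun h k)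
  have h0 : 0 ≤ (τ + τ' + W.κ).1 := degree_nonneg (W.hom _ _ _ _ hG hG')
    (fun h0 => hp (by rw [h0, map_zero]))
  obtain ⟨m, hm⟩ := Int.eq_ofNat_of_zero_le h0
  exact key m _ _ _ _ hG hG' hp hm

end

end Pool.Agent.W615
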