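import Pool.Agent.W615.Elation4

/-!
# Bundles with an elation on `P^n`, `n ≥ 4` (helper615)
-/

set_option autoImplicit false
set_option maxHeartbeats 400000

open MvPolynomial H960VB H938TB

namespace Pool.Agent.W615

section general
variable {n : ℕ} {w : Fin (n + 1) → ℤ × ℤ} {E : Bundle2 n} {D : EqB E w} (W : Wedge D)

/-- the module of wedge products with a primitive section is saturated. -/
theorem saturate {s : Vec E.a n} (hs : Ker E s) (hp : Prm s) {i₀ i₁ i₂ : Fin (n + 1)}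
    (h01 : i₀ ≠ i₁) (h02 : i₀ ≠ i₂) (h12 : i₁ ≠ i₂) {p : MvPolynomial (Fin (n + 1)) ℂ} (N : ℕ)
    {H0 H1 H2 : Vec E.a n} (hH0 : Ker E H0) (hH1 : Ker E H1) (hH2 : Ker E H2)
    (w0 : W.wd s H0 = X i₀ ^ N * p) (w1 : W.wd s H1 = X i₁ ^ N * p)
    (w2 : W.wd s H2 = X i₂ ^ N * p) : ∃ G, Ker E G ∧ W.wd s G = p := by
  have key : ∀ (p q : MvPolynomial (Fin (n + 1)) ℂ) (H K : Vec E.a n), Ker E H → Ker E K →
      p * W.wd s H = q * W.wd s K → ∃ f, ∀ i, p * H i - q * K i = f * s i := by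
    intro p q H K hH hK h
    apply hp.dvd_wd W hs (ker_sub (ker_mul hH p) (ker_mul hK q))
    rw [wd_sub_right W (ker_mul hH p) (ker_mul hK q) hs, wd_mul_right W hH hs,
      wd_mul_right W hK hs, h, sub_self]
  obtain ⟨f01, h01'⟩ := key (X i₁ ^ N) (X i₀ ^ N) H0 H1 hH0 hH1 (by rw [w0, w1]; ring)
  obtain ⟨f12, h12'⟩ := key (X i₂ ^ N) (X i₁ ^ N) H1 H2 hH1 hH2 (by rw [w1, w2]; ring)
  obtain ⟨f20, h20'⟩ := key (X i₀ ^ N) (X i₂ ^ N) H2 H0 hH2 hH0 (by rw [w0, w2]; ring)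
  obtain ⟨i0, hi0⟩ := hp.ne
  have hrel : X i₂ ^ N * f01 = X i₁ ^ N * (-f20) - X i₀ ^ N * f12 := by
    apply mul_right_cancel₀ hi0
    linear_combination (-X i₂ ^ N) * h01' i0 - X i₀ ^ N * h12' i0 - X i₁ ^ N * h20' i0
  obtain ⟨b₀, b₁, hb⟩ := H1_mono i₀ i₁ i₂ h02 h12 N f01 (-f20) f12 hrel
  have h3 : ∀ i, X i₁ ^ N * (H0 i - b₀ * s i) = X i₀ ^ N * (H1 i - b₁ * s i) := by
    intro i
    linear_combination h01' i + s i * hb
  have h4 : ∀ i, (X i₀ : MvPolynomial (Fin (n + 1)) ℂ) ^ N ∣ H0 i - b₀ * s i := by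
    intro i
    refine Prime.pow_dvd_of_dvd_mul_left (X_prime (i := i₀) (R := ℂ)) N
      (a := X i₁ ^ N) ?_ ⟨_, h3 i⟩
    intro h5
    have h6 := (X_prime (i := i₀) (R := ℂ)).dvd_of_dvd_pow h5
    rw [X_dvd_X] at h6
    exact h01 h6
  choose G hG using h4
  have hX : (X i₀ : MvPolynomial (Fin (n + 1)) ℂ) ^ N ≠ 0 := pow_ne_zero _ (X_ne_zero _)
  have hK : Ker E (fun i => H0 i - b₀ * s i) := ker_sub hH0 (ker_mul hs b₀)
  have hGk : Ker E G := by
    apply ker_of_mul hX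
    have h5 : (fun i => X i₀ ^ N * G i) = fun i => H0 i - b₀ * s i := funext fun i => (hG i).symm
    rw [h5]
    exact hK
  refine ⟨G, hGk, ?_⟩
  apply mul_left_cancel₀ hX
  have h6 := wd_of_mul_right W hGk hs (K := s) hG
  rw [← h6, wd_sub_right W hH0 (ker_mul hs b₀) hs, wd_mul_right W hs hs,
    wd_self W hs, w0]
  ring

/-- saturation: a local criterion for being a wedge product with `s`. -/
theorem saturate' (hn : 2 ≤ n) {s : Vec E.a n} (hs : Ker E s) (hp : Prm s)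
    {p : MvPolynomial (Fin (n + 1)) ℂ}
    (h : ∀ x : Fin (n + 1) → ℂ, x ≠ 0 → ∃ (f : MvPolynomial (Fin (n + 1)) ℂ) (H : Vec E.a n),
      Ker E H ∧ W.wd s H = f * p ∧ eval x f ≠ 0) : ∃ G, Ker E G ∧ W.wd s G = p := by
  classical
  let A : Ideal (MvPolynomial (Fin (n + 1)) ℂ) :=
    { carrier := {f | ∃ H : Vec E.a n, Ker E H ∧ W.wd s H = f * p}
      add_mem' := by
        rintro f g ⟨u, hu, hu'⟩ ⟨v, hv, hv'⟩
        exact ⟨fun i => u i + v i, ker_add hu hv, by
          rw [wd_add_right W hu hv hs, hu', hv', add_mul]⟩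
      zero_mem' := ⟨fun _ => 0, ker_zero, by
        rw [wd_zero_right W hs ker_zero (fun _ => rfl), zero_mul]⟩
      smul_mem' := by
        rintro g f ⟨u, hu, hu'⟩
        exact ⟨fun i => g * u i, ker_mul hu g, by
          rw [wd_mul_right W hu hs g, hu', smul_eq_mul, mul_assoc]⟩ }
  have hmem : ∀ f, f ∈ A ↔ ∃ H : Vec E.a n, Ker E H ∧ W.wd s H = f * p := fun f => Iff.rfl
  have hzero : ∀ x : Fin (n + 1) → ℂ, x ∈ zeroLocus ℂ A → x = 0 := by
    intro x hx
    by_contra hx0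
    obtain ⟨f, H, kH, hH, hf⟩ := h x hx0
    have h7 := (mem_zeroLocus_iff.1 hx) _ ((hmem f).2 ⟨H, kH, hH⟩)
    rw [MvPolynomial.aeval_eq_eval] at h7
    exact hf h7
  have hrad : ∀ i : Fin (n + 1), ∃ N : ℕ, X i ^ N ∈ A := by
    intro i
    have h1 : (X i : MvPolynomial (Fin (n + 1)) ℂ) ∈ A.radical := by
      rw [← vanishingIdeal_zeroLocus_eq_radical (K := ℂ) A, mem_vanishingIdeal_iff]
      intro x hx
      rw [hzero x hx]
      simp
    exact h1
  choose Nf hNf using hrad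
  have hall : ∀ i, ∃ H : Vec E.a n, Ker E H ∧ W.wd s H = X i ^ (∑ i, Nf i) * p := fun i =>
    (hmem _).1 (A.pow_mem_of_pow_mem (hNf i) (Finset.single_le_sum (f := Nf)
      (fun _ _ => Nat.zero_le _) (Finset.mem_univ i)))
  obtain ⟨H0, k0, w0⟩ := hall ⟨0, by omega⟩
  obtain ⟨H1, k1, w1⟩ := hall ⟨1, by omega⟩
  obtain ⟨H2, k2, w2⟩ := hall ⟨2, by omega⟩
  exact saturate W hs hp (by simp [Fin.ext_iff]) (by simp [Fin.ext_iff])
    (by simp [Fin.ext_iff]) _ k0 k1 k2 w0 w1 w2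

/-- scaling -/
theorem eval_smul_of {p : MvPolynomial (Fin (n + 1)) ℂ} {τ : M}
    (hp : IsWeightedHomogeneous (tw w) p τ) (c : ℂ) (x : Fin (n + 1) → ℂ)
    (h : eval x p = 0) : eval (c • x) p = 0 := by
  by_cases h0 : p = 0
  · rw [h0, map_zero]
  obtain ⟨d, hd⟩ := Int.eq_ofNat_of_zero_le (degree_nonneg hp h0)
  have h1 : eval (c • x) p = c ^ d * eval x p := by
    rw [eval_eq', eval_eq', Finset.mul_sum]
    refine Finset.sum_congr rfl fun u hu => ?_
    have h2 := congrArg Prod.fst (hp (mem_support_iff.1 hu))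
    rw [weight_fst, hd] at h2
    have h3 : ∑ i, u i = d := by exact_mod_cast h2
    have h4 : ∏ i, (c • x) i ^ u i = c ^ d * ∏ i, x i ^ u i := by
      rw [← h3, ← Finset.prod_pow_eq_pow_sum, ← Finset.prod_mul_distrib]
      exact Finset.prod_congr rfl fun i _ => by rw [Pi.smul_apply, smul_eq_mul, mul_pow]
    rw [h4]
    ring
  rw [h1, h, mul_zero]

end general

variable {m : ℕ} {E : Bundle2 (m + 1)} {k : Fin (m + 1)}

/-- the wedge product on the hyperplane and in the space. -/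
theorem res_wd (hm : 1 ≤ m) (W : Wedge (triv E)) (W' : Wedge (resD E)) : ∃ c : ℂ, c ≠ 0 ∧
    ∀ G G', Ker E G → Ker E G' →
      lsub (hI m) (W.wd G G') = C c * W'.wd (rv G) (rv G') := by
  have h1ne : (fun _ => 1 : Fin (m + 1) → ℂ) ≠ 0 := fun h => by simpa using congrFun h 0
  let e : Fin (E.a * E.a) ≃ Fin E.a × Fin E.a := finProdFinEquiv.symm
  let v : Vec (E.a * E.a) m := fun t => W'.P (e t).1 (e t).2
  let u : Vec (E.a * E.a) m := fun t => lsub (hI m) (W.P (e t).1 (e t).2)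
  have hv : Prm v := by
    apply prm_of_no_zero hm
    intro x hx h0
    obtain ⟨i, j, hij⟩ := W'.P_ne x hx
    apply hij
    have h2 : eval x (W'.P (e (e.symm (i, j))).1 (e (e.symm (i, j))).2) = 0 :=
      congrFun h0 (e.symm (i, j))
    rwa [Equiv.apply_symm_apply] at h2
  have hu : Prm u := by
    apply prm_of_no_zero hm
    intro x hx h0
    obtain ⟨i, j, hij⟩ := W.P_ne (hI m x) (fun h => hx (hI_inj m (h.trans (map_zero _).symm)))
    apply hij
    have h2 : eval x (lsub (hI m) (W.P (e (e.symm (i, j))).1 (e (e.symm (i, j))).2)) = 0 :=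
      congrFun h0 (e.symm (i, j))
    rwa [Equiv.apply_symm_apply, eval_lsub] at h2
  have hrel : ∀ G G', Ker E G → Ker E G' → ∀ i j,
      lsub (hI m) (W.wd G G') * lsub (hI m) (W.P i j) = W'.wd (rv G) (rv G') * W'.P i j := by
    intro G G' hG hG' i j
    have h2 := congrArg (lsub (hI m)) (W.eq G G' hG hG' i j)
    have h3 := W'.eq (rv G) (rv G') (rv_ker hG) (rv_ker hG') i j
    rw [← h3, ← map_mul, ← h2, map_sub, map_mul, map_mul]
    rfl
  obtain ⟨τ, τ', G, G', hG, hG', hp⟩ := exists_ne W (D := triv E) (hI m (fun _ => 1))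
    (fun h => h1ne (hI_inj m (h.trans (map_zero _).symm)))
  have hA : lsub (hI m) (W.wd G G') ≠ 0 := by
    intro h
    apply hp
    rw [← eval_lsub, h, map_zero]
  have hpar : ∀ i j, v i * u j = v j * u i := by
    intro i j
    apply mul_left_cancel₀ hA
    have h2 := hrel G G' hG.ker hG'.ker (e i).1 (e i).2
    have h3 := hrel G G' hG.ker hG'.ker (e j).1 (e j).2
    show lsub (hI m) (W.wd G G') * (W'.P (e i).1 (e i).2 * lsub (hI m) (W.P (e j).1 (e j).2)) =
      lsub (hI m) (W.wd G G') * (W'.P (e j).1 (e j).2 * lsub (hI m) (W.P (e i).1 (e i).2))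
    linear_combination W'.P (e i).1 (e i).2 * h3 - W'.P (e j).1 (e j).2 * h2
  obtain ⟨f, hf⟩ := hv.dvd hpar
  have hfu : IsUnit f := hu f fun i => ⟨v i, hf i⟩
  obtain ⟨c, hc, rfl⟩ := isUnit_iff_eq_C_of_isReduced.1 hfu
  have hc0 : c ≠ 0 := hc.ne_zero
  refine ⟨c⁻¹, inv_ne_zero hc0, fun G G' hG hG' => ?_⟩
  obtain ⟨i, j, hij⟩ := exists_P_ne W'
  apply mul_right_cancel₀ hij
  have h2 := hrel G G' hG hG' i j
  have h3 := hf (e.symm (i, j))
  simp only [u, v, Equiv.apply_symm_apply] at h3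
  rw [h3] at h2
  have h4 : (C c⁻¹ * C c : MvPolynomial (Fin (m + 1)) ℂ) = 1 := by
    rw [← C_mul, inv_mul_cancel₀ hc0, C_1]
  linear_combination C c⁻¹ * h2 - lsub (hI m) (W.wd G G') * W'.P i j * h4

namespace ED

variable {L : Lft (triv E) 0 (elat k)} {W' : Wedge (resD E)} (e : ED L W')

include e

omit e in
theorem Mp_tX {H : Vec E.a (m + 1)} (hH : Ker E H) : Mp L (fun i => tX m * H i) := by
  refine ⟨ker_mul hH _, fun i => ?_⟩
  refine ep_zero L (fun j => ?_) i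
  show lsub (hI m) (tX m * H j) = 0
  rw [map_mul, lsub_tX, zero_mul]

/-- the restrictions of the elements of `JJ` are wedge products with `s`. -/
theorem JJ_img (hm : 1 ≤ m) (W : Wedge (triv E)) {u : MvPolynomial (Fin (m + 1 + 1)) ℂ}
    (hu : u ∈ JJ L W) : ∃ H, Ker (resE E) H ∧ W'.wd e.s H = lsub (hI m) u := by
  obtain ⟨c, hc, hcw⟩ := res_wd hm W W'
  unfold JJ at hu
  induction hu using AddSubgroup.closure_induction with
  | mem u hu =>
    obtain ⟨g, g', hg, hg', hw⟩ := hu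
    obtain ⟨f, hf⟩ := e.kerA (rv_ker hg.1) hg.2
    obtain ⟨f', hf'⟩ := e.kerA (rv_ker hg'.1) hg'.2
    by_cases hf0 : f = 0
    · -- `g` is divisible by the last coordinate
      obtain ⟨g₁, k₁, h₁⟩ := exists_div hg.1 (fun i => by rw [hf i, hf0, zero_mul])
      have h2 : W.wd g₁ g' = u := by
        apply mul_left_cancel₀ (tX_ne m)
        rw [← hw, wd_of_mul_left W k₁ hg'.1 h₁]
      have kr : Ker (resE E) (rv (a := E.a) g₁) := rv_ker k₁
      have a1 : W'.wd (rv g₁) (rv g') = f' * W'.wd (rv g₁) e.s :=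
        wd_of_mul_right W' e.hs.ker kr hf'
      have a2 : W'.wd (rv g₁) e.s = - W'.wd e.s (rv g₁) := W'.anti (rv g₁) e.s kr e.hs.ker
      have a3 : W'.wd e.s (fun i => (-(C c * f')) * rv g₁ i) =
        (-(C c * f')) * W'.wd e.s (rv g₁) := wd_mul_right W' kr e.hs.ker _
      refine ⟨fun i => (-(C c * f')) * rv g₁ i, ker_mul kr _, ?_⟩
      rw [← h2, hcw _ _ k₁ hg'.1, a1, a2]
      refine a3.trans ?_
      ring
    · let K : Vec E.a (m + 1) := fun i => rename Fin.castSucc f * g' i -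
        rename Fin.castSucc f' * g i
      have hK : Ker E K := ker_sub (ker_mul hg'.1 _) (ker_mul hg.1 _)
      have hK0 : ∀ i, rv K i = 0 := by
        intro i
        show lsub (hI m) (rename Fin.castSucc f * g' i - rename Fin.castSucc f' * g i) = 0
        rw [map_sub, map_mul, map_mul, lsub_rename, lsub_rename]
        have h2 : lsub (hI m) (g i) = f * e.s i := hf i
        have h3 : lsub (hI m) (g' i) = f' * e.s i := hf' i
        rw [h2, h3]
        ring
      obtain ⟨G, kG, hG⟩ := exists_div hK hK0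
      have h2 : W.wd g G = rename Fin.castSucc f * u := by
        apply mul_left_cancel₀ (tX_ne m)
        rw [← wd_of_mul_right W kG hg.1 hG]
        show W.wd g (fun i => rename Fin.castSucc f * g' i - rename Fin.castSucc f' * g i) = _
        rw [wd_sub_right W (ker_mul hg'.1 _) (ker_mul hg.1 _) hg.1, wd_mul_right W hg'.1 hg.1,
          wd_mul_right W hg.1 hg.1, wd_self W hg.1, hw]
        ring
      have kr : Ker (resE E) (rv (a := E.a) G) := rv_ker kG
      have a1 : W'.wd (rv g) (rv G) = f * W'.wd e.s (rv G) :=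
        wd_of_mul_left W' e.hs.ker kr hf
      have a2 : W'.wd e.s (fun i => C c * rv G i) = C c * W'.wd e.s (rv G) :=
        wd_mul_right W' kr e.hs.ker _
      refine ⟨fun i => C c * rv G i, ker_mul kr _, ?_⟩
      apply mul_left_cancel₀ hf0
      have h3 := congrArg (lsub (hI m)) h2
      rw [hcw _ _ hg.1 kG, a1, map_mul, lsub_rename] at h3
      rw [← h3]
      refine (congrArg (f * ·) a2).trans ?_
      ring
  | zero => exact ⟨fun _ => 0, ker_zero, by
      rw [wd_zero_right W' e.hs.ker ker_zero (fun _ => rfl), map_zero]⟩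
  | add x y _ _ hx hy =>
    obtain ⟨H, kH, hH⟩ := hx
    obtain ⟨H', kH', hH'⟩ := hy
    exact ⟨fun i => H i + H' i, ker_add kH kH', by
      rw [wd_add_right W' kH kH' e.hs.ker, hH, hH', map_add]⟩
  | neg x _ hx =>
    obtain ⟨H, kH, hH⟩ := hx
    exact ⟨fun i => (-1) * H i, ker_mul kH _, by
      rw [wd_mul_right W' kH e.hs.ker, hH, map_neg]; ring⟩

omit e in
/-- sections of the restricted bundle, multiplied by a wedge product of restricted sections,
extend. -/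
theorem exists_ext (G : Vec E.a m) (hG : Ker (resE E) G) {G₁ G₂ : Vec E.a (m + 1)}
    (h₁ : Ker E G₁) (h₂ : Ker E G₂) : ∃ K, Ker E K ∧
      ∀ i, rv K i = W'.wd (rv G₁) (rv G₂) * G i := by
  refine ⟨fun i => rename Fin.castSucc (W'.wd G (rv G₂)) * G₁ i -
    rename Fin.castSucc (W'.wd G (rv G₁)) * G₂ i,
    ker_sub (ker_mul h₁ _) (ker_mul h₂ _), fun i => ?_⟩
  show lsub (hI m) (rename Fin.castSucc (W'.wd G (rv G₂)) * G₁ i -
    rename Fin.castSucc (W'.wd G (rv G₁)) * G₂ i) = _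
  rw [map_sub, map_mul, map_mul, lsub_rename, lsub_rename]
  have h3 : W'.wd (rv G₁) (rv G₂) * G i - W'.wd G (rv G₂) * lsub (hI m) (G₁ i) +
    W'.wd G (rv G₁) * lsub (hI m) (G₂ i) = 0 := W'.three G (rv G₁) (rv G₂) hG (rv_ker h₁)
      (rv_ker h₂) i
  linear_combination -h3

/-- **The derivative modulo `s`.** -/
theorem hder (hm : 2 ≤ m) (W : Wedge (triv E)) (G : Vec E.a m) (hG : Ker (resE E) G) :
    ∃ G' : Vec E.a m, Ker (resE E) G' ∧ W'.wd e.s G' = pderiv k (W'.wd e.s G) := by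
  classical
  obtain ⟨c, hc, hcw⟩ := res_wd (by omega) W W'
  have step : ∀ G₁ G₂ : Vec E.a (m + 1), Ker E G₁ → Ker E G₂ → ∃ H, Ker (resE E) H ∧
      W'.wd e.s H = W'.wd (rv G₁) (rv G₂) * W'.wd (rv G₁) (rv G₂) *
        pderiv k (W'.wd e.s G) := by
    intro G₁ G₂ h₁ h₂
    set r := W'.wd (rv G₁) (rv G₂) with hr
    obtain ⟨K, kK, hK⟩ := exists_ext (W' := W') e.s e.hs.ker h₁ h₂
    obtain ⟨Gh, kG, hGh⟩ := exists_ext (W' := W') G hG h₁ h₂
    rw [← hr] at hK hGh
    have hMp : Mp L K := ⟨kK, fun i => by rw [ep_mul L r hK, e.As, mul_zero]⟩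
    have hJ : W.wd K Gh ∈ JJ L W :=
      AddSubgroup.subset_closure ⟨K, _, hMp, Mp_tX kG, wd_mul_right W kG kK _⟩
    obtain ⟨H, kH, hH⟩ := e.JJ_img (by omega) W (e.JJ_der (by omega) W hJ)
    have a1 : W'.wd (rv K) (rv Gh) = r * W'.wd e.s (rv Gh) :=
      wd_of_mul_left W' e.hs.ker (rv_ker kG) hK
    have a2 : W'.wd e.s (rv Gh) = r * W'.wd e.s G := wd_of_mul_right W' hG e.hs.ker hGh
    rw [lsub_pderiv, hcw _ _ kK kG, a1, a2] at hH
    have hC : (C c⁻¹ * C c : MvPolynomial (Fin (m + 1)) ℂ) = 1 := by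
      rw [← C_mul, inv_mul_cancel₀ hc, C_1]
    have a3 : W'.wd e.s (fun i => (fun i => C c⁻¹ * H i) i - (fun i => pderiv k (r * r) * G i) i) =
        C c⁻¹ * W'.wd e.s H - pderiv k (r * r) * W'.wd e.s G := by
      refine (wd_sub_right W' (ker_mul kH _) (ker_mul hG _) e.hs.ker).trans ?_
      exact congrArg₂ (· - ·) (wd_mul_right W' kH e.hs.ker _) (wd_mul_right W' hG e.hs.ker _)
    refine ⟨fun i => (fun i => C c⁻¹ * H i) i - (fun i => pderiv k (r * r) * G i) i,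
      ker_sub (ker_mul kH _) (ker_mul hG _), ?_⟩
    refine a3.trans ?_
    rw [hH]
    simp only [Derivation.leibniz, smul_eq_mul, derivation_C, smul_zero, mul_zero, add_zero]
    linear_combination (r * (r * pderiv k (W'.wd e.s G) + W'.wd e.s G * pderiv k r) +
      r * W'.wd e.s G * pderiv k r) * hC
  refine saturate' W' hm e.hs.ker e.hsp (fun x hx => ?_)
  have hx' : hI m x ≠ 0 := fun h => hx (hI_inj m (h.trans (map_zero _).symm))
  obtain ⟨τ, τ', G₁, G₂, hG₁, hG₂, hp⟩ := exists_ne W (D := triv E) (hI m x) hx'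
  have h5 := (W.ind (hI m x) hx' G₁ G₂ hG₁.ker hG₂.ker).1 hp
  rw [← rv_eval, ← rv_eval] at h5
  have h6 : eval x (W'.wd (rv G₁) (rv G₂)) ≠ 0 :=
    (W'.ind x hx (rv G₁) (rv G₂) (rv_ker hG₁.ker) (rv_ker hG₂.ker)).2 h5
  obtain ⟨H, kH, hH⟩ := step G₁ G₂ hG₁.ker hG₂.ker
  exact ⟨_, H, kH, hH, by rw [map_mul]; exact mul_ne_zero h6 h6⟩

end ED

end Pool.Agent.W615
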