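import Pool.Agent.W615.Elation5

/-!
# The elation theorem (helper615)

A rank two bundle on `P^n`, `n ≥ 4`, with a lift of an elation splits.
-/

set_option autoImplicit false
set_option maxHeartbeats 400000

open MvPolynomial H960VB H938TB

namespace Pool.Agent.W615

section
variable {m : ℕ} {E : Bundle2 (m + 1)} {k : Fin (m + 1)}

theorem ep_shift (L : Lft (triv E) 0 (elat k)) (l : ℂ) (H : Vec E.a m) (i : Fin E.a) :
    ep (L.shift l) H i = ep L H i - C l * H i := by
  have h2 : ∀ j, lsub (hI m) ((L.shift l).ν i j) * H j =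
      lsub (hI m) (L.ν i j) * H j - (if i = j then C l * H j else 0) := by
    intro j
    show lsub (hI m) (L.ν i j - dg (m + 1) E.a l i j) * H j = _
    rw [map_sub, sub_mul]
    congr 1
    unfold dg
    split_ifs
    · rw [lsub, aeval_C]
      rfl
    · rw [map_zero, zero_mul]
  show ∑ j, lsub (hI m) ((L.shift l).ν i j) * H j =
    ∑ j, lsub (hI m) (L.ν i j) * H j - C l * H i
  simp_rw [h2]
  rw [Finset.sum_sub_distrib, Finset.sum_ite_eq, if_pos (Finset.mem_univ i)]

/-- **The elation theorem**, in coordinates. -/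
theorem elation (hm : 3 ≤ m) (L : Lft (triv E) 0 (elat k)) : E.Splits := by
  by_contra hE
  have hF : ¬ (resE E).Splits := fun h =>
    hE (splits_of_cInc (by omega) (by omega) _ _ (Fin.castSucc_injective _) h)
  obtain ⟨W⟩ := exists_wedge (by omega) (triv E)
  obtain ⟨W'⟩ := exists_wedge (by omega) (resD E)
  obtain ⟨l, hl⟩ := exists_eigen W' (resL L) (by omega)
  have hdet : ∀ G G' : Vec E.a m, Ker (resE E) G → Ker (resE E) G' →
      W'.wd (ep (L.shift l) G) (ep (L.shift l) G') = 0 := by
    intro G G' hG hG'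
    have h3 := hl G G' hG hG'
    have h4 : ∀ H : Vec E.a m, ((resL L).shift l).op H = ep (L.shift l) H := by
      intro H
      funext i
      rw [Lft.shift_op, ep_eq, ep_shift]
    rw [h4, h4] at h3
    exact h3
  obtain ⟨e⟩ := exists_ED (by omega) hE hF (L.shift l) W W' hdet
  -- a coordinate plane in the hyperplane, away from the centre
  obtain ⟨f, hf, hfk⟩ : ∃ f : Fin (2 + 1) → Fin (m + 1), Function.Injective f ∧ ∀ t, f t ≠ k := by
    obtain ⟨m', rfl⟩ : ∃ m', m = m' + 3 := ⟨m - 3, by omega⟩
    refine ⟨fun t => k.succAbove (Fin.castLE (by omega) t), ?_, fun t => Fin.succAbove_ne _ _⟩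
    intro a b hab
    exact Fin.castLE_injective _ (Fin.succAbove_right_injective hab)
  -- the section vanishes at a point of this plane
  obtain ⟨x, hx, hsx⟩ : ∃ x : Fin 3 → ℂ, x ≠ 0 ∧ evv e.s (cInc f x) = 0 := by
    by_contra hc
    push Not at hc
    apply hF
    refine splits_of_cInc (le_refl 2) (by omega) (resE E) f hf ?_
    have hsec := e.hs.pull (cInc f) (cInc_injective f hf) (0 : Fin (2 + 1) → ℤ × ℤ)
      (fun _ _ _ => rfl)
    refine splits_of_nowhere_zero hsec fun x hx => ?_
    have h1 := hc x hx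
    rwa [← evv_lsub] at h1
  set z : Fin (m + 1) → ℂ := cInc f x with hz
  have hz0 : z ≠ 0 := fun h => hx (cInc_injective f hf (h.trans (map_zero _).symm))
  have hzk : z k = 0 := by
    rw [hz, cInc_apply]
    refine Finset.sum_eq_zero fun t _ => ?_
    rw [if_neg (hfk t)]
  have hek : (Pi.single k 1 : Fin (m + 1) → ℂ) ≠ 0 := fun h => by simpa using congrFun h k
  have hind : LinearIndependent ℂ ![z, Pi.single k 1] := by
    rw [LinearIndependent.pair_iff]
    intro a b hab
    obtain ⟨j, hj⟩ := Function.ne_iff.1 hz0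
    have hjk : j ≠ k := by
      rintro rfl
      exact hj hzk
    have h1 := congrFun hab j
    have h2 := congrFun hab k
    rw [Pi.add_apply, Pi.smul_apply, Pi.smul_apply, Pi.single_eq_of_ne hjk, smul_zero,
      add_zero] at h1
    rw [Pi.add_apply, Pi.smul_apply, Pi.smul_apply, Pi.single_eq_same, hzk, smul_zero,
      zero_add, smul_eq_mul, mul_one] at h2
    exact ⟨(smul_eq_zero.1 h1).resolve_right hj, h2⟩
  let T : (Fin (1 + 1) → ℂ) →ₗ[ℂ] (Fin (m + 1) → ℂ) :=
    Fintype.linearCombination ℂ ![z, Pi.single k 1]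
  have hT : Function.Injective T := hind.fintypeLinearCombination_injective
  have hTs : ∀ t, T (Pi.single t 1) = ![z, Pi.single k 1] t := by
    intro t
    simp only [T]
    rw [Fintype.linearCombination_apply_single, one_smul]
  have hTy : ∀ y : Fin (1 + 1) → ℂ, T y = y 0 • z + y 1 • Pi.single k 1 := by
    intro y
    simp only [T]
    rw [Fintype.linearCombination_apply, Fin.sum_univ_two]
    rfl
  have hTk : T (Pi.single 1 1) = Pi.single k 1 := hTs 1
  -- the section vanishes on the line
  have hline : ∀ i, lsub T (e.s i) = 0 := by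
    intro i
    have hX : (X 0 : MvPolynomial (Fin (1 + 1)) ℂ) ≠ 0 := X_ne_zero _
    apply mul_left_cancel₀ hX
    rw [mul_zero]
    apply MvPolynomial.funext
    intro y
    rw [map_mul, eval_X, map_zero]
    by_cases hy : y 0 = 0
    · rw [hy, zero_mul]
    rw [eval_lsub, hTy]
    have h1 : z + (y 1 / y 0) • Pi.single k 1 ≠ 0 := by
      intro h
      obtain ⟨j, hj⟩ := Function.ne_iff.1 hz0
      have hjk : j ≠ k := by
        rintro rfl
        exact hj hzk
      have h2 := congrFun h j
      rw [Pi.add_apply, Pi.smul_apply, Pi.single_eq_of_ne hjk, smul_zero, add_zero] at h2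
      exact hj h2
    have h2 : evv e.s (z + (y 1 / y 0) • Pi.single k 1) = 0 := by
      by_contra h3
      exact e.ne_zero_of (by omega) W hz0 (y 1 / y 0) h1 h3 hsx
    have h3 : eval (z + (y 1 / y 0) • Pi.single k 1) (e.s i) = 0 := congrFun h2 i
    have h4 := eval_smul_of (e.hs.hom i) (y 0) _ h3
    have h5 : y 0 • (z + (y 1 / y 0) • Pi.single k (1 : ℂ)) = y 0 • z + y 1 • Pi.single k 1 := by
      rw [smul_add, smul_smul, mul_div_cancel₀ _ hy]
    rw [h5] at h4
    rw [h4, mul_zero]
  have hTd : ∀ p : MvPolynomial (Fin (m + 1)) ℂ, lsub T (pderiv k p) = pderiv 1 (lsub T p) := by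
    refine lsub_der T (fun i => ?_)
    rw [lsub_X, map_sum, Fin.sum_univ_two, hTs, hTs]
    show lsub T (pderiv k (X i)) = pderiv 1 (C (z i) * X 0) +
      pderiv 1 (C ((Pi.single k (1 : ℂ) : Fin (m + 1) → ℂ) i) * X 1)
    have d0 : pderiv (1 : Fin (1 + 1)) (X 0 : MvPolynomial (Fin (1 + 1)) ℂ) = 0 :=
      pderiv_X_of_ne (by decide)
    have d1 : pderiv (1 : Fin (1 + 1)) (X 1 : MvPolynomial (Fin (1 + 1)) ℂ) = 1 :=
      pderiv_X_self _
    rw [Derivation.leibniz, Derivation.leibniz, pderiv_C, pderiv_C, d0, d1]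
    by_cases hi : i = k
    · rw [hi, pderiv_X_self, Pi.single_eq_same]
      simp
    · rw [pderiv_X_of_ne hi, Pi.single_eq_of_ne hi]
      simp
  exact hF (splits_of_line W' e.hs e.hsp hT hline (fun G hG => e.hder (by omega) W G hG) hTk)

end

section
variable {n : ℕ} {E : Bundle2 n} {N : Matrix (Fin (n + 1)) (Fin (n + 1)) ℂ}

/-- **The elation theorem**: lifts of linear vector fields with four blocks, not all trivial. -/
theorem four_blocks (L : Lft (triv E) 0 (vf N)) (y z₁ z₂ z₃ : Fin (n + 1) → ℂ)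
    (hy : N.mulVec (N.mulVec y) = 0) (h₁ : N.mulVec z₁ = 0) (h₂ : N.mulVec z₂ = 0)
    (h₃ : N.mulVec z₃ = 0) (hli : LinearIndependent ℂ ![N.mulVec y, z₁, z₂, z₃]) :
    E.Splits := by
  set c := N.mulVec y with hc
  have hc0 : c ≠ 0 := hli.ne_zero 0
  have hli5 : LinearIndependent ℂ ![c, z₁, z₂, z₃, y] := by
    rw [Fintype.linearIndependent_iff]
    intro g hg
    rw [Fin.sum_univ_five] at hg
    simp only [Matrix.cons_val] at hg
    have h3 := congrArg N.mulVec hg
    rw [Matrix.mulVec_add, Matrix.mulVec_add, Matrix.mulVec_add, Matrix.mulVec_add,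
      Matrix.mulVec_smul, Matrix.mulVec_smul, Matrix.mulVec_smul, Matrix.mulVec_smul,
      Matrix.mulVec_smul, hy, h₁, h₂, h₃, Matrix.mulVec_zero, smul_zero, smul_zero, smul_zero,
      smul_zero, zero_add, zero_add, zero_add, zero_add] at h3
    have h4 : g 4 = 0 := (smul_eq_zero.1 h3).resolve_right hc0
    rw [h4, zero_smul, add_zero] at hg
    have h5 := (Fintype.linearIndependent_iff.1 hli) ![g 0, g 1, g 2, g 3] (by
      rw [Fin.sum_univ_four]
      simpa using hg)
    intro i
    fin_cases i
    · exact h5 0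
    · exact h5 1
    · exact h5 2
    · exact h5 3
    · exact h4
  let T : (Fin (3 + 1 + 1) → ℂ) →ₗ[ℂ] (Fin (n + 1) → ℂ) :=
    Fintype.linearCombination ℂ ![c, z₁, z₂, z₃, y]
  have hTs : ∀ t, T (Pi.single t 1) = ![c, z₁, z₂, z₃, y] t := by
    intro t
    simp only [T]
    rw [Fintype.linearCombination_apply_single, one_smul]
  have hT : Function.Injective T := hli5.fintypeLinearCombination_injective
  have h0 : ∀ t : Fin (3 + 1), N.mulVec (T (Pi.single t.castSucc 1)) = 0 := by
    intro t
    rw [hTs]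
    fin_cases t
    · exact hy
    · exact h₁
    · exact h₂
    · exact h₃
  have h1 : N.mulVec (T (Pi.single (Fin.last (3 + 1)) 1)) =
      T (Pi.single (0 : Fin (3 + 1)).castSucc 1) := by
    rw [hTs, hTs]
    rfl
  have h4n : 4 ≤ n := by
    have h3 := LinearMap.finrank_le_finrank_of_injective hT
    rw [Module.finrank_fintype_fun_eq_card, Module.finrank_fintype_fun_eq_card, Fintype.card_fin,
      Fintype.card_fin] at h3
    omega
  exact Bundle2.splits_of_pull (n - 4) 4 n (by norm_num) (by omega) E _ hT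
    (elation (le_refl 3) (elaLft L T hT 0 h0 h1))

end

end Pool.Agent.W615
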