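import Pool.Agent.W615.SqZero

/-!
# The homogeneous component of a lift (helper615)
-/

set_option autoImplicit false

open MvPolynomial H960VB H938TB

namespace Pool.Agent.W615

variable {n : ℕ} {w : Fin (n + 1) → ℤ × ℤ} {E : Bundle2 n}

/-- the homogeneous component of a lift. -/
noncomputable def homLft (D : EqB E w) (ω : M) (δ : Der n)
    (hδ : ∀ i, IsWeightedHomogeneous (tw w) (δ (X i)) (tw w i + ω))
    (ν : Matrix (Fin E.a) (Fin E.a) (MvPolynomial (Fin (n + 1)) ℂ))
    (μ : Matrix (Fin E.c) (Fin E.c) (MvPolynomial (Fin (n + 1)) ℂ))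
    (hc : ∀ k i, δ (E.B k i) = ∑ l, μ k l * E.B l i + ∑ j, E.B k j * ν j i) :
    Lft D ω δ where
  ν := fun j i => weightedHomogeneousComponent (tw w)
    ((E.β j, D.b j) - (E.β i, D.b i) + ω) (ν j i)
  μ := fun k l => weightedHomogeneousComponent (tw w)
    ((E.γ k, D.c k) - (E.γ l, D.c l) + ω) (μ k l)
  hδ := hδ
  hν := fun i j => weightedHomogeneousComponent_isWeightedHomogeneous _ _
  comm := by
    intro k i
    have h1 : IsWeightedHomogeneous (tw w) (δ (E.B k i))
        ((E.γ k, D.c k) - (E.β i, D.b i) + ω) := der_hom hδ (D.hB k i)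
    have h2 := congrArg (weightedHomogeneousComponent (tw w)
      (((E.γ k, D.c k) : M) - (E.β i, D.b i) + ω)) (hc k i)
    rw [weightedHomogeneousComponent_eq_self h1, map_add, map_sum, map_sum] at h2
    rw [h2]
    congr 1
    · refine Finset.sum_congr rfl fun l _ => ?_
      have h3 := whc_mul (q := μ k l) (D.hB l i) (((E.γ k, D.c k) : M) - (E.γ l, D.c l) + ω)
      rw [show (((E.γ l, D.c l) : M) - (E.β i, D.b i) + ((E.γ k, D.c k) - (E.γ l, D.c l) + ω)) =
        (E.γ k, D.c k) - (E.β i, D.b i) + ω by abel] at h3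
      rw [mul_comm, h3, mul_comm]
    · refine Finset.sum_congr rfl fun j _ => ?_
      have h3 := whc_mul (q := ν j i) (D.hB k j) (((E.β j, D.b j) : M) - (E.β i, D.b i) + ω)
      rw [show (((E.γ k, D.c k) : M) - (E.β j, D.b j) + ((E.β j, D.b j) - (E.β i, D.b i) + ω)) =
        (E.γ k, D.c k) - (E.β i, D.b i) + ω by abel] at h3
      rw [h3]

theorem vf_eq_sum (N : Matrix (Fin (n + 1)) (Fin (n + 1)) ℂ) (p : MvPolynomial (Fin (n + 1)) ℂ) :
    vf N p = ∑ s, pderiv s p * (∑ t, C (N s t) * X t) := by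
  rw [der_eq_sum]
  refine Finset.sum_congr rfl fun s _ => ?_
  rw [vf_X]

/-- homogeneity of a linear vector field -/
theorem vf_hom {p : Fin (n + 1) → ℤ} {N : Matrix (Fin (n + 1)) (Fin (n + 1)) ℂ} {c : ℤ}
    (hN : ∀ i j, N i j ≠ 0 → p i = p j - c) (i : Fin (n + 1)) :
    IsWeightedHomogeneous (tw (fun s => (p s, (0 : ℤ)))) (vf N (X i))
      (tw (fun s => (p s, (0 : ℤ))) i + (0, (c, 0))) := by
  rw [vf_X]
  refine IsWeightedHomogeneous.sum _ _ _ fun j _ => ?_
  by_cases h : N i j = 0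
  · rw [h, C_0, zero_mul]
    exact isWeightedHomogeneous_zero _ _ _
  · have h1 := (isWeightedHomogeneous_C (tw (fun s => (p s, (0 : ℤ)))) (N i j)).mul
      (isWeightedHomogeneous_X ℂ (tw (fun s => (p s, (0 : ℤ)))) j)
    rw [zero_add] at h1
    have h2 : tw (fun s => (p s, (0 : ℤ))) i + ((0, (c, 0)) : M) =
        tw (fun s => (p s, (0 : ℤ))) j := by
      show ((1 : ℤ), (p i, (0 : ℤ))) + (0, (c, 0)) = (1, (p j, 0))
      rw [hN i j h, Prod.mk_add_mk, Prod.mk_add_mk]
      norm_num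
    rw [h2]
    exact h1

end Pool.Agent.W615
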