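import Pool.Agent.W615.Elation6
import Pool.Agent.W615.HomLift

/-!
# The elation theorem, in invariant form (helper615)
-/

set_option autoImplicit false
set_option maxHeartbeats 400000

open MvPolynomial H960VB H938TB

namespace Pool.Agent.W615

section lin
variable {V : Type*} [AddCommGroup V] [Module ℂ V] [FiniteDimensional ℂ V]

theorem lin_snoc {K : Submodule ℂ V} {m : ℕ} {v : Fin m → V} (hv : LinearIndependent ℂ v)
    (hvK : ∀ i, v i ∈ K) (h : m < Module.finrank ℂ K) :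
    ∃ z ∈ K, LinearIndependent ℂ (Fin.snoc v z : Fin (m + 1) → V) := by
  have h1 : LinearIndependent ℂ (fun i => (⟨v i, hvK i⟩ : K)) :=
    LinearIndependent.of_comp K.subtype hv
  obtain ⟨x, hx⟩ := exists_linearIndependent_snoc_of_lt_finrank h1 h
  refine ⟨x, x.2, ?_⟩
  have h2 := hx.map' K.subtype K.ker_subtype
  have h3 : (K.subtype ∘ (Fin.snoc (fun i => (⟨v i, hvK i⟩ : K)) x : Fin (m + 1) → K)) =
      (Fin.snoc v (x : V) : Fin (m + 1) → V) := by
    funext i
    refine Fin.lastCases ?_ (fun j => ?_) i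
    · simp
    · simp
  exact h3 ▸ h2

theorem lin_pair {K : Submodule ℂ V} {c : V} (hc : c ∈ K) (hc0 : c ≠ 0)
    (h : 2 ≤ Module.finrank ℂ K) : ∃ z ∈ K, LinearIndependent ℂ ![c, z] := by
  have h1 : LinearIndependent ℂ ![c] := by
    rw [linearIndependent_unique_iff]
    exact hc0
  obtain ⟨z, hz, h2⟩ := lin_snoc h1 (fun i => by fin_cases i; exact hc) h
  refine ⟨z, hz, ?_⟩
  convert h2 using 1
  funext i
  fin_cases i <;> rfl

theorem lin_triple {K : Submodule ℂ V} {c₁ c₂ : V} (h₁ : c₁ ∈ K) (h₂ : c₂ ∈ K)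
    (h12 : LinearIndependent ℂ ![c₁, c₂]) (h : 3 ≤ Module.finrank ℂ K) :
    ∃ z ∈ K, LinearIndependent ℂ ![c₁, c₂, z] := by
  obtain ⟨z, hz, h3⟩ := lin_snoc h12 (fun i => by fin_cases i; exacts [h₁, h₂]) h
  refine ⟨z, hz, ?_⟩
  convert h3 using 1
  funext i
  fin_cases i <;> rfl

theorem lin_quad {K : Submodule ℂ V} {c : V} (hc : c ∈ K) (hc0 : c ≠ 0)
    (h : 4 ≤ Module.finrank ℂ K) : ∃ z₁ ∈ K, ∃ z₂ ∈ K, ∃ z₃ ∈ K,
      LinearIndependent ℂ ![c, z₁, z₂, z₃] := by
  obtain ⟨z₁, hz₁, h1⟩ := lin_pair hc hc0 (by omega)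
  obtain ⟨z₂, hz₂, h2⟩ := lin_triple hc hz₁ h1 (by omega)
  obtain ⟨z₃, hz₃, h3⟩ := lin_snoc h2 (fun i => by fin_cases i; exacts [hc, hz₁, hz₂]) h
  refine ⟨z₁, hz₁, z₂, hz₂, z₃, hz₃, ?_⟩
  convert h3 using 1
  funext i
  fin_cases i <;> rfl

end lin

section
variable {n : ℕ} {E : Bundle2 n}

theorem vf_hom0 (N : Matrix (Fin (n + 1)) (Fin (n + 1)) ℂ) (i : Fin (n + 1)) :
    IsWeightedHomogeneous (tw (0 : Fin (n + 1) → ℤ × ℤ)) (vf N (X i)) (tw 0 i + 0) := by
  rw [vf_X]
  refine IsWeightedHomogeneous.sum _ _ _ fun j _ => ?_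
  have h1 := (isWeightedHomogeneous_C (tw (0 : Fin (n + 1) → ℤ × ℤ)) (N i j)).mul
    (isWeightedHomogeneous_X ℂ (tw (0 : Fin (n + 1) → ℤ × ℤ)) j)
  rw [zero_add] at h1
  rw [add_zero]
  exact h1

/-- a lift for `N` gives a lift for `N - l`. -/
noncomputable def shiftN {N : Matrix (Fin (n + 1)) (Fin (n + 1)) ℂ} (L : Lft (triv E) 0 (vf N))
    (l : ℂ) : Lft (triv E) 0 (vf (N - Matrix.scalar _ l)) :=
  mkLft E (N - Matrix.scalar _ l) (fun i j => L.ν i j + dg n E.a (l * (E.β i : ℂ)) i j)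
    (fun i j => L.μ i j - dg n E.c (l * (E.γ i : ℂ)) i j) (by
      intro i j
      have h1 : HomZ (L.ν i j) (E.β i - E.β j) := by
        have h2 := homZ_of (L.hν i j)
        simpa using h2
      unfold dg
      split_ifs with hij
      · subst hij
        refine h1.add' ?_
        rw [sub_self]
        exact Or.inr ⟨0, rfl, isHomogeneous_C _ _⟩
      · rw [add_zero]
        exact h1) (by
      intro k i
      have e1 : vf (N - Matrix.scalar _ l) (E.B k i) = vf N (E.B k i) -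
          C l * ∑ s, pderiv s (E.B k i) * X s := by
        rw [vf_eq_sum, vf_eq_sum, Finset.mul_sum, ← Finset.sum_sub_distrib]
        refine Finset.sum_congr rfl fun s _ => ?_
        have h3 : ∑ j, C ((N - Matrix.scalar (Fin (n + 1)) l) s j) *
            (X j : MvPolynomial (Fin (n + 1)) ℂ) = ∑ t, C (N s t) * X t - C l * X s := by
          have h4 : ∀ j, C ((N - Matrix.scalar (Fin (n + 1)) l) s j) *
              (X j : MvPolynomial (Fin (n + 1)) ℂ) =
              C (N s j) * X j - (if s = j then C l * X j else 0) := by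
            intro j
            rw [Matrix.sub_apply, Matrix.scalar_apply, Matrix.diagonal_apply, C_sub, sub_mul]
            split_ifs
            · rfl
            · rw [C_0, zero_mul]
          simp_rw [h4]
          rw [Finset.sum_sub_distrib, Finset.sum_ite_eq, if_pos (Finset.mem_univ s)]
        rw [h3]
        ring
      rw [e1, euler (E.hom k i), L.comm]
      have e2 : ∑ l', (L.μ k l' - dg n E.c (l * (E.γ k : ℂ)) k l') * E.B l' i =
          ∑ l', L.μ k l' * E.B l' i - C (l * (E.γ k : ℂ)) * E.B k i := by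
        simp only [sub_mul, Finset.sum_sub_distrib]
        congr 1
        rw [Finset.sum_eq_single k]
        · rw [dg, if_pos rfl]
        · intro b _ hb
          rw [dg, if_neg (Ne.symm hb), zero_mul]
        · intro h; exact absurd (Finset.mem_univ _) h
      have e3 : ∑ j, E.B k j * (L.ν j i + dg n E.a (l * (E.β j : ℂ)) j i) =
          ∑ j, E.B k j * L.ν j i + C (l * (E.β i : ℂ)) * E.B k i := by
        simp only [mul_add, Finset.sum_add_distrib]
        congr 1
        rw [Finset.sum_eq_single i]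
        · rw [dg, if_pos rfl, mul_comm]
        · intro b _ hb
          rw [dg, if_neg hb, mul_zero]
        · intro h; exact absurd (Finset.mem_univ _) h
      rw [e2, e3]
      push_cast
      simp only [C_mul, C_sub]
      ring)

/-- the elation theorem for a nilpotent-type matrix, in terms of the kernel. -/
theorem four_dim {N : Matrix (Fin (n + 1)) (Fin (n + 1)) ℂ} (L : Lft (triv E) 0 (vf N))
    (hK : 4 ≤ Module.finrank ℂ (LinearMap.ker N.mulVecLin)) (y : Fin (n + 1) → ℂ)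
    (hy : N.mulVec (N.mulVec y) = 0) (hy0 : N.mulVec y ≠ 0) : E.Splits := by
  obtain ⟨z₁, h₁, z₂, h₂, z₃, h₃, h⟩ := lin_quad (K := LinearMap.ker N.mulVecLin)
    (c := N.mulVec y) (by rw [LinearMap.mem_ker]; exact hy) hy0 hK
  rw [LinearMap.mem_ker] at h₁ h₂ h₃
  exact four_blocks L y z₁ z₂ z₃ hy h₁ h₂ h₃ h

/-- the elation theorem with an arbitrary eigenvalue. -/
theorem four_dim' (N : Matrix (Fin (n + 1)) (Fin (n + 1)) ℂ)
    (ν : Matrix (Fin E.a) (Fin E.a) (MvPolynomial (Fin (n + 1)) ℂ))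
    (μ : Matrix (Fin E.c) (Fin E.c) (MvPolynomial (Fin (n + 1)) ℂ))
    (hc : ∀ k i, ∑ s, pderiv s (E.B k i) * (∑ t, C (N s t) * X t) =
      ∑ l, μ k l * E.B l i + ∑ j, E.B k j * ν j i)
    (l : ℂ) (hK : 4 ≤ Module.finrank ℂ (LinearMap.ker (N - Matrix.scalar _ l).mulVecLin))
    (y : Fin (n + 1) → ℂ)
    (hy : (N - Matrix.scalar _ l).mulVec ((N - Matrix.scalar _ l).mulVec y) = 0)
    (hy0 : (N - Matrix.scalar _ l).mulVec y ≠ 0) : E.Splits :=
  four_dim (shiftN (homLft (triv E) 0 (vf N) (vf_hom0 N) ν μ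
    (fun k i => by rw [vf_eq_sum]; exact hc k i)) l) hK y hy hy0

end

end Pool.Agent.W615
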