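import Pool.Agent.W615.Lift
import Pool.Agent.H960R2.VB.Glob

/-!
# Endomorphisms, and translations (helper615)
-/

set_option autoImplicit false
set_option maxHeartbeats 400000

open MvPolynomial H960VB H938TB

namespace Pool.Agent.W615

variable {n : ℕ}

/-! ### the trivial action -/

theorem wh_triv {p : MvPolynomial (Fin (n + 1)) ℂ} {d : ℤ} (h : HomZ p d) :
    IsWeightedHomogeneous (tw (0 : Fin (n + 1) → ℤ × ℤ)) p (d, 0) := by
  rcases h with rfl | ⟨k, rfl, hk⟩
  · exact isWeightedHomogeneous_zero _ _ _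
  · intro u hu
    have h1 := hk hu
    rw [Finsupp.weight_apply, Finsupp.sum_fintype _ _ (by simp)] at h1
    rw [Finsupp.weight_apply, Finsupp.sum_fintype _ _ (by simp)]
    have h2 : ∀ i, u i • tw (0 : Fin (n + 1) → ℤ × ℤ) i = ((u i : ℤ), 0) := by
      intro i
      simp [tw]
    simp_rw [h2]
    have h3 : ∑ i, u i = k := by simpa using h1
    ext
    · rw [Prod.fst_sum]
      show ∑ i, (u i : ℤ) = k
      rw [← h3]
      push_cast
      rfl
    · rw [Prod.snd_sum]
      simp
    · rw [Prod.snd_sum]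
      simp

/-- the trivial action on a bundle. -/
def triv (E : Bundle2 n) : EqB E 0 where
  b := 0
  c := 0
  hB := by
    intro k i
    have h := wh_triv (E.hom k i)
    convert h using 1
    simp

/-! ### translations -/

variable {w : Fin (n + 1) → ℤ × ℤ} {E : Bundle2 n} {D : EqB E w} (W : Wedge D)

theorem euler_at {k : Fin (n + 1)} {p : MvPolynomial (Fin (n + 1)) ℂ} {m : ℕ}
    (hp : p.IsHomogeneous (m + 1)) (h : eval (Pi.single k 1 : Fin (n + 1) → ℂ) p ≠ 0) :
    eval (Pi.single k 1 : Fin (n + 1) → ℂ) (pderiv k p) ≠ 0 := by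
  have h1 := congrArg (eval (Pi.single k 1 : Fin (n + 1) → ℂ)) hp.sum_X_mul_pderiv
  rw [map_sum, Finset.sum_eq_single k] at h1
  · rw [map_mul, eval_X, Pi.single_eq_same, one_mul, map_nsmul, nsmul_eq_mul] at h1
    rw [h1]
    exact mul_ne_zero (by exact_mod_cast Nat.succ_ne_zero m) h
  · intro i _ hi
    rw [map_mul, eval_X, Pi.single_eq_of_ne hi, zero_mul]
  · intro h; exact absurd (Finset.mem_univ _) h

theorem const_of_degree_zero {p : MvPolynomial (Fin (n + 1)) ℂ} {τ : M}
    (hp : IsWeightedHomogeneous (tw w) p τ) (h0 : p ≠ 0) (hτ : τ.1 = 0) :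
    ∃ c : ℂ, c ≠ 0 ∧ p = C c := by
  have h4 : ∀ u, coeff u p ≠ 0 → u = 0 := by
    intro u hu
    have h5 := congrArg Prod.fst (hp hu)
    rw [weight_fst, hτ] at h5
    have h6 : ∑ i, u i = 0 := by exact_mod_cast h5
    ext i
    rw [Finset.sum_eq_zero_iff] at h6
    rw [h6 i (Finset.mem_univ i)]
    rfl
  obtain ⟨u, hu⟩ := ne_zero_iff.1 h0
  have h5 := h4 u hu
  subst h5
  refine ⟨coeff 0 p, hu, ?_⟩
  ext v
  rw [coeff_C]
  split_ifs with hv
  · rw [hv]
  · by_contra hne
    exact hv (h4 v hne).symm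

theorem degree_nonneg {p : MvPolynomial (Fin (n + 1)) ℂ} {τ : M}
    (hp : IsWeightedHomogeneous (tw w) p τ) (h0 : p ≠ 0) : 0 ≤ τ.1 := by
  obtain ⟨u, hu⟩ := ne_zero_iff.1 h0
  rw [← hp hu, weight_fst]
  exact Finset.sum_nonneg fun i _ => by positivity

/-- **Translation lemma.**  If the derivative with respect to the coordinate `k` lifts, the bundle
splits. -/
theorem trans (k : Fin (n + 1)) (dn : Vec E.a n → Vec E.a n)
    (hh : ∀ τ G, HSec D τ G → HSec D (τ - tw w k) (dn G))
    (hw : ∀ τ τ' G G', HSec D τ G → HSec D τ' G' →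
      pderiv k (W.wd G G') = W.wd (dn G) G' + W.wd G (dn G')) : E.Splits := by
  have key : ∀ (m : ℕ) (τ τ' : M) (G G' : Vec E.a n), HSec D τ G → HSec D τ' G' →
      eval (Pi.single k 1 : Fin (n + 1) → ℂ) (W.wd G G') ≠ 0 → (τ + τ' + W.κ).1 = m →
      E.Splits := by
    intro m
    induction m with
    | zero =>
      intro τ τ' G G' hG hG' h hm
      obtain ⟨c, hc, h1⟩ := const_of_degree_zero (W.hom _ _ _ _ hG hG')
        (fun h0 => h (by rw [h0, map_zero])) (by simpa using hm)
      exact splits_of_const W hG hG' c hc h1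
    | succ m ih =>
      intro τ τ' G G' hG hG' h hm
      have h1 : (W.wd G G').IsHomogeneous (m + 1) := by
        rcases homZ_of (W.hom _ _ _ _ hG hG') with h2 | ⟨l, hl, h2⟩
        · rw [h2]
          exact isHomogeneous_zero _ _ _
        · rw [hm] at hl
          have h3 : l = m + 1 := by exact_mod_cast hl
          rwa [h3] at h2
      have h2 := euler_at h1 h
      rw [hw _ _ _ _ hG hG', map_add] at h2
      have h3 : (tw w k).1 = 1 := rfl
      by_cases h4 : eval (Pi.single k 1 : Fin (n + 1) → ℂ) (W.wd (dn G) G') = 0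
      · rw [h4, zero_add] at h2
        refine ih _ _ _ _ hG (hh _ _ hG') h2 ?_
        rw [Prod.fst_add, Prod.fst_add] at hm ⊢
        rw [Prod.fst_sub, h3]
        push_cast at hm ⊢
        linarith
      · refine ih _ _ _ _ (hh _ _ hG) hG' h4 ?_
        rw [Prod.fst_add, Prod.fst_add] at hm ⊢
        rw [Prod.fst_sub, h3]
        push_cast at hm ⊢
        linarith
  obtain ⟨τ, τ', G, G', hG, hG', hp⟩ := exists_ne W (D := D) (Pi.single k 1)
    (fun h => by simpa using congrFun h k)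
  have h0 : 0 ≤ (τ + τ' + W.κ).1 := degree_nonneg (W.hom _ _ _ _ hG hG')
    (fun h0 => hp (by rw [h0, map_zero]))
  obtain ⟨m, hm⟩ := Int.eq_ofNat_of_zero_le h0
  exact key m _ _ _ _ hG hG' hp hm

/-! ### endomorphisms -/

/-- the constant `l` as a diagonal matrix of polynomials -/
noncomputable def dg (n a : ℕ) (l : ℂ) : Matrix (Fin a) (Fin a) (MvPolynomial (Fin (n + 1)) ℂ) :=
  fun i j => if i = j then C l else 0

/-- subtract a constant from a lift. -/
noncomputable def Lft.shift {δ : Der n} (L : Lft D 0 δ) (l : ℂ) : Lft D 0 δ where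
  ν := fun i j => L.ν i j - dg n E.a l i j
  μ := fun i j => L.μ i j + dg n E.c l i j
  hδ := L.hδ
  hν := by
    intro i j
    refine (L.hν i j).sub ?_
    by_cases hij : i = j
    · subst hij
      rw [dg, if_pos rfl, sub_self, add_zero]
      exact isWeightedHomogeneous_C _ _
    · rw [dg, if_neg hij]
      exact isWeightedHomogeneous_zero _ _ _
  comm := by
    intro k i
    rw [L.comm]
    have h1 : ∑ l', (L.μ k l' + dg n E.c l k l') * E.B l' i =
        ∑ l', L.μ k l' * E.B l' i + C l * E.B k i := by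
      simp only [add_mul, Finset.sum_add_distrib]
      congr 1
      rw [Finset.sum_eq_single k]
      · rw [dg, if_pos rfl]
      · intro b _ hb
        rw [dg, if_neg (Ne.symm hb), zero_mul]
      · intro h; exact absurd (Finset.mem_univ _) h
    have h2 : ∑ j, E.B k j * (L.ν j i - dg n E.a l j i) =
        ∑ j, E.B k j * L.ν j i - C l * E.B k i := by
      simp only [mul_sub, Finset.sum_sub_distrib]
      congr 1
      rw [Finset.sum_eq_single i]
      · rw [dg, if_pos rfl, mul_comm]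
      · intro b _ hb
        rw [dg, if_neg hb, mul_zero]
      · intro h; exact absurd (Finset.mem_univ _) h
    rw [h1, h2]
    ring

theorem Lft.shift_op {δ : Der n} (L : Lft D 0 δ) (l : ℂ) (G : Vec E.a n) (i : Fin E.a) :
    (L.shift l).op G i = L.op G i - C l * G i := by
  have h : ∑ j, dg n E.a l i j * G j = C l * G i := by
    rw [Finset.sum_eq_single i]
    · rw [dg, if_pos rfl]
    · intro b _ hb
      rw [dg, if_neg (Ne.symm hb), zero_mul]
    · intro h; exact absurd (Finset.mem_univ _) h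
  have h2 : ∑ j, (L.shift l).ν i j * G j = ∑ j, L.ν i j * G j - C l * G i := by
    rw [← h, ← Finset.sum_sub_distrib]
    exact Finset.sum_congr rfl fun j _ => sub_mul _ _ _
  show δ (G i) + ∑ j, (L.shift l).ν i j * G j = δ (G i) + ∑ j, L.ν i j * G j - C l * G i
  rw [h2]
  ring

variable (A : Lft D 0 (0 : Der n))

theorem op_mul0 (p : MvPolynomial (Fin (n + 1)) ℂ) {G H : Vec E.a n} (h : ∀ i, G i = p * H i)
    (i : Fin E.a) : A.op G i = p * A.op H i := by
  have h1 : G = fun i => p * H i := funext h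
  rw [h1, A.op_mul]
  simp

theorem exists_det (hn : 1 ≤ n) : ∃ d : ℂ, ∀ G G', Ker E G → Ker E G' →
    W.wd (A.op G) (A.op G') = C d * W.wd G G' := by
  obtain ⟨d, -, h2⟩ := exists_mult W hn 0 rfl
    (fun G G' => W.wd (A.op G) (A.op G'))
    (fun i j => ∑ k, ∑ l, A.ν i k * A.ν j l * W.P k l) (by
      intro G G' hG hG' i j
      have a1 := W.eq (A.op G) (A.op G') (A.op_ker hG) (A.op_ker hG') i j
      have b1 : ∀ K : Vec E.a n, ∀ i, A.op K i = ∑ j, A.ν i j * K j := by
        intro K i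
        simp [Lft.op]
      rw [b1, b1, b1, b1] at a1
      show W.wd (A.op G) (A.op G') * W.P i j = _
      rw [← a1]
      have h3 : (∑ y, A.ν j y * G y) * ∑ x, A.ν i x * G' x =
          ∑ x, ∑ y, A.ν i x * G' x * (A.ν j y * G y) := by
        rw [mul_comm, Finset.sum_mul_sum]
      have h2 : (∑ x, A.ν i x * G x) * ∑ y, A.ν j y * G' y =
          ∑ x, ∑ y, A.ν i x * G x * (A.ν j y * G' y) := by
        rw [Finset.sum_mul_sum]
      rw [h3, h2, ← Finset.sum_sub_distrib, Finset.mul_sum]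
      refine Finset.sum_congr rfl fun k _ => ?_
      rw [Finset.mul_sum, ← Finset.sum_sub_distrib]
      refine Finset.sum_congr rfl fun l _ => ?_
      have h4 := W.eq G G' hG hG' k l
      linear_combination A.ν i k * A.ν j l * h4)
    (by
      intro τ τ' G G' hG hG'
      have a1 := W.hom _ _ _ _ (A.op_hom hG) (A.op_hom hG')
      have e : τ + τ' + W.κ + 0 = τ + 0 + (τ' + 0) + W.κ := by abel
      rw [e]
      exact a1)
  exact ⟨d, h2⟩

/-- an eigenvalue. -/
theorem exists_eigen (hn : 1 ≤ n) : ∃ l : ℂ, ∀ G G', Ker E G → Ker E G' →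
    W.wd ((A.shift l).op G) ((A.shift l).op G') = 0 := by
  obtain ⟨d, hd⟩ := exists_det W A hn
  obtain ⟨θ, -, hθ⟩ := A.exists_trace W hn rfl
  obtain ⟨z, hz⟩ := IsAlgClosed.exists_pow_nat_eq (θ ^ 2 - 4 * d) (by norm_num : 0 < 2)
  refine ⟨(θ + z) / 2, fun G G' hG hG' => ?_⟩
  set l := (θ + z) / 2 with hl
  have h1 : (A.shift l).op G = fun i => A.op G i - C l * G i := funext fun i => A.shift_op l G i
  have h2 : (A.shift l).op G' = fun i => A.op G' i - C l * G' i :=
    funext fun i => A.shift_op l G' i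
  rw [h1, h2, wd_sub_left W (A.op_ker hG) (ker_mul hG _) (ker_sub (A.op_ker hG') (ker_mul hG' _)),
    wd_sub_right W (A.op_ker hG') (ker_mul hG' _) (A.op_ker hG),
    wd_sub_right W (A.op_ker hG') (ker_mul hG' _) (ker_mul hG _),
    wd_mul_right W hG' (A.op_ker hG), wd_mul_right W hG' (ker_mul hG _),
    W.smul _ _ _ hG (A.op_ker hG'), W.smul _ _ _ hG hG', hd G G' hG hG']
  have h3 := hθ G G' hG hG'
  rw [Derivation.zero_apply, zero_add] at h3
  have h4 : (d - l * θ + l * l) = 0 := by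
    rw [hl]
    linear_combination hz / 4
  have h5 : (C d - C l * C θ + C l * C l : MvPolynomial (Fin (n + 1)) ℂ) = 0 := by
    rw [← C_mul, ← C_mul, ← C_sub, ← C_add, h4, C_0]
  linear_combination (-C l) * h3 + W.wd G G' * h5

theorem eq_zero_of_wd {H : Vec E.a n} (hH : Ker E H)
    (h : ∀ K, Ker E K → W.wd H K = 0) (i : Fin E.a) : H i = 0 := by
  obtain ⟨μ, μ', G, G', hG, hG', hp⟩ := exists_ne W (D := D) (fun _ => 1)
    (fun h => by simpa using congrFun h 0)
  have h0 : W.wd G G' ≠ 0 := fun h0 => hp (by rw [h0, map_zero])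
  have h1 := W.three G G' H hG.ker hG'.ker hH i
  rw [W.anti G' H hG'.ker hH, W.anti G H hG.ker hH, h _ hG'.ker, h _ hG.ker] at h1
  have h2 : W.wd G G' * H i = 0 := by linear_combination h1
  exact (mul_eq_zero.1 h2).resolve_left h0

/-- Cayley-Hamilton for a singular endomorphism. -/
theorem ch (hn : 1 ≤ n) (hdet : ∀ G G', Ker E G → Ker E G' → W.wd (A.op G) (A.op G') = 0) :
    ∃ θ : ℂ, (∀ G G', Ker E G → Ker E G' →
      W.wd (A.op G) G' + W.wd G (A.op G') = C θ * W.wd G G') ∧
      ∀ G, Ker E G → ∀ i, A.op (A.op G) i = C θ * A.op G i := by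
  obtain ⟨θ, -, hθ⟩ := A.exists_trace W hn rfl
  have h1 : ∀ G G', Ker E G → Ker E G' →
      W.wd (A.op G) G' + W.wd G (A.op G') = C θ * W.wd G G' := by
    intro G G' hG hG'
    have h3 := hθ G G' hG hG'
    rwa [Derivation.zero_apply, zero_add] at h3
  refine ⟨θ, h1, fun G hG i => ?_⟩
  have hk := A.op_ker (A.op_ker hG)
  have h2 := eq_zero_of_wd W (ker_sub hk (ker_mul (A.op_ker hG) (C θ))) (fun K hK => by
    rw [wd_sub_left W hk (ker_mul (A.op_ker hG) _) hK, W.smul _ _ _ (A.op_ker hG) hK]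
    have h3 := h1 (A.op G) K (A.op_ker hG) hK
    rw [hdet G K hG hK] at h3
    linear_combination h3) i
  exact sub_eq_zero.1 h2

/-- a singular endomorphism of a nonsplit bundle is nilpotent. -/
theorem nilp (hn : 1 ≤ n) (hE : ¬ E.Splits)
    (hdet : ∀ G G', Ker E G → Ker E G' → W.wd (A.op G) (A.op G') = 0) :
    (∀ G G', Ker E G → Ker E G' → W.wd (A.op G) G' + W.wd G (A.op G') = 0) ∧
      ∀ G, Ker E G → ∀ i, A.op (A.op G) i = 0 := by
  obtain ⟨θ, h1, h2⟩ := ch W A hn hdet
  by_cases hθ : θ = 0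
  · subst hθ
    refine ⟨fun G G' hG hG' => ?_, fun G hG i => ?_⟩
    · rw [h1 G G' hG hG', C_0, zero_mul]
    · rw [h2 G hG i, C_0, zero_mul]
  exfalso
  apply hE
  have hCθ : (C θ : MvPolynomial (Fin (n + 1)) ℂ) ≠ 0 := by rwa [Ne, C_eq_zero]
  obtain ⟨μ, μ', G, G', hG, hG', hp⟩ := exists_ne W (D := D) (fun _ => 1)
    (fun h => by simpa using congrFun h 0)
  have h0 : W.wd G G' ≠ 0 := fun h0 => hp (by rw [h0, map_zero])
  -- a section with nonzero image
  have e1 : ∃ τ K, HSec D τ K ∧ ∃ i, A.op K i ≠ 0 := by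
    by_contra hc
    push Not at hc
    have a1 := hc _ _ hG
    have a2 := hc _ _ hG'
    have a3 := h1 G G' hG.ker hG'.ker
    rw [wd_zero_left W (A.op_ker hG.ker) hG'.ker a1,
      wd_zero_right W hG.ker (A.op_ker hG'.ker) a2, add_zero] at a3
    exact (mul_ne_zero hCθ h0) a3.symm
  obtain ⟨τ, K, hK, hK0⟩ := e1
  have e2 : ∃ τ K, HSec D τ K ∧ ∃ i, A.op K i - C θ * K i ≠ 0 := by
    by_contra hc
    push Not at hc
    have a1 : ∀ i, A.op G i - C θ * G i = 0 := hc μ G hG
    have a2 : ∀ i, A.op G' i - C θ * G' i = 0 := hc μ' G' hG'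
    have a3 := hdet G G' hG.ker hG'.ker
    have a4 : ∀ i, A.op G i = C θ * G i := by
      intro i
      linear_combination a1 i
    have a5 : ∀ i, A.op G' i = C θ * G' i := by
      intro i
      linear_combination a2 i
    rw [show A.op G = fun i => C θ * G i from funext a4,
      show A.op G' = fun i => C θ * G' i from funext a5, W.smul _ _ _ hG.ker (ker_mul hG'.ker _), wd_mul_right W hG'.ker hG.ker] at a3
    exact (mul_ne_zero hCθ (mul_ne_zero hCθ h0)) a3
  obtain ⟨τ₂, K₂, hK₂, hK₂0⟩ := e2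
  obtain ⟨δ, g, s, hg0, hg, hs, hsp, hKs⟩ := exists_prm (A.op_hom hK) hK0
  have hK₂' : HSec D τ₂ (fun i => A.op K₂ i - C θ * K₂ i) := by
    refine ⟨fun i => ?_, ker_sub (A.op_ker hK₂.ker) (ker_mul hK₂.ker _)⟩
    have a1 := (A.op_hom hK₂).hom i
    rw [add_zero] at a1
    refine a1.sub ?_
    have a2 := (isWeightedHomogeneous_C (tw w) θ).mul (hK₂.hom i)
    rwa [zero_add] at a2
  obtain ⟨δ', g', s', hg0', hg', hs', hsp', hKs'⟩ := exists_prm hK₂' hK₂0
  -- eigenvectors
  have As : ∀ i, A.op s i = C θ * s i := by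
    intro i
    apply mul_left_cancel₀ hg0
    rw [← op_mul0 A g hKs, h2 K hK.ker, hKs]
    ring
  have As' : ∀ i, A.op s' i = 0 := by
    intro i
    apply mul_left_cancel₀ hg0'
    rw [← op_mul0 A g' (fun i => (hKs' i))]
    rw [A.op_sub, A.op_mul]
    simp only [Derivation.zero_apply, zero_mul, zero_add, mul_zero]
    rw [h2 K₂ hK₂.ker, sub_self]
  -- decomposition
  have hdec : ∀ H, Ker E H → (∃ f, ∀ i, A.op H i = f * s i) ∧
      (∃ f, ∀ i, A.op H i - C θ * H i = f * s' i) := by
    intro H hH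
    constructor
    · apply hsp.dvd_wd W hs.ker (A.op_ker hH)
      have a1 := hdet s (A.op H) hs.ker (A.op_ker hH)
      have a2 : A.op s = fun i => C θ * s i := funext As
      have a3 : A.op (A.op H) = fun i => C θ * A.op H i := funext (h2 H hH)
      rw [a2, a3, W.smul _ _ _ hs.ker (ker_mul (A.op_ker hH) _),
        wd_mul_right W (A.op_ker hH) hs.ker] at a1
      rcases mul_eq_zero.1 a1 with a4 | a4
      · exact absurd a4 hCθ
      · exact (mul_eq_zero.1 a4).resolve_left hCθ
    · have hk : Ker E (fun i => A.op H i - C θ * H i) :=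
        ker_sub (A.op_ker hH) (ker_mul hH _)
      apply hsp'.dvd_wd W hs'.ker hk
      have a1 := h1 s' (fun i => A.op H i - C θ * H i) hs'.ker hk
      have a2 : ∀ i, A.op (fun i => A.op H i - C θ * H i) i = 0 := by
        intro i
        rw [A.op_sub, A.op_mul]
        simp only [Derivation.zero_apply, zero_mul, zero_add]
        rw [h2 H hH, sub_self]
      rw [wd_zero_left W (A.op_ker hs'.ker) hk As',
        wd_zero_right W hs'.ker (A.op_ker hk) a2, add_zero] at a1
      exact (mul_eq_zero.1 a1.symm).resolve_left hCθ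
  refine splits_of_no_zero W hn hs hs' fun x hx h3 => ?_
  obtain ⟨ν, ν', H, H', hH, hH', h4⟩ := exists_ne W (D := D) x hx
  obtain ⟨⟨f, hf⟩, ⟨f', hf'⟩⟩ := hdec H hH.ker
  obtain ⟨⟨q, hq⟩, ⟨q', hq'⟩⟩ := hdec H' hH'.ker
  have h5 : ∀ i, C θ * H i = f * s i - f' * s' i := by
    intro i
    rw [← hf, ← hf']
    ring
  have h6 : ∀ i, C θ * H' i = q * s i - q' * s' i := by
    intro i
    rw [← hq, ← hq']
    ring
  have h7 : W.wd (fun i => C θ * H i) (fun i => C θ * H' i) =
      (f' * q - f * q') * W.wd s s' := by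
    apply wd_eq_of W (ker_mul hH.ker _) (ker_mul hH'.ker _)
    intro i j
    have a1 := W.eq s s' hs.ker hs'.ker i j
    rw [h5, h5, h6, h6]
    linear_combination (f' * q - f * q') * a1
  rw [W.smul _ _ _ hH.ker (ker_mul hH'.ker _), wd_mul_right W hH'.ker hH.ker] at h7
  apply h4
  have h8 := congrArg (eval x) h7
  rw [map_mul, map_mul, map_mul, h3, mul_zero, eval_C] at h8
  rcases mul_eq_zero.1 h8 with h9 | h9
  · exact absurd h9 hθ
  · exact (mul_eq_zero.1 h9).resolve_left hθ

end Pool.Agent.W615
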