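import Pool.Agent.W615.Residue

/-!
# Actions of the one-dimensional torus with three equal weights (helper615)
-/

set_option autoImplicit false

open MvPolynomial H960VB H938TB

namespace Pool.Agent.W615

/-- a polynomial vanishing on the zero locus of a prime is divisible by it. -/
theorem dvd_of_vanish {N : ℕ} {π p : MvPolynomial (Fin N) ℂ} (hπ : Prime π)
    (h : ∀ v : Fin N → ℂ, eval v π = 0 → eval v p = 0) : π ∣ p := by
  have hprime : (Ideal.span {π}).IsPrime := (Ideal.span_singleton_prime hπ.ne_zero).2 hπ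
  rw [← Ideal.mem_span_singleton, ← IsPrime.vanishingIdeal_zeroLocus (K := ℂ) (Ideal.span {π}),
    mem_vanishingIdeal_iff]
  intro v hv
  have h1 : eval v π = 0 := hv π (Ideal.mem_span_singleton_self π)
  exact h v h1

/-- a polynomial vanishing on a coordinate hyperplane is divisible by the coordinate. -/
theorem X_dvd_of_lsub {m : ℕ} (k : Fin (m + 2)) {p : MvPolynomial (Fin (m + 2)) ℂ}
    (h : lsub (cInc k.succAbove) p = 0) : X k ∣ p := by
  refine dvd_of_vanish X_prime fun v hv => ?_
  rw [eval_X] at hv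
  have h1 : cInc k.succAbove (fun t => v (k.succAbove t)) = v := by
    ext s
    by_cases hs : s = k
    · subst hs
      rw [hv, cInc_apply]
      refine Finset.sum_eq_zero fun t _ => ?_
      rw [if_neg (Fin.succAbove_ne s t)]
    · obtain ⟨t, rfl⟩ := Fin.exists_succAbove_eq hs
      rw [cInc_apply_self _ Fin.succAbove_right_injective]
  rw [← h1, ← eval_lsub, h, map_zero]

/-- a homogeneous polynomial with nonzero constant term is constant. -/
theorem const_of_eval_zero {n : ℕ} {w : Fin (n + 1) → ℤ × ℤ} {p : MvPolynomial (Fin (n + 1)) ℂ}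
    {τ : M} (hp : IsWeightedHomogeneous (tw w) p τ) (h : eval (0 : Fin (n + 1) → ℂ) p ≠ 0) :
    ∃ c : ℂ, c ≠ 0 ∧ p = C c := by
  have h1 : coeff 0 p ≠ 0 := by
    rw [← constantCoeff_eq]
    intro h0
    apply h
    rw [MvPolynomial.eval_zero, h0]
  have h2 : (0 : M) = τ := by
    have := hp h1
    rwa [map_zero] at this
  refine ⟨coeff 0 p, h1, ?_⟩
  ext u
  rw [coeff_C]
  split_ifs with hu
  · rw [hu]
  · by_contra hne
    apply hu
    have h3 := congrArg Prod.fst (hp hne)
    rw [weight_fst, ← h2] at h3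
    have h3' : ∑ i, (u i : ℤ) = 0 := h3
    have h4 : ∑ i, u i = 0 := by exact_mod_cast h3'
    ext i
    rw [Finset.sum_eq_zero_iff] at h4
    rw [h4 i (Finset.mem_univ i)]
    rfl

theorem eval_single_of {n : ℕ} (k : Fin (n + 1)) {p : MvPolynomial (Fin (n + 1)) ℂ}
    (h : ∀ u ∈ p.support, u k = 0) :
    eval (Pi.single k 1 : Fin (n + 1) → ℂ) p = eval (0 : Fin (n + 1) → ℂ) p := by
  rw [eval_eq, eval_eq]
  refine Finset.sum_congr rfl fun u hu => ?_
  congr 1
  refine Finset.prod_congr rfl fun i _ => ?_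
  by_cases hi : i = k
  · subst hi
    rw [h u hu, pow_zero, pow_zero]
  · rw [Pi.single_eq_of_ne hi, Pi.zero_apply]

/-- all weights but one are equal. -/
theorem fixed_hyperplane {m : ℕ} (hm : 2 ≤ m) {E : Bundle2 (m + 1)}
    {w : Fin (m + 2) → ℤ × ℤ} (D : EqB E w) (k : Fin (m + 2)) (χ : M →+ ℤ)
    (hχ : ∀ i, i ≠ k → χ (tw w i) = 0) (hk : χ (tw w k) ≠ 0) : E.Splits := by
  by_contra hE
  -- the restriction to the hyperplane
  set f : Fin (m + 1) → Fin (m + 2) := k.succAbove with hf
  have hfi : Function.Injective f := Fin.succAbove_right_injective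
  set D' := D.pull (cInc f) (cInc_injective f hfi) (w ∘ f) (cInc_weight f w) with hD'
  have hE' : ¬ (E.pull (cInc f) (cInc_injective f hfi)).Splits := fun h =>
    hE (splits_of_cInc hm (Nat.le_succ m) E f hfi h)
  obtain ⟨W'⟩ := exists_wedge (by omega) D'
  obtain ⟨W⟩ := exists_wedge (by omega) D
  obtain ⟨l, -, hl⟩ := isotypic W' (by omega) hE' χ (fun i => hχ (f i) (Fin.succAbove_ne k i))
  -- sections with nonzero restriction have type l
  have key : ∀ (τ : M) (G : Vec E.a (m + 1)), HSec D τ G → Prm G → χ τ = l := by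
    intro τ G hG hp
    have h1 : HSec D' τ (fun i => lsub (cInc f) (G i)) := hG.pull _ _ _ _
    refine hl τ _ h1 ?_
    by_contra hc
    push Not at hc
    have h2 : IsUnit (X k : MvPolynomial (Fin (m + 2)) ℂ) :=
      hp _ fun i => X_dvd_of_lsub k (hc i)
    exact (X_prime (i := k) (R := ℂ)).not_isUnit h2
  -- the type of the wedge product
  obtain ⟨τ, τ', G, G', hG, hG', hp⟩ := exists_ne W (D := D) (Pi.single k 1)
    (fun h => by simpa using congrFun h k)
  have h0 : W.wd G G' ≠ 0 := fun h0 => hp (by rw [h0, map_zero])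
  obtain ⟨δ, g, s, hg0, hg, hs, hsp, hGs⟩ := exists_prm hG (ne_of_wd_left W hG.ker hG'.ker h0)
  obtain ⟨δ', g', s', hg0', hg', hs', hsp', hGs'⟩ :=
    exists_prm hG' (ne_of_wd_right W hG.ker hG'.ker h0)
  have h1 : eval (Pi.single k 1 : Fin (m + 2) → ℂ) (W.wd s s') ≠ 0 := by
    intro h1
    apply hp
    rw [wd_of_mul_left W hs.ker hG'.ker hGs, wd_of_mul_right W hs'.ker hs.ker hGs',
      map_mul, map_mul, h1]
    simp
  have hk1 := key _ _ hs hsp
  have hk2 := key _ _ hs' hsp'
  have hW := W.hom _ _ _ _ hs hs'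
  -- the type of the determinant
  have hlk : l + l + χ W.κ = 0 := by
    obtain ⟨μ, μ', H, H', hH, hH', h2⟩ := exists_ne W (D := D) (Pi.single (f 0) 1)
      (fun h => by simpa using congrFun h (f 0))
    have h3 : W.wd H H' ≠ 0 := fun h3 => h2 (by rw [h3, map_zero])
    have h4 : ∀ (μ : M) (H : Vec E.a (m + 1)), HSec D μ H →
        evv H (Pi.single (f 0) 1) ≠ 0 → χ μ = l := by
      intro μ H hH hne
      have h1 : HSec D' μ (fun i => lsub (cInc f) (H i)) := hH.pull _ _ _ _
      refine hl μ _ h1 ?_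
      by_contra hc
      push Not at hc
      apply hne
      rw [← cInc_single, ← evv_lsub]
      funext i
      show eval _ (lsub (cInc f) (H i)) = 0
      rw [hc i, map_zero]
    have h5 := (W.ind _ (fun h => by simpa using congrFun h (f 0)) H H' hH.ker hH'.ker).1 h2
    have h6 : evv H (Pi.single (f 0) 1) ≠ 0 := h5.ne_zero 0
    have h7 : evv H' (Pi.single (f 0) 1) ≠ 0 := h5.ne_zero 1
    have h8 := W.hom _ _ _ _ hH hH'
    obtain ⟨u, hu, huk⟩ : ∃ u ∈ (W.wd H H').support, u k = 0 := by
      by_contra hc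
      push Not at hc
      apply h2
      rw [eval_eq']
      refine Finset.sum_eq_zero fun u hu => ?_
      have h9 : ∏ i, (Pi.single (f 0) 1 : Fin (m + 2) → ℂ) i ^ u i = 0 := by
        refine Finset.prod_eq_zero (Finset.mem_univ k) ?_
        rw [Pi.single_eq_of_ne (Fin.succAbove_ne k 0).symm]
        exact zero_pow (hc u hu)
      rw [h9, mul_zero]
    have h9 := h8 (mem_support_iff.1 hu)
    have h10 := congrArg χ h9
    rw [weight_chi, Finset.sum_eq_zero, map_add, map_add, h4 μ H hH h6, h4 μ' H' hH' h7] at h10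
    · exact h10.symm
    · intro i _
      by_cases hi : i = k
      · rw [hi, huk, zero_smul]
      · rw [hχ i hi, smul_zero]
  have h2 : ∀ u ∈ (W.wd s s').support, u k = 0 := by
    intro u hu
    have h9 := congrArg χ (hW (mem_support_iff.1 hu))
    rw [weight_chi, Finset.sum_eq_single k, map_add, map_add, hk1, hk2, hlk] at h9
    · rcases smul_eq_zero.1 h9 with h10 | h10
      · exact h10
      · exact absurd h10 hk
    · intro i _ hi
      rw [hχ i hi, smul_zero]
    · intro h; exact absurd (Finset.mem_univ k) h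
  rw [eval_single_of k h2] at h1
  obtain ⟨c, hc, h3⟩ := const_of_eval_zero hW h1
  exact hE (splits_of_const W hs hs' c hc h3)

/-- **Theorem A.**  Three coordinates of equal weight, and another weight. -/
theorem three_equal {n : ℕ} (hn : 3 ≤ n) {E : Bundle2 n} {w : Fin (n + 1) → ℤ × ℤ}
    (D : EqB E w) {i₀ i₁ i₂ j : Fin (n + 1)} (h01 : i₀ ≠ i₁) (h02 : i₀ ≠ i₂) (h12 : i₁ ≠ i₂)
    (h1 : w i₁ = w i₀) (h2 : w i₂ = w i₀) (hj : (w j).1 ≠ (w i₀).1) : E.Splits := by
  have hj0 : i₀ ≠ j := by rintro rfl; exact hj rfl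
  have hj1 : i₁ ≠ j := by rintro rfl; exact hj (by rw [h1])
  have hj2 : i₂ ≠ j := by rintro rfl; exact hj (by rw [h2])
  let f : Fin 4 → Fin (n + 1) := ![i₀, i₁, i₂, j]
  have hf : Function.Injective f := by
    intro a b hab
    fin_cases a <;> fin_cases b <;> simp [f] at hab ⊢ <;> first | exact h01 hab | exact h02 hab | exact h12 hab | exact hj0 hab | exact hj1 hab | exact hj2 hab | exact h01 hab.symm | exact h02 hab.symm | exact h12 hab.symm | exact hj0 hab.symm | exact hj1 hab.symm | exact hj2 hab.symm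
  refine splits_of_cInc (by norm_num) hn E f hf ?_
  let χ : M →+ ℤ := AddMonoidHom.mk' (fun τ => τ.2.1 - (w i₀).1 * τ.1) (by
    intro a b
    simp only [Prod.fst_add, Prod.snd_add]
    ring)
  have hχ : ∀ i, χ (tw (w ∘ f) i) = (w (f i)).1 - (w i₀).1 := by
    intro i
    show (w (f i)).1 - (w i₀).1 * 1 = _
    rw [mul_one]
  refine fixed_hyperplane (le_refl 2) (D.pull (cInc f) (cInc_injective f hf) (w ∘ f)
    (cInc_weight f w)) 3 χ ?_ ?_
  · intro i hi
    rw [hχ]
    fin_cases i
    · show (w i₀).1 - _ = 0; ring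
    · show (w i₁).1 - _ = 0; rw [h1]; ring
    · show (w i₂).1 - _ = 0; rw [h2]; ring
    · exact absurd rfl hi
  · rw [hχ]
    show (w j).1 - _ ≠ 0
    exact sub_ne_zero.2 hj

end Pool.Agent.W615
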