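import Pool.Agent.W615.NA9
import Pool.Agent.W615.Elation7

/-!
# The action of a lift on the fibre at a fixed point (helper615)
-/

set_option autoImplicit false
set_option maxHeartbeats 400000

open MvPolynomial H960VB H938TB

namespace Pool.Agent.W615

section
variable {n : ℕ} {w : Fin (n + 1) → ℤ × ℤ} {E : Bundle2 n} {D : EqB E w} {ω : M} {δ : Der n}

/-- the lift acts on the values at `x` of the sections by a scalar. -/
def Sc (L : Lft D ω δ) (x : Fin (n + 1) → ℂ) : Prop :=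
  ∃ c : ℂ, ∀ G, Ker E G → evv (L.op G) x = c • evv G x

theorem op_eval (L : Lft D ω δ) {x : Fin (n + 1) → ℂ} (hx : ∀ p, eval x (δ p) = 0)
    (G : Vec E.a n) (i : Fin E.a) :
    evv (L.op G) x i = ∑ j, eval x (L.ν i j) * evv G x j := by
  show eval x (δ (G i) + ∑ j, L.ν i j * G j) = _
  rw [map_add, hx, zero_add, map_sum]
  exact Finset.sum_congr rfl fun j _ => by rw [map_mul]; rfl

theorem span_pt (W : Wedge D) {x : Fin (n + 1) → ℂ} {G₁ G₂ G : Vec E.a n} (h₁ : Ker E G₁)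
    (h₂ : Ker E G₂) (hG : Ker E G) (h : eval x (W.wd G₁ G₂) ≠ 0) :
    ∃ a b : ℂ, evv G x = a • evv G₁ x + b • evv G₂ x := by
  refine ⟨-(eval x (W.wd G₂ G)) / eval x (W.wd G₁ G₂), eval x (W.wd G₁ G) / eval x (W.wd G₁ G₂),
    ?_⟩
  funext i
  have h1 := congrArg (eval x) (W.three G₁ G₂ G h₁ h₂ hG i)
  rw [map_add, map_sub, map_mul, map_mul, map_mul, map_zero] at h1
  show eval x (G i) = _ * eval x (G₁ i) + _ * eval x (G₂ i)
  field_simp
  linear_combination h1

/-- a criterion for the action to be scalar. -/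
theorem sc_of (L : Lft D ω δ) (W : Wedge D) {x : Fin (n + 1) → ℂ} (hx : ∀ p, eval x (δ p) = 0)
    {G₁ G₂ : Vec E.a n} (h₁ : Ker E G₁) (h₂ : Ker E G₂) (h : eval x (W.wd G₁ G₂) ≠ 0) (c : ℂ)
    (e₁ : evv (L.op G₁) x = c • evv G₁ x) (e₂ : evv (L.op G₂) x = c • evv G₂ x)
    (G : Vec E.a n) (hG : Ker E G) : evv (L.op G) x = c • evv G x := by
  obtain ⟨a, b, hab⟩ := span_pt W h₁ h₂ hG h
  funext i
  have k1 := congrFun e₁ i
  have k2 := congrFun e₂ i
  rw [op_eval L hx] at k1 k2 ⊢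
  rw [hab]
  simp only [Pi.add_apply, Pi.smul_apply, smul_eq_mul] at k1 k2 ⊢
  have e : ∑ j, eval x (L.ν i j) * (a * evv G₁ x j + b * evv G₂ x j) =
      a * ∑ j, eval x (L.ν i j) * evv G₁ x j + b * ∑ j, eval x (L.ν i j) * evv G₂ x j := by
    rw [Finset.mul_sum, Finset.mul_sum, ← Finset.sum_add_distrib]
    exact Finset.sum_congr rfl fun j _ => by ring
  rw [e, k1, k2]
  ring

/-- the action of the restriction of a lift to a subspace -/
theorem sc_pull (L : Lft D ω δ) {m : ℕ} (T : (Fin (m + 1) → ℂ) →ₗ[ℂ] (Fin (n + 1) → ℂ))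
    (hT : Function.Injective T) (w' : Fin (m + 1) → ℤ × ℤ)
    (h : ∀ t s, T (Pi.single t 1) s ≠ 0 → w s = w' t) (δ' : Der m)
    (hd : ∀ i, lsub T (δ (X i)) = δ' (lsub T (X i)))
    (hδ' : ∀ i, IsWeightedHomogeneous (tw w') (δ' (X i)) (tw w' i + ω))
    {y : Fin (m + 1) → ℂ} (hs : Sc (L.pull T hT w' h δ' hd hδ') y) : Sc L (T y) := by
  obtain ⟨c, hc⟩ := hs
  refine ⟨c, fun G hG => ?_⟩
  have h1 := hc (fun i => lsub T (G i)) (hG.pull T hT)
  have h2 : (L.pull T hT w' h δ' hd hδ').op (fun i => lsub T (G i)) = fun i => lsub T (L.op G i) :=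
    funext fun i => pull_op _ _ _ _ _ _ _ _ _ _
  rw [h2] at h1
  funext i
  have h3 := congrFun h1 i
  have h4 : eval y (lsub T (L.op G i)) = c * eval y (lsub T (G i)) := h3
  rw [eval_lsub, eval_lsub] at h4
  exact h4

/-- the converse -/
theorem pull_sc (hn : 1 ≤ n) (L : Lft D ω δ) {m : ℕ} (hm : 1 ≤ m)
    (T : (Fin (m + 1) → ℂ) →ₗ[ℂ] (Fin (n + 1) → ℂ))
    (hT : Function.Injective T) (w' : Fin (m + 1) → ℤ × ℤ)
    (h : ∀ t s, T (Pi.single t 1) s ≠ 0 → w s = w' t) (δ' : Der m)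
    (hd : ∀ i, lsub T (δ (X i)) = δ' (lsub T (X i)))
    (hδ' : ∀ i, IsWeightedHomogeneous (tw w') (δ' (X i)) (tw w' i + ω))
    {y : Fin (m + 1) → ℂ} (hy : y ≠ 0) (hfix : ∀ p, eval y (δ' p) = 0) (hs : Sc L (T y)) :
    Sc (L.pull T hT w' h δ' hd hδ') y := by
  obtain ⟨c, hc⟩ := hs
  obtain ⟨W⟩ := exists_wedge hn D
  obtain ⟨W'⟩ := exists_wedge hm (D.pull T hT w' h)
  have hTy : T y ≠ 0 := fun h => hy (hT (h.trans (map_zero _).symm))
  obtain ⟨τ₁, τ₂, G₁, G₂, h₁, h₂, hu⟩ := exists_ne W (D := D) (T y) hTy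
  have k₁ : Ker (E.pull T hT) (fun i => lsub T (G₁ i)) := h₁.ker.pull T hT
  have k₂ : Ker (E.pull T hT) (fun i => lsub T (G₂ i)) := h₂.ker.pull T hT
  have hu' : eval y (W'.wd (fun i => lsub T (G₁ i)) (fun i => lsub T (G₂ i))) ≠ 0 := by
    have h3 := (W.ind (T y) hTy G₁ G₂ h₁.ker h₂.ker).1 hu
    have e1 : evv (fun i => lsub T (G₁ i)) y = evv G₁ (T y) := by
      funext i
      exact eval_lsub _ _ _
    have e2 : evv (fun i => lsub T (G₂ i)) y = evv G₂ (T y) := by
      funext i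
      exact eval_lsub _ _ _
    have h5 : LinearIndependent ℂ ![evv (fun i => lsub T (G₁ i)) y,
        evv (fun i => lsub T (G₂ i)) y] := by
      rw [e1, e2]
      exact h3
    exact (W'.ind y hy _ _ k₁ k₂).2 h5
  have key : ∀ G, Ker E G → evv ((L.pull T hT w' h δ' hd hδ').op (fun i => lsub T (G i))) y =
      c • evv (fun i => lsub T (G i)) y := by
    intro G hG
    have h2 : (L.pull T hT w' h δ' hd hδ').op (fun i => lsub T (G i)) =
        fun i => lsub T (L.op G i) := funext fun i => pull_op _ _ _ _ _ _ _ _ _ _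
    rw [h2]
    funext i
    have h3 := congrFun (hc G hG) i
    show eval y (lsub T (L.op G i)) = c * eval y (lsub T (G i))
    rw [eval_lsub, eval_lsub]
    exact h3
  exact ⟨c, fun G hG => sc_of _ W' hfix k₁ k₂ hu' c (key G₁ h₁.ker) (key G₂ h₂.ker) G hG⟩

end

theorem δ3_fix (p : MvPolynomial (Fin (2 + 1)) ℂ) :
    eval (Pi.single 0 1 : Fin 3 → ℂ) (δ3 p) = 0 := by
  rw [δ3_eq]
  simp

/-- **Lemma N'**, invariant form: the action at the fixed point is not scalar. -/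
theorem not_sc {E : Bundle2 2} (hE : ¬ E.Splits) (L : Lft (triv E) 0 δ3) :
    ¬ Sc L (Pi.single 0 1 : Fin 3 → ℂ) := by
  rintro ⟨c, hc⟩
  obtain ⟨G, hG, h⟩ := lemma_N hE (L.shift c)
  apply h
  funext i
  show eval _ ((L.shift c).op G i) = 0
  rw [Lft.shift_op, map_sub, map_mul, eval_C]
  have h1 := congrFun (hc G hG) i
  have h2 : eval (Pi.single 0 1 : Fin 3 → ℂ) (L.op G i) =
    c * eval (Pi.single 0 1 : Fin 3 → ℂ) (G i) := h1
  rw [h2, sub_self]

section
variable {n : ℕ} {E : Bundle2 n} {N : Matrix (Fin (n + 1)) (Fin (n + 1)) ℂ}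

/-- at the end of a string of length three the action is not scalar. -/
theorem not_sc_string (hE : ¬ E.Splits) (L : Lft (triv E) 0 (vf N)) {u : Fin (n + 1) → ℂ}
    (h3 : N.mulVec (N.mulVec (N.mulVec u)) = 0) (h2 : N.mulVec (N.mulVec u) ≠ 0) :
    ¬ Sc L (N.mulVec (N.mulVec u)) := by
  set v := N.mulVec (N.mulVec u) with hv
  set c₁ := N.mulVec u with hc₁
  have hli : LinearIndependent ℂ ![v, c₁, u] := by
    rw [Fintype.linearIndependent_iff]
    intro g hg
    rw [Fin.sum_univ_three] at hg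
    simp only [Matrix.cons_val] at hg
    have h1 := congrArg N.mulVec hg
    rw [Matrix.mulVec_add, Matrix.mulVec_add, Matrix.mulVec_smul, Matrix.mulVec_smul,
      Matrix.mulVec_smul, h3, ← hv, ← hc₁, Matrix.mulVec_zero, smul_zero, zero_add] at h1
    have h4 := congrArg N.mulVec h1
    rw [Matrix.mulVec_add, Matrix.mulVec_smul, Matrix.mulVec_smul, h3, ← hv,
      Matrix.mulVec_zero, smul_zero, zero_add] at h4
    have g2 : g 2 = 0 := (smul_eq_zero.1 h4).resolve_right h2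
    rw [g2, zero_smul, add_zero] at h1 hg
    have g1 : g 1 = 0 := (smul_eq_zero.1 h1).resolve_right h2
    rw [g1, zero_smul, add_zero] at hg
    have g0 : g 0 = 0 := (smul_eq_zero.1 hg).resolve_right h2
    intro i
    fin_cases i
    · exact g0
    · exact g1
    · exact g2
  let T : (Fin (2 + 1) → ℂ) →ₗ[ℂ] (Fin (n + 1) → ℂ) := Fintype.linearCombination ℂ ![v, c₁, u]
  have hT : Function.Injective T := hli.fintypeLinearCombination_injective
  have hTs : ∀ t, T (Pi.single t 1) = ![v, c₁, u] t := by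
    intro t
    simp only [T]
    rw [Fintype.linearCombination_apply_single, one_smul]
  have hn : 2 ≤ n := by
    have h3 := LinearMap.finrank_le_finrank_of_injective hT
    rw [Module.finrank_fintype_fun_eq_card, Module.finrank_fintype_fun_eq_card, Fintype.card_fin,
      Fintype.card_fin] at h3
    omega
  have hd : ∀ i, lsub T (vf N (X i)) = δ3 (lsub T (X i)) := by
    intro i
    rw [lsub_vf, lsub_X, map_sum]
    show ∑ t : Fin 3, _ = ∑ t : Fin 3, _
    rw [Fin.sum_univ_three, Fin.sum_univ_three, hTs, hTs, hTs]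
    show C (N.mulVec v i) * X 0 + C (N.mulVec c₁ i) * X 1 + C (N.mulVec u i) * X 2 =
      δ3 (C (v i) * X 0) + δ3 (C (c₁ i) * X 1) + δ3 (C (u i) * X 2)
    rw [h3, ← hv, ← hc₁, Derivation.leibniz, Derivation.leibniz, Derivation.leibniz, δ3_C, δ3_C,
      δ3_C, δ3_X0, δ3_X1, δ3_X2]
    simp
  have hδ' : ∀ i, IsWeightedHomogeneous (tw (0 : Fin (2 + 1) → ℤ × ℤ)) (δ3 (X i))
      (tw (0 : Fin (2 + 1) → ℤ × ℤ) i + 0) := by
    intro i
    rw [add_zero]
    fin_cases i
    · show IsWeightedHomogeneous _ (δ3 (X 0)) _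
      rw [δ3_X0]
      exact isWeightedHomogeneous_X _ _ _
    · show IsWeightedHomogeneous _ (δ3 (X 1)) _
      rw [δ3_X1]
      exact isWeightedHomogeneous_X _ _ _
    · show IsWeightedHomogeneous _ (δ3 (X 2)) _
      rw [δ3_X2]
      exact isWeightedHomogeneous_zero _ _ _
  have hE' : ¬ (E.pull T hT).Splits := fun h =>
    hE (Bundle2.splits_of_pull (n - 2) 2 n (le_refl 2) (by omega) E T hT h)
  intro hs
  rw [show v = T (Pi.single 0 1) from (hTs 0).symm] at hs
  exact not_sc hE' _ (pull_sc (by omega) L (by norm_num) T hT 0 (fun _ _ _ => rfl) δ3 hd hδ'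
    (e0_ne 2) δ3_fix hs)

end

end Pool.Agent.W615
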