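import Pool.Agent.W615.Y11

/-!
# The eigenvalues of a lift on the fibre at a fixed point (helper615)
-/

set_option autoImplicit false
set_option maxHeartbeats 800000

open MvPolynomial H960VB H938TB

namespace Pool.Agent.W615

variable {n : ℕ} {E : Bundle2 n} {N : Matrix (Fin (n + 1)) (Fin (n + 1)) ℂ}

theorem vf_one_homZ {p : MvPolynomial (Fin (n + 1)) ℂ} {e : ℤ} (hp : HomZ p e) :
    vf 1 p = C (e : ℂ) * p := by
  have h3 : IsWeightedHomogeneous (fun _ : Fin (n + 1) => (1 : ℂ)) p (e : ℂ) := by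
    rcases hp with h4 | ⟨k, hk, h4⟩
    · rw [h4]
      exact isWeightedHomogeneous_zero _ _ _
    · intro u hu
      have h5 := h4 hu
      rw [← hk, ← h5, Finsupp.weight_apply, Finsupp.weight_apply,
        Finsupp.sum_fintype _ _ (by simp), Finsupp.sum_fintype _ _ (by simp)]
      simp
  have h6 := eig_of_wh h3
  have h7 : Matrix.diagonal (fun _ : Fin (n + 1) => (1 : ℂ)) = 1 := Matrix.diagonal_one
  rwa [h7] at h6

theorem eval_vf (N : Matrix (Fin (n + 1)) (Fin (n + 1)) ℂ) (p : MvPolynomial (Fin (n + 1)) ℂ)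
    (z : Fin (n + 1) → ℂ) :
    eval z (vf N p) = ∑ s, eval z (pderiv s p) * N.mulVec z s := by
  rw [vf_eq_sum, map_sum]
  refine Finset.sum_congr rfl fun s _ => ?_
  rw [map_mul, map_sum]
  congr 1
  simp only [Matrix.mulVec, dotProduct, map_mul, eval_C, eval_X]

/-- Euler's relation at an eigenvector -/
theorem eval_vf_eigen {p : MvPolynomial (Fin (n + 1)) ℂ} {e : ℤ} (hp : HomZ p e)
    {z : Fin (n + 1) → ℂ} {v : ℂ} (hz : N.mulVec z = v • z) :
    eval z (vf N p) = v * e * eval z p := by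
  have h1 : eval z (vf N p) = v * eval z (vf 1 p) := by
    rw [eval_vf, eval_vf, hz, Matrix.one_mulVec, Finset.mul_sum]
    refine Finset.sum_congr rfl fun s _ => ?_
    rw [Pi.smul_apply, smul_eq_mul]
    ring
  rw [h1, vf_one_homZ hp, map_mul, eval_C]
  ring

section linalg

variable {V : Type*} [AddCommGroup V] [Module ℂ V] {T : V →ₗ[ℂ] V} {f f' : V →ₗ[ℂ] ℂ}
  {c c' ν ε ε' : ℂ}

theorem la_pow (hf : ∀ U, f (T U) = c * f U) (ε : ℂ) : ∀ (k : ℕ) (U : V),
    f (((T - ε • 1) ^ k) U) = (c - ε) ^ k * f U := by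
  intro k
  induction k with
  | zero =>
    intro U
    rw [pow_zero, pow_zero, one_mul, Module.End.one_apply]
  | succ k ih =>
    intro U
    have e1 : ((T - ε • 1) ^ (k + 1)) U = ((T - ε • 1) ^ k) ((T - ε • 1) U) := by
      rw [pow_succ, Module.End.mul_apply]
    rw [e1, ih, LinearMap.sub_apply, LinearMap.smul_apply, Module.End.one_apply, map_sub, map_smul,
      hf, smul_eq_mul, pow_succ]
    ring

theorem la_one (hf : ∀ U, f (T U) = c * f U) {k : ℕ} {U : V} (hU : ((T - ε • 1) ^ k) U = 0) :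
    f U = 0 ∨ ε = c := by
  by_cases h0 : f U = 0
  · exact Or.inl h0
  · right
    have h5 := la_pow hf ε k U
    rw [hU, map_zero] at h5
    have h7 : (c - ε) ^ k = 0 := (mul_eq_zero.1 h5.symm).resolve_right h0
    have h8 : c - ε = 0 := by
      by_contra h
      exact pow_ne_zero k h h7
    linear_combination -h8

theorem la_two (hf : ∀ U, f (T U) = c * f U) (hf' : ∀ U, f' (T U) = c' * f' U - ν * f U)
    {k : ℕ} {U : V} (hU : ((T - ε • 1) ^ k) U = 0) (h0 : f U = 0) : f' U = 0 ∨ ε = c' := by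
  have key : ∀ (k : ℕ) (U : V), f U = 0 → f' (((T - ε • 1) ^ k) U) = (c' - ε) ^ k * f' U := by
    intro k
    induction k with
    | zero =>
      intro U _
      rw [pow_zero, pow_zero, one_mul, Module.End.one_apply]
    | succ k ih =>
      intro U hU
      have e1 : ((T - ε • 1) ^ (k + 1)) U = ((T - ε • 1) ^ k) ((T - ε • 1) U) := by
        rw [pow_succ, Module.End.mul_apply]
      have e2 : f ((T - ε • 1) U) = 0 := by
        rw [LinearMap.sub_apply, LinearMap.smul_apply, Module.End.one_apply, map_sub, map_smul,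
          hf, hU, mul_zero, smul_zero, sub_zero]
      rw [e1, ih _ e2, LinearMap.sub_apply, LinearMap.smul_apply, Module.End.one_apply, map_sub,
        map_smul, hf', hU, mul_zero, sub_zero, smul_eq_mul, pow_succ]
      ring
  by_cases h1 : f' U = 0
  · exact Or.inl h1
  · right
    have h5 := key k U h0
    rw [hU, map_zero] at h5
    have h7 : (c' - ε) ^ k = 0 := (mul_eq_zero.1 h5.symm).resolve_right h1
    have h8 : c' - ε = 0 := by
      by_contra h
      exact pow_ne_zero k h h7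
    linear_combination -h8

theorem la_pair (hf : ∀ U, f (T U) = c * f U) (hf' : ∀ U, f' (T U) = c' * f' U - ν * f U)
    {k k' : ℕ} {U U' : V} (hU : ((T - ε • 1) ^ k) U = 0) (hU' : ((T - ε' • 1) ^ k') U' = 0)
    (h : f U * f' U' - f U' * f' U ≠ 0) : ε - ε' = c' - c ∨ ε' - ε = c' - c := by
  by_cases h0 : f U = 0
  · left
    have h1 : f U' * f' U ≠ 0 := fun h1 => h (by rw [h0, h1]; ring)
    rw [(la_two hf hf' hU h0).resolve_left (right_ne_zero_of_mul h1),
      (la_one hf hU').resolve_left (left_ne_zero_of_mul h1)]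
  · by_cases h0' : f U' = 0
    · right
      have h1 : f U * f' U' ≠ 0 := fun h1 => h (by rw [h0', h1]; ring)
      rw [(la_two hf hf' hU' h0').resolve_left (right_ne_zero_of_mul h1),
        (la_one hf hU).resolve_left (left_ne_zero_of_mul h1)]
    · have e1 := (la_one hf hU).resolve_left h0
      have e2 := (la_one hf hU').resolve_left h0'
      subst e1
      subst e2
      left
      have a1 : ((T - ε' • 1) ^ (k + k')) U = 0 := by
        rw [add_comm, pow_add, Module.End.mul_apply, hU, map_zero]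
      have a2 : ((T - ε' • 1) ^ (k + k')) U' = 0 := by
        rw [pow_add, Module.End.mul_apply, hU', map_zero]
      have a3 : ((T - ε' • 1) ^ (k + k')) (f U' • U - f U • U') = 0 := by
        rw [map_sub, map_smul, map_smul, a1, a2, smul_zero, smul_zero, sub_zero]
      have a4 : f (f U' • U - f U • U') = 0 := by
        rw [map_sub, map_smul, map_smul, smul_eq_mul, smul_eq_mul]
        ring
      have a5 := (la_two hf hf' a3 a4).resolve_left (by
        rw [map_sub, map_smul, map_smul, smul_eq_mul, smul_eq_mul]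
        intro h1
        apply h
        linear_combination -h1)
      rw [sub_self, ← a5, sub_self]

end linalg

theorem fib_lin (O : Op E N) (W : Wedge (triv E)) {θ : ℂ}
    (hθ : ∀ (a b : ℤ) (s t : Vec E.a n), Sec E a s → Sec E b t →
      W.wd (O.D s) t + W.wd s (O.D t) = vf N (W.wd s t) + C θ * W.wd s t)
    {z : Fin (n + 1) → ℂ} (hz0 : z ≠ 0) {v : ℂ} (hz : N.mulVec z = v • z) {d d' : ℤ}
    {G G' : Vec E.a n} (hG : Sec E d G) (hG' : Sec E d' G') {μ ν : ℂ}
    (hμ : evv (O.D G) z = μ • evv G z + ν • evv G' z) {e : ℤ} (U : S0 E e) :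
    eval z (W.wd G (O.D U)) =
      (v * ((d + e + W.κ.1 : ℤ) : ℂ) + θ - μ) * eval z (W.wd G U) - ν * eval z (W.wd G' U) := by
  have h2 := congrArg (eval z) (hθ d e G U hG U.2)
  rw [map_add, map_add, map_mul, eval_C, eval_vf_eigen (wd_homZ W hG U.2) hz] at h2
  have h3 : eval z (W.wd (O.D G) U) = μ * eval z (W.wd G U) + ν * eval z (W.wd G' U) := by
    obtain ⟨i, j, hij⟩ := W.P_ne z hz0
    apply mul_right_cancel₀ hij
    have b1 := wd_P_eval W (O.sec d G hG).ker U.2.ker z i j
    have b2 := wd_P_eval W hG.ker U.2.ker z i j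
    have b3 := wd_P_eval W hG'.ker U.2.ker z i j
    have a1 : eval z (O.D G i) = μ * eval z (G i) + ν * eval z (G' i) := congrFun hμ i
    have a2 : eval z (O.D G j) = μ * eval z (G j) + ν * eval z (G' j) := congrFun hμ j
    rw [a1, a2] at b1
    linear_combination -b1 + μ * b2 + ν * b3
  rw [h3] at h2
  linear_combination h2

/-- a Plücker presentation, with the generalised weights and the weights on a fixed fibre -/
theorem exists_fam_g (hn : 1 ≤ n) (O : Op E N) {z : Fin (n + 1) → ℂ} (hz0 : z ≠ 0) {v : ℂ}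
    (hz : N.mulVec z = v • z) {d d' : ℤ} {G G' : Vec E.a n} (hG : Sec E d G) (hG' : Sec E d' G')
    {μ μ' ν : ℂ} (hμ : evv (O.D G) z = μ • evv G z)
    (hμ' : evv (O.D G') z = μ' • evv G' z + ν • evv G z)
    (hli : LinearIndependent ℂ ![evv G z, evv G' z]) :
    ∃ (P : PD n) (ε : Fin P.r → ℂ) (θ : ℂ),
      (P.bun.Splits → E.Splits) ∧
      (∀ i j, ∃ K : ℕ, ((vfl N - (ε i + ε j - θ) • 1) ^ K) (P.Q i j) = 0) ∧
      (∀ i j, eval z (P.Q i j) ≠ 0 →
        ε i - ε j = (μ - d * v) - (μ' - d' * v) ∨ ε j - ε i = (μ - d * v) - (μ' - d' * v)) := by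
  obtain ⟨W⟩ := exists_wedge hn (triv E)
  obtain ⟨θ, hθ⟩ := O.trace W hn
  obtain ⟨e, hd⟩ := exists_deg W
  obtain ⟨r, u, ε, k, hk, hspan⟩ := exists_ge_family (O.lin e)
  have hgen : ∀ x : Fin (n + 1) → ℂ, x ≠ 0 → ∃ i j : Fin r, eval x (W.wd (u i) (u j)) ≠ 0 := by
    intro x hx
    obtain ⟨G, G', hG, hG', h⟩ := hd x hx
    by_contra hc
    push Not at hc
    apply h
    let F : S0 E e →ₗ[ℂ] S0 E e →ₗ[ℂ] ℂ := (wdB W e e).compr₂
      (aeval x : MvPolynomial (Fin (n + 1)) ℂ →ₐ[ℂ] ℂ).toLinearMap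
    have hF : F = 0 := by
      refine LinearMap.ext_on_range hspan fun i => LinearMap.ext_on_range hspan fun j => ?_
      exact hc i j
    have h1 := congrArg (fun f : S0 E e →ₗ[ℂ] S0 E e →ₗ[ℂ] ℂ => f ⟨G, hG⟩ ⟨G', hG'⟩) hF
    exact h1
  let P : PD n :=
    { r := r
      Q := fun i j => W.wd (u i) (u j)
      e := e + e + W.κ.1
      hom := fun i j => wd_homZ W (u i).2 (u j).2
      anti := fun i j => W.anti _ _ (u i).2.ker (u j).2.ker
      four := fun i j k l => W.four _ _ _ _ (u i).2.ker (u j).2.ker (u k).2.ker (u l).2.ker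
      gen := hgen }
  have hβ : ∀ (d d' : ℤ) (a : S0 E d) (b : S0 E d'), wdB W d d' (O.lin d a) b +
      wdB W d d' a (O.lin d' b) = vfl N (wdB W d d' a b) + θ • wdB W d d' a b := by
    intro d d' a b
    rw [smul_eq_C_mul]
    exact hθ d d' a b a.2 b.2
  refine ⟨P, ε, θ, ?_, ?_, ?_⟩
  · exact splits_transfer W hn P (s := fun j => (u j : Vec E.a n)) (fun j => (u j).2)
      (fun i j => rfl)
  · intro i j
    exact ⟨k i + k j, ge_bilin (O.lin e) (O.lin e) (vfl N) (wdB W e e) θ (hβ e e) (ε i) (ε j)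
      (k i + k j) (k i) (k j) (u i) (u j) le_rfl (hk i) (hk j)⟩
  · intro i j hij
    have hij' : eval z (W.wd (u i) (u j)) ≠ 0 := hij
    have hGG : eval z (W.wd G G') ≠ 0 := by
      rw [T3aux.li_iff] at hli
      obtain ⟨a, b, hab⟩ := hli
      have h1 := wd_P_eval W hG.ker hG'.ker z a b
      intro h0
      rw [h0, zero_mul] at h1
      apply hab
      have h2 : evv G z a * evv G' z b - evv G z b * evv G' z a = 0 := h1
      linear_combination h2
    have h4 := congrArg (eval z) (W.four G G' (u i) (u j) hG.ker hG'.ker (u i).2.ker (u j).2.ker)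
    rw [map_add, map_sub, map_mul, map_mul, map_mul, map_zero] at h4
    let f : S0 E e →ₗ[ℂ] ℂ :=
      (aeval z : MvPolynomial (Fin (n + 1)) ℂ →ₐ[ℂ] ℂ).toLinearMap ∘ₗ wdB W d e ⟨G, hG⟩
    let f' : S0 E e →ₗ[ℂ] ℂ :=
      (aeval z : MvPolynomial (Fin (n + 1)) ℂ →ₐ[ℂ] ℂ).toLinearMap ∘ₗ wdB W d' e ⟨G', hG'⟩
    have hf : ∀ U, f (O.lin e U) = (v * ((d + e + W.κ.1 : ℤ) : ℂ) + θ - μ) * f U := by
      intro U
      have h5 := fib_lin O W hθ hz0 hz hG hG' (μ := μ) (ν := 0) (by rw [hμ, zero_smul, add_zero]) U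
      rw [zero_mul, sub_zero] at h5
      exact h5
    have hf' : ∀ U, f' (O.lin e U) =
        (v * ((d' + e + W.κ.1 : ℤ) : ℂ) + θ - μ') * f' U - ν * f U := fun U =>
      fib_lin O W hθ hz0 hz hG' hG hμ' U
    have h6 : f (u i) * f' (u j) - f (u j) * f' (u i) ≠ 0 := by
      intro h7
      have h8 : eval z (W.wd G (u i)) * eval z (W.wd G' (u j)) -
        eval z (W.wd G (u j)) * eval z (W.wd G' (u i)) = 0 := h7
      exact mul_ne_zero hGG hij' (by linear_combination h4 + h8)
    rcases la_pair hf hf' (hk i) (hk j) h6 with h7 | h7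
    · left
      rw [h7]
      push_cast
      ring
    · right
      rw [h7]
      push_cast
      ring

end Pool.Agent.W615
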