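import Pool.Agent.W615.GA1

/-!
# The weights of a lift on the fibre at a fixed point: descent (helper615)
-/

set_option autoImplicit false
set_option maxHeartbeats 800000

open MvPolynomial H960VB H938TB

namespace Pool.Agent.W615

variable {n : ℕ} {E : Bundle2 n} {N : Matrix (Fin (n + 1)) (Fin (n + 1)) ℂ}

theorem descend_g (hn : 2 ≤ n) (O : Op E N) {z : Fin (n + 1) → ℂ} (hz0 : z ≠ 0) {v : ℂ}
    (hz : N.mulVec z = v • z) {d d' : ℤ} {G G' : Vec E.a n} (hG : Sec E d G) (hG' : Sec E d' G')
    {μ μ' ν : ℂ} (hμ : evv (O.D G) z = μ • evv G z)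
    (hμ' : evv (O.D G') z = μ' • evv G' z + ν • evv G z)
    (hli : LinearIndependent ℂ ![evv G z, evv G' z])
    {P P' A : Matrix (Fin (n + 1)) (Fin (n + 1)) ℂ}
    {lam : Fin (n + 1) → ℂ} (h1 : P * P' = 1) (h3 : P' * N * P = Matrix.diagonal lam + A)
    (hc : Matrix.diagonal lam * A = A * Matrix.diagonal lam) (hA : IsNilpotent A)
    (φ : ℂ →ₗ[ℚ] ℚ) :
    ∃ (E' : Bundle2 n) (K : ℕ) (w : Fin (n + 1) → ℤ × ℤ) (D : EqB E' w), K ≠ 0 ∧
      (E'.Splits → E.Splits) ∧ (∀ l, ((w l).1 : ℚ) = K * φ (lam l)) ∧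
      (∀ l, (w l).2 = 0) ∧ (∀ i, (D.b i).2 = 0) ∧
      ∀ (W : Wedge D) (V : ℤ), ∃ A B, Ty W (P'.mulVec z) V A B ∧
        |((A - B : ℤ) : ℚ)| = K * |φ ((μ - d * v) - (μ' - d' * v))| := by
  obtain ⟨Q, ε, θ, hQ1, hQ2, hQ3⟩ := exists_fam_g (by omega) O hz0 hz hG hG' hμ hμ' hli
  have hinj : Function.Injective P.mulVecLin := by
    have h2 : P' * P = 1 := mul_eq_one_comm.1 h1
    intro x y hxy
    have h4 := congrArg P'.mulVec hxy
    rw [Matrix.mulVecLin_apply, Matrix.mulVecLin_apply, Matrix.mulVec_mulVec,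
      Matrix.mulVec_mulVec, h2, Matrix.one_mulVec, Matrix.one_mulVec] at h4
    exact h4
  -- common denominators
  obtain ⟨K, hK, hz2⟩ := exists_denom (ι := Fin (n + 1) ⊕ (Fin Q.r ⊕ Unit))
    (fun x => φ (Sum.elim lam (Sum.elim ε (fun _ => θ)) x))
  choose zz hz' using hz2
  set lz : Fin (n + 1) → ℤ := fun l => zz (Sum.inl l) with hlz
  set ez : Fin Q.r → ℤ := fun i => zz (Sum.inr (Sum.inl i)) with hez
  set tz : ℤ := zz (Sum.inr (Sum.inr ())) with htz
  have l1 : ∀ l, (lz l : ℚ) = K * φ (lam l) := fun l => hz' (Sum.inl l)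
  have e1 : ∀ i, (ez i : ℚ) = K * φ (ε i) := fun i => hz' (Sum.inr (Sum.inl i))
  have t1 : (tz : ℚ) = K * φ θ := hz' (Sum.inr (Sum.inr ()))
  have hij0 : ∀ a b, IsWeightedHomogeneous lam (lsub P.mulVecLin (Q.Q a b))
      (ε a + ε b - θ) := by
    intro a b
    obtain ⟨K, hK⟩ := hQ2 a b
    exact (ge_coord h1 h3 hc hA hK).1
  let D : EqB (Q.bun.pull P.mulVecLin hinj) (fun l => (lz l, 0)) :=
    mkEqB _ _ (fun i => (ez i, 0))
      (fun k => (ez (ix Q.r k).1 + ez (ix Q.r k).2.1 + ez (ix Q.r k).2.2 - tz, 0)) (by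
      intro k i u hu
      -- the weights
      have hw : IsWeightedHomogeneous lam (lsub P.mulVecLin (plB Q.Q (ix Q.r k) i))
          (ε (ix Q.r k).1 + ε (ix Q.r k).2.1 + ε (ix Q.r k).2.2 - θ - ε i) := by
        have hij := hij0
        have hite : ∀ (c : Prop) [Decidable c] (p : MvPolynomial (Fin (n + 1)) ℂ) (α : ℂ),
            (c → IsWeightedHomogeneous lam (lsub P.mulVecLin p) α) →
            IsWeightedHomogeneous lam (lsub P.mulVecLin (if c then p else 0)) α := by
          intro c _ p α h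
          split_ifs with hc'
          · exact h hc'
          · rw [map_zero]
            exact isWeightedHomogeneous_zero _ _ _
        unfold plB
        rw [map_add, map_sub]
        refine (IsWeightedHomogeneous.sub (hite _ _ _ fun h => ?_) (hite _ _ _ fun h => ?_)).add
          (hite _ _ _ fun h => ?_)
        · rw [h]
          convert hij _ _ using 1
          ring
        · rw [h]
          convert hij _ _ using 1
          ring
        · rw [h]
          convert hij _ _ using 1
          ring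
      have hwu := hw (mem_support_iff.1 hu)
      ext
      · rw [Prod.fst_sum]
        refine comp_eq φ K lz l1 (x := _) ?_ hwu
        simp only [Prod.fst_sub, map_sub, map_add]
        push_cast
        rw [e1, e1, e1, e1, t1]
        ring
      · rw [Prod.snd_sum]
        simp)
  refine ⟨Q.bun.pull P.mulVecLin hinj, K, fun l => (lz l, 0), D, hK, fun hs => hQ1
    (Bundle2.splits_of_pull 0 n n hn (by omega) _ _ _ hs), l1, fun _ => rfl, fun _ => rfl, ?_⟩
  intro W V
  obtain ⟨i, j, hij⟩ := Q.gen z hz0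
  -- the columns are sections
  have hcol : ∀ j : Fin Q.r, HSec D (Q.e, ez j - tz, 0)
      (fun i => lsub P.mulVecLin (Q.Q i j)) := by
    intro j
    refine ⟨?_, ?_⟩
    · intro i u hu
      have hwu := (hij0 i j) hu
      have hE : (((Q.bun.pull P.mulVecLin hinj).β i, D.b i) : M) + (Q.e, ez j - tz, 0) =
          (Q.e, ez i + (ez j - tz), 0) := by
        show (((0 : ℤ), (ez i, (0 : ℤ))) : M) + (Q.e, ez j - tz, 0) = _
        refine Prod.ext ?_ (Prod.ext ?_ ?_)
        · show 0 + Q.e = Q.e
          rw [zero_add]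
        · rfl
        · show (0 : ℤ) + 0 = 0
          rw [zero_add]
      rw [hE]
      have hfst := weight_fst (fun l => ((lz l, 0) : ℤ × ℤ)) u
      have hdeg : ∑ j, (u j : ℤ) = Q.e := by
        rcases homZ_lsub P.mulVecLin (Q.hom i j) with h | ⟨k, hk, hh⟩
        · rw [h, coeff_zero] at hu
          exact absurd rfl hu
        · have h2 := hh hu
          rw [Finsupp.weight_apply, Finsupp.sum_fintype _ _ (by intro j; simp)] at h2
          rw [← hk, ← h2]
          simp
      refine Prod.ext (hfst.trans hdeg) (Prod.ext ?_ ?_)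
      · rw [Finsupp.weight_apply, Finsupp.sum_fintype _ _ (by simp), Prod.snd_sum, Prod.fst_sum]
        have h5 : ∀ j, ((u j) • tw (fun l => ((lz l, 0) : ℤ × ℤ)) j : M).2.1 =
            (u j : ℤ) * lz j := by
          intro j
          show (u j) • lz j = _
          rw [nsmul_eq_mul]
        simp_rw [h5]
        refine comp_eq φ K lz l1 (x := _) ?_ hwu
        push_cast
        rw [e1, e1, t1, map_sub, map_add]
        ring
      · rw [Finsupp.weight_apply, Finsupp.sum_fintype _ _ (by simp), Prod.snd_sum, Prod.snd_sum]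
        refine Finset.sum_eq_zero fun j _ => ?_
        show (u j) • (0 : ℤ) = 0
        rw [smul_zero]
    · have hker : Ker Q.bun (fun i => Q.Q i j) := by
        refine (Q.ker_iff _).2 fun a b c => ?_
        have h5 := Q.four a b c j
        linear_combination h5
      exact hker.pull _ _
  have hPz : P.mulVecLin (P'.mulVec z) = z := by
    rw [Matrix.mulVecLin_apply, Matrix.mulVec_mulVec, h1, Matrix.one_mulVec]
  have hself : ∀ i, Q.Q i i = 0 := by
    intro i
    have h := Q.anti i i
    have h2 : (2 : MvPolynomial (Fin (n + 1)) ℂ) * Q.Q i i = 0 := by linear_combination h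
    exact (mul_eq_zero.1 h2).resolve_left two_ne_zero
  refine ⟨chi V (Q.e, ez i - tz, 0), chi V (Q.e, ez j - tz, 0),
    ⟨_, _, _, _, hcol i, hcol j, ?_, rfl, rfl⟩, ?_⟩
  · have h5 := wd_P_eval W (hcol i).ker (hcol j).ker (P'.mulVec z) i j
    intro h0
    rw [h0, zero_mul] at h5
    simp only [eval_lsub, hPz, hself, map_zero, zero_mul, zero_sub, neg_eq_zero] at h5
    rw [Q.anti j i, map_neg] at h5
    rcases mul_eq_zero.1 h5 with h6 | h6
    · exact hij (neg_eq_zero.1 h6)
    · exact hij h6
  · have h6 : ((chi V ((Q.e, ez i - tz, 0) : M) - chi V ((Q.e, ez j - tz, 0) : M) : ℤ) : ℚ) =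
        K * φ (ε i - ε j) := by
      rw [chi_def, chi_def, map_sub, mul_sub, ← e1, ← e1]
      push_cast
      ring
    rw [h6, abs_mul, Nat.abs_cast]
    congr 1
    rcases hQ3 i j hij with h | h
    · rw [h]
    · rw [← h, ← abs_neg, ← map_neg, neg_sub]

/-- **The gap theorem.**  Let `n ≥ 4`, `E` indecomposable of rank two on `P^n`, and let `x ↦ N x`
lift to `E`.  Let `z` be an eigenvector of `N` whose eigenvalue `v` is strictly inside the segment
joining two eigenvalues `α ≠ β`.  The difference of the two eigenvalues of the lift on the fibre at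
`z` is `q (α - β)` with `q` rational, `|q| ≥ 1`. -/
theorem gap_main (hn : 4 ≤ n) (hE : ¬ E.Splits) (O : Op E N) {z : Fin (n + 1) → ℂ} (hz0 : z ≠ 0)
    {v : ℂ} (hz : N.mulVec z = v • z) {d d' : ℤ} {G G' : Vec E.a n} (hG : Sec E d G)
    (hG' : Sec E d' G') {μ μ' ν : ℂ} (hμ : evv (O.D G) z = μ • evv G z)
    (hμ' : evv (O.D G') z = μ' • evv G' z + ν • evv G z) (hli : LinearIndependent ℂ ![evv G z, evv G' z])
    {α β : ℂ} (hαβ : α ≠ β) {x y : Fin (n + 1) → ℂ} (hx0 : x ≠ 0) (hx : N.mulVec x = α • x)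
    (hy0 : y ≠ 0) (hy : N.mulVec y = β • y) {t : ℝ} (ht0 : 0 < t) (ht1 : t < 1)
    (hv : v = α + t * (β - α)) :
    ∃ q : ℚ, 1 ≤ |q| ∧ (μ - d * v) - (μ' - d' * v) = q * (α - β) := by
  have hN : ∀ c : ℂ, N ≠ c • 1 := by
    rintro c rfl
    rw [Matrix.smul_mulVec, Matrix.one_mulVec] at hx hy
    have h1 : c = α := by
      have h2 : (c - α) • x = 0 := by rw [sub_smul, hx, sub_self]
      exact sub_eq_zero.1 ((smul_eq_zero.1 h2).resolve_right hx0)
    have h1' : c = β := by
      have h2 : (c - β) • y = 0 := by rw [sub_smul, hy, sub_self]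
      exact sub_eq_zero.1 ((smul_eq_zero.1 h2).resolve_right hy0)
    exact hαβ (h1.symm.trans h1')
  obtain ⟨P, P', wz, a, b, ha, h1, h2, hNP⟩ := lifts_int (by omega) hE ⟨O⟩ hN
  set lam : Fin (n + 1) → ℂ := fun l => a * wz l + b with hlam
  have h3 : P' * N * P = Matrix.diagonal lam + 0 := by
    have e1 : P' * N * P = a • ((P' * P) * Matrix.diagonal (fun i => (wz i : ℂ)) * (P' * P)) +
        b • (P' * P) := by
      rw [hNP]
      simp only [mul_add, add_mul, Matrix.mul_smul, Matrix.smul_mul, mul_one, mul_assoc]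
    rw [e1, h2, one_mul, mul_one, add_zero, ← Matrix.diagonal_one, ← Matrix.diagonal_smul,
      ← Matrix.diagonal_smul, Matrix.diagonal_add]
    congr 1
    funext l
    simp [hlam]
  -- eigenvectors in the new coordinates
  have heig : ∀ (x : Fin (n + 1) → ℂ) (c : ℂ), N.mulVec x = c • x → ∀ l, P'.mulVec x l ≠ 0 →
      lam l = c := by
    intro x c hx l hl
    have e1 : (P' * N * P).mulVec (P'.mulVec x) = c • P'.mulVec x := by
      rw [Matrix.mulVec_mulVec, mul_assoc, h1, mul_one, ← Matrix.mulVec_mulVec, hx,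
        Matrix.mulVec_smul]
    rw [h3, add_zero] at e1
    have e2 := congrFun e1 l
    rw [Matrix.mulVec_diagonal, Pi.smul_apply, smul_eq_mul] at e2
    exact mul_right_cancel₀ hl e2
  have hexl : ∀ (x : Fin (n + 1) → ℂ), x ≠ 0 → ∃ l, P'.mulVec x l ≠ 0 := by
    intro x hx
    by_contra hcon
    push Not at hcon
    apply hx
    have e1 : P'.mulVec x = 0 := funext hcon
    have e2 := congrArg P.mulVec e1
    rwa [Matrix.mulVec_mulVec, h1, Matrix.one_mulVec, Matrix.mulVec_zero] at e2
  obtain ⟨i, hi⟩ := hexl x hx0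
  have hi' := heig x α hx i hi
  obtain ⟨k, hk⟩ := hexl y hy0
  have hk' := heig y β hy k hk
  obtain ⟨l, hl⟩ := hexl z hz0
  have hl' := heig z v hz l hl
  -- the position of the weights
  have hwv : (wz l : ℝ) = wz i + t * (wz k - wz i) := by
    have e1 : a * ((wz l : ℂ) - (wz i + t * (wz k - wz i))) = 0 := by
      have e2 : a * wz l + b = v := hl'
      have e3 : a * wz i + b = α := hi'
      have e4 : a * wz k + b = β := hk'
      rw [← e3, ← e4, ← e2] at hv
      linear_combination hv
    have e2 := (mul_eq_zero.1 e1).resolve_left ha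
    have e3 : (wz l : ℂ) = wz i + t * (wz k - wz i) := sub_eq_zero.1 e2
    exact_mod_cast e3
  have hwik : wz i ≠ wz k := by
    intro h
    apply hαβ
    rw [← hi', ← hk']
    simp only [hlam, h]
  set δ : ℂ := (μ - d * v) - (μ' - d' * v) with hδ
  -- the estimate for a functional
  have est : ∀ φ : ℂ →ₗ[ℚ] ℚ, φ a = 1 → |((wz k - wz i : ℤ) : ℚ)| ≤ |φ δ| := by
    intro φ hφa
    have hφ : ∀ l, φ (lam l) = wz l + φ b := by
      intro l
      have e1 : lam l = (wz l : ℚ) • a + b := by
        rw [hlam, Rat.smul_def]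
        push_cast
        ring
      rw [e1, map_add, map_smul, hφa, smul_eq_mul, mul_one]
    obtain ⟨E', K, w, D, hK, hspl, hw, hw2, hb2, hT⟩ :=
      descend_g (by omega) O hz0 hz hG hG' hμ hμ' hli h1 h3 (by rw [mul_zero, zero_mul])
        IsNilpotent.zero φ
    have hK' : (0 : ℚ) < K := by
      have : 0 < K := Nat.pos_of_ne_zero hK
      exact_mod_cast this
    obtain ⟨W⟩ := exists_wedge (by omega) D
    obtain ⟨A, B, hAB, hAB'⟩ := hT W (w l).1
    have hwd : ∀ p q, (w p).1 - (w q).1 = K * (wz p - wz q) := by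
      intro p q
      have e1 : (((w p).1 - (w q).1 : ℤ) : ℚ) = ((K * (wz p - wz q) : ℤ) : ℚ) := by
        push_cast
        rw [hw, hw, hφ, hφ]
        ring
      exact_mod_cast e1
    have hKz : (0 : ℤ) < K := by
      have : 0 < K := Nat.pos_of_ne_zero hK
      exact_mod_cast this
    have hfz : Fixed w (P'.mulVec z) (w l).1 := by
      intro m hm
      have e1 : lam m = lam l := (heig z v hz m hm).trans hl'.symm
      have e2 : (((w m).1 : ℤ) : ℚ) = ((w l).1 : ℤ) := by rw [hw, hw, e1]
      exact_mod_cast e2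
    have hz'0 : P'.mulVec z ≠ 0 := fun h0 => hl (by rw [h0]; rfl)
    have hE' : ¬ E'.Splits := fun h => hE (hspl h)
    have key : |((K * (wz k - wz i) : ℤ) : ℚ)| ≤ K * |φ δ| := by
      rw [← hAB']
      rcases lt_or_gt_of_ne hwik with hlt | hlt
      · have i1 : (wz i : ℝ) < wz k := by exact_mod_cast hlt
        have i2 : wz i < wz l := by
          have : (wz i : ℝ) < wz l := by rw [hwv]; nlinarith
          exact_mod_cast this
        have i3 : wz l < wz k := by
          have : (wz l : ℝ) < wz k := by rw [hwv]; nlinarith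
          exact_mod_cast this
        have j1 := hwd l i
        have j2 := hwd k l
        have j3 : 0 < (K : ℤ) * (wz l - wz i) := mul_pos hKz (by omega)
        have j4 : 0 < (K : ℤ) * (wz k - wz l) := mul_pos hKz (by omega)
        have g := gap (by omega) W hw2 hb2 hE' hz'0 hfz (i := i) (k := k) (by omega) (by omega) hAB
        rw [hwd] at g
        have g2 : (((K * (wz k - wz i) : ℤ)) : ℚ) ≤ ((|A - B| : ℤ) : ℚ) := by exact_mod_cast g
        rw [Int.cast_abs] at g2
        rw [abs_of_nonneg]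
        · exact g2
        · have : (0 : ℤ) ≤ K * (wz k - wz i) := mul_nonneg hKz.le (by omega)
          exact_mod_cast this
      · have i1 : (wz k : ℝ) < wz i := by exact_mod_cast hlt
        have i2 : wz l < wz i := by
          have : (wz l : ℝ) < wz i := by rw [hwv]; nlinarith
          exact_mod_cast this
        have i3 : wz k < wz l := by
          have : (wz k : ℝ) < wz l := by rw [hwv]; nlinarith
          exact_mod_cast this
        have j1 := hwd i l
        have j2 := hwd l k
        have j3 : 0 < (K : ℤ) * (wz i - wz l) := mul_pos hKz (by omega)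
        have j4 : 0 < (K : ℤ) * (wz l - wz k) := mul_pos hKz (by omega)
        have g := gap (by omega) W hw2 hb2 hE' hz'0 hfz (i := k) (k := i) (by omega) (by omega) hAB
        rw [hwd] at g
        have g2 : (((K * (wz i - wz k) : ℤ)) : ℚ) ≤ ((|A - B| : ℤ) : ℚ) := by exact_mod_cast g
        rw [Int.cast_abs] at g2
        have e1 : (K * (wz k - wz i) : ℤ) = -(K * (wz i - wz k)) := by ring
        rw [e1, Int.cast_neg, abs_neg, abs_of_nonneg]
        · exact g2
        · have : (0 : ℤ) ≤ K * (wz i - wz k) := mul_nonneg hKz.le (by omega)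
          exact_mod_cast this
    rw [Int.cast_mul, abs_mul] at key
    have e1 : |((K : ℤ) : ℚ)| = K := by
      rw [Int.cast_natCast, Nat.abs_cast]
    rw [e1] at key
    exact le_of_mul_le_mul_left key hK'
  have hne : ((wz k - wz i : ℤ) : ℚ) ≠ 0 := by
    have : wz k - wz i ≠ 0 := by omega
    exact_mod_cast this
  -- the difference is a rational multiple of `a`
  obtain ⟨r, hr⟩ : ∃ r : ℚ, δ = r • a := by
    by_contra hcon
    push Not at hcon
    have hli2 : LinearIndependent ℚ ![a, δ] := by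
      rw [LinearIndependent.pair_iff' ha]
      intro r h
      exact hcon r h.symm
    obtain ⟨φ, hφ1, hφ2⟩ := exists_dual hli2 0
    have h4 := est φ hφ1
    have h5 : φ δ = 0 := hφ2 1 (by decide)
    rw [h5, abs_zero] at h4
    exact hne (abs_eq_zero.1 (le_antisymm h4 (abs_nonneg _)))
  have hli1 : LinearIndependent ℚ ![a] := by
    rw [linearIndependent_unique_iff]
    exact ha
  obtain ⟨φ, hφ1, -⟩ := exists_dual hli1 0
  have h4 := est φ hφ1
  have hφ1' : φ a = 1 := hφ1
  rw [hr, map_smul, hφ1', smul_eq_mul, mul_one] at h4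
  refine ⟨r / ((wz i - wz k : ℤ) : ℚ), ?_, ?_⟩
  · rw [abs_div, one_le_div]
    · have e1 : ((wz i - wz k : ℤ) : ℚ) = -((wz k - wz i : ℤ) : ℚ) := by push_cast; ring
      rw [e1, abs_neg]
      exact h4
    · apply abs_pos.2
      have : wz i - wz k ≠ 0 := by omega
      exact_mod_cast this
  · rw [hr, ← hi', ← hk', Rat.smul_def]
    have e1 : ((wz i - wz k : ℤ) : ℂ) ≠ 0 := by
      have : wz i - wz k ≠ 0 := by omega
      exact_mod_cast this
    have e2 : (((r / ((wz i - wz k : ℤ) : ℚ) : ℚ)) : ℂ) = r / ((wz i - wz k : ℤ) : ℂ) := by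
      push_cast
      rfl
    rw [e2]
    simp only [hlam]
    push_cast at e1 ⊢
    field_simp
    ring

end Pool.Agent.W615
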