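import Pool.Agent.W615.LemM

/-!
# Bundles with a vector field normalised by a torus (helper615)
-/

set_option autoImplicit false
set_option maxHeartbeats 400000

open MvPolynomial H960VB H938TB

namespace Pool.Agent.W615

section lin
variable {V : Type*} [AddCommGroup V] [Module ℂ V] [FiniteDimensional ℂ V]

/-- the kernel of the powers -/
theorem finrank_ker_pow_succ (f : V →ₗ[ℂ] V) (j : ℕ) :
    Module.finrank ℂ (LinearMap.ker (f ^ (j + 1))) =
      Module.finrank ℂ (LinearMap.ker (f ^ j)) +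
      Module.finrank ℂ (LinearMap.ker f ⊓ LinearMap.range (f ^ j) : Submodule ℂ V) := by
  let g : LinearMap.ker (f ^ (j + 1)) →ₗ[ℂ] V := (f ^ j).domRestrict _
  have h1 := LinearMap.finrank_range_add_finrank_ker g
  have h2 : LinearMap.range g = LinearMap.ker f ⊓ LinearMap.range (f ^ j) := by
    ext y
    constructor
    · rintro ⟨⟨x, hx⟩, rfl⟩
      refine ⟨?_, ⟨x, rfl⟩⟩
      rw [LinearMap.mem_ker, pow_succ'] at hx
      exact hx
    · rintro ⟨hy, ⟨x, rfl⟩⟩
      refine ⟨⟨x, ?_⟩, rfl⟩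
      rw [LinearMap.mem_ker, pow_succ']
      exact hy
  have h3 : Module.finrank ℂ (LinearMap.ker g) = Module.finrank ℂ (LinearMap.ker (f ^ j)) := by
    have e : LinearMap.ker g ≃ₗ[ℂ] LinearMap.ker (f ^ j) :=
      { toFun := fun x => ⟨x.1.1, x.2⟩
        invFun := fun y => ⟨⟨y.1, by
          have := y.2
          rw [LinearMap.mem_ker] at this ⊢
          rw [pow_succ', Module.End.mul_apply, this, map_zero]⟩, y.2⟩
        map_add' := fun _ _ => rfl
        map_smul' := fun _ _ => rfl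
        left_inv := fun _ => rfl
        right_inv := fun _ => rfl }
    exact e.finrank_eq
  rw [h2, h3] at h1
  omega

theorem finrank_ker_pow_le (f : V →ₗ[ℂ] V) (j : ℕ) :
    Module.finrank ℂ (LinearMap.ker (f ^ j)) ≤ j * Module.finrank ℂ (LinearMap.ker f) := by
  induction j with
  | zero =>
    rw [pow_zero, Module.End.one_eq_id, LinearMap.ker_id, finrank_bot]
    omega
  | succ j ih =>
    rw [finrank_ker_pow_succ]
    have h : Module.finrank ℂ (LinearMap.ker f ⊓ LinearMap.range (f ^ j) : Submodule ℂ V) ≤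
        Module.finrank ℂ (LinearMap.ker f) := Submodule.finrank_mono inf_le_left
    rw [add_mul, one_mul]
    omega

end lin

section
variable {n : ℕ} {E : Bundle2 n}

/-- vector fields with vanishing square. -/
theorem splits_of_sq (hn : 4 ≤ n) {Y : Matrix (Fin (n + 1)) (Fin (n + 1)) ℂ}
    (L : Lft (triv E) 0 (vf Y)) (h2 : Y * Y = 0) (h0 : Y ≠ 0) : E.Splits := by
  have hYY : ∀ y, Y.mulVec (Y.mulVec y) = 0 := by
    intro y
    rw [Matrix.mulVec_mulVec, h2, Matrix.zero_mulVec]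
  obtain ⟨y, hy⟩ : ∃ y, Y.mulVec y ≠ 0 := by
    by_contra hc
    push Not at hc
    apply h0
    ext i j
    have := congrFun (hc (Pi.single j 1)) i
    simpa using this
  by_cases hK : 4 ≤ Module.finrank ℂ (LinearMap.ker Y.mulVecLin)
  · exact four_dim L hK y (hYY y) hy
  have h1 := LinearMap.finrank_range_add_finrank_ker Y.mulVecLin
  rw [Module.finrank_fin_fun] at h1
  have hle : LinearMap.range Y.mulVecLin ≤ LinearMap.ker Y.mulVecLin := by
    rintro _ ⟨y, rfl⟩
    rw [LinearMap.mem_ker]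
    exact hYY y
  have hle' := Submodule.finrank_mono hle
  have hr : 2 ≤ Module.finrank ℂ (LinearMap.range Y.mulVecLin) := by omega
  have hk : 3 ≤ Module.finrank ℂ (LinearMap.ker Y.mulVecLin) := by omega
  obtain ⟨z, ⟨y', rfl⟩, hz⟩ := lin_pair (K := LinearMap.range Y.mulVecLin)
    (c := Y.mulVec y) ⟨y, rfl⟩ hy hr
  obtain ⟨x, hx, hxi⟩ := lin_triple (K := LinearMap.ker Y.mulVecLin) (hle ⟨y, rfl⟩)
    (hle ⟨y', rfl⟩) hz hk
  rw [LinearMap.mem_ker] at hx
  exact two_blocks L y y' x (hYY y) (hYY y') hx hxi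

end

section
variable {n : ℕ} {p : Fin (n + 1) → ℤ} {E : Bundle2 n}

/-- forgetting the weights of a lift -/
noncomputable def forget' {ω : M} (hω : ω.1 = 0) {w : Fin (n + 1) → ℤ × ℤ} {D : EqB E w}
    {Y : Matrix (Fin (n + 1)) (Fin (n + 1)) ℂ}
    (L : Lft D ω (vf Y)) : Lft (triv E) 0 (vf Y) :=
  mkLft E Y L.ν L.μ (fun i j => by
    have h1 := homZ_of (L.hν i j)
    simpa [hω] using h1) L.comm

/-- the component of weight `κ` -/
def cpt (p : Fin (n + 1) → ℤ) (κ : ℤ) (x : Fin (n + 1) → ℂ) : Fin (n + 1) → ℂ :=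
  fun s => if p s = κ then x s else 0

theorem cpt_wv (κ : ℤ) (x : Fin (n + 1) → ℂ) : WV p κ (cpt p κ x) := by
  intro s hs
  by_contra h
  exact hs (if_neg h)

theorem cpt_mulVec {Y : Matrix (Fin (n + 1)) (Fin (n + 1)) ℂ} {c : ℤ}
    (hY : ∀ i j, Y i j ≠ 0 → p i = p j - c) (κ : ℤ) (x : Fin (n + 1) → ℂ) :
    Y.mulVec (cpt p κ x) = cpt p (κ - c) (Y.mulVec x) := by
  funext s
  by_cases hs : p s = κ - c
  · show ∑ j, Y s j * (if p j = κ then x j else 0) = if p s = κ - c then ∑ j, Y s j * x j else 0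
    rw [if_pos hs]
    refine Finset.sum_congr rfl fun j _ => ?_
    by_cases hj : p j = κ
    · rw [if_pos hj]
    · have : Y s j = 0 := by
        by_contra h
        have := hY s j h
        apply hj
        linarith
      rw [this, zero_mul, zero_mul]
  · show ∑ j, Y s j * (if p j = κ then x j else 0) = if p s = κ - c then ∑ j, Y s j * x j else 0
    rw [if_neg hs]
    refine Finset.sum_eq_zero fun j _ => ?_
    by_cases hj : p j = κ
    · have : Y s j = 0 := by
        by_contra h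
        have := hY s j h
        apply hs
        linarith
      rw [this, zero_mul]
    · rw [if_neg hj, mul_zero]

theorem wv_it {Y : Matrix (Fin (n + 1)) (Fin (n + 1)) ℂ} {c : ℤ}
    (hY : ∀ i j, Y i j ≠ 0 → p i = p j - c) {κ : ℤ} {x : Fin (n + 1) → ℂ} (hx : WV p κ x)
    (j : ℕ) : WV p (κ - j * c) (Sl2.it Y x j) := by
  induction j with
  | zero => simpa [Sl2.it] using hx
  | succ j ih =>
    have h1 := wv_mulVec (p := p) (N := Y) (e := -c) (fun i j h => by rw [hY i j h]; ring) ih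
    have e : κ - ((j + 1 : ℕ) : ℤ) * c = κ - j * c + -c := by push_cast; ring
    rw [e]
    exact h1

/-- the end of a string -/
theorem exists_end {Y : Matrix (Fin (n + 1)) (Fin (n + 1)) ℂ} {c : ℤ} (hc : 0 < c)
    (hY : ∀ i j, Y i j ≠ 0 → p i = p j - c) {κ : ℤ} {x : Fin (n + 1) → ℂ} (hx : WV p κ x)
    {k : ℕ} (hk : Sl2.it Y x k ≠ 0) : ∃ m, k ≤ m ∧ Sl2.it Y x m ≠ 0 ∧ Sl2.it Y x (m + 1) = 0 := by
  classical
  obtain ⟨B, hB⟩ : ∃ B : ℤ, ∀ s, B ≤ p s := by
    refine ⟨(Finset.univ.image p).min' ⟨p 0, Finset.mem_image_of_mem _ (Finset.mem_univ _)⟩,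
      fun s => Finset.min'_le _ _ (Finset.mem_image_of_mem _ (Finset.mem_univ _))⟩
  have hz : ∃ m, k < m ∧ Sl2.it Y x m = 0 := by
    refine ⟨max (k + 1) ((κ - B).toNat + 1), lt_of_lt_of_le (Nat.lt_succ_self k) (le_max_left _ _), ?_⟩
    by_contra h
    obtain ⟨s, hs⟩ := (wv_it hY hx _).exists h
    have h1 := hB s
    rw [hs] at h1
    have h2 : ((κ - B).toNat + 1 : ℤ) ≤ ((max (k + 1) ((κ - B).toNat + 1) : ℕ) : ℤ) := by
      exact_mod_cast le_max_right _ _
    have h3 := Int.self_le_toNat (κ - B)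
    nlinarith
  obtain ⟨hlt, h0⟩ := Nat.find_spec hz
  have hmin := fun m => Nat.find_min (m := m) hz
  set m := Nat.find hz with hm
  obtain ⟨m', hm'⟩ : ∃ m', m = m' + 1 := ⟨m - 1, by omega⟩
  rw [hm'] at h0 hlt
  refine ⟨m', by omega, ?_, h0⟩
  intro h
  rcases Nat.lt_or_ge k m' with h1 | h1
  · exact hmin m' (by omega) ⟨h1, h⟩
  · have : k = m' := by omega
    subst this
    exact hk h

theorem str_of {Y : Matrix (Fin (n + 1)) (Fin (n + 1)) ℂ} {c : ℤ}
    (hY : ∀ i j, Y i j ≠ 0 → p i = p j - c) {κ : ℤ} {x : Fin (n + 1) → ℂ} (hx : WV p κ x)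
    {m : ℕ} (hm : Sl2.it Y x (m + 2) ≠ 0) (hm' : Sl2.it Y x (m + 3) = 0) :
    Str p Y c (κ - (m + 2 : ℕ) * c) (Sl2.it Y x (m + 2)) (Sl2.it Y x (m + 1)) (Sl2.it Y x m) where
  w0 := wv_it hY hx (m + 2)
  w1 := by
    have h := wv_it hY hx (m + 1)
    have e : κ - ((m + 1 : ℕ) : ℤ) * c = κ - ((m + 2 : ℕ) : ℤ) * c + c := by push_cast; ring
    rw [e] at h
    exact h
  w2 := by
    have h := wv_it hY hx m
    have e : κ - (m : ℤ) * c = κ - ((m + 2 : ℕ) : ℤ) * c + 2 * c := by push_cast; ring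
    rw [e] at h
    exact h
  ne := hm
  Y0 := hm'
  Y1 := rfl
  Y2 := rfl

theorem it_pow (Y : Matrix (Fin (n + 1)) (Fin (n + 1)) ℂ) (x : Fin (n + 1) → ℂ) (j : ℕ) :
    Sl2.it Y x j = (Y ^ j).mulVec x := by
  induction j with
  | zero => simp [Sl2.it]
  | succ j ih =>
    show Y.mulVec (Sl2.it Y x j) = _
    rw [ih, Matrix.mulVec_mulVec, pow_succ']

theorem exists_it_ne {Y : Matrix (Fin (n + 1)) (Fin (n + 1)) ℂ} {j : ℕ} (h : Y ^ j ≠ 0) :
    ∃ s, Sl2.it Y (Pi.single s 1) j ≠ 0 := by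
  by_contra hc
  push Not at hc
  apply h
  ext i s
  have := congrFun (hc s) i
  rw [it_pow] at this
  simpa using this

/-- the case of positive weight -/
theorem solv_pos (hn : 4 ≤ n) (D : EqB E (pw p)) {c : ℤ} (hc : 0 < c)
    {Y : Matrix (Fin (n + 1)) (Fin (n + 1)) ℂ} (hY : ∀ i j, Y i j ≠ 0 → p i = p j - c)
    (hY0 : Y ≠ 0) (L : Lft D (oc c) (vf Y)) : E.Splits := by
  by_cases h2 : Y * Y = 0
  · exact splits_of_sq hn (forget' rfl L) h2 hY0
  by_cases hK : 2 ≤ Module.finrank ℂ (LinearMap.ker Y.mulVecLin)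
  · obtain ⟨s, hs⟩ := exists_it_ne (Y := Y) (j := 2) (by rw [pow_two]; exact h2)
    obtain ⟨m, hm, hm1, hm2⟩ := exists_end hc hY (WV.single (p := p) s 1) hs
    obtain ⟨m', rfl⟩ : ∃ m', m = m' + 2 := ⟨m - 2, by omega⟩
    have S := str_of hY (WV.single (p := p) s 1) hm1 hm2
    obtain ⟨z, hz, hli⟩ := lin_pair (K := LinearMap.ker Y.mulVecLin)
      (c := Sl2.it Y (Pi.single s 1) (m' + 2)) S.Y0 S.ne hK
    rw [LinearMap.mem_ker] at hz
    change Y.mulVec z = 0 at hz
    -- a weight component of `z` is independent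
    obtain ⟨κ, hκ⟩ : ∃ κ, LinearIndependent ℂ ![Sl2.it Y (Pi.single s 1) (m' + 2), cpt p κ z] := by
      by_contra hcon
      push Not at hcon
      have hpr : ∀ κ, ∃ t : ℂ, cpt p κ z = t • Sl2.it Y (Pi.single s 1) (m' + 2) := by
        intro κ
        by_contra hne
        push Not at hne
        apply hcon κ
        rw [LinearIndependent.pair_iff]
        intro a b hab
        by_cases hb : b = 0
        · rw [hb, zero_smul, add_zero] at hab
          exact ⟨(smul_eq_zero.1 hab).resolve_right S.ne, hb⟩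
        · exfalso
          apply hne (-(b⁻¹ * a))
          have h4 : b • cpt p κ z = -(a • Sl2.it Y (Pi.single s 1) (m' + 2)) :=
            eq_neg_of_add_eq_zero_right hab
          calc cpt p κ z = b⁻¹ • (b • cpt p κ z) := by rw [smul_smul, inv_mul_cancel₀ hb, one_smul]
            _ = _ := by rw [h4, smul_neg, smul_smul, neg_smul]
      choose t ht using hpr
      have hsum : z = (∑ κ ∈ Finset.univ.image p, t κ) • Sl2.it Y (Pi.single s 1) (m' + 2) := by
        rw [Finset.sum_smul]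
        simp_rw [← ht]
        funext i
        rw [Finset.sum_apply, Finset.sum_eq_single (p i)]
        · exact (if_pos rfl).symm
        · intro κ _ hκ
          exact if_neg (Ne.symm hκ)
        · intro h
          exact absurd (Finset.mem_image_of_mem _ (Finset.mem_univ _)) h
      have := (LinearIndependent.pair_iff.1 hli) (∑ κ ∈ Finset.univ.image p, t κ) (-1) (by
        rw [neg_one_smul, ← hsum, add_neg_cancel])
      exact absurd this.2 (by norm_num)
    have hYz : Y.mulVec (cpt p κ z) = 0 := by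
      rw [cpt_mulVec hY, hz]
      funext i
      show (if _ then (0 : ℂ) else 0) = 0
      simp
    exact splits_of_kernel (by omega) D hc L S (cpt_wv κ z) hYz hκ
  · have h4 : Y ^ 4 ≠ 0 := by
      intro h4
      have h5 := finrank_ker_pow_le Y.mulVecLin 4
      have h6 : Y.mulVecLin ^ 4 = 0 := by
        rw [← Matrix.toLin'_apply', ← Matrix.toLin'_pow, h4, map_zero]
      rw [h6, LinearMap.ker_zero, finrank_top, Module.finrank_fin_fun] at h5
      omega
    obtain ⟨s, hs⟩ := exists_it_ne h4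
    obtain ⟨m, hm, hm1, hm2⟩ := exists_end hc hY (WV.single (p := p) s 1) hs
    obtain ⟨m', rfl⟩ : ∃ m', m = m' + 4 := ⟨m - 4, by omega⟩
    have S := str_of (m := m' + 2) hY (WV.single (p := p) s 1) hm1 hm2
    have w4 : WV p (p s - ((m' + 2 + 2 : ℕ) : ℤ) * c + 4 * c) (Sl2.it Y (Pi.single s 1) m') := by
      have h := wv_it hY (WV.single (p := p) s 1) m'
      have e : p s - (m' : ℤ) * c = p s - ((m' + 2 + 2 : ℕ) : ℤ) * c + 4 * c := by
        push_cast; ring
      rw [e] at h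
      exact h
    have hne : Sl2.it Y (Pi.single s 1) m' ≠ 0 := by
      intro h
      have h1 : Sl2.it Y (Pi.single s 1) (m' + 1) = 0 := by
        show Y.mulVec (Sl2.it Y (Pi.single s 1) m') = 0
        rw [h, Matrix.mulVec_zero]
      have h2 : Sl2.it Y (Pi.single s 1) (m' + 1 + 1) = 0 := by
        show Y.mulVec (Sl2.it Y (Pi.single s 1) (m' + 1)) = 0
        rw [h1, Matrix.mulVec_zero]
      exact S.ne2 h2
    obtain ⟨a₁, h₁⟩ := S.w0.exists S.ne
    obtain ⟨a₂, h₂⟩ := S.w2.exists S.ne2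
    obtain ⟨a₃, h₃⟩ := w4.exists hne
    have h12 : a₁ ≠ a₂ := by
      rintro rfl
      rw [h₁] at h₂
      linarith
    have h13 : a₁ ≠ a₃ := by
      rintro rfl
      rw [h₁] at h₃
      linarith
    have h23 : a₂ ≠ a₃ := by
      rintro rfl
      rw [h₂] at h₃
      linarith
    obtain ⟨r, hr⟩ : ∃ r : ℕ, (r : ℤ) = 2 * c := ⟨(2 * c).toNat, by
      rw [Int.toNat_of_nonneg]
      linarith⟩
    refine splits_mod (by omega) D hc L S r ?_ ![a₁, a₂, a₃] ?_ ?_
    · rw [hr]
      intro h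
      have := Int.le_of_dvd hc h
      linarith
    · intro i j hij
      fin_cases i <;> fin_cases j <;> simp at hij ⊢ <;>
        first | exact h12 hij | exact h13 hij | exact h23 hij | exact h12 hij.symm |
          exact h13 hij.symm | exact h23 hij.symm
    · intro t
      fin_cases t
      · show ((p a₁ : ℤ) : ZMod r) = _
        rw [h₁]
      · show ((p a₂ : ℤ) : ZMod r) = _
        rw [h₂, Int.cast_add, ← hr, Int.cast_natCast, ZMod.natCast_self, add_zero]
      · show ((p a₃ : ℤ) : ZMod r) = _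
        have e : 4 * c = (r : ℤ) + r := by rw [hr]; ring
        rw [h₃, Int.cast_add, e, Int.cast_add, Int.cast_natCast, ZMod.natCast_self, add_zero,
          add_zero]

end

end Pool.Agent.W615
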