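import Pool.Agent.W615.ElC2
import Pool.Agent.W615.Solv

/-!
# Linear vector fields lifting to bundles of rank two (helper615)
-/

set_option autoImplicit false
set_option maxHeartbeats 400000

open MvPolynomial H960VB H938TB

namespace Pool.Agent.W615

section
variable {n : ℕ} {E : Bundle2 n} {N : Matrix (Fin (n + 1)) (Fin (n + 1)) ℂ}

/-- two blocks of size at least three. -/
theorem two_large (L : Lft (triv E) 0 (vf N)) {u₁ u₂ : Fin (n + 1) → ℂ}
    (h₁ : N.mulVec (N.mulVec (N.mulVec u₁)) = 0) (h₂ : N.mulVec (N.mulVec (N.mulVec u₂)) = 0)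
    (hli : LinearIndependent ℂ ![N.mulVec (N.mulVec u₁), N.mulVec (N.mulVec u₂)]) :
    E.Splits := by
  by_contra hE
  set c₁ := N.mulVec (N.mulVec u₁) with hc₁
  set c₂ := N.mulVec (N.mulVec u₂) with hc₂
  set y := N.mulVec u₁ with hy
  have hc0 : c₁ ≠ 0 := hli.ne_zero 0
  have hli3 : LinearIndependent ℂ ![c₁, c₂, y] := by
    rw [Fintype.linearIndependent_iff]
    intro g hg
    rw [Fin.sum_univ_three] at hg
    simp only [Matrix.cons_val] at hg
    have h3 := congrArg N.mulVec hg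
    rw [Matrix.mulVec_add, Matrix.mulVec_add,
      Matrix.mulVec_smul, Matrix.mulVec_smul, Matrix.mulVec_smul, h₁, h₂, ← hc₁,
      Matrix.mulVec_zero, smul_zero, smul_zero, zero_add, zero_add] at h3
    have h4 : g 2 = 0 := (smul_eq_zero.1 h3).resolve_right hc0
    rw [h4, zero_smul, add_zero] at hg
    have h5 := (Fintype.linearIndependent_iff.1 hli) ![g 0, g 1] (by
      rw [Fin.sum_univ_two]
      simpa using hg)
    intro i
    fin_cases i
    · exact h5 0
    · exact h5 1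
    · exact h4
  let T : (Fin (1 + 1 + 1) → ℂ) →ₗ[ℂ] (Fin (n + 1) → ℂ) :=
    Fintype.linearCombination ℂ ![c₁, c₂, y]
  have hTs : ∀ t, T (Pi.single t 1) = ![c₁, c₂, y] t := by
    intro t
    simp only [T]
    rw [Fintype.linearCombination_apply_single, one_smul]
  have hT : Function.Injective T := hli3.fintypeLinearCombination_injective
  have h0 : ∀ t : Fin (1 + 1), N.mulVec (T (Pi.single t.castSucc 1)) = 0 := by
    intro t
    rw [hTs]
    fin_cases t
    · exact h₁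
    · exact h₂
  have h1 : N.mulVec (T (Pi.single (Fin.last (1 + 1)) 1)) =
      T (Pi.single (0 : Fin (1 + 1)).castSucc 1) := by
    rw [hTs, hTs]
    rfl
  have h2n : 2 ≤ n := by
    have h3 := LinearMap.finrank_le_finrank_of_injective hT
    rw [Module.finrank_fintype_fun_eq_card, Module.finrank_fintype_fun_eq_card, Fintype.card_fin,
      Fintype.card_fin] at h3
    omega
  have hE' : ¬ (E.pull T hT).Splits := fun h =>
    hE (Bundle2.splits_of_pull (n - 2) 2 n (by norm_num) (by omega) E T hT h)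
  apply hE'
  refine elC (elaLft L T hT 0 h0 h1) fun q hq hs => ?_
  have h3 := sc_pull L T hT _ _ _ _ _ hs
  have h4 : T (hI 1 q) = N.mulVec (N.mulVec (q 0 • u₁ + q 1 • u₂)) := by
    have h5 : hI 1 q = (![q 0, q 1, 0] : Fin 3 → ℂ) := hI_single q
    rw [h5]
    simp only [T]
    rw [Fintype.linearCombination_apply]
    show ∑ i : Fin 3, _ = _
    rw [Fin.sum_univ_three, Matrix.mulVec_add, Matrix.mulVec_add, Matrix.mulVec_smul,
      Matrix.mulVec_smul, Matrix.mulVec_smul, Matrix.mulVec_smul, ← hc₂]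
    simp only [Matrix.cons_val]
    rw [zero_smul, add_zero, hc₁]
  rw [h4] at h3
  refine not_sc_string hE L (u := q 0 • u₁ + q 1 • u₂) ?_ ?_ h3
  · rw [Matrix.mulVec_add, Matrix.mulVec_add, Matrix.mulVec_add, Matrix.mulVec_smul,
      Matrix.mulVec_smul, Matrix.mulVec_smul, Matrix.mulVec_smul, Matrix.mulVec_smul,
      Matrix.mulVec_smul, ← hy, ← hc₁, ← hc₂, h₁, h₂, smul_zero, smul_zero, add_zero]
  · intro h5
    rw [Matrix.mulVec_add, Matrix.mulVec_add, Matrix.mulVec_smul,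
      Matrix.mulVec_smul, Matrix.mulVec_smul, Matrix.mulVec_smul, ← hy, ← hc₁, ← hc₂] at h5
    have h6 := (Fintype.linearIndependent_iff.1 hli) ![q 0, q 1] (by
      rw [Fin.sum_univ_two]
      simpa using h5)
    apply hq
    funext i
    fin_cases i
    · exact h6 0
    · exact h6 1

/-- at least three blocks, of total size at least five, not all of size one. -/
theorem three_gen (L : Lft (triv E) 0 (vf N))
    (h3 : 3 ≤ Module.finrank ℂ (LinearMap.ker N.mulVecLin))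
    (h5 : 5 ≤ Module.finrank ℂ (LinearMap.ker (N.mulVecLin ^ 3)))
    (y : Fin (n + 1) → ℂ) (hy : N.mulVec (N.mulVec y) = 0) (hy0 : N.mulVec y ≠ 0) :
    E.Splits := by
  have e1 := finrank_ker_pow_succ N.mulVecLin 2
  have e2 := finrank_ker_pow_succ N.mulVecLin 1
  rw [pow_one] at e2
  by_cases hb : (LinearMap.ker N.mulVecLin ⊓ LinearMap.range (N.mulVecLin ^ 2) :
      Submodule ℂ (Fin (n + 1) → ℂ)) = ⊥
  · rw [hb, finrank_bot] at e1
    by_cases h4 : 4 ≤ Module.finrank ℂ (LinearMap.ker N.mulVecLin)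
    · exact four_dim L h4 y hy hy0
    · obtain ⟨z, ⟨hz1, ⟨y', rfl⟩⟩, hz⟩ := lin_pair
        (K := (LinearMap.ker N.mulVecLin ⊓ LinearMap.range N.mulVecLin :
          Submodule ℂ (Fin (n + 1) → ℂ)))
        (c := N.mulVec y) ⟨hy, ⟨y, rfl⟩⟩ hy0 (by
          have : (1 + 1 : ℕ) = 2 := rfl
          rw [this] at e2
          have : (2 + 1 : ℕ) = 3 := rfl
          rw [this] at e1
          omega)
      obtain ⟨x, hx, hxi⟩ := lin_triple (K := LinearMap.ker N.mulVecLin)
        (c₁ := N.mulVec y) hy hz1 hz h3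
      exact two_blocks L y y' x hy hz1 hx hxi
  · obtain ⟨c, ⟨hc1, ⟨u, rfl⟩⟩, hc0⟩ := Submodule.exists_mem_ne_zero_of_ne_bot hb
    have hu : (N.mulVecLin ^ 2) u = N.mulVec (N.mulVec u) := by
      rw [pow_two]
      rfl
    rw [hu] at hc1 hc0
    obtain ⟨z₁, hz₁, hi₁⟩ := lin_pair (K := LinearMap.ker N.mulVecLin) hc1 hc0 (by omega)
    obtain ⟨z₂, hz₂, hi₂⟩ := lin_triple (K := LinearMap.ker N.mulVecLin) hc1 hz₁ hi₁ h3
    exact three_blocks L hc1 hz₁ hz₂ hi₂

theorem three_gen' (N : Matrix (Fin (n + 1)) (Fin (n + 1)) ℂ)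
    (ν : Matrix (Fin E.a) (Fin E.a) (MvPolynomial (Fin (n + 1)) ℂ))
    (μ : Matrix (Fin E.c) (Fin E.c) (MvPolynomial (Fin (n + 1)) ℂ))
    (hc : ∀ k i, ∑ s, pderiv s (E.B k i) * (∑ t, C (N s t) * X t) =
      ∑ l, μ k l * E.B l i + ∑ j, E.B k j * ν j i)
    (l : ℂ) (h3 : 3 ≤ Module.finrank ℂ (LinearMap.ker (N - Matrix.scalar _ l).mulVecLin))
    (h5 : 5 ≤ Module.finrank ℂ (LinearMap.ker ((N - Matrix.scalar _ l).mulVecLin ^ 3)))
    (y : Fin (n + 1) → ℂ)
    (hy : (N - Matrix.scalar _ l).mulVec ((N - Matrix.scalar _ l).mulVec y) = 0)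
    (hy0 : (N - Matrix.scalar _ l).mulVec y ≠ 0) : E.Splits :=
  three_gen (shiftN (homLft (triv E) 0 (vf N) (vf_hom0 N) ν μ
    (fun k i => by rw [vf_eq_sum]; exact hc k i)) l) h3 h5 y hy hy0

theorem two_large' (N : Matrix (Fin (n + 1)) (Fin (n + 1)) ℂ)
    (ν : Matrix (Fin E.a) (Fin E.a) (MvPolynomial (Fin (n + 1)) ℂ))
    (μ : Matrix (Fin E.c) (Fin E.c) (MvPolynomial (Fin (n + 1)) ℂ))
    (hc : ∀ k i, ∑ s, pderiv s (E.B k i) * (∑ t, C (N s t) * X t) =
      ∑ l, μ k l * E.B l i + ∑ j, E.B k j * ν j i)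
    (l : ℂ) (u₁ u₂ : Fin (n + 1) → ℂ)
    (h₁ : (N - Matrix.scalar _ l).mulVec ((N - Matrix.scalar _ l).mulVec
      ((N - Matrix.scalar _ l).mulVec u₁)) = 0)
    (h₂ : (N - Matrix.scalar _ l).mulVec ((N - Matrix.scalar _ l).mulVec
      ((N - Matrix.scalar _ l).mulVec u₂)) = 0)
    (hli : LinearIndependent ℂ ![(N - Matrix.scalar _ l).mulVec
      ((N - Matrix.scalar _ l).mulVec u₁), (N - Matrix.scalar _ l).mulVec
      ((N - Matrix.scalar _ l).mulVec u₂)]) : E.Splits :=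
  two_large (shiftN (homLft (triv E) 0 (vf N) (vf_hom0 N) ν μ
    (fun k i => by rw [vf_eq_sum]; exact hc k i)) l) h₁ h₂ hli

end

end Pool.Agent.W615
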