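import Pool.Agent.H938R2.TB.Main
import Pool.Agent.H938R2.TB.Fin
import Pool.Agent.H960R2.VB.TaskB
import Pool.Agent.H960R2.VB.TaskH1

/-!
# General lemmas on semi-invariant sections of rank two bundles (helper615)
-/

set_option autoImplicit false

open MvPolynomial H960VB H938TB

namespace Pool.Agent.W615

variable {n : ℕ} {w : Fin (n + 1) → ℤ × ℤ} {E : Bundle2 n} {D : EqB E w}

theorem weight_fst (w : Fin (n + 1) → ℤ × ℤ) (u : Fin (n + 1) →₀ ℕ) :
    (Finsupp.weight (tw w) u).1 = ∑ i, (u i : ℤ) := by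
  rw [Finsupp.weight_apply, Finsupp.sum_fintype _ _ (by simp), Prod.fst_sum]
  refine Finset.sum_congr rfl fun i _ => ?_
  simp [tw]

/-- a weighted homogeneous polynomial is homogeneous. -/
theorem homZ_of {p : MvPolynomial (Fin (n + 1)) ℂ} {τ : M}
    (hp : IsWeightedHomogeneous (tw w) p τ) : HomZ p τ.1 := by
  by_cases h0 : p = 0
  · exact Or.inl h0
  right
  have hdeg : ∀ v, coeff v p ≠ 0 → ∑ l, (v l : ℤ) = τ.1 := by
    intro v hv
    have h2 := congrArg Prod.fst (hp hv)
    rw [weight_fst] at h2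
    exact h2
  obtain ⟨u, hu⟩ := ne_zero_iff.1 h0
  refine ⟨∑ l, u l, ?_, ?_⟩
  · rw [← hdeg u hu]
    push_cast
    rfl
  · intro v hv
    have h3 := hdeg v hv
    rw [← hdeg u hu] at h3
    rw [Finsupp.weight_apply, Finsupp.sum_fintype _ _ (by simp)]
    have h4 : ∑ l, v l = ∑ l, u l := by exact_mod_cast h3
    simpa using h4

theorem isSection {τ : M} {G : Vec E.a n} (h : HSec D τ G) : E.IsSection τ.1 G := by
  constructor
  · intro i
    exact homZ_of (h.hom i)
  · intro x hx
    exact T3aux.ker_mem h.ker x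

/-- the kernel is a module. -/
theorem ker_mul {G : Vec E.a n} (hG : Ker E G) (p : MvPolynomial (Fin (n + 1)) ℂ) :
    Ker E (fun i => p * G i) := by
  intro k
  have h1 := hG k
  calc ∑ i, E.B k i * (p * G i) = p * ∑ i, E.B k i * G i := by
        rw [Finset.mul_sum]
        exact Finset.sum_congr rfl fun i _ => by ring
    _ = 0 := by rw [h1, mul_zero]

theorem ker_add {G H : Vec E.a n} (hG : Ker E G) (hH : Ker E H) :
    Ker E (fun i => G i + H i) := by
  intro k
  have h1 := hG k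
  have h2 := hH k
  calc ∑ i, E.B k i * (G i + H i) = ∑ i, E.B k i * G i + ∑ i, E.B k i * H i := by
        rw [← Finset.sum_add_distrib]
        exact Finset.sum_congr rfl fun i _ => by ring
    _ = 0 := by rw [h1, h2, add_zero]

theorem ker_sub {G H : Vec E.a n} (hG : Ker E G) (hH : Ker E H) :
    Ker E (fun i => G i - H i) := by
  intro k
  have h1 := hG k
  have h2 := hH k
  calc ∑ i, E.B k i * (G i - H i) = ∑ i, E.B k i * G i - ∑ i, E.B k i * H i := by
        rw [← Finset.sum_sub_distrib]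
        exact Finset.sum_congr rfl fun i _ => by ring
    _ = 0 := by rw [h1, h2, sub_zero]

theorem ker_zero : Ker E (fun _ => 0) := by
  intro k
  simp

/-- cancel a nonzero factor. -/
theorem ker_of_mul {G : Vec E.a n} {p : MvPolynomial (Fin (n + 1)) ℂ} (hp : p ≠ 0)
    (h : Ker E (fun i => p * G i)) : Ker E G := by
  intro k
  have h1 := h k
  have h2 : p * ∑ i, E.B k i * G i = 0 := by
    rw [← h1, Finset.mul_sum]
    exact Finset.sum_congr rfl fun i _ => by ring
  exact (mul_eq_zero.1 h2).resolve_left hp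

/-! ### wedge products -/

variable (W : Wedge D)

theorem exists_P_ne : ∃ i j, W.P i j ≠ 0 := by
  obtain ⟨i, j, h⟩ := W.P_ne (fun _ => 1) (fun h => by simpa using congrFun h 0)
  exact ⟨i, j, fun h0 => h (by rw [h0, map_zero])⟩

/-- the wedge product is determined by the minors. -/
theorem wd_eq_of {G G' : Vec E.a n} (hG : Ker E G) (hG' : Ker E G')
    {φ : MvPolynomial (Fin (n + 1)) ℂ} (h : ∀ i j, G i * G' j - G j * G' i = φ * W.P i j) :
    W.wd G G' = φ := by
  obtain ⟨i, j, hij⟩ := exists_P_ne W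
  apply mul_right_cancel₀ hij
  rw [← W.eq G G' hG hG', h]

theorem wd_zero_left {G G' : Vec E.a n} (hG : Ker E G) (hG' : Ker E G') (h : ∀ i, G i = 0) :
    W.wd G G' = 0 := by
  apply wd_eq_of W hG hG'
  intro i j
  rw [h, h]
  ring

theorem wd_zero_right {G G' : Vec E.a n} (hG : Ker E G) (hG' : Ker E G') (h : ∀ i, G' i = 0) :
    W.wd G G' = 0 := by
  apply wd_eq_of W hG hG'
  intro i j
  rw [h, h]
  ring

theorem wd_self {G : Vec E.a n} (hG : Ker E G) : W.wd G G = 0 := by
  apply wd_eq_of W hG hG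
  intro i j
  ring

theorem wd_swap {G G' : Vec E.a n} (hG : Ker E G) (hG' : Ker E G') (h : W.wd G G' = 0) :
    W.wd G' G = 0 := by
  rw [W.anti G' G hG' hG, h, neg_zero]

theorem wd_add_left {G H K : Vec E.a n} (hG : Ker E G) (hH : Ker E H) (hK : Ker E K) :
    W.wd (fun i => G i + H i) K = W.wd G K + W.wd H K := by
  apply wd_eq_of W (ker_add hG hH) hK
  intro i j
  have h1 := W.eq G K hG hK i j
  have h2 := W.eq H K hH hK i j
  linear_combination h1 + h2

theorem wd_sub_left {G H K : Vec E.a n} (hG : Ker E G) (hH : Ker E H) (hK : Ker E K) :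
    W.wd (fun i => G i - H i) K = W.wd G K - W.wd H K := by
  apply wd_eq_of W (ker_sub hG hH) hK
  intro i j
  have h1 := W.eq G K hG hK i j
  have h2 := W.eq H K hH hK i j
  linear_combination h1 - h2

theorem wd_add_right {G H K : Vec E.a n} (hG : Ker E G) (hH : Ker E H) (hK : Ker E K) :
    W.wd K (fun i => G i + H i) = W.wd K G + W.wd K H := by
  apply wd_eq_of W hK (ker_add hG hH)
  intro i j
  have h1 := W.eq K G hK hG i j
  have h2 := W.eq K H hK hH i j
  linear_combination h1 + h2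

theorem wd_sub_right {G H K : Vec E.a n} (hG : Ker E G) (hH : Ker E H) (hK : Ker E K) :
    W.wd K (fun i => G i - H i) = W.wd K G - W.wd K H := by
  apply wd_eq_of W hK (ker_sub hG hH)
  intro i j
  have h1 := W.eq K G hK hG i j
  have h2 := W.eq K H hK hH i j
  linear_combination h1 - h2

theorem wd_mul_right {G K : Vec E.a n} (hG : Ker E G) (hK : Ker E K)
    (p : MvPolynomial (Fin (n + 1)) ℂ) :
    W.wd K (fun i => p * G i) = p * W.wd K G := by
  apply wd_eq_of W hK (ker_mul hG p)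
  intro i j
  have h1 := W.eq K G hK hG i j
  linear_combination p * h1

theorem splits_of_const {τ τ' : M} {A B : Vec E.a n} (hA : HSec D τ A) (hB : HSec D τ' B)
    (c : ℂ) (hc : c ≠ 0) (h : W.wd A B = C c) : E.Splits := by
  refine ⟨-τ.1, -τ'.1, A, B, ?_, ?_, ?_⟩
  · rw [neg_neg]; exact isSection hA
  · rw [neg_neg]; exact isSection hB
  · intro x hx
    rw [← W.ind x hx A B hA.ker hB.ker, h, eval_C]
    exact hc

/-- a polynomial without zeros away from the origin, in at least two variables, is constant. -/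
theorem const_of_no_zero {m : ℕ} (hm : 2 ≤ m) {p : MvPolynomial (Fin m) ℂ}
    (hp : ∀ x : Fin m → ℂ, x ≠ 0 → eval x p ≠ 0) : ∃ c : ℂ, c ≠ 0 ∧ p = C c := by
  have hu : IsUnit p := by
    by_contra hu
    have h0 : p ≠ 0 := by
      intro h0
      apply hp (fun _ => 1)
      · intro h
        simpa using congrFun h ⟨0, by omega⟩
      · rw [h0, map_zero]
    obtain ⟨π, hπ, hπp⟩ := WfDvdMonoid.exists_irreducible_factor hu h0
    obtain ⟨v, hv, hv0⟩ := no_isolated_prime hm π (UniqueFactorizationMonoid.irreducible_iff_prime.1 hπ)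
    apply hp v hv
    obtain ⟨q, rfl⟩ := hπp
    rw [map_mul, hv0, zero_mul]
  rw [MvPolynomial.isUnit_iff_eq_C_of_isReduced] at hu
  obtain ⟨c, hc, rfl⟩ := hu
  exact ⟨c, hc.ne_zero, rfl⟩

theorem splits_of_no_zero (hn : 1 ≤ n) {τ τ' : M} {A B : Vec E.a n} (hA : HSec D τ A)
    (hB : HSec D τ' B) (h : ∀ x : Fin (n + 1) → ℂ, x ≠ 0 → eval x (W.wd A B) ≠ 0) :
    E.Splits := by
  obtain ⟨c, hc, h1⟩ := const_of_no_zero (by omega) h
  exact splits_of_const W hA hB c hc h1

/-! ### primitive sections -/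

/-- the entries have no common factor -/
def Prm {a : ℕ} (s : Vec a n) : Prop := ∀ p : MvPolynomial (Fin (n + 1)) ℂ, (∀ i, p ∣ s i) → IsUnit p

theorem Prm.ne {a : ℕ} {s : Vec a n} (h : Prm s) : ∃ i, s i ≠ 0 := by
  by_contra hc
  push Not at hc
  exact not_isUnit_zero (h 0 fun i => by rw [hc i])

/-- a vector parallel to a primitive one is a multiple of it. -/
theorem Prm.dvd {a : ℕ} {s H : Vec a n} (h : Prm s) (hp : ∀ i j, s i * H j = s j * H i) :
    ∃ f : MvPolynomial (Fin (n + 1)) ℂ, ∀ i, H i = f * s i := by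
  obtain ⟨i0, hi0⟩ := h.ne
  have hd : s i0 ∣ H i0 := by
    refine dvd_of_primes hi0 fun π hπ _ => ?_
    by_contra hc
    push Not at hc
    apply hπ.not_isUnit
    apply h
    intro j
    exact hc (s j) (H j) (hp i0 j)
  obtain ⟨f, hf⟩ := hd
  refine ⟨f, fun j => ?_⟩
  apply mul_left_cancel₀ hi0
  rw [hp i0 j, hf]
  ring

theorem par_of_wd {G H : Vec E.a n} (hG : Ker E G) (hH : Ker E H) (h : W.wd G H = 0) (i j) :
    G i * H j = G j * H i := by
  have h1 := W.eq G H hG hH i j
  rw [h, zero_mul] at h1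
  exact sub_eq_zero.1 h1

theorem Prm.dvd_wd {s H : Vec E.a n} (h : Prm s) (hs : Ker E s) (hH : Ker E H)
    (hw : W.wd s H = 0) : ∃ f : MvPolynomial (Fin (n + 1)) ℂ, ∀ i, H i = f * s i :=
  h.dvd (par_of_wd W hs hH hw)

/-- a nowhere vanishing vector is primitive. -/
theorem prm_of_no_zero (hn : 1 ≤ n) {a : ℕ} {s : Vec a n}
    (h : ∀ x : Fin (n + 1) → ℂ, x ≠ 0 → evv s x ≠ 0) : Prm s := by
  intro p hp
  have h2 : ∀ x : Fin (n + 1) → ℂ, x ≠ 0 → eval x p ≠ 0 := by
    intro x hx h0
    apply h x hx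
    funext i
    obtain ⟨q, hq⟩ := hp i
    show eval x (s i) = 0
    rw [hq, map_mul, h0, zero_mul]
  obtain ⟨c, hc, rfl⟩ := const_of_no_zero (by omega) h2
  exact (isUnit_iff_ne_zero.2 hc).map C

/-- each nonzero semi-invariant section is a multiple of a primitive one. -/
theorem exists_prm {τ : M} {G : Vec E.a n} (hG : HSec D τ G) (h0 : ∃ i, G i ≠ 0) :
    ∃ (δ : M) (g : MvPolynomial (Fin (n + 1)) ℂ) (s : Vec E.a n), g ≠ 0 ∧
      IsWeightedHomogeneous (tw w) g δ ∧ HSec D (τ - δ) s ∧ Prm s ∧ ∀ i, G i = g * s i := by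
  classical
  obtain ⟨i0, hi0⟩ := h0
  let _ : StrongNormalizationMonoid (MvPolynomial (Fin (n + 1)) ℂ) :=
    UniqueFactorizationMonoid.strongNormalizationMonoid
  let _ : StrongNormalizedGCDMonoid (MvPolynomial (Fin (n + 1)) ℂ) :=
    UniqueFactorizationMonoid.toStrongNormalizedGCDMonoid _
  obtain ⟨s, hs1, hs2⟩ := Finset.extract_gcd (s := (Finset.univ : Finset (Fin E.a)))
    (fun i => G i) ⟨i0, Finset.mem_univ _⟩
  set g := Finset.univ.gcd (fun i => G i) with hg
  have hGs : ∀ i, G i = g * s i := fun i => hs1 i (Finset.mem_univ _)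
  have hg0 : g ≠ 0 := by
    intro h
    apply hi0
    rw [hGs, h, zero_mul]
  have hs0 : ∀ i, G i ≠ 0 → s i ≠ 0 := by
    intro i hi h
    apply hi
    rw [hGs, h, mul_zero]
  obtain ⟨δ, ε, hδε, hδ, hε⟩ := hom_of_mul (tw w) (f := g) (g := s i0)
    (τ := (E.β i0, D.b i0) + τ) (by rw [← hGs]; exact hG.hom i0) (by rw [← hGs]; exact hi0)
  refine ⟨δ, g, s, hg0, hδ, ⟨?_, ?_⟩, ?_, hGs⟩
  · intro i
    by_cases hi : G i = 0
    · have : s i = 0 := by
        have h1 := hGs i
        rw [hi] at h1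
        exact (mul_eq_zero.1 h1.symm).resolve_left hg0
      rw [this]
      exact isWeightedHomogeneous_zero _ _ _
    · obtain ⟨δ', ε', hδε', hδ', hε'⟩ := hom_of_mul (tw w) (f := g) (g := s i)
        (τ := (E.β i, D.b i) + τ) (by rw [← hGs]; exact hG.hom i) (by rw [← hGs]; exact hi)
      have h1 : δ' = δ := hδ'.inj_right hg0 hδ
      have h2 : ((E.β i, D.b i) + (τ - δ) : M) = ε' := by
        rw [← add_sub_assoc, ← hδε', h1]
        abel
      rw [h2]
      exact hε'
  · have h1 : Ker E (fun i => g * s i) := by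
      have h2 : (fun i => g * s i) = G := by
        funext i
        rw [hGs]
      rw [h2]
      exact hG.ker
    exact ker_of_mul hg0 h1
  · intro p hp
    have h1 : p ∣ Finset.univ.gcd s := Finset.dvd_gcd fun i _ => hp i
    rw [hs2] at h1
    exact isUnit_of_dvd_one h1

/-! ### weights -/

/-- a homomorphism from the degree group to a group `A`. -/
theorem weight_chi {A : Type*} [AddCommGroup A] (χ : M →+ A) (u : Fin (n + 1) →₀ ℕ) :
    χ (Finsupp.weight (tw w) u) = ∑ i, u i • χ (tw w i) := by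
  rw [Finsupp.weight_apply, Finsupp.sum_fintype _ _ (by simp), map_sum]
  exact Finset.sum_congr rfl fun i _ => by rw [map_nsmul]

theorem chi_eq_zero {A : Type*} [AddCommGroup A] (χ : M →+ A) (hχ : ∀ i, χ (tw w i) = 0)
    {p : MvPolynomial (Fin (n + 1)) ℂ} {τ : M} (hp : IsWeightedHomogeneous (tw w) p τ)
    (h0 : p ≠ 0) : χ τ = 0 := by
  obtain ⟨u, hu⟩ := ne_zero_iff.1 h0
  rw [← hp hu, weight_chi]
  exact Finset.sum_eq_zero fun i _ => by rw [hχ, smul_zero]

end Pool.Agent.W615
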