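import Pool.Agent.W615.ElD3

/-!
# The Jordan types of the vector fields lifting to a bundle of rank two (helper615)
-/

set_option autoImplicit false
set_option maxHeartbeats 400000

open MvPolynomial H960VB H938TB

namespace Pool.Agent.W615

section
variable {n : ℕ} {E : Bundle2 n} {N : Matrix (Fin (n + 1)) (Fin (n + 1)) ℂ}

theorem jordan_types (L : Lft (triv E) 0 (vf N))
    (h1 : 2 ≤ Module.finrank ℂ (LinearMap.ker N.mulVecLin))
    (h2 : Module.finrank ℂ (LinearMap.ker N.mulVecLin) <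
      Module.finrank ℂ (LinearMap.ker (N.mulVecLin ^ 2)))
    (h3 : Module.finrank ℂ (LinearMap.ker (N.mulVecLin ^ 2)) <
        Module.finrank ℂ (LinearMap.ker (N.mulVecLin ^ 3)) ∨
      5 ≤ Module.finrank ℂ (LinearMap.ker (N.mulVecLin ^ 2))) : E.Splits := by
  have e1 := finrank_ker_pow_succ N.mulVecLin 2
  have e2 := finrank_ker_pow_succ N.mulVecLin 1
  rw [pow_one] at e2
  have e0 : (1 + 1 : ℕ) = 2 := rfl
  have e0' : (2 + 1 : ℕ) = 3 := rfl
  rw [e0] at e2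
  rw [e0'] at e1
  by_cases hb : (LinearMap.ker N.mulVecLin ⊓ LinearMap.range (N.mulVecLin ^ 2) :
      Submodule ℂ (Fin (n + 1) → ℂ)) = ⊥
  · rw [hb, finrank_bot] at e1
    rcases h3 with h3 | h3
    · omega
    obtain ⟨c, ⟨hc1, ⟨y, rfl⟩⟩, hc0⟩ := Submodule.exists_mem_ne_zero_of_ne_bot
      (p := (LinearMap.ker N.mulVecLin ⊓ LinearMap.range N.mulVecLin :
        Submodule ℂ (Fin (n + 1) → ℂ))) (fun h => by
        rw [h, finrank_bot] at e2
        omega)
    by_cases h4 : 4 ≤ Module.finrank ℂ (LinearMap.ker N.mulVecLin)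
    · exact four_dim L h4 y hc1 hc0
    · have e3 : Module.finrank ℂ (LinearMap.ker N.mulVecLin ⊓ LinearMap.range N.mulVecLin :
          Submodule ℂ (Fin (n + 1) → ℂ)) ≤ Module.finrank ℂ (LinearMap.ker N.mulVecLin) :=
        Submodule.finrank_mono inf_le_left
      obtain ⟨z, ⟨hz1, ⟨y', rfl⟩⟩, hz⟩ := lin_pair
        (K := (LinearMap.ker N.mulVecLin ⊓ LinearMap.range N.mulVecLin :
          Submodule ℂ (Fin (n + 1) → ℂ)))
        (c := N.mulVec y) ⟨hc1, ⟨y, rfl⟩⟩ hc0 (by omega)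
      obtain ⟨x, hx, hxi⟩ := lin_triple (K := LinearMap.ker N.mulVecLin)
        (c₁ := N.mulVec y) hc1 hz1 hz (by omega)
      exact two_blocks L y y' x hc1 hz1 hx hxi
  · obtain ⟨c, ⟨hc1, ⟨u, rfl⟩⟩, hc0⟩ := Submodule.exists_mem_ne_zero_of_ne_bot hb
    have hu : (N.mulVecLin ^ 2) u = N.mulVec (N.mulVec u) := by
      rw [pow_two]
      rfl
    rw [hu] at hc1 hc0
    obtain ⟨z, hz, hi⟩ := lin_pair (K := LinearMap.ker N.mulVecLin) hc1 hc0 h1
    exact string_and L hc1 hz hi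

theorem jordan_types' (N : Matrix (Fin (n + 1)) (Fin (n + 1)) ℂ)
    (ν : Matrix (Fin E.a) (Fin E.a) (MvPolynomial (Fin (n + 1)) ℂ))
    (μ : Matrix (Fin E.c) (Fin E.c) (MvPolynomial (Fin (n + 1)) ℂ))
    (hc : ∀ k i, ∑ s, pderiv s (E.B k i) * (∑ t, C (N s t) * X t) =
      ∑ l, μ k l * E.B l i + ∑ j, E.B k j * ν j i)
    (l : ℂ) (h1 : 2 ≤ Module.finrank ℂ (LinearMap.ker (N - Matrix.scalar _ l).mulVecLin))
    (h2 : Module.finrank ℂ (LinearMap.ker (N - Matrix.scalar _ l).mulVecLin) <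
      Module.finrank ℂ (LinearMap.ker ((N - Matrix.scalar _ l).mulVecLin ^ 2)))
    (h3 : Module.finrank ℂ (LinearMap.ker ((N - Matrix.scalar _ l).mulVecLin ^ 2)) <
        Module.finrank ℂ (LinearMap.ker ((N - Matrix.scalar _ l).mulVecLin ^ 3)) ∨
      5 ≤ Module.finrank ℂ (LinearMap.ker ((N - Matrix.scalar _ l).mulVecLin ^ 2))) :
    E.Splits :=
  jordan_types (shiftN (homLft (triv E) 0 (vf N) (vf_hom0 N) ν μ
    (fun k i => by rw [vf_eq_sum]; exact hc k i)) l) h1 h2 h3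

end

end Pool.Agent.W615
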