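import Pool.Agent.W615.V9

/-!
# Regular nilpotent vector fields on `P^4` (helper615)
-/

set_option autoImplicit false
set_option maxHeartbeats 400000

open MvPolynomial H960VB H938TB

namespace Pool.Agent.W615

section
variable {n : ℕ} {E : Bundle2 n} {δ : Der n} (L : Lft (triv E) 0 δ) (W : Wedge (triv E))

/-- the action on the fibre at a fixed point -/
noncomputable def N0 (x : Fin (n + 1) → ℂ) : Matrix (Fin E.a) (Fin E.a) ℂ := L.ν.map (eval x)

theorem op_N0 {x : Fin (n + 1) → ℂ} (hx : ∀ p, eval x (δ p) = 0) (G : Vec E.a n) :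
    evv (L.op G) x = (N0 L x).mulVec (evv G x) := by
  funext i
  rw [op_eval L hx]
  rfl

theorem wd_at {x : Fin (n + 1) → ℂ} (hx : x ≠ 0) {H₁ H₂ H' : Vec E.a n} (h₁ : Ker E H₁)
    (h₂ : Ker E H₂) (h' : Ker E H') {c : ℂ} (h : ∀ i, eval x (H₁ i) = c * eval x (H₂ i)) :
    eval x (W.wd H₁ H') = c * eval x (W.wd H₂ H') := by
  obtain ⟨i, j, hP⟩ := W.P_ne x hx
  have a1 := congrArg (eval x) (W.eq H₁ H' h₁ h' i j)
  have a2 := congrArg (eval x) (W.eq H₂ H' h₂ h' i j)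
  rw [map_sub, map_mul, map_mul, map_mul] at a1 a2
  rw [h i, h j] at a1
  apply mul_right_cancel₀ hP
  linear_combination c * a2 - a1

theorem fix_gen (hfix : ∀ p, eval (Pi.single 0 1 : Fin (n + 1) → ℂ) (δ p) = 0)
    (hsc : ¬ Sc L (Pi.single 0 1)) : ∃ (τ : M) (G : Vec E.a n), HSec (triv E) τ G ∧
      eval (Pi.single 0 1) (W.wd (L.op G) G) ≠ 0 := by
  set x : Fin (n + 1) → ℂ := Pi.single 0 1 with hxd
  have hx : x ≠ 0 := e0_ne n
  by_contra hc
  push Not at hc
  have hev : ∀ (τ : M) (G : Vec E.a n), HSec (triv E) τ G → evv G x ≠ 0 →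
      ∃ a : ℂ, a • evv G x = evv (L.op G) x := by
    intro τ G hG hG0
    have h1 := hc τ G hG
    rw [W.anti _ _ (L.op_ker hG.ker) hG.ker, map_neg, neg_eq_zero] at h1
    have h2 : ¬ LinearIndependent ℂ ![evv G x, evv (L.op G) x] := fun h =>
      (W.ind x hx G (L.op G) hG.ker (L.op_ker hG.ker)).2 h h1
    rw [LinearIndependent.pair_iff' hG0] at h2
    push Not at h2
    exact h2
  obtain ⟨τ₁, τ₂, G₁, G₂, h₁, h₂, hu⟩ := exists_ne W (D := triv E) x hx
  have hli := (W.ind x hx G₁ G₂ h₁.ker h₂.ker).1 hu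
  obtain ⟨a₁, ha₁⟩ := hev τ₁ G₁ h₁ (hli.ne_zero 0)
  obtain ⟨a₂, ha₂⟩ := hev τ₂ G₂ h₂ (hli.ne_zero 1)
  have hne : a₁ ≠ a₂ := by
    intro h
    exact hsc ⟨a₁, fun G hG => sc_of L W hfix h₁.ker h₂.ker hu a₁ ha₁.symm
      (by rw [h]; exact ha₂.symm) G hG⟩
  have hX : ∀ k : ℕ, eval x (X 0 ^ k) = 1 := by
    intro k
    rw [map_pow, eval_X, hxd, Pi.single_eq_same, one_pow]
  have s₁ := hsec_triv h₁
  have s₂ := hsec_triv h₂
  have t₁ : HSec (triv E) (max τ₁.1 τ₂.1, 0)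
      (fun i => X 0 ^ (τ₂.1 - τ₁.1).toNat * G₁ i) := by
    refine hsec_mul (wh_pow 0 _) s₁ ?_
    ext
    · show max τ₁.1 τ₂.1 = ((τ₂.1 - τ₁.1).toNat : ℤ) + τ₁.1
      rcases le_total τ₁.1 τ₂.1 with h | h
      · rw [max_eq_right h, Int.toNat_of_nonneg (by omega)]; ring
      · rw [max_eq_left h, Int.toNat_of_nonpos (by omega)]; simp
    · simp
    · simp
  have t₂ : HSec (triv E) (max τ₁.1 τ₂.1, 0)
      (fun i => X 0 ^ (τ₁.1 - τ₂.1).toNat * G₂ i) := by
    refine hsec_mul (wh_pow 0 _) s₂ ?_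
    ext
    · show max τ₁.1 τ₂.1 = ((τ₁.1 - τ₂.1).toNat : ℤ) + τ₂.1
      rcases le_total τ₁.1 τ₂.1 with h | h
      · rw [max_eq_right h, Int.toNat_of_nonpos (by omega)]; simp
      · rw [max_eq_left h, Int.toNat_of_nonneg (by omega)]; ring
    · simp
    · simp
  have t := hsec_add t₁ t₂
  have e1 : evv (fun i => (fun i => X 0 ^ (τ₂.1 - τ₁.1).toNat * G₁ i) i +
      (fun i => X 0 ^ (τ₁.1 - τ₂.1).toNat * G₂ i) i) x = evv G₁ x + evv G₂ x := by
    funext i
    show eval x (X 0 ^ (τ₂.1 - τ₁.1).toNat * G₁ i + X 0 ^ (τ₁.1 - τ₂.1).toNat * G₂ i) = _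
    rw [map_add, map_mul, map_mul, hX, hX, one_mul, one_mul]
    rfl
  have hne0 : evv G₁ x + evv G₂ x ≠ 0 := by
    intro h0
    have h3 := (LinearIndependent.pair_iff.1 hli) 1 1 (by rw [one_smul, one_smul]; exact h0)
    exact one_ne_zero h3.1
  obtain ⟨a, ha⟩ := hev _ _ t (by rw [e1]; exact hne0)
  rw [op_N0 L hfix, e1, Matrix.mulVec_add, ← op_N0 L hfix, ← op_N0 L hfix, ← ha₁, ← ha₂] at ha
  have h3 := (LinearIndependent.pair_iff.1 hli) (a - a₁) (a - a₂) (by
    rw [sub_smul, sub_smul]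
    rw [smul_add] at ha
    have : a • evv G₁ x - a₁ • evv G₁ x + (a • evv G₂ x - a₂ • evv G₂ x) =
      (a • evv G₁ x + a • evv G₂ x) - (a₁ • evv G₁ x + a₂ • evv G₂ x) := by abel
    rw [this, ha, sub_self])
  apply hne
  rw [← sub_eq_zero.1 h3.1, ← sub_eq_zero.1 h3.2]

/-- the Cayley-Hamilton theorem on the fibre -/
theorem ch_pt {x : Fin (n + 1) → ℂ} (hfix : ∀ p, eval x (δ p) = 0) {G : Vec E.a n}
    (hG : Ker E G) (hG0 : eval x (W.wd (L.op G) G) ≠ 0) : ∃ l θ : ℂ, ∀ H, Ker E H → ∀ i,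
      eval x ((L.shift l).op ((L.shift l).op H) i) = θ * eval x ((L.shift l).op H i) := by
  have kL := L.op_ker hG
  obtain ⟨t, b, htb⟩ := span_pt W kL hG (L.op_ker kL) hG0
  obtain ⟨z, hz⟩ := IsAlgClosed.exists_pow_nat_eq (t ^ 2 + 4 * b) (by norm_num : 0 < 2)
  set l := (t + z) / 2 with hl
  have hll : l ^ 2 = t * l + b := by
    rw [hl]
    linear_combination hz / 4
  refine ⟨l, t - 2 * l, fun H hH i => ?_⟩
  obtain ⟨α, β, hαβ⟩ := span_pt W kL hG hH hG0
  have hch : (N0 L x).mulVec ((N0 L x).mulVec (evv H x)) =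
      t • (N0 L x).mulVec (evv H x) + b • evv H x := by
    have e1 : (N0 L x).mulVec ((N0 L x).mulVec (evv G x)) =
        t • (N0 L x).mulVec (evv G x) + b • evv G x := by
      rw [← op_N0 L hfix, ← op_N0 L hfix]
      exact htb
    rw [hαβ, op_N0 L hfix, Matrix.mulVec_add, Matrix.mulVec_smul, Matrix.mulVec_smul, e1]
    simp only [Matrix.mulVec_add, Matrix.mulVec_smul, e1]
    module
  have e2 : ∀ (K : Vec E.a n) (i : Fin E.a), eval x ((L.shift l).op K i) =
      (N0 L x).mulVec (evv K x) i - l * evv K x i := by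
    intro K i
    rw [Lft.shift_op, map_sub, map_mul, eval_C, ← op_N0 L hfix]
    rfl
  have e3 : evv ((L.shift l).op H) x = (N0 L x).mulVec (evv H x) - l • evv H x := by
    funext i
    exact e2 H i
  have e4 : evv ((L.shift l).op H) x i = (N0 L x).mulVec (evv H x) i - l * evv H x i := e2 H i
  rw [e2, e4, e2, e3, Matrix.mulVec_sub, Matrix.mulVec_smul]
  have h1 := congrFun hch i
  simp only [Pi.add_apply, Pi.sub_apply, Pi.smul_apply, smul_eq_mul] at h1 ⊢
  linear_combination h1 - (evv H x i) * hll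

end

/-- the regular nilpotent vector field on `P^4` -/
noncomputable def δr : Der 4 := mkDerivation ℂ ![X 1, X 2, X 3, X 4, 0]

theorem δr_X (i : Fin 5) : δr (X i) =
    (![X 1, X 2, X 3, X 4, 0] : Fin 5 → MvPolynomial (Fin (4 + 1)) ℂ) i := mkDerivation_X _ _ _

theorem δr_C (a : ℂ) : δr (C a) = 0 := derivation_C _ _

theorem δr_succ (i : Fin 4) : δr (X i.castSucc) = X i.succ := by
  fin_cases i
  · exact δr_X 0
  · exact δr_X 1
  · exact δr_X 2
  · exact δr_X 3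

theorem δr_wt (i : Fin (4 + 1)) : IsWeightedHomogeneous w5 (δr (X i)) (w5 i + 1) := by
  fin_cases i
  · exact (δr_X 0).symm ▸ isWeightedHomogeneous_X ℂ w5 1
  · exact (δr_X 1).symm ▸ isWeightedHomogeneous_X ℂ w5 2
  · exact (δr_X 2).symm ▸ isWeightedHomogeneous_X ℂ w5 3
  · exact (δr_X 3).symm ▸ isWeightedHomogeneous_X ℂ w5 4
  · exact (δr_X 4).symm ▸ isWeightedHomogeneous_zero ℂ w5 _

theorem δr_fix (p : MvPolynomial (Fin (4 + 1)) ℂ) :
    eval (Pi.single 0 1 : Fin (4 + 1) → ℂ) (δr p) = 0 := by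
  rw [der_eq_sum]
  show eval _ (∑ i : Fin 5, _) = 0
  rw [Fin.sum_univ_five, δr_X, δr_X, δr_X, δr_X, δr_X]
  simp

theorem w5_le (i : Fin (4 + 1)) : w5 i ≤ 4 := by
  fin_cases i <;> norm_num [w5]

theorem w5_nn (i : Fin (4 + 1)) : 0 ≤ w5 i := by
  fin_cases i <;> norm_num [w5]

theorem reg5 {E : Bundle2 4} (L : Lft (triv E) 0 δr) (hsc : ¬ Sc L (Pi.single 0 1)) :
    E.Splits := by
  obtain ⟨W⟩ := exists_wedge (by norm_num) (triv E)
  have hx : (Pi.single 0 1 : Fin (4 + 1) → ℂ) ≠ 0 := e0_ne 4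
  obtain ⟨τ, G, hG, hG0⟩ := fix_gen L W δr_fix hsc
  obtain ⟨l, θ, hsq⟩ := ch_pt L W δr_fix hG.ker hG0
  set L' := L.shift l with hL'
  have hG0' : eval (Pi.single 0 1) (W.wd (L'.op G) G) ≠ 0 := by
    have e1 : L'.op G = fun i => L.op G i - (fun i => C l * G i) i :=
      funext fun i => L.shift_op l G i
    rw [e1, wd_sub_left W (L.op_ker hG.ker) (ker_mul hG.ker _) hG.ker, W.smul _ _ _ hG.ker hG.ker,
      wd_self W hG.ker, mul_zero, sub_zero]
    exact hG0
  have kL := L'.op_ker hG.ker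
  obtain ⟨θ', -, hθ'⟩ := L'.exists_trace W (by norm_num) rfl
  have hθθ : θ' = θ := by
    have h1 := congrArg (eval (Pi.single 0 1 : Fin (4 + 1) → ℂ)) (hθ' (L'.op G) G kL hG.ker)
    rw [map_add, map_add, wd_self W kL, map_zero, add_zero, δr_fix, zero_add, map_mul, eval_C,
      wd_at W hx (L'.op_ker kL) kL hG.ker (hsq G hG.ker)] at h1
    exact (mul_right_cancel₀ hG0' h1).symm
  subst hθθ
  by_cases hθ : θ' = 0
  · subst hθ
    have tr : ∀ H H', Ker E H → Ker E H' →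
        W.wd (L'.op H) H' + W.wd H (L'.op H') = δr (W.wd H H') := by
      intro H H' hH hH'
      rw [hθ' H H' hH hH', C_0, zero_mul, add_zero]
    have hLG : HSec (triv E) τ (L'.op G) := by
      have h := L'.op_hom hG
      rwa [add_zero] at h
    have hLLG : HSec (triv E) τ (L'.op (L'.op G)) := by
      have h := L'.op_hom hLG
      rwa [add_zero] at h
    have w0 : cp w5 0 (W.wd (L'.op G) G) ≠ 0 := by
      rcases homZ_of (W.hom _ _ _ _ hLG hG) with h7 | ⟨l, -, h7⟩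
      · rw [h7, map_zero] at hG0'
        exact absurd rfl hG0'
      · rw [cp0 rfl w5_pos h7]
        exact mul_ne_zero (by rwa [Ne, C_eq_zero]) (pow_ne_zero _ (X_ne_zero 0))
    have z1 : Od w5 1 (W.wd (L'.op G) (L'.op (L'.op G))) := by
      refine Od_one rfl w5_pos (W.hom _ _ _ _ hLG hLLG)
        (eval_zero_of_wd W hx kL hLLG.ker (Or.inr ?_))
      funext i
      show eval _ (L'.op (L'.op G) i) = 0
      rw [hsq G hG.ker, zero_mul]
    exact VF.splits (L := L') (W := W) ⟨G, τ, hG, w5_nn, δr_wt, tr, w0,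
      z2_of L' W w5_nn w5_le δr_wt tr hG w0 z1⟩ δr_succ
  · exact two_ev (by norm_num) rfl w5_pos w5_le δr_wt W L' hθ hθ' hG hG0' hsq

section
variable {n : ℕ} {E : Bundle2 n} {N : Matrix (Fin (n + 1)) (Fin (n + 1)) ℂ}

/-- a string of length five. -/
theorem string_five (L : Lft (triv E) 0 (vf N)) {u : Fin (n + 1) → ℂ}
    (h5 : N.mulVec (N.mulVec (N.mulVec (N.mulVec (N.mulVec u)))) = 0)
    (h4 : N.mulVec (N.mulVec (N.mulVec (N.mulVec u))) ≠ 0) : E.Splits := by
  by_contra hE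
  set u₁ := N.mulVec u with hu₁
  set u₂ := N.mulVec u₁ with hu₂
  set u₃ := N.mulVec u₂ with hu₃
  set u₄ := N.mulVec u₃ with hu₄
  have hli : LinearIndependent ℂ ![u₄, u₃, u₂, u₁, u] := by
    rw [Fintype.linearIndependent_iff]
    intro g hg
    rw [Fin.sum_univ_five] at hg
    simp only [Matrix.cons_val] at hg
    have k1 := congrArg N.mulVec hg
    simp only [Matrix.mulVec_add, Matrix.mulVec_smul, h5, ← hu₁, ← hu₂, ← hu₃, ← hu₄,
      Matrix.mulVec_zero, smul_zero, zero_add] at k1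
    have k2 := congrArg N.mulVec k1
    simp only [Matrix.mulVec_add, Matrix.mulVec_smul, h5, ← hu₁, ← hu₂, ← hu₃, ← hu₄,
      Matrix.mulVec_zero, smul_zero, zero_add] at k2
    have k3 := congrArg N.mulVec k2
    simp only [Matrix.mulVec_add, Matrix.mulVec_smul, h5, ← hu₁, ← hu₂, ← hu₃, ← hu₄,
      Matrix.mulVec_zero, smul_zero, zero_add] at k3
    have k4 := congrArg N.mulVec k3
    simp only [Matrix.mulVec_add, Matrix.mulVec_smul, h5, ← hu₁, ← hu₂, ← hu₃, ← hu₄,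
      Matrix.mulVec_zero, smul_zero, zero_add] at k4
    have g4 : g 4 = 0 := (smul_eq_zero.1 k4).resolve_right h4
    rw [g4, zero_smul, add_zero] at k3
    have g3 : g 3 = 0 := (smul_eq_zero.1 k3).resolve_right h4
    rw [g4, g3, zero_smul, zero_smul, add_zero, add_zero] at k2
    have g2 : g 2 = 0 := (smul_eq_zero.1 k2).resolve_right h4
    rw [g4, g3, g2, zero_smul, zero_smul, zero_smul, add_zero, add_zero, add_zero] at k1
    have g1 : g 1 = 0 := (smul_eq_zero.1 k1).resolve_right h4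
    rw [g4, g3, g2, g1, zero_smul, zero_smul, zero_smul, zero_smul, add_zero, add_zero, add_zero,
      add_zero] at hg
    have g0 : g 0 = 0 := (smul_eq_zero.1 hg).resolve_right h4
    intro i
    fin_cases i
    · exact g0
    · exact g1
    · exact g2
    · exact g3
    · exact g4
  let T : (Fin (4 + 1) → ℂ) →ₗ[ℂ] (Fin (n + 1) → ℂ) :=
    Fintype.linearCombination ℂ ![u₄, u₃, u₂, u₁, u]
  have hT : Function.Injective T := hli.fintypeLinearCombination_injective
  have hTs : ∀ t, T (Pi.single t 1) = ![u₄, u₃, u₂, u₁, u] t := by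
    intro t
    simp only [T]
    rw [Fintype.linearCombination_apply_single, one_smul]
  have hn : 4 ≤ n := by
    have h3 := LinearMap.finrank_le_finrank_of_injective hT
    rw [Module.finrank_fintype_fun_eq_card, Module.finrank_fintype_fun_eq_card, Fintype.card_fin,
      Fintype.card_fin] at h3
    omega
  have hd : ∀ i, lsub T (vf N (X i)) = δr (lsub T (X i)) := by
    intro i
    rw [lsub_vf, lsub_X, map_sum]
    show ∑ t : Fin 5, _ = ∑ t : Fin 5, _
    rw [Fin.sum_univ_five, Fin.sum_univ_five, hTs, hTs, hTs, hTs, hTs]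
    show C (N.mulVec u₄ i) * X 0 + C (N.mulVec u₃ i) * X 1 + C (N.mulVec u₂ i) * X 2 +
        C (N.mulVec u₁ i) * X 3 + C (N.mulVec u i) * X 4 =
      δr (C (u₄ i) * X 0) + δr (C (u₃ i) * X 1) + δr (C (u₂ i) * X 2) + δr (C (u₁ i) * X 3) +
        δr (C (u i) * X 4)
    rw [h5, ← hu₄, ← hu₃, ← hu₂, ← hu₁, Derivation.leibniz, Derivation.leibniz,
      Derivation.leibniz, Derivation.leibniz, Derivation.leibniz, δr_C, δr_C, δr_C, δr_C, δr_C,
      δr_X, δr_X, δr_X, δr_X, δr_X]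
    simp
  have hδ' : ∀ i, IsWeightedHomogeneous (tw (0 : Fin (4 + 1) → ℤ × ℤ)) (δr (X i))
      (tw (0 : Fin (4 + 1) → ℤ × ℤ) i + 0) := by
    intro i
    rw [add_zero, δr_X]
    fin_cases i
    · exact isWeightedHomogeneous_X _ _ _
    · exact isWeightedHomogeneous_X _ _ _
    · exact isWeightedHomogeneous_X _ _ _
    · exact isWeightedHomogeneous_X _ _ _
    · exact isWeightedHomogeneous_zero _ _ _
  have hE' : ¬ (E.pull T hT).Splits := fun h =>
    hE (Bundle2.splits_of_pull (n - 4) 4 n (by norm_num) (by omega) E T hT h)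
  refine hE' (reg5 (L.pull T hT 0 (fun _ _ _ => rfl) δr hd hδ') fun hs => ?_)
  have h3 := sc_pull L T hT 0 (fun _ _ _ => rfl) δr hd hδ' hs
  rw [show T (Pi.single 0 1) = u₄ from hTs 0] at h3
  exact not_sc_string hE L (u := u₂) h5 h4 h3

end

end Pool.Agent.W615
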