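import Pool.Agent.W615.GenJ
import Pool.Agent.W615.V10

/-!
# Non-semisimple eigenvalues of multiplicity at least five (helper615)
-/

set_option autoImplicit false
set_option maxHeartbeats 400000

open MvPolynomial H960VB H938TB

namespace Pool.Agent.W615

section
variable {n : ℕ} {E : Bundle2 n} {N : Matrix (Fin (n + 1)) (Fin (n + 1)) ℂ}

theorem non_semisimple (L : Lft (triv E) 0 (vf N))
    (h2 : Module.finrank ℂ (LinearMap.ker N.mulVecLin) <
      Module.finrank ℂ (LinearMap.ker (N.mulVecLin ^ 2)))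
    (h3 : (∃ j, 5 ≤ Module.finrank ℂ (LinearMap.ker (N.mulVecLin ^ j))) ∨
      (2 ≤ Module.finrank ℂ (LinearMap.ker N.mulVecLin) ∧
        Module.finrank ℂ (LinearMap.ker (N.mulVecLin ^ 2)) <
        Module.finrank ℂ (LinearMap.ker (N.mulVecLin ^ 3)))) : E.Splits := by
  rcases h3 with ⟨j, hj⟩ | ⟨h1, h3⟩
  swap
  · exact jordan_types L h1 h2 (Or.inl h3)
  set f := N.mulVecLin with hf
  have mono : ∀ a b : ℕ, a ≤ b → LinearMap.ker (f ^ a) ≤ LinearMap.ker (f ^ b) := by
    intro a b hab x hx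
    obtain ⟨c, rfl⟩ := Nat.exists_eq_add_of_le hab
    rw [LinearMap.mem_ker] at hx ⊢
    rw [add_comm a c, pow_add, Module.End.mul_apply, hx, map_zero]
  by_cases h45 : LinearMap.ker (f ^ 5) ≤ LinearMap.ker (f ^ 4)
  · -- the kernels are stable from the fourth power on
    have stab : ∀ c : ℕ, LinearMap.ker (f ^ (4 + c)) ≤ LinearMap.ker (f ^ 4) := by
      intro c
      induction c with
      | zero => exact le_refl _
      | succ c ih =>
        intro x hx
        rw [LinearMap.mem_ker] at hx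
        have h6 : f x ∈ LinearMap.ker (f ^ (4 + c)) := by
          rw [LinearMap.mem_ker]
          rw [← add_assoc, pow_succ, Module.End.mul_apply] at hx
          exact hx
        have h7 := ih h6
        apply h45
        rw [LinearMap.mem_ker] at h7 ⊢
        rw [pow_succ, Module.End.mul_apply]
        exact h7
    have hd : 5 ≤ Module.finrank ℂ (LinearMap.ker (f ^ 4)) :=
      le_trans hj (Submodule.finrank_mono (le_trans (mono j (4 + j) (by omega)) (stab j)))
    have e1 := finrank_ker_pow_succ f 1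
    have e2 := finrank_ker_pow_succ f 2
    have e3 := finrank_ker_pow_succ f 3
    have e0 : (1 + 1 : ℕ) = 2 := rfl
    have e0' : (2 + 1 : ℕ) = 3 := rfl
    have e0'' : (3 + 1 : ℕ) = 4 := rfl
    rw [e0, pow_one] at e1
    rw [e0'] at e2
    rw [e0''] at e3
    have b1 : Module.finrank ℂ (LinearMap.ker f ⊓ LinearMap.range f :
        Submodule ℂ (Fin (n + 1) → ℂ)) ≤ Module.finrank ℂ (LinearMap.ker f) :=
      Submodule.finrank_mono inf_le_left
    have b2 : Module.finrank ℂ (LinearMap.ker f ⊓ LinearMap.range (f ^ 2) :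
        Submodule ℂ (Fin (n + 1) → ℂ)) ≤ Module.finrank ℂ (LinearMap.ker f) :=
      Submodule.finrank_mono inf_le_left
    have b3 : Module.finrank ℂ (LinearMap.ker f ⊓ LinearMap.range (f ^ 3) :
        Submodule ℂ (Fin (n + 1) → ℂ)) ≤ Module.finrank ℂ (LinearMap.ker f) :=
      Submodule.finrank_mono inf_le_left
    have h1 : 2 ≤ Module.finrank ℂ (LinearMap.ker f) := by omega
    by_cases h23 : Module.finrank ℂ (LinearMap.ker (f ^ 2)) <
        Module.finrank ℂ (LinearMap.ker (f ^ 3))
    · exact jordan_types L h1 h2 (Or.inl h23)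
    · refine jordan_types L h1 h2 (Or.inr ?_)
      have h8 : LinearMap.ker (f ^ 2) = LinearMap.ker (f ^ 3) :=
        Submodule.eq_of_le_of_finrank_le (mono 2 3 (by omega)) (by omega)
      have h9 : LinearMap.ker (f ^ 4) ≤ LinearMap.ker (f ^ 2) := by
        intro x hx
        rw [h8]
        rw [LinearMap.mem_ker] at hx ⊢
        rw [pow_succ, Module.End.mul_apply] at hx
        have h10 : f x ∈ LinearMap.ker (f ^ 3) := hx
        rw [← h8, LinearMap.mem_ker] at h10
        rw [pow_succ, Module.End.mul_apply]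
        exact h10
      exact le_trans hd (Submodule.finrank_mono h9)
  · rw [SetLike.not_le_iff_exists] at h45
    obtain ⟨u, hu5, hu4⟩ := h45
    rw [LinearMap.mem_ker] at hu5 hu4
    have e5 : (f ^ 5) u = N.mulVec (N.mulVec (N.mulVec (N.mulVec (N.mulVec u)))) := by
      simp only [pow_succ, pow_zero, one_mul, Module.End.mul_apply, hf, Matrix.mulVecLin_apply]
    have e4 : (f ^ 4) u = N.mulVec (N.mulVec (N.mulVec (N.mulVec u))) := by
      simp only [pow_succ, pow_zero, one_mul, Module.End.mul_apply, hf, Matrix.mulVecLin_apply]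
    rw [e5] at hu5
    rw [e4] at hu4
    exact string_five L hu5 hu4

/-- the dimension of `ker (N - l)^j` -/
noncomputable def kerDim (N : Matrix (Fin (n + 1)) (Fin (n + 1)) ℂ) (l : ℂ) (j : ℕ) : ℕ :=
  Module.finrank ℂ (LinearMap.ker ((N - Matrix.scalar (Fin (n + 1)) l).mulVecLin ^ j))

theorem non_semisimple' (N : Matrix (Fin (n + 1)) (Fin (n + 1)) ℂ)
    (ν : Matrix (Fin E.a) (Fin E.a) (MvPolynomial (Fin (n + 1)) ℂ))
    (μ : Matrix (Fin E.c) (Fin E.c) (MvPolynomial (Fin (n + 1)) ℂ))
    (hc : ∀ k i, ∑ s, pderiv s (E.B k i) * (∑ t, C (N s t) * X t) =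
      ∑ l, μ k l * E.B l i + ∑ j, E.B k j * ν j i)
    (l : ℂ) (h2 : kerDim N l 1 < kerDim N l 2)
    (h3 : (∃ j, 5 ≤ kerDim N l j) ∨ (2 ≤ kerDim N l 1 ∧ kerDim N l 2 < kerDim N l 3)) :
    E.Splits := by
  unfold kerDim at h2 h3
  rw [pow_one] at h2 h3
  exact non_semisimple (shiftN (homLft (triv E) 0 (vf N) (vf_hom0 N) ν μ
    (fun k i => by rw [vf_eq_sum]; exact hc k i)) l) h2 h3

end

end Pool.Agent.W615
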