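import Pool.Agent.W615.Y11

/-!
# From an infinitesimal symmetry to a torus action, with a section: the zero locus (helper615)
-/

set_option autoImplicit false
set_option maxHeartbeats 800000

open MvPolynomial H960VB H938TB

namespace Pool.Agent.W615

variable {n : ℕ} {E : Bundle2 n} {N : Matrix (Fin (n + 1)) (Fin (n + 1)) ℂ}

theorem exists_fam_t (hn : 1 ≤ n) (O : Op E N) {ds : ℤ} {s : Vec E.a n} (hs : Sec E ds s)
    {lam : ℂ} (hl : O.D s = fun i => C lam * s i) :
    ∃ (P : PD n) (ε : Fin P.r → ℂ) (θ : ℂ) (y : Vec P.r n) (e : ℤ),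
      (P.bun.Splits → E.Splits) ∧
      (∀ i j, ∃ K : ℕ, ((vfl N - (ε i + ε j - θ) • 1) ^ K) (P.Q i j) = 0) ∧
      (∀ i, ∃ K : ℕ, ((vfl N - (ε i + lam - θ) • 1) ^ K) (y i) = 0) ∧
      Ker P.bun y ∧ (∀ i, HomZ (y i) e) ∧
      (∀ x : Fin (n + 1) → ℂ, x ≠ 0 → (evv y x = 0 ↔ evv s x = 0)) ∧
      (∀ x : Fin (n + 1) → ℂ, x ≠ 0 → evv s x = 0 → SmoothAt s x → SmoothAt y x) := by
  obtain ⟨W⟩ := exists_wedge hn (triv E)
  obtain ⟨θ, hθ⟩ := O.trace W hn
  obtain ⟨d, hd⟩ := exists_deg W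
  obtain ⟨r, v, ε, k, hk, hspan⟩ := exists_ge_family (O.lin d)
  have hgen : ∀ x : Fin (n + 1) → ℂ, x ≠ 0 → ∃ i j : Fin r, eval x (W.wd (v i) (v j)) ≠ 0 := by
    intro x hx
    obtain ⟨G, G', hG, hG', h⟩ := hd x hx
    by_contra hc
    push Not at hc
    apply h
    let F : S0 E d →ₗ[ℂ] S0 E d →ₗ[ℂ] ℂ := (wdB W d d).compr₂
      (aeval x : MvPolynomial (Fin (n + 1)) ℂ →ₐ[ℂ] ℂ).toLinearMap
    have hF : F = 0 := by
      refine LinearMap.ext_on_range hspan fun i => LinearMap.ext_on_range hspan fun j => ?_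
      exact hc i j
    have h1 := congrArg (fun f : S0 E d →ₗ[ℂ] S0 E d →ₗ[ℂ] ℂ => f ⟨G, hG⟩ ⟨G', hG'⟩) hF
    exact h1
  let P : PD n :=
    { r := r
      Q := fun i j => W.wd (v i) (v j)
      e := d + d + W.κ.1
      hom := fun i j => wd_homZ W (v i).2 (v j).2
      anti := fun i j => W.anti _ _ (v i).2.ker (v j).2.ker
      four := fun i j k l => W.four _ _ _ _ (v i).2.ker (v j).2.ker (v k).2.ker (v l).2.ker
      gen := hgen }
  have hβ : ∀ (d d' : ℤ) (a : S0 E d) (b : S0 E d'), wdB W d d' (O.lin d a) b +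
      wdB W d d' a (O.lin d' b) = vfl N (wdB W d d' a b) + θ • wdB W d d' a b := by
    intro d d' a b
    rw [smul_eq_C_mul]
    exact hθ d d' a b a.2 b.2
  refine ⟨P, ε, θ, fun i => W.wd (v i) s, d + ds + W.κ.1, ?_, ?_, ?_, ?_, ?_, ?_, ?_⟩
  · exact splits_transfer W hn P (s := fun j => (v j : Vec E.a n)) (fun j => (v j).2)
      (fun i j => rfl)
  · intro i j
    exact ⟨k i + k j, ge_bilin (O.lin d) (O.lin d) (vfl N) (wdB W d d) θ (hβ d d) (ε i) (ε j)
      (k i + k j) (k i) (k j) (v i) (v j) le_rfl (hk i) (hk j)⟩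
  · intro i
    have h1 : ((O.lin ds - lam • 1 : S0 E ds →ₗ[ℂ] S0 E ds) ^ 1) (⟨s, hs⟩ : S0 E ds) = 0 := by
      rw [pow_one, LinearMap.sub_apply, LinearMap.smul_apply, Module.End.one_apply, sub_eq_zero]
      apply Subtype.ext
      show O.D s = lam • s
      rw [hl]
      funext i
      rw [Pi.smul_apply, smul_eq_C_mul]
    exact ⟨k i + 1, ge_bilin (O.lin d) (O.lin ds) (vfl N) (wdB W d ds) θ (hβ d ds) (ε i) lam
      (k i + 1) (k i) 1 (v i) ⟨s, hs⟩ le_rfl (hk i) h1⟩
  · refine (P.ker_iff _).2 fun i j k => ?_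
    have h1 := W.four (v i) (v j) (v k) s (v i).2.ker (v j).2.ker (v k).2.ker hs.ker
    show W.wd (v j) (v k) * W.wd (v i) s - W.wd (v i) (v k) * W.wd (v j) s +
      W.wd (v i) (v j) * W.wd (v k) s = 0
    linear_combination h1
  · intro i
    exact wd_homZ W (v i).2 hs
  · intro x hx
    constructor
    · intro h0
      obtain ⟨i, j, hij⟩ := hgen x hx
      exact evv_zero_of_wd W (v i).2.ker (v j).2.ker hs.ker hij (congrFun h0 i) (congrFun h0 j)
    · intro h0
      funext i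
      exact wd_zero_of_evv W (v i).2.ker hs.ker hx h0
  · intro x hx h0 hsm
    obtain ⟨i, j, hij⟩ := hgen x hx
    exact smoothAt_wd W hx (v := fun i => (v i : Vec E.a n)) (fun i => (v i).2.ker) hs.ker hij h0
      hsm

theorem descend_t (hn : 2 ≤ n) (O : Op E N) {ds : ℤ} {s : Vec E.a n} (hs : Sec E ds s)
    {μ : ℂ} (hl : O.D s = fun i => C μ * s i) {P P' A : Matrix (Fin (n + 1)) (Fin (n + 1)) ℂ}
    {lam : Fin (n + 1) → ℂ} (h1 : P * P' = 1) (h3 : P' * N * P = Matrix.diagonal lam + A)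
    (hc : Matrix.diagonal lam * A = A * Matrix.diagonal lam) (hA : IsNilpotent A)
    (φ : ℂ →ₗ[ℚ] ℚ) :
    ∃ (E' : Bundle2 n) (K : ℕ) (w : Fin (n + 1) → ℤ × ℤ) (D : EqB E' w) (σ : M)
      (y : Vec E'.a n), K ≠ 0 ∧ (E'.Splits → E.Splits) ∧ (∀ l, ((w l).1 : ℚ) = K * φ (lam l)) ∧
      (∀ l, (w l).2 = 0) ∧ (∀ i, (D.b i).2 = 0) ∧ HSec D σ y ∧
      (∀ x : Fin (n + 1) → ℂ, x ≠ 0 → (evv y x = 0 ↔ evv s (P.mulVecLin x) = 0)) ∧
      (∀ x : Fin (n + 1) → ℂ, x ≠ 0 → evv s (P.mulVecLin x) = 0 →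
        SmoothAt s (P.mulVecLin x) → SmoothAt y x) := by
  obtain ⟨Q, ε, θ, y, e, hQ1, hQ2, hy1, hy2, hy3, hy4, hy5⟩ := exists_fam_t (by omega) O hs hl
  have hinj : Function.Injective P.mulVecLin := by
    have h2 : P' * P = 1 := mul_eq_one_comm.1 h1
    intro x y hxy
    have h4 := congrArg P'.mulVec hxy
    rw [Matrix.mulVecLin_apply, Matrix.mulVecLin_apply, Matrix.mulVec_mulVec,
      Matrix.mulVec_mulVec, h2, Matrix.one_mulVec, Matrix.one_mulVec] at h4
    exact h4
  -- common denominators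
  obtain ⟨K, hK, hz⟩ := exists_denom (ι := Fin (n + 1) ⊕ (Fin Q.r ⊕ Bool))
    (fun x => φ (Sum.elim lam (Sum.elim ε (fun t => bif t then θ else μ)) x))
  choose z hz' using hz
  set lz : Fin (n + 1) → ℤ := fun l => z (Sum.inl l) with hlz
  set ez : Fin Q.r → ℤ := fun i => z (Sum.inr (Sum.inl i)) with hez
  set tz : ℤ := z (Sum.inr (Sum.inr true)) with htz
  set mz : ℤ := z (Sum.inr (Sum.inr false)) with hmz
  have l1 : ∀ l, (lz l : ℚ) = K * φ (lam l) := fun l => hz' (Sum.inl l)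
  have e1 : ∀ i, (ez i : ℚ) = K * φ (ε i) := fun i => hz' (Sum.inr (Sum.inl i))
  have t1 : (tz : ℚ) = K * φ θ := hz' (Sum.inr (Sum.inr true))
  have m1 : (mz : ℚ) = K * φ μ := hz' (Sum.inr (Sum.inr false))
  let D : EqB (Q.bun.pull P.mulVecLin hinj) (fun l => (lz l, 0)) :=
    mkEqB _ _ (fun i => (ez i, 0))
      (fun k => (ez (ix Q.r k).1 + ez (ix Q.r k).2.1 + ez (ix Q.r k).2.2 - tz, 0)) (by
      intro k i u hu
      -- the weights
      have hw : IsWeightedHomogeneous lam (lsub P.mulVecLin (plB Q.Q (ix Q.r k) i))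
          (ε (ix Q.r k).1 + ε (ix Q.r k).2.1 + ε (ix Q.r k).2.2 - θ - ε i) := by
        have hij : ∀ a b, IsWeightedHomogeneous lam (lsub P.mulVecLin (Q.Q a b))
            (ε a + ε b - θ) := by
          intro a b
          obtain ⟨K, hK⟩ := hQ2 a b
          exact (ge_coord h1 h3 hc hA hK).1
        have hite : ∀ (c : Prop) [Decidable c] (p : MvPolynomial (Fin (n + 1)) ℂ) (α : ℂ),
            (c → IsWeightedHomogeneous lam (lsub P.mulVecLin p) α) →
            IsWeightedHomogeneous lam (lsub P.mulVecLin (if c then p else 0)) α := by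
          intro c _ p α h
          split_ifs with hc'
          · exact h hc'
          · rw [map_zero]
            exact isWeightedHomogeneous_zero _ _ _
        unfold plB
        rw [map_add, map_sub]
        refine (IsWeightedHomogeneous.sub (hite _ _ _ fun h => ?_) (hite _ _ _ fun h => ?_)).add
          (hite _ _ _ fun h => ?_)
        · rw [h]
          convert hij _ _ using 1
          ring
        · rw [h]
          convert hij _ _ using 1
          ring
        · rw [h]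
          convert hij _ _ using 1
          ring
      have hwu := hw (mem_support_iff.1 hu)
      ext
      · rw [Prod.fst_sum]
        refine comp_eq φ K lz l1 (x := _) ?_ hwu
        simp only [Prod.fst_sub, map_sub, map_add]
        push_cast
        rw [e1, e1, e1, e1, t1]
        ring
      · rw [Prod.snd_sum]
        simp)
  refine ⟨Q.bun.pull P.mulVecLin hinj, K, fun l => (lz l, 0), D, (e, mz - tz, 0),
    fun i => lsub P.mulVecLin (y i), hK, fun hs => hQ1
    (Bundle2.splits_of_pull 0 n n hn (by omega) _ _ _ hs), l1, fun _ => rfl, fun _ => rfl,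
    ⟨?_, hy2.pull _ _⟩, ?_, ?_⟩
  · intro i u hu
    obtain ⟨K', hK'⟩ := hy1 i
    have hwu := (ge_coord h1 h3 hc hA hK').1 hu
    have hE : (((Q.bun.pull P.mulVecLin hinj).β i, D.b i) : M) + (e, mz - tz, 0) =
        (e, ez i + (mz - tz), 0) := by
      show (((0 : ℤ), (ez i, (0 : ℤ))) : M) + (e, mz - tz, 0) = _
      refine Prod.ext ?_ (Prod.ext ?_ ?_)
      · show 0 + e = e
        rw [zero_add]
      · rfl
      · show (0 : ℤ) + 0 = 0
        rw [zero_add]
    rw [hE]
    have hfst := weight_fst (fun l => ((lz l, 0) : ℤ × ℤ)) u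
    have hdeg : ∑ j, (u j : ℤ) = e := by
      rcases homZ_lsub P.mulVecLin (hy3 i) with h | ⟨k, hk, hh⟩
      · rw [h, coeff_zero] at hu
        exact absurd rfl hu
      · have h2 := hh hu
        rw [Finsupp.weight_apply, Finsupp.sum_fintype _ _ (by intro j; simp)] at h2
        rw [← hk, ← h2]
        simp
    refine Prod.ext (hfst.trans hdeg) (Prod.ext ?_ ?_)
    · rw [Finsupp.weight_apply, Finsupp.sum_fintype _ _ (by simp), Prod.snd_sum, Prod.fst_sum]
      have h5 : ∀ j, ((u j) • tw (fun l => ((lz l, 0) : ℤ × ℤ)) j : M).2.1 = (u j : ℤ) * lz j := by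
        intro j
        show (u j) • lz j = _
        rw [nsmul_eq_mul]
      simp_rw [h5]
      refine comp_eq φ K lz l1 (x := _) ?_ hwu
      push_cast
      rw [e1, m1, t1, map_sub, map_add]
      ring
    · rw [Finsupp.weight_apply, Finsupp.sum_fintype _ _ (by simp), Prod.snd_sum, Prod.snd_sum]
      refine Finset.sum_eq_zero fun j _ => ?_
      show (u j) • (0 : ℤ) = 0
      rw [smul_zero]
  · intro x hx
    rw [← hy4 _ (fun h => hx (hinj (by rw [h, map_zero]))), ← evv_lsub]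
    exact Iff.rfl
  · intro x hx h0 hsm
    exact smoothAt_lsub h1 (hy5 _ (fun h => hx (hinj (by rw [h, map_zero]))) h0 hsm)

end Pool.Agent.W615
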