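import Pool.Agent.W615.LA1

/-!
# Zero loci which are smooth at the intermediate fixed points (helper615)
-/

set_option autoImplicit false
set_option maxHeartbeats 800000

open MvPolynomial H960VB H938TB

namespace Pool.Agent.W615

variable {n : ℕ} {w : Fin (n + 1) → ℤ × ℤ} {E : Bundle2 n} {D : EqB E w}

/-- the data of the numerical argument -/
structure Dm (W : Wedge D) (σ : M) (s : Vec E.a n) (a b : ℤ) : Prop where
  hn : 3 ≤ n
  hE : ¬ E.Splits
  hs : HSec D σ s
  hw2 : ∀ i, (w i).2 = 0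
  hb2 : ∀ i, (D.b i).2 = 0
  ha : ∀ l, a ≤ (w l).1
  hb : ∀ l, (w l).1 ≤ b
  ha' : ∃ l, (w l).1 = a
  hb' : ∃ l, (w l).1 = b
  hab : a < b

variable {W : Wedge D} {σ : M} {s : Vec E.a n} {a b : ℤ}

/-- the zeros of `s` at the intermediate fixed points are smooth of codimension two. -/
def SmoothM {a n : ℕ} (w : Fin (n + 1) → ℤ × ℤ) (s : Vec a n) (p q : ℤ) : Prop :=
  ∀ (x : Fin (n + 1) → ℂ) (v : ℤ), x ≠ 0 → Fixed w x v → p < v → v < q → evv s x = 0 →
    SmoothAt s x

/-- middle zeros -/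
theorem Dm.mid_in (H : Dm W σ s a b) {z : Fin (n + 1) → ℂ} {v : ℤ} (hz : z ≠ 0)
    (hf : Fixed w z v) (hav : a < v) (hvb : v < b) (h0 : evv s z = 0) (hsm : SmoothAt s z)
    {A B : ℤ} (h : Ty W z v A B) : (chi v σ - A = a - v ∧ chi v σ - B = b - v) ∨
      (chi v σ - A = b - v ∧ chi v σ - B = a - v) := by
  obtain ⟨i, hi⟩ := H.ha'
  obtain ⟨k, hk⟩ := H.hb'
  have h1 := gap (by have := H.hn; omega) W H.hw2 H.hb2 H.hE hz hf (i := i) (k := k) (by omega)
    (by omega) h
  obtain ⟨l, l', -, e1, e2, -⟩ := type_in W H.hs hz hf h h0 hsm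
  have a1 := H.ha l
  have a2 := H.ha l'
  have b1 := H.hb l
  have b2 := H.hb l'
  rw [hi, hk] at h1
  rcases abs_cases (A - B) with ⟨h2, -⟩ | ⟨h2, -⟩ <;> rw [h2] at h1
  · left
    constructor <;> omega
  · right
    constructor <;> omega

/-- middle points outside -/
theorem Dm.mid_out (H : Dm W σ s a b) {z : Fin (n + 1) → ℂ} {v : ℤ} (hz : z ≠ 0)
    (hf : Fixed w z v) (hav : a < v) (hvb : v < b) (h0 : evv s z ≠ 0) {A B : ℤ}
    (h : Ty W z v A B) : (chi v σ = A ∨ chi v σ = B) ∧ b - a ≤ |A - B| := by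
  obtain ⟨i, hi⟩ := H.ha'
  obtain ⟨k, hk⟩ := H.hb'
  have h1 := gap (by have := H.hn; omega) W H.hw2 H.hb2 H.hE hz hf (i := i) (k := k) (by omega)
    (by omega) h
  rw [hi, hk] at h1
  exact ⟨type_out W H.hs hf h h0, h1⟩

theorem Dm.const (H : Dm W σ s a b) (S : SmoothM w s a b) {z z' : Fin (n + 1) → ℂ} {v : ℤ}
    (hz : z ≠ 0)
    (hz' : z' ≠ 0) (hf : Fixed w z v) (hf' : Fixed w z' v) (hav : a < v) (hvb : v < b)
    (h0 : evv s z = 0) : evv s z' = 0 := by
  by_contra hne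
  obtain ⟨A, B, h⟩ := Ty.exists W hz v
  obtain ⟨A', B', h'⟩ := Ty.exists W hz' v
  have h1 := H.mid_in hz hf hav hvb h0 (S _ _ hz hf hav hvb h0) h
  have h2 := (H.mid_out hz' hf' hav hvb hne h').1
  rcases Ty.unique W hz hf hf' h h' with ⟨e1', e2'⟩ | ⟨e1', e2'⟩ <;> rcases h1 with h1 | h1 <;>
    rcases h2 with h2 | h2 <;> omega

/-- three coordinate points outside -/
theorem Dm.free (H : Dm W σ s a b) (S : SmoothM w s a b) {x y k : Fin (n + 1)} (hxy : x ≠ y) (hxk : x ≠ k)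
    (hyk : y ≠ k) (hx : a < (w x).1) (hx' : (w x).1 < b) (hy : a < (w y).1) (hy' : (w y).1 < b)
    (ox : evv s (ee x : Fin (n + 1) → ℂ) ≠ 0) (oy : evv s (ee y : Fin (n + 1) → ℂ) ≠ 0)
    (ok : evv s (ee k : Fin (n + 1) → ℂ) ≠ 0) : False := by
  let f : Fin (2 + 1) → Fin (n + 1) := ![x, y, k]
  have hfi : Function.Injective f := by
    intro a b hab
    fin_cases a <;> fin_cases b <;> simp [f] at hab ⊢ <;> first | exact hxy hab | exact hxk hab | exact hyk hab | exact hxy hab.symm | exact hxk hab.symm | exact hyk hab.symm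
  refine no_free_plane (by have := H.hn; omega) H.hE H.hs f hfi ?_
  intro z v hz hfz h0
  have hfz' := fixed_cInc f hfz
  have hzne : cInc f z ≠ 0 := T_ne (cInc_injective f hfi) hz
  have hfo : ∀ t, evv s (ee (f t) : Fin (n + 1) → ℂ) ≠ 0 := by
    intro t
    fin_cases t
    · exact ox
    · exact oy
    · exact ok
  -- a middle weight
  by_cases hmid : a < v ∧ v < b
  · obtain ⟨t, ht⟩ : ∃ t, z t ≠ 0 := by
      by_contra hc
      push Not at hc
      exact hz (funext hc)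
    have h1 : (w (f t)).1 = v := hfz t ht
    have h2 := ee_fixed w (f t)
    rw [h1] at h2
    exact hfo t (H.const S hzne (ee_ne (f t)) hfz' h2 hmid.1 hmid.2 h0)
  · have h0' : z 0 = 0 := by
      by_contra hc
      have h1 : (w x).1 = v := hfz 0 hc
      exact hmid (by rw [← h1]; exact ⟨hx, hx'⟩)
    have h1' : z 1 = 0 := by
      by_contra hc
      have h1 : (w y).1 = v := hfz 1 hc
      exact hmid (by rw [← h1]; exact ⟨hy, hy'⟩)
    have h2' : z 2 ≠ 0 := by
      intro hc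
      apply hz
      funext t
      fin_cases t
      · exact h0'
      · exact h1'
      · exact hc
    have h3 : cInc f z = z 2 • (ee k : Fin (n + 1) → ℂ) := by
      have e : z = z 2 • (Pi.single 2 1 : Fin (2 + 1) → ℂ) := by
        funext t
        fin_cases t
        · simp [h0']
        · simp [h1']
        · simp
      conv_lhs => rw [e]
      rw [map_smul, cInc_single]
      rfl
    apply ok
    funext i
    by_contra hne
    have h4 := (eval_scale_ne (H.hs.hom i) h2').2 hne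
    apply h4
    rw [← h3]
    exact congrFun h0 i

/-- two middle zeros of different weights -/
theorem Dm.mid_pair (H : Dm W σ s a b) {x y t : Fin (n + 1)} (htx : t ≠ x) (hty : t ≠ y)
    (hxy : (w x).1 < (w y).1) (hx : a < (w x).1) (hy' : (w y).1 < b) (ht : a < (w t).1)
    (ht' : (w t).1 < b) (ix : evv s (ee x : Fin (n + 1) → ℂ) = 0)
    (iy : evv s (ee y : Fin (n + 1) → ℂ) = 0)
    (sx : SmoothAt s (ee x : Fin (n + 1) → ℂ)) (sy : SmoothAt s (ee y : Fin (n + 1) → ℂ)) :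
    False := by
  have hn2 : 2 ≤ n := by
    have := H.hn
    omega
  -- the types
  have htyp : ∀ z : Fin (n + 1), a < (w z).1 → (w z).1 < b →
      evv s (ee z : Fin (n + 1) → ℂ) = 0 → SmoothAt s (ee z : Fin (n + 1) → ℂ) →
      ∃ A B, Ty W (ee z : Fin (n + 1) → ℂ) (w z).1 A B ∧
      chi (w z).1 σ - A = a - (w z).1 ∧ chi (w z).1 σ - B = b - (w z).1 := by
    intro z hz hz' iz sz
    obtain ⟨A, B, h⟩ := Ty.exists W (ee_ne z) (w z).1
    rcases H.mid_in (ee_ne z) (ee_fixed w z) hz hz' iz sz h with h1 | h1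
    · exact ⟨A, B, h, h1⟩
    · exact ⟨B, A, h.swap, h1.symm⟩
  obtain ⟨A, B, hT, hA, hB⟩ := htyp x hx (by omega) ix sx
  obtain ⟨A', B', hT', hA', hB'⟩ := htyp y (by omega) hy' iy sy
  have s1 := Dat.sum (σ := σ) (ee_fixed w x) hT
  have s2 := Dat.sum (σ := σ) (ee_fixed w y) hT'
  have hc : (σ + σ + W.κ).1 = 2 := by
    have h1 : ((w y).1 - (w x).1) * ((σ + σ + W.κ).1 - 2) = 0 := by
      linear_combination s2 - s1 - hA' - hB' + hA + hB
    rcases mul_eq_zero.1 h1 with h2 | h2 <;> omega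
  by_cases hlt : (w x).1 < (w t).1
  · exact orbit hn2 H.hE W H.hs (a := a) (b := b) (j := x) (j' := y) (j'' := t)
      (Ne.symm hty) hxy hlt hy' ht' hx ix sx hT hA hB hc
  · refine orbit hn2 H.hE (revW W) (hsec_rev H.hs) (a := -b) (b := -a) (j := y) (j' := x)
      (j'' := t) (A := -B') (B := -A') (Ne.symm htx) ?_ ?_ ?_ ?_ ?_ iy
      sy ?_ ?_ ?_ ?_
    · show (-w y).1 < (-w x).1
      rw [Prod.fst_neg, Prod.fst_neg]
      omega
    · show (-w y).1 < (-w t).1
      rw [Prod.fst_neg, Prod.fst_neg]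
      omega
    · show (-w x).1 < -a
      rw [Prod.fst_neg]
      omega
    · show (-w t).1 < -a
      rw [Prod.fst_neg]
      omega
    · show -b < (-w y).1
      rw [Prod.fst_neg]
      omega
    · exact (Ty.rev hT').swap
    · show chi (-(w y).1) (nu σ) - -B' = -b - -(w y).1
      rw [chi_nu]
      omega
    · show chi (-(w y).1) (nu σ) - -A' = -a - -(w y).1
      rw [chi_nu]
      omega
    · exact hc

/-- at most two coordinates of equal weight -/
theorem Dm.mult (H : Dm W σ s a b) {x y z : Fin (n + 1)} (hxy : x ≠ y) (hxz : x ≠ z)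
    (hyz : y ≠ z) (h1 : (w y).1 = (w x).1) (h2 : (w z).1 = (w x).1) : False := by
  obtain ⟨i, hi⟩ := H.ha'
  obtain ⟨k, hk⟩ := H.hb'
  have hab := H.hab
  have e1 : w y = w x := Prod.ext h1 (by rw [H.hw2, H.hw2])
  have e2 : w z = w x := Prod.ext h2 (by rw [H.hw2, H.hw2])
  by_cases h : (w i).1 = (w x).1
  · exact H.hE (three_equal H.hn D hxy hxz hyz e1 e2 (j := k) (by omega))
  · exact H.hE (three_equal H.hn D hxy hxz hyz e1 e2 (j := i) h)

/-- at most two middle zeros -/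
theorem Dm.mid_three (H : Dm W σ s a b) (S : SmoothM w s a b) {x y z : Fin (n + 1)}
    (hxy : x ≠ y) (hxz : x ≠ z)
    (hyz : y ≠ z) (hx : a < (w x).1) (hx' : (w x).1 < b) (hy : a < (w y).1) (hy' : (w y).1 < b)
    (hz : a < (w z).1) (hz' : (w z).1 < b) (ix : evv s (ee x : Fin (n + 1) → ℂ) = 0)
    (iy : evv s (ee y : Fin (n + 1) → ℂ) = 0) (iz : evv s (ee z : Fin (n + 1) → ℂ) = 0) :
    False := by
  have sx := S _ _ (ee_ne x) (ee_fixed w x) hx hx' ix
  have sy := S _ _ (ee_ne y) (ee_fixed w y) hy hy' iy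
  have sz := S _ _ (ee_ne z) (ee_fixed w z) hz hz' iz
  rcases lt_trichotomy (w x).1 (w y).1 with h1 | h1 | h1
  · exact H.mid_pair hxz.symm hyz.symm h1 hx hy' hz hz' ix iy sx sy
  · rcases lt_trichotomy (w x).1 (w z).1 with h2 | h2 | h2
    · exact H.mid_pair hxy.symm hyz h2 hx hz' hy hy' ix iz sx sz
    · exact H.mult hxy hxz hyz h1.symm h2.symm
    · exact H.mid_pair hyz hxy.symm h2 hz hx' hy hy' iz ix sz sx
  · exact H.mid_pair hyz.symm hxz.symm h1 hy hx' hz hz' iy ix sy sx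

/-- five intermediate coordinates -/
theorem Dm.five (H : Dm W σ s a b) (S : SmoothM w s a b) (hn : 8 ≤ n) : False := by
  classical
  set SA : Finset (Fin (n + 1)) := Finset.univ.filter fun l => (w l).1 = a with hSA
  set SB : Finset (Fin (n + 1)) := Finset.univ.filter fun l => (w l).1 = b with hSB
  set SI : Finset (Fin (n + 1)) := Finset.univ.filter fun l => a < (w l).1 ∧ (w l).1 < b ∧
    evv s (ee l : Fin (n + 1) → ℂ) = 0 with hSI
  set SO : Finset (Fin (n + 1)) := Finset.univ.filter fun l => a < (w l).1 ∧ (w l).1 < b ∧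
    evv s (ee l : Fin (n + 1) → ℂ) ≠ 0 with hSO
  have mA : ∀ l, l ∈ SA ↔ (w l).1 = a := fun l => by
    rw [hSA, Finset.mem_filter]
    exact ⟨fun h => h.2, fun h => ⟨Finset.mem_univ _, h⟩⟩
  have mB : ∀ l, l ∈ SB ↔ (w l).1 = b := fun l => by
    rw [hSB, Finset.mem_filter]
    exact ⟨fun h => h.2, fun h => ⟨Finset.mem_univ _, h⟩⟩
  have mI : ∀ l, l ∈ SI ↔ (a < (w l).1 ∧ (w l).1 < b ∧
      evv s (ee l : Fin (n + 1) → ℂ) = 0) := fun l => by
    rw [hSI, Finset.mem_filter]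
    exact ⟨fun h => h.2, fun h => ⟨Finset.mem_univ _, h⟩⟩
  have mO : ∀ l, l ∈ SO ↔ (a < (w l).1 ∧ (w l).1 < b ∧
      evv s (ee l : Fin (n + 1) → ℂ) ≠ 0) := fun l => by
    rw [hSO, Finset.mem_filter]
    exact ⟨fun h => h.2, fun h => ⟨Finset.mem_univ _, h⟩⟩
  have cA : SA.card ≤ 2 := by
    by_contra hc
    obtain ⟨x, y, z, hx, hy, hz, hxy, hxz, hyz⟩ := Finset.two_lt_card_iff.1 (by omega : 2 < SA.card)
    rw [mA] at hx hy hz
    exact H.mult hxy hxz hyz (by omega) (by omega)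
  have cB : SB.card ≤ 2 := by
    by_contra hc
    obtain ⟨x, y, z, hx, hy, hz, hxy, hxz, hyz⟩ := Finset.two_lt_card_iff.1 (by omega : 2 < SB.card)
    rw [mB] at hx hy hz
    exact H.mult hxy hxz hyz (by omega) (by omega)
  have cI : SI.card ≤ 2 := by
    by_contra hc
    obtain ⟨x, y, z, hx, hy, hz, hxy, hxz, hyz⟩ := Finset.two_lt_card_iff.1 (by omega : 2 < SI.card)
    rw [mI] at hx hy hz
    exact H.mid_three S hxy hxz hyz hx.1 hx.2.1 hy.1 hy.2.1 hz.1 hz.2.1 hx.2.2 hy.2.2 hz.2.2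
  have cO : SO.card ≤ 2 := by
    by_contra hc
    obtain ⟨x, y, z, hx, hy, hz, hxy, hxz, hyz⟩ := Finset.two_lt_card_iff.1 (by omega : 2 < SO.card)
    rw [mO] at hx hy hz
    exact H.free S hxy hxz hyz hx.1 hx.2.1 hy.1 hy.2.1 hx.2.2 hy.2.2 hz.2.2
  have hcov : (Finset.univ : Finset (Fin (n + 1))) ⊆ (SA ∪ SB) ∪ (SI ∪ SO) := by
    intro l _
    rw [Finset.mem_union, Finset.mem_union, Finset.mem_union, mA, mB, mI, mO]
    have h1 := H.ha l
    have h2 := H.hb l
    by_cases h3 : (w l).1 = a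
    · exact Or.inl (Or.inl h3)
    · by_cases h4 : (w l).1 = b
      · exact Or.inl (Or.inr h4)
      · right
        by_cases h5 : evv s (ee l : Fin (n + 1) → ℂ) = 0
        · exact Or.inl ⟨by omega, by omega, h5⟩
        · exact Or.inr ⟨by omega, by omega, h5⟩
  have hcard := Finset.card_le_card hcov
  rw [Finset.card_univ, Fintype.card_fin] at hcard
  have u1 := Finset.card_union_le (SA ∪ SB) (SI ∪ SO)
  have u2 := Finset.card_union_le SA SB
  have u3 := Finset.card_union_le SI SO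
  omega

/-- two intermediate zeros of different weights, at which the zero locus is smooth -/
theorem Dm.pair (H : Dm W σ s a b) (hn : 6 ≤ n) {x y : Fin (n + 1)}
    (hxy : (w x).1 < (w y).1) (hx : a < (w x).1) (hy' : (w y).1 < b)
    (ix : evv s (ee x : Fin (n + 1) → ℂ) = 0) (iy : evv s (ee y : Fin (n + 1) → ℂ) = 0)
    (sx : SmoothAt s (ee x : Fin (n + 1) → ℂ)) (sy : SmoothAt s (ee y : Fin (n + 1) → ℂ)) :
    False := by
  classical
  set SA : Finset (Fin (n + 1)) := Finset.univ.filter fun l => (w l).1 = a with hSA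
  set SB : Finset (Fin (n + 1)) := Finset.univ.filter fun l => (w l).1 = b with hSB
  have mA : ∀ l, l ∈ SA ↔ (w l).1 = a := fun l => by
    rw [hSA, Finset.mem_filter]
    exact ⟨fun h => h.2, fun h => ⟨Finset.mem_univ _, h⟩⟩
  have mB : ∀ l, l ∈ SB ↔ (w l).1 = b := fun l => by
    rw [hSB, Finset.mem_filter]
    exact ⟨fun h => h.2, fun h => ⟨Finset.mem_univ _, h⟩⟩
  have cA : SA.card ≤ 2 := by
    by_contra hc
    obtain ⟨x, y, z, hx, hy, hz, hxy, hxz, hyz⟩ := Finset.two_lt_card_iff.1 (by omega : 2 < SA.card)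
    rw [mA] at hx hy hz
    exact H.mult hxy hxz hyz (by omega) (by omega)
  have cB : SB.card ≤ 2 := by
    by_contra hc
    obtain ⟨x, y, z, hx, hy, hz, hxy, hxz, hyz⟩ := Finset.two_lt_card_iff.1 (by omega : 2 < SB.card)
    rw [mB] at hx hy hz
    exact H.mult hxy hxz hyz (by omega) (by omega)
  obtain ⟨t, ht⟩ : ∃ t, t ∉ (SA ∪ SB) ∪ {x, y} := by
    by_contra hc
    push Not at hc
    have hcov : (Finset.univ : Finset (Fin (n + 1))) ⊆ (SA ∪ SB) ∪ {x, y} := fun l _ => hc l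
    have hcard := Finset.card_le_card hcov
    rw [Finset.card_univ, Fintype.card_fin] at hcard
    have u1 := Finset.card_union_le (SA ∪ SB) {x, y}
    have u2 := Finset.card_union_le SA SB
    have u3 : ({x, y} : Finset (Fin (n + 1))).card ≤ 2 := Finset.card_le_two
    omega
  rw [Finset.mem_union, Finset.mem_union, mA, mB, Finset.mem_insert, Finset.mem_singleton] at ht
  push Not at ht
  have h1 := H.ha t
  have h2 := H.hb t
  exact H.mid_pair ht.2.1 ht.2.2 hxy hx hy' (by omega) (by omega) ix iy sx sy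

end Pool.Agent.W615
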