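import Pool.Agent.W615.LA2

/-!
# Zero loci which are smooth at the intermediate fixed points: infinitesimal version (helper615)
-/

set_option autoImplicit false
set_option maxHeartbeats 800000

open MvPolynomial H960VB H938TB

namespace Pool.Agent.W615

variable {n : ℕ} {E : Bundle2 n} {N : Matrix (Fin (n + 1)) (Fin (n + 1)) ℂ}

/-- `v` lies strictly inside the segment joining two eigenvalues of `N` -/
def Inter (N : Matrix (Fin (n + 1)) (Fin (n + 1)) ℂ) (v : ℂ) : Prop :=
  ∃ (α β : ℂ) (t : ℝ), α ≠ β ∧ (∃ x : Fin (n + 1) → ℂ, x ≠ 0 ∧ N.mulVec x = α • x) ∧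
    (∃ y : Fin (n + 1) → ℂ, y ≠ 0 ∧ N.mulVec y = β • y) ∧ 0 < t ∧ t < 1 ∧ v = α + t * (β - α)

section coord

variable {P P' : Matrix (Fin (n + 1)) (Fin (n + 1)) ℂ} {wz : Fin (n + 1) → ℤ} {a b : ℂ}

theorem conj_eq (h2 : P' * P = 1)
    (hNP : N = a • (P * Matrix.diagonal (fun i => (wz i : ℂ)) * P') + b • 1) :
    P' * N * P = Matrix.diagonal (fun l => a * wz l + b) := by
  have e1 : P' * N * P = a • ((P' * P) * Matrix.diagonal (fun i => (wz i : ℂ)) * (P' * P)) +
      b • (P' * P) := by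
    rw [hNP]
    simp only [mul_add, add_mul, Matrix.mul_smul, Matrix.smul_mul, mul_one, mul_assoc]
  rw [e1, h2, one_mul, mul_one, ← Matrix.diagonal_one, ← Matrix.diagonal_smul,
    ← Matrix.diagonal_smul, Matrix.diagonal_add]
  congr 1
  funext l
  simp

theorem eig_coord (h1 : P * P' = 1) (h2 : P' * P = 1)
    (hNP : N = a • (P * Matrix.diagonal (fun i => (wz i : ℂ)) * P') + b • 1)
    {x : Fin (n + 1) → ℂ} {c : ℂ} (hx : N.mulVec x = c • x) (l : Fin (n + 1))
    (hl : P'.mulVec x l ≠ 0) : a * wz l + b = c := by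
  have h3 := conj_eq h2 hNP
  have e1 : (P' * N * P).mulVec (P'.mulVec x) = c • P'.mulVec x := by
    rw [Matrix.mulVec_mulVec, mul_assoc, h1, mul_one, ← Matrix.mulVec_mulVec, hx,
      Matrix.mulVec_smul]
  rw [h3] at e1
  have e2 := congrFun e1 l
  rw [Matrix.mulVec_diagonal, Pi.smul_apply, smul_eq_mul] at e2
  exact mul_right_cancel₀ hl e2

theorem exists_coord (h1 : P * P' = 1) {x : Fin (n + 1) → ℂ} (hx : x ≠ 0) :
    ∃ l, P'.mulVec x l ≠ 0 := by
  by_contra hcon
  push Not at hcon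
  apply hx
  have e1 : P'.mulVec x = 0 := funext hcon
  have e2 := congrArg P.mulVec e1
  rwa [Matrix.mulVec_mulVec, h1, Matrix.one_mulVec, Matrix.mulVec_zero] at e2

/-- the intermediate eigenvalues -/
theorem Inter.between (h1 : P * P' = 1) (h2 : P' * P = 1) (ha : a ≠ 0)
    (hNP : N = a • (P * Matrix.diagonal (fun i => (wz i : ℂ)) * P') + b • 1) {v : ℂ}
    (hv : Inter N v) {l : Fin (n + 1)} (hl : a * wz l + b = v) :
    ∃ p q, wz p < wz l ∧ wz l < wz q := by
  obtain ⟨α, β, t, hαβ, ⟨x, hx0, hx⟩, ⟨y, hy0, hy⟩, ht0, ht1, hv⟩ := hv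
  obtain ⟨i, hi⟩ := exists_coord h1 hx0
  have hi' := eig_coord h1 h2 hNP hx i hi
  obtain ⟨k, hk⟩ := exists_coord h1 hy0
  have hk' := eig_coord h1 h2 hNP hy k hk
  have hwv : (wz l : ℝ) = wz i + t * (wz k - wz i) := by
    have e1 : a * ((wz l : ℂ) - (wz i + t * (wz k - wz i))) = 0 := by
      rw [← hi', ← hk', ← hl] at hv
      linear_combination hv
    have e2 := (mul_eq_zero.1 e1).resolve_left ha
    have e3 : (wz l : ℂ) = wz i + t * (wz k - wz i) := sub_eq_zero.1 e2
    exact_mod_cast e3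
  have hwik : wz i ≠ wz k := by
    intro h
    apply hαβ
    rw [← hi', ← hk', h]
  rcases lt_or_gt_of_ne hwik with hlt | hlt
  · have i1 : (wz i : ℝ) < wz k := by exact_mod_cast hlt
    refine ⟨i, k, ?_, ?_⟩
    · have : (wz i : ℝ) < wz l := by rw [hwv]; nlinarith
      exact_mod_cast this
    · have : (wz l : ℝ) < wz k := by rw [hwv]; nlinarith
      exact_mod_cast this
  · have i1 : (wz k : ℝ) < wz i := by exact_mod_cast hlt
    refine ⟨k, i, ?_, ?_⟩
    · have : (wz k : ℝ) < wz l := by rw [hwv]; nlinarith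
      exact_mod_cast this
    · have : (wz l : ℝ) < wz i := by rw [hwv]; nlinarith
      exact_mod_cast this

/-- the coordinate vectors are eigenvectors -/
theorem eig_col (h2 : P' * P = 1) (h1 : P * P' = 1)
    (hNP : N = a • (P * Matrix.diagonal (fun i => (wz i : ℂ)) * P') + b • 1)
    {x : Fin (n + 1) → ℂ} {c : ℤ} (hx : ∀ l, x l ≠ 0 → wz l = c) :
    N.mulVec (P.mulVec x) = (a * c + b) • P.mulVec x := by
  have h3 := conj_eq h2 hNP
  have h6 : N * P = P * Matrix.diagonal (fun l => a * wz l + b) := by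
    rw [← h3, ← mul_assoc, ← mul_assoc, h1, one_mul]
  have h5 : (Matrix.diagonal (fun l => a * wz l + b)).mulVec x = (a * c + b) • x := by
    funext l
    rw [Matrix.mulVec_diagonal, Pi.smul_apply, smul_eq_mul]
    by_cases hxl : x l = 0
    · rw [hxl, mul_zero, mul_zero]
    · rw [hx l hxl]
  rw [Matrix.mulVec_mulVec, h6, ← Matrix.mulVec_mulVec, h5, Matrix.mulVec_smul]

/-- a change of coordinates which makes an eigenvector a coordinate vector -/
theorem change_col (ha : a ≠ 0) (h1 : P * P' = 1) (h2 : P' * P = 1)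
    (hNP : N = a • (P * Matrix.diagonal (fun i => (wz i : ℂ)) * P') + b • 1)
    {x : Fin (n + 1) → ℂ} (hx0 : x ≠ 0) {v : ℂ} (hx : N.mulVec x = v • x) :
    ∃ (i : Fin (n + 1)) (Q Q' : Matrix (Fin (n + 1)) (Fin (n + 1)) ℂ), Q * Q' = 1 ∧ Q' * Q = 1 ∧
      N = a • (Q * Matrix.diagonal (fun i => (wz i : ℂ)) * Q') + b • 1 ∧ a * wz i + b = v ∧
      Q.mulVec (Pi.single i 1) = x ∧
      ∀ j, j ≠ i → Q.mulVec (Pi.single j 1) = P.mulVec (Pi.single j 1) := by
  classical
  obtain ⟨i, hi⟩ := exists_coord h1 hx0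
  have hi' := eig_coord h1 h2 hNP hx i hi
  set x' := P'.mulVec x with hx'
  set T : Matrix (Fin (n + 1)) (Fin (n + 1)) ℂ :=
    fun l m => if m = i then x' l else if l = m then 1 else 0 with hT
  have hTi : T.mulVec (Pi.single i 1) = x' := by
    funext l
    rw [Matrix.mulVec_single_one]
    show T l i = x' l
    simp [hT]
  have hTj : ∀ j, j ≠ i → T.mulVec (Pi.single j 1) = Pi.single j 1 := by
    intro j hj
    funext l
    rw [Matrix.mulVec_single_one]
    show T l j = _
    simp only [hT]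
    rw [if_neg hj, Pi.single_apply]
  have hTc : ∀ (c : Fin (n + 1) → ℂ) l, T.mulVec c l = (if l = i then 0 else c l) + x' l * c i := by
    intro c l
    have e1 : T.mulVec c l = ∑ m, T l m * c m := rfl
    rw [e1, ← Finset.add_sum_erase _ _ (Finset.mem_univ i)]
    have e2 : T l i = x' l := by simp [hT]
    rw [e2, add_comm]
    congr 1
    by_cases hl : l = i
    · rw [if_pos hl]
      refine Finset.sum_eq_zero fun m hm => ?_
      have hmi : m ≠ i := Finset.ne_of_mem_erase hm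
      have e3 : T l m = 0 := by
        simp only [hT]
        rw [if_neg hmi, if_neg]
        rw [hl]
        exact Ne.symm hmi
      rw [e3, zero_mul]
    · rw [if_neg hl, Finset.sum_eq_single l]
      · have e3 : T l l = 1 := by
          simp only [hT]
          rw [if_neg hl, if_true]
        rw [e3, one_mul]
      · intro m hm hml
        have hmi : m ≠ i := Finset.ne_of_mem_erase hm
        have e3 : T l m = 0 := by
          simp only [hT]
          rw [if_neg hmi, if_neg (Ne.symm hml)]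
        rw [e3, zero_mul]
      · intro h
        exact absurd (Finset.mem_erase.2 ⟨hl, Finset.mem_univ _⟩) h
  have hinj : Function.Injective T.mulVec := by
    intro c c' hcc
    have h5 : T.mulVec (c - c') = 0 := by
      rw [Matrix.mulVec_sub, hcc, sub_self]
    have h6 : (c - c') i = 0 := by
      have h7 := congrFun h5 i
      rw [hTc, if_pos rfl, zero_add] at h7
      exact (mul_eq_zero.1 h7).resolve_left hi
    funext l
    have h7 := congrFun h5 l
    rw [hTc, h6, mul_zero, add_zero] at h7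
    by_cases hl : l = i
    · rw [hl]
      exact sub_eq_zero.1 h6
    · rw [if_neg hl] at h7
      exact sub_eq_zero.1 h7
  have hu : IsUnit T := Matrix.mulVec_injective_iff_isUnit.1 hinj
  have hdet : IsUnit T.det := (Matrix.isUnit_iff_isUnit_det T).1 hu
  have t1 : T * T⁻¹ = 1 := Matrix.mul_nonsing_inv T hdet
  have t2 : T⁻¹ * T = 1 := Matrix.nonsing_inv_mul T hdet
  have hcomm : Matrix.diagonal (fun i => (wz i : ℂ)) * T =
      T * Matrix.diagonal (fun i => (wz i : ℂ)) := by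
    ext l m
    rw [Matrix.diagonal_mul, Matrix.mul_diagonal]
    simp only [hT]
    by_cases hm : m = i
    · rw [if_pos hm]
      by_cases hl : x' l = 0
      · rw [hl]
        ring
      · have e1 := eig_coord h1 h2 hNP hx l hl
        have e2 : a * ((wz l : ℂ) - wz m) = 0 := by
          rw [hm]
          linear_combination e1 - hi'
        have e3 := sub_eq_zero.1 ((mul_eq_zero.1 e2).resolve_left ha)
        rw [e3]
        ring
    · rw [if_neg hm]
      by_cases hlm : l = m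
      · rw [if_pos hlm, hlm]
        ring
      · rw [if_neg hlm]
        ring
  refine ⟨i, P * T, T⁻¹ * P', ?_, ?_, ?_, hi', ?_, ?_⟩
  · calc P * T * (T⁻¹ * P') = P * (T * T⁻¹) * P' := by simp only [mul_assoc]
      _ = 1 := by rw [t1, mul_one, h1]
  · calc T⁻¹ * P' * (P * T) = T⁻¹ * (P' * P) * T := by simp only [mul_assoc]
      _ = 1 := by rw [h2, mul_one, t2]
  · have e1 : P * T * Matrix.diagonal (fun i => (wz i : ℂ)) * (T⁻¹ * P') =
        P * Matrix.diagonal (fun i => (wz i : ℂ)) * P' := by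
      calc P * T * Matrix.diagonal (fun i => (wz i : ℂ)) * (T⁻¹ * P') =
          P * (T * Matrix.diagonal (fun i => (wz i : ℂ))) * T⁻¹ * P' := by
            simp only [mul_assoc]
        _ = P * Matrix.diagonal (fun i => (wz i : ℂ)) * (T * T⁻¹) * P' := by
            rw [← hcomm]
            simp only [mul_assoc]
        _ = _ := by rw [t1, mul_one]
    rw [e1]
    exact hNP
  · rw [← Matrix.mulVec_mulVec, hTi, hx', Matrix.mulVec_mulVec, h1, Matrix.one_mulVec]
  · intro j hj
    rw [← Matrix.mulVec_mulVec, hTj j hj]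

end coord

/-- from an infinitesimal symmetry to a torus action -/
theorem dm_data (hn : 4 ≤ n) (hE : ¬ E.Splits) (O : Op E N) {ds : ℤ} {s : Vec E.a n}
    (hs : Sec E ds s) {μ : ℂ} (hl : O.D s = fun i => C μ * s i)
    {P P' : Matrix (Fin (n + 1)) (Fin (n + 1)) ℂ} {wz : Fin (n + 1) → ℤ} {a b : ℂ} (ha : a ≠ 0)
    (h1 : P * P' = 1) (h2 : P' * P = 1)
    (hNP : N = a • (P * Matrix.diagonal (fun i => (wz i : ℂ)) * P') + b • 1)
    (hwz : ∃ p q, wz p ≠ wz q) :
    ∃ (E' : Bundle2 n) (w : Fin (n + 1) → ℤ × ℤ) (D : EqB E' w) (W : Wedge D) (σ : M)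
      (y : Vec E'.a n) (a₀ b₀ : ℤ) (K : ℤ), 0 < K ∧ Dm W σ y a₀ b₀ ∧
      (∀ p q, (w p).1 - (w q).1 = K * (wz p - wz q)) ∧
      (∀ x : Fin (n + 1) → ℂ, x ≠ 0 → (evv y x = 0 ↔ evv s (P.mulVecLin x) = 0)) ∧
      (∀ x : Fin (n + 1) → ℂ, x ≠ 0 → evv s (P.mulVecLin x) = 0 →
        SmoothAt s (P.mulVecLin x) → SmoothAt y x) := by
  set lam : Fin (n + 1) → ℂ := fun l => a * wz l + b with hlam
  have h3 : P' * N * P = Matrix.diagonal lam + 0 := by
    rw [add_zero]
    exact conj_eq h2 hNP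
  have hli : LinearIndependent ℚ ![a] := by
    rw [linearIndependent_unique_iff]
    exact ha
  obtain ⟨φ, hφ1, -⟩ := exists_dual hli 0
  have hφa : φ a = 1 := hφ1
  have hφ : ∀ l, φ (lam l) = wz l + φ b := by
    intro l
    have e1 : lam l = (wz l : ℚ) • a + b := by
      rw [hlam, Rat.smul_def]
      push_cast
      ring
    rw [e1, map_add, map_smul, hφa, smul_eq_mul, mul_one]
  obtain ⟨E', K, w, D, σ, y, hK, hspl, hw, hw2, hb2, hy, hy0, hysm⟩ :=
    descend_t (by omega) O hs hl h1 h3 (by rw [mul_zero, zero_mul]) IsNilpotent.zero φ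
  obtain ⟨W⟩ := exists_wedge (by omega) D
  have hwd : ∀ p q, (w p).1 - (w q).1 = K * (wz p - wz q) := by
    intro p q
    have e1 : (((w p).1 - (w q).1 : ℤ) : ℚ) = ((K * (wz p - wz q) : ℤ) : ℚ) := by
      push_cast
      rw [hw, hw, hφ, hφ]
      ring
    exact_mod_cast e1
  have hKz : (0 : ℤ) < K := by
    have : 0 < K := Nat.pos_of_ne_zero hK
    exact_mod_cast this
  obtain ⟨ia, -, hmin⟩ := Finset.exists_min_image Finset.univ (fun l => (w l).1)
    ⟨0, Finset.mem_univ _⟩
  obtain ⟨ib, -, hmax⟩ := Finset.exists_max_image Finset.univ (fun l => (w l).1)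
    ⟨0, Finset.mem_univ _⟩
  refine ⟨E', w, D, W, σ, y, (w ia).1, (w ib).1, K, hKz,
    { hn := by omega
      hE := fun h => hE (hspl h)
      hs := hy
      hw2 := hw2
      hb2 := hb2
      ha := fun l => hmin l (Finset.mem_univ l)
      hb := fun l => hmax l (Finset.mem_univ l)
      ha' := ⟨ia, rfl⟩
      hb' := ⟨ib, rfl⟩
      hab := ?_ }, hwd, hy0, hysm⟩
  obtain ⟨p, q, hpq⟩ := hwz
  have a1 := hmin p (Finset.mem_univ p)
  have a2 := hmax p (Finset.mem_univ p)
  have a3 := hmin q (Finset.mem_univ q)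
  have a4 := hmax q (Finset.mem_univ q)
  by_contra hcon
  have a5 : (w p).1 - (w q).1 = 0 := by omega
  rw [hwd] at a5
  rcases mul_eq_zero.1 a5 with h | h <;> omega

theorem scale_lt {K p q : ℤ} (hK : 0 < K) {x y : ℤ} (h : x - y = K * (p - q)) :
    (x < y ↔ p < q) ∧ (x = y ↔ p = q) := by
  constructor
  · constructor
    · intro h1
      by_contra h2
      have : 0 ≤ K * (p - q) := mul_nonneg hK.le (by omega)
      omega
    · intro h1
      have : K * (p - q) < 0 := mul_neg_of_pos_of_neg hK (by omega)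
      omega
  · constructor
    · intro h1
      have h2 : K * (p - q) = 0 := by omega
      rcases mul_eq_zero.1 h2 with h3 | h3 <;> omega
    · intro h1
      rw [h1, sub_self, mul_zero] at h
      omega

/-- **Theorem (two smooth intermediate zeros).** -/
theorem pair_main (hn : 6 ≤ n) (hE : ¬ E.Splits) (O : Op E N) (hN : ∀ c : ℂ, N ≠ c • 1) {ds : ℤ}
    {s : Vec E.a n} (hs : Sec E ds s) {μ : ℂ} (hl : O.D s = fun i => C μ * s i)
    {x y : Fin (n + 1) → ℂ} (hx0 : x ≠ 0) (hy0 : y ≠ 0) {lx ly : ℂ} (hx : N.mulVec x = lx • x)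
    (hy : N.mulVec y = ly • y) (ix : Inter N lx) (iy : Inter N ly) (zx : evv s x = 0)
    (zy : evv s y = 0) (sx : SmoothAt s x) (sy : SmoothAt s y) : lx = ly := by
  by_contra hne
  obtain ⟨P, P', wz, a, b, ha, h1, h2, hNP⟩ := lifts_int (by omega) hE ⟨O⟩ hN
  obtain ⟨i, Q, Q', q1, q2, hNQ, hi, hQi, -⟩ := change_col ha h1 h2 hNP hx0 hx
  obtain ⟨j, R, R', r1, r2, hNR, hj, hRj, hRk⟩ := change_col ha q1 q2 hNQ hy0 hy
  have hij : i ≠ j := by
    rintro rfl
    exact hne (hi.symm.trans hj)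
  have hRi : R.mulVec (Pi.single i 1) = x := by rw [hRk i hij, hQi]
  have hwij : wz i ≠ wz j := by
    intro h
    apply hne
    rw [← hi, ← hj, h]
  obtain ⟨E', w, D, W, σ, u, a₀, b₀, K, hK, H, hwd, hu0, husm⟩ :=
    dm_data (by omega) hE O hs hl ha r1 r2 hNR ⟨i, j, hwij⟩
  obtain ⟨p, q, hp, hq⟩ := ix.between r1 r2 ha hNR hi
  obtain ⟨p', q', hp', hq'⟩ := iy.between r1 r2 ha hNR hj
  have c1 := H.ha p
  have c2 := H.hb q
  have c3 := H.ha p'
  have c4 := H.hb q'
  have d1 := (scale_lt hK (hwd p i)).1.2 hp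
  have d2 := (scale_lt hK (hwd i q)).1.2 hq
  have d3 := (scale_lt hK (hwd p' j)).1.2 hp'
  have d4 := (scale_lt hK (hwd j q')).1.2 hq'
  have ei : R.mulVecLin (ee i) = x := hRi
  have ej : R.mulVecLin (ee j) = y := hRj
  have ui : evv u (ee i : Fin (n + 1) → ℂ) = 0 := (hu0 _ (ee_ne i)).2 (by rw [ei]; exact zx)
  have uj : evv u (ee j : Fin (n + 1) → ℂ) = 0 := (hu0 _ (ee_ne j)).2 (by rw [ej]; exact zy)
  have si : SmoothAt u (ee i : Fin (n + 1) → ℂ) :=
    husm _ (ee_ne i) (by rw [ei]; exact zx) (by rw [ei]; exact sx)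
  have sj : SmoothAt u (ee j : Fin (n + 1) → ℂ) :=
    husm _ (ee_ne j) (by rw [ej]; exact zy) (by rw [ej]; exact sy)
  rcases lt_or_gt_of_ne hwij with h | h
  · have d5 := (scale_lt hK (hwd i j)).1.2 h
    exact H.pair (by omega) d5 (by omega) (by omega) ui uj si sj
  · have d5 := (scale_lt hK (hwd j i)).1.2 h
    exact H.pair (by omega) d5 (by omega) (by omega) uj ui sj si

/-- **Theorem (singular intermediate zeros).** -/
theorem five_main (hn : 8 ≤ n) (hE : ¬ E.Splits) (O : Op E N) (hN : ∀ c : ℂ, N ≠ c • 1) {ds : ℤ}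
    {s : Vec E.a n} (hs : Sec E ds s) {μ : ℂ} (hl : O.D s = fun i => C μ * s i) :
    ∃ (z : Fin (n + 1) → ℂ) (v : ℂ), z ≠ 0 ∧ N.mulVec z = v • z ∧ Inter N v ∧ evv s z = 0 ∧
      ¬ SmoothAt s z := by
  by_contra hcon
  push Not at hcon
  obtain ⟨P, P', wz, a, b, ha, h1, h2, hNP⟩ := lifts_int (by omega) hE ⟨O⟩ hN
  have hwz : ∃ p q, wz p ≠ wz q := by
    by_contra hc
    push Not at hc
    apply hN (a * wz 0 + b)
    have e2 : Matrix.diagonal (fun i => (wz i : ℂ)) =
        (wz 0 : ℂ) • (1 : Matrix (Fin (n + 1)) (Fin (n + 1)) ℂ) := by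
      rw [← Matrix.diagonal_one, ← Matrix.diagonal_smul]
      congr 1
      funext l
      rw [hc l 0]
      simp
    rw [hNP, e2, Matrix.mul_smul, mul_one, Matrix.smul_mul, h1, smul_smul, ← add_smul]
  obtain ⟨E', w, D, W, σ, u, a₀, b₀, K, hK, H, hwd, hu0, husm⟩ :=
    dm_data (by omega) hE O hs hl ha h1 h2 hNP hwz
  refine H.five (fun x V hx hf haV hVb h0 => ?_) hn
  obtain ⟨l, hl'⟩ : ∃ l, x l ≠ 0 := by
    by_contra hc
    push Not at hc
    exact hx (funext hc)
  have hwl : (w l).1 = V := hf l hl'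
  have hxw : ∀ m, x m ≠ 0 → wz m = wz l := by
    intro m hm
    exact (scale_lt hK (hwd m l)).2.1 ((hf m hm).trans hwl.symm)
  have hPx : P.mulVecLin x ≠ 0 := by
    intro h5
    apply hx
    have h6 := congrArg P'.mulVec h5
    rw [Matrix.mulVecLin_apply, Matrix.mulVec_mulVec, h2, Matrix.one_mulVec,
      Matrix.mulVec_zero] at h6
    exact h6
  have h4 := (hu0 x hx).1 h0
  refine husm x hx h4 (hcon _ (a * wz l + b) hPx (eig_col h2 h1 hNP hxw) ?_ h4)
  obtain ⟨ia, hia⟩ := H.ha'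
  obtain ⟨ib, hib⟩ := H.hb'
  have g1 : wz ia < wz l := (scale_lt hK (hwd ia l)).1.1 (by omega)
  have g2 : wz l < wz ib := (scale_lt hK (hwd l ib)).1.1 (by omega)
  have hcol : ∀ m : Fin (n + 1), ∃ x : Fin (n + 1) → ℂ, x ≠ 0 ∧
      N.mulVec x = (a * wz m + b) • x := by
    intro m
    refine ⟨P.mulVec (ee m), ?_, eig_col h2 h1 hNP (fun k hk => ?_)⟩
    · intro h5
      have h6 := congrArg P'.mulVec h5
      rw [Matrix.mulVec_mulVec, h2, Matrix.one_mulVec, Matrix.mulVec_zero] at h6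
      exact ee_ne m h6
    · by_cases hkm : k = m
      · rw [hkm]
      · exact absurd (Pi.single_eq_of_ne hkm _) hk
  have hpos : (0 : ℝ) < (wz ib : ℝ) - wz ia := by
    have : (wz ia : ℝ) < wz ib := by exact_mod_cast (g1.trans g2)
    linarith
  refine ⟨a * wz ia + b, a * wz ib + b, ((wz l : ℝ) - wz ia) / ((wz ib : ℝ) - wz ia), ?_,
    hcol ia, hcol ib, ?_, ?_, ?_⟩
  · intro h5
    have h6 : a * ((wz ia : ℂ) - wz ib) = 0 := by linear_combination h5
    have h7 := sub_eq_zero.1 ((mul_eq_zero.1 h6).resolve_left ha)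
    have h8 : wz ia = wz ib := by exact_mod_cast h7
    omega
  · apply div_pos _ hpos
    have : (wz ia : ℝ) < wz l := by exact_mod_cast g1
    linarith
  · rw [div_lt_one hpos]
    have : (wz l : ℝ) < wz ib := by exact_mod_cast g2
    linarith
  · have h5 : ((wz ib : ℂ) - wz ia) ≠ 0 := by
      intro h6
      have h7 := sub_eq_zero.1 h6
      have h8 : wz ib = wz ia := by exact_mod_cast h7
      omega
    push_cast
    field_simp
    ring

end Pool.Agent.W615
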