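import Pool.Agent.W615.LA3

/-!
# Zero loci which are smooth at the intermediate fixed points: counting (helper615)
-/

set_option autoImplicit false
set_option maxHeartbeats 800000

open MvPolynomial H960VB H938TB

namespace Pool.Agent.W615

section torus

variable {n : ℕ} {w : Fin (n + 1) → ℤ × ℤ} {E : Bundle2 n} {D : EqB E w}
  {W : Wedge D} {σ : M} {s : Vec E.a n} {a b : ℤ}

/-- five intermediate coordinates -/
theorem Dm.five' (H : Dm W σ s a b) (S : SmoothM w s a b)
    (h5 : 5 ≤ (Finset.univ.filter fun l => a < (w l).1 ∧ (w l).1 < b).card) : False := by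
  classical
  set SM : Finset (Fin (n + 1)) := Finset.univ.filter fun l => a < (w l).1 ∧ (w l).1 < b with hSM
  set SI : Finset (Fin (n + 1)) := Finset.univ.filter fun l => a < (w l).1 ∧ (w l).1 < b ∧
    evv s (ee l : Fin (n + 1) → ℂ) = 0 with hSI
  set SO : Finset (Fin (n + 1)) := Finset.univ.filter fun l => a < (w l).1 ∧ (w l).1 < b ∧
    evv s (ee l : Fin (n + 1) → ℂ) ≠ 0 with hSO
  have mI : ∀ l, l ∈ SI ↔ (a < (w l).1 ∧ (w l).1 < b ∧
      evv s (ee l : Fin (n + 1) → ℂ) = 0) := fun l => by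
    rw [hSI, Finset.mem_filter]
    exact ⟨fun h => h.2, fun h => ⟨Finset.mem_univ _, h⟩⟩
  have mO : ∀ l, l ∈ SO ↔ (a < (w l).1 ∧ (w l).1 < b ∧
      evv s (ee l : Fin (n + 1) → ℂ) ≠ 0) := fun l => by
    rw [hSO, Finset.mem_filter]
    exact ⟨fun h => h.2, fun h => ⟨Finset.mem_univ _, h⟩⟩
  have cI : SI.card ≤ 2 := by
    by_contra hc
    obtain ⟨x, y, z, hx, hy, hz, hxy, hxz, hyz⟩ := Finset.two_lt_card_iff.1 (by omega : 2 < SI.card)
    rw [mI] at hx hy hz
    exact H.mid_three S hxy hxz hyz hx.1 hx.2.1 hy.1 hy.2.1 hz.1 hz.2.1 hx.2.2 hy.2.2 hz.2.2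
  have cO : SO.card ≤ 2 := by
    by_contra hc
    obtain ⟨x, y, z, hx, hy, hz, hxy, hxz, hyz⟩ := Finset.two_lt_card_iff.1 (by omega : 2 < SO.card)
    rw [mO] at hx hy hz
    exact H.free S hxy hxz hyz hx.1 hx.2.1 hy.1 hy.2.1 hx.2.2 hy.2.2 hz.2.2
  have hcov : SM ⊆ SI ∪ SO := by
    intro l hl
    rw [hSM, Finset.mem_filter] at hl
    rw [Finset.mem_union, mI, mO]
    by_cases h5 : evv s (ee l : Fin (n + 1) → ℂ) = 0
    · exact Or.inl ⟨hl.2.1, hl.2.2, h5⟩
    · exact Or.inr ⟨hl.2.1, hl.2.2, h5⟩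
  have hcard := Finset.card_le_card hcov
  have u3 := Finset.card_union_le SI SO
  omega

theorem Dm.card_mid (H : Dm W σ s a b) :
    n ≤ (Finset.univ.filter fun l => a < (w l).1 ∧ (w l).1 < b).card + 3 := by
  classical
  set SM : Finset (Fin (n + 1)) := Finset.univ.filter fun l => a < (w l).1 ∧ (w l).1 < b with hSM
  set SA : Finset (Fin (n + 1)) := Finset.univ.filter fun l => (w l).1 = a with hSA
  set SB : Finset (Fin (n + 1)) := Finset.univ.filter fun l => (w l).1 = b with hSB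
  have mA : ∀ l, l ∈ SA ↔ (w l).1 = a := fun l => by
    rw [hSA, Finset.mem_filter]
    exact ⟨fun h => h.2, fun h => ⟨Finset.mem_univ _, h⟩⟩
  have mB : ∀ l, l ∈ SB ↔ (w l).1 = b := fun l => by
    rw [hSB, Finset.mem_filter]
    exact ⟨fun h => h.2, fun h => ⟨Finset.mem_univ _, h⟩⟩
  have mM : ∀ l, l ∈ SM ↔ (a < (w l).1 ∧ (w l).1 < b) := fun l => by
    rw [hSM, Finset.mem_filter]
    exact ⟨fun h => h.2, fun h => ⟨Finset.mem_univ _, h⟩⟩
  have cA : SA.card ≤ 2 := by
    by_contra hc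
    obtain ⟨x, y, z, hx, hy, hz, hxy, hxz, hyz⟩ := Finset.two_lt_card_iff.1 (by omega : 2 < SA.card)
    rw [mA] at hx hy hz
    exact H.mult hxy hxz hyz (by omega) (by omega)
  have cB : SB.card ≤ 2 := by
    by_contra hc
    obtain ⟨x, y, z, hx, hy, hz, hxy, hxz, hyz⟩ := Finset.two_lt_card_iff.1 (by omega : 2 < SB.card)
    rw [mB] at hx hy hz
    exact H.mult hxy hxz hyz (by omega) (by omega)
  have hcov : (Finset.univ : Finset (Fin (n + 1))) ⊆ (SA ∪ SB) ∪ SM := by
    intro l _
    rw [Finset.mem_union, Finset.mem_union, mA, mB, mM]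
    have h1 := H.ha l
    have h2 := H.hb l
    omega
  have hcard := Finset.card_le_card hcov
  rw [Finset.card_univ, Fintype.card_fin] at hcard
  have u1 := Finset.card_union_le (SA ∪ SB) SM
  have u2 := Finset.card_union_le SA SB
  omega

end torus

variable {n : ℕ} {E : Bundle2 n} {N : Matrix (Fin (n + 1)) (Fin (n + 1)) ℂ}

/-- **Theorem (two smooth intermediate zeros).** -/
theorem pair_main' (hn : 4 ≤ n) (hE : ¬ E.Splits) (O : Op E N) (hN : ∀ c : ℂ, N ≠ c • 1) {ds : ℤ}
    {s : Vec E.a n} (hs : Sec E ds s) {μ : ℂ} (hl : O.D s = fun i => C μ * s i)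
    {x y : Fin (n + 1) → ℂ} (hx0 : x ≠ 0) (hy0 : y ≠ 0) {lx ly : ℂ} (hx : N.mulVec x = lx • x)
    (hy : N.mulVec y = ly • y) (ix : Inter N lx) (iy : Inter N ly)
    (hthird : 6 ≤ n ∨ ∃ (z : Fin (n + 1) → ℂ) (lz : ℂ), LinearIndependent ℂ ![x, y, z] ∧
      N.mulVec z = lz • z ∧ Inter N lz) (zx : evv s x = 0)
    (zy : evv s y = 0) (sx : SmoothAt s x) (sy : SmoothAt s y) : lx = ly := by
  classical
  by_contra hne
  obtain ⟨P, P', wz, a, b, ha, h1, h2, hNP⟩ := lifts_int (by omega) hE ⟨O⟩ hN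
  obtain ⟨i, Q, Q', q1, q2, hNQ, hi, hQi, -⟩ := change_col ha h1 h2 hNP hx0 hx
  obtain ⟨j, R, R', r1, r2, hNR, hj, hRj, hRk⟩ := change_col ha q1 q2 hNQ hy0 hy
  have hij : i ≠ j := by
    rintro rfl
    exact hne (hi.symm.trans hj)
  have hRi : R.mulVec (Pi.single i 1) = x := by rw [hRk i hij, hQi]
  have hwij : wz i ≠ wz j := by
    intro h
    apply hne
    rw [← hi, ← hj, h]
  obtain ⟨E', w, D, W, σ, u, a₀, b₀, K, hK, H, hwd, hu0, husm⟩ :=
    dm_data (by omega) hE O hs hl ha r1 r2 hNR ⟨i, j, hwij⟩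
  have hmid : ∀ (l : Fin (n + 1)) (v : ℂ), Inter N v → a * wz l + b = v →
      a₀ < (w l).1 ∧ (w l).1 < b₀ := by
    intro l v hv hlv
    obtain ⟨p, q, hp, hq⟩ := hv.between r1 r2 ha hNR hlv
    have c1 := H.ha p
    have c2 := H.hb q
    have d1 := (scale_lt hK (hwd p l)).1.2 hp
    have d2 := (scale_lt hK (hwd l q)).1.2 hq
    omega
  obtain ⟨d1, d2⟩ := hmid i lx ix hi
  obtain ⟨d3, d4⟩ := hmid j ly iy hj
  -- the third index
  obtain ⟨t, hti, htj, ht1, ht2⟩ : ∃ t, t ≠ i ∧ t ≠ j ∧ a₀ < (w t).1 ∧ (w t).1 < b₀ := by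
    rcases hthird with h6 | ⟨z, lz, hli, hz, iz⟩
    · have hc := H.card_mid
      by_contra hcon
      push Not at hcon
      have hsub : (Finset.univ.filter fun l => a₀ < (w l).1 ∧ (w l).1 < b₀) ⊆ {i, j} := by
        intro t ht
        rw [Finset.mem_filter] at ht
        rw [Finset.mem_insert, Finset.mem_singleton]
        by_contra hc
        push Not at hc
        have := hcon t hc.1 hc.2 ht.2.1
        omega
      have h7 := Finset.card_le_card hsub
      have h8 : ({i, j} : Finset (Fin (n + 1))).card ≤ 2 := Finset.card_le_two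
      omega
    · obtain ⟨t, hti, htj, ht⟩ : ∃ t, t ≠ i ∧ t ≠ j ∧ R'.mulVec z t ≠ 0 := by
        by_contra hcon
        push Not at hcon
        have e1 : R'.mulVec z = (R'.mulVec z i) • (Pi.single i 1) +
            (R'.mulVec z j) • (Pi.single j 1 : Fin (n + 1) → ℂ) := by
          funext t
          rw [Pi.add_apply, Pi.smul_apply, Pi.smul_apply, smul_eq_mul, smul_eq_mul]
          by_cases h3 : t = i
          · rw [h3, Pi.single_eq_same, Pi.single_eq_of_ne hij, mul_one, mul_zero, add_zero]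
          · by_cases h4 : t = j
            · rw [h4, Pi.single_eq_same, Pi.single_eq_of_ne (Ne.symm hij), mul_one, mul_zero,
                zero_add]
            · rw [Pi.single_eq_of_ne h3, Pi.single_eq_of_ne h4, mul_zero, mul_zero, add_zero]
              exact hcon t h3 h4
        have e2 : z = (R'.mulVec z i) • x + (R'.mulVec z j) • y := by
          have e3 := congrArg R.mulVec e1
          rwa [Matrix.mulVec_mulVec, r1, Matrix.one_mulVec, Matrix.mulVec_add, Matrix.mulVec_smul,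
            Matrix.mulVec_smul, hRi, hRj] at e3
        have e4 := Fintype.linearIndependent_iff.1 hli ![R'.mulVec z i, R'.mulVec z j, -1] (by
          rw [Fin.sum_univ_three]
          simp only [Matrix.cons_val_zero, Matrix.cons_val_one, Matrix.cons_val]
          rw [neg_smul, one_smul]
          exact sub_eq_zero.2 e2.symm) 2
        simp at e4
      obtain ⟨f1, f2⟩ := hmid t lz iz (eig_coord r1 r2 hNR hz t ht)
      exact ⟨t, hti, htj, f1, f2⟩
  have ei : R.mulVecLin (ee i) = x := hRi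
  have ej : R.mulVecLin (ee j) = y := hRj
  have ui : evv u (ee i : Fin (n + 1) → ℂ) = 0 := (hu0 _ (ee_ne i)).2 (by rw [ei]; exact zx)
  have uj : evv u (ee j : Fin (n + 1) → ℂ) = 0 := (hu0 _ (ee_ne j)).2 (by rw [ej]; exact zy)
  have si : SmoothAt u (ee i : Fin (n + 1) → ℂ) :=
    husm _ (ee_ne i) (by rw [ei]; exact zx) (by rw [ei]; exact sx)
  have sj : SmoothAt u (ee j : Fin (n + 1) → ℂ) :=
    husm _ (ee_ne j) (by rw [ej]; exact zy) (by rw [ej]; exact sy)
  rcases lt_or_gt_of_ne hwij with h | h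
  · have d5 := (scale_lt hK (hwd i j)).1.2 h
    exact H.mid_pair hti htj d5 d1 d4 ht1 ht2 ui uj si sj
  · have d5 := (scale_lt hK (hwd j i)).1.2 h
    exact H.mid_pair htj hti d5 d3 d2 ht1 ht2 uj ui sj si

/-- **Theorem (singular intermediate zeros).** -/
theorem five_main' (hn : 4 ≤ n) (hE : ¬ E.Splits) (O : Op E N) (hN : ∀ c : ℂ, N ≠ c • 1) {ds : ℤ}
    {s : Vec E.a n} (hs : Sec E ds s) {μ : ℂ} (hl : O.D s = fun i => C μ * s i)
    (hfive : 8 ≤ n ∨ ∃ (v : Fin 5 → Fin (n + 1) → ℂ), LinearIndependent ℂ v ∧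
      ∀ k, ∃ l : ℂ, N.mulVec (v k) = l • v k ∧ Inter N l) :
    ∃ (z : Fin (n + 1) → ℂ) (v : ℂ), z ≠ 0 ∧ N.mulVec z = v • z ∧ Inter N v ∧ evv s z = 0 ∧
      ¬ SmoothAt s z := by
  classical
  by_contra hcon
  push Not at hcon
  obtain ⟨P, P', wz, a, b, ha, h1, h2, hNP⟩ := lifts_int (by omega) hE ⟨O⟩ hN
  have hwz : ∃ p q, wz p ≠ wz q := by
    by_contra hc
    push Not at hc
    apply hN (a * wz 0 + b)
    have e2 : Matrix.diagonal (fun i => (wz i : ℂ)) =
        (wz 0 : ℂ) • (1 : Matrix (Fin (n + 1)) (Fin (n + 1)) ℂ) := by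
      rw [← Matrix.diagonal_one, ← Matrix.diagonal_smul]
      congr 1
      funext l
      rw [hc l 0]
      simp
    rw [hNP, e2, Matrix.mul_smul, mul_one, Matrix.smul_mul, h1, smul_smul, ← add_smul]
  obtain ⟨E', w, D, W, σ, u, a₀, b₀, K, hK, H, hwd, hu0, husm⟩ :=
    dm_data (by omega) hE O hs hl ha h1 h2 hNP hwz
  have hcard : 5 ≤ (Finset.univ.filter fun l => a₀ < (w l).1 ∧ (w l).1 < b₀).card := by
    rcases hfive with h8 | ⟨v, hv, hvk⟩
    · have := H.card_mid
      omega
    · set SM : Finset (Fin (n + 1)) := Finset.univ.filter fun l => a₀ < (w l).1 ∧ (w l).1 < b₀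
        with hSM
      -- the coordinates of the vectors
      have hout : ∀ k l, l ∉ SM → P'.mulVec (v k) l = 0 := by
        intro k l hl
        by_contra hc
        apply hl
        obtain ⟨c, hc1, hc2⟩ := hvk k
        have e1 := eig_coord h1 h2 hNP hc1 l hc
        obtain ⟨p, q, hp, hq⟩ := hc2.between h1 h2 ha hNP e1
        have c1 := H.ha p
        have c2 := H.hb q
        have d1 := (scale_lt hK (hwd p l)).1.2 hp
        have d2 := (scale_lt hK (hwd l q)).1.2 hq
        rw [hSM, Finset.mem_filter]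
        exact ⟨Finset.mem_univ _, by omega, by omega⟩
      have hli : LinearIndependent ℂ (fun k => fun m : SM => P'.mulVec (v k) m) := by
        rw [Fintype.linearIndependent_iff]
        intro c hc
        apply Fintype.linearIndependent_iff.1 hv c
        have e1 : P'.mulVec (∑ k, c k • v k) = 0 := by
          funext l
          have e2 : P'.mulVec (∑ k, c k • v k) l = ∑ k, c k * P'.mulVec (v k) l := by
            have e3 : P'.mulVec (∑ k, c k • v k) = ∑ k, c k • P'.mulVec (v k) := by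
              rw [← Matrix.mulVecLin_apply, map_sum]
              refine Finset.sum_congr rfl fun k _ => ?_
              rw [map_smul, Matrix.mulVecLin_apply]
            rw [e3, Finset.sum_apply]
            rfl
          rw [e2]
          by_cases hl : l ∈ SM
          · have e3 := congrFun hc ⟨l, hl⟩
            rw [Finset.sum_apply] at e3
            exact e3
          · rw [Finset.sum_eq_zero fun k _ => by rw [hout k l hl, mul_zero]]
            rfl
        have e4 := congrArg P.mulVec e1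
        rwa [Matrix.mulVec_mulVec, h1, Matrix.one_mulVec, Matrix.mulVec_zero] at e4
      have h9 := hli.fintype_card_le_finrank
      rw [Fintype.card_fin, Module.finrank_fintype_fun_eq_card, Fintype.card_coe] at h9
      exact h9
  refine H.five' (fun x V hx hf haV hVb h0 => ?_) hcard
  obtain ⟨l, hl'⟩ : ∃ l, x l ≠ 0 := by
    by_contra hc
    push Not at hc
    exact hx (funext hc)
  have hwl : (w l).1 = V := hf l hl'
  have hxw : ∀ m, x m ≠ 0 → wz m = wz l := by
    intro m hm
    exact (scale_lt hK (hwd m l)).2.1 ((hf m hm).trans hwl.symm)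
  have hPx : P.mulVecLin x ≠ 0 := by
    intro h5
    apply hx
    have h6 := congrArg P'.mulVec h5
    rw [Matrix.mulVecLin_apply, Matrix.mulVec_mulVec, h2, Matrix.one_mulVec,
      Matrix.mulVec_zero] at h6
    exact h6
  have h4 := (hu0 x hx).1 h0
  refine husm x hx h4 (hcon _ (a * wz l + b) hPx (eig_col h2 h1 hNP hxw) ?_ h4)
  obtain ⟨ia, hia⟩ := H.ha'
  obtain ⟨ib, hib⟩ := H.hb'
  have g1 : wz ia < wz l := (scale_lt hK (hwd ia l)).1.1 (by omega)
  have g2 : wz l < wz ib := (scale_lt hK (hwd l ib)).1.1 (by omega)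
  have hcol : ∀ m : Fin (n + 1), ∃ x : Fin (n + 1) → ℂ, x ≠ 0 ∧
      N.mulVec x = (a * wz m + b) • x := by
    intro m
    refine ⟨P.mulVec (ee m), ?_, eig_col h2 h1 hNP (fun k hk => ?_)⟩
    · intro h5
      have h6 := congrArg P'.mulVec h5
      rw [Matrix.mulVec_mulVec, h2, Matrix.one_mulVec, Matrix.mulVec_zero] at h6
      exact ee_ne m h6
    · by_cases hkm : k = m
      · rw [hkm]
      · exact absurd (Pi.single_eq_of_ne hkm _) hk
  have hpos : (0 : ℝ) < (wz ib : ℝ) - wz ia := by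
    have : (wz ia : ℝ) < wz ib := by exact_mod_cast (g1.trans g2)
    linarith
  refine ⟨a * wz ia + b, a * wz ib + b, ((wz l : ℝ) - wz ia) / ((wz ib : ℝ) - wz ia), ?_,
    hcol ia, hcol ib, ?_, ?_, ?_⟩
  · intro h5
    have h6 : a * ((wz ia : ℂ) - wz ib) = 0 := by linear_combination h5
    have h7 := sub_eq_zero.1 ((mul_eq_zero.1 h6).resolve_left ha)
    have h8 : wz ia = wz ib := by exact_mod_cast h7
    omega
  · apply div_pos _ hpos
    have : (wz ia : ℝ) < wz l := by exact_mod_cast g1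
    linarith
  · rw [div_lt_one hpos]
    have : (wz l : ℝ) < wz ib := by exact_mod_cast g2
    linarith
  · have h5 : ((wz ib : ℂ) - wz ia) ≠ 0 := by
      intro h6
      have h7 := sub_eq_zero.1 h6
      have h8 : wz ib = wz ia := by exact_mod_cast h7
      omega
    push_cast
    field_simp
    ring

end Pool.Agent.W615
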