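import Pool.Agent.W615.Str

/-!
# Strings and a second kernel vector (helper615)
-/

set_option autoImplicit false
set_option maxHeartbeats 400000

open MvPolynomial H960VB H938TB

namespace Pool.Agent.W615

section
variable {n : ℕ} {p : Fin (n + 1) → ℤ} {E : Bundle2 n}

/-- **Lemma M.** -/
theorem splits_of_kernel (hn : 2 ≤ n) (D : EqB E (pw p)) {c : ℤ} (hc : 0 < c)
    {Y : Matrix (Fin (n + 1)) (Fin (n + 1)) ℂ} (L : Lft D (oc c) (vf Y)) {q : ℤ}
    {v c₁ c₂ : Fin (n + 1) → ℂ} (S : Str p Y c q v c₁ c₂) {q' : ℤ} {u : Fin (n + 1) → ℂ}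
    (hu : WV p q' u) (hYu : Y.mulVec u = 0) (hli : LinearIndependent ℂ ![v, u]) : E.Splits := by
  have hu0 : u ≠ 0 := hli.ne_zero 1
  rcases eq_or_ne q' q with rfl | hqq
  · -- the same weight
    obtain ⟨s₁, hs₁⟩ := Function.ne_iff.1 S.ne
    rw [Pi.zero_apply] at hs₁
    have h1 : v s₁ • u - u s₁ • v ≠ 0 := by
      intro h
      have h2 := (LinearIndependent.pair_iff.1 hli) (-(u s₁)) (v s₁) (by
        rw [neg_smul, neg_add_eq_sub]
        exact h)
      exact hs₁ h2.2
    obtain ⟨s₂, hs₂⟩ := Function.ne_iff.1 h1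
    rw [Pi.zero_apply] at hs₂
    obtain ⟨s₃, hs₃⟩ := Function.ne_iff.1 S.ne2
    rw [Pi.zero_apply] at hs₃
    have p1 : p s₁ = q' := S.w0 s₁ hs₁
    have p2 : p s₂ = q' := by
      by_contra h
      apply hs₂
      have a1 : u s₂ = 0 := by
        by_contra h'
        exact h (hu s₂ h')
      have a2 : v s₂ = 0 := by
        by_contra h'
        exact h (S.w0 s₂ h')
      rw [Pi.sub_apply, Pi.smul_apply, Pi.smul_apply, a1, a2, smul_zero, smul_zero, sub_zero]
    have p3 : p s₃ = q' + 2 * c := S.w2 s₃ hs₃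
    have h12 : s₁ ≠ s₂ := by
      rintro rfl
      apply hs₂
      rw [Pi.sub_apply, Pi.smul_apply, Pi.smul_apply, smul_eq_mul, smul_eq_mul]
      ring
    have h13 : s₁ ≠ s₃ := by
      rintro rfl
      rw [p1] at p3
      linarith
    have h23 : s₂ ≠ s₃ := by
      rintro rfl
      rw [p2] at p3
      linarith
    obtain ⟨r, hr⟩ : ∃ r : ℕ, (r : ℤ) = 2 * c := ⟨(2 * c).toNat, by
      rw [Int.toNat_of_nonneg]
      linarith⟩
    refine splits_mod hn D hc L S r ?_ ![s₁, s₂, s₃] ?_ ?_
    · rw [hr]
      intro h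
      have := Int.le_of_dvd hc h
      linarith
    · intro i j hij
      fin_cases i <;> fin_cases j <;> simp at hij ⊢ <;>
        first | exact h12 hij | exact h13 hij | exact h23 hij | exact h12 hij.symm |
          exact h13 hij.symm | exact h23 hij.symm
    · intro t
      fin_cases t
      · show ((p s₁ : ℤ) : ZMod r) = _
        rw [p1]
      · show ((p s₂ : ℤ) : ZMod r) = _
        rw [p2]
      · show ((p s₃ : ℤ) : ZMod r) = _
        rw [p3, Int.cast_add, ← hr, Int.cast_natCast, ZMod.natCast_self, add_zero]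
  · -- different weights
    by_contra hE
    obtain ⟨τ, G, hG, hgood⟩ := exists_good hn D hE hc L S
    have hind : LinearIndependent ℂ ![v, u, c₁] := by
      rw [Fintype.linearIndependent_iff]
      intro g hg
      rw [Fin.sum_univ_three] at hg
      simp only [Matrix.cons_val] at hg
      have h1 := congrArg Y.mulVec hg
      rw [Matrix.mulVec_add, Matrix.mulVec_add, Matrix.mulVec_smul, Matrix.mulVec_smul,
        Matrix.mulVec_smul, S.Y0, S.Y1, hYu, Matrix.mulVec_zero, smul_zero, smul_zero,
        zero_add, zero_add] at h1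
      have g2 : g 2 = 0 := (smul_eq_zero.1 h1).resolve_right S.ne
      rw [g2, zero_smul, add_zero] at hg
      have h2 := (LinearIndependent.pair_iff.1 hli) _ _ hg
      intro i
      fin_cases i
      · exact h2.1
      · exact h2.2
      · exact g2
    let qq : Fin 3 → ℤ := ![q, q', q + c]
    have hwt : ∀ t, WV p (qq t) (![v, u, c₁] t) := by
      intro t
      fin_cases t
      · exact S.w0
      · exact hu
      · exact S.w1
    let T : (Fin (2 + 1) → ℂ) →ₗ[ℂ] (Fin (n + 1) → ℂ) := Fintype.linearCombination ℂ ![v, u, c₁]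
    have hT : Function.Injective T := hind.fintypeLinearCombination_injective
    have hTs : ∀ t, T (Pi.single t 1) = ![v, u, c₁] t := by
      intro t
      simp only [T]
      rw [Fintype.linearCombination_apply_single, one_smul]
    have hw : ∀ t s, T (Pi.single t 1) s ≠ 0 → pw p s = pw qq t := by
      intro t s hts
      rw [hTs] at hts
      show (p s, (0 : ℤ)) = (qq t, 0)
      rw [hwt t s hts]
    have d0 : elat (0 : Fin (1 + 1)) (X 0) = X 2 := by
      rw [elat_apply]
      show tX 1 * pderiv 0 (X 0) = X 2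
      rw [pderiv_X_self, mul_one]
      rfl
    have d1 : elat (0 : Fin (1 + 1)) (X 1) = 0 := by
      rw [elat_apply]
      show tX 1 * pderiv 0 (X 1) = 0
      rw [pderiv_X_of_ne (by decide), mul_zero]
    have d2 : elat (0 : Fin (1 + 1)) (X 2) = 0 := by
      rw [elat_apply]
      show tX 1 * pderiv 0 (X 2) = 0
      rw [pderiv_X_of_ne (by decide), mul_zero]
    have dC : ∀ c : ℂ, elat (0 : Fin (1 + 1)) (C c) = 0 :=
      fun c => Derivation.map_algebraMap _ _
    have hd : ∀ i, lsub T (vf Y (X i)) = elat (0 : Fin (1 + 1)) (lsub T (X i)) := by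
      intro i
      rw [lsub_vf, lsub_X, map_sum]
      show ∑ t : Fin 3, _ = ∑ t : Fin 3, _
      rw [Fin.sum_univ_three, Fin.sum_univ_three, hTs, hTs, hTs]
      show C (Y.mulVec v i) * X 0 + C (Y.mulVec u i) * X 1 + C (Y.mulVec c₁ i) * X 2 =
        elat (0 : Fin (1 + 1)) (C (v i) * X 0) + elat (0 : Fin (1 + 1)) (C (u i) * X 1) +
          elat (0 : Fin (1 + 1)) (C (c₁ i) * X 2)
      rw [S.Y0, S.Y1, hYu, Derivation.leibniz, Derivation.leibniz, Derivation.leibniz, dC, dC, dC,
        d0, d1, d2]
      simp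
    have hδ' : ∀ i, IsWeightedHomogeneous (tw (pw qq)) (elat (0 : Fin (1 + 1)) (X i))
        (tw (pw qq) i + oc c) := by
      intro i
      fin_cases i
      · show IsWeightedHomogeneous (tw (pw qq)) (elat (0 : Fin (1 + 1)) (X 0)) (tw (pw qq) 0 + oc c)
        have e2 : tw (pw qq) 0 + oc c = tw (pw qq) 2 := by
          show ((1 : ℤ), (q, (0 : ℤ))) + (0, (c, 0)) = (1, (q + c, 0))
          rw [Prod.mk_add_mk, Prod.mk_add_mk]
          norm_num
        rw [d0, e2]
        exact isWeightedHomogeneous_X _ _ _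
      · show IsWeightedHomogeneous (tw (pw qq)) (elat (0 : Fin (1 + 1)) (X 1)) (tw (pw qq) 1 + oc c)
        rw [d1]
        exact isWeightedHomogeneous_zero _ _ _
      · show IsWeightedHomogeneous (tw (pw qq)) (elat (0 : Fin (1 + 1)) (X 2)) (tw (pw qq) 2 + oc c)
        rw [d2]
        exact isWeightedHomogeneous_zero _ _ _
    obtain ⟨W'⟩ := exists_wedge (by norm_num) (D.pull T hT (pw qq) hw)
    have hGp := hG.pull T hT (pw qq) hw
    have hfin : (E.pull T hT).Splits := by
      refine p2e (E := E.pull T hT) (w := pw qq) (D := D.pull T hT (pw qq) hw)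
        (L.pull T hT (pw qq) hw (elat (0 : Fin (1 + 1))) hd hδ') rfl (oc_ne hc.ne') W' (chiq q)
        (e := q' - q) (c := c) (sub_ne_zero.2 hqq) ?_ ?_ ?_ (chiq_oc q c) hGp ?_
      · rw [chiq_tw]
        show q - q = 0
        ring
      · rw [chiq_tw]
        show q' - q = _
        rfl
      · rw [chiq_tw]
        show q + c - q = c
        ring
      · refine (W'.ind _ (e0_ne 2) _ _ hGp.ker (Lft.op_ker _ hGp.ker)).2 ?_
        have h5 : evv ((L.pull T hT (pw qq) hw (elat (0 : Fin (1 + 1))) hd hδ').op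
            (fun i => lsub T (G i))) (Pi.single 0 1) = evv (L.op G) v := by
          have h6 : T (Pi.single 0 1) = v := hTs 0
          rw [← h6, ← evv_lsub]
          congr 1
          exact funext fun i => pull_op _ _ _ _ _ _ _ _ _ _
        have h7 : evv (fun i => lsub T (G i)) (Pi.single 0 1) = evv G v := by
          have h6 : T (Pi.single 0 1) = v := hTs 0
          rw [evv_lsub, h6]
        have h8 := hgood
        rw [← h5, ← h7] at h8
        exact h8
    exact hE (Bundle2.splits_of_pull (n - 2) 2 n (le_refl 2) (by omega) E T hT hfin)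

end

end Pool.Agent.W615
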