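import Pool.Agent.W615.FixedPlane

/-!
# Lifts of derivations to rank two bundles (helper615)
-/

set_option autoImplicit false

open MvPolynomial H960VB H938TB

namespace Pool.Agent.W615

/-- shorthand for derivations of the polynomial ring -/
abbrev Der (n : ℕ) := Derivation ℂ (MvPolynomial (Fin (n + 1)) ℂ) (MvPolynomial (Fin (n + 1)) ℂ)

theorem der_eq_sum {n : ℕ} (δ : Der n) (p : MvPolynomial (Fin (n + 1)) ℂ) :
    δ p = ∑ i, pderiv i p * δ (X i) := by
  induction p using MvPolynomial.induction_on with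
  | C a => simp [derivation_C]
  | add p q hp hq =>
    rw [map_add, hp, hq, ← Finset.sum_add_distrib]
    exact Finset.sum_congr rfl fun i _ => by rw [map_add]; ring
  | mul_X p j hp =>
    rw [Derivation.leibniz, hp, smul_eq_mul, smul_eq_mul, Finset.mul_sum]
    have h1 : p * δ (X j) = ∑ i, p * pderiv i (X j) * δ (X i) := by
      rw [Finset.sum_eq_single j]
      · rw [pderiv_X_self, mul_one]
      · intro i _ hij
        rw [pderiv_X_of_ne (Ne.symm hij)]
        ring
      · intro h; exact absurd (Finset.mem_univ _) h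
    rw [h1, ← Finset.sum_add_distrib]
    refine Finset.sum_congr rfl fun i _ => ?_
    rw [Derivation.leibniz, smul_eq_mul, smul_eq_mul]
    ring

/-- a derivation moving the coordinates by the degree `ω` moves all polynomials by `ω`. -/
theorem der_hom {n : ℕ} {w : Fin (n + 1) → ℤ × ℤ} {δ : Der n} {ω : M}
    (hδ : ∀ i, IsWeightedHomogeneous (tw w) (δ (X i)) (tw w i + ω))
    {p : MvPolynomial (Fin (n + 1)) ℂ} {τ : M} (hp : IsWeightedHomogeneous (tw w) p τ) :
    IsWeightedHomogeneous (tw w) (δ p) (τ + ω) := by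
  rw [der_eq_sum]
  refine IsWeightedHomogeneous.sum _ _ _ fun i _ => ?_
  have h1 : IsWeightedHomogeneous (tw w) (pderiv i p) (τ - tw w i) :=
    hp.pderiv (by abel)
  have h2 := h1.mul (hδ i)
  convert h2 using 1
  abel

/-- restriction and derivations -/
theorem lsub_der {m n : ℕ} (T : (Fin (m + 1) → ℂ) →ₗ[ℂ] (Fin (n + 1) → ℂ)) {δ : Der n} {δ' : Der m}
    (h : ∀ i, lsub T (δ (X i)) = δ' (lsub T (X i))) (p : MvPolynomial (Fin (n + 1)) ℂ) :
    lsub T (δ p) = δ' (lsub T p) := by
  induction p using MvPolynomial.induction_on with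
  | C a =>
    have h1 : lsub T (C a) = C a := by
      rw [lsub, aeval_C]
      rfl
    rw [h1, derivation_C, derivation_C, map_zero]
  | add p q hp hq => rw [map_add, map_add, map_add, map_add, hp, hq]
  | mul_X p i hp =>
    rw [Derivation.leibniz, map_mul, Derivation.leibniz, map_add, smul_eq_mul, smul_eq_mul,
      smul_eq_mul, smul_eq_mul, map_mul, map_mul, hp, h]

variable {n : ℕ} {w : Fin (n + 1) → ℤ × ℤ} {E : Bundle2 n}

/-- A lift of the derivation `δ` (homogeneous of degree `ω`) to the bundle `E`, given on the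
presentation of `E` by the matrices `ν` and `μ`. -/
structure Lft (D : EqB E w) (ω : M) (δ : Der n) where
  ν : Matrix (Fin E.a) (Fin E.a) (MvPolynomial (Fin (n + 1)) ℂ)
  μ : Matrix (Fin E.c) (Fin E.c) (MvPolynomial (Fin (n + 1)) ℂ)
  hδ : ∀ i, IsWeightedHomogeneous (tw w) (δ (X i)) (tw w i + ω)
  hν : ∀ i j, IsWeightedHomogeneous (tw w) (ν i j)
    ((E.β i, D.b i) - (E.β j, D.b j) + ω)
  comm : ∀ k i, δ (E.B k i) = ∑ l, μ k l * E.B l i + ∑ j, E.B k j * ν j i

namespace Lft

variable {D : EqB E w} {ω : M} {δ : Der n} (L : Lft D ω δ)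

/-- the operator on the sections. -/
noncomputable def op (G : Vec E.a n) : Vec E.a n := fun i => δ (G i) + ∑ j, L.ν i j * G j

theorem op_add (G H : Vec E.a n) : L.op (fun i => G i + H i) = fun i => L.op G i + L.op H i := by
  funext i
  simp only [op, map_add, mul_add, Finset.sum_add_distrib]
  ring

theorem op_sub (G H : Vec E.a n) : L.op (fun i => G i - H i) = fun i => L.op G i - L.op H i := by
  funext i
  simp only [op, map_sub, mul_sub, Finset.sum_sub_distrib]
  ring

theorem op_mul (p : MvPolynomial (Fin (n + 1)) ℂ) (G : Vec E.a n) :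
    L.op (fun i => p * G i) = fun i => δ p * G i + p * L.op G i := by
  funext i
  simp only [op, Derivation.leibniz, smul_eq_mul]
  have h : ∑ j, L.ν i j * (p * G j) = p * ∑ j, L.ν i j * G j := by
    rw [Finset.mul_sum]
    exact Finset.sum_congr rfl fun j _ => by ring
  rw [h]
  ring

theorem op_zero {G : Vec E.a n} (h : ∀ i, G i = 0) (i) : L.op G i = 0 := by
  simp only [op, h, map_zero, mul_zero, Finset.sum_const_zero, add_zero]

theorem op_ker {G : Vec E.a n} (hG : Ker E G) : Ker E (L.op G) := by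
  intro k
  have h1 := congrArg δ (hG k)
  rw [map_sum, map_zero] at h1
  have h2 : ∀ i, δ (E.B k i * G i) = E.B k i * δ (G i) +
      ((∑ l, L.μ k l * E.B l i) * G i + (∑ j, E.B k j * L.ν j i) * G i) := by
    intro i
    rw [Derivation.leibniz, smul_eq_mul, smul_eq_mul, L.comm]
    ring
  simp_rw [h2] at h1
  rw [Finset.sum_add_distrib, Finset.sum_add_distrib] at h1
  have h3 : ∑ i, (∑ l, L.μ k l * E.B l i) * G i = 0 := by
    simp_rw [Finset.sum_mul]
    rw [Finset.sum_comm]
    refine Finset.sum_eq_zero fun l _ => ?_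
    have h4 := hG l
    calc ∑ i, L.μ k l * E.B l i * G i = L.μ k l * ∑ i, E.B l i * G i := by
          rw [Finset.mul_sum]
          exact Finset.sum_congr rfl fun i _ => by ring
      _ = 0 := by rw [h4, mul_zero]
  have h5 : ∑ i, (∑ j, E.B k j * L.ν j i) * G i = ∑ j, E.B k j * ∑ i, L.ν j i * G i := by
    simp_rw [Finset.sum_mul, Finset.mul_sum]
    rw [Finset.sum_comm]
    exact Finset.sum_congr rfl fun i _ => Finset.sum_congr rfl fun j _ => by ring
  rw [h3, h5, zero_add, ← Finset.sum_add_distrib] at h1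
  rw [← h1]
  exact Finset.sum_congr rfl fun i _ => by simp only [op]; ring

theorem op_hom {τ : M} {G : Vec E.a n} (hG : HSec D τ G) : HSec D (τ + ω) (L.op G) where
  hom := by
    intro i
    refine IsWeightedHomogeneous.add ?_ (IsWeightedHomogeneous.sum _ _ _ fun j _ => ?_)
    · have h1 := der_hom L.hδ (hG.hom i)
      convert h1 using 1
      abel
    · have h1 := (L.hν i j).mul (hG.hom j)
      convert h1 using 1
      abel
  ker := L.op_ker hG.ker

end Lft

variable {D : EqB E w} (W : Wedge D)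

/-- each expression proportional to the wedge product is a constant multiple of it, if it has the
same degree. -/
theorem exists_mult (hn : 1 ≤ n) (ω : M) (hω : ω.1 = 0)
    (Φ : Vec E.a n → Vec E.a n → MvPolynomial (Fin (n + 1)) ℂ)
    (Q : Fin E.a → Fin E.a → MvPolynomial (Fin (n + 1)) ℂ)
    (h : ∀ G G', Ker E G → Ker E G' → ∀ i j, Φ G G' * W.P i j = W.wd G G' * Q i j)
    (hh : ∀ τ τ' G G', HSec D τ G → HSec D τ' G' →
      IsWeightedHomogeneous (tw w) (Φ G G') (τ + τ' + W.κ + ω)) :
    ∃ θ : ℂ, (ω ≠ 0 → θ = 0) ∧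
      ∀ G G', Ker E G → Ker E G' → Φ G G' = C θ * W.wd G G' := by
  obtain ⟨i, j, hij⟩ := exists_P_ne W
  have hc : ∀ G G' H H', Ker E G → Ker E G' → Ker E H → Ker E H' →
      Φ G G' * W.wd H H' = Φ H H' * W.wd G G' := by
    intro G G' H H' h1 h2 h3 h4
    apply mul_right_cancel₀ hij
    have a := h G G' h1 h2 i j
    have b := h H H' h3 h4 i j
    linear_combination W.wd H H' * a - W.wd G G' * b
  obtain ⟨μ, μ', G, G', hG, hG', hp⟩ := exists_ne W (D := D) (fun _ => 1)
    (fun h => by simpa using congrFun h 0)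
  have h0 : W.wd G G' ≠ 0 := fun h0 => hp (by rw [h0, map_zero])
  have hd : W.wd G G' ∣ Φ G G' := by
    refine dvd_of_primes h0 fun π hπ _ => ?_
    obtain ⟨v, hv, hv0⟩ := no_isolated_prime (by omega) π hπ
    obtain ⟨ν, ν', H, H', hH, hH', h2⟩ := exists_ne W (D := D) v hv
    refine ⟨W.wd H H', Φ H H', ?_, ?_⟩
    · have := hc G G' H H' hG.ker hG'.ker hH.ker hH'.ker
      linear_combination -this
    · rintro ⟨q, hq⟩
      apply h2
      rw [hq, map_mul, hv0, zero_mul]
  obtain ⟨f, hf⟩ := hd
  have key : ∃ θ : ℂ, (ω ≠ 0 → θ = 0) ∧ f = C θ := by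
    by_cases hf0 : f = 0
    · exact ⟨0, fun _ => rfl, by rw [hf0, C_0]⟩
    · have h1 := hh _ _ _ _ hG hG'
      rw [hf] at h1
      obtain ⟨e, e', hee, he, he'⟩ := hom_of_mul (tw w) h1 (mul_ne_zero h0 hf0)
      have h2 : e = μ + μ' + W.κ := he.inj_right h0 (W.hom _ _ _ _ hG hG')
      rw [h2] at hee
      have h3 : e' = ω := add_left_cancel hee
      rw [h3] at he'
      obtain ⟨u, hu⟩ := ne_zero_iff.1 hf0
      have h4 : ∀ u, coeff u f ≠ 0 → u = 0 := by
        intro u hu
        have h5 := congrArg Prod.fst (he' hu)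
        rw [weight_fst, hω] at h5
        have h6 : ∑ i, u i = 0 := by exact_mod_cast h5
        ext i
        rw [Finset.sum_eq_zero_iff] at h6
        rw [h6 i (Finset.mem_univ i)]
        rfl
      have h5 : f = C (coeff 0 f) := by
        ext v
        rw [coeff_C]
        split_ifs with hv
        · rw [hv]
        · by_contra hne
          exact hv (h4 v hne).symm
      refine ⟨coeff 0 f, fun hω0 => ?_, h5⟩
      exfalso
      apply hω0
      rw [h4 u hu] at hu
      have h6 := he' hu
      rw [map_zero] at h6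
      exact h6.symm
  obtain ⟨θ, hθ, rfl⟩ := key
  refine ⟨θ, hθ, fun H H' hH hH' => ?_⟩
  apply mul_right_cancel₀ h0
  rw [hc H H' G G' hH hH' hG.ker hG'.ker, hf]
  ring

variable {ω : M} {δ : Der n} (L : Lft D ω δ)

/-- the operator and the wedge product -/
theorem Lft.exists_trace (hn : 1 ≤ n) (hω : ω.1 = 0) : ∃ θ : ℂ, (ω ≠ 0 → θ = 0) ∧
    ∀ G G', Ker E G → Ker E G' →
      W.wd (L.op G) G' + W.wd G (L.op G') = δ (W.wd G G') + C θ * W.wd G G' := by
  obtain ⟨θ, h1, h2⟩ := exists_mult W hn ω hω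
    (fun G G' => W.wd (L.op G) G' + W.wd G (L.op G') - δ (W.wd G G'))
    (fun i j => δ (W.P i j) + (∑ k, L.ν i k * W.P k j) + ∑ k, L.ν j k * W.P i k) (by
      intro G G' hG hG' i j
      have a1 := W.eq (L.op G) G' (L.op_ker hG) hG' i j
      have a2 := W.eq G (L.op G') hG (L.op_ker hG') i j
      have a3 := congrArg δ (W.eq G G' hG hG' i j)
      have a4 : ∑ k, L.ν i k * (G k * G' j - G j * G' k) =
          W.wd G G' * ∑ k, L.ν i k * W.P k j := by
        rw [Finset.mul_sum]
        refine Finset.sum_congr rfl fun k _ => ?_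
        rw [W.eq G G' hG hG']
        ring
      have a5 : ∑ k, L.ν j k * (G i * G' k - G k * G' i) =
          W.wd G G' * ∑ k, L.ν j k * W.P i k := by
        rw [Finset.mul_sum]
        refine Finset.sum_congr rfl fun k _ => ?_
        rw [W.eq G G' hG hG']
        ring
      have a6 : ∑ k, L.ν i k * (G k * G' j - G j * G' k) =
          (∑ k, L.ν i k * G k) * G' j - G j * ∑ k, L.ν i k * G' k := by
        rw [Finset.sum_mul, Finset.mul_sum, ← Finset.sum_sub_distrib]
        exact Finset.sum_congr rfl fun k _ => by ring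
      have a7 : ∑ k, L.ν j k * (G i * G' k - G k * G' i) =
          G i * (∑ k, L.ν j k * G' k) - (∑ k, L.ν j k * G k) * G' i := by
        rw [Finset.sum_mul, Finset.mul_sum, ← Finset.sum_sub_distrib]
        exact Finset.sum_congr rfl fun k _ => by ring
      rw [a6] at a4
      rw [a7] at a5
      have b1 : ∀ K : Vec E.a n, ∀ i, L.op K i = δ (K i) + ∑ j, L.ν i j * K j := fun _ _ => rfl
      rw [b1, b1] at a1 a2
      rw [map_sub, Derivation.leibniz, Derivation.leibniz, Derivation.leibniz] at a3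
      simp only [smul_eq_mul] at a3
      linear_combination a4 + a5 + a3 - a1 - a2)
    (by
      intro τ τ' G G' hG hG'
      have a1 := W.hom _ _ _ _ (L.op_hom hG) hG'
      have a2 := W.hom _ _ _ _ hG (L.op_hom hG')
      have a3 := der_hom L.hδ (W.hom _ _ _ _ hG hG')
      refine (IsWeightedHomogeneous.add ?_ ?_).sub a3
      · have e : τ + τ' + W.κ + ω = τ + ω + τ' + W.κ := by abel
        rw [e]
        exact a1
      · have e : τ + τ' + W.κ + ω = τ + (τ' + ω) + W.κ := by abel
        rw [e]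
        exact a2)
  refine ⟨θ, h1, fun G G' hG hG' => ?_⟩
  have h3 := h2 G G' hG hG'
  linear_combination h3

/-- the pullback of a lift to a stable linear subspace. -/
noncomputable def Lft.pull {m : ℕ} (T : (Fin (m + 1) → ℂ) →ₗ[ℂ] (Fin (n + 1) → ℂ))
    (hT : Function.Injective T)
    (w' : Fin (m + 1) → ℤ × ℤ) (h : ∀ t s, T (Pi.single t 1) s ≠ 0 → w s = w' t)
    (δ' : Der m) (hd : ∀ i, lsub T (δ (X i)) = δ' (lsub T (X i)))
    (hδ' : ∀ i, IsWeightedHomogeneous (tw w') (δ' (X i)) (tw w' i + ω)) :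
    Lft (D.pull T hT w' h) ω δ' where
  ν := L.ν.map (lsub T)
  μ := L.μ.map (lsub T)
  hδ := hδ'
  hν := fun i j => isWH_lsub T h (L.hν i j)
  comm := by
    intro k i
    have h1 := congrArg (lsub T) (L.comm k i)
    rw [lsub_der T hd, map_add, map_sum, map_sum] at h1
    refine h1.trans ?_
    congr 1
    · exact Finset.sum_congr rfl fun l _ => by rw [map_mul]; rfl
    · exact Finset.sum_congr rfl fun l _ => by rw [map_mul]; rfl

end Pool.Agent.W615
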