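import Pool.Agent.W615.Plane

/-!
# The weights at the fixed point of a regular unipotent group of the plane (helper615)

`lam` substitutes `x₀ = 1`, `x₁ = t`, `x₂ = t² z`.
-/

set_option autoImplicit false
set_option maxHeartbeats 400000

open MvPolynomial H960VB H938TB

namespace Pool.Agent.W615

/-- the substitution `x₀ = 1`, `x₁ = t`, `x₂ = t² z`. -/
noncomputable def lam : MvPolynomial (Fin (2 + 1)) ℂ →ₐ[ℂ] Polynomial (Polynomial ℂ) :=
  aeval ![1, Polynomial.X, Polynomial.C Polynomial.X * Polynomial.X ^ 2]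

theorem lam_X0 : lam (X 0) = 1 := aeval_X _ _

theorem lam_X1 : lam (X 1) = Polynomial.X := aeval_X _ _

theorem lam_X2 : lam (X 2) = Polynomial.C Polynomial.X * Polynomial.X ^ 2 := aeval_X _ _

theorem lam_C (c : ℂ) : lam (C c) = Polynomial.C (Polynomial.C c) := by
  rw [lam, aeval_C]
  rfl

/-- the weight of a monomial -/
def wt2 (u : Fin (2 + 1) →₀ ℕ) : ℕ := u 1 + 2 * u 2

theorem lam_monomial (u : Fin (2 + 1) →₀ ℕ) (c : ℂ) :
    lam (monomial u c) = Polynomial.C (Polynomial.C c * Polynomial.X ^ u 2) *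
      Polynomial.X ^ wt2 u := by
  rw [lam, aeval_monomial, Finsupp.prod_fintype _ _ (by intro i; simp)]
  show algebraMap ℂ _ c * ∏ i : Fin 3, _ = _
  rw [Fin.prod_univ_three]
  have e : (algebraMap ℂ (Polynomial (Polynomial ℂ))) c = Polynomial.C (Polynomial.C c) := rfl
  rw [e]
  show Polynomial.C (Polynomial.C c) * ((1 : Polynomial (Polynomial ℂ)) ^ u 0 * Polynomial.X ^ u 1 *
    (Polynomial.C Polynomial.X * Polynomial.X ^ 2) ^ u 2) = _
  rw [one_pow, one_mul, mul_pow, wt2, pow_add, pow_mul, map_mul, map_pow]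
  ring

/-- the component of weight `μ` -/
noncomputable def cm (μ : ℕ) (p : MvPolynomial (Fin (2 + 1)) ℂ) : Polynomial ℂ := (lam p).coeff μ

theorem cm_monomial (μ : ℕ) (u : Fin (2 + 1) →₀ ℕ) (c : ℂ) :
    cm μ (monomial u c) = if wt2 u = μ then Polynomial.C c * Polynomial.X ^ u 2 else 0 := by
  rw [cm, lam_monomial, Polynomial.coeff_C_mul_X_pow]
  split_ifs with h1 h2 h2
  · rfl
  · exact absurd h1.symm h2
  · exact absurd h2.symm h1
  · rfl

theorem cm_add (μ : ℕ) (p q : MvPolynomial (Fin (2 + 1)) ℂ) : cm μ (p + q) = cm μ p + cm μ q := by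
  rw [cm, map_add, Polynomial.coeff_add]
  rfl

theorem cm_sub (μ : ℕ) (p q : MvPolynomial (Fin (2 + 1)) ℂ) : cm μ (p - q) = cm μ p - cm μ q := by
  rw [cm, map_sub, Polynomial.coeff_sub]
  rfl

theorem cm_zero (μ : ℕ) : cm μ 0 = 0 := by
  rw [cm, map_zero, Polynomial.coeff_zero]

theorem cm_sum (μ : ℕ) {ι : Type*} (s : Finset ι) (f : ι → MvPolynomial (Fin (2 + 1)) ℂ) :
    cm μ (∑ i ∈ s, f i) = ∑ i ∈ s, cm μ (f i) := by
  rw [cm, map_sum, Polynomial.finset_sum_coeff]
  rfl

theorem cm_eq (μ : ℕ) (p : MvPolynomial (Fin (2 + 1)) ℂ) :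
    cm μ p = ∑ u ∈ p.support, if wt2 u = μ then Polynomial.C (coeff u p) * Polynomial.X ^ u 2
      else 0 := by
  conv_lhs => rw [p.as_sum]
  rw [cm_sum]
  exact Finset.sum_congr rfl fun u _ => cm_monomial _ _ _

/-- the degree of the components -/
theorem cm_deg (μ : ℕ) (p : MvPolynomial (Fin (2 + 1)) ℂ) {i : ℕ} (hi : μ < 2 * i) :
    (cm μ p).coeff i = 0 := by
  rw [cm_eq, Polynomial.finset_sum_coeff]
  refine Finset.sum_eq_zero fun u _ => ?_
  split_ifs with h
  · rw [Polynomial.coeff_C_mul_X_pow, if_neg]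
    unfold wt2 at h
    omega
  · exact Polynomial.coeff_zero _

/-- the components determine the homogeneous polynomial. -/
theorem coeff_of_cm {p : MvPolynomial (Fin (2 + 1)) ℂ} {d : ℕ} (hp : p.IsHomogeneous d)
    {u : Fin (2 + 1) →₀ ℕ} (hu : u 0 + u 1 + u 2 = d) :
    (cm (wt2 u) p).coeff (u 2) = coeff u p := by
  rw [cm_eq, Polynomial.finset_sum_coeff]
  by_cases h : u ∈ p.support
  · rw [Finset.sum_eq_single u]
    · rw [if_pos rfl, Polynomial.coeff_C_mul_X_pow, if_pos rfl]
    · intro v hv hvu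
      split_ifs with h1
      · rw [Polynomial.coeff_C_mul_X_pow, if_neg]
        intro h2
        apply hvu
        have h3 := hp (mem_support_iff.1 hv)
        rw [Finsupp.weight_apply, Finsupp.sum_fintype _ _ (by intro i; simp)] at h3
        have h4 : v 0 + v 1 + v 2 = d := by
          rw [← h3]
          show _ = ∑ i : Fin 3, _
          rw [Fin.sum_univ_three]
          simp
        unfold wt2 at h1
        ext i
        fin_cases i
        · show v 0 = u 0
          omega
        · show v 1 = u 1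
          omega
        · show v 2 = u 2
          omega
      · exact Polynomial.coeff_zero _
    · intro h'
      exact absurd h h'
  · rw [notMem_support_iff.1 h]
    refine Finset.sum_eq_zero fun v hv => ?_
    split_ifs with h1
    · rw [Polynomial.coeff_C_mul_X_pow, if_neg]
      intro h2
      have hvu : v = u := by
        have h3 := hp (mem_support_iff.1 hv)
        rw [Finsupp.weight_apply, Finsupp.sum_fintype _ _ (by intro i; simp)] at h3
        have h4 : v 0 + v 1 + v 2 = d := by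
          rw [← h3]
          show _ = ∑ i : Fin 3, _
          rw [Fin.sum_univ_three]
          simp
        unfold wt2 at h1
        ext i
        fin_cases i
        · show v 0 = u 0
          omega
        · show v 1 = u 1
          omega
        · show v 2 = u 2
          omega
      rw [hvu] at hv
      exact h hv
    · exact Polynomial.coeff_zero _

theorem deg_of_supp {p : MvPolynomial (Fin (2 + 1)) ℂ} {d : ℕ} (hp : p.IsHomogeneous d)
    {u : Fin (2 + 1) →₀ ℕ} (hu : coeff u p ≠ 0) : u 0 + u 1 + u 2 = d := by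
  have h3 := hp hu
  rw [Finsupp.weight_apply, Finsupp.sum_fintype _ _ (by intro i; simp)] at h3
  rw [← h3]
  show _ = ∑ i : Fin 3, _
  rw [Fin.sum_univ_three]
  simp

theorem eq_zero_of_cm {p : MvPolynomial (Fin (2 + 1)) ℂ} {d : ℕ} (hp : p.IsHomogeneous d)
    (h : ∀ μ, μ ≤ 2 * d → cm μ p = 0) : p = 0 := by
  by_contra hne
  obtain ⟨u, hu⟩ := ne_zero_iff.1 hne
  have h1 := deg_of_supp hp hu
  apply hu
  rw [← coeff_of_cm hp h1, h _ (by unfold wt2; omega), Polynomial.coeff_zero]

/-- multiplication of leading components -/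
theorem cm_mul {p q : MvPolynomial (Fin (2 + 1)) ℂ} {μ ν : ℕ} (hp : ∀ i, i < μ → cm i p = 0)
    (hq : ∀ i, i < ν → cm i q = 0) : cm (μ + ν) (p * q) = cm μ p * cm ν q := by
  rw [cm, map_mul, Polynomial.coeff_mul, Finset.sum_eq_single (μ, ν)]
  · rfl
  · rintro ⟨i, j⟩ hij hne
    rw [Finset.HasAntidiagonal.mem_antidiagonal] at hij
    simp only at hij ⊢
    rcases lt_trichotomy i μ with h | h | h
    · have := hp i h
      rw [cm] at this
      rw [this, zero_mul]
    · exfalso
      apply hne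
      rw [Prod.mk.injEq]
      omega
    · have := hq j (by omega)
      rw [cm] at this
      rw [this, mul_zero]
  · intro h
    exfalso
    apply h
    rw [Finset.HasAntidiagonal.mem_antidiagonal]

theorem cm_mul_lt {p q : MvPolynomial (Fin (2 + 1)) ℂ} {μ ν i : ℕ} (hp : ∀ i, i < μ → cm i p = 0)
    (hq : ∀ i, i < ν → cm i q = 0) (hi : i < μ + ν) : cm i (p * q) = 0 := by
  rw [cm, map_mul, Polynomial.coeff_mul]
  refine Finset.sum_eq_zero ?_
  rintro ⟨j, k⟩ hjk
  rw [Finset.HasAntidiagonal.mem_antidiagonal] at hjk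
  simp only at hjk ⊢
  rcases Nat.lt_or_ge j μ with h | h
  · have := hp j h
    rw [cm] at this
    rw [this, zero_mul]
  · have := hq k (by omega)
    rw [cm] at this
    rw [this, mul_zero]

/-- the value at the fixed point -/
theorem cm_zero_eq (p : MvPolynomial (Fin (2 + 1)) ℂ) :
    cm 0 p = Polynomial.C (eval (Pi.single 0 1 : Fin 3 → ℂ) p) := by
  induction p using MvPolynomial.induction_on' with
  | monomial u c =>
    rw [cm_monomial, eval_monomial]
    rw [Finsupp.prod_fintype _ _ (by intro i; simp)]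
    have e : ∏ i, (Pi.single 0 1 : Fin (2 + 1) → ℂ) i ^ u i =
        ∏ i : Fin 3, (Pi.single 0 1 : Fin 3 → ℂ) i ^ u i := rfl
    rw [e, Fin.prod_univ_three]
    simp only [wt2]
    split_ifs with h
    · have h1 : u 1 = 0 := by omega
      have h2 : u 2 = 0 := by omega
      rw [h1, h2]
      simp
    · rcases Nat.eq_zero_or_pos (u 1) with h1 | h1
      · have h2 : u 2 ≠ 0 := by omega
        simp [h2]
      · have h2 : u 1 ≠ 0 := by omega
        simp [h2]
  | add p q hp hq => rw [cm_add, hp, hq, map_add, map_add]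

/-- the component of weight one is constant. -/
theorem cm_one_eq (p : MvPolynomial (Fin (2 + 1)) ℂ) : ∃ c : ℂ, cm 1 p = Polynomial.C c := by
  refine ⟨(cm 1 p).coeff 0, ?_⟩
  ext i
  rw [Polynomial.coeff_C]
  split_ifs with h
  · rw [h]
  · exact cm_deg 1 p (by omega)

/-- the operator on the components -/
noncomputable def opz (d : ℂ) (μ : ℕ) (f : Polynomial ℂ) : Polynomial ℂ :=
  Polynomial.X * (1 - 2 * Polynomial.X) * Polynomial.derivative f +
    (Polynomial.C (μ : ℂ) * (Polynomial.X - 1) + Polynomial.C d) * f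

theorem opz_add (d : ℂ) (μ : ℕ) (f g : Polynomial ℂ) :
    opz d μ (f + g) = opz d μ f + opz d μ g := by
  simp only [opz, Polynomial.derivative_add]
  ring

theorem opz_zero (d : ℂ) (μ : ℕ) : opz d μ 0 = 0 := by
  simp [opz]

theorem opz_sum (d : ℂ) (μ : ℕ) {ι : Type*} (s : Finset ι) (f : ι → Polynomial ℂ) :
    opz d μ (∑ i ∈ s, f i) = ∑ i ∈ s, opz d μ (f i) := by
  classical
  induction s using Finset.induction_on with
  | empty => simp [opz_zero]
  | insert a s ha ih => rw [Finset.sum_insert ha, Finset.sum_insert ha, opz_add, ih]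

theorem δ3_eq (p : MvPolynomial (Fin (2 + 1)) ℂ) :
    δ3 p = X 1 * pderiv 0 p + X 2 * pderiv 1 p := by
  rw [der_eq_sum]
  show ∑ i : Fin 3, _ = _
  rw [Fin.sum_univ_three]
  have d0 : δ3 (X 0) = X 1 := mkDerivation_X _ _ _
  have d1 : δ3 (X 1) = X 2 := mkDerivation_X _ _ _
  have d2 : δ3 (X 2) = 0 := mkDerivation_X _ _ _
  rw [d0, d1, d2]
  ring

theorem cm_δ_monomial (u : Fin (2 + 1) →₀ ℕ) (c : ℂ) (μ : ℕ) :
    cm (μ + 1) (δ3 (monomial u c)) = opz ((u 0 + u 1 + u 2 : ℕ) : ℂ) μ (cm μ (monomial u c)) := by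
  have e1 : X 1 * pderiv 0 (monomial u c) = monomial (u - Finsupp.single 0 1 +
      Finsupp.single 1 1) (c * u 0) := by
    rw [pderiv_monomial, show (X 1 : MvPolynomial (Fin (2 + 1)) ℂ) =
      monomial (Finsupp.single 1 1) 1 from rfl, monomial_mul, one_mul,
      add_comm (Finsupp.single 1 1) _]
  have e2 : X 2 * pderiv 1 (monomial u c) = monomial (u - Finsupp.single 1 1 +
      Finsupp.single 2 1) (c * u 1) := by
    rw [pderiv_monomial, show (X 2 : MvPolynomial (Fin (2 + 1)) ℂ) =
      monomial (Finsupp.single 2 1) 1 from rfl, monomial_mul, one_mul,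
      add_comm (Finsupp.single 2 1) _]
  rw [δ3_eq, e1, e2, cm_add, cm_monomial, cm_monomial, cm_monomial]
  have f1 : (u - Finsupp.single 0 1 + Finsupp.single 1 1 : Fin (2 + 1) →₀ ℕ) 1 = u 1 + 1 := by
    simp
  have f2 : (u - Finsupp.single 0 1 + Finsupp.single 1 1 : Fin (2 + 1) →₀ ℕ) 2 = u 2 := by
    simp
  have f3 : (u - Finsupp.single 1 1 + Finsupp.single 2 1 : Fin (2 + 1) →₀ ℕ) 1 = u 1 - 1 := by
    simp
  have f4 : (u - Finsupp.single 1 1 + Finsupp.single 2 1 : Fin (2 + 1) →₀ ℕ) 2 = u 2 + 1 := by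
    simp
  simp only [wt2, f1, f2, f3, f4]
  by_cases h : u 1 + 2 * u 2 = μ
  · subst h
    rw [if_pos (by omega), if_pos rfl]
    rcases Nat.eq_zero_or_pos (u 1) with h1 | h1
    · rw [h1]
      simp only [Nat.cast_zero, mul_zero, map_zero, zero_mul, opz, Polynomial.derivative_mul,
        Polynomial.derivative_C, Polynomial.derivative_X_pow, ite_self, add_zero]
      rcases Nat.eq_zero_or_pos (u 2) with h2 | h2
      · rw [h2]
        simp
        ring
      · obtain ⟨v, hv⟩ : ∃ v, u 2 = v + 1 := ⟨u 2 - 1, by omega⟩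
        rw [hv]
        push_cast
        simp only [map_add, map_mul, Polynomial.C_1, map_natCast, map_ofNat, Polynomial.C_0,
          pow_succ]
        ring
    · rw [if_pos (by omega)]
      simp only [opz, Polynomial.derivative_mul, Polynomial.derivative_C, zero_mul, zero_add,
        Polynomial.derivative_X_pow]
      rcases Nat.eq_zero_or_pos (u 2) with h2 | h2
      · rw [h2]
        push_cast
        simp only [map_add, map_mul, Polynomial.C_1, map_natCast, map_ofNat, pow_zero, map_zero]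
        ring
      · obtain ⟨v, hv⟩ : ∃ v, u 2 = v + 1 := ⟨u 2 - 1, by omega⟩
        rw [hv]
        push_cast
        simp only [Nat.add_sub_cancel, map_add, map_mul, Polynomial.C_1, map_natCast, map_ofNat,
          pow_succ]
        ring
  · rw [if_neg (by omega), if_neg h, opz_zero, zero_add]
    split_ifs with h2
    · have h3 : u 1 = 0 := by omega
      rw [h3]
      simp
    · rfl

/-- the derivation on the components. -/
theorem cm_δ {p : MvPolynomial (Fin (2 + 1)) ℂ} {d : ℕ} (hp : p.IsHomogeneous d) (μ : ℕ) :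
    cm (μ + 1) (δ3 p) = opz (d : ℂ) μ (cm μ p) := by
  have h1 : ∀ u ∈ p.support, cm (μ + 1) (δ3 (monomial u (coeff u p))) =
      opz (d : ℂ) μ (cm μ (monomial u (coeff u p))) := by
    intro u hu
    rw [cm_δ_monomial, deg_of_supp hp (mem_support_iff.1 hu)]
  calc cm (μ + 1) (δ3 p) = ∑ u ∈ p.support, cm (μ + 1) (δ3 (monomial u (coeff u p))) := by
        conv_lhs => rw [p.as_sum]
        rw [map_sum, cm_sum]
    _ = ∑ u ∈ p.support, opz (d : ℂ) μ (cm μ (monomial u (coeff u p))) :=
        Finset.sum_congr rfl h1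
    _ = opz (d : ℂ) μ (cm μ p) := by
        rw [← opz_sum, ← cm_sum]
        congr 2
        exact p.as_sum.symm

theorem cm_δ_zero (p : MvPolynomial (Fin (2 + 1)) ℂ) : cm 0 (δ3 p) = 0 := by
  rw [cm_zero_eq, δ3_eq]
  simp

end Pool.Agent.W615
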