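import Pool.Agent.W615.Plane

/-!
# The plane with an action of the Borel group: the difference of the weights (helper615)
-/

set_option autoImplicit false
set_option maxHeartbeats 400000

open MvPolynomial H960VB H938TB

namespace Pool.Agent.W615

/-- dividing a homogeneous section by a coordinate. -/
theorem sec_divX {n : ℕ} {w : Fin (n + 1) → ℤ × ℤ} {E : Bundle2 n} {D : EqB E w} {τ : M}
    {j : Fin (n + 1)} {G H : Vec E.a n} (hG : HSec D τ G)
    (h : ∀ i, G i = X j * H i) : HSec D (τ - tw w j) H where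
  hom := by
    intro i v hv
    have h1 : coeff (Finsupp.single j 1 + v) (G i) ≠ 0 := by
      rw [h i, coeff_X_mul]
      exact hv
    have h2 := hG.hom i h1
    rw [map_add, Finsupp.weight_single, one_smul] at h2
    rw [add_sub_assoc', ← h2]
    abel
  ker := by
    apply ker_of_mul (X_ne_zero j)
    have h2 : (fun i => X j * H i) = G := funext fun i => (h i).symm
    rw [h2]
    exact hG.ker

section
variable {n : ℕ} {w : Fin (n + 1) → ℤ × ℤ} {E : Bundle2 n} {D : EqB E w} {ω : M} {δ : Der n}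
  (L : Lft D ω δ) (W : Wedge D)

/-- a primitive section parallel to its derivative is invariant. -/
theorem op_zero_of_wd (hω1 : ω.1 = 0) (hω : ω ≠ 0) {τ : M} {s : Vec E.a n} (hs : HSec D τ s)
    (hsp : Prm s) (h : W.wd s (L.op s) = 0) (i : Fin E.a) : L.op s i = 0 := by
  obtain ⟨f, hf⟩ := hsp.dvd_wd W hs.ker (L.op_ker hs.ker) h
  suffices h0 : f = 0 by rw [hf, h0, zero_mul]
  by_contra hne
  obtain ⟨j, hj⟩ := hsp.ne
  have h1 := (L.op_hom hs).hom j
  rw [hf] at h1
  obtain ⟨e, e', hee, he, he'⟩ := hom_of_mul (tw w) h1 (mul_ne_zero hne hj)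
  have h2 : e' = ((E.β j, D.b j) : M) + τ := he'.inj_right hj (hs.hom j)
  have h3 : e = ω := by
    have : e = e + e' - e' := by abel
    rw [this, hee, h2]
    abel
  rw [h3] at he
  obtain ⟨c, hc, h4⟩ := const_of_degree_zero he hne hω1
  apply hω
  have h5 := isWeightedHomogeneous_C (tw w) c
  rw [← h4] at h5
  exact he.inj_right hne h5

theorem ne_of_eval_wd {x : Fin (n + 1) → ℂ} (hx : x ≠ 0) {G G' : Vec E.a n} (hG : Ker E G)
    (hG' : Ker E G') (h : eval x (W.wd G G') ≠ 0) : evv G x ≠ 0 ∧ evv G' x ≠ 0 := by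
  have h1 := (W.ind x hx G G' hG hG').1 h
  exact ⟨h1.ne_zero 0, h1.ne_zero 1⟩

end

theorem fst_tw {n : ℕ} (w : Fin (n + 1) → ℤ × ℤ) (j : Fin (n + 1)) : (tw w j).1 = 1 := rfl

theorem fst_smul_tw {n : ℕ} (w : Fin (n + 1) → ℤ × ℤ) (j : Fin (n + 1)) (N : ℕ) :
    (N • tw w j).1 = (N : ℤ) := by
  have h : (N • tw w j).1 = N • (tw w j).1 := rfl
  rw [h, fst_tw, nsmul_eq_mul, mul_one]

theorem e0_ne (n : ℕ) : (Pi.single 0 1 : Fin (n + 1) → ℂ) ≠ 0 := by
  intro h
  have := congrFun h 0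
  rw [Pi.single_eq_same] at this
  exact one_ne_zero this

variable {w : Fin 3 → ℤ × ℤ} {E : Bundle2 2} {D : EqB E w} {ω : M}

/-- an invariant section which does not vanish at the attracting point. -/
theorem splits_of_inv (L : Lft D ω δ3) (χ : M →+ ℤ) (h0 : χ (tw w 0) = 0)
    (hpos : ∀ j, j ≠ 0 → 0 < χ (tw w j)) {τ : M} {s : Vec E.a 2} (hs : HSec D τ s)
    (hop : ∀ i, L.op s i = 0) (he : evv s (Pi.single 0 1) ≠ 0) : E.Splits := by
  obtain ⟨i₀, hi₀⟩ : ∃ i, evv s (Pi.single 0 1) i ≠ 0 := by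
    by_contra hc
    push Not at hc
    exact he (funext hc)
  have h1 : eval (Pi.single 0 1 : Fin 3 → ℂ) (s i₀) ≠ 0 := hi₀
  have h2 := chi_of_eval χ h0 (hs.hom i₀) h1
  obtain ⟨a, N, ha, hN, -⟩ := form0 χ h0 hpos (hs.hom i₀) h2 (fun h => h1 (by rw [h, map_zero]))
  exact splits_of_nowhere_zero hs (nowhere_zero L hop ha hN)

/-- polynomials of the weight of the second coordinate. -/
theorem form1 (χ : M →+ ℤ) {c : ℤ} (hc : 0 < c) (h0 : χ (tw w 0) = 0) (h1 : χ (tw w 1) = c)
    (h2 : χ (tw w 2) = 2 * c) {p : MvPolynomial (Fin (2 + 1)) ℂ} {τ : M}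
    (hp : IsWeightedHomogeneous (tw w) p τ) (hτ : χ τ = c) :
    ∃ (a : ℂ) (N : ℕ), p = C a * (X 0 ^ N * X 1) ∧ (a ≠ 0 → τ = N • tw w 0 + tw w 1) := by
  by_cases hne : p = 0
  · exact ⟨0, 0, by rw [hne, C_0, zero_mul], fun h => absurd rfl h⟩
  have key : ∀ u, coeff u p ≠ 0 → u = Finsupp.single 0 (u 0) + Finsupp.single 1 1 := by
    intro u hu
    have h3 := congrArg χ (hp hu)
    rw [weight_chi, hτ, Fin.sum_univ_three, h0, h1, h2, smul_zero, zero_add, nsmul_eq_mul,
      nsmul_eq_mul] at h3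
    have h4 : ((u 1 : ℤ) + 2 * u 2) * c = 1 * c := by linarith
    have h5 := mul_right_cancel₀ hc.ne' h4
    have h6 : u 1 = 1 := by omega
    have h7 : u 2 = 0 := by omega
    ext j
    fin_cases j
    · simp
    · simp [h6]
    · simp [h7]
  obtain ⟨u, hu⟩ := ne_zero_iff.1 hne
  have hsum : ∀ u, coeff u p ≠ 0 → τ = (u 0) • tw w 0 + tw w 1 := by
    intro u hu
    rw [← hp hu]
    conv_lhs => rw [key u hu]
    rw [map_add, Finsupp.weight_single, Finsupp.weight_single, one_smul]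
  refine ⟨coeff u p, u 0, ?_, fun _ => hsum u hu⟩
  ext v
  have hX : (C (coeff u p) * (X 0 ^ u 0 * X 1) : MvPolynomial (Fin (2 + 1)) ℂ) =
      monomial (Finsupp.single 0 (u 0) + Finsupp.single 1 1) (coeff u p) := by
    rw [X_pow_eq_monomial, show (X 1 : MvPolynomial (Fin (2 + 1)) ℂ) =
      monomial (Finsupp.single 1 1) 1 from rfl, monomial_mul, C_mul_monomial]
    simp
  rw [hX, ← key u hu, coeff_monomial]
  by_cases hv : coeff v p = 0
  · rw [hv]
    split_ifs with h3
    · rw [h3] at hu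
      exact absurd hv hu
    · rfl
  · have h3 := hsum v hv
    rw [hsum u hu] at h3
    have h4 : u 0 = v 0 := by
      have h5 := congrArg Prod.fst h3
      simpa [tw] using h5
    have h5 : u = v := by
      rw [key v hv, key u hu, h4]
    rw [h5, if_pos rfl]

/-- the weights of nonzero polynomials -/
theorem chi_mul (χ : M →+ ℤ) {c : ℤ} (h0 : χ (tw w 0) = 0) (h1 : χ (tw w 1) = c)
    (h2 : χ (tw w 2) = 2 * c) {p : MvPolynomial (Fin (2 + 1)) ℂ} {τ : M}
    (hp : IsWeightedHomogeneous (tw w) p τ) (hne : p ≠ 0) : ∃ m : ℕ, χ τ = m * c := by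
  obtain ⟨u, hu⟩ := ne_zero_iff.1 hne
  refine ⟨u 1 + 2 * u 2, ?_⟩
  rw [← hp hu, weight_chi, Fin.sum_univ_three, h0, h1, h2, smul_zero, zero_add, nsmul_eq_mul,
    nsmul_eq_mul]
  push_cast
  ring

section
variable (L : Lft D ω δ3) (W : Wedge D) (χ : M →+ ℤ) {c : ℤ} (hc : 0 < c)
  (h0 : χ (tw w 0) = 0) (h1 : χ (tw w 1) = c) (h2 : χ (tw w 2) = 2 * c) (hω1 : ω.1 = 0)
  (hω : χ ω = c) (hE : ¬ E.Splits)

include L h0 h1 h2 hc hω1 hω hE

theorem caseA {τ τ' : M} {G G' : Vec E.a 2} (hG : HSec D τ G)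
    (hG' : HSec D τ' G') (hne : eval (Pi.single 0 1 : Fin 3 → ℂ) (W.wd G G') ≠ 0)
    (hlt : χ τ < χ τ') : χ τ' - χ τ = c := by
  have hpos : ∀ j, j ≠ 0 → 0 < χ (tw w j) := by
    intro j hj
    fin_cases j
    · exact absurd rfl hj
    · show 0 < χ (tw w 1)
      rw [h1]; exact hc
    · show 0 < χ (tw w 2)
      rw [h2]; linarith
  have hω0 : ω ≠ 0 := by
    intro h
    rw [h, map_zero] at hω
    omega
  have hw0 : W.wd G G' ≠ 0 := fun h => hne (by rw [h, map_zero])
  obtain ⟨δ, g, s, hg0, hg, hs, hsp, hGs⟩ := exists_prm hG (ne_of_wd_left W hG.ker hG'.ker hw0)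
  rw [wd_of_mul_left W hs.ker hG'.ker hGs, map_mul] at hne
  have hge := left_ne_zero_of_mul hne
  have hse := right_ne_zero_of_mul hne
  have hδ : χ δ = 0 := chi_of_eval χ h0 hg hge
  have hκ := chi_of_eval χ h0 (W.hom _ _ _ _ hs hG') hse
  rw [map_add, map_add, map_sub, hδ, sub_zero] at hκ
  by_cases hz : W.wd s (L.op s) = 0
  · exfalso
    exact hE (splits_of_inv L χ h0 hpos hs (op_zero_of_wd L W hω1 hω0 hs hsp hz)
      (ne_of_eval_wd W (e0_ne 2) hs.ker hG'.ker hse).1)
  · obtain ⟨m, hm⟩ := chi_mul χ h0 h1 h2 (W.hom _ _ _ _ hs (L.op_hom hs)) hz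
    rw [map_add, map_add, map_add, map_sub, hδ, sub_zero, hω] at hm
    have h3 : c - (χ τ' - χ τ) = m * c := by linarith
    rcases Nat.eq_zero_or_pos m with h4 | h4
    · rw [h4] at h3
      push_cast at h3
      linarith
    · exfalso
      have h5 : (1 : ℤ) ≤ m := by exact_mod_cast h4
      have h6 : c ≤ m * c := by nlinarith
      linarith

theorem caseB {τ τ' : M} {G G' : Vec E.a 2} (hG : HSec D τ G)
    (hG' : HSec D τ' G') (hne : eval (Pi.single 0 1 : Fin 3 → ℂ) (W.wd G G') ≠ 0)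
    (heq : χ τ = χ τ') : False := by
  have hpos : ∀ j, j ≠ 0 → 0 < χ (tw w j) := by
    intro j hj
    fin_cases j
    · exact absurd rfl hj
    · show 0 < χ (tw w 1)
      rw [h1]; exact hc
    · show 0 < χ (tw w 2)
      rw [h2]; linarith
  set l := χ τ with hl
  have hκ : l + l + χ W.κ = 0 := by
    have := chi_of_eval χ h0 (W.hom _ _ _ _ hG hG') hne
    rwa [map_add, map_add, ← heq] at this
  obtain ⟨d, ⟨ρ, ρ', s, s', hs, hs', hρ, hρ', hw, hd⟩, hmin⟩ := Int.exists_least_of_bdd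
    (P := fun d : ℤ => ∃ (ρ ρ' : M) (s s' : Vec E.a 2), HSec D ρ s ∧ HSec D ρ' s' ∧ χ ρ = l ∧
      χ ρ' = l ∧ W.wd s s' ≠ 0 ∧ ρ.1 + ρ'.1 = d)
    (by
      refine ⟨-W.κ.1, ?_⟩
      rintro z ⟨ρ, ρ', s, s', hs, hs', -, -, hw, rfl⟩
      have h3 := degree_nonneg (W.hom _ _ _ _ hs hs') hw
      rw [Prod.fst_add, Prod.fst_add] at h3
      linarith)
    ⟨_, τ, τ', G, G', hG, hG', rfl, heq.symm, fun h => hne (by rw [h, map_zero]), rfl⟩
  -- the argument for a minimal pair with the smaller degree first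
  have main : ∀ (ρ ρ' : M) (s s' : Vec E.a 2), HSec D ρ s → HSec D ρ' s' → χ ρ = l →
      χ ρ' = l → W.wd s s' ≠ 0 → ρ.1 + ρ'.1 = d → ρ.1 ≤ ρ'.1 → False := by
    clear hs hs' hρ hρ' hw hd s s' ρ ρ'
    intro ρ ρ' s s' hs hs' hρ hρ' hw hd hle
    obtain ⟨a, N, ha, hN, hNτ⟩ := form0 χ h0 hpos (W.hom _ _ _ _ hs hs')
      (by rw [map_add, map_add, hρ, hρ']; exact hκ) hw
    have hos := L.op_hom hs
    obtain ⟨a₁, N₁, hp, hp'⟩ := form1 χ hc h0 h1 h2 (W.hom _ _ _ _ hs' hos)
      (by rw [map_add, map_add, map_add, hρ, hρ', hω]; linarith)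
    obtain ⟨a₂, N₂, hq, hq'⟩ := form1 χ hc h0 h1 h2 (W.hom _ _ _ _ hs hos)
      (by rw [map_add, map_add, map_add, hρ, hω]; linarith)
    have h3 := fun i => W.three s s' (L.op s) hs.ker hs'.ker hos.ker i
    rw [hp, hq, hN] at h3
    have hXp : Prime (X 0 : MvPolynomial (Fin (2 + 1)) ℂ) := X_prime
    have hX01 : ¬ (X 0 : MvPolynomial (Fin (2 + 1)) ℂ) ∣ X 1 := by
      rw [X_dvd_X]
      decide
    have hX0N : ∀ N : ℕ, (X 0 : MvPolynomial (Fin (2 + 1)) ℂ) ^ N ≠ 0 :=
      fun N => pow_ne_zero _ (X_ne_zero _)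
    by_cases ha₂ : a₂ = 0
    · -- the derivative is parallel to s
      by_cases ha₁ : a₁ = 0
      · have hop : ∀ i, L.op s i = 0 := by
          intro i
          have h4 := h3 i
          rw [ha₁, ha₂, C_0, zero_mul, zero_mul, zero_mul, zero_mul, sub_zero, zero_add] at h4
          rcases mul_eq_zero.1 h4 with h5 | h5
          · rcases mul_eq_zero.1 h5 with h6 | h6
            · exact absurd (C_eq_zero.1 h6) ha
            · exact absurd h6 (hX0N N)
          · exact h5
        refine hE (splits_of_inv L χ h0 hpos hs hop ?_)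
        refine (ne_of_eval_wd W (e0_ne 2) hs.ker hs'.ker ?_).1
        rw [hN, map_mul, map_pow, eval_X, eval_C, Pi.single_eq_same, one_pow, mul_one]
        exact ha
      · -- X 0 divides s
        have h4 := hp' ha₁
        have h5 : N = N₁ + 1 := by
          have e1 := congrArg Prod.fst h4
          have e2 := congrArg Prod.fst hNτ
          simp only [Prod.fst_add, hω1, fst_tw, fst_smul_tw] at e1 e2
          have : (N : ℤ) = N₁ + 1 := by linarith
          exact_mod_cast this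
        have h6 : ∀ i, (X 0 : MvPolynomial (Fin (2 + 1)) ℂ) ∣ s i := by
          intro i
          have h7 := h3 i
          rw [ha₂, C_0, zero_mul, zero_mul, sub_zero, h5] at h7
          have h8 : X 1 * s i = X 0 * (- (C (a / a₁) * L.op s i)) := by
            apply mul_left_cancel₀ (hX0N N₁)
            have h9 : (C a : MvPolynomial (Fin (2 + 1)) ℂ) = C a₁ * C (a / a₁) := by
              rw [← C_mul, mul_div_cancel₀ _ ha₁]
            rw [h9] at h7
            have h10 : (C a₁ : MvPolynomial (Fin (2 + 1)) ℂ) ≠ 0 := by rwa [Ne, C_eq_zero]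
            apply mul_left_cancel₀ h10
            linear_combination h7
          have h9 : (X 0 : MvPolynomial (Fin (2 + 1)) ℂ) ∣ X 1 * s i := ⟨_, h8⟩
          exact (hXp.dvd_or_dvd h9).resolve_left hX01
        choose s₂ hs₂ using h6
        have h7 : HSec D (ρ - tw w 0) s₂ := sec_divX hs hs₂
        have h8 : W.wd s₂ s' ≠ 0 := by
          intro h9
          apply hw
          rw [wd_of_mul_left W h7.ker hs'.ker hs₂, h9, mul_zero]
        have h9 := hmin _ ⟨ρ - tw w 0, ρ', s₂, s', h7, hs', by rw [map_sub, h0, sub_zero, hρ],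
          hρ', h8, rfl⟩
        have h10 : (ρ - tw w 0 : M).1 = ρ.1 - 1 := rfl
        rw [h10] at h9
        linarith
    · -- combine
      have h4 := hq' ha₂
      have hN₂ : N₂ + 1 ≤ N := by
        have e1 := congrArg Prod.fst h4
        have e2 := congrArg Prod.fst hNτ
        simp only [Prod.fst_add, hω1, fst_tw, fst_smul_tw] at e1 e2
        have : (N₂ : ℤ) + 1 ≤ N := by linarith
        exact_mod_cast this
      have hN₁ : a₁ ≠ 0 → N₂ ≤ N₁ ∧ ρ' = ρ + (N₁ - N₂) • tw w 0 := by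
        intro ha₁
        have h5 := hp' ha₁
        have e1 := congrArg Prod.fst h4
        have e2 := congrArg Prod.fst h5
        simp only [Prod.fst_add, hω1, fst_tw, fst_smul_tw] at e1 e2
        have h6 : (N₂ : ℤ) ≤ N₁ := by linarith
        have h7 : N₂ ≤ N₁ := by exact_mod_cast h6
        refine ⟨h7, ?_⟩
        have h8 : N₁ • tw w 0 = N₂ • tw w 0 + (N₁ - N₂) • tw w 0 := by
          rw [← add_smul]
          congr 1
          omega
        rw [h8] at h5
        have h9 : ρ' = (ρ' + (ρ + ω) + W.κ) - (ρ + (ρ + ω) + W.κ) + ρ := by abel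
        rw [h9, h5, h4]
        abel
      let K : Vec E.a 2 := fun i => C a₂ * s' i - C a₁ * X 0 ^ (N₁ - N₂) * s i
      have hK : ∀ i, (X 0 : MvPolynomial (Fin (2 + 1)) ℂ) ∣ K i := by
        intro i
        have h5 := h3 i
        have h6 : X 1 * K i = X 0 * (C a * X 0 ^ (N - (N₂ + 1)) * L.op s i) := by
          apply mul_left_cancel₀ (hX0N N₂)
          have h7 : (X 0 : MvPolynomial (Fin (2 + 1)) ℂ) ^ N =
              X 0 ^ N₂ * X 0 * X 0 ^ (N - (N₂ + 1)) := by
            rw [← pow_succ, ← pow_add]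
            congr 1
            omega
          have h8 : C a₁ * (X 0 : MvPolynomial (Fin (2 + 1)) ℂ) ^ N₁ =
              C a₁ * (X 0 ^ N₂ * X 0 ^ (N₁ - N₂)) := by
            by_cases ha₁ : a₁ = 0
            · rw [ha₁, C_0, zero_mul, zero_mul]
            · rw [← pow_add]
              congr 2
              have := (hN₁ ha₁).1
              omega
          rw [h7] at h5
          simp only [K]
          linear_combination (-1 : MvPolynomial (Fin (2 + 1)) ℂ) * h5 + X 1 * s i * h8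
        have h9 : (X 0 : MvPolynomial (Fin (2 + 1)) ℂ) ∣ X 1 * K i := ⟨_, h6⟩
        exact (hXp.dvd_or_dvd h9).resolve_left hX01
      have hKs : HSec D ρ' K := by
        refine ⟨fun i => ?_, ker_sub (ker_mul hs'.ker _) (ker_mul hs.ker _)⟩
        refine IsWeightedHomogeneous.sub ?_ ?_
        · have h5 := (isWeightedHomogeneous_C (tw w) a₂).mul (hs'.hom i)
          rwa [zero_add] at h5
        · by_cases ha₁ : a₁ = 0
          · rw [ha₁, C_0, zero_mul, zero_mul]
            exact isWeightedHomogeneous_zero _ _ _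
          · have h5 := ((isWeightedHomogeneous_C (tw w) a₁).mul
              ((isWeightedHomogeneous_X ℂ (tw w) 0).pow (N₁ - N₂))).mul (hs.hom i)
            have h6 : (((E.β i, D.b i) : M) + ρ' : M) =
                0 + (N₁ - N₂) • tw w 0 + (((E.β i, D.b i) : M) + ρ) := by
              rw [(hN₁ ha₁).2]
              abel
            rw [h6]
            exact h5
      choose s₂ hs₂ using hK
      have h7 : HSec D (ρ' - tw w 0) s₂ := sec_divX hKs hs₂
      have h8 : W.wd s s₂ ≠ 0 := by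
        intro h9
        have h10 : W.wd s K = C a₂ * W.wd s s' := by
          simp only [K]
          rw [wd_sub_right W (ker_mul hs'.ker _) (ker_mul hs.ker _) hs.ker,
            wd_mul_right W hs'.ker hs.ker, wd_mul_right W hs.ker hs.ker, wd_self W hs.ker]
          ring
        rw [wd_of_mul_right W h7.ker hs.ker hs₂, h9, mul_zero] at h10
        exact (mul_ne_zero (by rwa [Ne, C_eq_zero]) hw) h10.symm
      have h9 := hmin _ ⟨ρ, ρ' - tw w 0, s, s₂, hs, h7, hρ, by rw [map_sub, h0, sub_zero, hρ'],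
        h8, rfl⟩
      have h10 : (ρ' - tw w 0 : M).1 = ρ'.1 - 1 := rfl
      rw [h10] at h9
      linarith
  rcases le_total ρ.1 ρ'.1 with h | h
  · exact main ρ ρ' s s' hs hs' hρ hρ' hw hd h
  · refine main ρ' ρ s' s hs' hs hρ' hρ (fun h3 => hw (wd_swap W hs'.ker hs.ker h3)) ?_ h
    rw [add_comm]
    exact hd

/-- **The difference of the weights at the attracting point.** -/
theorem plane {τ τ' : M} {G G' : Vec E.a 2} (hG : HSec D τ G)
    (hG' : HSec D τ' G') (hne : eval (Pi.single 0 1 : Fin 3 → ℂ) (W.wd G G') ≠ 0) :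
    χ τ' - χ τ = c ∨ χ τ - χ τ' = c := by
  rcases lt_trichotomy (χ τ) (χ τ') with h | h | h
  · left
    exact caseA L W χ hc h0 h1 h2 hω1 hω hE hG hG' hne h
  · exact (caseB L W χ hc h0 h1 h2 hω1 hω hE hG hG' hne h).elim
  · right
    refine caseA L W χ hc h0 h1 h2 hω1 hω hE hG' hG ?_ h
    rw [W.anti G' G hG'.ker hG.ker, map_neg]
    exact neg_ne_zero.2 hne

end

end Pool.Agent.W615
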