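import Pool.Agent.W615.QuadLin

/-!
# Projective four-space as `P(V₂ ⊕ V₁)`: the theorem (helper615)
-/

set_option autoImplicit false
set_option maxHeartbeats 400000

open MvPolynomial H960VB H938TB

namespace Pool.Agent.W615

section
variable {n : ℕ} {w : Fin (n + 1) → ℤ × ℤ} {E : Bundle2 n} {D : EqB E w} {ω : M}

/-- dividing homogeneous polynomials. -/
theorem wh_div {p q : MvPolynomial (Fin (n + 1)) ℂ} {τ ρ : M} (hp : p ≠ 0)
    (h1 : IsWeightedHomogeneous (tw w) p τ) (h2 : IsWeightedHomogeneous (tw w) (p * q) ρ) :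
    IsWeightedHomogeneous (tw w) q (ρ - τ) := by
  by_cases hq : q = 0
  · rw [hq]
    exact isWeightedHomogeneous_zero _ _ _
  obtain ⟨e, e', hee, he, he'⟩ := hom_of_mul (tw w) h2 (mul_ne_zero hp hq)
  have h3 : e = τ := he.inj_right hp h1
  have h4 : e' = ρ - τ := by rw [← hee, h3]; abel
  rw [← h4]
  exact he'

end

variable {w : Fin 5 → ℤ × ℤ} {E : Bundle2 4} {D : EqB E w} {ω : M}

section
variable (L : Lft D ω δ5) (W : Wedge D) (χ : M →+ ℤ) (h0 : χ (tw w 0) = 0)
  (h1 : χ (tw w 1) = 2) (h2 : χ (tw w 2) = 4) (h3 : χ (tw w 3) = 1) (h4 : χ (tw w 4) = 3)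
  (hω1 : ω.1 = 0) (hω : χ ω = 2)

include L W h0 h1 h2 h3 h4 hω1 hω

/-- the last part of the argument -/
theorem p4_aux {σ : M} {s : Vec E.a 4} (hs : HSec D σ s) (hsp : Prm s)
    (hκ : χ σ + χ σ + 2 + χ W.κ = 0) (hh : W.wd s (L.op s) ≠ 0) : E.Splits := by
  have hω0 : ω ≠ 0 := by
    intro h
    rw [h, map_zero] at hω
    omega
  have hpos : ∀ j, j ≠ 0 → 0 < χ (tw w j) := by
    intro j hj
    fin_cases j
    · exact absurd rfl hj
    · show 0 < χ (tw w 1)
      rw [h1]; norm_num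
    · show 0 < χ (tw w 2)
      rw [h2]; norm_num
    · show 0 < χ (tw w 3)
      rw [h3]; norm_num
    · show 0 < χ (tw w 4)
      rw [h4]; norm_num
  have hos := L.op_hom hs
  have hoos := L.op_hom hos
  obtain ⟨a, N, ha, hN, hNτ⟩ := form0 χ h0 hpos (W.hom _ _ _ _ hs hos)
    (by rw [map_add, map_add, map_add, hω]; linarith) hh
  rcases Nat.eq_zero_or_pos N with hN0 | hNpos
  · rw [hN0, pow_zero, mul_one] at hN
    exact splits_of_const W hs hos a ha hN
  obtain ⟨N', rfl⟩ : ∃ N', N = N' + 1 := ⟨N - 1, by omega⟩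
  obtain ⟨θ, hθ0, hθ⟩ := L.exists_trace W (by norm_num) hω1
  rw [hθ0 hω0, C_0] at hθ
  have htr : ∀ G G', Ker E G → Ker E G' →
      W.wd (L.op G) G' + W.wd G (L.op G') = δ5 (W.wd G G') := by
    intro G G' hG hG'
    rw [hθ G G' hG hG', zero_mul, add_zero]
  have hX : ∀ N : ℕ, (X 0 : MvPolynomial (Fin (4 + 1)) ℂ) ^ N ≠ 0 :=
    fun N => pow_ne_zero _ (X_ne_zero _)
  have hXp : Prime (X 0 : MvPolynomial (Fin (4 + 1)) ℂ) := X_prime
  have hCa : (C a : MvPolynomial (Fin (4 + 1)) ℂ) ≠ 0 := by rwa [Ne, C_eq_zero]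
  -- the second derivative
  have b1 : W.wd s (L.op (L.op s)) = C a * (C ((N' + 1 : ℕ) : ℂ) * X 0 ^ N' * X 1) := by
    have e1 := htr s (L.op s) hs.ker hos.ker
    rw [wd_self W hos.ker, zero_add, hN, Derivation.leibniz, Derivation.leibniz_pow,
      derivation_C, smul_zero, add_zero, δ5_X] at e1
    rw [e1]
    simp only [smul_eq_mul, nsmul_eq_mul, Nat.add_sub_cancel, Matrix.cons_val_zero]
    have h5 : ((N' + 1 : ℕ) : MvPolynomial (Fin (4 + 1)) ℂ) = C ((N' + 1 : ℕ) : ℂ) := by simp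
    rw [h5]
    ring
  set b := W.wd (L.op s) (L.op (L.op s)) with hb
  have b2 : ∀ i, b * s i - C a * (C ((N' + 1 : ℕ) : ℂ) * X 0 ^ N' * X 1) * L.op s i +
      C a * X 0 ^ (N' + 1) * L.op (L.op s) i = 0 := by
    intro i
    have e1 := W.three s (L.op s) (L.op (L.op s)) hs.ker hos.ker hoos.ker i
    rw [b1, hN] at e1
    exact e1
  have b3 : (X 0 : MvPolynomial (Fin (4 + 1)) ℂ) ^ N' ∣ b := by
    obtain ⟨i, hi⟩ : ∃ i, ¬ (X 0 : MvPolynomial (Fin (4 + 1)) ℂ) ∣ s i := by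
      by_contra hc
      push Not at hc
      exact hXp.not_isUnit (hsp _ hc)
    refine hXp.pow_dvd_of_dvd_mul_right N' hi ?_
    refine ⟨C a * (C ((N' + 1 : ℕ) : ℂ) * X 1) * L.op s i -
      C a * X 0 * L.op (L.op s) i, ?_⟩
    have e1 := b2 i
    rw [pow_succ] at e1
    linear_combination e1
  obtain ⟨ℓ, hℓ⟩ := b3
  have b4 : ∃ b₀ : ℂ, ℓ = C b₀ * X 2 := by
    have e1 : IsWeightedHomogeneous (tw w) b ((σ + ω) + (σ + ω + ω) + W.κ) :=
      W.hom _ _ _ _ hos hoos
    rw [hℓ] at e1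
    have e2 := wh_div (hX N') ((isWeightedHomogeneous_X ℂ (tw w) 0).pow N') e1
    have e3 : ((σ + ω) + (σ + ω + ω) + W.κ - N' • tw w 0 : M) = tw w 0 + ω + ω := by
      have e4 : ((σ + ω) + (σ + ω + ω) + W.κ : M) = (σ + (σ + ω) + W.κ) + ω + ω := by abel
      rw [e4, hNτ, add_smul, one_smul]
      abel
    rw [e3] at e2
    refine lin_form χ h0 h1 h2 h3 h4 e2 ?_ ?_
    · rw [map_add, map_add, h0, hω]
      norm_num
    · rw [Prod.fst_add, Prod.fst_add, hω1]
      rfl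
  obtain ⟨b₀, rfl⟩ := b4
  have hss : ∀ i, X 0 * L.op (L.op s) i =
      C ((N' + 1 : ℕ) : ℂ) * X 1 * L.op s i - C (b₀ / a) * X 2 * s i := by
    intro i
    apply mul_left_cancel₀ (hX N')
    apply mul_left_cancel₀ hCa
    have e1 := b2 i
    have e2 : (C a * C (b₀ / a) : MvPolynomial (Fin (4 + 1)) ℂ) = C b₀ := by
      rw [← C_mul, mul_div_cancel₀ _ ha]
    rw [hℓ, pow_succ] at e1
    linear_combination e1 + X 0 ^ N' * X 2 * s i * (-1 : MvPolynomial (Fin (4 + 1)) ℂ) * (-e2)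
  -- the connection
  have hdv : ∀ G, Ker E G → ∀ i, ∃ q, RR W s (L.op s) G i = C a * X 0 ^ (N' + 1) * q := by
    intro G hG i
    obtain ⟨q, hq⟩ := RR_dvd L W htr hs.ker hss hG i
    refine ⟨C (1 / a) * q, ?_⟩
    rw [hq]
    have e2 : (C a * C (1 / a) : MvPolynomial (Fin (4 + 1)) ℂ) = 1 := by
      rw [← C_mul, mul_div_cancel₀ _ ha, C_1]
    linear_combination (-(X 0 ^ (N' + 1) * q)) * e2
  classical
  let dn : Vec E.a 4 → Vec E.a 4 := fun G =>
    if hG : Ker E G then fun i => (hdv G hG i).choose else fun _ => 0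
  have hdn : ∀ G, Ker E G → ∀ i, RR W s (L.op s) G i = W.wd s (L.op s) * dn G i := by
    intro G hG i
    have e1 : dn G i = (hdv G hG i).choose := by
      simp only [dn]
      rw [dif_pos hG]
    rw [e1, hN]
    exact (hdv G hG i).choose_spec
  have hdk : ∀ G, Ker E G → Ker E (dn G) := by
    intro G hG
    apply ker_of_mul hh
    have e1 : (fun i => W.wd s (L.op s) * dn G i) = RR W s (L.op s) G :=
      funext fun i => (hdn G hG i).symm
    rw [e1]
    exact ker_sub (ker_mul hos.ker _) (ker_mul hs.ker _)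
  refine trans W 3 dn (fun τ G hG => ⟨fun i => ?_, hdk G hG.ker⟩) (fun τ τ' G G' hG hG' => ?_)
  · -- homogeneity
    have p1 : IsWeightedHomogeneous (tw w) (pderiv 3 (W.wd s G)) (σ + τ + W.κ - tw w 3) :=
      (W.hom _ _ _ _ hs hG).pderiv (by abel)
    have p2 : IsWeightedHomogeneous (tw w) (pderiv 3 (W.wd (L.op s) G))
        (σ + ω + τ + W.κ - tw w 3) := (W.hom _ _ _ _ hos hG).pderiv (by abel)
    have p3 : IsWeightedHomogeneous (tw w) (W.wd s (L.op s) * dn G i)
        (((E.β i, D.b i) : M) + (τ - tw w 3) + (σ + (σ + ω) + W.κ)) := by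
      rw [← hdn G hG.ker]
      refine IsWeightedHomogeneous.sub ?_ ?_
      · have q1 := p1.mul (hos.hom i)
        have e : (σ + τ + W.κ - tw w 3 + (((E.β i, D.b i) : M) + (σ + ω)) : M) =
          ((E.β i, D.b i) : M) + (τ - tw w 3) + (σ + (σ + ω) + W.κ) := by abel
        rw [e] at q1
        exact q1
      · have q1 := p2.mul (hs.hom i)
        have e : (σ + ω + τ + W.κ - tw w 3 + (((E.β i, D.b i) : M) + σ) : M) =
          ((E.β i, D.b i) : M) + (τ - tw w 3) + (σ + (σ + ω) + W.κ) := by abel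
        rw [e] at q1
        exact q1
    have p4 := wh_div hh (W.hom _ _ _ _ hs hos) p3
    rw [add_sub_cancel_right] at p4
    exact p4
  · -- compatibility with the wedge product
    have kG := hG.ker
    have kG' := hG'.ker
    apply mul_left_cancel₀ hh
    have c1 : W.wd s (L.op s) * W.wd (dn G) G' =
        pderiv 3 (W.wd s G) * W.wd (L.op s) G' - pderiv 3 (W.wd (L.op s) G) * W.wd s G' := by
      rw [← wd_of_mul_left W (hdk G kG) kG' (hdn G kG)]
      have e1 : RR W s (L.op s) G = fun i => (fun i => pderiv 3 (W.wd s G) * L.op s i) i -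
        (fun i => pderiv 3 (W.wd (L.op s) G) * s i) i := rfl
      rw [e1, wd_sub_left W (ker_mul hos.ker _) (ker_mul hs.ker _) kG',
        W.smul _ _ _ hos.ker kG', W.smul _ _ _ hs.ker kG']
    have c2 : W.wd s (L.op s) * W.wd G (dn G') =
        pderiv 3 (W.wd s G') * W.wd G (L.op s) - pderiv 3 (W.wd (L.op s) G') * W.wd G s := by
      rw [← wd_of_mul_right W (hdk G' kG') kG (hdn G' kG')]
      have e1 : RR W s (L.op s) G' = fun i => (fun i => pderiv 3 (W.wd s G') * L.op s i) i -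
        (fun i => pderiv 3 (W.wd (L.op s) G') * s i) i := rfl
      rw [e1, wd_sub_right W (ker_mul hos.ker _) (ker_mul hs.ker _) kG,
        wd_mul_right W hos.ker kG, wd_mul_right W hs.ker kG]
    have c3 := W.four s (L.op s) G G' hs.ker hos.ker kG kG'
    have c4 := congrArg (pderiv (3 : Fin 5)) c3
    have p0 : pderiv (3 : Fin 5) (W.wd s (L.op s)) = 0 := by
      rw [hN, Derivation.leibniz, Derivation.leibniz_pow, pderiv_C,
        pderiv_X_of_ne (by decide : (0 : Fin 5) ≠ 3)]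
      simp
    simp only [Derivation.leibniz, smul_eq_mul, map_sub, map_add, p0, mul_zero, add_zero,
      map_zero] at c4
    rw [mul_add, c1, c2, W.anti G (L.op s) kG hos.ker, W.anti G s kG hs.ker]
    linear_combination c4

end

/-- **The case of `V₂ ⊕ V₁`.** -/
theorem p4 (L : Lft D ω δ5) (χ : M →+ ℤ) (h0 : χ (tw w 0) = 0)
    (h1 : χ (tw w 1) = 2) (h2 : χ (tw w 2) = 4) (h3 : χ (tw w 3) = 1) (h4 : χ (tw w 4) = 3)
    (hω1 : ω.1 = 0) (hω : χ ω = 2) : E.Splits := by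
  by_contra hE
  obtain ⟨W⟩ := exists_wedge (by norm_num) D
  have hω0 : ω ≠ 0 := by
    intro h
    rw [h, map_zero] at hω
    omega
  -- the plane
  let f : Fin 3 → Fin 5 := ![0, 1, 2]
  have hf : Function.Injective f := by decide
  have hE' : ¬ (E.pull (cInc f) (cInc_injective f hf)).Splits := fun h =>
    hE (splits_of_cInc (le_refl 2) (by norm_num) E f hf h)
  set D' := D.pull (cInc f) (cInc_injective f hf) (w ∘ f) (cInc_weight f w) with hD'
  obtain ⟨W'⟩ := exists_wedge (by norm_num) D'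
  have hd : ∀ i, lsub (cInc f) (δ5 (X i)) = δ3 (lsub (cInc f) (X i)) := by
    have g0 : lsub (cInc f) (X 0) = X 0 := lsub_cInc_X f hf 0
    have g1 : lsub (cInc f) (X 1) = X 1 := lsub_cInc_X f hf 1
    have g2 : lsub (cInc f) (X 2) = X 2 := lsub_cInc_X f hf 2
    have g3 : lsub (cInc f) (X 3) = 0 := lsub_cInc_X_zero f 3 (by decide)
    have g4 : lsub (cInc f) (X 4) = 0 := lsub_cInc_X_zero f 4 (by decide)
    have d0 : δ3 (X 0) = X 1 := mkDerivation_X _ _ _
    have d1 : δ3 (X 1) = X 2 := mkDerivation_X _ _ _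
    have d2 : δ3 (X 2) = 0 := mkDerivation_X _ _ _
    intro i
    rw [δ5_X]
    fin_cases i
    · show lsub (cInc f) (X 1) = δ3 (lsub (cInc f) (X 0))
      rw [g0, g1, d0]
    · show lsub (cInc f) (X 2) = δ3 (lsub (cInc f) (X 1))
      rw [g1, g2, d1]
    · show lsub (cInc f) 0 = δ3 (lsub (cInc f) (X 2))
      rw [g2, d2, map_zero]
    · show lsub (cInc f) (X 4) = δ3 (lsub (cInc f) (X 3))
      rw [g3, g4, map_zero]
    · show lsub (cInc f) 0 = δ3 (lsub (cInc f) (X 4))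
      rw [g4, map_zero, map_zero]
  have hδ' : ∀ i, IsWeightedHomogeneous (tw (w ∘ f)) (δ3 (X i)) (tw (w ∘ f) i + ω) := by
    intro i
    have e1 := isWH_lsub (cInc f) (cInc_weight f w) (L.hδ (f i))
    rw [hd, lsub_cInc_X f hf] at e1
    exact e1
  let L' : Lft D' ω δ3 := L.pull (cInc f) (cInc_injective f hf) (w ∘ f) (cInc_weight f w) δ3 hd hδ'
  have hpos' : ∀ j : Fin 3, j ≠ 0 → 0 < χ (tw (w ∘ f) j) := by
    intro j hj
    fin_cases j
    · exact absurd rfl hj
    · show 0 < χ (tw w 1)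
      rw [h1]; norm_num
    · show 0 < χ (tw w 2)
      rw [h2]; norm_num
  have hTe : cInc f (Pi.single 0 1) = Pi.single 0 1 := cInc_single f 0
  have main : ∀ (τ τ' : M) (G G' : Vec E.a 4), HSec D τ G → HSec D τ' G' →
      eval (Pi.single 0 1 : Fin 5 → ℂ) (W.wd G G') ≠ 0 → χ τ' - χ τ = 2 → False := by
    intro τ τ' G G' hG hG' hne hdiff
    have hw0 : W.wd G G' ≠ 0 := fun h => hne (by rw [h, map_zero])
    obtain ⟨δ, g, s, hg0, hg, hs, hsp, hGs⟩ := exists_prm hG (ne_of_wd_left W hG.ker hG'.ker hw0)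
    rw [wd_of_mul_left W hs.ker hG'.ker hGs, map_mul] at hne
    have hge := left_ne_zero_of_mul hne
    have hse := right_ne_zero_of_mul hne
    have hδ : χ δ = 0 := chi_of_eval χ h0 hg hge
    have hκ := chi_of_eval χ h0 (W.hom _ _ _ _ hs hG') hse
    rw [map_add, map_add, map_sub, hδ, sub_zero] at hκ
    by_cases hz : W.wd s (L.op s) = 0
    · have hop := op_zero_of_wd L W hω1 hω0 hs hsp hz
      have hse' := (ne_of_eval_wd W (e0_ne 4) hs.ker hG'.ker hse).1
      have hs' : HSec D' (τ - δ) (fun i => lsub (cInc f) (s i)) := hs.pull _ _ _ _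
      apply hE'
      refine splits_of_inv L' χ h0 hpos' hs' (fun i => ?_) ?_
      · rw [pull_op, hop, map_zero]
      · rw [evv_lsub, hTe]
        exact hse'
    · refine hE (p4_aux L W χ h0 h1 h2 h3 h4 hω1 hω hs hsp ?_ hz)
      rw [map_sub, hδ]
      linarith
  obtain ⟨τ, τ', G, G', hG, hG', hp⟩ := exists_ne W (D := D) (Pi.single 0 1) (e0_ne 4)
  have hp' : eval (Pi.single 0 1 : Fin 3 → ℂ)
      (W'.wd (fun i => lsub (cInc f) (G i)) (fun i => lsub (cInc f) (G' i))) ≠ 0 := by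
    have e1 := (W.ind _ (e0_ne 4) G G' hG.ker hG'.ker).1 hp
    refine (W'.ind _ (e0_ne 2) _ _ (hG.ker.pull _ _) (hG'.ker.pull _ _)).2 ?_
    rw [evv_lsub, evv_lsub, hTe]
    exact e1
  have hpl := plane L' W' χ (c := 2) (by norm_num) h0 h1 (by rw [show (2 : ℤ) * 2 = 4 by norm_num]; exact h2)
    hω1 hω hE' (hG.pull _ _ _ _) (hG'.pull _ _ _ _) hp'
  rcases hpl with h | h
  · exact main _ _ _ _ hG hG' hp h
  · refine main _ _ _ _ hG' hG ?_ h
    rw [W.anti G' G hG'.ker hG.ker, map_neg]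
    exact neg_ne_zero.2 hp

end Pool.Agent.W615
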