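import Pool.Agent.W615.NA1
import Pool.Agent.W615.Plane2
import Pool.Agent.W615.QuadLin2

/-!
# Regular unipotent groups of the plane: invariant sections (helper615)
-/

set_option autoImplicit false
set_option maxHeartbeats 400000

open MvPolynomial H960VB H938TB

namespace Pool.Agent.W615

/-- vanishing to weighted order `m` at the fixed point -/
def OO (m : ℕ) (p : MvPolynomial (Fin (2 + 1)) ℂ) : Prop := ∀ i, i < m → cm i p = 0

theorem OO_zero (p : MvPolynomial (Fin (2 + 1)) ℂ) : OO 0 p := fun i hi => absurd hi (Nat.not_lt_zero i)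

theorem OO_one {p : MvPolynomial (Fin (2 + 1)) ℂ}
    (h : eval (Pi.single 0 1 : Fin 3 → ℂ) p = 0) : OO 1 p := by
  intro i hi
  obtain rfl : i = 0 := by omega
  rw [cm_zero_eq, h, map_zero]

theorem OO_mul {m n : ℕ} {p q : MvPolynomial (Fin (2 + 1)) ℂ} (hp : OO m p) (hq : OO n q) :
    OO (m + n) (p * q) := fun _ hi => cm_mul_lt hp hq hi

theorem OO_sub {m : ℕ} {p q : MvPolynomial (Fin (2 + 1)) ℂ} (hp : OO m p) (hq : OO m q) :
    OO m (p - q) := fun i hi => by rw [cm_sub, hp i hi, hq i hi, sub_zero]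

theorem OO_neg {m : ℕ} {p : MvPolynomial (Fin (2 + 1)) ℂ} (hp : OO m p) : OO m (-p) := by
  have h := OO_sub (fun i _ => cm_zero i : OO m 0) hp
  rwa [zero_sub] at h

theorem OO_mono {m n : ℕ} {p : MvPolynomial (Fin (2 + 1)) ℂ} (hp : OO n p) (h : m ≤ n) : OO m p :=
  fun i hi => hp i (by omega)

theorem OO_cancel {m : ℕ} {u p : MvPolynomial (Fin (2 + 1)) ℂ}
    (hu : eval (Pi.single 0 1 : Fin 3 → ℂ) u ≠ 0) (h : OO m (u * p)) : OO m p := by
  intro i
  induction i using Nat.strong_induction_on with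
  | _ i ih =>
    intro hi
    have h1 := cm_mul (μ := 0) (ν := i) (OO_zero u) (fun j hj => ih j hj (by omega)) (p := u)
    rw [zero_add, h i hi, cm_zero_eq] at h1
    rcases mul_eq_zero.1 h1.symm with h2 | h2
    · exact absurd (Polynomial.C_eq_zero.1 h2) hu
    · exact h2

theorem OO_δ {m : ℕ} {p : MvPolynomial (Fin (2 + 1)) ℂ} {τ : M}
    (hp : IsWeightedHomogeneous (tw (0 : Fin 3 → ℤ × ℤ)) p τ) (h : OO m p) :
    OO (m + 1) (δ3 p) := by
  intro i hi
  rcases Nat.eq_zero_or_pos i with h0 | h0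
  · rw [h0]
    exact cm_δ_zero p
  obtain ⟨j, rfl⟩ : ∃ j, i = j + 1 := ⟨i - 1, by omega⟩
  rcases homZ_of hp with h1 | ⟨l, -, h1⟩
  · rw [h1, map_zero]
    exact cm_zero _
  · rw [cm_δ h1, h j (by omega), opz_zero]

theorem OO_bound {p : MvPolynomial (Fin (2 + 1)) ℂ} {τ : M}
    (hp : IsWeightedHomogeneous (tw (0 : Fin 3 → ℤ × ℤ)) p τ) {m : ℕ} (hm : 2 * τ.1 < m)
    (h : OO m p) : p = 0 := by
  rcases homZ_of hp with h1 | ⟨l, hl, h1⟩
  · exact h1
  · refine eq_zero_of_cm h1 fun μ hμ => h μ ?_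
    have : (μ : ℤ) ≤ 2 * l := by exact_mod_cast hμ
    omega

variable {E : Bundle2 2}

/-- the data of a bundle with a lift acting trivially on the fibre at the fixed point -/
structure NA (L : Lft (triv E) 0 δ3) (W : Wedge (triv E)) where
  H0 : ∀ G, Ker E G → evv (L.op G) (Pi.single 0 1 : Fin 3 → ℂ) = 0
  G₁ : Vec E.a 2
  G₂ : Vec E.a 2
  τ₁ : M
  τ₂ : M
  h₁ : HSec (triv E) τ₁ G₁
  h₂ : HSec (triv E) τ₂ G₂
  hu : eval (Pi.single 0 1 : Fin 3 → ℂ) (W.wd G₁ G₂) ≠ 0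
  tr : ∀ G G', Ker E G → Ker E G' → W.wd (L.op G) G' + W.wd G (L.op G') = δ3 (W.wd G G')

theorem eval_zero_of_wd {n : ℕ} {w : Fin (n + 1) → ℤ × ℤ} {E : Bundle2 n} {D : EqB E w}
    (W : Wedge D) {x : Fin (n + 1) → ℂ} (hx : x ≠ 0) {G G' : Vec E.a n} (hG : Ker E G)
    (hG' : Ker E G') (h : evv G x = 0 ∨ evv G' x = 0) : eval x (W.wd G G') = 0 := by
  by_contra hne
  have h1 := ne_of_eval_wd W hx hG hG' hne
  rcases h with h | h
  · exact h1.1 h
  · exact h1.2 h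

theorem exists_NA (L : Lft (triv E) 0 δ3) (W : Wedge (triv E))
    (H0 : ∀ G, Ker E G → evv (L.op G) (Pi.single 0 1 : Fin 3 → ℂ) = 0) : Nonempty (NA L W) := by
  obtain ⟨τ₁, τ₂, G₁, G₂, h₁, h₂, hu⟩ := exists_ne W (D := triv E) (Pi.single 0 1) (e0_ne 2)
  obtain ⟨θ, -, hθ⟩ := L.exists_trace W (by norm_num) rfl
  have hθ0 : θ = 0 := by
    have h3 := congrArg (eval (Pi.single 0 1 : Fin 3 → ℂ)) (hθ G₁ G₂ h₁.ker h₂.ker)
    rw [map_add, map_add, map_mul, eval_C, eval_zero_of_wd W (e0_ne 2) (L.op_ker h₁.ker) h₂.ker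
      (Or.inl (H0 G₁ h₁.ker)), eval_zero_of_wd W (e0_ne 2) h₁.ker (L.op_ker h₂.ker)
      (Or.inr (H0 G₂ h₂.ker))] at h3
    have h4 : eval (Pi.single 0 1 : Fin 3 → ℂ) (δ3 (W.wd G₁ G₂)) = 0 := by
      rw [δ3_eq]
      simp
    rw [h4, zero_add, zero_add] at h3
    exact (mul_eq_zero.1 h3.symm).resolve_right hu
  refine ⟨⟨H0, G₁, G₂, τ₁, τ₂, h₁, h₂, hu, fun G G' hG hG' => ?_⟩⟩
  rw [hθ G G' hG hG', hθ0, C_0, zero_mul, add_zero]

theorem iter_hom (L : Lft (triv E) 0 δ3) {τ : M} {G : Vec E.a 2} (hG : HSec (triv E) τ G) (m : ℕ) :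
    HSec (triv E) τ (L.op^[m] G) := by
  induction m with
  | zero => exact hG
  | succ m ih =>
    rw [Function.iterate_succ_apply']
    have h := L.op_hom ih
    rwa [add_zero] at h

theorem iter_X2 (L : Lft (triv E) 0 δ3) (G : Vec E.a 2) (m : ℕ) :
    L.op^[m] (fun i => X 2 * G i) = fun i => X 2 * L.op^[m] G i := by
  induction m with
  | zero => rfl
  | succ m ih =>
    rw [Function.iterate_succ_apply', ih, L.op_mul, Function.iterate_succ_apply']
    have d2 : δ3 (X 2) = 0 := mkDerivation_X _ _ _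
    funext i
    rw [d2, zero_mul, zero_add]

theorem iter_X1 (L : Lft (triv E) 0 δ3) (G : Vec E.a 2) (m : ℕ) :
    L.op^[m + 1] (fun i => X 1 * G i) = fun i => X 1 * L.op^[m + 1] G i +
      C ((m : ℂ) + 1) * X 2 * L.op^[m] G i := by
  have d1 : δ3 (X 1) = X 2 := mkDerivation_X _ _ _
  have d2 : δ3 (X 2) = 0 := mkDerivation_X _ _ _
  induction m with
  | zero =>
    show L.op (fun i => X 1 * G i) = fun i => X 1 * L.op G i +
      C (((0 : ℕ) : ℂ) + 1) * X 2 * G i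
    rw [L.op_mul, d1]
    funext i
    simp
    ring
  | succ m ih =>
    rw [Function.iterate_succ_apply', ih, L.op_add, L.op_mul, L.op_mul, d1, Derivation.leibniz,
      derivation_C, d2, Function.iterate_succ_apply' (f := L.op) (n := m + 1),
      Function.iterate_succ_apply' (f := L.op) (n := m)]
    funext i
    simp only [smul_zero, add_zero, smul_eq_mul, mul_zero, zero_mul, zero_add]
    push_cast
    simp only [C_add, C_1]
    ring

/-- a section killed by a power of the lift yields an invariant section. -/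
theorem exists_inv (L : Lft (triv E) 0 δ3) : ∀ (r : ℕ) (τ : M) (G : Vec E.a 2),
    HSec (triv E) τ G → (∀ i, L.op^[r + 1] G i = 0) → ∃ (τ' : M) (I H : Vec E.a 2),
      HSec (triv E) τ' I ∧ (∀ i, L.op I i = 0) ∧ Ker E H ∧ ∀ i, I i = X 2 ^ r * G i + X 1 * H i := by
  intro r
  induction r with
  | zero =>
    intro τ G hG h
    exact ⟨τ, G, fun _ => 0, hG, h, ker_zero, fun i => by rw [pow_zero]; ring⟩
  | succ r ih =>
    intro τ G hG h
    let c : ℂ := ((r : ℂ) + 1)⁻¹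
    have hc : c * ((r : ℂ) + 1) = 1 := inv_mul_cancel₀ (by exact_mod_cast Nat.succ_ne_zero r)
    let G' : Vec E.a 2 := fun i => X 2 * G i - C c * (X 1 * L.op G i)
    have hG' : HSec (triv E) (τ + (1, 0)) G' := by
      refine ⟨fun i => ?_, ker_sub (ker_mul hG.ker _)
        (ker_mul (ker_mul (L.op_ker hG.ker) (X 1)) (C c))⟩
      refine IsWeightedHomogeneous.sub ?_ ?_
      · have h1 := (isWeightedHomogeneous_X ℂ (tw (0 : Fin 3 → ℤ × ℤ)) 2).mul (hG.hom i)
        have e : (tw (0 : Fin 3 → ℤ × ℤ) 2) + ((E.β i, (triv E).b i) + τ : M) =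
            (E.β i, (triv E).b i) + (τ + (1, 0)) := by
          have : tw (0 : Fin 3 → ℤ × ℤ) 2 = (1, 0) := rfl
          rw [this]
          abel
        rwa [e] at h1
      · have h1 := (isWeightedHomogeneous_C (tw (0 : Fin 3 → ℤ × ℤ)) c).mul
          ((isWeightedHomogeneous_X ℂ (tw (0 : Fin 3 → ℤ × ℤ)) 1).mul ((L.op_hom hG).hom i))
        have e : 0 + ((tw (0 : Fin 3 → ℤ × ℤ) 1) + ((E.β i, (triv E).b i) + (τ + 0) : M)) =
            (E.β i, (triv E).b i) + (τ + (1, 0)) := by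
          have : tw (0 : Fin 3 → ℤ × ℤ) 1 = (1, 0) := rfl
          rw [this]
          abel
        rwa [e] at h1
    have hz : ∀ i, L.op^[r + 1] G' i = 0 := by
      intro i
      have iter_sub : ∀ (m : ℕ) (A B : Vec E.a 2), L.op^[m] (fun i => A i - B i) =
          fun i => L.op^[m] A i - L.op^[m] B i := by
        intro m
        induction m with
        | zero => intro A B; rfl
        | succ m ih =>
          intro A B
          rw [Function.iterate_succ_apply', ih, L.op_sub, Function.iterate_succ_apply',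
            Function.iterate_succ_apply']
      have iter_C : ∀ (m : ℕ) (A : Vec E.a 2), L.op^[m] (fun i => C c * A i) =
          fun i => C c * L.op^[m] A i := by
        intro m
        induction m with
        | zero => intro A; rfl
        | succ m ih =>
          intro A
          rw [Function.iterate_succ_apply', ih, L.op_mul, derivation_C,
            Function.iterate_succ_apply']
          funext i
          rw [zero_mul, zero_add]
      have e1 : L.op^[r + 1] G' i = X 2 * L.op^[r + 1] G i -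
          C c * (X 1 * L.op^[r + 1] (L.op G) i + C ((r : ℂ) + 1) * X 2 * L.op^[r] (L.op G) i) := by
        rw [show G' = fun i => (fun i => X 2 * G i) i - (fun i => C c * (X 1 * L.op G i)) i from rfl,
          iter_sub, iter_X2, iter_C, iter_X1]
      have e2 : L.op^[r + 1] (L.op G) i = 0 := by
        rw [← Function.iterate_succ_apply]
        exact h i
      have e3 : L.op^[r] (L.op G) i = L.op^[r + 1] G i := by
        rw [← Function.iterate_succ_apply]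
      rw [e1, e2, e3, mul_zero, zero_add]
      have e4 : (C c : MvPolynomial (Fin (2 + 1)) ℂ) * C ((r : ℂ) + 1) = 1 := by
        rw [← C_mul, hc, C_1]
      linear_combination (-(X 2 * L.op^[r + 1] G i)) * e4
    obtain ⟨τ', I, H, hI, hLI, hH, hIH⟩ := ih _ G' hG' hz
    refine ⟨τ', I, fun i => H i - X 2 ^ r * (C c * L.op G i), hI, hLI,
      ker_sub hH (ker_mul (ker_mul (L.op_ker hG.ker) (C c)) (X 2 ^ r)), fun i => ?_⟩
    rw [hIH i]
    simp only [G']
    ring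

namespace NA

variable {L : Lft (triv E) 0 δ3} {W : Wedge (triv E)} (A : NA L W)

include A

theorem OO_wd {G G' : Vec E.a 2} (hG : Ker E G) (hG' : Ker E G') : OO 1 (W.wd G (L.op G')) :=
  OO_one (eval_zero_of_wd W (e0_ne 2) hG (L.op_ker hG') (Or.inr (A.H0 G' hG')))

theorem OO_wd' {G G' : Vec E.a 2} (hG : Ker E G) (hG' : Ker E G') : OO 1 (W.wd (L.op G) G') :=
  OO_one (eval_zero_of_wd W (e0_ne 2) (L.op_ker hG) hG' (Or.inl (A.H0 G hG)))

/-- the lift raises the order. -/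
theorem raise {τ : M} {G : Vec E.a 2} (hG : HSec (triv E) τ G) {m : ℕ}
    (h1 : OO m (W.wd G A.G₁)) (h2 : OO m (W.wd G A.G₂)) :
    OO (m + 1) (W.wd (L.op G) A.G₁) ∧ OO (m + 1) (W.wd (L.op G) A.G₂) := by
  have k1 := A.h₁.ker
  have k2 := A.h₂.ker
  have l1 := L.op_ker k1
  have l2 := L.op_ker k2
  have kG := hG.ker
  constructor
  · have h3 : OO (m + 1) (W.wd G (L.op A.G₁)) := by
      apply OO_cancel A.hu
      have h4 := W.four A.G₁ A.G₂ G (L.op A.G₁) k1 k2 kG l1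
      have h5 : W.wd A.G₁ A.G₂ * W.wd G (L.op A.G₁) =
          W.wd G A.G₁ * -W.wd A.G₂ (L.op A.G₁) - W.wd G A.G₂ * -W.wd A.G₁ (L.op A.G₁) := by
        rw [W.anti A.G₁ G k1 kG, W.anti A.G₂ G k2 kG] at h4
        linear_combination h4
      rw [h5]
      exact OO_sub (OO_mul h1 (OO_neg (A.OO_wd k2 k1))) (OO_mul h2 (OO_neg (A.OO_wd k1 k1)))
    have h6 := A.tr G A.G₁ kG k1
    have h7 : W.wd (L.op G) A.G₁ = δ3 (W.wd G A.G₁) - W.wd G (L.op A.G₁) := by
      rw [← h6]; ring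
    rw [h7]
    exact OO_sub (OO_δ (W.hom _ _ _ _ hG A.h₁) h1) h3
  · have h3 : OO (m + 1) (W.wd G (L.op A.G₂)) := by
      apply OO_cancel A.hu
      have h4 := W.four A.G₁ A.G₂ G (L.op A.G₂) k1 k2 kG l2
      have h5 : W.wd A.G₁ A.G₂ * W.wd G (L.op A.G₂) =
          W.wd G A.G₁ * -W.wd A.G₂ (L.op A.G₂) - W.wd G A.G₂ * -W.wd A.G₁ (L.op A.G₂) := by
        rw [W.anti A.G₁ G k1 kG, W.anti A.G₂ G k2 kG] at h4
        linear_combination h4
      rw [h5]
      exact OO_sub (OO_mul h1 (OO_neg (A.OO_wd k2 k2))) (OO_mul h2 (OO_neg (A.OO_wd k1 k2)))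
    have h6 := A.tr G A.G₂ kG k2
    have h7 : W.wd (L.op G) A.G₂ = δ3 (W.wd G A.G₂) - W.wd G (L.op A.G₂) := by
      rw [← h6]; ring
    rw [h7]
    exact OO_sub (OO_δ (W.hom _ _ _ _ hG A.h₂) h2) h3

/-- the lift is locally nilpotent. -/
theorem nil {τ : M} {G : Vec E.a 2} (hG : HSec (triv E) τ G) :
    ∃ m, ∀ i, L.op^[m + 1] G i = 0 := by
  have h1 : ∀ m, OO m (W.wd (L.op^[m] G) A.G₁) ∧ OO m (W.wd (L.op^[m] G) A.G₂) := by
    intro m
    induction m with
    | zero => exact ⟨OO_zero _, OO_zero _⟩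
    | succ m ih =>
      rw [Function.iterate_succ_apply']
      exact A.raise (iter_hom L hG m) ih.1 ih.2
  obtain ⟨m, hm⟩ : ∃ m : ℕ, 2 * (τ + A.τ₁ + W.κ : M).1 < (m : ℤ) + 1 ∧
      2 * (τ + A.τ₂ + W.κ : M).1 < (m : ℤ) + 1 := by
    refine ⟨(max (2 * (τ + A.τ₁ + W.κ : M).1) (2 * (τ + A.τ₂ + W.κ : M).1)).toNat, ?_, ?_⟩
    · have := Int.self_le_toNat (max (2 * (τ + A.τ₁ + W.κ : M).1) (2 * (τ + A.τ₂ + W.κ : M).1))
      have h3 := le_max_left (2 * (τ + A.τ₁ + W.κ : M).1) (2 * (τ + A.τ₂ + W.κ : M).1)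
      omega
    · have := Int.self_le_toNat (max (2 * (τ + A.τ₁ + W.κ : M).1) (2 * (τ + A.τ₂ + W.κ : M).1))
      have h3 := le_max_right (2 * (τ + A.τ₁ + W.κ : M).1) (2 * (τ + A.τ₂ + W.κ : M).1)
      omega
  refine ⟨m, ?_⟩
  have hG' := iter_hom L hG (m + 1)
  have z1 : W.wd (L.op^[m + 1] G) A.G₁ = 0 :=
    OO_bound (W.hom _ _ _ _ hG' A.h₁) (m := m + 1) (by push_cast; exact hm.1) (h1 (m + 1)).1
  have z2 : W.wd (L.op^[m + 1] G) A.G₂ = 0 :=
    OO_bound (W.hom _ _ _ _ hG' A.h₂) (m := m + 1) (by push_cast; exact hm.2) (h1 (m + 1)).2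
  intro i
  have h3 := W.three A.G₁ A.G₂ (L.op^[m + 1] G) A.h₁.ker A.h₂.ker hG'.ker i
  rw [W.anti A.G₂ _ A.h₂.ker hG'.ker, W.anti A.G₁ _ A.h₁.ker hG'.ker, z1, z2, neg_zero, zero_mul,
    zero_mul, sub_zero, zero_add] at h3
  exact (mul_eq_zero.1 h3).resolve_left (fun h => A.hu (by rw [h, map_zero]))

/-- two independent invariant sections -/
theorem exists_two : ∃ (τ τ' : M) (s s' : Vec E.a 2), HSec (triv E) τ s ∧ HSec (triv E) τ' s' ∧
    (∀ i, L.op s i = 0) ∧ (∀ i, L.op s' i = 0) ∧ W.wd s s' ≠ 0 := by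
  obtain ⟨r, hr⟩ := A.nil A.h₁
  obtain ⟨r', hr'⟩ := A.nil A.h₂
  obtain ⟨τ, s, H, hs, hLs, hH, hsH⟩ := exists_inv L r _ _ A.h₁ hr
  obtain ⟨τ', s', H', hs', hLs', hH', hsH'⟩ := exists_inv L r' _ _ A.h₂ hr'
  refine ⟨τ, τ', s, s', hs, hs', hLs, hLs', fun h0 => ?_⟩
  have k1 := A.h₁.ker
  have k2 := A.h₂.ker
  have e1 : s = fun i => X 2 ^ r * A.G₁ i + X 1 * H i := funext hsH
  have e2 : s' = fun i => X 2 ^ r' * A.G₂ i + X 1 * H' i := funext hsH'
  have h1 : W.wd s s' = X 2 ^ r * (X 2 ^ r' * W.wd A.G₁ A.G₂) +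
      X 1 * (X 2 ^ r * W.wd A.G₁ H' + W.wd H s') := by
    have a1 : W.wd s s' = X 2 ^ r * W.wd A.G₁ s' + X 1 * W.wd H s' := by
      rw [e1, wd_add_left W (ker_mul k1 _) (ker_mul hH _) hs'.ker, W.smul _ _ _ k1 hs'.ker,
        W.smul _ _ _ hH hs'.ker]
    have a2 : W.wd A.G₁ s' = X 2 ^ r' * W.wd A.G₁ A.G₂ + X 1 * W.wd A.G₁ H' := by
      rw [e2, wd_add_right W (ker_mul k2 _) (ker_mul hH' _) k1, wd_mul_right W k2 k1,
        wd_mul_right W hH' k1]
    rw [a1, a2]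
    ring
  rw [h0] at h1
  have hX : Prime (X 1 : MvPolynomial (Fin (2 + 1)) ℂ) := X_prime
  have hX12 : ¬ (X 1 : MvPolynomial (Fin (2 + 1)) ℂ) ∣ X 2 := by
    rw [X_dvd_X]
    decide
  have h2 : (X 1 : MvPolynomial (Fin (2 + 1)) ℂ) ∣ X 2 ^ r * (X 2 ^ r' * W.wd A.G₁ A.G₂) := by
    refine ⟨-(X 2 ^ r * W.wd A.G₁ H' + W.wd H s'), ?_⟩
    linear_combination -h1
  rcases hX.dvd_or_dvd h2 with h3 | h3
  · exact hX12 (hX.dvd_of_dvd_pow h3)
  rcases hX.dvd_or_dvd h3 with h4 | ⟨q, h4⟩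
  · exact hX12 (hX.dvd_of_dvd_pow h4)
  · apply A.hu
    rw [h4, map_mul, eval_X, Pi.single_eq_of_ne (by decide), zero_mul]

end NA

end Pool.Agent.W615
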