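import Pool.Agent.W615.NA2
import Pool.Agent.W615.Elation5

/-!
# Regular unipotent groups of the plane: a basis of the invariants (helper615)
-/

set_option autoImplicit false
set_option maxHeartbeats 400000

open MvPolynomial H960VB H938TB

namespace Pool.Agent.W615

/-- the stable conics -/
noncomputable def conic (c : ℂ) : MvPolynomial (Fin (2 + 1)) ℂ :=
  X 1 ^ 2 - 2 * X 0 * X 2 - C c * X 2 ^ 2

theorem eval_conic (c : ℂ) (x : Fin 3 → ℂ) :
    eval x (conic c) = x 1 ^ 2 - 2 * x 0 * x 2 - c * x 2 ^ 2 := by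
  unfold conic
  rw [map_sub, map_sub, map_mul, map_mul, map_mul, map_pow, map_pow, eval_X, eval_X, eval_X,
    eval_C, map_ofNat]

theorem δ3_conic (c : ℂ) : δ3 (conic c) = 0 := by
  have d0 : δ3 (X 0) = X 1 := mkDerivation_X _ _ _
  have d1 : δ3 (X 1) = X 2 := mkDerivation_X _ _ _
  have d2 : δ3 (X 2) = 0 := mkDerivation_X _ _ _
  have dC : ∀ c : ℂ, δ3 (C c) = 0 := fun c => derivation_C _ _
  have d20 : δ3 (2 : MvPolynomial (Fin (2 + 1)) ℂ) = 0 := by
    rw [show (2 : MvPolynomial (Fin (2 + 1)) ℂ) = C 2 by rw [map_ofNat], dC]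
  unfold conic
  rw [map_sub, map_sub, Derivation.leibniz_pow, Derivation.leibniz, Derivation.leibniz,
    Derivation.leibniz, Derivation.leibniz_pow, d0, d1, d2, dC, d20]
  simp
  ring

theorem conic_hom (c : ℂ) : IsWeightedHomogeneous (tw (0 : Fin 3 → ℤ × ℤ)) (conic c) (2, 0) := by
  have hX : ∀ i : Fin 3, IsWeightedHomogeneous (tw (0 : Fin 3 → ℤ × ℤ))
      (X i : MvPolynomial (Fin (2 + 1)) ℂ) (1, 0) := fun i => isWeightedHomogeneous_X _ _ _
  have h2 : ∀ i : Fin 3, IsWeightedHomogeneous (tw (0 : Fin 3 → ℤ × ℤ))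
      (X i ^ 2 : MvPolynomial (Fin (2 + 1)) ℂ) (2, 0) := by
    intro i
    have h := (hX i).pow 2
    exact h
  have h02 : IsWeightedHomogeneous (tw (0 : Fin 3 → ℤ × ℤ))
      (2 * X 0 * X 2 : MvPolynomial (Fin (2 + 1)) ℂ) (2, 0) := by
    have h := ((isWeightedHomogeneous_C (tw (0 : Fin 3 → ℤ × ℤ)) (2 : ℂ)).mul (hX 0)).mul (hX 2)
    have e : (C (2 : ℂ) : MvPolynomial (Fin (2 + 1)) ℂ) = 2 := by rw [map_ofNat]
    rw [e] at h
    exact h
  refine ((h2 1).sub h02).sub ?_
  have h := (isWeightedHomogeneous_C (tw (0 : Fin 3 → ℤ × ℤ)) c).mul (h2 2)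
  rw [zero_add] at h
  exact h

theorem conic_ne (c : ℂ) : conic c ≠ 0 := by
  intro h
  have h1 := eval_conic c ![0, 1, 0]
  rw [h, map_zero] at h1
  simp at h1

theorem not_conic_dvd_X2 (c : ℂ) : ¬ conic c ∣ X 2 := by
  rintro ⟨g, hg⟩
  have h1 := congrArg (eval (![-c / 2, 0, 1] : Fin 3 → ℂ)) hg
  rw [map_mul, eval_conic, eval_X] at h1
  simp at h1
  have h2 : -(2 * (-c / 2)) - c = 0 := by ring
  rw [h2, zero_mul] at h1
  exact one_ne_zero h1

/-- the conics are prime. -/
theorem conic_prime (c : ℂ) : Prime (conic c) := by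
  have hirr : Irreducible (conic c) := by
    have key : ∀ a b : MvPolynomial (Fin (2 + 1)) ℂ, conic c = a * b → degreeOf 0 a = 0 →
        IsUnit a := by
      intro a b hab ha
      have h1 : pderiv 0 a = 0 := by
        rw [pderiv_eq_zero_of_notMem_vars]
        intro h
        rw [mem_vars] at h
        obtain ⟨d, hd, h0⟩ := h
        have := monomial_le_degreeOf 0 hd
        rw [Finsupp.mem_support_iff] at h0
        exact h0 (by omega)
      have h2 := congrArg (pderiv 0) hab
      have e1 : pderiv 0 (conic c) = -(2 * X 2) := by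
        unfold conic
        simp only [map_sub, Derivation.leibniz, Derivation.leibniz_pow, pderiv_C, smul_eq_mul]
        have h01 : pderiv 0 (X 1 : MvPolynomial (Fin (2 + 1)) ℂ) = 0 := pderiv_X_of_ne (by decide)
        have h02 : pderiv 0 (X 2 : MvPolynomial (Fin (2 + 1)) ℂ) = 0 := pderiv_X_of_ne (by decide)
        have h00 : pderiv 0 (X 0 : MvPolynomial (Fin (2 + 1)) ℂ) = 1 := pderiv_X_self _
        have h2' : pderiv 0 (2 : MvPolynomial (Fin (2 + 1)) ℂ) = 0 := by
          rw [show (2 : MvPolynomial (Fin (2 + 1)) ℂ) = C 2 by rw [map_ofNat], pderiv_C]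
        rw [h01, h02, h00, h2']
        simp
        ring
      rw [e1, Derivation.leibniz, h1, smul_zero, add_zero, smul_eq_mul] at h2
      have h3 : a ∣ X 2 := by
        have h4 : a ∣ 2 * X 2 := ⟨-pderiv 0 b, by linear_combination -h2⟩
        have h5 : IsUnit (2 : MvPolynomial (Fin (2 + 1)) ℂ) := by
          rw [show (2 : MvPolynomial (Fin (2 + 1)) ℂ) = C 2 by rw [map_ofNat]]
          exact (isUnit_iff_ne_zero.2 (by norm_num)).map C
        exact (h5.dvd_mul_left).1 h4
      obtain ⟨g, hg⟩ := h3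
      have hXirr : Irreducible (X 2 : MvPolynomial (Fin (2 + 1)) ℂ) := X_prime.irreducible
      rcases hXirr.isUnit_or_isUnit hg with h4 | h4
      · exact h4
      · exfalso
        obtain ⟨v, hv⟩ := h4
        have h5 : (X 2 : MvPolynomial (Fin (2 + 1)) ℂ) ∣ a := by
          refine ⟨↑v⁻¹, ?_⟩
          rw [hg, ← hv, mul_assoc, Units.mul_inv, mul_one]
        have h6 : (X 2 : MvPolynomial (Fin (2 + 1)) ℂ) ∣ conic c := h5.trans ⟨b, hab⟩
        obtain ⟨g', hg'⟩ := h6
        have h7 := congrArg (eval (![0, 1, 0] : Fin 3 → ℂ)) hg'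
        rw [eval_conic, map_mul, eval_X] at h7
        simp at h7
    constructor
    · intro hu
      obtain ⟨r, hr, h1⟩ := (isUnit_iff_eq_C_of_isReduced).1 hu
      have h2 := congrArg (eval (![0, 1, 0] : Fin 3 → ℂ)) h1
      have h3 := congrArg (eval (![0, 0, 0] : Fin 3 → ℂ)) h1
      rw [eval_conic, eval_C] at h2 h3
      simp at h2 h3
      rw [← h3] at h2
      exact one_ne_zero h2
    · intro a b hab
      have ha : a ≠ 0 := fun h => conic_ne c (by rw [hab, h, zero_mul])
      have hb : b ≠ 0 := fun h => conic_ne c (by rw [hab, h, mul_zero])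
      have h1 : degreeOf 0 a + degreeOf 0 b = degreeOf 0 (conic c) := by
        rw [hab, degreeOf_mul_eq ha hb]
      have h2 : degreeOf 0 (conic c) ≤ 1 := by
        unfold conic
        refine (degreeOf_sub_le _ _ _).trans (max_le ((degreeOf_sub_le _ _ _).trans
          (max_le ?_ ?_)) ?_)
        · refine (degreeOf_pow_le _ _ _).trans ?_
          rw [degreeOf_X, if_neg (by decide)]
          norm_num
        · refine (degreeOf_mul_le _ _ _).trans ?_
          rw [degreeOf_X, if_neg (by decide), add_zero]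
          refine (degreeOf_mul_le _ _ _).trans ?_
          rw [degreeOf_X, if_pos rfl]
          rw [show (2 : MvPolynomial (Fin (2 + 1)) ℂ) = C 2 by rw [map_ofNat], degreeOf_C]
        · refine (degreeOf_mul_le _ _ _).trans ?_
          rw [degreeOf_C, zero_add]
          refine (degreeOf_pow_le _ _ _).trans ?_
          rw [degreeOf_X, if_neg (by decide)]
          norm_num
      rcases Nat.eq_zero_or_pos (degreeOf 0 a) with h3 | h3
      · exact Or.inl (key a b hab h3)
      · exact Or.inr (key b a (by rw [hab, mul_comm]) (by omega))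
  exact hirr.prime

/-- the flow -/
theorem eval_fl (x : Fin 3 → ℂ) (s : ℂ) (p : MvPolynomial (Fin (2 + 1)) ℂ) :
    Polynomial.eval s (fl x p) =
      eval (![x 0 + x 1 * s + x 2 / 2 * s ^ 2, x 1 + x 2 * s, x 2] : Fin 3 → ℂ) p := by
  induction p using MvPolynomial.induction_on with
  | C a => simp [fl]
  | add p q hp hq => rw [map_add, Polynomial.eval_add, hp, hq, map_add]
  | mul_X p i hp =>
    rw [map_mul, Polynomial.eval_mul, hp, map_mul, eval_X, fl_X]
    congr 1
    fin_cases i <;> simp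

variable {E : Bundle2 2}

/-- an invariant section vanishing at a point vanishes on its orbit. -/
theorem inv_orbit (L : Lft (triv E) 0 δ3) {s : Vec E.a 2} (hs : ∀ i, L.op s i = 0)
    {x : Fin 3 → ℂ} (h0 : evv s x = 0) (t : ℂ) :
    evv s (![x 0 + x 1 * t + x 2 / 2 * t ^ 2, x 1 + x 2 * t, x 2] : Fin 3 → ℂ) = 0 := by
  let J : Set (MvPolynomial (Fin (2 + 1)) ℂ) :=
    {u | ∃ c : Fin E.a → MvPolynomial (Fin (2 + 1)) ℂ, u = ∑ i, c i * s i}
  have hδ : ∀ i, δ3 (s i) = - ∑ j, L.ν i j * s j := by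
    intro i
    have := hs i
    simp only [Lft.op] at this
    linear_combination this
  have hJ : ∀ u ∈ J, δ3 u ∈ J := by
    rintro u ⟨c, rfl⟩
    refine ⟨fun j => δ3 (c j) - ∑ i, c i * L.ν i j, ?_⟩
    rw [map_sum]
    have h1 : ∀ i, δ3 (c i * s i) = δ3 (c i) * s i - ∑ j, c i * L.ν i j * s j := by
      intro i
      rw [Derivation.leibniz, hδ, smul_eq_mul, smul_eq_mul, mul_neg, Finset.mul_sum]
      have h2 : ∑ j, c i * (L.ν i j * s j) = ∑ j, c i * L.ν i j * s j :=
        Finset.sum_congr rfl fun j _ => by ring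
      rw [h2]
      ring
    simp_rw [h1]
    rw [Finset.sum_sub_distrib, Finset.sum_comm]
    simp_rw [sub_mul, Finset.sum_mul]
    rw [Finset.sum_sub_distrib]
  funext i
  have h1 := stable_zero δ3 (fl x) (fl_deriv x) J hJ (by
    rintro u ⟨c, rfl⟩
    rw [fl_coeff_zero, map_sum]
    refine Finset.sum_eq_zero fun i _ => ?_
    have h2 : eval x (s i) = 0 := congrFun h0 i
    rw [map_mul, h2, mul_zero]) (s i) ⟨fun j => if j = i then 1 else 0, by simp⟩
  show eval _ (s i) = 0
  rw [← eval_fl, h1, Polynomial.eval_zero]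

/-- an invariant section vanishing at a point is divisible by the equation of the conic. -/
theorem inv_conic (L : Lft (triv E) 0 δ3) {τ : M} {s : Vec E.a 2} (hs : HSec (triv E) τ s)
    (hLs : ∀ i, L.op s i = 0) {q : Fin 3 → ℂ} (hq : q 2 ≠ 0) (h0 : evv s q = 0) :
    ∃ s' : Vec E.a 2, HSec (triv E) (τ - (2, 0)) s' ∧ (∀ i, L.op s' i = 0) ∧
      ∀ i, s i = conic ((q 1 ^ 2 - 2 * q 0 * q 2) / q 2 ^ 2) * s' i := by
  obtain ⟨c, hc⟩ : ∃ c, c = (q 1 ^ 2 - 2 * q 0 * q 2) / q 2 ^ 2 := ⟨_, rfl⟩
  have hcq : c * q 2 ^ 2 = q 1 ^ 2 - 2 * q 0 * q 2 := by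
    rw [hc]
    exact div_mul_cancel₀ _ (pow_ne_zero 2 hq)
  rw [← hc]
  have h1 : ∀ i, ∃ g, s i = conic c * g := by
    intro i
    have h2 : conic c ∣ X 2 * s i := by
      refine dvd_of_vanish (conic_prime c) fun x hx => ?_
      rw [map_mul, eval_X]
      by_cases hx2 : x 2 = 0
      · rw [show x (2 : Fin 3) = 0 from hx2, zero_mul]
      · have hx' := eval_conic c x
        rw [show eval x (conic c) = 0 from hx] at hx'
        have h3 := inv_orbit L hLs h0 ((x 1 * q 2 / x 2 - q 1) / q 2)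
        have h4 := eval_smul_of (hs.hom i) (x 2 / q 2) _ (congrFun h3 i)
        have h5 : (x 2 / q 2) • (![q 0 + q 1 * ((x 1 * q 2 / x 2 - q 1) / q 2) +
            q 2 / 2 * ((x 1 * q 2 / x 2 - q 1) / q 2) ^ 2,
            q 1 + q 2 * ((x 1 * q 2 / x 2 - q 1) / q 2), q 2] : Fin 3 → ℂ) = x := by
          have hx0 : 2 * x 0 * x 2 = x 1 ^ 2 - c * x 2 ^ 2 := by linear_combination hx'
          have hq0 : 2 * q 0 * q 2 = q 1 ^ 2 - c * q 2 ^ 2 := by linear_combination hcq
          funext j
          fin_cases j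
          · show (x 2 / q 2) * (q 0 + q 1 * ((x 1 * q 2 / x 2 - q 1) / q 2) +
              q 2 / 2 * ((x 1 * q 2 / x 2 - q 1) / q 2) ^ 2) = x 0
            have e1 : x 0 = (x 1 ^ 2 - c * x 2 ^ 2) / (2 * x 2) := by
              rw [eq_div_iff (by simpa using hx2)]
              linear_combination hx0
            have e2 : q 0 = (q 1 ^ 2 - c * q 2 ^ 2) / (2 * q 2) := by
              rw [eq_div_iff (by simpa using hq)]
              linear_combination hq0
            rw [e1, e2]
            field_simp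
            ring
          · show (x 2 / q 2) * (q 1 + q 2 * ((x 1 * q 2 / x 2 - q 1) / q 2)) = x 1
            field_simp
            ring
          · show (x 2 / q 2) * q 2 = x 2
            exact div_mul_cancel₀ _ hq
        rw [h5] at h4
        rw [h4, mul_zero]
    rcases (conic_prime c).dvd_or_dvd h2 with h3 | h3
    · exact absurd h3 (not_conic_dvd_X2 c)
    · exact h3
  choose s' hs' using h1
  have hk : Ker E s' := by
    apply ker_of_mul (conic_ne c)
    have h2 : (fun i => conic c * s' i) = s := funext fun i => (hs' i).symm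
    rw [h2]
    exact hs.ker
  refine ⟨s', ⟨fun i => ?_, hk⟩, fun i => ?_, hs'⟩
  · have h2 := hs.hom i
    rw [hs' i] at h2
    have h3 := wh_div (conic_ne c) (conic_hom c) h2
    have e : ((E.β i, (triv E).b i) + τ - (2, 0) : M) = (E.β i, (triv E).b i) + (τ - (2, 0)) := by
      abel
    rwa [e] at h3
  · have h2 := hLs i
    have h3 : L.op s i = δ3 (conic c) * s' i + conic c * L.op s' i := by
      rw [show s = fun i => conic c * s' i from funext hs', L.op_mul]
    rw [h3, δ3_conic, zero_mul, zero_add] at h2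
    exact (mul_eq_zero.1 h2).resolve_left (conic_ne c)

end Pool.Agent.W615
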