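import Pool.Agent.W615.NA3
import Pool.Agent.W615.LOne

/-!
# Regular unipotent groups of the plane: minimal pairs of invariant sections (helper615)
-/

set_option autoImplicit false
set_option maxHeartbeats 400000

open MvPolynomial H960VB H938TB

namespace Pool.Agent.W615

/-- a polynomial vanishing only on a coordinate hyperplane -/
theorem eq_pow_of_zeros {N : ℕ} (j : Fin N) {p : MvPolynomial (Fin N) ℂ} (hp : p ≠ 0)
    (h : ∀ x : Fin N → ℂ, x j ≠ 0 → eval x p ≠ 0) :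
    ∃ (c : ℂ) (n : ℕ), c ≠ 0 ∧ p = C c * X j ^ n := by
  obtain ⟨n, a, ha, hpa⟩ := WfDvdMonoid.max_power_factor hp
    (X_prime (i := j) (R := ℂ) (σ := Fin N)).irreducible
  by_cases hu : IsUnit a
  · obtain ⟨r, hr, h1⟩ := (isUnit_iff_eq_C_of_isReduced).1 hu
    exact ⟨r, n, hr.ne_zero, by rw [hpa, h1, mul_comm]⟩
  · exfalso
    have ha0 : a ≠ 0 := fun h0 => ha (by rw [h0]; exact dvd_zero _)
    obtain ⟨π, hπ, hπa⟩ := WfDvdMonoid.exists_irreducible_factor hu ha0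
    have h1 : π ∣ X j := by
      refine dvd_of_vanish hπ.prime fun x hx => ?_
      rw [eval_X]
      by_contra hne
      apply h x hne
      obtain ⟨b, hb⟩ := hπa
      rw [hpa, hb, map_mul, map_mul, hx, zero_mul, mul_zero]
    have h2 : Associated π (X j) :=
      hπ.associated_of_dvd (X_prime (i := j) (R := ℂ) (σ := Fin N)).irreducible h1
    exact ha (h2.symm.dvd.trans hπa)

theorem hsec_triv {n : ℕ} {E : Bundle2 n} {τ : M} {G : Vec E.a n} (hG : HSec (triv E) τ G) :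
    HSec (triv E) (τ.1, 0) G where
  hom := by
    intro i
    have h1 := wh_triv (homZ_of (hG.hom i))
    convert h1 using 1
    simp [triv]
  ker := hG.ker

variable {E : Bundle2 2} (L : Lft (triv E) 0 δ3) (W : Wedge (triv E))

/-- a minimal pair of invariant sections -/
structure MP where
  d₁ : ℤ
  d₂ : ℤ
  s₁ : Vec E.a 2
  s₂ : Vec E.a 2
  h₁ : HSec (triv E) (d₁, 0) s₁
  h₂ : HSec (triv E) (d₂, 0) s₂
  l₁ : ∀ i, L.op s₁ i = 0
  l₂ : ∀ i, L.op s₂ i = 0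
  ne : W.wd s₁ s₂ ≠ 0
  le : d₁ ≤ d₂
  min : ∀ (d d' : ℤ) (s s' : Vec E.a 2), HSec (triv E) (d, 0) s → HSec (triv E) (d', 0) s' →
    (∀ i, L.op s i = 0) → (∀ i, L.op s' i = 0) → W.wd s s' ≠ 0 → d₁ + d₂ ≤ d + d'

variable {L W}

theorem NA.exists_MP (A : NA L W) : Nonempty (MP L W) := by
  obtain ⟨d, ⟨a, b, s, s', hs, hs', l, l', hne, hd⟩, hmin⟩ := Int.exists_least_of_bdd
    (P := fun e => ∃ (a b : ℤ) (s s' : Vec E.a 2), HSec (triv E) (a, 0) s ∧
      HSec (triv E) (b, 0) s' ∧ (∀ i, L.op s i = 0) ∧ (∀ i, L.op s' i = 0) ∧ W.wd s s' ≠ 0 ∧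
      a + b = e)
    (by
      refine ⟨-W.κ.1, ?_⟩
      rintro z ⟨a, b, s, s', hs, hs', l, l', hne, rfl⟩
      have h1 := degree_nonneg (W.hom _ _ _ _ hs hs') hne
      have h2 : ((a, 0) + (b, 0) + W.κ : M).1 = a + b + W.κ.1 := rfl
      rw [h2] at h1
      linarith)
    (by
      obtain ⟨τ, τ', s, s', hs, hs', l, l', hne⟩ := A.exists_two
      exact ⟨τ.1 + τ'.1, τ.1, τ'.1, s, s', hsec_triv hs, hsec_triv hs', l, l', hne, rfl⟩)
  have hmin' : ∀ (a' b' : ℤ) (s s' : Vec E.a 2), HSec (triv E) (a', 0) s →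
      HSec (triv E) (b', 0) s' →
      (∀ i, L.op s i = 0) → (∀ i, L.op s' i = 0) → W.wd s s' ≠ 0 → d ≤ a' + b' :=
    fun a' b' s s' hs hs' l l' hne => hmin _ ⟨a', b', s, s', hs, hs', l, l', hne, rfl⟩
  rcases le_total a b with h | h
  · exact ⟨⟨a, b, s, s', hs, hs', l, l', hne, h, fun a' b' t t' ht ht' m m' hn => by
      rw [hd]
      exact hmin' a' b' t t' ht ht' m m' hn⟩⟩
  · refine ⟨⟨b, a, s', s, hs', hs, l', l, ?_, h, fun a' b' t t' ht ht' m m' hn => by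
      rw [add_comm, hd]
      exact hmin' a' b' t t' ht ht' m m' hn⟩⟩
    rw [W.anti s' s hs'.ker hs.ker]
    exact neg_ne_zero.2 hne

theorem hsec_add {n : ℕ} {w : Fin (n + 1) → ℤ × ℤ} {E : Bundle2 n} {D : EqB E w} {τ : M}
    {G H : Vec E.a n} (hG : HSec D τ G) (hH : HSec D τ H) : HSec D τ (fun i => G i + H i) :=
  ⟨fun i => (hG.hom i).add (hH.hom i), ker_add hG.ker hH.ker⟩

theorem hsec_sub {n : ℕ} {w : Fin (n + 1) → ℤ × ℤ} {E : Bundle2 n} {D : EqB E w} {τ : M}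
    {G H : Vec E.a n} (hG : HSec D τ G) (hH : HSec D τ H) : HSec D τ (fun i => G i - H i) :=
  ⟨fun i => (hG.hom i).sub (hH.hom i), ker_sub hG.ker hH.ker⟩

theorem hsec_mul {n : ℕ} {w : Fin (n + 1) → ℤ × ℤ} {E : Bundle2 n} {D : EqB E w} {τ σ τ' : M}
    {G : Vec E.a n} {p : MvPolynomial (Fin (n + 1)) ℂ} (hp : IsWeightedHomogeneous (tw w) p σ)
    (hG : HSec D τ G) (h : τ' = σ + τ) : HSec D τ' (fun i => p * G i) := by
  refine ⟨fun i => ?_, ker_mul hG.ker p⟩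
  have h1 := hp.mul (hG.hom i)
  have e : σ + ((E.β i, D.b i) + τ : M) = (E.β i, D.b i) + τ' := by
    rw [h]
    abel
  rwa [e] at h1

theorem wh_pow {n : ℕ} (j : Fin (n + 1)) (d : ℕ) :
    IsWeightedHomogeneous (tw (0 : Fin (n + 1) → ℤ × ℤ))
      (X j ^ d : MvPolynomial (Fin (n + 1)) ℂ) ((d : ℤ), 0) := by
  have h := (isWeightedHomogeneous_X ℂ (tw (0 : Fin (n + 1) → ℤ × ℤ)) j).pow d
  have e : d • tw (0 : Fin (n + 1) → ℤ × ℤ) j = ((d : ℤ), 0) := by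
    show d • ((1, 0) : M) = _
    rw [Prod.smul_mk, smul_zero]
    simp
  rwa [e] at h

theorem wh_C {n : ℕ} (c : ℂ) : IsWeightedHomogeneous (tw (0 : Fin (n + 1) → ℤ × ℤ))
    (C c : MvPolynomial (Fin (n + 1)) ℂ) 0 := isWeightedHomogeneous_C _ _

theorem op_mul_at {n : ℕ} {w : Fin (n + 1) → ℤ × ℤ} {E : Bundle2 n} {D : EqB E w} {ω : M}
    {δ : Der n} (L : Lft D ω δ) {p : MvPolynomial (Fin (n + 1)) ℂ} {G H : Vec E.a n}
    (h : ∀ i, G i = p * H i) (i : Fin E.a) : L.op G i = δ p * H i + p * L.op H i := by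
  rw [show G = fun i => p * H i from funext h]
  exact congrFun (L.op_mul p H) i

theorem op_inv_mul {p : MvPolynomial (Fin (2 + 1)) ℂ} (hp : δ3 p = 0) {s : Vec E.a 2}
    (hs : ∀ i, L.op s i = 0) (i : Fin E.a) : L.op (fun i => p * s i) i = 0 := by
  rw [op_mul_at L (fun _ => rfl), hp, zero_mul, zero_add, hs, mul_zero]

theorem op_inv_add {s s' : Vec E.a 2} (hs : ∀ i, L.op s i = 0) (hs' : ∀ i, L.op s' i = 0)
    (i : Fin E.a) : L.op (fun i => s i + s' i) i = 0 := by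
  refine (congrFun (L.op_add s s') i).trans ?_
  show L.op s i + L.op s' i = 0
  rw [hs, hs', add_zero]

theorem op_inv_sub {s s' : Vec E.a 2} (hs : ∀ i, L.op s i = 0) (hs' : ∀ i, L.op s' i = 0)
    (i : Fin E.a) : L.op (fun i => s i - s' i) i = 0 := by
  refine (congrFun (L.op_sub s s') i).trans ?_
  show L.op s i - L.op s' i = 0
  rw [hs, hs', sub_zero]

theorem δ3_C (c : ℂ) : δ3 (C c) = 0 := derivation_C _ _

theorem δ3_X2 : δ3 (X 2) = 0 := mkDerivation_X _ _ _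

theorem δ3_X2_pow (d : ℕ) : δ3 (X 2 ^ d) = 0 := by
  rw [Derivation.leibniz_pow, δ3_X2, smul_zero, smul_zero]

theorem δ3_CX2 (c : ℂ) (d : ℕ) : δ3 (C c * X 2 ^ d) = 0 := by
  rw [Derivation.leibniz, δ3_X2_pow, δ3_C, smul_zero, smul_zero, add_zero]

namespace MP

variable (m : MP L W)

include m

/-- the two sections are independent off the invariant line. -/
theorem indep {q : Fin 3 → ℂ} (hq : q 2 ≠ 0) : eval q (W.wd m.s₁ m.s₂) ≠ 0 := by
  intro h0
  have hq0 : q ≠ 0 := fun h => hq (by rw [h]; rfl)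
  have k1 := m.h₁.ker
  have k2 := m.h₂.ker
  have h1 : ¬ LinearIndependent ℂ ![evv m.s₁ q, evv m.s₂ q] := fun h =>
    (W.ind q hq0 m.s₁ m.s₂ k1 k2).2 h h0
  rw [LinearIndependent.pair_iff] at h1
  push Not at h1
  obtain ⟨c₁, c₂, h2, h3⟩ := h1
  by_cases hc : c₂ = 0
  · have hc1 : c₁ ≠ 0 := fun h => h3 h hc
    rw [hc, zero_smul, add_zero] at h2
    have h4 : evv m.s₁ q = 0 := (smul_eq_zero.1 h2).resolve_left hc1
    obtain ⟨s', hs', ls', hss⟩ := inv_conic L m.h₁ m.l₁ hq h4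
    have h5 := m.min _ _ s' m.s₂ (hsec_triv hs') m.h₂ ls' m.l₂ (by
      intro h6
      apply m.ne
      rw [wd_of_mul_left W hs'.ker k2 hss, h6, mul_zero])
    have h6 : ((m.d₁, 0) - (2, 0) : M).1 = m.d₁ - 2 := rfl
    rw [h6] at h5
    omega
  · obtain ⟨d, hd⟩ : ∃ d : ℕ, m.d₂ = m.d₁ + d := by
      have := m.le
      exact ⟨(m.d₂ - m.d₁).toNat, by omega⟩
    have hqd : q 2 ^ d ≠ 0 := pow_ne_zero _ hq
    let t : Vec E.a 2 := fun i => (fun i => (C (c₁ / q 2 ^ d) * X 2 ^ d) * m.s₁ i) i +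
      (fun i => C c₂ * m.s₂ i) i
    have ht : HSec (triv E) (m.d₂, 0) t := by
      apply hsec_add
      · refine hsec_mul ((wh_C _).mul (wh_pow 2 d)) m.h₁ ?_
        rw [hd, zero_add]
        ext
        · show m.d₁ + d = d + m.d₁
          ring
        · rfl
        · rfl
      · exact hsec_mul (wh_C _) m.h₂ (zero_add _).symm
    have lt : ∀ i, L.op t i = 0 :=
      op_inv_add (op_inv_mul (δ3_CX2 _ _) m.l₁) (op_inv_mul (δ3_C _) m.l₂)
    have h4 : evv t q = 0 := by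
      funext i
      have h5 := congrFun h2 i
      have h6 : c₁ * eval q (m.s₁ i) + c₂ * eval q (m.s₂ i) = 0 := h5
      show eval q (C (c₁ / q 2 ^ d) * X 2 ^ d * m.s₁ i + C c₂ * m.s₂ i) = 0
      rw [map_add, map_mul, map_mul, map_mul, map_pow, eval_C, eval_C, eval_X,
        div_mul_cancel₀ _ hqd, h6]
    have hw : W.wd m.s₁ t = C c₂ * W.wd m.s₁ m.s₂ := by
      rw [show t = fun i => (fun i => (C (c₁ / q 2 ^ d) * X 2 ^ d) * m.s₁ i) i +
        (fun i => C c₂ * m.s₂ i) i from rfl, wd_add_right W (ker_mul k1 _) (ker_mul k2 _) k1,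
        wd_mul_right W k1 k1, wd_mul_right W k2 k1, wd_self W k1, mul_zero, zero_add]
    obtain ⟨s', hs', ls', hss⟩ := inv_conic L ht lt hq h4
    have h5 := m.min _ _ m.s₁ s' m.h₁ (hsec_triv hs') m.l₁ ls' (by
      intro h6
      have h7 := wd_of_mul_right W hs'.ker k1 hss
      rw [h6, mul_zero, hw] at h7
      rcases mul_eq_zero.1 h7 with h8 | h8
      · exact hc (C_eq_zero.1 h8)
      · exact m.ne h8)
    have h6 : ((m.d₂, 0) - (2, 0) : M).1 = m.d₂ - 2 := rfl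
    rw [h6] at h5
    omega

theorem exists_pow : ∃ (c : ℂ) (n : ℕ), c ≠ 0 ∧ W.wd m.s₁ m.s₂ = C c * X 2 ^ n :=
  eq_pow_of_zeros 2 m.ne fun _ hq => m.indep hq

/-- divisions by the equation of the line are impossible. -/
theorem not_div₁ {s' : Vec E.a 2} (k : Ker E s') (h : ∀ i, m.s₁ i = X 2 * s' i) : False := by
  have hs' := sec_div (j := (2 : Fin (2 + 1))) m.h₁ h
  have ls' : ∀ i, L.op s' i = 0 := by
    intro i
    have h1 := m.l₁ i
    rw [op_mul_at L h, δ3_X2, zero_mul, zero_add] at h1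
    exact (mul_eq_zero.1 h1).resolve_left (X_ne_zero _)
  have h5 := m.min _ _ s' m.s₂ (hsec_triv hs') m.h₂ ls' m.l₂ (by
    intro h6
    apply m.ne
    rw [wd_of_mul_left W hs'.ker m.h₂.ker h, h6, mul_zero])
  have h6 : ((m.d₁, 0) - tw (0 : Fin (2 + 1) → ℤ × ℤ) 2 : M).1 = m.d₁ - 1 := rfl
  rw [h6] at h5
  omega

theorem not_div₂ {t s' : Vec E.a 2} (ht : HSec (triv E) (m.d₂, 0) t) (lt : ∀ i, L.op t i = 0)
    (hw : W.wd m.s₁ t ≠ 0) (h : ∀ i, t i = X 2 * s' i) : False := by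
  have hs' := sec_div (j := (2 : Fin (2 + 1))) ht h
  have ls' : ∀ i, L.op s' i = 0 := by
    intro i
    have h1 := lt i
    rw [op_mul_at L h, δ3_X2, zero_mul, zero_add] at h1
    exact (mul_eq_zero.1 h1).resolve_left (X_ne_zero _)
  have h5 := m.min _ _ m.s₁ s' m.h₁ (hsec_triv hs') m.l₁ ls' (by
    intro h6
    apply hw
    rw [wd_of_mul_right W hs'.ker m.h₁.ker h, h6, mul_zero])
  have h6 : ((m.d₂, 0) - tw (0 : Fin (2 + 1) → ℤ × ℤ) 2 : M).1 = m.d₂ - 1 := rfl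
  rw [h6] at h5
  omega

end MP

end Pool.Agent.W615
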