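import Pool.Agent.W615.NA4

/-!
# Regular unipotent groups of the plane: restriction to the invariant line (helper615)
-/

set_option autoImplicit false
set_option maxHeartbeats 400000

open MvPolynomial H960VB H938TB

namespace Pool.Agent.W615

/-- restriction to the invariant line -/
noncomputable abbrev ρ2 : MvPolynomial (Fin (2 + 1)) ℂ →ₐ[ℂ] MvPolynomial (Fin (1 + 1)) ℂ :=
  lsub (hI 1)

theorem ρ2_X0 : ρ2 (X 0) = X 0 := lsub_cInc_X _ (Fin.castSucc_injective _) (0 : Fin (1 + 1))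

theorem ρ2_X1 : ρ2 (X 1) = X 1 := lsub_cInc_X _ (Fin.castSucc_injective _) (1 : Fin (1 + 1))

theorem ρ2_X2 : ρ2 (X 2) = 0 := lsub_tX (m := 1)

theorem ρ2_C (c : ℂ) : ρ2 (C c) = C c := by
  rw [ρ2, lsub, aeval_C]
  rfl

theorem ρ2_rename (q : MvPolynomial (Fin (1 + 1)) ℂ) : ρ2 (rename Fin.castSucc q) = q :=
  lsub_rename (m := 1) q

/-- the exponents on the plane -/
noncomputable def up (v : Fin (1 + 1) →₀ ℕ) : Fin (2 + 1) →₀ ℕ :=
  Finsupp.single 0 (v 0) + Finsupp.single 1 (v 1)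

theorem up_0 (v : Fin (1 + 1) →₀ ℕ) : up v 0 = v 0 := by simp [up]

theorem up_1 (v : Fin (1 + 1) →₀ ℕ) : up v 1 = v 1 := by simp [up]

theorem up_2 (v : Fin (1 + 1) →₀ ℕ) : up v 2 = 0 := by simp [up]

/-- exponents on the line -/
noncomputable def dw (u : Fin (2 + 1) →₀ ℕ) : Fin (1 + 1) →₀ ℕ :=
  Finsupp.single 0 (u 0) + Finsupp.single 1 (u 1)

theorem dw_0 (u : Fin (2 + 1) →₀ ℕ) : dw u 0 = u 0 := by simp [dw]

theorem dw_1 (u : Fin (2 + 1) →₀ ℕ) : dw u 1 = u 1 := by simp [dw]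

theorem up_eq {u : Fin (2 + 1) →₀ ℕ} {v : Fin (1 + 1) →₀ ℕ} :
    (u 2 = 0 ∧ dw u = v) ↔ u = up v := by
  constructor
  · rintro ⟨h1, rfl⟩
    ext i
    fin_cases i
    · exact (dw_0 u).symm.trans (up_0 _).symm
    · exact (dw_1 u).symm.trans (up_1 _).symm
    · exact h1.trans (up_2 _).symm
  · rintro rfl
    refine ⟨up_2 v, ?_⟩
    ext i
    fin_cases i
    · exact (dw_0 _).trans (up_0 v)
    · exact (dw_1 _).trans (up_1 v)

theorem ρ2_monomial (u : Fin (2 + 1) →₀ ℕ) (c : ℂ) :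
    ρ2 (monomial u c) = if u 2 = 0 then monomial (dw u) c else 0 := by
  have h1 : (monomial u c : MvPolynomial (Fin (2 + 1)) ℂ) =
      C c * (X 0 ^ u 0 * X 1 ^ u 1 * X 2 ^ u 2) := by
    rw [monomial_eq, Finsupp.prod_fintype _ _ (by intro i; simp)]
    congr 1
    exact Fin.prod_univ_three _
  rw [h1, map_mul, map_mul, map_mul, map_pow, map_pow, map_pow, ρ2_C, ρ2_X0, ρ2_X1, ρ2_X2]
  split_ifs with h
  · rw [h, pow_zero, mul_one, monomial_eq, Finsupp.prod_fintype _ _ (by intro i; simp)]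
    congr 1
    rw [show ∏ i, (X i : MvPolynomial (Fin (1 + 1)) ℂ) ^ (dw u) i = ∏ i : Fin 2, X i ^ (dw u) i
      from rfl, Fin.prod_univ_two]
    rw [show (dw u) (0 : Fin 2) = u 0 from dw_0 u, show (dw u) (1 : Fin 2) = u 1 from dw_1 u]
  · rw [zero_pow h, mul_zero, mul_zero]

theorem coeff_ρ2 (p : MvPolynomial (Fin (2 + 1)) ℂ) (v : Fin (1 + 1) →₀ ℕ) :
    coeff v (ρ2 p) = coeff (up v) p := by
  classical
  induction p using MvPolynomial.induction_on' with
  | monomial u c =>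
    rw [ρ2_monomial, coeff_monomial]
    by_cases h : u = up v
    · rw [if_pos h]
      obtain ⟨h1, h2⟩ := up_eq.2 h
      rw [if_pos h1, coeff_monomial, if_pos h2]
    · rw [if_neg h]
      split_ifs with h1
      · rw [coeff_monomial, if_neg]
        intro h2
        exact h (up_eq.1 ⟨h1, h2⟩)
      · exact coeff_zero _
  | add p q hp hq => rw [map_add, coeff_add, coeff_add, hp, hq]

theorem rename_monomial2 (v : Fin (1 + 1) →₀ ℕ) (c : ℂ) :
    rename (Fin.castSucc : Fin (1 + 1) → Fin (2 + 1)) (monomial v c) = monomial (up v) c := by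
  rw [rename_monomial]
  have key : Finsupp.mapDomain (Fin.castSucc : Fin (1 + 1) → Fin (2 + 1)) v = up v := ?_
  · rw [key]
  ext i
  have hi : Function.Injective (Fin.castSucc : Fin (1 + 1) → Fin (2 + 1)) :=
    Fin.castSucc_injective _
  fin_cases i
  · exact (Finsupp.mapDomain_apply hi v 0).trans (up_0 v).symm
  · exact (Finsupp.mapDomain_apply hi v 1).trans (up_1 v).symm
  · refine (Finsupp.mapDomain_notin_range v 2 ?_).trans (up_2 v).symm
    rintro ⟨t, ht⟩
    exact Fin.castSucc_ne_last t ht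

theorem coeff_rename2 (q : MvPolynomial (Fin (1 + 1)) ℂ) {u : Fin (2 + 1) →₀ ℕ}
    (h : coeff u (rename Fin.castSucc q) ≠ 0) : u 2 = 0 ∧ coeff (dw u) q ≠ 0 := by
  classical
  by_cases h2 : u 2 = 0
  · refine ⟨h2, fun h0 => h ?_⟩
    have h3 := coeff_ρ2 (rename Fin.castSucc q) (dw u)
    rw [ρ2_rename, h0, ← up_eq.1 ⟨h2, rfl⟩] at h3
    exact h3.symm
  · exfalso
    apply h
    induction q using MvPolynomial.induction_on' with
    | monomial v c =>
      rw [rename_monomial2, coeff_monomial, if_neg]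
      rintro rfl
      exact h2 (up_2 v)
    | add p q hp hq =>
      rw [map_add, coeff_add]
      by_cases h4 : coeff u (rename Fin.castSucc p) = 0
      · by_cases h5 : coeff u (rename Fin.castSucc q) = 0
        · rw [h4, h5, add_zero]
        · exact absurd (hq h5) h5
      · exact absurd (hp h4) h4

theorem X2_dvd_of {p : MvPolynomial (Fin (2 + 1)) ℂ} (h : ρ2 p = 0) : X 2 ∣ p :=
  dvd_of_res (m := 1) h

/-- the derivation on the invariant line -/
noncomputable def δ2 : Der 1 := mkDerivation ℂ ![X 1, 0]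

theorem δ2_X0 : δ2 (X 0) = X 1 := mkDerivation_X _ _ _

theorem δ2_X1 : δ2 (X 1) = 0 := mkDerivation_X _ _ _

theorem δ3_X0 : δ3 (X 0) = X 1 := mkDerivation_X _ _ _

theorem δ3_X1 : δ3 (X 1) = X 2 := mkDerivation_X _ _ _

theorem δ2_eq (p : MvPolynomial (Fin (1 + 1)) ℂ) : δ2 p = X 1 * pderiv 0 p := by
  rw [der_eq_sum]
  show ∑ i : Fin 2, _ = _
  rw [Fin.sum_univ_two, δ2_X0, δ2_X1]
  ring

theorem ρ2_δ (p : MvPolynomial (Fin (2 + 1)) ℂ) : ρ2 (δ3 p) = δ2 (ρ2 p) := by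
  refine lsub_der (n := 2) (hI 1) (δ := δ3) (δ' := δ2) (fun i => ?_) p
  fin_cases i
  · show ρ2 (δ3 (X 0)) = δ2 (ρ2 (X 0))
    rw [δ3_X0, ρ2_X1, ρ2_X0, δ2_X0]
  · show ρ2 (δ3 (X 1)) = δ2 (ρ2 (X 1))
    rw [δ3_X1, ρ2_X1, ρ2_X2, δ2_X1]
  · show ρ2 (δ3 (X 2)) = δ2 (ρ2 (X 2))
    rw [δ3_X2, ρ2_X2, map_zero, map_zero]

theorem δ2_eig {f γ : MvPolynomial (Fin (1 + 1)) ℂ} (h : δ2 f = γ * f) : δ2 f = 0 := by
  by_contra hne
  have hf : f ≠ 0 := fun h0 => hne (by rw [h0, map_zero])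
  have hγ : γ ≠ 0 := fun h0 => hne (by rw [h, h0, zero_mul])
  rw [δ2_eq] at h hne
  have hp : pderiv 0 f ≠ 0 := fun h0 => hne (by rw [h0, mul_zero])
  have h1 : degreeOf 0 (X 1 * pderiv 0 f) = degreeOf 0 (pderiv 0 f) := by
    rw [degreeOf_mul_eq (X_ne_zero _) hp, degreeOf_X, if_neg (by decide), zero_add]
  have h2 : degreeOf 0 (γ * f) = degreeOf 0 γ + degreeOf 0 f := degreeOf_mul_eq hγ hf
  have h3 : degreeOf 0 (pderiv 0 f) + 1 ≤ degreeOf 0 f := by
    obtain ⟨u, hu, h4⟩ : ∃ u ∈ (pderiv 0 f).support, degreeOf 0 (pderiv 0 f) = u 0 := by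
      rw [degreeOf_eq_sup]
      exact Finset.exists_mem_eq_sup _ (support_nonempty.2 hp) _
    rw [mem_support_iff, coeff_pderiv] at hu
    have h5 := monomial_le_degreeOf 0 (mem_support_iff.2 (left_ne_zero_of_mul hu))
    rw [h4]
    simpa using h5
  rw [h] at h1
  omega

theorem form_inv {f : MvPolynomial (Fin (1 + 1)) ℂ} {d : ℤ}
    (hf : IsWeightedHomogeneous (tw (0 : Fin (1 + 1) → ℤ × ℤ)) f (d, 0)) (h0 : f ≠ 0)
    (h : δ2 f = 0) : ∃ (c : ℂ) (n : ℕ), c ≠ 0 ∧ f = C c * X 1 ^ n ∧ d = n := by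
  have h1 : pderiv 0 f = 0 := by
    rw [δ2_eq] at h
    exact (mul_eq_zero.1 h).resolve_left (X_ne_zero _)
  have key : ∀ u, coeff u f ≠ 0 → u 0 = 0 ∧ d = u 1 := by
    intro u hu
    have h2 : u 0 = 0 := by
      by_contra hne
      have h3 := coeff_pderiv (i := (0 : Fin (1 + 1))) f (u - Finsupp.single 0 1)
      have h4 : u - Finsupp.single 0 1 + Finsupp.single 0 1 = u := by
        ext i
        fin_cases i
        · show (u - Finsupp.single 0 1 + Finsupp.single 0 1 : Fin (1 + 1) →₀ ℕ) 0 = u 0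
          simp
          omega
        · show (u - Finsupp.single 0 1 + Finsupp.single 0 1 : Fin (1 + 1) →₀ ℕ) 1 = u 1
          simp
      rw [h4, h1, coeff_zero] at h3
      rcases mul_eq_zero.1 h3.symm with h5 | h5
      · exact hu h5
      · exact Nat.cast_add_one_ne_zero _ h5
    refine ⟨h2, ?_⟩
    have h3 := congrArg Prod.fst (hf hu)
    rw [weight_fst] at h3
    have h4 : (∑ i : Fin 2, (u i : ℤ)) = d := h3
    rw [Fin.sum_univ_two] at h4
    have h5 : (u (0 : Fin 2) : ℤ) = 0 := by exact_mod_cast h2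
    rw [h5, zero_add] at h4
    exact h4.symm
  obtain ⟨u, hu⟩ := ne_zero_iff.1 h0
  refine ⟨coeff u f, u 1, hu, ?_, (key u hu).2⟩
  ext v
  rw [X_pow_eq_monomial, C_mul_monomial, mul_one, coeff_monomial]
  have e1 : Finsupp.single 1 (u 1) = u := by
    ext i
    fin_cases i
    · show (Finsupp.single 1 (u 1) : Fin (1 + 1) →₀ ℕ) 0 = u 0
      rw [(key u hu).1]
      simp
    · show (Finsupp.single 1 (u 1) : Fin (1 + 1) →₀ ℕ) 1 = u 1
      simp
  rw [e1]
  by_cases hv : coeff v f = 0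
  · rw [hv]
    split_ifs with h2
    · rw [h2, hv] at hu
      exact absurd rfl hu
    · rfl
  · have h2 : u = v := by
      have a1 := key u hu
      have a2 := key v hv
      ext i
      fin_cases i
      · show u 0 = v 0
        rw [a1.1, a2.1]
      · show u 1 = v 1
        have := a1.2
        have := a2.2
        omega
    rw [h2, if_pos rfl]

end Pool.Agent.W615
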