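import Pool.Agent.W615.NA5

/-!
# Regular unipotent groups of the plane: normal form of a minimal pair (helper615)
-/

set_option autoImplicit false
set_option maxHeartbeats 400000

open MvPolynomial H960VB H938TB

namespace Pool.Agent.W615

variable {E : Bundle2 2} (L : Lft (triv E) 0 δ3) (W : Wedge (triv E))

/-- the restriction of the bundle to the line -/
noncomputable abbrev lE (E : Bundle2 2) : Bundle2 1 := resE (m := 1) E

noncomputable abbrev lD (E : Bundle2 2) : EqB (lE E) 0 := resD (m := 1) E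

/-- restriction of vectors -/
noncomputable def rl {a : ℕ} (G : Vec a 2) : Vec a 1 := fun i => ρ2 (G i)

theorem rl_ker {G : Vec E.a 2} (hG : Ker E G) : Ker (lE E) (rl (a := E.a) G) :=
  rv_ker (m := 1) hG

theorem rl_sec {τ : M} {G : Vec E.a 2} (hG : HSec (triv E) τ G) :
    HSec (lD E) τ (rl (a := E.a) G) := rv_sec (m := 1) hG

theorem rl_div {G : Vec E.a 2} (hG : Ker E G) (h : ∀ i, rl G i = 0) :
    ∃ G' : Vec E.a 2, Ker E G' ∧ ∀ i, G i = X 2 * G' i := exists_div (m := 1) hG h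

/-- the restriction of the lift -/
noncomputable def rL : Lft (lD E) 0 δ2 :=
  L.pull (hI 1) (hI_inj 1) 0 (fun _ _ _ => rfl) δ2
    (by
      intro i
      exact ρ2_δ (X i))
    (by
      intro i
      rw [add_zero]
      fin_cases i
      · show IsWeightedHomogeneous _ (δ2 (X 0)) _
        rw [δ2_X0]
        exact isWeightedHomogeneous_X _ _ _
      · show IsWeightedHomogeneous _ (δ2 (X 1)) _
        rw [δ2_X1]
        exact isWeightedHomogeneous_zero _ _ _)

theorem rl_op (G : Vec E.a 2) (i : Fin E.a) : rl (L.op G) i = (rL L).op (rl (a := E.a) G) i := by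
  show ρ2 (δ3 (G i) + ∑ j, L.ν i j * G j) = δ2 (ρ2 (G i)) + ∑ j, ρ2 (L.ν i j) * ρ2 (G j)
  rw [map_add, ρ2_δ, map_sum]
  congr 1
  exact Finset.sum_congr rfl fun j _ => by rw [map_mul]

/-- the normal form of a minimal pair -/
structure MQ where
  d₁ : ℤ
  a : ℕ
  b : ℕ
  N : ℕ
  c : ℂ
  s₁ : Vec E.a 2
  s₂ : Vec E.a 2
  σ : Vec E.a 1
  h₁ : HSec (triv E) (d₁, 0) s₁
  h₂ : HSec (triv E) (d₁ + b, 0) s₂
  l₁ : ∀ i, L.op s₁ i = 0
  l₂ : ∀ i, L.op s₂ i = 0
  hc : c ≠ 0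
  hw : W.wd s₁ s₂ = C c * X 2 ^ N
  hN : 1 ≤ N
  ha : 1 ≤ a
  hb : Odd b
  hσ : HSec (lD E) (d₁ - a, 0) σ
  hp : Prm σ
  nz : ∀ x : Fin (1 + 1) → ℂ, x ≠ 0 → evv σ x ≠ 0
  lσ : ∀ i, (rL L).op σ i = 0
  r₁ : ∀ i, rl s₁ i = X 1 ^ a * σ i
  r₂ : ∀ i, rl s₂ i = X 1 ^ (a + b) * σ i

variable {L W}

namespace MP

variable (m : MP L W)

include m

theorem rl_ne₁ : ∃ i, rl m.s₁ i ≠ 0 := by
  by_contra hc
  push Not at hc
  obtain ⟨s', k, h⟩ := rl_div m.h₁.ker hc
  exact m.not_div₁ k h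

theorem rl_ne₂ : ∃ i, rl m.s₂ i ≠ 0 := by
  by_contra hc
  push Not at hc
  obtain ⟨s', k, h⟩ := rl_div m.h₂.ker hc
  exact m.not_div₂ m.h₂ m.l₂ m.ne h

end MP

theorem hI_single (q : Fin (1 + 1) → ℂ) : hI 1 q = (![q 0, q 1, 0] : Fin 3 → ℂ) := by
  have h0 : ∀ j : Fin 3, hI 1 q j = eval q (ρ2 (X j)) := by
    intro j
    rw [eval_lsub, eval_X]
  funext j
  refine (h0 j).trans ?_
  fin_cases j
  · show eval q (ρ2 (X 0)) = q 0
    rw [ρ2_X0, eval_X]
  · show eval q (ρ2 (X 1)) = q 1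
    rw [ρ2_X1, eval_X]
  · show eval q (ρ2 (X 2)) = 0
    rw [ρ2_X2, map_zero]

/-- the primitive section has no zero. -/
theorem sigma_nz (W' : Wedge (lD E)) {τ τ' : M} {s : Vec E.a 2} (hs : HSec (triv E) τ s)
    (ls : ∀ i, L.op s i = 0)
    (h0 : ∃ i, rl s i ≠ 0) {σ : Vec E.a 1} (hσ : HSec (lD E) τ' σ) (hp : Prm σ)
    {g : MvPolynomial (Fin (1 + 1)) ℂ} (hg : ∀ i, rl s i = g * σ i) (x : Fin (1 + 1) → ℂ)
    (hx : x ≠ 0) : evv σ x ≠ 0 := by
  intro hz
  by_cases hx1 : x 1 = 0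
  · have hx0 : x 0 ≠ 0 := by
      intro h
      apply hx
      funext j
      fin_cases j
      · exact h
      · exact hx1
    apply (X_prime (i := (1 : Fin (1 + 1))) (R := ℂ)).not_isUnit
    apply hp
    intro i
    refine dvd_of_vanish X_prime fun y hy => ?_
    rw [eval_X] at hy
    have h1 := eval_smul_of (hσ.hom i) (y 0 / x 0) x (congrFun hz i)
    have h2 : (y 0 / x 0) • x = y := by
      funext j
      fin_cases j
      · exact div_mul_cancel₀ _ hx0
      · show (y 0 / x 0) * x 1 = y 1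
        rw [hx1, mul_zero, hy]
    rwa [h2] at h1
  · obtain ⟨i, hi⟩ := h0
    apply hi
    have h1 : evv s (![x 0, x 1, 0] : Fin 3 → ℂ) = 0 := by
      rw [← hI_single]
      funext j
      show eval (hI 1 x) (s j) = 0
      rw [← eval_lsub]
      show eval x (rl s j) = 0
      rw [hg j, map_mul, show eval x (σ j) = 0 from congrFun hz j, mul_zero]
    have h2 : X 1 * rl s i = 0 := by
      refine funext fun y => ?_
      rw [map_zero, map_mul, eval_X]
      by_cases hy : y 1 = 0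
      · rw [hy, zero_mul]
      · have h3 := inv_orbit L ls h1 ((y 0 * x 1 / y 1 - x 0) / x 1)
        have h4 := eval_smul_of (hs.hom i) (y 1 / x 1) _ (congrFun h3 i)
        have h5 : (y 1 / x 1) • (![(![x 0, x 1, 0] : Fin 3 → ℂ) 0 +
            (![x 0, x 1, 0] : Fin 3 → ℂ) 1 * ((y 0 * x 1 / y 1 - x 0) / x 1) +
            (![x 0, x 1, 0] : Fin 3 → ℂ) 2 / 2 * ((y 0 * x 1 / y 1 - x 0) / x 1) ^ 2,
            (![x 0, x 1, 0] : Fin 3 → ℂ) 1 +
            (![x 0, x 1, 0] : Fin 3 → ℂ) 2 * ((y 0 * x 1 / y 1 - x 0) / x 1),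
            (![x 0, x 1, 0] : Fin 3 → ℂ) 2] : Fin 3 → ℂ) = hI 1 y := by
          rw [hI_single]
          funext j
          fin_cases j
          · show (y 1 / x 1) * (x 0 + x 1 * ((y 0 * x 1 / y 1 - x 0) / x 1) +
              0 / 2 * ((y 0 * x 1 / y 1 - x 0) / x 1) ^ 2) = y 0
            field_simp
            ring
          · show (y 1 / x 1) * (x 1 + 0 * ((y 0 * x 1 / y 1 - x 0) / x 1)) = y 1
            field_simp
            ring
          · show (y 1 / x 1) * 0 = 0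
            rw [mul_zero]
        rw [h5, ← eval_lsub] at h4
        rw [show eval y (rl s i) = 0 from h4, mul_zero]
    exact (mul_eq_zero.1 h2).resolve_left (X_ne_zero _)

theorem MP.exists_MQ (m : MP L W) (hE : ¬ E.Splits) : Nonempty (MQ L W) := by
  obtain ⟨W'⟩ := exists_wedge (by norm_num) (lD E)
  obtain ⟨⟨e, eτ⟩, g, σ, hg0, hgh, hσ, hσp, hgs⟩ := exists_prm (D := lD E) (rl_sec m.h₁) m.rl_ne₁
  have kσ : Ker (lE E) σ := hσ.ker
  have kLσ : Ker (lE E) ((rL L).op σ) := (rL L).op_ker kσ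
  obtain ⟨i₀, hi₀⟩ := hσp.ne
  -- the equation for `g`
  have e1 : ∀ i, δ2 g * σ i + g * (rL L).op σ i = 0 := by
    intro i
    have h1 : (rL L).op (rl (a := E.a) m.s₁) i = δ2 g * σ i + g * (rL L).op σ i :=
      op_mul_at (rL L) hgs i
    rw [← h1, ← rl_op]
    show ρ2 (L.op m.s₁ i) = 0
    rw [m.l₁, map_zero]
  obtain ⟨γ, hγ⟩ := hσp.dvd_wd W' kσ kLσ (by
    apply (mul_eq_zero.1 (?_ : g * W'.wd σ ((rL L).op σ) = 0)).resolve_left hg0
    rw [← wd_mul_right W' kLσ kσ, show (fun i => g * (rL L).op σ i) = fun i => (-δ2 g) * σ i from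
      funext fun i => by linear_combination e1 i, wd_mul_right W' kσ kσ, wd_self W' kσ, mul_zero])
  have e2 : δ2 g = (-γ) * g := by
    apply mul_right_cancel₀ hi₀
    have h1 := e1 i₀
    rw [hγ] at h1
    linear_combination h1
  have e3 := δ2_eig e2
  have e4 : γ = 0 := by
    rw [e3] at e2
    rcases mul_eq_zero.1 e2.symm with h | h
    · exact neg_eq_zero.1 h
    · exact absurd h hg0
  have lσ : ∀ i, (rL L).op σ i = 0 := by
    intro i
    rw [hγ, e4, zero_mul]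
  have hgh' : IsWeightedHomogeneous (tw (0 : Fin (1 + 1) → ℤ × ℤ)) g (e, 0) :=
    wh_triv (homZ_of hgh)
  obtain ⟨c₁, a, hc₁, hga, hea⟩ := form_inv hgh' hg0 e3
  -- the restriction of the second section
  obtain ⟨c, n, hc, hw⟩ := m.exists_pow
  have hn : 1 ≤ n := by
    by_contra h
    have h0 : n = 0 := by omega
    rw [h0, pow_zero, mul_one] at hw
    exact hE (splits_of_const W m.h₁ m.h₂ c hc hw)
  obtain ⟨g₂, hg₂⟩ : ∃ g₂, ∀ i, rl m.s₂ i = g₂ * σ i := by
    apply hσp.dvd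
    intro i j
    apply mul_left_cancel₀ hg0
    have h1 := congrArg ρ2 (W.eq m.s₁ m.s₂ m.h₁.ker m.h₂.ker i j)
    rw [map_sub, map_mul, map_mul, map_mul, hw, map_mul, map_pow, ρ2_X2, zero_pow (by omega),
      mul_zero, zero_mul] at h1
    have h2 : rl m.s₁ i * rl m.s₂ j - rl m.s₁ j * rl m.s₂ i = 0 := h1
    rw [hgs, hgs] at h2
    linear_combination h2
  have hg₂0 : g₂ ≠ 0 := by
    intro h
    obtain ⟨i, hi⟩ := m.rl_ne₂
    apply hi
    rw [hg₂, h, zero_mul]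
  have e5 : δ2 g₂ = 0 := by
    have h1 : (rL L).op (rl (a := E.a) m.s₂) i₀ = δ2 g₂ * σ i₀ + g₂ * (rL L).op σ i₀ :=
      op_mul_at (rL L) hg₂ i₀
    rw [lσ, mul_zero, add_zero, ← rl_op] at h1
    have h2 : rl (L.op m.s₂) i₀ = 0 := by
      show ρ2 (L.op m.s₂ i₀) = 0
      rw [m.l₂, map_zero]
    rw [h2] at h1
    exact (mul_eq_zero.1 h1.symm).resolve_right hi₀
  have hg₂h : IsWeightedHomogeneous (tw (0 : Fin (1 + 1) → ℤ × ℤ)) g₂ (m.d₂ - m.d₁ + e, 0) := by
    have h1 := (rl_sec m.h₂).hom i₀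
    rw [hg₂, mul_comm] at h1
    have h2 := wh_div hi₀ (hσ.hom i₀) h1
    refine wh_triv ?_
    have h3 := homZ_of h2
    have h4 : ((((lE E).β i₀, (lD E).b i₀) : M) + (m.d₂, 0) - ((((lE E).β i₀, (lD E).b i₀) : M) +
        ((m.d₁, 0) - (e, eτ))) : M).1 = m.d₂ - m.d₁ + e := by
      show (lE E).β i₀ + m.d₂ - ((lE E).β i₀ + (m.d₁ - e)) = _
      ring
    rw [h4] at h3
    exact h3
  obtain ⟨c₂, a', hc₂, hga₂, hea₂⟩ := form_inv hg₂h hg₂0 e5
  obtain ⟨b, hb⟩ : ∃ b : ℕ, a' = a + b := by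
    have := m.le
    exact ⟨a' - a, by omega⟩
  have hdb : m.d₂ = m.d₁ + b := by
    have : (a' : ℤ) = a + b := by exact_mod_cast hb
    omega
  have nz := sigma_nz W' m.h₁ m.l₁ m.rl_ne₁ hσ hσp hgs
  -- normalisation
  let σ' : Vec E.a 1 := fun i => C c₁ * σ i
  let s₂' : Vec E.a 2 := fun i => C (c₁ / c₂) * m.s₂ i
  have hcc : c₁ / c₂ ≠ 0 := div_ne_zero hc₁ hc₂
  have hσ' : HSec (lD E) (m.d₁ - a, 0) σ' := by
    have h1 : HSec (lD E) (m.d₁ - e, 0) σ := by
      refine ⟨fun i => ?_, kσ⟩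
      have h2 := wh_triv (homZ_of (hσ.hom i))
      have e0 : ((((lE E).β i, (lD E).b i) : M) + (m.d₁ - e, 0)) =
          (((((lE E).β i, (lD E).b i) : M) + ((m.d₁, 0) - (e, eτ))).1, 0) :=
        Prod.ext rfl (by
          show (0 : ℤ × ℤ) + 0 = 0
          rw [add_zero])
      rw [e0]
      exact h2
    rw [hea] at h1
    exact hsec_mul (isWeightedHomogeneous_C _ _) h1 (zero_add _).symm
  have r₁ : ∀ i, rl m.s₁ i = X 1 ^ a * σ' i := by
    intro i
    rw [hgs, hga]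
    simp only [σ']
    ring
  have r₂ : ∀ i, rl s₂' i = X 1 ^ (a + b) * σ' i := by
    intro i
    show ρ2 (C (c₁ / c₂) * m.s₂ i) = _
    rw [map_mul, ρ2_C, show ρ2 (m.s₂ i) = g₂ * σ i from hg₂ i, hga₂, ← hb]
    have h1 : (C (c₁ / c₂) : MvPolynomial (Fin (1 + 1)) ℂ) * C c₂ = C c₁ := by
      rw [← C_mul, div_mul_cancel₀ _ hc₂]
    simp only [σ']
    linear_combination (X 1 ^ a' * σ i) * h1
  have h₂' : HSec (triv E) (m.d₁ + b, 0) s₂' := by
    rw [← hdb]
    exact hsec_mul (wh_C _) m.h₂ (zero_add _).symm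
  have l₂' : ∀ i, L.op s₂' i = 0 := op_inv_mul (δ3_C _) m.l₂
  have hw' : W.wd m.s₁ s₂' = C (c₁ / c₂ * c) * X 2 ^ n := by
    rw [wd_mul_right W m.h₂.ker m.h₁.ker, hw, C_mul]
    ring
  have hwne : W.wd m.s₁ s₂' ≠ 0 := by
    rw [hw']
    exact mul_ne_zero (by rw [Ne, C_eq_zero]; exact mul_ne_zero hcc hc)
      (pow_ne_zero _ (X_ne_zero _))
  have nz' : ∀ x : Fin (1 + 1) → ℂ, x ≠ 0 → evv σ' x ≠ 0 := by
    intro x hx h
    apply nz x hx
    funext i
    have h1 := congrFun h i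
    have h2 : c₁ * eval x (σ i) = 0 := by
      have h3 : eval x (C c₁ * σ i) = 0 := h1
      rwa [map_mul, eval_C] at h3
    exact (mul_eq_zero.1 h2).resolve_left hc₁
  refine ⟨⟨m.d₁, a, b, n, c₁ / c₂ * c, m.s₁, s₂', σ', m.h₁, h₂', m.l₁, l₂',
    mul_ne_zero hcc hc, hw', hn, ?_, ?_, hσ', prm_of_no_zero (le_refl 1) nz', nz', ?_, r₁, r₂⟩⟩
  · by_contra hlt
    have ha0 : a = 0 := by omega
    apply hE
    refine splits_of_nowhere_zero m.h₁ fun x hx h => ?_
    by_cases hx2 : x 2 = 0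
    · apply nz' ![x 0, x 1]
      · intro h1
        apply hx
        funext j
        fin_cases j
        · exact congrFun h1 0
        · exact congrFun h1 1
        · exact hx2
      · funext i
        have h1 := r₁ i
        rw [ha0, pow_zero, one_mul] at h1
        show eval _ (σ' i) = 0
        rw [← h1]
        show eval _ (ρ2 (m.s₁ i)) = 0
        rw [eval_lsub, hI_single]
        have h2 : (![(![x 0, x 1] : Fin 2 → ℂ) 0, (![x 0, x 1] : Fin 2 → ℂ) 1, 0] : Fin 3 → ℂ) =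
            x := by
          funext j
          fin_cases j
          · rfl
          · rfl
          · exact hx2.symm
        exact (congrArg (fun y => eval y (m.s₁ i)) h2).trans (congrFun h i)
    · apply m.indep hx2
      rw [eval_zero_of_wd W hx m.h₁.ker m.h₂.ker (Or.inl h)]
  · rw [← Nat.not_even_iff_odd]
    rintro ⟨j, hj⟩
    let t : Vec E.a 2 := fun i => s₂' i - (fun i => conic 0 ^ j * m.s₁ i) i
    have hcj : δ3 (conic 0 ^ j) = 0 := by
      rw [Derivation.leibniz_pow, δ3_conic, smul_zero, smul_zero]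
    have hcw : IsWeightedHomogeneous (tw (0 : Fin (2 + 1) → ℤ × ℤ)) (conic 0 ^ j) ((b : ℤ), 0) := by
      have h1 := (conic_hom 0).pow j
      have h2 : j • ((2, 0) : M) = ((b : ℤ), 0) := by
        refine Prod.ext ?_ ?_
        · show j • (2 : ℤ) = (b : ℤ)
          rw [hj, nsmul_eq_mul]
          push_cast
          ring
        · show j • (0 : ℤ × ℤ) = 0
          rw [smul_zero]
      rwa [h2] at h1
    have ht : HSec (triv E) (m.d₂, 0) t := by
      refine hsec_sub (by rw [hdb]; exact h₂') (hsec_mul hcw m.h₁ ?_)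
      rw [hdb]
      ext
      · show m.d₁ + b = b + m.d₁
        ring
      · rfl
      · rfl
    have lt : ∀ i, L.op t i = 0 := op_inv_sub l₂' (op_inv_mul hcj m.l₁)
    have rt : ∀ i, rl t i = 0 := by
      intro i
      show ρ2 (s₂' i - conic 0 ^ j * m.s₁ i) = 0
      have h1 : ρ2 (s₂' i) = X 1 ^ (a + b) * σ' i := r₂ i
      have h2 : ρ2 (m.s₁ i) = X 1 ^ a * σ' i := r₁ i
      have h3 : ρ2 (conic 0) = X 1 ^ 2 := by
        unfold conic
        rw [map_sub, map_sub, map_mul, map_mul, map_mul, map_pow, map_pow, ρ2_X1, ρ2_X2, C_0,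
          map_zero]
        ring
      rw [map_sub ρ2, map_mul ρ2 (conic 0 ^ j), map_pow ρ2, h1, h2, h3, hj]
      ring
    obtain ⟨s', -, hs'⟩ := rl_div ht.ker rt
    refine m.not_div₂ ht lt ?_ hs'
    rw [wd_sub_right W h₂'.ker (ker_mul m.h₁.ker _) m.h₁.ker, wd_mul_right W m.h₁.ker m.h₁.ker,
      wd_self W m.h₁.ker, mul_zero, sub_zero]
    exact hwne
  · intro i
    have h1 : (rL L).op (E := lE E) (fun i => C c₁ * σ i) i = δ2 (C c₁) * σ i +
      C c₁ * (rL L).op σ i := op_mul_at (rL L) (fun _ => rfl) i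
    have h2 : δ2 (C c₁) = 0 := derivation_C _ _
    rw [lσ, mul_zero, add_zero, h2, zero_mul] at h1
    exact h1

theorem NA.exists_MQ (A : NA L W) (hE : ¬ E.Splits) : Nonempty (MQ L W) := by
  obtain ⟨m⟩ := A.exists_MP
  exact m.exists_MQ hE

end Pool.Agent.W615
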