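import Pool.Agent.W615.NA6

/-!
# Regular unipotent groups of the plane: bounds for the exponents (helper615)
-/

set_option autoImplicit false
set_option maxHeartbeats 400000

open MvPolynomial H960VB H938TB

namespace Pool.Agent.W615

section gen

variable {N : ℕ} {p : MvPolynomial (Fin N) ℂ}

theorem coeff_Xpow_mul {j : Fin N} {a : ℕ} {u : Fin N →₀ ℕ} (h : coeff u (X j ^ a * p) ≠ 0) :
    a ≤ u j ∧ coeff (u - Finsupp.single j a) p ≠ 0 := by
  rw [X_pow_eq_monomial, coeff_monomial_mul'] at h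
  split_ifs at h with h1
  · rw [one_mul] at h
    exact ⟨by simpa using h1 j, h⟩
  · exact absurd rfl h

theorem coeff_Xpow_mul_of {j : Fin N} {a : ℕ} {u : Fin N →₀ ℕ} (h : coeff u p ≠ 0) :
    coeff (u + Finsupp.single j a) (X j ^ a * p) ≠ 0 := by
  rw [X_pow_eq_monomial, coeff_monomial_mul', if_pos (by simp), one_mul, add_tsub_cancel_right]
  exact h

theorem Xpow_dvd_of {j : Fin N} {a : ℕ} (h : ∀ u, coeff u p ≠ 0 → a ≤ u j) : X j ^ a ∣ p := by
  rw [X_pow_eq_monomial, monomial_one_dvd_iff_modMonomial_eq_zero]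
  ext u
  rw [coeff_zero]
  by_cases hu : Finsupp.single j a ≤ u
  · exact coeff_modMonomial_of_le _ hu
  · rw [coeff_modMonomial_of_not_le _ hu]
    by_contra hne
    exact hu (Finsupp.single_le_iff.2 (h u hne))

theorem ne_or_ne_of_add {p q : MvPolynomial (Fin N) ℂ} {u : Fin N →₀ ℕ}
    (h : coeff u (p + q) ≠ 0) : coeff u p ≠ 0 ∨ coeff u q ≠ 0 := by
  by_contra hc
  push Not at hc
  exact h (by rw [coeff_add, hc.1, hc.2, add_zero])

theorem ne_or_ne_of_sub {p q : MvPolynomial (Fin N) ℂ} {u : Fin N →₀ ℕ}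
    (h : coeff u (p - q) ≠ 0) : coeff u p ≠ 0 ∨ coeff u q ≠ 0 := by
  by_contra hc
  push Not at hc
  exact h (by rw [coeff_sub, hc.1, hc.2, sub_zero])

end gen

/-- the exponents of the first coordinate are bounded by those of the last one. -/
def Bd (a b : ℕ) (p : MvPolynomial (Fin (2 + 1)) ℂ) : Prop :=
  ∀ u, coeff u p ≠ 0 → u 0 + a ≤ u 2 + b

theorem Bd.add {a b : ℕ} {p q : MvPolynomial (Fin (2 + 1)) ℂ} (hp : Bd a b p) (hq : Bd a b q) :
    Bd a b (p + q) := fun u hu => (ne_or_ne_of_add hu).elim (hp u) (hq u)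

theorem Bd.sub {a b : ℕ} {p q : MvPolynomial (Fin (2 + 1)) ℂ} (hp : Bd a b p) (hq : Bd a b q) :
    Bd a b (p - q) := fun u hu => (ne_or_ne_of_sub hu).elim (hp u) (hq u)

theorem Bd.C_mul {a b : ℕ} {p : MvPolynomial (Fin (2 + 1)) ℂ} (hp : Bd a b p) (c : ℂ) :
    Bd a b (C c * p) := fun u hu => hp u (by
  rw [coeff_C_mul] at hu
  exact right_ne_zero_of_mul hu)

theorem Bd.X1_mul {a b : ℕ} {p : MvPolynomial (Fin (2 + 1)) ℂ} (hp : Bd a b p) :
    Bd a b (X 1 * p) := by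
  intro u hu
  have h := coeff_Xpow_mul (a := 1) (by rwa [pow_one])
  have h1 := hp _ h.2
  simpa using h1

theorem Bd.X2_mul {p : MvPolynomial (Fin (2 + 1)) ℂ} (hp : Bd 0 0 p) :
    Bd 1 0 (X 2 * p) := by
  intro u hu
  have h := coeff_Xpow_mul (a := 1) (by rwa [pow_one])
  have h1 := hp _ h.2
  have h2 := h.1
  simp at h1
  omega

theorem Bd.δ {p : MvPolynomial (Fin (2 + 1)) ℂ} (hp : Bd 0 0 p) : Bd 1 0 (δ3 p) := by
  rw [δ3_eq]
  have h0 : Bd 1 0 (pderiv 0 p) := by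
    intro u hu
    rw [coeff_pderiv] at hu
    have h1 := hp _ (left_ne_zero_of_mul hu)
    simpa using h1
  have h1 : Bd 0 0 (pderiv 1 p) := by
    intro u hu
    rw [coeff_pderiv] at hu
    have h1 := hp _ (left_ne_zero_of_mul hu)
    simpa using h1
  exact h0.X1_mul.add h1.X2_mul

theorem Bd.div {l : ℕ} {p : MvPolynomial (Fin (2 + 1)) ℂ} (hp : Bd 1 0 (X 2 ^ l * p)) :
    Bd 1 l p := by
  intro u hu
  have h1 := hp _ (coeff_Xpow_mul_of (j := 2) (a := l) hu)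
  simpa using h1

variable {E : Bundle2 2} {L : Lft (triv E) 0 δ3} {W : Wedge (triv E)}

namespace MQ

variable (q : MQ L W)

include q

/-- the key identity -/
theorem key {k l : ℕ} {T : MvPolynomial (Fin (2 + 1)) ℂ} {G : Vec E.a 2}
    (h : ∀ i, X 1 ^ k * q.s₂ i - T * q.s₁ i = X 2 ^ l * G i) (i : Fin E.a) :
    (C (k : ℂ) * X 2 * T - X 1 * δ3 T) * q.s₁ i =
      X 2 ^ l * (X 1 * L.op G i - C (k : ℂ) * X 2 * G i) := by
  have h1 : L.op (fun i => X 1 ^ k * q.s₂ i - T * q.s₁ i) i =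
      δ3 (X 1 ^ k) * q.s₂ i - δ3 T * q.s₁ i := by
    have a1 := congrFun (L.op_sub (fun i => X 1 ^ k * q.s₂ i) (fun i => T * q.s₁ i)) i
    have a2 : L.op (fun i => X 1 ^ k * q.s₂ i) i = δ3 (X 1 ^ k) * q.s₂ i + X 1 ^ k * L.op q.s₂ i :=
      op_mul_at L (fun _ => rfl) i
    have a3 : L.op (fun i => T * q.s₁ i) i = δ3 T * q.s₁ i + T * L.op q.s₁ i :=
      op_mul_at L (fun _ => rfl) i
    rw [q.l₂, mul_zero, add_zero] at a2
    rw [q.l₁, mul_zero, add_zero] at a3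
    refine a1.trans ?_
    show L.op (fun i => X 1 ^ k * q.s₂ i) i - L.op (fun i => T * q.s₁ i) i = _
    rw [a2, a3]
  have h2 : L.op (fun i => X 1 ^ k * q.s₂ i - T * q.s₁ i) i = X 2 ^ l * L.op G i := by
    have a1 : L.op (fun i => X 1 ^ k * q.s₂ i - T * q.s₁ i) i =
        δ3 (X 2 ^ l) * G i + X 2 ^ l * L.op G i := op_mul_at L h i
    rw [a1, δ3_X2_pow, zero_mul, zero_add]
  have h3 : X 1 * δ3 (X 1 ^ k) = C (k : ℂ) * X 2 * X 1 ^ k := by
    rw [Derivation.leibniz_pow, δ3_X1, nsmul_eq_mul, smul_eq_mul, map_natCast]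
    rcases Nat.eq_zero_or_pos k with h0 | h0
    · rw [h0]
      simp
    · obtain ⟨j, rfl⟩ : ∃ j, k = j + 1 := ⟨k - 1, by omega⟩
      rw [Nat.add_sub_cancel, pow_succ]
      ring
  rw [h1] at h2
  linear_combination X 1 * h2 - q.s₂ i * h3 - (C (k : ℂ) * X 2) * h i

theorem rho_ne : ∃ i, ρ2 (q.s₁ i) ≠ 0 := by
  obtain ⟨i, hi⟩ := q.hp.ne
  refine ⟨i, ?_⟩
  rw [show ρ2 (q.s₁ i) = X 1 ^ q.a * q.σ i from q.r₁ i]
  exact mul_ne_zero (pow_ne_zero _ (X_ne_zero _)) hi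

theorem dvdP {k l : ℕ} {T : MvPolynomial (Fin (2 + 1)) ℂ} {G : Vec E.a 2}
    (h : ∀ i, X 1 ^ k * q.s₂ i - T * q.s₁ i = X 2 ^ l * G i) :
    ∃ U, C (k : ℂ) * X 2 * T - X 1 * δ3 T = X 2 ^ l * U ∧
      ∀ i, U * q.s₁ i = X 1 * L.op G i - C (k : ℂ) * X 2 * G i := by
  obtain ⟨j, hj⟩ := q.rho_ne
  have h1 : X 2 ^ l ∣ C (k : ℂ) * X 2 * T - X 1 * δ3 T := by
    refine Prime.pow_dvd_of_dvd_mul_right (X_prime (i := (2 : Fin (2 + 1))) (R := ℂ)) l
      (b := q.s₁ j) ?_ ⟨_, q.key h j⟩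
    rintro ⟨r, hr⟩
    apply hj
    rw [hr, map_mul, ρ2_X2, zero_mul]
  obtain ⟨U, hU⟩ := h1
  refine ⟨U, hU, fun i => ?_⟩
  apply mul_left_cancel₀ (pow_ne_zero l (X_ne_zero (R := ℂ) (2 : Fin (2 + 1))))
  rw [← q.key h i, hU, mul_assoc]

theorem wdG {k l : ℕ} (hl : l ≤ q.N) {T : MvPolynomial (Fin (2 + 1)) ℂ} {G : Vec E.a 2}
    (hG : Ker E G) (h : ∀ i, X 1 ^ k * q.s₂ i - T * q.s₁ i = X 2 ^ l * G i) :
    W.wd G q.s₁ = -(C q.c * X 1 ^ k * X 2 ^ (q.N - l)) := by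
  have k1 := q.h₁.ker
  have k2 := q.h₂.ker
  have h1 : W.wd (fun i => X 1 ^ k * q.s₂ i - T * q.s₁ i) q.s₁ = X 2 ^ l * W.wd G q.s₁ :=
    wd_of_mul_left W hG k1 h
  have h2 : W.wd (fun i => X 1 ^ k * q.s₂ i - T * q.s₁ i) q.s₁ =
      X 1 ^ k * W.wd q.s₂ q.s₁ - T * W.wd q.s₁ q.s₁ := by
    rw [← W.smul _ _ _ k2 k1, ← W.smul _ _ _ k1 k1]
    exact wd_sub_left W (ker_mul k2 _) (ker_mul k1 _) k1
  rw [wd_self W k1, mul_zero, sub_zero, W.anti q.s₂ q.s₁ k2 k1, q.hw] at h2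
  apply mul_left_cancel₀ (pow_ne_zero l (X_ne_zero (R := ℂ) (2 : Fin (2 + 1))))
  rw [← h1, h2]
  have h3 : (X 2 : MvPolynomial (Fin (2 + 1)) ℂ) ^ q.N = X 2 ^ l * X 2 ^ (q.N - l) := by
    rw [← pow_add]
    congr 1
    omega
  rw [h3]
  ring

/-- the chain of approximations -/
theorem chain {k : ℕ} (hk : 2 * q.N ≤ k + q.b + 2) : ∀ l, 1 ≤ l → l ≤ q.N →
    ∃ (T : MvPolynomial (Fin (2 + 1)) ℂ) (G : Vec E.a 2), T.IsHomogeneous (k + q.b) ∧ Bd 0 0 T ∧
      ρ2 T = X 1 ^ (k + q.b) ∧ HSec (triv E) (k + q.d₁ + q.b - l, 0) G ∧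
      ∀ i, X 1 ^ k * q.s₂ i - T * q.s₁ i = X 2 ^ l * G i := by
  have k1 := q.h₁.ker
  have k2 := q.h₂.ker
  intro l hl
  induction l, hl using Nat.le_induction with
  | base =>
    intro _
    have hV : HSec (triv E) (k + q.d₁ + q.b, 0)
        (fun i => X 1 ^ k * q.s₂ i - (fun i => X 1 ^ (k + q.b) * q.s₁ i) i) := by
      refine hsec_sub (hsec_mul (wh_pow 1 k) q.h₂ ?_) (hsec_mul (wh_pow 1 (k + q.b)) q.h₁ ?_)
      · refine Prod.ext ?_ rfl
        show (k : ℤ) + q.d₁ + q.b = k + (q.d₁ + q.b)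
        ring
      · refine Prod.ext ?_ rfl
        show (k : ℤ) + q.d₁ + q.b = ((k + q.b : ℕ) : ℤ) + q.d₁
        push_cast
        ring
    obtain ⟨G, -, hG⟩ := rl_div hV.ker (by
      intro i
      show ρ2 (X 1 ^ k * q.s₂ i - X 1 ^ (k + q.b) * q.s₁ i) = 0
      rw [map_sub, map_mul, map_mul, map_pow, map_pow, ρ2_X1,
        show ρ2 (q.s₁ i) = X 1 ^ q.a * q.σ i from q.r₁ i,
        show ρ2 (q.s₂ i) = X 1 ^ (q.a + q.b) * q.σ i from q.r₂ i]
      ring)
    refine ⟨X 1 ^ (k + q.b), G, isHomogeneous_X_pow _ _, ?_, by rw [map_pow, ρ2_X1], ?_, ?_⟩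
    · intro u hu
      rw [X_pow_eq_monomial, coeff_monomial] at hu
      split_ifs at hu with h
      · rw [← h]
        simp
      · exact absurd rfl hu
    · have h1 := sec_div (j := (2 : Fin (2 + 1))) hV hG
      exact h1
    · intro i
      rw [pow_one]
      exact hG i
  | succ l hl ih =>
    intro hlN
    obtain ⟨T, G, hT, hTB, hTρ, hG, h⟩ := ih (by omega)
    have kG := hG.ker
    obtain ⟨U, hU, hUs⟩ := q.dvdP h
    -- the restriction of `G`
    obtain ⟨g, hg⟩ : ∃ g, ∀ i, rl G i = g * q.σ i := by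
      apply q.hp.dvd
      intro i j
      have h1 := congrArg ρ2 (W.eq G q.s₁ kG k1 i j)
      rw [q.wdG (by omega) kG h, map_sub, map_mul, map_mul, map_mul, map_neg, map_mul, map_mul,
        map_pow, map_pow, ρ2_X2, zero_pow (by omega), mul_zero, neg_zero, zero_mul,
        show ρ2 (q.s₁ i) = X 1 ^ q.a * q.σ i from q.r₁ i,
        show ρ2 (q.s₁ j) = X 1 ^ q.a * q.σ j from q.r₁ j] at h1
      apply mul_left_cancel₀ (pow_ne_zero q.a (X_ne_zero (R := ℂ) (1 : Fin (1 + 1))))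
      show X 1 ^ q.a * (q.σ i * ρ2 (G j)) = X 1 ^ q.a * (q.σ j * ρ2 (G i))
      linear_combination -h1
    obtain ⟨i₀, hi₀⟩ := q.hp.ne
    -- the equation for `g`
    have e1 : ρ2 U * X 1 ^ q.a = X 1 ^ 2 * pderiv 0 g := by
      apply mul_right_cancel₀ hi₀
      have h1 := congrArg ρ2 (hUs i₀)
      rw [map_mul, map_sub, map_mul, map_mul, map_mul, ρ2_X1, ρ2_X2, mul_zero, zero_mul, sub_zero,
        show ρ2 (q.s₁ i₀) = X 1 ^ q.a * q.σ i₀ from q.r₁ i₀] at h1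
      have h2 : ρ2 (L.op G i₀) = δ2 g * q.σ i₀ := by
        have h3 : (rL L).op (rl (a := E.a) G) i₀ = δ2 g * q.σ i₀ + g * (rL L).op q.σ i₀ :=
          op_mul_at (rL L) hg i₀
        rw [q.lσ, mul_zero, add_zero, ← rl_op] at h3
        exact h3
      rw [h2, δ2_eq] at h1
      linear_combination h1
    -- the exponents of `g`
    have hUB : Bd 1 l U := by
      apply Bd.div
      rw [← hU, mul_assoc]
      exact (hTB.X2_mul.C_mul _).sub hTB.δ.X1_mul
    have e2 : ∀ v, coeff v g ≠ 0 → v 0 ≤ l := by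
      intro v hv
      by_contra hlt
      push Not at hlt
      have h1 : coeff (v - Finsupp.single 0 1) (pderiv 0 g) ≠ 0 := by
        have h4 : v - Finsupp.single 0 1 + Finsupp.single 0 1 = v := by
          ext i
          fin_cases i
          · show (v - Finsupp.single 0 1 + Finsupp.single 0 1 : Fin (1 + 1) →₀ ℕ) 0 = v 0
            simp
            omega
          · show (v - Finsupp.single 0 1 + Finsupp.single 0 1 : Fin (1 + 1) →₀ ℕ) 1 = v 1
            simp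
        rw [coeff_pderiv, h4]
        exact mul_ne_zero hv (Nat.cast_add_one_ne_zero _)
      have h2 := coeff_Xpow_mul_of (j := (1 : Fin (1 + 1))) (a := 2) h1
      rw [← e1, mul_comm] at h2
      have h3 := (coeff_Xpow_mul h2).2
      rw [coeff_ρ2] at h3
      have h4 := hUB _ h3
      rw [up_0, up_2] at h4
      simp at h4
      omega
    -- the degree of `g`
    have hgh : IsWeightedHomogeneous (tw (0 : Fin (1 + 1) → ℤ × ℤ)) g
        ((k : ℤ) + q.a + q.b - l, 0) := by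
      have h1 := (rl_sec hG).hom i₀
      rw [hg, mul_comm] at h1
      have h2 := wh_div hi₀ (q.hσ.hom i₀) h1
      have h4 : ((((lE E).β i₀, (lD E).b i₀) : M) + (k + q.d₁ + q.b - l, 0) -
          ((((lE E).β i₀, (lD E).b i₀) : M) + (q.d₁ - q.a, 0)) : M) =
          ((k : ℤ) + q.a + q.b - l, 0) := by
        rw [add_sub_add_left_eq_sub]
        refine Prod.ext ?_ rfl
        show (k : ℤ) + q.d₁ + q.b - l - (q.d₁ - q.a) = _
        ring
      rw [h4] at h2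
      exact h2
    have e3 : ∀ v, coeff v g ≠ 0 → ((v 0 : ℤ) + v 1 = (k : ℤ) + q.a + q.b - l) := by
      intro v hv
      have h3 := congrArg Prod.fst (hgh hv)
      rw [weight_fst] at h3
      have h4 : (∑ i : Fin 2, (v i : ℤ)) = (k : ℤ) + q.a + q.b - l := h3
      rw [Fin.sum_univ_two] at h4
      exact h4
    obtain ⟨f, hf⟩ : X 1 ^ q.a ∣ g := by
      apply Xpow_dvd_of
      intro v hv
      have h1 := e2 v hv
      have h2 := e3 v hv
      have h3 : (2 : ℤ) * q.N ≤ k + q.b + 2 := by exact_mod_cast hk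
      have h4 : (l : ℤ) + 1 ≤ q.N := by exact_mod_cast hlN
      have h5 : (v 0 : ℤ) ≤ l := by exact_mod_cast h1
      omega
    have f2 : ∀ v, coeff v f ≠ 0 → v 0 ≤ l ∧ ((v 0 : ℤ) + v 1 = (k : ℤ) + q.b - l) := by
      intro v hv
      have h1 := coeff_Xpow_mul_of (j := (1 : Fin (1 + 1))) (a := q.a) hv
      rw [← hf] at h1
      have h2 := e2 _ h1
      have h3 := e3 _ h1
      simp at h2 h3
      refine ⟨h2, ?_⟩
      linarith
    set e : MvPolynomial (Fin (2 + 1)) ℂ := rename Fin.castSucc f with he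
    have me : ∀ u, coeff u (X 2 ^ l * e) ≠ 0 → u 2 = l ∧ u 0 ≤ l ∧
        ((u 0 : ℤ) + u 1 = (k : ℤ) + q.b - l) := by
      intro u hu
      obtain ⟨h1, h2⟩ := coeff_Xpow_mul hu
      obtain ⟨h3, h4⟩ := coeff_rename2 f h2
      obtain ⟨h5, h6⟩ := f2 _ h4
      rw [dw_0, dw_1] at h6
      rw [dw_0] at h5
      simp at h3 h5 h6
      refine ⟨by omega, h5, h6⟩
    have hew : IsWeightedHomogeneous (tw (0 : Fin (2 + 1) → ℤ × ℤ)) e
        ((k : ℤ) + q.b - l, 0) := by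
      intro u hu
      obtain ⟨h3, h4⟩ := coeff_rename2 f hu
      obtain ⟨h5, h6⟩ := f2 _ h4
      rw [dw_0, dw_1] at h6
      have h7 : (Finsupp.weight (tw (0 : Fin (2 + 1) → ℤ × ℤ)) u).1 = (k : ℤ) + q.b - l := by
        rw [weight_fst]
        show (∑ i : Fin 3, (u i : ℤ)) = _
        rw [Fin.sum_univ_three]
        have h8 : (u (2 : Fin 3) : ℤ) = 0 := by exact_mod_cast h3
        rw [h8, add_zero]
        exact h6
      refine Prod.ext h7 ?_
      show (Finsupp.weight (tw (0 : Fin (2 + 1) → ℤ × ℤ)) u).2 = 0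
      rw [Finsupp.weight_apply, Finsupp.sum, Prod.snd_sum]
      refine Finset.sum_eq_zero fun i _ => ?_
      show u i • (0 : ℤ × ℤ) = 0
      exact smul_zero _
    have hV : HSec (triv E) (k + q.d₁ + q.b - l, 0)
        (fun i => G i - (fun i => e * q.s₁ i) i) := by
      refine hsec_sub hG (hsec_mul hew q.h₁ ?_)
      refine Prod.ext ?_ rfl
      show (k : ℤ) + q.d₁ + q.b - l = (k : ℤ) + q.b - l + q.d₁
      ring
    obtain ⟨G', -, hG'⟩ := rl_div hV.ker (by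
      intro i
      show ρ2 (G i - e * q.s₁ i) = 0
      rw [map_sub, map_mul, show ρ2 (G i) = g * q.σ i from hg i,
        show ρ2 (q.s₁ i) = X 1 ^ q.a * q.σ i from q.r₁ i, he, ρ2_rename, hf]
      ring)
    refine ⟨T + X 2 ^ l * e, G', ?_, hTB.add ?_, ?_, ?_, ?_⟩
    · refine hT.add fun u hu => ?_
      obtain ⟨h1, h2, h3⟩ := me u hu
      rw [Finsupp.weight_apply, Finsupp.sum_fintype _ _ (by intro i; simp)]
      show ∑ i : Fin 3, _ = _
      rw [Fin.sum_univ_three]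
      simp only [Pi.one_apply, smul_eq_mul, mul_one]
      have h4 : (u (0 : Fin 3) : ℤ) + u (1 : Fin 3) = (k : ℤ) + q.b - l := h3
      have h5 : u (2 : Fin 3) = l := h1
      omega
    · intro u hu
      obtain ⟨h1, h2, h3⟩ := me u hu
      omega
    · rw [map_add, hTρ, map_mul, map_pow, ρ2_X2, zero_pow (by omega), zero_mul, add_zero]
    · have h1 := sec_div (j := (2 : Fin (2 + 1))) hV hG'
      have h2 : ((k + q.d₁ + q.b - l, 0) - tw (0 : Fin (2 + 1) → ℤ × ℤ) 2 : M) =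
          (k + q.d₁ + q.b - ((l + 1 : ℕ) : ℤ), 0) := by
        refine Prod.ext ?_ rfl
        show (k : ℤ) + q.d₁ + q.b - l - 1 = k + q.d₁ + q.b - ((l + 1 : ℕ) : ℤ)
        push_cast
        ring
      rw [h2] at h1
      exact h1
    · intro i
      rw [pow_succ, mul_assoc, ← hG' i]
      show X 1 ^ k * q.s₂ i - (T + X 2 ^ l * e) * q.s₁ i = X 2 ^ l * (G i - e * q.s₁ i)
      linear_combination h i

end MQ

end Pool.Agent.W615
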