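import Mathlib

/-!
# Regular unipotent groups of the plane: a differential equation modulo a power (helper615)
-/

set_option autoImplicit false
set_option maxHeartbeats 400000

open Polynomial

namespace Pool.Agent.W615

theorem coeff_succ_op (f : ℂ[X]) (i : ℕ) :
    (X * (1 - 2 * X) * derivative f).coeff (i + 1) =
      ((i : ℂ) + 1) * f.coeff (i + 1) - 2 * i * f.coeff i := by
  have h1 : X * (1 - 2 * X) * derivative f = X * derivative f - C 2 * (X * (X * derivative f)) := by
    rw [show (C (2 : ℂ) : ℂ[X]) = 2 by rw [map_ofNat]]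
    ring
  rw [h1, coeff_sub, coeff_X_mul, coeff_C_mul, coeff_X_mul, coeff_derivative]
  rcases i with _ | i
  · simp
  · rw [coeff_X_mul, coeff_derivative]
    push_cast
    ring

theorem coeff_zero_op (f : ℂ[X]) : (X * (1 - 2 * X) * derivative f).coeff 0 = 0 := by
  rw [mul_assoc, coeff_X_mul_zero]

theorem coeff_succ_rhs (p m : ℂ) (f : ℂ[X]) (i : ℕ) :
    ((C p - C m * X) * f).coeff (i + 1) = p * f.coeff (i + 1) - m * f.coeff i := by
  rw [sub_mul, mul_assoc, coeff_sub, coeff_C_mul, coeff_C_mul, coeff_X_mul]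

/-- the numerical part of the argument -/
theorem num_lemma {N b μ : ℕ} (hb : Odd b) {lam : ℂ} {h g A : ℂ[X]} (hh : h ≠ 0)
    (he : X * (1 - 2 * X) * derivative h + C (μ : ℂ) * (X - 1) * h = C lam * h)
    (g0 : g.coeff 0 ≠ 0) (hg : X ^ N ∣ X * ((1 - 2 * X) * derivative g + C (b : ℂ) * g))
    (hA : ∀ i, μ + b < 2 * i → A.coeff i = 0) (hAg : X ^ N ∣ A - g * h) :
    Even μ ∧ 2 * N ≤ μ + b + 2 := by
  have he' : X * (1 - 2 * X) * derivative h = (C (lam + μ) - C (μ : ℂ) * X) * h := by
    rw [C_add]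
    linear_combination he
  -- the order
  have hord : lam + μ = (h.natTrailingDegree : ℂ) := by
    have h0 : h.coeff h.natTrailingDegree ≠ 0 := by
      rw [← trailingCoeff]
      exact trailingCoeff_nonzero_iff_nonzero.2 hh
    rcases hj : h.natTrailingDegree with _ | j
    · rw [hj] at h0
      have h1 := congrArg (fun f => coeff f 0) he'
      rw [coeff_zero_op, mul_coeff_zero] at h1
      simp at h1
      rcases h1 with h2 | h2
      · rw [h2]
        simp
      · exact absurd h2 h0
    · rw [hj] at h0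
      have h1 := congrArg (fun f => coeff f (j + 1)) he'
      have h3 : h.coeff j = 0 :=
        coeff_eq_zero_of_lt_natTrailingDegree (by rw [hj]; exact Nat.lt_succ_self j)
      rw [coeff_succ_op, coeff_succ_rhs, h3, mul_zero, mul_zero, sub_zero, sub_zero] at h1
      have h2 := mul_right_cancel₀ h0 h1
      push_cast
      exact h2.symm
  -- the degree
  have hdeg : μ = 2 * h.natDegree := by
    have h0 : h.coeff h.natDegree ≠ 0 := by
      rw [coeff_natDegree]
      exact leadingCoeff_ne_zero.2 hh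
    have h1 := congrArg (fun f => coeff f (h.natDegree + 1)) he'
    rw [coeff_succ_op, coeff_succ_rhs, coeff_eq_zero_of_natDegree_lt (Nat.lt_succ_self _),
      mul_zero, mul_zero, zero_sub, zero_sub] at h1
    have h2 := mul_right_cancel₀ h0 (neg_injective h1)
    exact_mod_cast h2.symm
  refine ⟨⟨h.natDegree, by omega⟩, ?_⟩
  set p := h.natTrailingDegree with hp
  by_cases hpN : N ≤ p
  · have h1 : p ≤ h.natDegree := natTrailingDegree_le_natDegree h
    omega
  push Not at hpN
  set R := g * h with hR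
  -- the equation for the product
  have e1 : X * (1 - 2 * X) * derivative R = (C (p : ℂ) - C ((μ : ℂ) + b) * X) * R +
      h * (X * ((1 - 2 * X) * derivative g + C (b : ℂ) * g)) := by
    rw [hR, derivative_mul, ← hord, C_add (a := (μ : ℂ)) (b := (b : ℂ))]
    linear_combination g * he'
  have e2 : ∀ i, i + 1 < N → (((i : ℂ) + 1) - p) * R.coeff (i + 1) =
      (2 * (i : ℂ) - ((μ : ℂ) + b)) * R.coeff i := by
    intro i hi
    have h1 := congrArg (fun f => coeff f (i + 1)) e1
    obtain ⟨Q, hQ⟩ := hg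
    have h2 : (h * (X * ((1 - 2 * X) * derivative g + C (b : ℂ) * g))).coeff (i + 1) = 0 := by
      rw [hQ, show h * (X ^ N * Q) = X ^ N * (h * Q) by ring]
      exact coeff_X_pow_mul' _ _ _ |>.trans (if_neg (by omega))
    rw [coeff_add, h2, add_zero, coeff_succ_op, coeff_succ_rhs] at h1
    linear_combination h1
  have hne : ∀ i : ℕ, 2 * (i : ℂ) - ((μ : ℂ) + b) ≠ 0 := by
    intro i h0
    have h1 : ((2 * i : ℕ) : ℂ) = ((μ + b : ℕ) : ℂ) := by
      push_cast
      exact sub_eq_zero.1 h0
    have h2 : 2 * i = μ + b := by exact_mod_cast h1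
    obtain ⟨c, hc⟩ := hb
    omega
  have e3 : ∀ i, p ≤ i → i < N → R.coeff i ≠ 0 := by
    intro i hi
    induction i, hi using Nat.le_induction with
    | base =>
      intro _
      rw [hR, coeff_mul, Finset.sum_eq_single (0, p)]
      · refine mul_ne_zero g0 ?_
        rw [hp, ← trailingCoeff]
        exact trailingCoeff_nonzero_iff_nonzero.2 hh
      · rintro ⟨x, y⟩ hxy hne'
        rw [Finset.HasAntidiagonal.mem_antidiagonal] at hxy
        simp only at hxy ⊢
        rw [coeff_eq_zero_of_lt_natTrailingDegree (n := y), mul_zero]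
        rcases Nat.eq_zero_or_pos x with h0 | h0
        · exfalso
          apply hne'
          rw [Prod.mk.injEq]
          omega
        · omega
      · intro h'
        exfalso
        apply h'
        rw [Finset.HasAntidiagonal.mem_antidiagonal]
        simp
    | succ i hi ih =>
      intro hiN h0
      have h1 := e2 i hiN
      rw [h0, mul_zero] at h1
      rcases mul_eq_zero.1 h1.symm with h2 | h2
      · exact hne i h2
      · exact ih (by omega) h2
  have h4 := e3 (N - 1) (by omega) (by omega)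
  by_contra hlt
  push Not at hlt
  apply h4
  have h5 := hA (N - 1) (by omega)
  obtain ⟨Q, hQ⟩ := hAg
  have h6 : (A - R).coeff (N - 1) = 0 := by
    rw [hQ]
    exact coeff_X_pow_mul' _ _ _ |>.trans (if_neg (by omega))
  rw [coeff_sub, h5, zero_sub] at h6
  exact neg_eq_zero.1 h6

/-- an eigenvector in a stable nonzero space of polynomials of bounded degree -/
theorem exists_eig (V : Submodule ℂ ℂ[X]) (Θ : ℂ[X] →ₗ[ℂ] ℂ[X]) (hΘ : ∀ f ∈ V, Θ f ∈ V) {n : ℕ}
    (hV : ∀ f ∈ V, ∀ i, n ≤ i → f.coeff i = 0) (hne : V ≠ ⊥) :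
    ∃ (c : ℂ) (h : ℂ[X]), h ∈ V ∧ h ≠ 0 ∧ Θ h = c • h := by
  have h1 : V ≤ degreeLT ℂ n := by
    intro f hf
    rw [mem_degreeLT, degree_lt_iff_coeff_zero]
    exact fun i hi => hV f hf i hi
  have : FiniteDimensional ℂ (degreeLT ℂ n) :=
    (degreeLTEquiv ℂ n).symm.finiteDimensional
  have hfd : FiniteDimensional ℂ V := Submodule.finiteDimensional_of_le h1
  have hnt : Nontrivial V := Submodule.nontrivial_iff_ne_bot.2 hne
  obtain ⟨c, hc⟩ := Module.End.exists_eigenvalue (Θ.restrict hΘ)
  obtain ⟨⟨h, hh⟩, hh1⟩ := hc.exists_hasEigenvector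
  refine ⟨c, h, hh, fun h0 => hh1.2 (Subtype.ext h0), ?_⟩
  have h2 := congrArg Subtype.val (hh1.apply_eq_smul)
  exact h2

end Pool.Agent.W615
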