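import Pool.Agent.W615.NA7
import Pool.Agent.W615.NA8

/-!
# Regular unipotent groups of the plane: the action on the fibre at the fixed point (helper615)
-/

set_option autoImplicit false
set_option maxHeartbeats 400000

open MvPolynomial H960VB H938TB

namespace Pool.Agent.W615

theorem cm_X1pow_mul (k i : ℕ) (p : MvPolynomial (Fin (2 + 1)) ℂ) :
    cm (k + i) (X 1 ^ k * p) = cm i p := by
  rw [cm, map_mul, map_pow, lam_X1, Nat.add_comm k i, Polynomial.coeff_X_pow_mul]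
  rfl

theorem cm_X1_mul (i : ℕ) (p : MvPolynomial (Fin (2 + 1)) ℂ) :
    cm (i + 1) (X 1 * p) = cm i p := by
  have h := cm_X1pow_mul 1 i p
  rwa [pow_one, add_comm] at h

theorem cm_X2_mul (i : ℕ) (p : MvPolynomial (Fin (2 + 1)) ℂ) :
    cm (i + 2) (X 2 * p) = Polynomial.X * cm i p := by
  rw [cm, map_mul, lam_X2, mul_assoc, Polynomial.coeff_C_mul, Polynomial.coeff_X_pow_mul]
  rfl

theorem cm_X2pow_dvd (N i : ℕ) (p : MvPolynomial (Fin (2 + 1)) ℂ) :
    Polynomial.X ^ N ∣ cm i (X 2 ^ N * p) := by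
  rw [cm, map_mul, map_pow, lam_X2, mul_pow, mul_assoc, ← map_pow, Polynomial.coeff_C_mul]
  exact Dvd.intro _ rfl

theorem cm_C_mul (i : ℕ) (c : ℂ) (p : MvPolynomial (Fin (2 + 1)) ℂ) :
    cm i (C c * p) = Polynomial.C c * cm i p := by
  rw [cm, map_mul, lam_C, Polynomial.coeff_C_mul]
  rfl

theorem cm_neg (i : ℕ) (p : MvPolynomial (Fin (2 + 1)) ℂ) : cm i (-p) = - cm i p := by
  rw [cm, map_neg, Polynomial.coeff_neg]
  rfl

/-- the operator -/
noncomputable def Th (μ : ℕ) : Polynomial ℂ →ₗ[ℂ] Polynomial ℂ where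
  toFun f := Polynomial.X * (1 - 2 * Polynomial.X) * Polynomial.derivative f +
    Polynomial.C (μ : ℂ) * (Polynomial.X - 1) * f
  map_add' f g := by
    rw [Polynomial.derivative_add]
    ring
  map_smul' c f := by
    rw [Polynomial.derivative_smul, Polynomial.smul_eq_C_mul, Polynomial.smul_eq_C_mul,
      RingHom.id_apply, Polynomial.smul_eq_C_mul]
    ring

theorem Th_apply (μ : ℕ) (f : Polynomial ℂ) : Th μ f =
    Polynomial.X * (1 - 2 * Polynomial.X) * Polynomial.derivative f +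
    Polynomial.C (μ : ℂ) * (Polynomial.X - 1) * f := rfl

variable {E : Bundle2 2} {L : Lft (triv E) 0 δ3} {W : Wedge (triv E)}

theorem v_eq : hI 1 (Pi.single 0 1) = (Pi.single 0 1 : Fin 3 → ℂ) :=
  cInc_single (Fin.castSucc : Fin (1 + 1) → Fin (2 + 1)) 0

theorem not_X1_dvd {p : MvPolynomial (Fin (1 + 1)) ℂ}
    (h : eval (Pi.single 0 1 : Fin (1 + 1) → ℂ) p ≠ 0) : ¬ X 1 ∣ p := by
  rintro ⟨r, hr⟩
  apply h
  rw [hr, map_mul, eval_X, Pi.single_eq_of_ne (by decide), zero_mul]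

namespace MQ

variable (q : MQ L W)

include q

/-- the exponent `a` is small. -/
theorem a_le {k : ℕ} {T : MvPolynomial (Fin (2 + 1)) ℂ} {G : Vec E.a 2} (hG : Ker E G)
    (h : ∀ i, X 1 ^ k * q.s₂ i - T * q.s₁ i = X 2 ^ q.N * G i) : q.a ≤ k := by
  have hw := q.wdG (le_refl _) hG h
  rw [Nat.sub_self, pow_zero, mul_one] at hw
  obtain ⟨i, j, hij⟩ := W.P_ne (Pi.single 0 1) (e0_ne 2)
  have h1 := congrArg ρ2 (W.eq G q.s₁ hG q.h₁.ker i j)
  rw [hw, map_sub, map_mul, map_mul, map_mul, map_neg, map_mul, map_pow, ρ2_C, ρ2_X1,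
    show ρ2 (q.s₁ i) = X 1 ^ q.a * q.σ i from q.r₁ i,
    show ρ2 (q.s₁ j) = X 1 ^ q.a * q.σ j from q.r₁ j] at h1
  have hc : (C q.c⁻¹ : MvPolynomial (Fin (1 + 1)) ℂ) * C q.c = 1 := by
    rw [← C_mul, inv_mul_cancel₀ q.hc, C_1]
  have h2 : (X 1 : MvPolynomial (Fin (1 + 1)) ℂ) ^ q.a ∣ X 1 ^ k * ρ2 (W.P i j) := by
    refine ⟨-(C q.c⁻¹) * (ρ2 (G i) * q.σ j - ρ2 (G j) * q.σ i), ?_⟩
    linear_combination (C q.c⁻¹) * h1 - (X 1 ^ k * ρ2 (W.P i j)) * hc
  have h3 : ¬ (X 1 : MvPolynomial (Fin (1 + 1)) ℂ) ∣ ρ2 (W.P i j) := by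
    apply not_X1_dvd
    rw [eval_lsub, v_eq]
    exact hij
  have h4 := Prime.pow_dvd_of_dvd_mul_right (X_prime (i := (1 : Fin (1 + 1))) (R := ℂ)) q.a h3 h2
  exact (pow_dvd_pow_iff (X_ne_zero _) X_prime.not_isUnit).1 h4

/-- a section whose wedge product with the first invariant section has a component of small
weight -/
theorem exists_low (A : NA L W) : ∃ (m : ℕ) (τ : M) (G : Vec E.a 2), m ≤ q.a ∧
    HSec (triv E) τ G ∧ cm m (W.wd G q.s₁) ≠ 0 := by
  set x : Fin (1 + 1) → ℂ := Pi.single 0 1 with hx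
  have hx0 : x ≠ 0 := e0_ne 1
  have hev : ∀ p, eval x (ρ2 p) = eval (Pi.single 0 1 : Fin 3 → ℂ) p := by
    intro p
    rw [eval_lsub, v_eq]
  obtain ⟨j₀, hj₀⟩ : ∃ j, eval x (q.σ j) ≠ 0 := by
    by_contra hc
    push Not at hc
    exact q.nz x hx0 (funext hc)
  obtain ⟨τ, G, hG, i, j, hij⟩ : ∃ (τ : M) (G : Vec E.a 2), HSec (triv E) τ G ∧
      ∃ i j, eval x (ρ2 (G i) * q.σ j - ρ2 (G j) * q.σ i) ≠ 0 := by
    by_contra hc
    push Not at hc
    have key : ∀ (τ : M) (G : Vec E.a 2), HSec (triv E) τ G → ∀ i,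
        eval (Pi.single 0 1 : Fin 3 → ℂ) (G i) =
          (eval (Pi.single 0 1 : Fin 3 → ℂ) (G j₀) / eval x (q.σ j₀)) * eval x (q.σ i) := by
      intro τ G hG i
      have h1 := hc τ G hG i j₀
      rw [map_sub, map_mul, map_mul, hev, hev] at h1
      field_simp
      linear_combination h1
    obtain ⟨i, j, hij⟩ := W.P_ne (Pi.single 0 1) (e0_ne 2)
    have h1 := congrArg (eval (Pi.single 0 1 : Fin 3 → ℂ)) (W.eq A.G₁ A.G₂ A.h₁.ker A.h₂.ker i j)
    rw [map_sub, map_mul, map_mul, map_mul, key _ _ A.h₁ i, key _ _ A.h₁ j, key _ _ A.h₂ i,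
      key _ _ A.h₂ j] at h1
    have h2 : eval (Pi.single 0 1 : Fin 3 → ℂ) (W.wd A.G₁ A.G₂) *
        eval (Pi.single 0 1 : Fin 3 → ℂ) (W.P i j) = 0 := by
      rw [← h1]
      ring
    exact (mul_eq_zero.1 h2).elim A.hu hij
  have h1 := congrArg ρ2 (W.eq G q.s₁ hG.ker q.h₁.ker i j)
  rw [map_sub, map_mul, map_mul, map_mul,
    show ρ2 (q.s₁ i) = X 1 ^ q.a * q.σ i from q.r₁ i,
    show ρ2 (q.s₁ j) = X 1 ^ q.a * q.σ j from q.r₁ j] at h1
  obtain ⟨v, hv, hv1⟩ : ∃ v, coeff v (ρ2 (W.wd G q.s₁)) ≠ 0 ∧ v 1 ≤ q.a := by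
    by_contra hc
    push Not at hc
    obtain ⟨r, hr⟩ := Xpow_dvd_of (j := (1 : Fin (1 + 1))) (a := q.a + 1) (fun u hu => hc u hu)
    rw [hr] at h1
    apply not_X1_dvd hij
    refine ⟨r * ρ2 (W.P i j), ?_⟩
    apply mul_left_cancel₀ (pow_ne_zero q.a (X_ne_zero (R := ℂ) (1 : Fin (1 + 1))))
    linear_combination h1
  refine ⟨v 1, τ, G, hv1, hG, ?_⟩
  rw [coeff_ρ2] at hv
  rcases homZ_of (W.hom _ _ _ _ hG q.h₁) with h2 | ⟨D, -, h2⟩
  · rw [h2] at hv
    exact absurd (coeff_zero _) hv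
  · have h3 := coeff_of_cm h2 (deg_of_supp h2 hv)
    have h4 : wt2 (up v) = v 1 := by
      unfold wt2
      rw [show (up v) (1 : Fin 3) = v 1 from up_1 v, show (up v) (2 : Fin 3) = 0 from up_2 v]
      ring
    rw [h4] at h3
    intro h5
    rw [h5, Polynomial.coeff_zero] at h3
    exact hv h3.symm

end MQ

/-- **Contradiction.** -/
theorem NA.false (A : NA L W) (hE : ¬ E.Splits) : False := by
  obtain ⟨q⟩ := A.exists_MQ hE
  obtain ⟨k, hk, hk'⟩ : ∃ k : ℕ, 2 * q.N ≤ k + q.b + 2 ∧ (1 ≤ k → k + q.b + 2 = 2 * q.N) :=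
    ⟨2 * q.N - 2 - q.b, by omega, by omega⟩
  obtain ⟨T, GN, hT, hTB, hTρ, hGN, hTG⟩ := q.chain hk q.N q.hN (le_refl _)
  have kGN := hGN.ker
  have k1 := q.h₁.ker
  have k2 := q.h₂.ker
  have hak := q.a_le kGN hTG
  have hkb : k + q.b + 2 = 2 * q.N := hk' (by have := q.ha; omega)
  -- the order of `T`
  have hTo : ∀ i, i < k + q.b → cm i T = 0 := by
    intro i hi
    rw [cm_eq]
    refine Finset.sum_eq_zero fun u hu => ?_
    rw [mem_support_iff] at hu
    rw [if_neg]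
    have h1 := deg_of_supp hT hu
    have h2 := hTB u hu
    unfold wt2
    have h3 : u (0 : Fin 3) + 0 ≤ u (2 : Fin 3) + 0 := h2
    omega
  set g := cm (k + q.b) T with hg
  have g0 : g.coeff 0 ≠ 0 := by
    have h1 := coeff_ρ2 T (Finsupp.single 1 (k + q.b))
    rw [hTρ, X_pow_eq_monomial, coeff_monomial, if_pos rfl] at h1
    set v : Fin (1 + 1) →₀ ℕ := Finsupp.single 1 (k + q.b) with hv
    have hv0 : v 0 = 0 := by simp [hv]
    have hv1 : v 1 = k + q.b := by simp [hv]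
    have h2 := coeff_of_cm hT (u := up v) (by
      rw [show (up v) (0 : Fin 3) = v 0 from up_0 v, show (up v) (1 : Fin 3) = v 1 from up_1 v,
        show (up v) (2 : Fin 3) = 0 from up_2 v, hv0, hv1]
      ring)
    have h3 : wt2 (up v) = k + q.b := by
      unfold wt2
      rw [show (up v) (1 : Fin 3) = v 1 from up_1 v, show (up v) (2 : Fin 3) = 0 from up_2 v, hv1]
      ring
    rw [h3, show (up v) (2 : Fin 3) = 0 from up_2 v] at h2
    rw [hg, h2, ← h1]
    exact one_ne_zero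
  have hgN : Polynomial.X ^ q.N ∣ Polynomial.X * ((1 - 2 * Polynomial.X) *
      Polynomial.derivative g + Polynomial.C (q.b : ℂ) * g) := by
    obtain ⟨U, hU, -⟩ := q.dvdP hTG
    have h1 := congrArg (cm (k + q.b + 2)) hU
    rw [cm_sub, mul_assoc, cm_C_mul, cm_X2_mul, show k + q.b + 2 = (k + q.b + 1) + 1 by ring,
      cm_X1_mul, cm_δ hT] at h1
    have h2 : Polynomial.X ^ q.N ∣ cm (k + q.b + 1 + 1) (X 2 ^ q.N * U) := cm_X2pow_dvd _ _ _
    rw [← h1, ← hg, opz] at h2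
    have h3 : Polynomial.X * ((1 - 2 * Polynomial.X) *
        Polynomial.derivative g + Polynomial.C (q.b : ℂ) * g) =
        -(Polynomial.C (k : ℂ) * (Polynomial.X * g) -
        (Polynomial.X * (1 - 2 * Polynomial.X) * Polynomial.derivative g +
          (Polynomial.C ((k + q.b : ℕ) : ℂ) * (Polynomial.X - 1) +
          Polynomial.C ((k + q.b : ℕ) : ℂ)) * g)) := by
      push_cast
      rw [Polynomial.C_add]
      ring
    rw [h3, dvd_neg]
    exact h2
  -- the minimal weight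
  classical
  have hex : ∃ m : ℕ, ∃ (τ : M) (G : Vec E.a 2), HSec (triv E) τ G ∧ cm m (W.wd G q.s₁) ≠ 0 := by
    obtain ⟨m, τ, G, -, hG, h⟩ := q.exists_low A
    exact ⟨m, τ, G, hG, h⟩
  set μ := Nat.find hex with hμ
  have hμa : μ ≤ q.a := by
    obtain ⟨m, τ, G, hm, hG, h⟩ := q.exists_low A
    exact (Nat.find_min' hex ⟨τ, G, hG, h⟩).trans hm
  have hmin : ∀ (τ : M) (G : Vec E.a 2), HSec (triv E) τ G → OO μ (W.wd G q.s₁) := by
    intro τ G hG i hi
    by_contra hne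
    exact Nat.find_min hex hi ⟨τ, G, hG, hne⟩
  obtain ⟨τ₀, G₀, hG₀, hne₀⟩ := Nat.find_spec hex
  rw [← hμ] at hne₀
  let S : Set (Polynomial ℂ) :=
    {f | ∃ (τ : M) (G : Vec E.a 2), HSec (triv E) τ G ∧ f = cm μ (W.wd G q.s₁)}
  let V := Submodule.span ℂ S
  have hVS : ∀ (τ : M) (G : Vec E.a 2), HSec (triv E) τ G → cm μ (W.wd G q.s₁) ∈ V :=
    fun τ G hG => Submodule.subset_span ⟨τ, G, hG, rfl⟩
  have hVC : ∀ (c : ℂ) (f : Polynomial ℂ), f ∈ V → Polynomial.C c * f ∈ V := by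
    intro c f hf
    rw [← Polynomial.smul_eq_C_mul]
    exact V.smul_mem c hf
  -- stability
  have hΘ : ∀ f ∈ V, Th μ f ∈ V := by
    intro f hf
    induction hf using Submodule.span_induction with
    | mem f hf =>
      obtain ⟨τ, G, hG, rfl⟩ := hf
      rcases homZ_of (W.hom _ _ _ _ hG q.h₁) with h2 | ⟨D, -, h2⟩
      · rw [h2, cm_zero, map_zero]
        exact V.zero_mem
      · have kG := hG.ker
        have kLG := L.op_ker kG
        have h3 := A.tr G q.s₁ kG k1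
        rw [wd_zero_right W kG (L.op_ker k1) q.l₁, add_zero] at h3
        have h4 := cm_δ h2 μ
        rw [← h3] at h4
        have h5 : OO (μ + 1) (W.wd (L.op G) q.s₁) := by
          rw [h3]
          exact OO_δ (W.hom _ _ _ _ hG q.h₁) (hmin _ _ hG)
        have h6 := W.four A.G₁ A.G₂ (L.op G) q.s₁ A.h₁.ker A.h₂.ker kLG k1
        have h7 := congrArg (cm (0 + (μ + 1))) h6
        rw [cm_add, cm_sub, cm_zero, cm_mul (OO_zero _) h5, cm_zero_eq,
          show 0 + (μ + 1) = 1 + μ by ring, cm_mul (A.OO_wd A.h₁.ker kG) (hmin _ _ A.h₂),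
          mul_comm (W.wd A.G₁ q.s₁), cm_mul (A.OO_wd A.h₂.ker kG) (hmin _ _ A.h₁)] at h7
        obtain ⟨c1, hc1⟩ := cm_one_eq (W.wd A.G₁ (L.op G))
        obtain ⟨c2, hc2⟩ := cm_one_eq (W.wd A.G₂ (L.op G))
        rw [hc1, hc2, h4] at h7
        set u := eval (Pi.single 0 1 : Fin 3 → ℂ) (W.wd A.G₁ A.G₂) with hu
        have h8 : (Polynomial.C u⁻¹ : Polynomial ℂ) * Polynomial.C u = 1 := by
          rw [← Polynomial.C_mul, inv_mul_cancel₀ A.hu, Polynomial.C_1]
        have h9 : Th μ (cm μ (W.wd G q.s₁)) = Polynomial.C (u⁻¹ * c1) * cm μ (W.wd A.G₂ q.s₁) -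
            Polynomial.C (u⁻¹ * c2) * cm μ (W.wd A.G₁ q.s₁) -
            Polynomial.C (D : ℂ) * cm μ (W.wd G q.s₁) := by
          rw [Polynomial.C_mul, Polynomial.C_mul, Th_apply]
          rw [opz] at h7
          linear_combination (Polynomial.C u⁻¹) * h7 -
            (Polynomial.X * (1 - 2 * Polynomial.X) * Polynomial.derivative (cm μ (W.wd G q.s₁)) +
              (Polynomial.C (μ : ℂ) * (Polynomial.X - 1) + Polynomial.C (D : ℂ)) *
              cm μ (W.wd G q.s₁)) * h8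
        rw [h9]
        exact V.sub_mem (V.sub_mem (hVC _ _ (hVS _ _ A.h₂)) (hVC _ _ (hVS _ _ A.h₁)))
          (hVC _ _ (hVS _ _ hG))
    | zero =>
      rw [map_zero]
      exact V.zero_mem
    | add f g _ _ hf hg =>
      rw [map_add]
      exact V.add_mem hf hg
    | smul c f _ hf =>
      rw [map_smul]
      exact V.smul_mem c hf
  have hVd : ∀ f ∈ V, ∀ i, μ + 1 ≤ i → f.coeff i = 0 := by
    intro f hf i hi
    induction hf using Submodule.span_induction with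
    | mem f hf =>
      obtain ⟨τ, G, hG, rfl⟩ := hf
      exact cm_deg _ _ (by omega)
    | zero => exact Polynomial.coeff_zero _
    | add f g _ _ hf hg => rw [Polynomial.coeff_add, hf, hg, add_zero]
    | smul c f _ hf => rw [Polynomial.coeff_smul, hf, smul_zero]
  have hVne : V ≠ ⊥ := by
    intro h0
    have h1 := hVS _ _ hG₀
    rw [h0, Submodule.mem_bot] at h1
    exact hne₀ h1
  -- the property of the elements of `V`
  have hQ : ∀ f ∈ V, ∃ B : Polynomial ℂ, (∀ i, μ + q.b < 2 * i → B.coeff i = 0) ∧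
      Polynomial.X ^ q.N ∣ B - g * f := by
    intro f hf
    induction hf using Submodule.span_induction with
    | mem f hf =>
      obtain ⟨τ, G, hG, rfl⟩ := hf
      have kG := hG.ker
      refine ⟨cm (q.b + μ) (W.wd G q.s₂), fun i hi => cm_deg _ _ (by omega), ?_⟩
      have h1 : W.wd G (fun i => X 1 ^ k * q.s₂ i - T * q.s₁ i) = X 2 ^ q.N * W.wd G GN :=
        wd_of_mul_right W kGN kG hTG
      have h2 : W.wd G (fun i => X 1 ^ k * q.s₂ i - T * q.s₁ i) =
          X 1 ^ k * W.wd G q.s₂ - T * W.wd G q.s₁ := by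
        rw [← wd_mul_right W k2 kG, ← wd_mul_right W k1 kG]
        exact wd_sub_right W (ker_mul k2 _) (ker_mul k1 _) kG
      have h3 := congrArg (cm (k + (q.b + μ))) (h2.symm.trans h1)
      rw [cm_sub, cm_X1pow_mul, show k + (q.b + μ) = (k + q.b) + μ by ring,
        cm_mul hTo (hmin _ _ hG)] at h3
      rw [hg, h3]
      exact cm_X2pow_dvd _ _ _
    | zero =>
      exact ⟨0, fun i _ => Polynomial.coeff_zero _, by simp⟩
    | add f f' _ _ hf hf' =>
      obtain ⟨B, hB, hB'⟩ := hf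
      obtain ⟨B₁, hB₁, hB₁'⟩ := hf'
      refine ⟨B + B₁, fun i hi => by rw [Polynomial.coeff_add, hB i hi, hB₁ i hi, add_zero], ?_⟩
      have h1 := dvd_add hB' hB₁'
      have h2 : B + B₁ - g * (f + f') = B - g * f + (B₁ - g * f') := by ring
      rw [h2]
      exact h1
    | smul c f _ hf =>
      obtain ⟨B, hB, hB'⟩ := hf
      refine ⟨c • B, fun i hi => by rw [Polynomial.coeff_smul, hB i hi, smul_zero], ?_⟩
      have h2 : c • B - g * (c • f) = Polynomial.C c * (B - g * f) := by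
        rw [Polynomial.smul_eq_C_mul, Polynomial.smul_eq_C_mul]
        ring
      rw [h2]
      exact hB'.mul_left _
  obtain ⟨c, h, hhV, hh0, hh⟩ := exists_eig V (Th μ) hΘ hVd hVne
  obtain ⟨B, hB, hB'⟩ := hQ h hhV
  obtain ⟨⟨r, hr⟩, h1⟩ := num_lemma (μ := μ) q.hb hh0 (by
    rw [Th_apply, Polynomial.smul_eq_C_mul] at hh
    exact hh) g0 hgN hB hB'
  obtain ⟨r', hr'⟩ := q.hb
  omega

/-- **Lemma N'.**  If the generator of a regular unipotent one-parameter group of the plane lifts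
to a nonsplit bundle of rank two, the lift does not act trivially on the fibre at the fixed
point. -/
theorem lemma_N (hE : ¬ E.Splits) (L : Lft (triv E) 0 δ3) : ∃ G : Vec E.a 2, Ker E G ∧
    evv (L.op G) (Pi.single 0 1 : Fin 3 → ℂ) ≠ 0 := by
  by_contra hc
  push Not at hc
  obtain ⟨W⟩ := exists_wedge (by norm_num) (triv E)
  obtain ⟨A⟩ := exists_NA L W hc
  exact A.false hE

end Pool.Agent.W615
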