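import Pool.Agent.W615.Elation7
import Pool.Agent.W615.QuadLin2

/-!
# Elations normalised by a torus (helper615)
-/

set_option autoImplicit false
set_option maxHeartbeats 400000

open MvPolynomial H960VB H938TB

namespace Pool.Agent.W615

section
variable {m : ℕ} {E : Bundle2 (m + 1)} {k : Fin (m + 1)} {w : Fin (m + 1 + 1) → ℤ × ℤ}
  {D : EqB E w} {ω : M}

theorem elat_hom0 (k : Fin (m + 1)) (i : Fin (m + 1 + 1)) :
    IsWeightedHomogeneous (tw (0 : Fin (m + 1 + 1) → ℤ × ℤ)) (elat k (X i)) (tw 0 i + 0) := by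
  rw [elat_apply]
  refine Fin.lastCases ?_ (fun j => ?_) i
  · rw [pderiv_tX, mul_zero]
    exact isWeightedHomogeneous_zero _ _ _
  · by_cases hj : j = k
    · subst hj
      rw [pderiv_X_self, mul_one, add_zero]
      exact isWeightedHomogeneous_X _ _ _
    · rw [pderiv_X_of_ne (fun h => hj (Fin.castSucc_injective _ h)), mul_zero]
      exact isWeightedHomogeneous_zero _ _ _

/-- forget the weights -/
noncomputable def frg (L : Lft D ω (elat k)) (hω1 : ω.1 = 0) : Lft (triv E) 0 (elat k) where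
  ν := L.ν
  μ := L.μ
  hδ := elat_hom0 k
  hν := by
    intro i j
    have h1 := homZ_of (L.hν i j)
    have h2 : ((E.β i, D.b i) - (E.β j, D.b j) + ω : M).1 = E.β i - E.β j := by
      rw [Prod.fst_add, hω1, add_zero]
      rfl
    rw [h2] at h1
    have h3 := wh_triv h1
    convert h3 using 1
    simp [triv]
  comm := L.comm

/-- the weights on the hyperplane -/
noncomputable abbrev DT (D : EqB E w) : EqB (resE E) (w ∘ Fin.castSucc) :=
  D.pull (hI m) (hI_inj m) (w ∘ Fin.castSucc) (cInc_weight Fin.castSucc w)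

/-- the restriction to the hyperplane -/
noncomputable def resT (L : Lft D ω (elat k)) : Lft (DT D) ω (0 : Der m) :=
  L.pull (hI m) (hI_inj m) (w ∘ Fin.castSucc) (cInc_weight Fin.castSucc w) 0
    (by
      intro i
      rw [elat_apply, map_mul, lsub_tX, zero_mul, Derivation.zero_apply])
    (by
      intro i
      rw [Derivation.zero_apply]
      exact isWeightedHomogeneous_zero _ _ _)

theorem resT_op (L : Lft D ω (elat k)) (hω1 : ω.1 = 0) (H : Vec E.a m) :
    (resT L).op H = ep (frg L hω1) H := by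
  funext i
  show (0 : Der m) (H i) + ∑ j, lsub (hI m) (L.ν i j) * H j = _
  rw [Derivation.zero_apply, zero_add]
  rfl

theorem two_ne {ω : M} (hω0 : ω ≠ 0) : ω + ω ≠ 0 := by
  intro h
  apply hω0
  obtain ⟨a, b, c⟩ := ω
  have h1 : a + a = 0 := congrArg (fun x : M => x.1) h
  have h2 : b + b = 0 := congrArg (fun x : M => x.2.1) h
  have h3 : c + c = 0 := congrArg (fun x : M => x.2.2) h
  have h1' : a = 0 := by omega
  have h2' : b = 0 := by omega
  have h3' : c = 0 := by omega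
  rw [h1', h2', h3']
  rfl

theorem det_zero {n : ℕ} {w : Fin (n + 1) → ℤ × ℤ} {E : Bundle2 n} {D : EqB E w} (W : Wedge D)
    {ω : M} (A : Lft D ω (0 : Der n)) (hn : 1 ≤ n) (hω1 : ω.1 = 0) (hω0 : ω ≠ 0)
    {G G' : Vec E.a n} (hG : Ker E G) (hG' : Ker E G') : W.wd (A.op G) (A.op G') = 0 := by
  obtain ⟨d, h1, h2⟩ := exists_mult W hn (ω + ω) (by rw [Prod.fst_add, hω1]; rfl)
    (fun G G' => W.wd (A.op G) (A.op G'))
    (fun i j => ∑ k, ∑ l, A.ν i k * A.ν j l * W.P k l) (by
      intro G G' hG hG' i j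
      have a1 := W.eq (A.op G) (A.op G') (A.op_ker hG) (A.op_ker hG') i j
      have b1 : ∀ K : Vec E.a n, ∀ i, A.op K i = ∑ j, A.ν i j * K j := by
        intro K i
        simp [Lft.op]
      rw [b1, b1, b1, b1] at a1
      show W.wd (A.op G) (A.op G') * W.P i j = _
      rw [← a1]
      have h3 : (∑ y, A.ν j y * G y) * ∑ x, A.ν i x * G' x =
          ∑ x, ∑ y, A.ν i x * G' x * (A.ν j y * G y) := by
        rw [mul_comm, Finset.sum_mul_sum]
      have h2 : (∑ x, A.ν i x * G x) * ∑ y, A.ν j y * G' y =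
          ∑ x, ∑ y, A.ν i x * G x * (A.ν j y * G' y) := by
        rw [Finset.sum_mul_sum]
      rw [h3, h2, ← Finset.sum_sub_distrib, Finset.mul_sum]
      refine Finset.sum_congr rfl fun k _ => ?_
      rw [Finset.mul_sum, ← Finset.sum_sub_distrib]
      refine Finset.sum_congr rfl fun l _ => ?_
      have h4 := W.eq G G' hG hG' k l
      linear_combination A.ν i k * A.ν j l * h4)
    (by
      intro τ τ' G G' hG hG'
      have a1 := W.hom _ _ _ _ (A.op_hom hG) (A.op_hom hG')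
      have e : τ + τ' + W.κ + (ω + ω) = τ + ω + (τ' + ω) + W.κ := by abel
      rw [e]
      exact a1)
  have h3 := h2 G G' hG hG'
  rw [h1 (two_ne hω0), C_0, zero_mul] at h3
  exact h3

/-- the endomorphism on the axis is nilpotent. -/
theorem nilT (hm : 1 ≤ m) (L : Lft D ω (elat k)) (hω1 : ω.1 = 0) (hω0 : ω ≠ 0)
    (W' : Wedge (resD E)) :
    (∀ H H' : Vec E.a m, Ker (resE E) H → Ker (resE E) H' →
      W'.wd (ep (frg L hω1) H) H' + W'.wd H (ep (frg L hω1) H') = 0) ∧
    (∀ H : Vec E.a m, Ker (resE E) H → ∀ i, ep (frg L hω1) (ep (frg L hω1) H) i = 0) := by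
  obtain ⟨W₁⟩ := exists_wedge hm (DT D)
  obtain ⟨θ, hθ0, hθ⟩ := (resT L).exists_trace W₁ hm hω1
  rw [hθ0 hω0, C_0] at hθ
  simp only [Derivation.zero_apply, zero_mul, add_zero] at hθ
  have ht : ∀ H H' : Vec E.a m, Ker (resE E) H → Ker (resE E) H' →
      W₁.wd (ep (frg L hω1) H) H' + W₁.wd H (ep (frg L hω1) H') = 0 := by
    intro H H' hH hH'
    have h1 := hθ H H' hH hH'
    rwa [resT_op L hω1, resT_op L hω1] at h1
  have hd : ∀ H H' : Vec E.a m, Ker (resE E) H → Ker (resE E) H' →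
      W₁.wd (ep (frg L hω1) H) (ep (frg L hω1) H') = 0 := by
    intro H H' hH hH'
    have h1 := det_zero W₁ (resT L) hm hω1 hω0 hH hH'
    rwa [resT_op L hω1, resT_op L hω1] at h1
  constructor
  · intro H H' hH hH'
    obtain ⟨i, j, hij⟩ := exists_P_ne W'
    apply mul_right_cancel₀ hij
    have k1 : Ker (resE E) (ep (frg L hω1) H) := ep_ker _ hH
    have k1' : Ker (resE E) (ep (frg L hω1) H') := ep_ker _ hH'
    have a1 := W'.eq (ep (frg L hω1) H) H' k1 hH' i j
    have a2 := W'.eq H (ep (frg L hω1) H') hH k1' i j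
    have b1 := W₁.eq (ep (frg L hω1) H) H' k1 hH' i j
    have b2 := W₁.eq H (ep (frg L hω1) H') hH k1' i j
    have b3 := ht H H' hH hH'
    linear_combination -a1 - a2 + b1 + b2 + W₁.P i j * b3
  · intro H hH i
    have k1 : Ker (resE E) (ep (frg L hω1) H) := ep_ker _ hH
    have k2 : Ker (resE E) (ep (frg L hω1) (ep (frg L hω1) H)) := ep_ker _ k1
    refine eq_zero_of_wd W₁ k2 (fun K hK => ?_) i
    have h1 := ht (ep (frg L hω1) H) K k1 hK
    rw [hd H K hH hK, add_zero] at h1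
    exact h1

theorem exists_ED' (hE : ¬ E.Splits) (L : Lft (triv E) 0 (elat k))
    (W : Wedge (triv E)) (W' : Wedge (resD E))
    (n1 : ∀ H H' : Vec E.a m, Ker (resE E) H → Ker (resE E) H' →
      W'.wd (ep L H) H' + W'.wd H (ep L H') = 0)
    (n2 : ∀ H : Vec E.a m, Ker (resE E) H → ∀ i, ep L (ep L H) i = 0) : Nonempty (ED L W') := by
  have h1 : ∃ τ G, HSec (triv E) τ G ∧ ∃ i, ep L (rv G) i ≠ 0 := by
    by_contra hc
    push Not at hc
    exact hE (splits_of_div L W hc)
  obtain ⟨d, ⟨τ₀, G₀, hG₀, hd, i₀, hi₀⟩, hmin⟩ := Int.exists_least_of_bdd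
    (P := fun d => ∃ τ G, HSec (triv E) τ G ∧ τ.1 = d ∧ ∃ i, ep L (rv G) i ≠ 0)
    (by
      refine ⟨-∑ i, |E.β i|, ?_⟩
      rintro z ⟨τ, G, hG, rfl, i, hi⟩
      have h2 : ∃ j, G j ≠ 0 := by
        by_contra hc
        push Not at hc
        exact hi (ep_zero L (fun j => by
          show lsub (hI m) (G j) = 0
          rw [hc j, map_zero]) i)
      obtain ⟨j, hj⟩ := h2
      have h3 := degree_nonneg (hG.hom j) hj
      have h4 : ((E.β j, (triv E).b j) + τ : M).1 = E.β j + τ.1 := rfl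
      rw [h4] at h3
      have h5 : E.β j ≤ ∑ i, |E.β i| := (le_abs_self _).trans
        (Finset.single_le_sum (f := fun i => |E.β i|) (fun _ _ => abs_nonneg _)
          (Finset.mem_univ j))
      linarith)
    (by
      obtain ⟨τ, G, hG, h⟩ := h1
      exact ⟨τ.1, τ, G, hG, rfl, h⟩)
  obtain ⟨δ, g, s, hg0, -, hs, hsp, hGs⟩ := exists_prm (D := resD E) (by
    have h := (resL L).op_hom (rv_sec hG₀)
    rw [ep_eq] at h
    exact h) ⟨i₀, hi₀⟩
  refine ⟨⟨n1, n2, G₀, τ₀, hG₀, s, _, hs, hsp, g, hg0, hGs, ?_⟩⟩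
  intro τ G hG hlt i
  by_contra hne
  have := hmin τ.1 ⟨τ, G, hG, rfl, i, hne⟩
  omega

/-- the value of `wd g g' / tX` at a common zero -/
theorem J_eval {L : Lft (triv E) 0 (elat k)} (W : Wedge D) {q : Fin (m + 1) → ℂ} (hq : q ≠ 0)
    {g g' : Vec E.a (m + 1)} (hg : Ker E g) (hg' : Ker E g') (h1 : evv g (hI m q) = 0)
    (h1' : evv g' (hI m q) = 0) {u : MvPolynomial (Fin (m + 1 + 1)) ℂ}
    (hw : W.wd g g' = tX m * u) : eval (hI m q) u = 0 := by
  obtain ⟨i, j, hij⟩ := W.P_ne (hI m q) (fun h => hq (hI_inj m (h.trans (map_zero _).symm)))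
  have h2 := congrArg (fun p => eval (hI m q) (pderiv (Fin.last (m + 1)) p))
    (W.eq g g' hg hg' i j)
  have a1 : ∀ i, eval (hI m q) (g i) = 0 := fun i => congrFun h1 i
  have a1' : ∀ i, eval (hI m q) (g' i) = 0 := fun i => congrFun h1' i
  simp only [hw, map_sub, Derivation.leibniz, smul_eq_mul, map_add, map_mul, a1, a1', zero_mul,
    add_zero, sub_zero] at h2
  have h3 : eval (hI m q) (tX m) = 0 := by
    rw [← eval_lsub, lsub_tX, map_zero]
  have h4 : pderiv (Fin.last (m + 1)) (tX m) = 1 := pderiv_X_self _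
  rw [h3, h4, map_one] at h2
  have h5 : eval (hI m q) (W.P i j) * eval (hI m q) u = 0 := by
    linear_combination -h2
  exact (mul_eq_zero.1 h5).resolve_left hij

/-- divisibility of the wedge products -/
theorem dvd_wdT {L : Lft (triv E) 0 (elat k)} {W' : Wedge (resD E)} (e : ED L W') (W : Wedge D)
    {G G' : Vec E.a (m + 1)} (hG : Mp L G) (hG' : Mp L G') :
    ∃ u, W.wd G G' = tX m * u := by
  obtain ⟨f, hf⟩ := e.kerA (rv_ker hG.1) hG.2
  obtain ⟨f', hf'⟩ := e.kerA (rv_ker hG'.1) hG'.2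
  have h1 : ∀ i, lsub (hI m) (G i) = f * e.s i := hf
  have h2 : ∀ i, lsub (hI m) (G' i) = f' * e.s i := hf'
  obtain ⟨i, j, hij⟩ := W.P_ne (hI m (fun _ => 1)) (fun h => by
    have := hI_inj m (h.trans (map_zero _).symm)
    simpa using congrFun this 0)
  have h3 : lsub (hI m) (W.P i j) ≠ 0 := by
    intro h0
    apply hij
    rw [← eval_lsub, h0, map_zero]
  have h4 := congrArg (lsub (hI m)) (W.eq G G' hG.1 hG'.1 i j)
  rw [map_sub, map_mul, map_mul, map_mul, h1, h1, h2, h2] at h4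
  have h5 : lsub (hI m) (W.wd G G') * lsub (hI m) (W.P i j) = 0 := by
    rw [← h4]
    ring
  exact dvd_of_res ((mul_eq_zero.1 h5).resolve_right h3)

end

end Pool.Agent.W615
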