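import Pool.Agent.W615.P2E

/-!
# Elations normalised by a torus: lowering the degree (helper615)
-/

set_option autoImplicit false
set_option maxHeartbeats 400000

open MvPolynomial H960VB H938TB

namespace Pool.Agent.W615

/-- a homogeneous polynomial which does not vanish at a coordinate point -/
theorem type_of_eval {n : ℕ} {w : Fin (n + 1) → ℤ × ℤ} (k : Fin (n + 1))
    {p : MvPolynomial (Fin (n + 1)) ℂ} {τ : M} (hp : IsWeightedHomogeneous (tw w) p τ)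
    (h : eval (Pi.single k 1 : Fin (n + 1) → ℂ) p ≠ 0) : ∃ N : ℕ, τ = N • tw w k := by
  obtain ⟨u, hu, hu0⟩ : ∃ u ∈ p.support, ∀ i, i ≠ k → u i = 0 := by
    by_contra hc
    push Not at hc
    apply h
    rw [eval_eq']
    refine Finset.sum_eq_zero fun u hu => ?_
    obtain ⟨i, hi, hui⟩ := hc u hu
    rw [Finset.prod_eq_zero (Finset.mem_univ i), mul_zero]
    rw [Pi.single_eq_of_ne hi]
    exact zero_pow hui
  refine ⟨u k, ?_⟩
  have h1 := hp (mem_support_iff.1 hu)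
  rw [← h1, Finsupp.weight_apply, Finsupp.sum_fintype _ _ (by intro i; simp),
    Finset.sum_eq_single k]
  · intro i _ hi
    rw [hu0 i hi, zero_smul]
  · intro h; exact absurd (Finset.mem_univ _) h

section
variable {m : ℕ} {E : Bundle2 (m + 1)} {k : Fin (m + 1)} {w : Fin (m + 1 + 1) → ℤ × ℤ}
  {D : EqB E w} (W : Wedge D) {ω : M}

theorem frg_op (L : Lft D ω (elat k)) (hω1 : ω.1 = 0) (G : Vec E.a (m + 1)) :
    (frg L hω1).op G = L.op G := by
  funext i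
  simp only [Lft.op]
  rfl

theorem final_split {τ : M} {g g' : Vec E.a (m + 1)} (hg : HSec D τ g) (hg' : Ker E g')
    {s : Vec E.a m} {a j : ℂ} (ha : a ≠ 0) (hj : j ≠ 0) {π : MvPolynomial (Fin (m + 1)) ℂ}
    (h1 : ∀ i, rv g i = C a * s i) (h2 : ∀ i, rv g' i = π * s i)
    (hw : W.wd g g' = tX m * C j) : E.Splits := by
  let K : Vec E.a (m + 1) := fun i => C a * g' i - rename Fin.castSucc π * g i
  have hK : Ker E K := ker_sub (ker_mul hg' _) (ker_mul hg.ker _)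
  have hK0 : ∀ i, rv K i = 0 := by
    intro i
    show lsub (hI m) (C a * g' i - rename Fin.castSucc π * g i) = 0
    have a1 : lsub (hI m) (g i) = C a * s i := h1 i
    have a2 : lsub (hI m) (g' i) = π * s i := h2 i
    have a3 : lsub (hI m) (C a) = C a := by
      rw [lsub, aeval_C]
      rfl
    rw [map_sub, map_mul, map_mul, lsub_rename, a1, a2, a3]
    ring
  obtain ⟨G, kG, hG⟩ := exists_div hK hK0
  have h3 : W.wd g G = C (a * j) := by
    apply mul_left_cancel₀ (tX_ne m)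
    rw [← wd_of_mul_right W kG hg.ker hG]
    show W.wd g (fun i => C a * g' i - rename Fin.castSucc π * g i) = _
    rw [wd_sub_right W (ker_mul hg' _) (ker_mul hg.ker _) hg.ker, wd_mul_right W hg' hg.ker,
      wd_mul_right W hg.ker hg.ker, wd_self W hg.ker, hw, C_mul]
    ring
  refine splits_of_partner W hg (ker_mul kG (C (a * j)⁻¹)) ?_
  rw [wd_mul_right W kG hg.ker, h3, ← C_mul, inv_mul_cancel₀ (mul_ne_zero ha hj), C_1]

variable (L : Lft D ω (elat k)) (hω1 : ω.1 = 0) {W' : Wedge (resD E)}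
  {L0 : Lft (triv E) 0 (elat k)} (hop : ∀ G : Vec E.a (m + 1), L0.op G = L.op G)

include hop in
theorem Mp_opT (n2 : ∀ H : Vec E.a m, Ker (resE E) H → ∀ i,
    ep L0 (ep L0 H) i = 0) {G : Vec E.a (m + 1)} (hG : Ker E G) :
    Mp L0 (L.op G) := by
  refine ⟨L.op_ker hG, fun i => ?_⟩
  have h3 : rv (L0.op G) = ep L0 (rv G) := by
    ext1 j
    exact rv_op L0 G j
  rw [hop] at h3
  rw [h3]
  have hk : Ker (resE E) (rv (a := E.a) G) := rv_ker hG
  exact n2 (rv G) hk i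

theorem J_hom {τ₁ τ₂ : M} {g g' : Vec E.a (m + 1)} {J : MvPolynomial (Fin (m + 1 + 1)) ℂ}
    (hg : HSec D τ₁ g) (hg' : HSec D τ₂ g') (hw : W.wd g g' = tX m * J) :
    IsWeightedHomogeneous (tw w) J (τ₁ + τ₂ + W.κ - tw w (Fin.last (m + 1))) := by
  have h4 := W.hom _ _ _ _ hg hg'
  rw [hw] at h4
  exact wh_div (tX_ne m) (isWeightedHomogeneous_X ℂ (tw w) _) h4

include hω1 hop in
/-- lowering the degree of a pair of sections. -/
theorem lower (hm : 1 ≤ m) (hω0 : ω ≠ 0) (e' : ED L0 W') :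
    ∀ (d : ℕ) (τ₁ τ₂ : M) (g g' : Vec E.a (m + 1)) (J : MvPolynomial (Fin (m + 1 + 1)) ℂ),
      HSec D τ₁ g → HSec D τ₂ g' → Mp L0 g → Mp L0 g' →
      W.wd g g' = tX m * J →
      eval (Pi.single k.castSucc 1 : Fin (m + 1 + 1) → ℂ) J ≠ 0 →
      (τ₁ + τ₂ + W.κ - tw w (Fin.last (m + 1))).1 = d →
      ∃ (τ₁ τ₂ : M) (g g' : Vec E.a (m + 1)) (j : ℂ), HSec D τ₁ g ∧ HSec D τ₂ g' ∧
        Mp L0 g ∧ Mp L0 g' ∧ W.wd g g' = tX m * C j ∧ j ≠ 0 := by
  obtain ⟨θ, hθ0, hθ⟩ := L.exists_trace W (by omega) hω1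
  rw [hθ0 hω0, C_0] at hθ
  simp only [zero_mul, add_zero] at hθ
  intro d
  induction d with
  | zero =>
    intro τ₁ τ₂ g g' J hg hg' hM hM' hw hJ hd
    have h3 := J_hom W hg hg' hw
    obtain ⟨j, hj, rfl⟩ := const_of_degree_zero h3 (fun h => hJ (by rw [h, map_zero]))
      (by simpa using hd)
    exact ⟨τ₁, τ₂, g, g', j, hg, hg', hM, hM', hw, hj⟩
  | succ d ih =>
    intro τ₁ τ₂ g g' J hg hg' hM hM' hw hJ hd
    have h3 := J_hom W hg hg' hw
    have h4 : J.IsHomogeneous (d + 1) := by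
      rcases homZ_of h3 with h5 | ⟨l, hl, h5⟩
      · rw [h5]
        exact isHomogeneous_zero _ _ _
      · rw [hd] at hl
        have h6 : l = d + 1 := by exact_mod_cast hl
        rwa [h6] at h5
    have h5 := euler_at h4 hJ
    obtain ⟨g₁, hg₁, e₁⟩ := e'.Mp_op hM
    obtain ⟨g₁', hg₁', e₁'⟩ := e'.Mp_op hM'
    rw [hop] at e₁ e₁'
    have s₁ : HSec D (τ₁ + ω - tw w (Fin.last (m + 1))) g₁ := sec_div (L.op_hom hg) e₁
    have s₁' : HSec D (τ₂ + ω - tw w (Fin.last (m + 1))) g₁' := sec_div (L.op_hom hg') e₁'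
    obtain ⟨u₁, hu₁⟩ := dvd_wdT e' W hg₁ hM'
    obtain ⟨u₂, hu₂⟩ := dvd_wdT e' W hM hg₁'
    have h6 := hθ g g' hg.ker hg'.ker
    rw [wd_of_mul_left W hg₁.1 hg'.ker e₁, wd_of_mul_right W hg₁'.1 hg.ker e₁', hu₁, hu₂, hw,
      elat_apply, Derivation.leibniz, pderiv_tX, smul_zero, add_zero, smul_eq_mul] at h6
    have h7 : pderiv k.castSucc J = u₁ + u₂ := by
      apply mul_left_cancel₀ (tX_ne m)
      apply mul_left_cancel₀ (tX_ne m)
      rw [← h6]
      ring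
    rw [h7, map_add] at h5
    have h9 : (tw w (Fin.last (m + 1))).1 = 1 := rfl
    by_cases h10 : eval (Pi.single k.castSucc 1 : Fin (m + 1 + 1) → ℂ) u₁ = 0
    · rw [h10, zero_add] at h5
      refine ih _ _ _ _ _ hg s₁' hM hg₁' hu₂ h5 ?_
      simp only [Prod.fst_add, Prod.fst_sub, hω1, h9] at hd ⊢
      push_cast at hd ⊢
      linarith
    · refine ih _ _ _ _ _ s₁ hg' hg₁ hM' hu₁ h10 ?_
      simp only [Prod.fst_add, Prod.fst_sub, hω1, h9] at hd ⊢
      push_cast at hd ⊢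
      linarith

include hω1 hop in
/-- a basis of the modification of the bundle. -/
theorem exists_pair (hm : 1 ≤ m) (hω0 : ω ≠ 0) (e' : ED L0 W')
    (n2 : ∀ H : Vec E.a m, Ker (resE E) H → ∀ i, ep L0 (ep L0 H) i = 0)
    {τ : M} {G : Vec E.a (m + 1)} (hG : HSec D τ G)
    (hne : eval (Pi.single k.castSucc 1 : Fin (m + 1 + 1) → ℂ) (W.wd G (L.op G)) ≠ 0) :
    ∃ (τ₁ τ₂ : M) (g g' : Vec E.a (m + 1)) (j : ℂ), HSec D τ₁ g ∧ HSec D τ₂ g' ∧
      Mp L0 g ∧ Mp L0 g' ∧ W.wd g g' = tX m * C j ∧ j ≠ 0 := by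
  have hG1 : HSec D (τ + ω) (L.op G) := L.op_hom hG
  have hM1 := Mp_opT L hop n2 hG.ker
  have hM2 : Mp L0 (fun i => tX m * G i) := ED.Mp_tX hG.ker
  have hG2 : HSec D (τ + tw w (Fin.last (m + 1))) (fun i => tX m * G i) := by
    refine ⟨fun i => ?_, ker_mul hG.ker _⟩
    have h3 := (isWeightedHomogeneous_X ℂ (tw w) (Fin.last (m + 1))).mul (hG.hom i)
    have h4 : tw w (Fin.last (m + 1)) + ((E.β i, D.b i) + τ : M) =
      (E.β i, D.b i) + (τ + tw w (Fin.last (m + 1))) := by abel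
    rw [h4] at h3
    exact h3
  have hw0 : W.wd (L.op G) (fun i => tX m * G i) = tX m * (- W.wd G (L.op G)) := by
    rw [wd_mul_right W hG.ker hG1.ker, W.anti (L.op G) G hG1.ker hG.ker]
  have hJ0 : eval (Pi.single k.castSucc 1 : Fin (m + 1 + 1) → ℂ) (- W.wd G (L.op G)) ≠ 0 := by
    rw [map_neg]
    exact neg_ne_zero.2 hne
  have hwh0 := J_hom W hG1 hG2 hw0
  have hdeg := degree_nonneg hwh0 (fun h => hJ0 (by rw [h, map_zero]))
  obtain ⟨d, hd⟩ := Int.eq_ofNat_of_zero_le hdeg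
  exact lower W L hω1 hop hm hω0 e' d _ _ _ _ _ hG1 hG2 hM1 hM2 hw0 hJ0 hd

end

end Pool.Agent.W615
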