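import Pool.Agent.W615.LOne

/-!
# The plane with an action of the Borel group (helper615)
-/

set_option autoImplicit false
set_option maxHeartbeats 400000

open MvPolynomial H960VB H938TB

namespace Pool.Agent.W615

/-- polynomials of minimal weight are powers of the first coordinate. -/
theorem form0 {n : ℕ} {w : Fin (n + 1) → ℤ × ℤ} (χ : M →+ ℤ) (h0 : χ (tw w 0) = 0)
    (hpos : ∀ j, j ≠ 0 → 0 < χ (tw w j)) {p : MvPolynomial (Fin (n + 1)) ℂ} {τ : M}
    (hp : IsWeightedHomogeneous (tw w) p τ) (hτ : χ τ = 0) (hne : p ≠ 0) :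
    ∃ (a : ℂ) (N : ℕ), a ≠ 0 ∧ p = C a * X 0 ^ N ∧ τ = N • tw w 0 := by
  have key : ∀ u, coeff u p ≠ 0 → ∀ j, j ≠ 0 → u j = 0 := by
    intro u hu j hj
    have h1 := congrArg χ (hp hu)
    rw [weight_chi, hτ] at h1
    have h2 : ∀ i ∈ (Finset.univ : Finset (Fin (n + 1))), 0 ≤ u i • χ (tw w i) := by
      intro i _
      by_cases hi : i = 0
      · rw [hi, h0, smul_zero]
      · exact smul_nonneg (Nat.zero_le _) (hpos i hi).le
    rw [Finset.sum_eq_zero_iff_of_nonneg h2] at h1
    have h3 := h1 j (Finset.mem_univ j)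
    rcases smul_eq_zero.1 h3 with h4 | h4
    · exact h4
    · exact absurd h4 (hpos j hj).ne'
  obtain ⟨u, hu⟩ := ne_zero_iff.1 hne
  have hsum : ∀ u, coeff u p ≠ 0 → u = Finsupp.single 0 (u 0) ∧ τ = (u 0) • tw w 0 := by
    intro u hu
    have h1 : u = Finsupp.single 0 (u 0) := by
      ext j
      by_cases hj : j = 0
      · rw [hj, Finsupp.single_eq_same]
      · rw [key u hu j hj, Finsupp.single_eq_of_ne hj]
    refine ⟨h1, ?_⟩
    rw [← hp hu]
    conv_lhs => rw [h1]
    rw [Finsupp.weight_single]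
  refine ⟨coeff u p, u 0, hu, ?_, (hsum u hu).2⟩
  ext v
  rw [X_pow_eq_monomial, C_mul_monomial, mul_one, coeff_monomial]
  by_cases hv : coeff v p = 0
  · rw [hv]
    split_ifs with h1
    · rw [← (hsum u hu).1] at h1
      rw [h1, hv] at hu
      exact absurd rfl hu
    · rfl
  · have h1 := (hsum v hv).2
    rw [(hsum u hu).2] at h1
    have h2 : u 0 = v 0 := by
      have h3 := congrArg Prod.fst h1
      simpa [tw] using h3
    have h3 : v = u := by
      rw [(hsum v hv).1, (hsum u hu).1, h2]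
    rw [h3, if_pos (hsum u hu).1.symm]

/-- the value at the first vertex of a polynomial of positive weight is zero. -/
theorem chi_of_eval {n : ℕ} {w : Fin (n + 1) → ℤ × ℤ} (χ : M →+ ℤ) (h0 : χ (tw w 0) = 0)
    {p : MvPolynomial (Fin (n + 1)) ℂ} {τ : M}
    (hp : IsWeightedHomogeneous (tw w) p τ)
    (hne : eval (Pi.single 0 1 : Fin (n + 1) → ℂ) p ≠ 0) : χ τ = 0 := by
  obtain ⟨u, hu, huk⟩ : ∃ u ∈ p.support, ∀ j, j ≠ 0 → u j = 0 := by
    by_contra hc
    push Not at hc
    apply hne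
    rw [eval_eq']
    refine Finset.sum_eq_zero fun u hu => ?_
    obtain ⟨j, hj, hj0⟩ := hc u hu
    have h9 : ∏ i, (Pi.single 0 1 : Fin (n + 1) → ℂ) i ^ u i = 0 := by
      refine Finset.prod_eq_zero (Finset.mem_univ j) ?_
      rw [Pi.single_eq_of_ne hj]
      exact zero_pow hj0
    rw [h9, mul_zero]
  rw [← hp (mem_support_iff.1 hu), weight_chi]
  refine Finset.sum_eq_zero fun i _ => ?_
  by_cases hi : i = 0
  · rw [hi, h0, smul_zero]
  · rw [huk i hi, zero_smul]

/-- if the derivation corresponds to the derivative along a curve, stable families vanishing at a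
point vanish along the curve. -/
theorem stable_zero {n : ℕ} (δ : Der n) (φ : MvPolynomial (Fin (n + 1)) ℂ →ₐ[ℂ] Polynomial ℂ)
    (hφ : ∀ p, Polynomial.derivative (φ p) = φ (δ p))
    (J : Set (MvPolynomial (Fin (n + 1)) ℂ)) (hJ : ∀ u ∈ J, δ u ∈ J)
    (h0 : ∀ u ∈ J, (φ u).coeff 0 = 0) : ∀ u ∈ J, φ u = 0 := by
  have key : ∀ (l : ℕ), ∀ u ∈ J, (φ u).coeff l = 0 := by
    intro l
    induction l with
    | zero => exact h0
    | succ l ih =>
      intro u hu
      have h1 := ih _ (hJ u hu)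
      rw [← hφ, Polynomial.coeff_derivative] at h1
      exact (mul_eq_zero.1 h1).resolve_right (by exact_mod_cast Nat.succ_ne_zero l)
  intro u hu
  ext l
  rw [key l u hu, Polynomial.coeff_zero]

/-- the derivation `x₀ → x₁ → x₂ → 0`. -/
noncomputable def δ3 : Der 2 := mkDerivation ℂ ![X 1, X 2, 0]

/-- the flow -/
noncomputable def fl (x : Fin 3 → ℂ) : MvPolynomial (Fin (2 + 1)) ℂ →ₐ[ℂ] Polynomial ℂ :=
  aeval ![Polynomial.C (x 0) + Polynomial.C (x 1) * Polynomial.X +
    Polynomial.C (x 2 / 2) * Polynomial.X ^ 2,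
    Polynomial.C (x 1) + Polynomial.C (x 2) * Polynomial.X, Polynomial.C (x 2)]

theorem fl_X (x : Fin 3 → ℂ) (i : Fin 3) : fl x (X i) =
    (![Polynomial.C (x 0) + Polynomial.C (x 1) * Polynomial.X +
    Polynomial.C (x 2 / 2) * Polynomial.X ^ 2,
    Polynomial.C (x 1) + Polynomial.C (x 2) * Polynomial.X, Polynomial.C (x 2)] :
      Fin 3 → Polynomial ℂ) i := aeval_X _ _

theorem fl_deriv (x : Fin 3 → ℂ) (p : MvPolynomial (Fin (2 + 1)) ℂ) :
    Polynomial.derivative (fl x p) = fl x (δ3 p) := by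
  induction p using MvPolynomial.induction_on with
  | C a => simp [fl, derivation_C]
  | add p q hp hq => rw [map_add, map_add, hp, hq, map_add, map_add]
  | mul_X p i hp =>
    rw [map_mul, Polynomial.derivative_mul, hp, Derivation.leibniz, smul_eq_mul, smul_eq_mul,
      map_add, map_mul, map_mul]
    have h1 : Polynomial.derivative (fl x (X i)) = fl x (δ3 (X i)) := by
      rw [fl_X, δ3, mkDerivation_X]
      fin_cases i
      · simp [fl_X]
        have h2 : Polynomial.C (x 2 / 2) * (1 + 1) = Polynomial.C (x 2) := by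
          rw [show (1 + 1 : Polynomial ℂ) = Polynomial.C 2 by
            rw [map_ofNat]; norm_num, ← Polynomial.C_mul]
          congr 1
          ring
        rw [← mul_assoc, h2]
      · simp [fl_X]
      · simp
    rw [h1]
    ring

theorem fl_coeff_zero (x : Fin 3 → ℂ) (p : MvPolynomial (Fin (2 + 1)) ℂ) :
    (fl x p).coeff 0 = eval x p := by
  rw [Polynomial.coeff_zero_eq_eval_zero]
  induction p using MvPolynomial.induction_on with
  | C a => simp [fl]
  | add p q hp hq => rw [map_add, Polynomial.eval_add, hp, hq, map_add]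
  | mul_X p i hp =>
    rw [map_mul, Polynomial.eval_mul, hp, map_mul, eval_X, fl_X]
    congr 1
    fin_cases i <;> simp

variable {w : Fin 3 → ℤ × ℤ} {E : Bundle2 2} {D : EqB E w} {ω : M} (L : Lft D ω δ3)

/-- an invariant section not vanishing at the attracting point vanishes nowhere. -/
theorem nowhere_zero {s : Vec E.a 2} (hs : ∀ i, L.op s i = 0) {i₀ : Fin E.a} {a : ℂ} {N : ℕ}
    (ha : a ≠ 0) (hi₀ : s i₀ = C a * X 0 ^ N) (x : Fin 3 → ℂ) (hx : x ≠ 0) : evv s x ≠ 0 := by
  intro h0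
  let J : Set (MvPolynomial (Fin (2 + 1)) ℂ) :=
    {u | ∃ c : Fin E.a → MvPolynomial (Fin (2 + 1)) ℂ, u = ∑ i, c i * s i}
  have hδ : ∀ i, δ3 (s i) = - ∑ j, L.ν i j * s j := by
    intro i
    have := hs i
    simp only [Lft.op] at this
    linear_combination this
  have hJ : ∀ u ∈ J, δ3 u ∈ J := by
    rintro u ⟨c, rfl⟩
    refine ⟨fun j => δ3 (c j) - ∑ i, c i * L.ν i j, ?_⟩
    rw [map_sum]
    have h1 : ∀ i, δ3 (c i * s i) = δ3 (c i) * s i - ∑ j, c i * L.ν i j * s j := by
      intro i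
      rw [Derivation.leibniz, hδ, smul_eq_mul, smul_eq_mul, mul_neg, Finset.mul_sum]
      have h2 : ∑ j, c i * (L.ν i j * s j) = ∑ j, c i * L.ν i j * s j :=
        Finset.sum_congr rfl fun j _ => by ring
      rw [h2]
      ring
    simp_rw [h1]
    rw [Finset.sum_sub_distrib, Finset.sum_comm]
    simp_rw [sub_mul, Finset.sum_mul]
    rw [Finset.sum_sub_distrib]
  have h1 := stable_zero δ3 (fl x) (fl_deriv x) J hJ (by
    rintro u ⟨c, rfl⟩
    rw [fl_coeff_zero, map_sum]
    refine Finset.sum_eq_zero fun i _ => ?_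
    have h2 : eval x (s i) = 0 := congrFun h0 i
    rw [map_mul, h2, mul_zero]) (s i₀) ⟨fun j => if j = i₀ then 1 else 0, by simp⟩
  rw [hi₀, map_mul, map_pow, fl_X] at h1
  have h2 : fl x (C a) = Polynomial.C a := by
    rw [fl, aeval_C]
    rfl
  rw [h2] at h1
  have h3 := (mul_eq_zero.1 h1).resolve_left (by rwa [Polynomial.C_eq_zero])
  have h4 := eq_zero_of_pow_eq_zero h3
  have e0 := congrArg (fun p => Polynomial.coeff p 0) h4
  have e1 := congrArg (fun p => Polynomial.coeff p 1) h4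
  have e2 := congrArg (fun p => Polynomial.coeff p 2) h4
  simp [Polynomial.coeff_X, Polynomial.coeff_C, Polynomial.coeff_X_pow] at e0 e1 e2
  apply hx
  ext i
  fin_cases i
  · exact e0
  · exact e1
  · exact e2

end Pool.Agent.W615
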