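import Pool.Agent.W615.Plane2

/-!
# Projective four-space as `P(V₂ ⊕ V₁)` with an action of the Borel group (helper615)
-/

set_option autoImplicit false
set_option maxHeartbeats 400000

open MvPolynomial H960VB H938TB

namespace Pool.Agent.W615

theorem pull_op {m n : ℕ} {w : Fin (n + 1) → ℤ × ℤ} {E : Bundle2 n} {D : EqB E w} {ω : M}
    {δ : Der n} (L : Lft D ω δ) (T : (Fin (m + 1) → ℂ) →ₗ[ℂ] (Fin (n + 1) → ℂ))
    (hT : Function.Injective T)
    (w' : Fin (m + 1) → ℤ × ℤ) (h : ∀ t s, T (Pi.single t 1) s ≠ 0 → w s = w' t)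
    (δ' : Der m) (hd : ∀ i, lsub T (δ (X i)) = δ' (lsub T (X i)))
    (hδ' : ∀ i, IsWeightedHomogeneous (tw w') (δ' (X i)) (tw w' i + ω)) (G : Vec E.a n)
    (i : Fin E.a) :
    (L.pull T hT w' h δ' hd hδ').op (fun i => lsub T (G i)) i = lsub T (L.op G i) := by
  show δ' (lsub T (G i)) + ∑ j, lsub T (L.ν i j) * lsub T (G j) = lsub T (δ (G i) + ∑ j, L.ν i j * G j)
  rw [map_add, lsub_der T hd, map_sum]
  congr 1
  exact Finset.sum_congr rfl fun j _ => by rw [map_mul]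

/-- the derivation `x₀ → x₁ → x₂ → 0`, `x₃ → x₄ → 0` -/
noncomputable def δ5 : Der 4 := mkDerivation ℂ ![X 1, X 2, 0, X 4, 0]

theorem δ5_X (i : Fin 5) : δ5 (X i) =
    (![X 1, X 2, 0, X 4, 0] : Fin 5 → MvPolynomial (Fin (4 + 1)) ℂ) i := mkDerivation_X _ _ _

theorem δ5_comm (p : MvPolynomial (Fin (4 + 1)) ℂ) :
    pderiv 3 (δ5 p) = δ5 (pderiv 3 p) := by
  induction p using MvPolynomial.induction_on with
  | C a => simp [derivation_C]
  | add p q hp hq => rw [map_add, map_add, hp, hq, map_add, map_add]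
  | mul_X p i hp =>
    have h1 : pderiv 3 (δ5 (X i)) = 0 := by
      rw [δ5_X]
      fin_cases i
      · exact pderiv_X_of_ne (by decide)
      · exact pderiv_X_of_ne (by decide)
      · exact map_zero _
      · exact pderiv_X_of_ne (by decide)
      · exact map_zero _
    have h2 : δ5 (pderiv 3 (X i)) = 0 := by
      by_cases hi : i = 3
      · rw [hi, pderiv_X_self, ← C_1, derivation_C]
      · rw [pderiv_X_of_ne hi, map_zero]
    simp only [Derivation.leibniz, smul_eq_mul, map_add, hp, h1, h2]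
    ring

/-- linear forms of a given weight -/
theorem lin_form {w : Fin 5 → ℤ × ℤ} (χ : M →+ ℤ) (h0 : χ (tw w 0) = 0) (h1 : χ (tw w 1) = 2)
    (h2 : χ (tw w 2) = 4) (h3 : χ (tw w 3) = 1) (h4 : χ (tw w 4) = 3)
    {p : MvPolynomial (Fin (4 + 1)) ℂ} {τ : M} (hp : IsWeightedHomogeneous (tw w) p τ)
    (hτ : χ τ = 4) (hτ1 : τ.1 = 1) : ∃ b : ℂ, p = C b * X 2 := by
  have key : ∀ u, coeff u p ≠ 0 → u = Finsupp.single 2 1 := by
    intro u hu
    have a1 := congrArg Prod.fst (hp hu)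
    rw [weight_fst, hτ1, Fin.sum_univ_five] at a1
    have a2 := congrArg χ (hp hu)
    rw [weight_chi, hτ, Fin.sum_univ_five, h0, h1, h2, h3, h4] at a2
    simp only [nsmul_eq_mul, mul_zero, zero_add] at a2
    have b2 : u 2 = 1 := by omega
    have b0 : u 0 = 0 := by omega
    have b1 : u 1 = 0 := by omega
    have b3 : u 3 = 0 := by omega
    have b4 : u 4 = 0 := by omega
    ext j
    fin_cases j
    · simpa using b0
    · simpa using b1
    · simpa using b2
    · simpa using b3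
    · simpa using b4
  refine ⟨coeff (Finsupp.single 2 1) p, ?_⟩
  ext v
  rw [show (X 2 : MvPolynomial (Fin (4 + 1)) ℂ) = monomial (Finsupp.single 2 1) 1 from rfl,
    C_mul_monomial, coeff_monomial, mul_one]
  by_cases hv : coeff v p = 0
  · rw [hv]
    split_ifs with h5
    · rw [h5, hv]
    · rfl
  · rw [key v hv, if_pos rfl]

variable {w : Fin 5 → ℤ × ℤ} {E : Bundle2 4} {D : EqB E w} {ω : M}

/-- the correction -/
noncomputable def RR (W : Wedge D) (s s₁ G : Vec E.a 4) : Vec E.a 4 := fun i =>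
  pderiv 3 (W.wd s G) * s₁ i - pderiv 3 (W.wd s₁ G) * s i

section
variable (L : Lft D ω δ5) (W : Wedge D)
  (htr : ∀ G G', Ker E G → Ker E G' → W.wd (L.op G) G' + W.wd G (L.op G') = δ5 (W.wd G G'))
  {s : Vec E.a 4} (hs : Ker E s) {N : ℕ} {β : ℂ}
  (hss : ∀ i, X 0 * L.op (L.op s) i = C (N : ℂ) * X 1 * L.op s i - C β * X 2 * s i)

include htr hs hss

theorem RR_op {G : Vec E.a 4} (hG : Ker E G) (i : Fin E.a) :
    X 0 * L.op (RR W s (L.op s) G) i =
      C (N : ℂ) * X 1 * RR W s (L.op s) G i + X 0 * RR W s (L.op s) (L.op G) i := by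
  have k1 := L.op_ker hs
  have k2 := L.op_ker k1
  have kG := L.op_ker hG
  have d1 : δ5 (pderiv 3 (W.wd s G)) =
      pderiv 3 (W.wd (L.op s) G) + pderiv 3 (W.wd s (L.op G)) := by
    rw [← δ5_comm, ← htr s G hs hG, map_add]
  have d2 : δ5 (pderiv 3 (W.wd (L.op s) G)) =
      pderiv 3 (W.wd (L.op (L.op s)) G) + pderiv 3 (W.wd (L.op s) (L.op G)) := by
    rw [← δ5_comm, ← htr (L.op s) G k1 hG, map_add]
  have d3 : X 0 * pderiv 3 (W.wd (L.op (L.op s)) G) =
      C (N : ℂ) * X 1 * pderiv 3 (W.wd (L.op s) G) - C β * X 2 * pderiv 3 (W.wd s G) := by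
    have e1 : X 0 * W.wd (L.op (L.op s)) G =
        C (N : ℂ) * X 1 * W.wd (L.op s) G - C β * X 2 * W.wd s G := by
      rw [← W.smul _ _ _ k2 hG, ← W.smul _ _ _ k1 hG, ← W.smul _ _ _ hs hG,
        ← wd_sub_left W (ker_mul k1 _) (ker_mul hs _) hG]
      congr 1
      exact funext hss
    have e2 := congrArg (pderiv (3 : Fin 5)) e1
    have p0 : pderiv (3 : Fin 5) (X 0 : MvPolynomial (Fin (4 + 1)) ℂ) = 0 :=
      pderiv_X_of_ne (by decide)
    have p1 : pderiv (3 : Fin 5) (X 1 : MvPolynomial (Fin (4 + 1)) ℂ) = 0 :=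
      pderiv_X_of_ne (by decide)
    have p2 : pderiv (3 : Fin 5) (X 2 : MvPolynomial (Fin (4 + 1)) ℂ) = 0 :=
      pderiv_X_of_ne (by decide)
    simp only [Derivation.leibniz, smul_eq_mul, map_sub, p0, p1, p2, pderiv_C, mul_zero,
      add_zero] at e2
    linear_combination e2
  have d4 : L.op (RR W s (L.op s) G) i =
      (δ5 (pderiv 3 (W.wd s G)) * L.op s i + pderiv 3 (W.wd s G) * L.op (L.op s) i) -
      (δ5 (pderiv 3 (W.wd (L.op s) G)) * s i + pderiv 3 (W.wd (L.op s) G) * L.op s i) := by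
    have e1 : RR W s (L.op s) G = fun i => (fun i => pderiv 3 (W.wd s G) * L.op s i) i -
        (fun i => pderiv 3 (W.wd (L.op s) G) * s i) i := rfl
    rw [e1, L.op_sub, L.op_mul, L.op_mul]
  rw [d4, d1, d2]
  simp only [RR]
  linear_combination (-s i) * d3 + pderiv 3 (W.wd s G) * hss i

theorem RR_ker {G : Vec E.a 4} (_ : Ker E G) : Ker E (RR W s (L.op s) G) :=
  ker_sub (ker_mul (L.op_ker hs) _) (ker_mul hs _)

theorem RR_dvd {G : Vec E.a 4} (hG : Ker E G) (i : Fin E.a) :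
    (X 0 : MvPolynomial (Fin (4 + 1)) ℂ) ^ N ∣ RR W s (L.op s) G i := by
  classical
  have hX : ∀ N : ℕ, (X 0 : MvPolynomial (Fin (4 + 1)) ℂ) ^ N ≠ 0 :=
    fun N => pow_ne_zero _ (X_ne_zero _)
  have hXp : Prime (X 0 : MvPolynomial (Fin (4 + 1)) ℂ) := X_prime
  have hX01 : ¬ (X 0 : MvPolynomial (Fin (4 + 1)) ℂ) ∣ X 1 := by
    rw [X_dvd_X]
    decide
  have hex : ∃ m : ℕ, ∀ G : Vec E.a 4, Ker E G → ∀ i,
      (X 0 : MvPolynomial (Fin (4 + 1)) ℂ) ^ N ∣ X 0 ^ m * RR W s (L.op s) G i :=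
    ⟨N, fun G _ i => dvd_mul_right _ _⟩
  have hm := Nat.find_spec hex
  have hmin := fun m => Nat.find_min (m := m) hex
  set m := Nat.find hex with hmdef
  rcases Nat.eq_zero_or_pos m with h0 | hpos
  · have := hm G hG i
    rwa [h0, pow_zero, one_mul] at this
  exfalso
  obtain ⟨m', hm'⟩ : ∃ m', m = m' + 1 := ⟨m - 1, by omega⟩
  rw [hm'] at hm
  clear hG i G
  refine hmin m' (by omega) fun G hG i => ?_
  have h1 := fun i => hm G hG i
  choose H hH using h1
  have h2 := fun i => hm (L.op G) (L.op_ker hG) i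
  choose H' hH' using h2
  have e1 : L.op (fun i => X 0 ^ (m' + 1) * RR W s (L.op s) G i) =
      L.op (fun i => X 0 ^ N * H i) := by
    congr 1
    exact funext hH
  rw [L.op_mul, L.op_mul] at e1
  have hδ0 : δ5 (X 0) = X 1 := δ5_X 0
  have hδN : ∀ k : ℕ, X 0 * δ5 (X 0 ^ k) = C (k : ℂ) * X 1 * X 0 ^ k := by
    intro k
    rw [Derivation.leibniz_pow, hδ0, smul_eq_mul, nsmul_eq_mul]
    rcases Nat.eq_zero_or_pos k with h | h
    · rw [h]
      simp
    · have h3 : (X 0 : MvPolynomial (Fin (4 + 1)) ℂ) ^ k = X 0 ^ (k - 1) * X 0 := by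
        rw [← pow_succ]
        congr 1
        omega
      rw [h3]
      have h4 : ((k : ℕ) : MvPolynomial (Fin (4 + 1)) ℂ) = C (k : ℂ) := by simp
      rw [h4]
      ring
  have e2 : ∀ i, C ((m' + 1 : ℕ) : ℂ) * X 1 * H i + X 0 * H' i = X 0 * L.op H i := by
    intro i
    apply mul_left_cancel₀ (hX N)
    have e3 := congrFun e1 i
    have e4 := RR_op L W htr hs hss hG i
    have e5 := hδN (m' + 1)
    have e6 := hδN N
    have e7 := hH i
    have e8 := hH' i
    linear_combination (X 0) * e3 - RR W s (L.op s) G i * e5 + H i * e6 -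
      X 0 ^ (m' + 1) * e4 - C ((m' + 1 : ℕ) : ℂ) * X 1 * e7 - C (N : ℂ) * X 1 * e7 - X 0 * e8
  have e3 : (X 0 : MvPolynomial (Fin (4 + 1)) ℂ) ∣ C ((m' + 1 : ℕ) : ℂ) * X 1 * H i := by
    refine ⟨L.op H i - H' i, ?_⟩
    linear_combination e2 i
  have e4 : (X 0 : MvPolynomial (Fin (4 + 1)) ℂ) ∣ H i := by
    rcases hXp.dvd_or_dvd e3 with h | h
    · exfalso
      rcases hXp.dvd_or_dvd h with h' | h'
      · have h5 : IsUnit (C ((m' + 1 : ℕ) : ℂ) : MvPolynomial (Fin (4 + 1)) ℂ) :=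
          (isUnit_iff_ne_zero.2 (by exact_mod_cast Nat.succ_ne_zero m')).map C
        exact hXp.not_isUnit (isUnit_of_dvd_unit h' h5)
      · exact hX01 h'
    · exact h
  obtain ⟨q, hq⟩ := e4
  refine ⟨q, ?_⟩
  apply mul_left_cancel₀ (hX 1)
  rw [pow_one]
  have e5 := hH i
  rw [hq] at e5
  rw [pow_succ] at e5
  linear_combination e5

end

end Pool.Agent.W615
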