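import Pool.Agent.W615.Gen

/-!
# The residue lemma, and actions of the one-dimensional torus with three equal weights (helper615)
-/

set_option autoImplicit false

open MvPolynomial H960VB H938TB

namespace Pool.Agent.W615

variable {n : ℕ} {w : Fin (n + 1) → ℤ × ℤ} {E : Bundle2 n} {D : EqB E w} (W : Wedge D)

theorem wd_of_mul_left {G s K : Vec E.a n} {f : MvPolynomial (Fin (n + 1)) ℂ}
    (hs : Ker E s) (hK : Ker E K) (h : ∀ i, G i = f * s i) : W.wd G K = f * W.wd s K := by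
  have h1 : G = fun i => f * s i := funext h
  rw [h1]
  exact W.smul f s K hs hK

theorem wd_of_mul_right {G s K : Vec E.a n} {f : MvPolynomial (Fin (n + 1)) ℂ}
    (hs : Ker E s) (hK : Ker E K) (h : ∀ i, G i = f * s i) : W.wd K G = f * W.wd K s := by
  have h1 : G = fun i => f * s i := funext h
  rw [h1]
  exact wd_mul_right W hs hK f

theorem ne_of_wd_left {G K : Vec E.a n} (hG : Ker E G) (hK : Ker E K) (h : W.wd G K ≠ 0) :
    ∃ i, G i ≠ 0 := by
  by_contra hc
  push Not at hc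
  exact h (wd_zero_left W hG hK hc)

theorem ne_of_wd_right {G K : Vec E.a n} (hG : Ker E G) (hK : Ker E K) (h : W.wd G K ≠ 0) :
    ∃ i, K i ≠ 0 := by
  by_contra hc
  push Not at hc
  exact h (wd_zero_right W hG hK hc)

/-- two sections independent at a point, with nonvanishing wedge product. -/
theorem exists_ne (x : Fin (n + 1) → ℂ) (hx : x ≠ 0) :
    ∃ (τ τ' : M) (G G' : Vec E.a n), HSec D τ G ∧ HSec D τ' G' ∧ eval x (W.wd G G') ≠ 0 := by
  obtain ⟨τ, τ', G, G', hG, hG', h⟩ := exists_sec D x hx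
  exact ⟨τ, τ', G, G', hG, hG', (W.ind x hx G G' hG.ker hG'.ker).2 h⟩

/-- each nonzero element of the kernel has a nonzero wedge product with one of two given
independent ones. -/
theorem wd_ne_or {G G' H : Vec E.a n} (hG : Ker E G) (hG' : Ker E G') (hH : Ker E H)
    (h0 : W.wd G G' ≠ 0) (hH0 : ∃ i, H i ≠ 0) : W.wd G H ≠ 0 ∨ W.wd G' H ≠ 0 := by
  by_contra hc
  push Not at hc
  obtain ⟨i, hi⟩ := hH0
  have h1 := W.three G G' H hG hG' hH i
  rw [hc.1, hc.2] at h1
  have h2 : W.wd G G' * H i = 0 := by linear_combination h1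
  exact (mul_ne_zero h0 hi) h2

/-- **Residue lemma.** -/
theorem residue (hn : 1 ≤ n) {A : Type*} [AddCommGroup A] (χ : M →+ A)
    (hχ : ∀ i, χ (tw w i) = 0) {τ τ' : M} {G G' : Vec E.a n} (hG : HSec D τ G)
    (hG' : HSec D τ' G') (h0 : W.wd G G' ≠ 0) (hne : χ τ ≠ χ τ') : E.Splits := by
  have hb : χ τ + χ τ' + χ W.κ = 0 := by
    have := chi_eq_zero χ hχ (W.hom _ _ _ _ hG hG') h0
    rwa [map_add, map_add] at this
  have key1 : ∀ (μ : M) (H : Vec E.a n), HSec D μ H → W.wd G H ≠ 0 → χ μ = χ τ' := by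
    intro μ H hH h
    have h1 := chi_eq_zero χ hχ (W.hom _ _ _ _ hG hH) h
    rw [map_add, map_add] at h1
    have h2 : χ μ = -χ τ - χ W.κ := by rw [← sub_eq_zero, ← h1]; abel
    have h3 : χ τ' = -χ τ - χ W.κ := by rw [← sub_eq_zero, ← hb]; abel
    rw [h2, h3]
  have key2 : ∀ (μ : M) (H : Vec E.a n), HSec D μ H → W.wd G' H ≠ 0 → χ μ = χ τ := by
    intro μ H hH h
    have h1 := chi_eq_zero χ hχ (W.hom _ _ _ _ hG' hH) h
    rw [map_add, map_add] at h1
    have h2 : χ μ = -χ τ' - χ W.κ := by rw [← sub_eq_zero, ← h1]; abel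
    have h3 : χ τ = -χ τ' - χ W.κ := by rw [← sub_eq_zero, ← hb]; abel
    rw [h2, h3]
  obtain ⟨δ, g, s, hg0, hg, hs, hsp, hGs⟩ := exists_prm hG (ne_of_wd_left W hG.ker hG'.ker h0)
  obtain ⟨δ', g', s', hg0', hg', hs', hsp', hGs'⟩ :=
    exists_prm hG' (ne_of_wd_right W hG.ker hG'.ker h0)
  have key : ∀ (μ : M) (H : Vec E.a n), HSec D μ H →
      (∃ f, ∀ i, H i = f * s i) ∨ (∃ f, ∀ i, H i = f * s' i) := by
    intro μ H hH
    by_cases h1 : W.wd G H = 0
    · left
      apply hsp.dvd_wd W hs.ker hH.ker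
      rw [wd_of_mul_left W hs.ker hH.ker hGs] at h1
      exact (mul_eq_zero.1 h1).resolve_left hg0
    · by_cases h2 : W.wd G' H = 0
      · right
        apply hsp'.dvd_wd W hs'.ker hH.ker
        rw [wd_of_mul_left W hs'.ker hH.ker hGs'] at h2
        exact (mul_eq_zero.1 h2).resolve_left hg0'
      · exfalso
        exact hne ((key2 μ H hH h2).symm.trans (key1 μ H hH h1))
  refine splits_of_no_zero W hn hs hs' fun x hx h1 => ?_
  obtain ⟨μ, μ', H, H', hH, hH', h2⟩ := exists_ne W x hx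
  apply h2
  rcases key μ H hH with ⟨f, hf⟩ | ⟨f, hf⟩ <;> rcases key μ' H' hH' with ⟨f', hf'⟩ | ⟨f', hf'⟩
  · rw [wd_of_mul_left W hs.ker hH'.ker hf, wd_of_mul_right W hs.ker hs.ker hf',
      wd_self W hs.ker]
    simp
  · rw [wd_of_mul_left W hs.ker hH'.ker hf, wd_of_mul_right W hs'.ker hs.ker hf',
      map_mul, map_mul, h1]
    simp
  · rw [wd_of_mul_left W hs'.ker hH'.ker hf, wd_of_mul_right W hs.ker hs'.ker hf',
      W.anti s' s hs'.ker hs.ker, map_mul, map_mul, map_neg, h1]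
    simp
  · rw [wd_of_mul_left W hs'.ker hH'.ker hf, wd_of_mul_right W hs'.ker hs'.ker hf',
      wd_self W hs'.ker]
    simp

/-- in a nonsplit bundle on which the weights of all coordinates are trivial for `χ`, all nonzero
sections have the same type. -/
theorem isotypic (hn : 1 ≤ n) (hE : ¬ E.Splits) {A : Type*} [AddCommGroup A] (χ : M →+ A)
    (hχ : ∀ i, χ (tw w i) = 0) : ∃ l : A, l + l + χ W.κ = 0 ∧
      ∀ (τ : M) (G : Vec E.a n), HSec D τ G → (∃ i, G i ≠ 0) → χ τ = l := by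
  obtain ⟨μ, μ', H, H', hH, hH', h⟩ := exists_ne W (fun _ => 1)
    (fun h => by simpa using congrFun h 0)
  have h0 : W.wd H H' ≠ 0 := fun h0 => h (by rw [h0, map_zero])
  have h1 : χ μ = χ μ' := by
    by_contra hne
    exact hE (residue W hn χ hχ hH hH' h0 hne)
  have hb : χ μ + χ μ' + χ W.κ = 0 := by
    have := chi_eq_zero χ hχ (W.hom _ _ _ _ hH hH') h0
    rwa [map_add, map_add] at this
  refine ⟨χ μ, ?_, ?_⟩
  · rw [← h1] at hb
    exact hb
  · intro τ G hG hG0
    by_contra hne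
    rcases wd_ne_or W hH.ker hH'.ker hG.ker h0 hG0 with h2 | h2
    · exact hE (residue W hn χ hχ hH hG h2 (Ne.symm hne))
    · exact hE (residue W hn χ hχ hH' hG h2 (fun h3 => hne (by rw [← h3, h1])))

end Pool.Agent.W615
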