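import Mathlib

/-!
# Elementary representation theory of `sl₂` (helper615)

`X`, `Y` are matrices, `p` the weights of the coordinates.
-/

set_option autoImplicit false

namespace Pool.Agent.W615

/-- an `sl₂`-triple in a basis of weight vectors -/
structure Sl2 {n : ℕ} (p : Fin (n + 1) → ℤ) (X Y : Matrix (Fin (n + 1)) (Fin (n + 1)) ℂ) : Prop where
  hX : ∀ i j, X i j ≠ 0 → p i = p j + 2
  hY : ∀ i j, Y i j ≠ 0 → p i = p j - 2
  hXY : X * Y - Y * X = Matrix.diagonal (fun i => (p i : ℂ))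

/-- weight vectors -/
def WV {n : ℕ} (p : Fin (n + 1) → ℤ) (k : ℤ) (v : Fin (n + 1) → ℂ) : Prop :=
  ∀ s, v s ≠ 0 → p s = k

/-- the number of coordinates of weight `k` -/
def mu {n : ℕ} (p : Fin (n + 1) → ℤ) (k : ℤ) : ℕ := Fintype.card {s // p s = k}

variable {n : ℕ} {p : Fin (n + 1) → ℤ} {X Y : Matrix (Fin (n + 1)) (Fin (n + 1)) ℂ}

theorem WV.single (s : Fin (n + 1)) (c : ℂ) : WV p (p s) (Pi.single s c) := by
  intro t ht
  by_contra h
  apply ht
  rw [Pi.single_eq_of_ne]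
  rintro rfl
  exact h rfl

theorem WV.smul {k : ℤ} {v : Fin (n + 1) → ℂ} (h : WV p k v) (c : ℂ) : WV p k (c • v) := by
  intro s hs
  refine h s fun h0 => hs ?_
  rw [Pi.smul_apply, h0, smul_zero]

theorem WV.neg {k : ℤ} {v : Fin (n + 1) → ℂ} (h : WV p k v) : WV (fun s => - p s) (-k) v := by
  intro s hs
  show -p s = -k
  rw [h s hs]

theorem WV.exists {k : ℤ} {v : Fin (n + 1) → ℂ} (h : WV p k v) (hv : v ≠ 0) : ∃ s, p s = k := by
  obtain ⟨s, hs⟩ := Function.ne_iff.1 hv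
  exact ⟨s, h s hs⟩

theorem wv_mulVec {N : Matrix (Fin (n + 1)) (Fin (n + 1)) ℂ} {e : ℤ}
    (hN : ∀ i j, N i j ≠ 0 → p i = p j + e) {k : ℤ} {v : Fin (n + 1) → ℂ} (h : WV p k v) :
    WV p (k + e) (N.mulVec v) := by
  intro s hs
  rw [Matrix.mulVec, dotProduct] at hs
  obtain ⟨t, -, ht⟩ := Finset.exists_ne_zero_of_sum_ne_zero hs
  rw [hN s t (left_ne_zero_of_mul ht), h t (right_ne_zero_of_mul ht)]

namespace Sl2

theorem symm (S : Sl2 p X Y) : Sl2 (fun s => - p s) Y X where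
  hX := fun i j h => by rw [S.hY i j h]; ring
  hY := fun i j h => by rw [S.hX i j h]; ring
  hXY := by
    have h : Y * X - X * Y = - (X * Y - Y * X) := by abel
    rw [h, S.hXY, Matrix.diagonal_neg]
    congr 1
    funext i
    show -(p i : ℂ) = ((-p i : ℤ) : ℂ)
    push_cast
    ring

theorem wX (S : Sl2 p X Y) {k : ℤ} {v : Fin (n + 1) → ℂ} (h : WV p k v) :
    WV p (k + 2) (X.mulVec v) := wv_mulVec S.hX h

theorem wY (S : Sl2 p X Y) {k : ℤ} {v : Fin (n + 1) → ℂ} (h : WV p k v) :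
    WV p (k - 2) (Y.mulVec v) := by
  rw [sub_eq_add_neg]
  exact wv_mulVec (fun i j hij => by rw [S.hY i j hij]; ring) h

theorem comm (S : Sl2 p X Y) {k : ℤ} {v : Fin (n + 1) → ℂ} (h : WV p k v) :
    X.mulVec (Y.mulVec v) = Y.mulVec (X.mulVec v) + (k : ℂ) • v := by
  have h1 := congrArg (fun A => A.mulVec v) S.hXY
  simp only [Matrix.sub_mulVec] at h1
  rw [← Matrix.mulVec_mulVec, ← Matrix.mulVec_mulVec] at h1
  have h2 : (Matrix.diagonal (fun i => (p i : ℂ))).mulVec v = (k : ℂ) • v := by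
    funext s
    rw [Matrix.mulVec_diagonal, Pi.smul_apply, smul_eq_mul]
    by_cases hs : v s = 0
    · rw [hs, mul_zero, mul_zero]
    · rw [h s hs]
  rw [h2] at h1
  rw [← h1]
  abel

/-- the iterates of `Y` -/
def it (Y : Matrix (Fin (n + 1)) (Fin (n + 1)) ℂ) (v : Fin (n + 1) → ℂ) : ℕ → (Fin (n + 1) → ℂ)
  | 0 => v
  | j + 1 => Y.mulVec (it Y v j)

theorem wIt (S : Sl2 p X Y) {k : ℤ} {v : Fin (n + 1) → ℂ} (h : WV p k v) (j : ℕ) :
    WV p (k - 2 * j) (it Y v j) := by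
  induction j with
  | zero => simpa [it] using h
  | succ j ih =>
    have h1 := S.wY ih
    have e : k - 2 * ((j + 1 : ℕ) : ℤ) = k - 2 * j - 2 := by push_cast; ring
    rw [e]
    exact h1

/-- the formula `X Y^{j+1} v = (j+1)(k-j) Y^j v`. -/
theorem string (S : Sl2 p X Y) {k : ℤ} {v : Fin (n + 1) → ℂ} (h : WV p k v)
    (hv : X.mulVec v = 0) (j : ℕ) :
    X.mulVec (it Y v (j + 1)) = (((j : ℂ) + 1) * ((k : ℂ) - j)) • it Y v j := by
  induction j with
  | zero =>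
    show X.mulVec (Y.mulVec v) = _
    rw [S.comm h, hv, Matrix.mulVec_zero, zero_add]
    simp [it]
  | succ j ih =>
    show X.mulVec (Y.mulVec (it Y v (j + 1))) = _
    rw [S.comm (S.wIt h (j + 1)), ih, Matrix.mulVec_smul]
    show _ • it Y v (j + 1) + _ = _
    rw [← add_smul]
    congr 1
    push_cast
    ring

theorem it_ne (S : Sl2 p X Y) {k : ℤ} {v : Fin (n + 1) → ℂ} (h : WV p k v)
    (hv : X.mulVec v = 0) (h0 : v ≠ 0) (j : ℕ) (hj : ∀ i : ℕ, i < j → k ≠ i) : it Y v j ≠ 0 := by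
  induction j with
  | zero => exact h0
  | succ j ih =>
    have h1 := ih fun i hi => hj i (by omega)
    intro h2
    have h3 := S.string h hv j
    rw [h2, Matrix.mulVec_zero] at h3
    rcases smul_eq_zero.1 h3.symm with h4 | h4
    · rcases mul_eq_zero.1 h4 with h5 | h5
      · have h6 : ((j + 1 : ℕ) : ℂ) = 0 := by push_cast; exact h5
        exact Nat.cast_ne_zero.2 (Nat.succ_ne_zero j) h6
      · have h6 : ((k - j : ℤ) : ℂ) = 0 := by push_cast; exact h5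
        have h7 : k - j = 0 := by exact_mod_cast h6
        exact hj j (Nat.lt_succ_self j) (by omega)
    · exact h1 h4

theorem X_ne (S : Sl2 p X Y) {k : ℤ} (hk : k < 0) {v : Fin (n + 1) → ℂ} (h : WV p k v)
    (h0 : v ≠ 0) : X.mulVec v ≠ 0 := by
  intro hv
  obtain ⟨B, hB⟩ : ∃ B : ℤ, ∀ s, B ≤ p s := by
    refine ⟨Finset.univ.inf' Finset.univ_nonempty p, fun s => Finset.inf'_le _ (Finset.mem_univ s)⟩
  have h1 := S.it_ne h hv h0 ((k - B).toNat + 1) (fun i _ => by omega)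
  obtain ⟨s, hs⟩ := (S.wIt h _).exists h1
  have h2 := hB s
  push_cast at hs
  have h3 : k - B ≤ (k - B).toNat := Int.self_le_toNat _
  have h4 : (0 : ℤ) ≤ (k - B).toNat := Int.natCast_nonneg _
  omega

theorem Y_ne (S : Sl2 p X Y) {k : ℤ} (hk : 0 < k) {v : Fin (n + 1) → ℂ} (h : WV p k v)
    (h0 : v ≠ 0) : Y.mulVec v ≠ 0 :=
  S.symm.X_ne (by omega) h.neg h0

/-- extension by zero -/
noncomputable def ext0 (p : Fin (n + 1) → ℤ) (k : ℤ) : ({s // p s = k} → ℂ) →ₗ[ℂ] (Fin (n + 1) → ℂ) where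
  toFun f := fun s => if h : p s = k then f ⟨s, h⟩ else 0
  map_add' := by
    intro f g
    funext s
    by_cases h : p s = k
    · simp [h]
    · simp [h]
  map_smul' := by
    intro c g
    funext s
    by_cases h : p s = k
    · simp [h]
    · simp [h]

theorem ext0_wv (k : ℤ) (f : {s // p s = k} → ℂ) : WV p k (ext0 p k f) := by
  intro s hs
  by_contra h
  apply hs
  show (if h : p s = k then f ⟨s, h⟩ else 0) = 0
  rw [dif_neg h]

theorem ext0_inj (k : ℤ) : Function.Injective (ext0 p k) := by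
  intro f g h
  funext ⟨s, hs⟩
  have h1 := congrFun h s
  have h2 : (if h : p s = k then f ⟨s, h⟩ else 0) = (if h : p s = k then g ⟨s, h⟩ else 0) := h1
  rwa [dif_pos hs, dif_pos hs] at h2

theorem le_up (S : Sl2 p X Y) {k : ℤ} (hk : k < 0) : mu p k ≤ mu p (k + 2) := by
  let T : ({s // p s = k} → ℂ) →ₗ[ℂ] ({s // p s = k + 2} → ℂ) :=
    (LinearMap.funLeft ℂ ℂ (fun s : {s // p s = k + 2} => s.1)) ∘ₗ (X.mulVecLin ∘ₗ ext0 p k)
  have hT : Function.Injective T := by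
    rw [← LinearMap.ker_eq_bot, LinearMap.ker_eq_bot']
    intro f hf
    by_contra hf0
    have h1 : ext0 p k f ≠ 0 := fun h => hf0 (ext0_inj k (by rw [h, map_zero]))
    have h2 := S.X_ne hk (ext0_wv k f) h1
    obtain ⟨s, hs⟩ := Function.ne_iff.1 h2
    have h3 := (S.wX (ext0_wv k f)) s hs
    exact hs (congrFun hf ⟨s, h3⟩)
  have h1 := LinearMap.finrank_le_finrank_of_injective hT
  rw [Module.finrank_fintype_fun_eq_card, Module.finrank_fintype_fun_eq_card] at h1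
  exact h1

theorem mu_neg (p : Fin (n + 1) → ℤ) (k : ℤ) : mu (fun s => - p s) (-k) = mu p k := by
  unfold mu
  refine Fintype.card_congr (Equiv.subtypeEquivRight fun s => ?_)
  exact neg_inj

theorem le_down (S : Sl2 p X Y) {k : ℤ} (hk : 0 < k) : mu p k ≤ mu p (k - 2) := by
  have h1 := S.symm.le_up (k := -k) (by omega)
  rw [mu_neg] at h1
  have h2 : -k + 2 = -(k - 2) := by ring
  rw [h2, mu_neg] at h1
  exact h1

theorem mu_pos {k : ℤ} {v : Fin (n + 1) → ℂ} (h : WV p k v) (h0 : v ≠ 0) : 0 < mu p k := by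
  obtain ⟨s, hs⟩ := h.exists h0
  exact Fintype.card_pos_iff.2 ⟨⟨s, hs⟩⟩

theorem mu_pos_iff {k : ℤ} : 0 < mu p k ↔ ∃ s, p s = k := by
  unfold mu
  rw [Fintype.card_pos_iff]
  exact ⟨fun ⟨s⟩ => ⟨s.1, s.2⟩, fun ⟨s, hs⟩ => ⟨⟨s, hs⟩⟩⟩

/-- the lowest weight vector. -/
theorem exists_lowest (S : Sl2 p X Y) (hp : ∃ s, p s ≠ 0) : ∃ (k : ℕ) (v : Fin (n + 1) → ℂ), 1 ≤ k ∧
    (∀ s, -(k : ℤ) ≤ p s ∧ p s ≤ k) ∧ WV p (-k) v ∧ v ≠ 0 ∧ Y.mulVec v = 0 := by
  obtain ⟨s₀, -, hs₀⟩ := Finset.exists_max_image (Finset.univ : Finset (Fin (n + 1)))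
    (fun s => (p s).natAbs) Finset.univ_nonempty
  obtain ⟨s₁, hs₁⟩ := hp
  have hb : ∀ s, -((p s₀).natAbs : ℤ) ≤ p s ∧ p s ≤ (p s₀).natAbs := by
    intro s
    have h1 : (p s).natAbs ≤ (p s₀).natAbs := hs₀ s (Finset.mem_univ s)
    omega
  have h1 : 1 ≤ (p s₀).natAbs := by
    have h1 : (p s₁).natAbs ≤ (p s₀).natAbs := hs₀ s₁ (Finset.mem_univ s₁)
    omega
  have hlow : ∀ v, WV p (-((p s₀).natAbs : ℤ)) v → Y.mulVec v = 0 := by
    intro v hv
    by_contra h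
    obtain ⟨s, hs⟩ := (S.wY hv).exists h
    have := hb s
    omega
  rcases le_or_gt 0 (p s₀) with h | h
  · have e : p s₀ = ((p s₀).natAbs : ℤ) := by omega
    have hX0 : X.mulVec (Pi.single s₀ 1) = 0 := by
      by_contra h2
      obtain ⟨s, hs⟩ := (S.wX (WV.single s₀ 1)).exists h2
      have := hb s
      omega
    have h3 := S.it_ne (WV.single s₀ 1) hX0
      (fun h => by simpa using congrFun h s₀) (p s₀).natAbs (fun i hi => by omega)
    have h4 := S.wIt (WV.single (p := p) s₀ 1) (p s₀).natAbs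
    have e2 : p s₀ - 2 * ((p s₀).natAbs : ℤ) = -((p s₀).natAbs : ℤ) := by omega
    rw [e2] at h4
    exact ⟨_, _, h1, hb, h4, h3, hlow _ h4⟩
  · have e : p s₀ = -((p s₀).natAbs : ℤ) := by omega
    have h4 := WV.single (p := p) s₀ 1
    rw [e] at h4
    exact ⟨_, _, h1, hb, h4, fun h => by simpa using congrFun h s₀, hlow _ h4⟩

theorem indep {m : ℕ} {q : Fin m → ℤ} {c : Fin m → (Fin (n + 1) → ℂ)}
    (h : ∀ t, WV p (q t) (c t)) (h0 : ∀ t, c t ≠ 0) (hq : Function.Injective q) :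
    LinearIndependent ℂ c := by
  rw [Fintype.linearIndependent_iff]
  intro g hg t
  obtain ⟨s, hs⟩ := Function.ne_iff.1 (h0 t)
  have h1 := congrFun hg s
  rw [Finset.sum_apply, Finset.sum_eq_single t] at h1
  · exact (mul_eq_zero.1 h1).resolve_right hs
  · intro t' _ ht'
    have h2 : c t' s = 0 := by
      by_contra h2
      apply ht'
      apply hq
      rw [← h t' s h2, ← h t s hs]
    show g t' * c t' s = 0
    rw [h2, mul_zero]
  · intro h; exact absurd (Finset.mem_univ _) h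

/-- the bottom of the string of the lowest weight vector. -/
theorem exists_triple (S : Sl2 p X Y) {k : ℕ} (hk : 2 ≤ k) {v : Fin (n + 1) → ℂ}
    (h : WV p (-k) v) (hv : Y.mulVec v = 0) :
    ∃ c₁ c₂, WV p (-k + 2) c₁ ∧ WV p (-k + 4) c₂ ∧ Y.mulVec c₁ = v ∧ Y.mulVec c₂ = c₁ := by
  have hs := S.symm.string (k := k) (by simpa using h.neg) hv
  have hw := S.symm.wIt (k := k) (v := v) (by simpa using h.neg)
  have h1 : Y.mulVec (it X v 1) = (k : ℂ) • v := by
    rw [hs 0]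
    simp [it]
  have h2 : Y.mulVec (it X v 2) = (2 * ((k : ℂ) - 1)) • it X v 1 := by
    rw [hs 1]
    congr 1
    push_cast
    ring
  have hk0 : (k : ℂ) ≠ 0 := Nat.cast_ne_zero.2 (by omega)
  have hk1 : ((k : ℂ) - 1) ≠ 0 := by
    have h3 : ((k - 1 : ℕ) : ℂ) ≠ 0 := Nat.cast_ne_zero.2 (by omega)
    rwa [Nat.cast_sub (by omega), Nat.cast_one] at h3
  refine ⟨(k : ℂ)⁻¹ • it X v 1, ((k : ℂ)⁻¹ * (2 * ((k : ℂ) - 1))⁻¹) • it X v 2, ?_, ?_, ?_, ?_⟩
  · refine WV.smul ?_ _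
    have h3 := (hw 1).neg
    simp only [neg_neg] at h3
    convert h3 using 1
    push_cast
    ring
  · refine WV.smul ?_ _
    have h3 := (hw 2).neg
    simp only [neg_neg] at h3
    convert h3 using 1
    push_cast
    ring
  · rw [Matrix.mulVec_smul, h1, smul_smul, inv_mul_cancel₀ hk0, one_smul]
  · rw [Matrix.mulVec_smul, h2, smul_smul, mul_assoc, inv_mul_cancel₀, mul_one]
    exact mul_ne_zero two_ne_zero hk1

theorem mu_string (S : Sl2 p X Y) {k : ℕ} {v : Fin (n + 1) → ℂ}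
    (h : WV p (-k) v) (h0 : v ≠ 0) (hv : Y.mulVec v = 0) (j : ℕ) (hj : j ≤ k) :
    0 < mu p (-k + 2 * j) := by
  have h1 := S.symm.it_ne (k := k) (by simpa using h.neg) hv h0 j (fun i hi => by omega)
  have hw := (S.symm.wIt (k := k) (v := v) (by simpa using h.neg) j).neg
  simp only [neg_neg] at hw
  have e : -((k : ℤ) - 2 * j) = -k + 2 * j := by ring
  rw [e] at hw
  exact mu_pos hw h1

end Sl2

end Pool.Agent.W615
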