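import Pool.Agent.W615.QuadLin2
import Pool.Agent.W615.TwoBlocks
import Pool.Agent.W615.SlRep

/-!
# Rank two bundles equivariant under the Borel subgroup of `SL₂` (helper615)
-/

set_option autoImplicit false
set_option maxHeartbeats 400000

open MvPolynomial H960VB H938TB

namespace Pool.Agent.W615

variable {n : ℕ} {p : Fin (n + 1) → ℤ} {E : Bundle2 n}

/-- the weights of the coordinates, as elements of `ℤ × ℤ` -/
abbrev pw (p : Fin (n + 1) → ℤ) : Fin (n + 1) → ℤ × ℤ := fun s => (p s, 0)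

/-- the weight at a fixed point of weight `q`. -/
def chiq (q : ℤ) : M →+ ℤ := AddMonoidHom.mk' (fun τ => τ.2.1 - q * τ.1) (by
  intro a b
  simp only [Prod.fst_add, Prod.snd_add]
  ring)

theorem chiq_tw {m : ℕ} (q : ℤ) (p : Fin (m + 1) → ℤ) (i : Fin (m + 1)) :
    chiq q (tw (pw p) i) = p i - q := by
  show p i - q * 1 = _
  rw [mul_one]

/-- the weight of the vector field -/
def om : M := (0, (2, 0))

theorem chiq_om (q : ℤ) : chiq q om = 2 := by
  show (2 : ℤ) - q * 0 = 2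
  norm_num

/-- weights modulo `r`. -/
theorem types_mod (hn : 2 ≤ n) (D : EqB E (pw p)) (hE : ¬ E.Splits) (r : ℕ) (q : ℤ)
    (f : Fin 3 → Fin (n + 1)) (hf : Function.Injective f)
    (hfq : ∀ t, ((p (f t) : ℤ) : ZMod r) = (q : ZMod r))
    {v : Fin (n + 1) → ℂ} (hv : WV p q v) (hv0 : v ≠ 0) :
    ∃ l : ZMod r, ∀ (τ : M) (G : Vec E.a n), HSec D τ G → evv G v ≠ 0 →
      ((chiq q τ : ℤ) : ZMod r) = l := by
  classical
  set S := {s // ((p s : ℤ) : ZMod r) = (q : ZMod r)} with hS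
  have hcard : 3 ≤ Fintype.card S := by
    have h1 := Fintype.card_le_of_injective (fun t : Fin 3 => (⟨f t, hfq t⟩ : S)) (by
      intro a b hab
      exact hf (Subtype.ext_iff.1 hab))
    rwa [Fintype.card_fin] at h1
  obtain ⟨m, hm⟩ : ∃ m, Fintype.card S = m + 1 := ⟨Fintype.card S - 1, by omega⟩
  have hm2 : 2 ≤ m := by omega
  let e : Fin (m + 1) ≃ S := (Fintype.equivFinOfCardEq hm).symm
  let g : Fin (m + 1) → Fin (n + 1) := fun t => (e t).1
  have hg : Function.Injective g := fun a b hab => e.injective (Subtype.ext hab)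
  have hmn : m ≤ n := by
    have h1 := Fintype.card_le_of_injective g hg
    rw [Fintype.card_fin, Fintype.card_fin] at h1
    omega
  have hE' : ¬ (E.pull (cInc g) (cInc_injective g hg)).Splits := fun h =>
    hE (splits_of_cInc hm2 hmn E g hg h)
  set D' := D.pull (cInc g) (cInc_injective g hg) (pw p ∘ g) (cInc_weight g (pw p)) with hD'
  obtain ⟨W'⟩ := exists_wedge (by omega) D'
  obtain ⟨l, -, hl⟩ := isotypic W' (by omega) hE' ((Int.castAddHom (ZMod r)).comp (chiq q)) (by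
    intro i
    have h1 : chiq q (tw (pw p ∘ g) i) = p (g i) - q := by
      show p (g i) - q * 1 = _
      rw [mul_one]
    rw [AddMonoidHom.comp_apply, h1]
    show ((p (g i) - q : ℤ) : ZMod r) = 0
    rw [Int.cast_sub, (e i).2, sub_self])
  refine ⟨l, fun τ G hG hGv => ?_⟩
  refine hl τ _ (hG.pull _ _ _ _) ?_
  by_contra hc
  push Not at hc
  apply hGv
  have hx : cInc g (fun t => v (g t)) = v := by
    funext s
    by_cases hs : v s = 0
    · rw [cInc_apply, hs]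
      refine Finset.sum_eq_zero fun t _ => ?_
      split_ifs with h
      · rw [h, hs]
      · rfl
    · have h1 : ((p s : ℤ) : ZMod r) = (q : ZMod r) := by rw [hv s hs]
      have h2 : g (e.symm ⟨s, h1⟩) = s := by
        show (e (e.symm ⟨s, h1⟩)).1 = s
        rw [Equiv.apply_symm_apply]
      have h3 := cInc_apply_self g hg (fun t => v (g t)) (e.symm ⟨s, h1⟩)
      rw [h2] at h3
      exact h3
  rw [← hx, ← evv_lsub]
  funext i
  show eval _ (lsub (cInc g) (G i)) = 0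
  rw [hc i, map_zero]

/-- weights along the attracting string. -/
theorem types_plane (hn : 2 ≤ n) (D : EqB E (pw p)) (hE : ¬ E.Splits)
    {Y : Matrix (Fin (n + 1)) (Fin (n + 1)) ℂ} (L : Lft D om (vf Y)) (q : ℤ)
    {v c₁ c₂ : Fin (n + 1) → ℂ} (hv : WV p q v) (h1 : WV p (q + 2) c₁) (h2 : WV p (q + 4) c₂)
    (hv0 : v ≠ 0) (hY0 : Y.mulVec v = 0) (hY1 : Y.mulVec c₁ = v) (hY2 : Y.mulVec c₂ = c₁)
    {τ τ' : M} {G G' : Vec E.a n} (hG : HSec D τ G) (hG' : HSec D τ' G')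
    (hli : LinearIndependent ℂ ![evv G v, evv G' v]) :
    chiq q τ' - chiq q τ = 2 ∨ chiq q τ - chiq q τ' = 2 := by
  have hc1 : c₁ ≠ 0 := by
    rintro rfl
    rw [Matrix.mulVec_zero] at hY1
    exact hv0 hY1.symm
  have hc2 : c₂ ≠ 0 := by
    rintro rfl
    rw [Matrix.mulVec_zero] at hY2
    exact hc1 hY2.symm
  let qq : Fin 3 → ℤ := ![q, q + 2, q + 4]
  have hwt : ∀ t, WV p (qq t) (![v, c₁, c₂] t) := by
    intro t
    fin_cases t
    · exact hv
    · exact h1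
    · exact h2
  have hind : LinearIndependent ℂ ![v, c₁, c₂] := by
    refine Sl2.indep hwt ?_ ?_
    · intro t
      fin_cases t
      · exact hv0
      · exact hc1
      · exact hc2
    · intro a b hab
      fin_cases a <;> fin_cases b <;> simp [qq] at hab ⊢
  let T : (Fin (2 + 1) → ℂ) →ₗ[ℂ] (Fin (n + 1) → ℂ) := Fintype.linearCombination ℂ ![v, c₁, c₂]
  have hT : Function.Injective T := hind.fintypeLinearCombination_injective
  have hTs : ∀ t, T (Pi.single t 1) = ![v, c₁, c₂] t := by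
    intro t
    simp only [T]
    rw [Fintype.linearCombination_apply_single, one_smul]
  have hw : ∀ t s, T (Pi.single t 1) s ≠ 0 → pw p s = pw qq t := by
    intro t s hts
    rw [hTs] at hts
    show (p s, (0 : ℤ)) = (qq t, 0)
    rw [hwt t s hts]
  have hE' : ¬ (E.pull T hT).Splits := fun h =>
    hE (Bundle2.splits_of_pull (n - 2) 2 n (le_refl 2) (by omega) E T hT h)
  have hd : ∀ i, lsub T (vf Y (X i)) = δ3 (lsub T (X i)) := by
    intro i
    have d0 : δ3 (X 0) = X 1 := mkDerivation_X _ _ _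
    have d1 : δ3 (X 1) = X 2 := mkDerivation_X _ _ _
    have d2 : δ3 (X 2) = 0 := mkDerivation_X _ _ _
    have dC : ∀ c : ℂ, δ3 (C c) = 0 := fun c => Derivation.map_algebraMap _ _
    rw [lsub_vf, lsub_X, map_sum]
    show ∑ t : Fin 3, _ = ∑ t : Fin 3, _
    rw [Fin.sum_univ_three, Fin.sum_univ_three, hTs, hTs, hTs]
    show C (Y.mulVec v i) * X 0 + C (Y.mulVec c₁ i) * X 1 + C (Y.mulVec c₂ i) * X 2 =
      δ3 (C (v i) * X 0) + δ3 (C (c₁ i) * X 1) + δ3 (C (c₂ i) * X 2)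
    rw [hY0, hY1, hY2, Derivation.leibniz, Derivation.leibniz, Derivation.leibniz, dC, dC, dC,
      d0, d1, d2]
    simp
  have hδ' : ∀ i, IsWeightedHomogeneous (tw (pw qq)) (δ3 (X i)) (tw (pw qq) i + om) := by
    intro i
    fin_cases i
    · show IsWeightedHomogeneous (tw (pw qq)) (δ3 (X 0)) (tw (pw qq) 0 + om)
      have e1 : δ3 (X 0) = X 1 := mkDerivation_X _ _ _
      have e2 : tw (pw qq) 0 + om = tw (pw qq) 1 := by
        show ((1 : ℤ), (q, (0 : ℤ))) + (0, (2, 0)) = (1, (q + 2, 0))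
        rw [Prod.mk_add_mk, Prod.mk_add_mk]
        norm_num
      rw [e1, e2]
      exact isWeightedHomogeneous_X _ _ _
    · show IsWeightedHomogeneous (tw (pw qq)) (δ3 (X 1)) (tw (pw qq) 1 + om)
      have e1 : δ3 (X 1) = X 2 := mkDerivation_X _ _ _
      have e2 : tw (pw qq) 1 + om = tw (pw qq) 2 := by
        show ((1 : ℤ), (q + 2, (0 : ℤ))) + (0, (2, 0)) = (1, (q + 4, 0))
        rw [Prod.mk_add_mk, Prod.mk_add_mk, add_assoc]
        norm_num
      rw [e1, e2]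
      exact isWeightedHomogeneous_X _ _ _
    · show IsWeightedHomogeneous (tw (pw qq)) (δ3 (X 2)) (tw (pw qq) 2 + om)
      have e1 : δ3 (X 2) = 0 := mkDerivation_X _ _ _
      rw [e1]
      exact isWeightedHomogeneous_zero _ _ _
  let L' := L.pull T hT (pw qq) hw δ3 hd hδ'
  obtain ⟨W'⟩ := exists_wedge (by norm_num) (D.pull T hT (pw qq) hw)
  have hp' : eval (Pi.single 0 1 : Fin 3 → ℂ)
      (W'.wd (fun i => lsub T (G i)) (fun i => lsub T (G' i))) ≠ 0 := by
    refine (W'.ind _ (e0_ne 2) _ _ (hG.ker.pull _ _) (hG'.ker.pull _ _)).2 ?_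
    rw [evv_lsub, evv_lsub, hTs]
    exact hli
  refine plane L' W' (chiq q) (c := 2) (by norm_num) ?_ ?_ ?_ rfl (chiq_om q) hE'
    (hG.pull _ _ _ _) (hG'.pull _ _ _ _) hp'
  · rw [chiq_tw]
    show q - q = 0
    ring
  · rw [chiq_tw]
    show q + 2 - q = 2
    ring
  · rw [chiq_tw]
    show q + 4 - q = 2 * 2
    ring

/-- combination of the two preceding statements. -/
theorem splits_of_mod (hn : 2 ≤ n) (D : EqB E (pw p))
    {Y : Matrix (Fin (n + 1)) (Fin (n + 1)) ℂ} (L : Lft D om (vf Y)) (q : ℤ)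
    {v c₁ c₂ : Fin (n + 1) → ℂ} (hv : WV p q v) (h1 : WV p (q + 2) c₁) (h2 : WV p (q + 4) c₂)
    (hv0 : v ≠ 0) (hY0 : Y.mulVec v = 0) (hY1 : Y.mulVec c₁ = v) (hY2 : Y.mulVec c₂ = c₁)
    (r : ℕ) (hr : ¬ (r : ℤ) ∣ 2) (f : Fin 3 → Fin (n + 1)) (hf : Function.Injective f)
    (hfq : ∀ t, ((p (f t) : ℤ) : ZMod r) = (q : ZMod r)) : E.Splits := by
  by_contra hE
  obtain ⟨W⟩ := exists_wedge (by omega) D
  obtain ⟨τ, τ', G, G', hG, hG', hp⟩ := exists_ne W v hv0
  have hli := (W.ind v hv0 G G' hG.ker hG'.ker).1 hp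
  obtain ⟨l, hl⟩ := types_mod hn D hE r q f hf hfq hv hv0
  have e1 := hl τ G hG (hli.ne_zero 0)
  have e2 := hl τ' G' hG' (hli.ne_zero 1)
  apply hr
  rw [← ZMod.intCast_zmod_eq_zero_iff_dvd] 
  rcases types_plane hn D hE L q hv h1 h2 hv0 hY0 hY1 hY2 hG hG' hli with h | h
  · rw [← h, Int.cast_sub, e1, e2, sub_self]
  · rw [← h, Int.cast_sub, e1, e2, sub_self]

/-- the case of `V₂ ⊕ V₁`. -/
theorem splits_of_p4 (hn : 4 ≤ n) (D : EqB E (pw p))
    {Y : Matrix (Fin (n + 1)) (Fin (n + 1)) ℂ} (L : Lft D om (vf Y)) (q : ℤ)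
    {v c₁ c₂ u₁ u₂ : Fin (n + 1) → ℂ} (hv : WV p q v) (h1 : WV p (q + 2) c₁)
    (h2 : WV p (q + 4) c₂) (h3 : WV p (q + 1) u₁) (h4 : WV p (q + 3) u₂)
    (hv0 : v ≠ 0) (hu0 : u₁ ≠ 0) (hY0 : Y.mulVec v = 0) (hY1 : Y.mulVec c₁ = v)
    (hY2 : Y.mulVec c₂ = c₁) (hY3 : Y.mulVec u₁ = 0) (hY4 : Y.mulVec u₂ = u₁) : E.Splits := by
  have hc1 : c₁ ≠ 0 := by
    rintro rfl
    rw [Matrix.mulVec_zero] at hY1
    exact hv0 hY1.symm
  have hc2 : c₂ ≠ 0 := by
    rintro rfl
    rw [Matrix.mulVec_zero] at hY2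
    exact hc1 hY2.symm
  have hu2 : u₂ ≠ 0 := by
    rintro rfl
    rw [Matrix.mulVec_zero] at hY4
    exact hu0 hY4.symm
  let qq : Fin 5 → ℤ := ![q, q + 2, q + 4, q + 1, q + 3]
  have hwt : ∀ t, WV p (qq t) (![v, c₁, c₂, u₁, u₂] t) := by
    intro t
    fin_cases t
    · exact hv
    · exact h1
    · exact h2
    · exact h3
    · exact h4
  have hind : LinearIndependent ℂ ![v, c₁, c₂, u₁, u₂] := by
    refine Sl2.indep hwt ?_ ?_
    · intro t
      fin_cases t
      · exact hv0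
      · exact hc1
      · exact hc2
      · exact hu0
      · exact hu2
    · intro a b hab
      fin_cases a <;> fin_cases b <;> simp [qq] at hab ⊢
  let T : (Fin (4 + 1) → ℂ) →ₗ[ℂ] (Fin (n + 1) → ℂ) :=
    Fintype.linearCombination ℂ ![v, c₁, c₂, u₁, u₂]
  have hT : Function.Injective T := hind.fintypeLinearCombination_injective
  have hTs : ∀ t, T (Pi.single t 1) = ![v, c₁, c₂, u₁, u₂] t := by
    intro t
    simp only [T]
    rw [Fintype.linearCombination_apply_single, one_smul]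
  have hw : ∀ t s, T (Pi.single t 1) s ≠ 0 → pw p s = pw qq t := by
    intro t s hts
    rw [hTs] at hts
    show (p s, (0 : ℤ)) = (qq t, 0)
    rw [hwt t s hts]
  refine Bundle2.splits_of_pull (n - 4) 4 n (by norm_num) (by omega) E T hT ?_
  have d0 : δ5 (X 0) = X 1 := mkDerivation_X _ _ _
  have d1 : δ5 (X 1) = X 2 := mkDerivation_X _ _ _
  have d2 : δ5 (X 2) = 0 := mkDerivation_X _ _ _
  have d3 : δ5 (X 3) = X 4 := mkDerivation_X _ _ _
  have d4 : δ5 (X 4) = 0 := mkDerivation_X _ _ _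
  have dC : ∀ c : ℂ, δ5 (C c) = 0 := fun c => Derivation.map_algebraMap _ _
  have hd : ∀ i, lsub T (vf Y (X i)) = δ5 (lsub T (X i)) := by
    intro i
    rw [lsub_vf, lsub_X, map_sum]
    show ∑ t : Fin 5, _ = ∑ t : Fin 5, _
    rw [Fin.sum_univ_five, Fin.sum_univ_five, hTs, hTs, hTs, hTs, hTs]
    show C (Y.mulVec v i) * X 0 + C (Y.mulVec c₁ i) * X 1 + C (Y.mulVec c₂ i) * X 2 +
        C (Y.mulVec u₁ i) * X 3 + C (Y.mulVec u₂ i) * X 4 =
      δ5 (C (v i) * X 0) + δ5 (C (c₁ i) * X 1) + δ5 (C (c₂ i) * X 2) + δ5 (C (u₁ i) * X 3) +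
        δ5 (C (u₂ i) * X 4)
    rw [hY0, hY1, hY2, hY3, hY4, Derivation.leibniz, Derivation.leibniz, Derivation.leibniz,
      Derivation.leibniz, Derivation.leibniz, dC, dC, dC, dC, dC, d0, d1, d2, d3, d4]
    simp
  have hδ' : ∀ i, IsWeightedHomogeneous (tw (pw qq)) (δ5 (X i)) (tw (pw qq) i + om) := by
    intro i
    fin_cases i
    · show IsWeightedHomogeneous (tw (pw qq)) (δ5 (X 0)) (tw (pw qq) 0 + om)
      have e2 : tw (pw qq) 0 + om = tw (pw qq) 1 := by
        show ((1 : ℤ), (q, (0 : ℤ))) + (0, (2, 0)) = (1, (q + 2, 0))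
        rw [Prod.mk_add_mk, Prod.mk_add_mk]
        norm_num
      rw [d0, e2]
      exact isWeightedHomogeneous_X _ _ _
    · show IsWeightedHomogeneous (tw (pw qq)) (δ5 (X 1)) (tw (pw qq) 1 + om)
      have e2 : tw (pw qq) 1 + om = tw (pw qq) 2 := by
        show ((1 : ℤ), (q + 2, (0 : ℤ))) + (0, (2, 0)) = (1, (q + 4, 0))
        rw [Prod.mk_add_mk, Prod.mk_add_mk, add_assoc]
        norm_num
      rw [d1, e2]
      exact isWeightedHomogeneous_X _ _ _
    · show IsWeightedHomogeneous (tw (pw qq)) (δ5 (X 2)) (tw (pw qq) 2 + om)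
      rw [d2]
      exact isWeightedHomogeneous_zero _ _ _
    · show IsWeightedHomogeneous (tw (pw qq)) (δ5 (X 3)) (tw (pw qq) 3 + om)
      have e2 : tw (pw qq) 3 + om = tw (pw qq) 4 := by
        show ((1 : ℤ), (q + 1, (0 : ℤ))) + (0, (2, 0)) = (1, (q + 3, 0))
        rw [Prod.mk_add_mk, Prod.mk_add_mk, add_assoc]
        norm_num
      rw [d3, e2]
      exact isWeightedHomogeneous_X _ _ _
    · show IsWeightedHomogeneous (tw (pw qq)) (δ5 (X 4)) (tw (pw qq) 4 + om)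
      rw [d4]
      exact isWeightedHomogeneous_zero _ _ _
  refine p4 (L.pull T hT (pw qq) hw δ5 hd hδ') (chiq q) ?_ ?_ ?_ ?_ ?_ rfl (chiq_om q)
  · rw [chiq_tw]
    show q - q = 0
    ring
  · rw [chiq_tw]
    show q + 2 - q = 2
    ring
  · rw [chiq_tw]
    show q + 4 - q = 4
    ring
  · rw [chiq_tw]
    show q + 1 - q = 1
    ring
  · rw [chiq_tw]
    show q + 3 - q = 3
    ring

end Pool.Agent.W615
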