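import Pool.Agent.W615.Sl2

/-!
# Rank two bundles equivariant under the Borel subgroup of `SL₂`: the theorem (helper615)
-/

set_option autoImplicit false
set_option maxHeartbeats 400000

open MvPolynomial H960VB H938TB

namespace Pool.Agent.W615

variable {n : ℕ} {p : Fin (n + 1) → ℤ} {E : Bundle2 n}

theorem sum_mu (p : Fin (n + 1) → ℤ) (Q : Finset ℤ) :
    ∑ κ ∈ Q, mu p κ = (Finset.univ.filter (fun s => p s ∈ Q)).card := by
  classical
  rw [Finset.card_eq_sum_card_fiberwise (f := p) (t := Q) (fun s hs => by simpa using hs)]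
  refine Finset.sum_congr rfl fun κ hκ => ?_
  unfold mu
  rw [Fintype.card_subtype, Finset.filter_filter]
  congr 1
  ext s
  simp only [Finset.mem_filter, Finset.mem_univ, true_and]
  exact ⟨fun h => ⟨by rw [h]; exact hκ, h⟩, fun h => h.2⟩

theorem sum_mu_univ (p : Fin (n + 1) → ℤ) (Q : Finset ℤ) (h : ∀ s, p s ∈ Q) :
    ∑ κ ∈ Q, mu p κ = n + 1 := by
  rw [sum_mu, Finset.filter_true_of_mem (fun s _ => h s), Finset.card_univ, Fintype.card_fin]

theorem three_of {Q : Finset ℤ} (h : 3 ≤ ∑ κ ∈ Q, mu p κ) : ∃ a b c : Fin (n + 1),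
    a ≠ b ∧ a ≠ c ∧ b ≠ c ∧ p a ∈ Q ∧ p b ∈ Q ∧ p c ∈ Q := by
  rw [sum_mu] at h
  obtain ⟨a, ha, b, hb, c, hc, hab, hac, hbc⟩ := Finset.two_lt_card.1 h
  exact ⟨a, b, c, hab, hac, hbc, (Finset.mem_filter.1 ha).2, (Finset.mem_filter.1 hb).2,
    (Finset.mem_filter.1 hc).2⟩

theorem three_fun {r : ℕ} {q : ℤ} {Q : Finset ℤ} (h : 3 ≤ ∑ κ ∈ Q, mu p κ)
    (hQ : ∀ κ ∈ Q, ((κ : ℤ) : ZMod r) = (q : ZMod r)) : ∃ f : Fin 3 → Fin (n + 1),
    Function.Injective f ∧ ∀ t, ((p (f t) : ℤ) : ZMod r) = (q : ZMod r) := by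
  obtain ⟨a, b, c, hab, hac, hbc, ha, hb, hc⟩ := three_of h
  refine ⟨![a, b, c], ?_, ?_⟩
  · intro i j hij
    fin_cases i <;> fin_cases j <;> simp at hij ⊢ <;>
      first | exact hab hij | exact hac hij | exact hbc hij | exact hab hij.symm |
        exact hac hij.symm | exact hbc hij.symm
  · intro t
    fin_cases t
    · exact hQ _ ha
    · exact hQ _ hb
    · exact hQ _ hc

/-- forgetting the weights of a lift -/
noncomputable def forget {D : EqB E (pw p)} {Y : Matrix (Fin (n + 1)) (Fin (n + 1)) ℂ}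
    (L : Lft D om (vf Y)) : Lft (triv E) 0 (vf Y) :=
  mkLft E Y L.ν L.μ (fun i j => by
    have h1 := homZ_of (L.hν i j)
    simpa [om] using h1) L.comm

/-- three coordinates of the same weight -/
theorem splits_of_mu (hn : 3 ≤ n) (D : EqB E (pw p)) {κ : ℤ} (h : 3 ≤ mu p κ)
    (hj : ∃ j, p j ≠ κ) : E.Splits := by
  have h1 : 3 ≤ ∑ κ' ∈ ({κ} : Finset ℤ), mu p κ' := by
    rw [Finset.sum_singleton]
    exact h
  obtain ⟨a, b, c, hab, hac, hbc, ha, hb, hc⟩ := three_of h1
  rw [Finset.mem_singleton] at ha hb hc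
  obtain ⟨j, hj⟩ := hj
  refine three_equal hn D hab hac hbc ?_ ?_ (j := j) ?_
  · show (p b, (0 : ℤ)) = (p a, 0)
    rw [ha, hb]
  · show (p c, (0 : ℤ)) = (p a, 0)
    rw [ha, hc]
  · show p j ≠ p a
    rw [ha]
    exact hj

/-- **Theorem.**  Bundles on `P^n`, `n ≥ 4`, equivariant under the Borel subgroup of `SL₂`. -/
theorem borel (hn : 4 ≤ n) (D : EqB E (pw p)) {X Y : Matrix (Fin (n + 1)) (Fin (n + 1)) ℂ}
    (S : Sl2 p X Y) (hp : ∃ s, p s ≠ 0) (L : Lft D om (vf Y)) : E.Splits := by
  obtain ⟨k, v, hk1, hb, hv, hv0, hYv⟩ := S.exists_lowest hp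
  have hstr : ∀ j : ℕ, j ≤ k → 0 < mu p (-k + 2 * j) := S.mu_string hv hv0 hYv
  rcases Nat.lt_or_ge k 2 with hk2 | hk2
  · -- `k = 1`
    obtain rfl : k = 1 := by omega
    have t0 := hstr 0 (by omega)
    have t1 := hstr 1 (by omega)
    norm_num at t0 t1
    have e1 := S.le_up (k := -1) (by norm_num)
    have e2 := S.le_down (k := 1) (by norm_num)
    norm_num at e1 e2
    have hQ : ∀ s, p s ∈ ({-1, 0, 1} : Finset ℤ) := by
      intro s
      have h1 := hb s
      simp only [Finset.mem_insert, Finset.mem_singleton]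
      push_cast at h1
      omega
    have htot := sum_mu_univ p _ hQ
    rw [Finset.sum_insert (by decide), Finset.sum_insert (by decide), Finset.sum_singleton] at htot
    by_cases g1 : 3 ≤ mu p 1
    · obtain ⟨s, hs⟩ := Sl2.mu_pos_iff.1 t0
      exact splits_of_mu (by omega) D g1 ⟨s, by rw [hs]; norm_num⟩
    by_cases g2 : 3 ≤ mu p 0
    · exact splits_of_mu (by omega) D g2 hp
    have g3 : mu p 1 = 2 := by omega
    have g4 : 0 < mu p 0 := by omega
    obtain ⟨z, hz⟩ := Sl2.mu_pos_iff.1 g4
    have g5 : 1 < (Finset.univ.filter (fun s => p s = 1)).card := by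
      rw [← Fintype.card_subtype]
      show 1 < mu p 1
      omega
    obtain ⟨a, b, ha, hb', hab⟩ := Finset.one_lt_card_iff.1 g5
    rw [Finset.mem_filter] at ha hb'
    have wa : WV p 1 (Pi.single a (1 : ℂ)) := by
      have := WV.single (p := p) a 1
      rwa [ha.2] at this
    have wb : WV p 1 (Pi.single b (1 : ℂ)) := by
      have := WV.single (p := p) b 1
      rwa [hb'.2] at this
    have wz : WV p 0 (Pi.single z (1 : ℂ)) := by
      have := WV.single (p := p) z 1
      rwa [hz] at this
    have low : ∀ κ : ℤ, κ < 1 → ∀ u, WV p κ u → Y.mulVec u = 0 := by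
      intro κ hκ u hu
      by_contra h
      obtain ⟨s, hs⟩ := (S.wY hu).exists h
      have h1 := hb s
      push_cast at h1
      omega
    refine two_blocks (forget L) (Pi.single a 1) (Pi.single b 1) (Pi.single z 1)
      (low (1 - 2) (by norm_num) _ (S.wY wa)) (low (1 - 2) (by norm_num) _ (S.wY wb))
      (low 0 (by norm_num) _ wz) ?_
    rw [Fintype.linearIndependent_iff]
    intro g hg
    rw [Fin.sum_univ_three] at hg
    simp only [Matrix.cons_val] at hg
    have wab : WV p 1 (g 0 • (Pi.single a (1 : ℂ)) + g 1 • (Pi.single b (1 : ℂ))) := by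
      intro s hs
      by_contra h
      apply hs
      rw [Pi.add_apply, Pi.smul_apply, Pi.smul_apply]
      have h1 : (Pi.single a (1 : ℂ) : Fin (n + 1) → ℂ) s = 0 := by
        by_contra h2
        exact h (wa s h2)
      have h2 : (Pi.single b (1 : ℂ) : Fin (n + 1) → ℂ) s = 0 := by
        by_contra h2
        exact h (wb s h2)
      rw [h1, h2, smul_zero, smul_zero, add_zero]
    have h0 : g 2 = 0 := by
      have h1 := congrFun hg z
      rw [Pi.add_apply, Pi.smul_apply, Pi.single_eq_same] at h1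
      have h2 : (g 0 • Y.mulVec (Pi.single a 1) + g 1 • Y.mulVec (Pi.single b 1)) z = 0 := by
        have h3 := S.wY wab
        rw [Matrix.mulVec_add, Matrix.mulVec_smul, Matrix.mulVec_smul] at h3
        by_contra h4
        have h5 := h3 z h4
        rw [hz] at h5
        norm_num at h5
      rw [h2, zero_add, smul_eq_mul, mul_one] at h1
      exact h1
    rw [h0, zero_smul, add_zero, ← Matrix.mulVec_smul, ← Matrix.mulVec_smul,
      ← Matrix.mulVec_add] at hg
    have h1 : g 0 • (Pi.single a (1 : ℂ)) + g 1 • (Pi.single b (1 : ℂ)) = (0 : Fin (n + 1) → ℂ) := by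
      by_contra h2
      exact S.Y_ne (by norm_num) wab h2 hg
    have h2 := congrFun h1 a
    have h3 := congrFun h1 b
    simp only [Pi.add_apply, Pi.smul_apply, Pi.single_eq_same, Pi.single_eq_of_ne hab,
      Pi.single_eq_of_ne (Ne.symm hab), smul_eq_mul, mul_one, mul_zero, add_zero, zero_add,
      Pi.zero_apply] at h2 h3
    intro i
    fin_cases i
    · exact h2
    · exact h3
    · exact h0
  obtain ⟨c₁, c₂, w1, w2, hY1, hY2⟩ := S.exists_triple hk2 hv hYv
  rcases Nat.lt_or_ge k 3 with hk3 | hk3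
  · -- `k = 2`
    obtain rfl : k = 2 := by omega
    have t0 := hstr 0 (by omega)
    have t1 := hstr 1 (by omega)
    have t2 := hstr 2 (by omega)
    norm_num at t0 t1 t2
    have e1 := S.le_up (k := -1) (by norm_num)
    have e2 := S.le_down (k := 1) (by norm_num)
    norm_num at e1 e2
    have hQ : ∀ s, p s ∈ ({-2, -1, 0, 1, 2} : Finset ℤ) := by
      intro s
      have h1 := hb s
      simp only [Finset.mem_insert, Finset.mem_singleton]
      push_cast at h1
      omega
    have htot := sum_mu_univ p _ hQ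
    rw [Finset.sum_insert (by decide), Finset.sum_insert (by decide), Finset.sum_insert (by decide),
      Finset.sum_insert (by decide), Finset.sum_singleton] at htot
    by_cases g1 : 3 ≤ mu p (-2) + mu p 2
    · obtain ⟨f, hf, hfq⟩ := three_fun (p := p) (r := 4) (q := -(2 : ℕ)) (Q := {-2, 2}) (by
        rw [Finset.sum_insert (by decide), Finset.sum_singleton]
        exact g1) (by decide)
      exact splits_of_mod (by omega) D L _ hv w1 w2 hv0 hYv hY1 hY2 4 (by decide) f hf hfq
    by_cases g2 : 0 < mu p 1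
    · obtain ⟨s, hs⟩ := Sl2.mu_pos_iff.1 g2
      have ws : WV p (-(2 : ℕ) + 3) (Pi.single s (1 : ℂ)) := by
        have := WV.single (p := p) s 1
        rw [hs] at this
        exact this
      have hs0 : (Pi.single s (1 : ℂ) : Fin (n + 1) → ℂ) ≠ 0 := fun h => by
        simpa using congrFun h s
      have ws' := S.wY ws
      have e3 : -((2 : ℕ) : ℤ) + 3 - 2 = -((2 : ℕ) : ℤ) + 1 := by norm_num
      rw [e3] at ws'
      have low : Y.mulVec (Y.mulVec (Pi.single s 1)) = 0 := by
        by_contra h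
        obtain ⟨s', hs'⟩ := (S.wY ws').exists h
        have h1 := hb s'
        push_cast at h1 hs'
        omega
      exact splits_of_p4 hn D L _ hv w1 w2 ws' ws hv0 (S.Y_ne (by norm_num) ws hs0) hYv hY1 hY2
        low rfl
    · have g3 : 3 ≤ mu p 0 := by omega
      exact splits_of_mu (by omega) D g3 hp
  rcases Nat.lt_or_ge k 4 with hk4 | hk4
  · -- `k = 3`
    obtain rfl : k = 3 := by omega
    have t0 := hstr 0 (by omega)
    have t1 := hstr 1 (by omega)
    have t2 := hstr 2 (by omega)
    have t3 := hstr 3 (by omega)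
    norm_num at t0 t1 t2 t3
    have e1 := S.le_up (k := -1) (by norm_num)
    have e2 := S.le_up (k := -2) (by norm_num)
    have e3 := S.le_down (k := 2) (by norm_num)
    norm_num at e1 e2 e3
    have hQ : ∀ s, p s ∈ ({-3, -2, -1, 0, 1, 2, 3} : Finset ℤ) := by
      intro s
      have h1 := hb s
      simp only [Finset.mem_insert, Finset.mem_singleton]
      push_cast at h1
      omega
    have htot := sum_mu_univ p _ hQ
    rw [Finset.sum_insert (by decide), Finset.sum_insert (by decide), Finset.sum_insert (by decide),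
      Finset.sum_insert (by decide), Finset.sum_insert (by decide), Finset.sum_insert (by decide),
      Finset.sum_singleton] at htot
    by_cases g1 : 3 ≤ mu p (-3) + mu p 1
    · obtain ⟨f, hf, hfq⟩ := three_fun (p := p) (r := 4) (q := -(3 : ℕ)) (Q := {-3, 1}) (by
        rw [Finset.sum_insert (by decide), Finset.sum_singleton]
        exact g1) (by decide)
      exact splits_of_mod (by omega) D L _ hv w1 w2 hv0 hYv hY1 hY2 4 (by decide) f hf hfq
    by_cases g2 : 3 ≤ mu p (-3) + (mu p 0 + mu p 3)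
    · obtain ⟨f, hf, hfq⟩ := three_fun (p := p) (r := 3) (q := -(3 : ℕ)) (Q := {-3, 0, 3}) (by
        rw [Finset.sum_insert (by decide), Finset.sum_insert (by decide), Finset.sum_singleton]
        exact g2) (by decide)
      exact splits_of_mod (by omega) D L _ hv w1 w2 hv0 hYv hY1 hY2 3 (by decide) f hf hfq
    omega
  · -- `k ≥ 4`
    have t0 := hstr 0 (by omega)
    have t2 := hstr 2 (by omega)
    have t4 := hstr 4 (by omega)
    obtain ⟨f, hf, hfq⟩ := three_fun (p := p) (r := 4) (q := -(k : ℤ))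
      (Q := {-(k : ℤ) + 2 * (0 : ℕ), -(k : ℤ) + 2 * (2 : ℕ), -(k : ℤ) + 2 * (4 : ℕ)}) (by
        rw [Finset.sum_insert, Finset.sum_insert, Finset.sum_singleton]
        · omega
        · rw [Finset.mem_singleton]
          push_cast
          omega
        · rw [Finset.mem_insert, Finset.mem_singleton]
          push_cast
          omega) (by
        intro κ hκ
        rw [Finset.mem_insert, Finset.mem_insert, Finset.mem_singleton] at hκ
        rw [ZMod.intCast_eq_intCast_iff_dvd_sub]
        rcases hκ with rfl | rfl | rfl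
        · norm_num
        · norm_num
        · norm_num)
    exact splits_of_mod (by omega) D L _ hv w1 w2 hv0 hYv hY1 hY2 4 (by decide) f hf hfq

end Pool.Agent.W615
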