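import Pool.Agent.W615.Solv

/-!
# Bundles with a nilpotent vector field normalised by a torus: the theorem (helper615)
-/

set_option autoImplicit false
set_option maxHeartbeats 400000

open MvPolynomial H960VB H938TB

namespace Pool.Agent.W615

variable {n : ℕ} {p : Fin (n + 1) → ℤ} {E : Bundle2 n}

/-- the restriction to the coordinates of weight `κ` -/
def rst (p : Fin (n + 1) → ℤ) (κ : ℤ) : (Fin (n + 1) → ℂ) →ₗ[ℂ] ({s // p s = κ} → ℂ) where
  toFun x := fun s => x s.1
  map_add' _ _ := rfl
  map_smul' _ _ := rfl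

theorem mu_of_indep {κ : ℤ} {m : ℕ} {v : Fin m → (Fin (n + 1) → ℂ)} (hv : LinearIndependent ℂ v)
    (hw : ∀ i, WV p κ (v i)) : m ≤ mu p κ := by
  classical
  have h1 : LinearIndependent ℂ (fun i => rst p κ (v i)) := by
    rw [Fintype.linearIndependent_iff] at hv ⊢
    intro g hg
    apply hv
    funext s
    by_cases hs : p s = κ
    · have h2 := congrFun hg ⟨s, hs⟩
      rw [Finset.sum_apply] at h2 ⊢
      exact h2
    · rw [Finset.sum_apply]
      refine Finset.sum_eq_zero fun i _ => ?_
      rw [Pi.smul_apply]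
      have : v i s = 0 := by
        by_contra h
        exact hs (hw i s h)
      rw [this, smul_zero]
  have h2 := h1.fintype_card_le_finrank
  rw [Fintype.card_fin, Module.finrank_fintype_fun_eq_card] at h2
  exact h2

/-- a nilpotent matrix preserving the weights, all multiplicities being at most two. -/
theorem sq_zero {Y : Matrix (Fin (n + 1)) (Fin (n + 1)) ℂ}
    (hY : ∀ i j, Y i j ≠ 0 → p i = p j) (hnil : IsNilpotent Y) (hmu : ∀ κ, mu p κ ≤ 2) :
    Y * Y = 0 := by
  by_contra h2
  have hY' : ∀ i j, Y i j ≠ 0 → p i = p j - 0 := fun i j h => by rw [hY i j h, sub_zero]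
  obtain ⟨s, hs⟩ := exists_it_ne (Y := Y) (j := 2) (by rw [pow_two]; exact h2)
  obtain ⟨N, hN⟩ := hnil
  have hz : ∃ m, Sl2.it Y (Pi.single s 1) m = 0 := ⟨N, by
    rw [it_pow, hN, Matrix.zero_mulVec]⟩
  classical
  have h0 := Nat.find_spec hz
  have hmin := fun m => Nat.find_min (m := m) hz
  set m := Nat.find hz with hm
  have hit : ∀ a b : ℕ, Sl2.it Y (Pi.single s 1) a = 0 → Sl2.it Y (Pi.single s 1) (a + b) = 0 := by
    intro a b h
    induction b with
    | zero => exact h
    | succ b ih =>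
      show Y.mulVec (Sl2.it Y (Pi.single s 1) (a + b)) = 0
      rw [ih, Matrix.mulVec_zero]
  have hm3 : 3 ≤ m := by
    by_contra h
    push Not at h
    obtain ⟨b, hb⟩ : ∃ b, 2 = m + b := ⟨2 - m, by omega⟩
    exact hs (by rw [hb]; exact hit m b h0)
  obtain ⟨m', hm'⟩ : ∃ m', m = m' + 3 := ⟨m - 3, by omega⟩
  rw [hm'] at h0
  have S := str_of hY' (WV.single (p := p) s 1) (hmin (m' + 2) (by omega)) h0
  have w0 := wv_it hY' (WV.single (p := p) s 1) (m' + 2)
  have w1 := wv_it hY' (WV.single (p := p) s 1) (m' + 1)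
  have w2 := wv_it hY' (WV.single (p := p) s 1) m'
  rw [mul_zero, sub_zero] at w0 w1 w2
  have h3 := mu_of_indep (p := p) (κ := p s) S.indep (by
    intro i
    fin_cases i
    · exact w0
    · exact w1
    · exact w2)
  have := hmu (p s)
  omega

/-- **Theorem.** -/
theorem solv (hn : 4 ≤ n) (E : Bundle2 n) (w : Fin (n + 1) → ℤ) (hw : ∃ i j, w i ≠ w j)
    (b : Fin E.a → ℤ) (c : Fin E.c → ℤ)
    (hB : ∀ k i, ∀ u ∈ (E.B k i).support, ∑ l, (u l : ℤ) * w l = c k - b i)
    (Y : Matrix (Fin (n + 1)) (Fin (n + 1)) ℂ) (hY0 : Y ≠ 0) (hnil : IsNilpotent Y) (r : ℤ)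
    (hY : ∀ i j, Y i j ≠ 0 → w i = w j - r)
    (ν : Matrix (Fin E.a) (Fin E.a) (MvPolynomial (Fin (n + 1)) ℂ))
    (μ : Matrix (Fin E.c) (Fin E.c) (MvPolynomial (Fin (n + 1)) ℂ))
    (hlift : ∀ k i, ∑ s, pderiv s (E.B k i) * (∑ t, C (Y s t) * X t) =
      ∑ l, μ k l * E.B l i + ∑ j, E.B k j * ν j i) :
    E.Splits := by
  rcases lt_trichotomy r 0 with hr | hr | hr
  · -- negative: change the sign of the weights
    let D := mkEqB E (fun l => (-w l, 0)) (fun i => (-b i, 0)) (fun k => (-c k, 0)) (by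
      intro k i u hu
      ext
      · have h3 := hB k i u hu
        have h4 : ∑ l, (u l : ℤ) * (-w l) = -(∑ l, (u l : ℤ) * w l) := by
          rw [← Finset.sum_neg_distrib]
          exact Finset.sum_congr rfl fun l _ => by ring
        rw [h3] at h4
        simp only [Prod.fst_sum, Prod.smul_mk, smul_eq_mul, Prod.fst_sub]
        rw [h4]
        ring
      · simp [Prod.snd_sum, Prod.smul_mk])
    have hY' : ∀ i j, Y i j ≠ 0 → -w i = -w j - -r := fun i j h => by
      rw [hY i j h]
      ring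
    exact solv_pos (p := fun l => -w l) hn D (c := -r) (by linarith) hY' hY0
      (homLft D _ (vf Y) (vf_hom (p := fun l => -w l) (c := -r) hY') ν μ
        (fun k i => by rw [vf_eq_sum]; exact hlift k i))
  · subst hr
    let D := mkEqB E (fun l => (w l, 0)) (fun i => (b i, 0)) (fun k => (c k, 0)) (by
      intro k i u hu
      ext
      · have h3 := hB k i u hu
        simpa [Prod.fst_sum, Prod.smul_mk] using h3
      · simp [Prod.snd_sum, Prod.smul_mk])
    by_cases hmu : ∃ κ, 3 ≤ mu w κ
    · obtain ⟨κ, hκ⟩ := hmu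
      refine splits_of_mu (by omega) D hκ ?_
      by_contra hc
      push Not at hc
      obtain ⟨i, j, hij⟩ := hw
      exact hij ((hc i).trans (hc j).symm)
    · push Not at hmu
      exact splits_of_sq hn (homLft (triv E) 0 (vf Y) (vf_hom0 Y) ν μ
        (fun k i => by rw [vf_eq_sum]; exact hlift k i))
        (sq_zero (p := w) (fun i j h => by rw [hY i j h, sub_zero]) hnil
          (fun κ => by have := hmu κ; omega)) hY0
  · let D := mkEqB E (fun l => (w l, 0)) (fun i => (b i, 0)) (fun k => (c k, 0)) (by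
      intro k i u hu
      ext
      · have h3 := hB k i u hu
        simpa [Prod.fst_sum, Prod.smul_mk] using h3
      · simp [Prod.snd_sum, Prod.smul_mk])
    exact solv_pos (p := w) hn D (c := r) hr hY hY0
      (homLft D _ (vf Y) (vf_hom (p := w) (c := r) hY) ν μ
        (fun k i => by rw [vf_eq_sum]; exact hlift k i))

end Pool.Agent.W615
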