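import Pool.Agent.W615.Elation3
import Pool.Agent.W615.LOne

/-!
# Vector fields with a plane of zeros and two Jordan blocks (helper615)
-/

set_option autoImplicit false
set_option maxHeartbeats 400000

open MvPolynomial H960VB H938TB

namespace Pool.Agent.W615

theorem fin3 : ∀ k : Fin 3, k + 1 ≠ k ∧ k + 2 ≠ k ∧ k + 2 ≠ k + 1 ∧
    ∀ j : Fin 3, j = k ∨ j = k + 1 ∨ j = k + 2 := by decide

/-- the linear form vanishing on the line through `q` and the `k`-th vertex. -/
theorem exists_line {a : ℕ} {s : Vec a 2} (hsp : Prm s) {d : Fin a → ℤ}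
    (hd : ∀ i, HomZ (s i) (d i)) (k : Fin 3) {q : Fin 3 → ℂ}
    (hq : q (k + 1) ≠ 0 ∨ q (k + 2) ≠ 0) : ∃ z : ℂ, evv s (q + z • Pi.single k 1) ≠ 0 := by
  by_contra hcon
  push Not at hcon
  obtain ⟨e1, e2, e3, hcase⟩ := fin3 k
  let c : Fin 3 →₀ ℂ := Finsupp.single (k + 2) (q (k + 1)) + Finsupp.single (k + 1) (-q (k + 2))
  have hc2 : c (k + 2) = q (k + 1) := by
    simp [c, e3]
  have hc1 : c (k + 1) = -q (k + 2) := by
    simp [c, e3.symm]
  set ℓ : MvPolynomial (Fin 3) ℂ := sumSMulX c with hℓ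
  have hev : ∀ v : Fin 3 → ℂ, eval v ℓ = q (k + 1) * v (k + 2) - q (k + 2) * v (k + 1) := by
    intro v
    rw [hℓ, sumSMulX, map_add, Finsupp.linearCombination_single,
      Finsupp.linearCombination_single, map_add]
    simp [smul_eq_C_mul]
    ring
  have hirr : Irreducible ℓ := by
    apply irreducible_sumSMulX
    · rcases hq with h | h
      · exact ⟨k + 2, by rw [Finsupp.mem_support_iff, hc2]; exact h⟩
      · exact ⟨k + 1, by rw [Finsupp.mem_support_iff, hc1]; exact neg_ne_zero.2 h⟩
    · intro r hr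
      rcases hq with h | h
      · exact isUnit_of_dvd_unit (hc2 ▸ hr (k + 2)) (isUnit_iff_ne_zero.2 h)
      · exact isUnit_of_dvd_unit (hc1 ▸ hr (k + 1)) (isUnit_iff_ne_zero.2 (neg_ne_zero.2 h))
  have hpr : Prime ℓ := UniqueFactorizationMonoid.irreducible_iff_prime.1 hirr
  have key : ∀ (i : Fin a) (v : Fin 3 → ℂ), eval v ℓ = 0 →
      (v (k + 1) ≠ 0 ∨ v (k + 2) ≠ 0) → eval v (s i) = 0 := by
    intro i v hv hne
    rw [hev] at hv
    obtain ⟨α, hα, h1, h2⟩ : ∃ α : ℂ, α ≠ 0 ∧ v (k + 1) = α * q (k + 1) ∧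
        v (k + 2) = α * q (k + 2) := by
      by_cases h0 : q (k + 1) = 0
      · have h3 : q (k + 2) ≠ 0 := by
          rcases hq with h | h
          · exact absurd h0 h
          · exact h
        rw [h0, zero_mul, zero_sub, neg_eq_zero] at hv
        have h4 := (mul_eq_zero.1 hv).resolve_left h3
        have h5 : v (k + 2) ≠ 0 := by
          rcases hne with h | h
          · exact absurd h4 h
          · exact h
        refine ⟨v (k + 2) / q (k + 2), div_ne_zero h5 h3, ?_, ?_⟩
        · rw [h4, h0, mul_zero]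
        · field_simp
      · have h5 : v (k + 1) ≠ 0 := by
          intro h6
          rw [h6, mul_zero, sub_zero] at hv
          have h7 := (mul_eq_zero.1 hv).resolve_left h0
          rcases hne with h | h
          · exact h h6
          · exact h h7
        refine ⟨v (k + 1) / q (k + 1), div_ne_zero h5 h0, ?_, ?_⟩
        · field_simp
        · field_simp
          linear_combination hv
    have h3 : v = α • (q + (v k / α - q k) • Pi.single k 1) := by
      ext j
      rcases hcase j with rfl | rfl | rfl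
      · simp
        field_simp
      · simp [e1, h1]
      · simp [e2, h2]
    rw [h3]
    have h4 := congrFun (hcon (v k / α - q k)) i
    rcases hd i with h5 | ⟨l, hl, h5⟩
    · rw [h5, map_zero]
    · have h6 : eval (α • (q + (v k / α - q k) • Pi.single k 1)) (s i) =
          α ^ l * eval (q + (v k / α - q k) • Pi.single k 1) (s i) := by
        rw [eval_eq', eval_eq', Finset.mul_sum]
        refine Finset.sum_congr rfl fun u hu => ?_
        have h3 := h5 (mem_support_iff.1 hu)
        rw [Finsupp.weight_apply, Finsupp.sum_fintype _ _ (by simp)] at h3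
        have h4 : ∑ i, u i = l := by simpa using h3
        rw [← h4, ← Finset.prod_pow_eq_pow_sum]
        have h7 : ∀ i, (α • (q + (v k / α - q k) • Pi.single k 1) : Fin 3 → ℂ) i ^ u i =
            α ^ u i * (q + (v k / α - q k) • Pi.single k 1 : Fin 3 → ℂ) i ^ u i := by
          intro i
          rw [Pi.smul_apply, smul_eq_mul, mul_pow]
        simp_rw [h7]
        rw [Finset.prod_mul_distrib]
        ring
      rw [h6]
      have h7 : eval (q + (v k / α - q k) • Pi.single k 1) (s i) = 0 := h4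
      rw [h7, mul_zero]
  have hdv : ∀ i, ℓ ∣ s i := by
    intro i
    have d1 : ℓ ∣ s i * X (k + 1) := dvd_of_vanish hpr fun v hv => by
      rw [map_mul, eval_X]
      by_cases h : v (k + 1) = 0
      · rw [h, mul_zero]
      · rw [key i v hv (Or.inl h), zero_mul]
    have d2 : ℓ ∣ s i * X (k + 2) := dvd_of_vanish hpr fun v hv => by
      rw [map_mul, eval_X]
      by_cases h : v (k + 2) = 0
      · rw [h, mul_zero]
      · rw [key i v hv (Or.inr h), zero_mul]
    rcases hpr.dvd_or_dvd d1 with h | h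
    · exact h
    rcases hpr.dvd_or_dvd d2 with h' | h'
    · exact h'
    exfalso
    have hq0 : eval q ℓ = 0 := by
      rw [hev]
      ring
    obtain ⟨r, hr⟩ := h
    obtain ⟨r', hr'⟩ := h'
    have a1 := congrArg (eval q) hr
    have a2 := congrArg (eval q) hr'
    rw [eval_X, map_mul, hq0, zero_mul] at a1 a2
    rcases hq with h | h
    · exact h a1
    · exact h a2
  exact hirr.not_isUnit (hsp ℓ hdv)

/-- the linear vector field `x ↦ N x`. -/
noncomputable def vf {n : ℕ} (N : Matrix (Fin (n + 1)) (Fin (n + 1)) ℂ) : Der n :=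
  mkDerivation ℂ (fun i => ∑ j, C (N i j) * X j)

theorem vf_X {n : ℕ} (N : Matrix (Fin (n + 1)) (Fin (n + 1)) ℂ) (i : Fin (n + 1)) :
    vf N (X i) = ∑ j, C (N i j) * X j := mkDerivation_X _ _ _

theorem lsub_X {m n : ℕ} (T : (Fin (m + 1) → ℂ) →ₗ[ℂ] (Fin (n + 1) → ℂ)) (i : Fin (n + 1)) :
    lsub T (X i) = ∑ t, C (T (Pi.single t 1) i) * X t := by
  rw [lsub, aeval_X]

theorem lsub_vf {m n : ℕ} (T : (Fin (m + 1) → ℂ) →ₗ[ℂ] (Fin (n + 1) → ℂ))
    (N : Matrix (Fin (n + 1)) (Fin (n + 1)) ℂ) (i : Fin (n + 1)) :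
    lsub T (vf N (X i)) = ∑ t, C (N.mulVec (T (Pi.single t 1)) i) * X t := by
  rw [vf_X, map_sum]
  have h : ∀ j, lsub T (C (N i j) * X j) = ∑ t, C (N i j * T (Pi.single t 1) j) * X t := by
    intro j
    rw [map_mul, lsub_X, Finset.mul_sum]
    have h1 : lsub T (C (N i j)) = C (N i j) := by
      rw [lsub, aeval_C]
      rfl
    rw [h1]
    exact Finset.sum_congr rfl fun t _ => by rw [C_mul, mul_assoc]
  simp_rw [h]
  rw [Finset.sum_comm]
  refine Finset.sum_congr rfl fun t _ => ?_
  rw [← Finset.sum_mul, ← map_sum]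
  rfl

/-- the lift of a linear vector field, in plain terms -/
noncomputable def mkLft {n : ℕ} (E : Bundle2 n) (N : Matrix (Fin (n + 1)) (Fin (n + 1)) ℂ)
    (ν : Matrix (Fin E.a) (Fin E.a) (MvPolynomial (Fin (n + 1)) ℂ))
    (μ : Matrix (Fin E.c) (Fin E.c) (MvPolynomial (Fin (n + 1)) ℂ))
    (hν : ∀ i j, HomZ (ν i j) (E.β i - E.β j))
    (hc : ∀ k i, vf N (E.B k i) = ∑ l, μ k l * E.B l i + ∑ j, E.B k j * ν j i) :
    Lft (triv E) 0 (vf N) where
  ν := ν
  μ := μ
  hδ := by
    intro i
    rw [vf_X]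
    refine IsWeightedHomogeneous.sum _ _ _ fun j _ => ?_
    have h1 := (isWeightedHomogeneous_C (tw (0 : Fin (n + 1) → ℤ × ℤ)) (N i j)).mul
      (isWeightedHomogeneous_X ℂ (tw (0 : Fin (n + 1) → ℤ × ℤ)) j)
    rw [zero_add] at h1
    rw [add_zero]
    exact h1
  hν := by
    intro i j
    have h1 := wh_triv (hν i j)
    convert h1 using 1
    simp [triv]
  comm := hc

section
variable {n : ℕ} {E : Bundle2 n} {N : Matrix (Fin (n + 1)) (Fin (n + 1)) ℂ}

/-- restriction of a lift to a subspace on which the vector field is an elation. -/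
noncomputable def elaLft (L : Lft (triv E) 0 (vf N))
    {m : ℕ} (T : (Fin (m + 1 + 1) → ℂ) →ₗ[ℂ] (Fin (n + 1) → ℂ)) (hT : Function.Injective T)
    (k : Fin (m + 1))
    (h0 : ∀ t : Fin (m + 1), N.mulVec (T (Pi.single t.castSucc 1)) = 0)
    (h1 : N.mulVec (T (Pi.single (Fin.last (m + 1)) 1)) = T (Pi.single k.castSucc 1)) :
    Lft (triv (E.pull T hT)) 0 (elat k) :=
  L.pull T hT 0 (fun _ _ _ => rfl) (elat k)
    (by
      intro i
      rw [lsub_vf, lsub_X, elat_apply, map_sum, Fin.sum_univ_castSucc]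
      rw [Finset.sum_eq_zero (fun t _ => by rw [h0 t]; simp), zero_add, h1]
      rw [Finset.sum_eq_single k.castSucc]
      · rw [Derivation.leibniz, pderiv_C, smul_zero, add_zero, pderiv_X_self, smul_eq_mul,
          mul_one, mul_comm]
      · intro t _ ht
        rw [Derivation.leibniz, pderiv_C, smul_zero, add_zero, pderiv_X_of_ne ht, smul_zero]
      · intro h; exact absurd (Finset.mem_univ _) h)
    (by
      intro i
      rw [elat_apply]
      refine Fin.lastCases ?_ (fun j => ?_) i
      · rw [pderiv_tX, mul_zero]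
        exact isWeightedHomogeneous_zero _ _ _
      · by_cases hj : j = k
        · subst hj
          rw [pderiv_X_self, mul_one, add_zero]
          exact isWeightedHomogeneous_X _ _ _
        · rw [pderiv_X_of_ne (fun h => hj (Fin.castSucc_injective _ h)), mul_zero]
          exact isWeightedHomogeneous_zero _ _ _)

end

end Pool.Agent.W615
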