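import Pool.Agent.W615.Sl3
import Pool.Agent.W615.P2E3
import Pool.Agent.W615.Elation7

/-!
# Strings of weight vectors (helper615)
-/

set_option autoImplicit false
set_option maxHeartbeats 400000

open MvPolynomial H960VB H938TB

namespace Pool.Agent.W615

/-- the weight of a vector field of degree `c` -/
def oc (c : ℤ) : M := (0, (c, 0))

theorem chiq_oc (q c : ℤ) : chiq q (oc c) = c := by
  show (c : ℤ) - q * 0 = c
  ring

theorem oc_ne {c : ℤ} (hc : c ≠ 0) : oc c ≠ 0 := by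
  intro h
  have h1 := congrArg (fun x : M => x.2.1) h
  exact hc h1

/-- a string of three weight vectors -/
structure Str {n : ℕ} (p : Fin (n + 1) → ℤ) (Y : Matrix (Fin (n + 1)) (Fin (n + 1)) ℂ) (c q : ℤ)
    (v c₁ c₂ : Fin (n + 1) → ℂ) : Prop where
  w0 : WV p q v
  w1 : WV p (q + c) c₁
  w2 : WV p (q + 2 * c) c₂
  ne : v ≠ 0
  Y0 : Y.mulVec v = 0
  Y1 : Y.mulVec c₁ = v
  Y2 : Y.mulVec c₂ = c₁

namespace Str

variable {n : ℕ} {p : Fin (n + 1) → ℤ} {Y : Matrix (Fin (n + 1)) (Fin (n + 1)) ℂ} {c q : ℤ}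
  {v c₁ c₂ : Fin (n + 1) → ℂ} (S : Str p Y c q v c₁ c₂)

include S

theorem ne1 : c₁ ≠ 0 := by
  rintro rfl
  have h := S.Y1
  rw [Matrix.mulVec_zero] at h
  exact S.ne h.symm

theorem ne2 : c₂ ≠ 0 := by
  rintro rfl
  have h := S.Y2
  rw [Matrix.mulVec_zero] at h
  exact S.ne1 h.symm

theorem indep : LinearIndependent ℂ ![v, c₁, c₂] := by
  rw [Fintype.linearIndependent_iff]
  intro g hg
  rw [Fin.sum_univ_three] at hg
  simp only [Matrix.cons_val] at hg
  have h1 := congrArg Y.mulVec hg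
  rw [Matrix.mulVec_add, Matrix.mulVec_add, Matrix.mulVec_smul, Matrix.mulVec_smul,
    Matrix.mulVec_smul, S.Y0, S.Y1, S.Y2, Matrix.mulVec_zero, smul_zero, zero_add] at h1
  have h2 := congrArg Y.mulVec h1
  rw [Matrix.mulVec_add, Matrix.mulVec_smul, Matrix.mulVec_smul, S.Y0, S.Y1,
    Matrix.mulVec_zero, smul_zero, zero_add] at h2
  have g2 : g 2 = 0 := (smul_eq_zero.1 h2).resolve_right S.ne
  rw [g2, zero_smul, add_zero] at h1 hg
  have g1 : g 1 = 0 := (smul_eq_zero.1 h1).resolve_right S.ne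
  rw [g1, zero_smul, add_zero] at hg
  have g0 : g 0 = 0 := (smul_eq_zero.1 hg).resolve_right S.ne
  intro i
  fin_cases i
  · exact g0
  · exact g1
  · exact g2

end Str

section
variable {n : ℕ} {p : Fin (n + 1) → ℤ} {E : Bundle2 n}

/-- the restriction to the plane spanned by a string -/
theorem string_plane (hn : 2 ≤ n) (D : EqB E (pw p)) {c : ℤ}
    {Y : Matrix (Fin (n + 1)) (Fin (n + 1)) ℂ} (L : Lft D (oc c) (vf Y)) {q : ℤ}
    {v c₁ c₂ : Fin (n + 1) → ℂ} (S : Str p Y c q v c₁ c₂) :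
    ∃ (T : (Fin (2 + 1) → ℂ) →ₗ[ℂ] (Fin (n + 1) → ℂ)) (hT : Function.Injective T)
      (hw : ∀ t s, T (Pi.single t 1) s ≠ 0 → pw p s = pw ![q, q + c, q + 2 * c] t)
      (L' : Lft (D.pull T hT (pw ![q, q + c, q + 2 * c]) hw) (oc c) δ3),
      T (Pi.single 0 1) = v ∧ ((E.pull T hT).Splits → E.Splits) ∧
      ∀ G i, L'.op (fun i => lsub T (G i)) i = lsub T (L.op G i) := by
  let qq : Fin 3 → ℤ := ![q, q + c, q + 2 * c]
  have hwt : ∀ t, WV p (qq t) (![v, c₁, c₂] t) := by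
    intro t
    fin_cases t
    · exact S.w0
    · exact S.w1
    · exact S.w2
  let T : (Fin (2 + 1) → ℂ) →ₗ[ℂ] (Fin (n + 1) → ℂ) := Fintype.linearCombination ℂ ![v, c₁, c₂]
  have hT : Function.Injective T := S.indep.fintypeLinearCombination_injective
  have hTs : ∀ t, T (Pi.single t 1) = ![v, c₁, c₂] t := by
    intro t
    simp only [T]
    rw [Fintype.linearCombination_apply_single, one_smul]
  have hw : ∀ t s, T (Pi.single t 1) s ≠ 0 → pw p s = pw qq t := by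
    intro t s hts
    rw [hTs] at hts
    show (p s, (0 : ℤ)) = (qq t, 0)
    rw [hwt t s hts]
  have hd : ∀ i, lsub T (vf Y (X i)) = δ3 (lsub T (X i)) := by
    intro i
    have d0 : δ3 (X 0) = X 1 := mkDerivation_X _ _ _
    have d1 : δ3 (X 1) = X 2 := mkDerivation_X _ _ _
    have d2 : δ3 (X 2) = 0 := mkDerivation_X _ _ _
    have dC : ∀ c : ℂ, δ3 (C c) = 0 := fun c => Derivation.map_algebraMap _ _
    rw [lsub_vf, lsub_X, map_sum]
    show ∑ t : Fin 3, _ = ∑ t : Fin 3, _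
    rw [Fin.sum_univ_three, Fin.sum_univ_three, hTs, hTs, hTs]
    show C (Y.mulVec v i) * X 0 + C (Y.mulVec c₁ i) * X 1 + C (Y.mulVec c₂ i) * X 2 =
      δ3 (C (v i) * X 0) + δ3 (C (c₁ i) * X 1) + δ3 (C (c₂ i) * X 2)
    rw [S.Y0, S.Y1, S.Y2, Derivation.leibniz, Derivation.leibniz, Derivation.leibniz, dC, dC, dC,
      d0, d1, d2]
    simp
  have hδ' : ∀ i, IsWeightedHomogeneous (tw (pw qq)) (δ3 (X i)) (tw (pw qq) i + oc c) := by
    intro i
    fin_cases i
    · show IsWeightedHomogeneous (tw (pw qq)) (δ3 (X 0)) (tw (pw qq) 0 + oc c)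
      have e1 : δ3 (X 0) = X 1 := mkDerivation_X _ _ _
      have e2 : tw (pw qq) 0 + oc c = tw (pw qq) 1 := by
        show ((1 : ℤ), (q, (0 : ℤ))) + (0, (c, 0)) = (1, (q + c, 0))
        rw [Prod.mk_add_mk, Prod.mk_add_mk]
        norm_num
      rw [e1, e2]
      exact isWeightedHomogeneous_X _ _ _
    · show IsWeightedHomogeneous (tw (pw qq)) (δ3 (X 1)) (tw (pw qq) 1 + oc c)
      have e1 : δ3 (X 1) = X 2 := mkDerivation_X _ _ _
      have e2 : tw (pw qq) 1 + oc c = tw (pw qq) 2 := by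
        show ((1 : ℤ), (q + c, (0 : ℤ))) + (0, (c, 0)) = (1, (q + 2 * c, 0))
        rw [Prod.mk_add_mk, Prod.mk_add_mk, add_assoc, ← two_mul]
        norm_num
      rw [e1, e2]
      exact isWeightedHomogeneous_X _ _ _
    · show IsWeightedHomogeneous (tw (pw qq)) (δ3 (X 2)) (tw (pw qq) 2 + oc c)
      have e1 : δ3 (X 2) = 0 := mkDerivation_X _ _ _
      rw [e1]
      exact isWeightedHomogeneous_zero _ _ _
  exact ⟨T, hT, hw, L.pull T hT (pw qq) hw δ3 hd hδ', hTs 0,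
    fun h => Bundle2.splits_of_pull (n - 2) 2 n (le_refl 2) (by omega) E T hT h,
    fun G i => pull_op _ _ _ _ _ _ _ _ _ _⟩

/-- **Lemma N.** -/
theorem exists_good (hn : 2 ≤ n) (D : EqB E (pw p)) (hE : ¬ E.Splits) {c : ℤ} (hc : 0 < c)
    {Y : Matrix (Fin (n + 1)) (Fin (n + 1)) ℂ} (L : Lft D (oc c) (vf Y)) {q : ℤ}
    {v c₁ c₂ : Fin (n + 1) → ℂ} (S : Str p Y c q v c₁ c₂) :
    ∃ (τ : M) (G : Vec E.a n), HSec D τ G ∧
      LinearIndependent ℂ ![evv G v, evv (L.op G) v] := by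
  obtain ⟨T, hT, hw, L', hT0, hspl, hop⟩ := string_plane hn D L S
  have hE' : ¬ (E.pull T hT).Splits := fun h => hE (hspl h)
  obtain ⟨W⟩ := exists_wedge (by omega) D
  obtain ⟨W'⟩ := exists_wedge (by norm_num) (D.pull T hT (pw ![q, q + c, q + 2 * c]) hw)
  obtain ⟨τ₁, τ₂, G₁, G₂, hG₁, hG₂, hp⟩ := exists_ne W v S.ne
  have hli := (W.ind v S.ne G₁ G₂ hG₁.ker hG₂.ker).1 hp
  have h0 : chiq q (tw (pw ![q, q + c, q + 2 * c]) 0) = 0 := by
    rw [chiq_tw]
    show q - q = 0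
    ring
  have h1 : chiq q (tw (pw ![q, q + c, q + 2 * c]) 1) = c := by
    rw [chiq_tw]
    show q + c - q = c
    ring
  have h2 : chiq q (tw (pw ![q, q + c, q + 2 * c]) 2) = 2 * c := by
    rw [chiq_tw]
    show q + 2 * c - q = 2 * c
    ring
  have hpos : ∀ j, j ≠ 0 → 0 < chiq q (tw (pw ![q, q + c, q + 2 * c]) j) := by
    intro j hj
    fin_cases j
    · exact absurd rfl hj
    · show 0 < chiq q (tw (pw ![q, q + c, q + 2 * c]) 1)
      rw [h1]; exact hc
    · show 0 < chiq q (tw (pw ![q, q + c, q + 2 * c]) 2)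
      rw [h2]; linarith
  -- the statement for an ordered pair
  have key : ∀ (τ τ' : M) (G G' : Vec E.a n), HSec D τ G → HSec D τ' G' →
      LinearIndependent ℂ ![evv G v, evv G' v] → chiq q τ' - chiq q τ = c →
      LinearIndependent ℂ ![evv G v, evv (L.op G) v] := by
    intro τ τ' G G' hG hG' hli hd
    have hGp := hG.pull T hT (pw ![q, q + c, q + 2 * c]) hw
    have hGp' := hG'.pull T hT (pw ![q, q + c, q + 2 * c]) hw
    have hne : eval (Pi.single 0 1 : Fin 3 → ℂ)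
        (W'.wd (fun i => lsub T (G i)) (fun i => lsub T (G' i))) ≠ 0 := by
      refine (W'.ind _ (e0_ne 2) _ _ hGp.ker hGp'.ker).2 ?_
      rw [evv_lsub, evv_lsub, hT0]
      exact hli
    have hw0 : W'.wd (fun i => lsub T (G i)) (fun i => lsub T (G' i)) ≠ 0 :=
      fun h => hne (by rw [h, map_zero])
    have hκ := chi_of_eval (chiq q) h0 (W'.hom _ _ _ _ hGp hGp') hne
    rw [map_add, map_add] at hκ
    obtain ⟨δ, g, s, hg0, hg, hs, hsp, hGs⟩ := exists_prm hGp (ne_of_wd_left W' hGp.ker hGp'.ker hw0)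
    have hge : eval (Pi.single 0 1 : Fin 3 → ℂ) g ≠ 0 := by
      have h3 := hne
      rw [wd_of_mul_left W' hs.ker hGp'.ker hGs, map_mul] at h3
      exact left_ne_zero_of_mul h3
    have hse : eval (Pi.single 0 1 : Fin 3 → ℂ) (W'.wd s (fun i => lsub T (G' i))) ≠ 0 := by
      have h3 := hne
      rw [wd_of_mul_left W' hs.ker hGp'.ker hGs, map_mul] at h3
      exact right_ne_zero_of_mul h3
    have hδ : chiq q δ = 0 := chi_of_eval (chiq q) h0 hg hge
    have hz : W'.wd s (L'.op s) ≠ 0 := by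
      intro hz
      exact hE' (splits_of_inv L' (chiq q) h0 hpos hs
        (op_zero_of_wd L' W' rfl (oc_ne hc.ne') hs hsp hz)
        (ne_of_eval_wd W' (e0_ne 2) hs.ker hGp'.ker hse).1)
    obtain ⟨a, N, ha, hN, -⟩ := form0 (chiq q) h0 hpos (W'.hom _ _ _ _ hs (L'.op_hom hs))
      (by rw [map_add, map_add, map_add, map_sub, hδ, chiq_oc]; linarith) hz
    have hne2 : eval (Pi.single 0 1 : Fin 3 → ℂ)
        (W'.wd (fun i => lsub T (G i)) (L'.op (fun i => lsub T (G i)))) ≠ 0 := by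
      have e1 : L'.op (fun i => lsub T (G i)) = fun i => δ3 g * s i + g * L'.op s i := by
        rw [← L'.op_mul]
        congr 1
        exact funext hGs
      have e2 : W'.wd (fun i => lsub T (G i)) (L'.op (fun i => lsub T (G i))) =
          g * (g * W'.wd s (L'.op s)) := by
        rw [e1, wd_of_mul_left W' hs.ker (ker_add (ker_mul hs.ker _)
          (ker_mul (L'.op_ker hs.ker) _)) hGs, wd_add_right W' (ker_mul hs.ker _)
          (ker_mul (L'.op_ker hs.ker) _) hs.ker, wd_mul_right W' hs.ker hs.ker,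
          wd_self W' hs.ker, wd_mul_right W' (L'.op_ker hs.ker) hs.ker, mul_zero, zero_add]
      rw [e2, hN, map_mul, map_mul, map_mul, map_pow, eval_X, eval_C, Pi.single_eq_same,
        one_pow, mul_one]
      exact mul_ne_zero hge (mul_ne_zero hge ha)
    have h4 := (W'.ind _ (e0_ne 2) _ _ hGp.ker (L'.op_ker hGp.ker)).1 hne2
    have h5 : evv (L'.op (fun i => lsub T (G i))) (Pi.single 0 1) = evv (L.op G) v := by
      rw [← hT0, ← evv_lsub]
      congr 1
      exact funext (hop G)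
    rw [evv_lsub, hT0, h5] at h4
    exact h4
  have hne : eval (Pi.single 0 1 : Fin 3 → ℂ)
      (W'.wd (fun i => lsub T (G₁ i)) (fun i => lsub T (G₂ i))) ≠ 0 := by
    refine (W'.ind _ (e0_ne 2) _ _ (hG₁.ker.pull _ _) (hG₂.ker.pull _ _)).2 ?_
    rw [evv_lsub, evv_lsub, hT0]
    exact hli
  rcases plane L' W' (chiq q) hc h0 h1 h2 rfl (chiq_oc q c) hE' (hG₁.pull _ _ _ _)
    (hG₂.pull _ _ _ _) hne with h | h
  · exact ⟨τ₁, G₁, hG₁, key _ _ _ _ hG₁ hG₂ hli h⟩
  · refine ⟨τ₂, G₂, hG₂, key _ _ _ _ hG₂ hG₁ ?_ h⟩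
    have h6 := LinearIndependent.pair_symm_iff.1 hli
    exact h6

/-- three coordinates whose weights agree modulo a non-divisor of `c`. -/
theorem splits_mod (hn : 2 ≤ n) (D : EqB E (pw p)) {c : ℤ} (hc : 0 < c)
    {Y : Matrix (Fin (n + 1)) (Fin (n + 1)) ℂ} (L : Lft D (oc c) (vf Y)) {q : ℤ}
    {v c₁ c₂ : Fin (n + 1) → ℂ} (S : Str p Y c q v c₁ c₂)
    (r : ℕ) (hr : ¬ (r : ℤ) ∣ c) (f : Fin 3 → Fin (n + 1)) (hf : Function.Injective f)
    (hfq : ∀ t, ((p (f t) : ℤ) : ZMod r) = (q : ZMod r)) : E.Splits := by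
  by_contra hE
  obtain ⟨τ, G, hG, hli⟩ := exists_good hn D hE hc L S
  obtain ⟨l, hl⟩ := types_mod hn D hE r q f hf hfq S.w0 S.ne
  have e1 := hl τ G hG (hli.ne_zero 0)
  have e2 := hl (τ + oc c) (L.op G) (L.op_hom hG) (hli.ne_zero 1)
  apply hr
  rw [← ZMod.intCast_zmod_eq_zero_iff_dvd]
  rw [map_add, chiq_oc, Int.cast_add, e1] at e2
  simpa using e2

end

end Pool.Agent.W615
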