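import Pool.Agent.W615.GenJ

/-!
# The filtration of the polynomial ring by a weight (helper615)
-/

set_option autoImplicit false
set_option maxHeartbeats 400000

open MvPolynomial H960VB H938TB

namespace Pool.Agent.W615

section
variable {n : ℕ} (wt : Fin (n + 1) → ℤ)

/-- all monomials have weight at least `a` -/
def Od (a : ℤ) (p : MvPolynomial (Fin (n + 1)) ℂ) : Prop :=
  ∀ u, coeff u p ≠ 0 → a ≤ Finsupp.weight wt u

/-- the component of weight `a` -/
noncomputable abbrev cp (a : ℤ) :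
    MvPolynomial (Fin (n + 1)) ℂ →ₗ[ℂ] MvPolynomial (Fin (n + 1)) ℂ :=
  weightedHomogeneousComponent wt a

variable {wt}

theorem coeff_cp (a : ℤ) (p : MvPolynomial (Fin (n + 1)) ℂ) (u : Fin (n + 1) →₀ ℕ) :
    coeff u (cp wt a p) = if Finsupp.weight wt u = a then coeff u p else 0 :=
  coeff_weightedHomogeneousComponent _ _ _

theorem cp_wh (a : ℤ) (p : MvPolynomial (Fin (n + 1)) ℂ) :
    IsWeightedHomogeneous wt (cp wt a p) a :=
  weightedHomogeneousComponent_isWeightedHomogeneous _ _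

theorem cp_self {a : ℤ} {p : MvPolynomial (Fin (n + 1)) ℂ} (h : IsWeightedHomogeneous wt p a) :
    cp wt a p = p := h.weightedHomogeneousComponent_same

theorem Od.add {a : ℤ} {p q : MvPolynomial (Fin (n + 1)) ℂ} (hp : Od wt a p) (hq : Od wt a q) :
    Od wt a (p + q) := by
  intro u hu
  rw [coeff_add] at hu
  by_cases h : coeff u p = 0
  · exact hq u fun h' => hu (by rw [h, h', add_zero])
  · exact hp u h

theorem Od.neg {a : ℤ} {p : MvPolynomial (Fin (n + 1)) ℂ} (hp : Od wt a p) : Od wt a (-p) := by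
  intro u hu
  rw [coeff_neg] at hu
  exact hp u (neg_ne_zero.1 hu)

theorem Od.sub {a : ℤ} {p q : MvPolynomial (Fin (n + 1)) ℂ} (hp : Od wt a p) (hq : Od wt a q) :
    Od wt a (p - q) := by
  rw [sub_eq_add_neg]
  exact hp.add hq.neg

theorem Od.zero (a : ℤ) : Od wt a 0 := fun u hu => absurd (coeff_zero u) hu

theorem Od.sum {ι : Type*} {s : Finset ι} {a : ℤ} {f : ι → MvPolynomial (Fin (n + 1)) ℂ}
    (h : ∀ i ∈ s, Od wt a (f i)) : Od wt a (∑ i ∈ s, f i) := by
  classical
  induction s using Finset.induction_on with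
  | empty => exact Od.zero a
  | insert i s hi ih =>
    rw [Finset.sum_insert hi]
    exact (h i (Finset.mem_insert_self i s)).add
      (ih fun j hj => h j (Finset.mem_insert_of_mem hj))

theorem Od.mono {a b : ℤ} {p : MvPolynomial (Fin (n + 1)) ℂ} (hp : Od wt a p) (h : b ≤ a) :
    Od wt b p := fun u hu => h.trans (hp u hu)

theorem Od.mul {a b : ℤ} {p q : MvPolynomial (Fin (n + 1)) ℂ} (hp : Od wt a p)
    (hq : Od wt b q) : Od wt (a + b) (p * q) := by
  classical
  intro u hu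
  rw [coeff_mul] at hu
  obtain ⟨x, hx, hne⟩ := Finset.exists_ne_zero_of_sum_ne_zero hu
  rw [Finset.HasAntidiagonal.mem_antidiagonal] at hx
  rw [← hx, map_add]
  exact add_le_add (hp _ (left_ne_zero_of_mul hne)) (hq _ (right_ne_zero_of_mul hne))

theorem Od_of_wh {a b : ℤ} {p : MvPolynomial (Fin (n + 1)) ℂ}
    (hp : IsWeightedHomogeneous wt p a) (h : b ≤ a) : Od wt b p := by
  intro u hu
  rw [hp hu]
  exact h

theorem Od_C (c : ℂ) : Od wt 0 (C c) := Od_of_wh (isWeightedHomogeneous_C _ _) le_rfl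

theorem Od.C_mul {a : ℤ} {p : MvPolynomial (Fin (n + 1)) ℂ} (hp : Od wt a p) (c : ℂ) :
    Od wt a (C c * p) := by
  have h := (Od_C (wt := wt) c).mul hp
  rwa [zero_add] at h

theorem Od.cp_zero {a b : ℤ} {p : MvPolynomial (Fin (n + 1)) ℂ} (hp : Od wt a p) (h : b < a) :
    cp wt b p = 0 := by
  ext u
  rw [coeff_cp, coeff_zero]
  split_ifs with h1
  · by_contra h2
    have := hp u h2
    omega
  · rfl

theorem Od.sub_cp {a : ℤ} {p : MvPolynomial (Fin (n + 1)) ℂ} (hp : Od wt a p) :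
    Od wt (a + 1) (p - cp wt a p) := by
  intro u hu
  rw [coeff_sub, coeff_cp] at hu
  by_cases h1 : Finsupp.weight wt u = a
  · rw [if_pos h1, sub_self] at hu
    exact absurd rfl hu
  · rw [if_neg h1, sub_zero] at hu
    have := hp u hu
    omega

theorem Od.succ {a : ℤ} {p : MvPolynomial (Fin (n + 1)) ℂ} (hp : Od wt a p)
    (h : cp wt a p = 0) : Od wt (a + 1) p := by
  have h1 := hp.sub_cp
  rwa [h, sub_zero] at h1

theorem cp_mul {a b : ℤ} {p q : MvPolynomial (Fin (n + 1)) ℂ} (hp : Od wt a p)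
    (hq : Od wt b q) : cp wt (a + b) (p * q) = cp wt a p * cp wt b q := by
  have h1 : p * q = cp wt a p * cp wt b q + (cp wt a p * (q - cp wt b q) +
      (p - cp wt a p) * q) := by ring
  have h2 : Od wt (a + b + 1) (cp wt a p * (q - cp wt b q) + (p - cp wt a p) * q) := by
    have h3 := (Od_of_wh (cp_wh a p) le_rfl).mul hq.sub_cp
    have h4 := hp.sub_cp.mul hq
    exact (h3.mono (by omega)).add (h4.mono (by omega))
  rw [h1, map_add, h2.cp_zero (by omega), add_zero]
  exact cp_self ((cp_wh a p).mul (cp_wh b q))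

theorem exists_lead {p : MvPolynomial (Fin (n + 1)) ℂ} (hp : p ≠ 0) :
    ∃ a, Od wt a p ∧ cp wt a p ≠ 0 := by
  obtain ⟨u, hu, hmin⟩ := Finset.exists_min_image p.support (fun u => Finsupp.weight wt u)
    (support_nonempty.2 hp)
  refine ⟨Finsupp.weight wt u, fun v hv => hmin v (mem_support_iff.2 hv), fun h => ?_⟩
  have h1 := congrArg (coeff u) h
  rw [coeff_cp, if_pos rfl, coeff_zero] at h1
  exact (mem_support_iff.1 hu) h1

theorem Od_cancel {c : ℤ} {w q : MvPolynomial (Fin (n + 1)) ℂ} (hw : Od wt 0 w)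
    (hw0 : cp wt 0 w ≠ 0) (h : Od wt c (w * q)) : Od wt c q := by
  by_cases hq : q = 0
  · rw [hq]
    exact Od.zero c
  obtain ⟨m, hm, hm0⟩ := exists_lead (wt := wt) hq
  refine hm.mono ?_
  by_contra hlt
  push Not at hlt
  have h1 := cp_mul hw hm
  rw [zero_add, h.cp_zero hlt] at h1
  exact mul_ne_zero hw0 hm0 h1.symm

theorem Od_nonneg (h : ∀ i, 0 ≤ wt i) {a : ℤ} (ha : a ≤ 0) (p : MvPolynomial (Fin (n + 1)) ℂ) :
    Od wt a p := by
  intro u _
  rw [Finsupp.weight_apply, Finsupp.sum_fintype _ _ (by simp)]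
  refine ha.trans (Finset.sum_nonneg fun i _ => ?_)
  exact nsmul_nonneg (h i) _

theorem Od_bound {b : ℤ} (h : ∀ i, wt i ≤ b) {p : MvPolynomial (Fin (n + 1)) ℂ}
    {w : Fin (n + 1) → ℤ × ℤ} {τ : M} (hp : IsWeightedHomogeneous (tw w) p τ) {a : ℤ}
    (ha : b * τ.1 < a) (h0 : Od wt a p) : p = 0 := by
  by_contra hne
  obtain ⟨u, hu⟩ := ne_zero_iff.1 hne
  have h1 := congrArg Prod.fst (hp hu)
  rw [weight_fst] at h1
  have h2 := h0 u hu
  rw [Finsupp.weight_apply, Finsupp.sum_fintype _ _ (by simp)] at h2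
  have h3 : ∑ i, u i • wt i ≤ ∑ i, b * (u i : ℤ) := by
    refine Finset.sum_le_sum fun i _ => ?_
    rw [nsmul_eq_mul, mul_comm]
    exact mul_le_mul_of_nonneg_right (h i) (by positivity)
  rw [← Finset.mul_sum, h1] at h3
  linarith

/-! ### derivations -/

variable {δ : Der n} (hδ : ∀ i, IsWeightedHomogeneous wt (δ (X i)) (wt i + 1))

include hδ

theorem der_wh {p : MvPolynomial (Fin (n + 1)) ℂ} {a : ℤ} (hp : IsWeightedHomogeneous wt p a) :
    IsWeightedHomogeneous wt (δ p) (a + 1) := by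
  rw [der_eq_sum]
  refine IsWeightedHomogeneous.sum _ _ _ fun i _ => ?_
  have h1 : IsWeightedHomogeneous wt (pderiv i p) (a - wt i) := hp.pderiv (by abel)
  have h2 := h1.mul (hδ i)
  convert h2 using 1
  abel

theorem Od_der {p : MvPolynomial (Fin (n + 1)) ℂ} {a : ℤ} (hp : Od wt a p) :
    Od wt (a + 1) (δ p) := by
  rw [p.as_sum, map_sum]
  refine Od.sum fun u hu => ?_
  have h1 := der_wh hδ (isWeightedHomogeneous_monomial wt u (coeff u p) rfl)
  exact Od_of_wh h1 (by have := hp u (mem_support_iff.1 hu); omega)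

theorem cp_der {p : MvPolynomial (Fin (n + 1)) ℂ} {a : ℤ} (hp : Od wt a p) :
    cp wt (a + 1) (δ p) = δ (cp wt a p) := by
  have h1 : δ p = δ (cp wt a p) + δ (p - cp wt a p) := by
    rw [map_sub]
    ring
  rw [h1, map_add, (Od_der hδ hp.sub_cp).cp_zero (by omega), add_zero]
  exact cp_self (der_wh hδ (cp_wh a p))

end

/-! ### restriction -/

section
variable {m n : ℕ} {wt : Fin (n + 1) → ℤ} {wt' : Fin (m + 1) → ℤ}

theorem wh_lsub (T : (Fin (m + 1) → ℂ) →ₗ[ℂ] (Fin (n + 1) → ℂ))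
    (h : ∀ t s, T (Pi.single t 1) s ≠ 0 → wt s = wt' t)
    {p : MvPolynomial (Fin (n + 1)) ℂ} {a : ℤ} (hp : IsWeightedHomogeneous wt p a) :
    IsWeightedHomogeneous wt' (lsub T p) a := by
  have hlin : ∀ s, IsWeightedHomogeneous wt'
      (∑ t, C (T (Pi.single t 1) s) * X t : MvPolynomial (Fin (m + 1)) ℂ) (wt s) := by
    intro s
    refine IsWeightedHomogeneous.sum _ _ _ fun t _ => ?_
    by_cases h0 : T (Pi.single t 1) s = 0
    · rw [h0, C_0, zero_mul]
      exact isWeightedHomogeneous_zero _ _ _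
    · rw [h t s h0]
      have h2 := (isWeightedHomogeneous_C wt' (T (Pi.single t 1) s)).mul
        (isWeightedHomogeneous_X ℂ wt' t)
      rwa [zero_add] at h2
  have hmon : ∀ (u : Fin (n + 1) →₀ ℕ) (c : ℂ),
      IsWeightedHomogeneous wt' (lsub T (monomial u c)) (Finsupp.weight wt u) := by
    intro u c
    rw [lsub, aeval_monomial, Finsupp.prod_fintype _ _ (by intro i; simp)]
    have h2 : IsWeightedHomogeneous wt'
        (∏ s, (∑ t, C (T (Pi.single t 1) s) * X t : MvPolynomial (Fin (m + 1)) ℂ) ^ u s)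
        (∑ s, u s • wt s) :=
      IsWeightedHomogeneous.prod _ _ _ fun s _ => (hlin s).pow (u s)
    have h3 := (isWeightedHomogeneous_C wt' c).mul h2
    rw [zero_add] at h3
    rw [Finsupp.weight_apply, Finsupp.sum_fintype _ _ (by intro i; simp)]
    exact h3
  rw [p.as_sum, map_sum]
  refine IsWeightedHomogeneous.sum _ _ _ fun u hu => ?_
  have h4 := hmon u (coeff u p)
  rwa [hp (mem_support_iff.1 hu)] at h4

variable (T : (Fin (m + 1) → ℂ) →ₗ[ℂ] (Fin (n + 1) → ℂ))
    (h : ∀ t s, T (Pi.single t 1) s ≠ 0 → wt s = wt' t)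

include h

theorem Od_lsub {p : MvPolynomial (Fin (n + 1)) ℂ} {a : ℤ} (hp : Od wt a p) :
    Od wt' a (lsub T p) := by
  rw [p.as_sum, map_sum]
  refine Od.sum fun u hu => ?_
  have h1 := wh_lsub T h (isWeightedHomogeneous_monomial wt u (coeff u p) rfl)
  exact Od_of_wh h1 (hp u (mem_support_iff.1 hu))

theorem cp_lsub {p : MvPolynomial (Fin (n + 1)) ℂ} {a : ℤ} (hp : Od wt a p) :
    cp wt' a (lsub T p) = lsub T (cp wt a p) := by
  have h1 : lsub T p = lsub T (cp wt a p) + lsub T (p - cp wt a p) := by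
    rw [map_sub]
    ring
  rw [h1, map_add, (Od_lsub T h hp.sub_cp).cp_zero (by omega), add_zero]
  exact cp_self (wh_lsub T h (cp_wh a p))

end

end Pool.Agent.W615
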