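import Pool.Agent.W615.V1

/-!
# The filtration of the sections by the weight at the fixed point (helper615)
-/

set_option autoImplicit false
set_option maxHeartbeats 400000

open MvPolynomial H960VB H938TB

namespace Pool.Agent.W615

/-! ### derivations and powers -/

theorem mul_der_pow {n : ℕ} (δ : Der n) (q : MvPolynomial (Fin (n + 1)) ℂ) (m : ℕ) :
    q * δ (q ^ m) = m * q ^ m * δ q := by
  rcases m with _ | m
  · simp
  · rw [Derivation.leibniz_pow, nsmul_eq_mul, smul_eq_mul, Nat.add_sub_cancel]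
    ring

/-- if a power of `p` lies in a stable ideal, so does a power of its derivative. -/
theorem rad_der {n : ℕ} (δ : Der n) (J : Ideal (MvPolynomial (Fin (n + 1)) ℂ))
    (hJ : ∀ q ∈ J, δ q ∈ J) {p : MvPolynomial (Fin (n + 1)) ℂ} {k : ℕ} (hp : p ^ k ∈ J) :
    (δ p) ^ (2 * k) ∈ J := by
  have key : ∀ i, i ≤ k → p ^ (k - i) * (δ p) ^ (2 * i) ∈ J := by
    intro i
    induction i with
    | zero =>
      intro _
      rw [Nat.sub_zero, mul_zero, pow_zero, mul_one]
      exact hp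
    | succ i ih =>
      intro hi
      have h1 := ih (by omega)
      obtain ⟨j, hj⟩ : ∃ j, k - i = j + 1 := ⟨k - i - 1, by omega⟩
      have hj' : k - (i + 1) = j := by omega
      rw [hj] at h1
      rw [hj']
      have h2 := J.mul_mem_left (δ p) (hJ _ h1)
      have h3 := J.mul_mem_left (((2 * i : ℕ) : MvPolynomial (Fin (n + 1)) ℂ) * δ (δ p)) h1
      have h4 : δ p * δ (p ^ (j + 1) * δ p ^ (2 * i)) =
          (C ((j : ℂ) + 1)) * (p ^ j * δ p ^ (2 * (i + 1))) +
            (((2 * i : ℕ) : MvPolynomial (Fin (n + 1)) ℂ) * δ (δ p)) * (p ^ (j + 1) * δ p ^ (2 * i)) := by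
        have h7 : δ (p ^ (j + 1)) = ((j + 1 : ℕ) : MvPolynomial (Fin (n + 1)) ℂ) * p ^ j * δ p := by
          rw [Derivation.leibniz_pow, nsmul_eq_mul, smul_eq_mul, Nat.add_sub_cancel, mul_assoc]
        rw [Derivation.leibniz, smul_eq_mul, smul_eq_mul, h7, mul_add]
        have h5 := mul_der_pow δ (δ p) (2 * i)
        have h6 : (C ((j : ℂ) + 1) : MvPolynomial (Fin (n + 1)) ℂ) = (j : MvPolynomial _ ℂ) + 1 := by
          rw [C_add, C_1]
          congr 1
        rw [h6]
        push_cast at h5 ⊢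
        linear_combination (p ^ (j + 1)) * h5
      have h5 : (C ((j : ℂ) + 1)) * (p ^ j * δ p ^ (2 * (i + 1))) ∈ J := by
        rw [h4] at h2
        have h6 := J.sub_mem h2 h3
        rwa [add_sub_cancel_right] at h6
      have h6 := J.mul_mem_left (C ((j : ℂ) + 1)⁻¹) h5
      rwa [← mul_assoc, ← C_mul, inv_mul_cancel₀ (by exact_mod_cast Nat.succ_ne_zero j), C_1,
        one_mul] at h6
  have h1 := key k le_rfl
  rwa [Nat.sub_self, pow_zero, one_mul] at h1

section
variable {n : ℕ} {wt : Fin (n + 1) → ℤ}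

/-- the component of weight zero -/
theorem cp0 (h0 : wt 0 = 0) (h1 : ∀ i, i ≠ 0 → 0 < wt i) {p : MvPolynomial (Fin (n + 1)) ℂ}
    {l : ℕ} (hp : p.IsHomogeneous l) :
    cp wt 0 p = C (eval (Pi.single 0 1 : Fin (n + 1) → ℂ) p) * X 0 ^ l := by
  classical
  have hw : ∀ u : Fin (n + 1) →₀ ℕ, Finsupp.weight wt u = 0 → u = Finsupp.single 0 (u 0) := by
    intro u hu
    rw [Finsupp.weight_apply, Finsupp.sum_fintype _ _ (by simp)] at hu
    have hn : ∀ i ∈ Finset.univ, (0 : ℤ) ≤ u i • wt i := by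
      intro i _
      by_cases hi : i = 0
      · rw [hi, h0, smul_zero]
      · exact nsmul_nonneg (h1 i hi).le _
    have h2 := (Finset.sum_eq_zero_iff_of_nonneg hn).1 hu
    ext i
    by_cases hi : i = 0
    · rw [hi, Finsupp.single_eq_same]
    · rw [Finsupp.single_eq_of_ne hi]
      have h3 := h2 i (Finset.mem_univ i)
      rw [nsmul_eq_mul] at h3
      rcases mul_eq_zero.1 h3 with h4 | h4
      · exact_mod_cast h4
      · exact absurd h4 (h1 i hi).ne'
  have hev : eval (Pi.single 0 1 : Fin (n + 1) → ℂ) p = coeff (Finsupp.single 0 l) p := by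
    rw [eval_eq']
    rw [Finset.sum_eq_single (Finsupp.single 0 l)]
    · rw [Finset.prod_eq_one, mul_one]
      intro i _
      by_cases hi : i = 0
      · subst hi
        simp
      · rw [Finsupp.single_eq_of_ne hi, pow_zero]
    · intro u hu hne
      obtain ⟨i, hi, hui⟩ : ∃ i, i ≠ 0 ∧ u i ≠ 0 := by
        by_contra hc
        push Not at hc
        apply hne
        have h2 : u = Finsupp.single 0 (u 0) := by
          ext i
          by_cases hi : i = 0
          · rw [hi, Finsupp.single_eq_same]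
          · rw [Finsupp.single_eq_of_ne hi, hc i hi]
        have h3 := hp (mem_support_iff.1 hu)
        rw [h2] at h3 ⊢
        rw [Finsupp.weight_apply, Finsupp.sum_fintype _ _ (by simp)] at h3
        rw [Finset.sum_eq_single 0] at h3
        · rw [← h3]
          simp
        · intro j _ hj
          rw [Finsupp.single_eq_of_ne hj, zero_smul]
        · intro h; exact absurd (Finset.mem_univ _) h
      rw [Finset.prod_eq_zero (Finset.mem_univ i), mul_zero]
      rw [Pi.single_eq_of_ne hi, zero_pow hui]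
    · intro h
      rw [mem_support_iff, not_not] at h
      rw [h, zero_mul]
  rw [hev, C_mul_X_pow_eq_monomial]
  ext u
  rw [coeff_cp, coeff_monomial]
  split_ifs with h2 h3 h3
  · rw [h3]
  · by_contra hne
    apply h3
    have h4 := hp hne
    have h5 := hw u h2
    rw [h5] at h4
    rw [Finsupp.weight_apply, Finsupp.sum_fintype _ _ (by simp)] at h4
    rw [Finset.sum_eq_single 0] at h4
    · rw [h5, ← h4]
      simp
    · intro j _ hj
      rw [Finsupp.single_eq_of_ne hj, zero_smul]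
    · intro h; exact absurd (Finset.mem_univ _) h
  · exfalso
    apply h2
    rw [← h3, Finsupp.weight_single, h0, smul_zero]
  · rfl

theorem Od_one (h0 : wt 0 = 0) (h1 : ∀ i, i ≠ 0 → 0 < wt i) {p : MvPolynomial (Fin (n + 1)) ℂ}
    {w : Fin (n + 1) → ℤ × ℤ} {τ : M} (hp : IsWeightedHomogeneous (tw w) p τ)
    (h : eval (Pi.single 0 1 : Fin (n + 1) → ℂ) p = 0) : Od wt 1 p := by
  have hnn : ∀ i, 0 ≤ wt i := fun i => by
    by_cases hi : i = 0
    · rw [hi, h0]
    · exact (h1 i hi).le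
  have h2 : Od wt 0 p := Od_nonneg hnn le_rfl p
  have h3 : cp wt 0 p = 0 := by
    rcases homZ_of hp with h4 | ⟨l, -, h4⟩
    · rw [h4, map_zero]
    · rw [cp0 h0 h1 h4, h, C_0, zero_mul]
  have h4 := h2.succ h3
  rwa [zero_add] at h4

end

section
variable {n : ℕ} {E : Bundle2 n} {δ : Der n} {wt : Fin (n + 1) → ℤ}

/-- a frame at the fixed point adapted to the lift. -/
structure VF (L : Lft (triv E) 0 δ) (W : Wedge (triv E)) (wt : Fin (n + 1) → ℤ) where
  G : Vec E.a n
  τ : M
  hG : HSec (triv E) τ G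
  nn : ∀ i, 0 ≤ wt i
  hδ : ∀ i, IsWeightedHomogeneous wt (δ (X i)) (wt i + 1)
  tr : ∀ H H', Ker E H → Ker E H' → W.wd (L.op H) H' + W.wd H (L.op H') = δ (W.wd H H')
  w0 : cp wt 0 (W.wd (L.op G) G) ≠ 0
  z2 : Od wt 2 (W.wd (L.op G) (L.op (L.op G)))

variable {L : Lft (triv E) 0 δ} {W : Wedge (triv E)} (F : VF L W wt)

namespace VF

/-- the section has order at least `a` -/
def SO (a : ℤ) (H : Vec E.a n) : Prop :=
  Od wt (a - 1) (W.wd H F.G) ∧ Od wt a (W.wd (L.op F.G) H)

theorem kG : Ker E F.G := F.hG.ker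

theorem kf : Ker E (L.op F.G) := L.op_ker F.hG.ker

theorem wnn : Od wt 0 (W.wd (L.op F.G) F.G) := Od_nonneg F.nn le_rfl _

/-- expression of the wedge product in the frame -/
theorem frame {H H' : Vec E.a n} (hH : Ker E H) (hH' : Ker E H') :
    W.wd (L.op F.G) F.G * W.wd H H' = W.wd H F.G * W.wd (L.op F.G) H' -
      W.wd (L.op F.G) H * W.wd H' F.G := by
  have h1 := W.four (L.op F.G) F.G H H' F.kf F.kG hH hH'
  rw [W.anti F.G H' F.kG hH', W.anti F.G H F.kG hH] at h1
  linear_combination h1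

theorem SO_wd {a b : ℤ} {H H' : Vec E.a n} (hH : Ker E H) (hH' : Ker E H') (h : F.SO a H)
    (h' : F.SO b H') : Od wt (a + b - 1) (W.wd H H') := by
  apply Od_cancel F.wnn F.w0
  rw [F.frame hH hH']
  exact ((h.1.mul h'.2).mono (by omega)).sub ((h.2.mul h'.1).mono (by omega))

theorem SO_cp {a b : ℤ} {H H' : Vec E.a n} (hH : Ker E H) (hH' : Ker E H') (h : F.SO a H)
    (h' : F.SO b H') : cp wt 0 (W.wd (L.op F.G) F.G) * cp wt (a + b - 1) (W.wd H H') =
      cp wt (a - 1) (W.wd H F.G) * cp wt b (W.wd (L.op F.G) H') -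
      cp wt a (W.wd (L.op F.G) H) * cp wt (b - 1) (W.wd H' F.G) := by
  rw [← cp_mul F.wnn (F.SO_wd hH hH' h h'), F.frame hH hH', map_sub, ← cp_mul h.1 h'.2,
    ← cp_mul h.2 h'.1]
  congr 2
  · congr 1
    ring
  · congr 1
    ring

/-- the lift raises the order. -/
theorem raise {a : ℤ} {H : Vec E.a n} (hH : Ker E H) (h : F.SO a H) :
    F.SO (a + 1) (L.op H) := by
  have kG := F.kG
  have kf := F.kf
  have kff := L.op_ker kf
  have kH := L.op_ker hH
  have e1 : W.wd (L.op H) F.G = δ (W.wd H F.G) + W.wd (L.op F.G) H := by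
    have h1 := F.tr H F.G hH kG
    rw [W.anti H (L.op F.G) hH kf] at h1
    linear_combination h1
  have e2 : W.wd (L.op F.G) (L.op H) = δ (W.wd (L.op F.G) H) - W.wd (L.op (L.op F.G)) H := by
    have h1 := F.tr (L.op F.G) H kf hH
    linear_combination h1
  have e3 : W.wd (L.op (L.op F.G)) F.G = δ (W.wd (L.op F.G) F.G) := by
    have h1 := F.tr (L.op F.G) F.G kf kG
    rw [wd_self W kf, add_zero] at h1
    exact h1
  constructor
  · rw [add_sub_cancel_right, e1]
    have h1 := Od_der F.hδ h.1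
    rw [sub_add_cancel] at h1
    exact h1.add h.2
  · rw [e2]
    refine (Od_der F.hδ h.2).sub ?_
    apply Od_cancel F.wnn F.w0
    rw [F.frame kff hH, e3]
    have h1 := (Od_der F.hδ F.wnn).mul h.2
    have h2 := F.z2.mul h.1
    exact (h1.mono (by omega)).sub (h2.mono (by omega))

/-- **Base point freeness.** -/
theorem bpf (h0 : wt 0 = 0) (h1 : ∀ i, i ≠ 0 → 0 < wt i)
    (hX : ∀ i : Fin n, δ (X i.castSucc) = X i.succ) (x : Fin (n + 1) → ℂ) (hx : x ≠ 0) :
    ∃ (a b : ℤ) (τ τ' : M) (H H' : Vec E.a n), HSec (triv E) τ H ∧ HSec (triv E) τ' H' ∧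
      F.SO a H ∧ F.SO b H' ∧ eval x (cp wt (a + b - 1) (W.wd H H')) ≠ 0 := by
  by_contra hc
  push Not at hc
  let S : Set (MvPolynomial (Fin (n + 1)) ℂ) := {q | ∃ (a b : ℤ) (τ τ' : M) (H H' : Vec E.a n),
    HSec (triv E) τ H ∧ HSec (triv E) τ' H' ∧ F.SO a H ∧ F.SO b H' ∧
      q = cp wt (a + b - 1) (W.wd H H')}
  let J : Ideal (MvPolynomial (Fin (n + 1)) ℂ) := Ideal.span S
  have hJ : ∀ q ∈ J, δ q ∈ J := by
    intro q hq
    induction hq using Submodule.span_induction with
    | mem q hq =>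
      obtain ⟨a, b, τ, τ', H, H', hH, hH', s, s', rfl⟩ := hq
      have h2 := F.SO_wd hH.ker hH'.ker s s'
      have h3 := cp_der F.hδ h2
      rw [← h3, ← F.tr H H' hH.ker hH'.ker, map_add]
      refine J.add_mem (Ideal.subset_span ?_) (Ideal.subset_span ?_)
      · exact ⟨a + 1, b, _, τ', L.op H, H', L.op_hom hH, hH', F.raise hH.ker s, s', by
          congr 2
          ring⟩
      · exact ⟨a, b + 1, τ, _, H, L.op H', hH, L.op_hom hH', s, F.raise hH'.ker s', by
          congr 2
          ring⟩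
    | zero => rw [map_zero]; exact J.zero_mem
    | add p q _ _ hp hq => rw [map_add]; exact J.add_mem hp hq
    | smul r q hq hq' =>
      rw [smul_eq_mul, Derivation.leibniz, smul_eq_mul, smul_eq_mul]
      exact J.add_mem (J.mul_mem_left _ hq') (by rw [mul_comm]; exact J.mul_mem_left _ hq)
  have hw : cp wt 0 (W.wd (L.op F.G) F.G) ∈ J := by
    refine Ideal.subset_span ⟨1, 0, _, F.τ, L.op F.G, F.G, L.op_hom F.hG, F.hG,
      ⟨?_, ?_⟩, ⟨?_, ?_⟩, by congr 2⟩
    · exact F.wnn
    · rw [wd_self W F.kf]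
      exact Od.zero _
    · rw [wd_self W F.kG]
      exact Od.zero _
    · exact F.wnn
  obtain ⟨m, hm⟩ : ∃ m, (X 0 : MvPolynomial (Fin (n + 1)) ℂ) ^ m ∈ J := by
    have h3 := W.hom _ _ _ _ (L.op_hom F.hG) F.hG
    have hne := F.w0
    rcases homZ_of h3 with h4 | ⟨l, -, h4⟩
    · rw [h4, map_zero] at hne
      exact absurd rfl hne
    · rw [cp0 h0 h1 h4] at hw hne
      refine ⟨l, ?_⟩
      have h5 : eval (Pi.single 0 1 : Fin (n + 1) → ℂ) (W.wd (L.op F.G) F.G) ≠ 0 := by
        intro h6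
        rw [h6, C_0, zero_mul] at hne
        exact hne rfl
      have h6 := J.mul_mem_left
        (C (eval (Pi.single 0 1 : Fin (n + 1) → ℂ) (W.wd (L.op F.G) F.G))⁻¹) hw
      rwa [← mul_assoc, ← C_mul, inv_mul_cancel₀ h5, C_1, one_mul] at h6
  have hall : ∀ (j : ℕ) (hj : j < n + 1), ∃ m,
      (X ⟨j, hj⟩ : MvPolynomial (Fin (n + 1)) ℂ) ^ m ∈ J := by
    intro j
    induction j with
    | zero => intro hj; exact ⟨m, hm⟩
    | succ j ih =>
      intro hj
      obtain ⟨m, hm⟩ := ih (by omega)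
      have h3 := rad_der δ J hJ hm
      have h4 := hX ⟨j, by omega⟩
      rw [show (⟨j, by omega⟩ : Fin n).castSucc = (⟨j, by omega⟩ : Fin (n + 1)) from rfl,
        show (⟨j, by omega⟩ : Fin n).succ = (⟨j + 1, hj⟩ : Fin (n + 1)) from rfl] at h4
      rw [h4] at h3
      exact ⟨_, h3⟩
  have hle : ∀ q ∈ J, eval x q = 0 := by
    intro q hq
    induction hq using Submodule.span_induction with
    | mem q hq =>
      obtain ⟨a, b, τ, τ', H, H', hH, hH', s, s', rfl⟩ := hq
      exact hc a b τ τ' H H' hH hH' s s'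
    | zero => exact map_zero _
    | add p q _ _ hp hq => rw [map_add, hp, hq, add_zero]
    | smul r q _ hq' => rw [smul_eq_mul, map_mul, hq', mul_zero]
  apply hx
  funext i
  obtain ⟨m, hm⟩ := hall i.1 i.2
  have h3 := hle _ hm
  rw [map_pow, eval_X] at h3
  exact eq_zero_of_pow_eq_zero h3

end VF

end

end Pool.Agent.W615
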