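import Pool.Agent.W615.V2

/-!
# Even weights on the plane (helper615)
-/

set_option autoImplicit false
set_option maxHeartbeats 400000

open MvPolynomial H960VB H938TB

namespace Pool.Agent.W615

/-- the weights of the coordinates -/
def w3 : Fin (2 + 1) → ℤ := ![0, 2, 4]

/-- the bidegrees of the coordinates -/
def wb : Fin (2 + 1) → ℤ × ℤ := ![(1, 0), (1, 2), (1, 4)]

abbrev P3 := MvPolynomial (Fin (2 + 1)) ℂ

theorem w3_nn (i : Fin (2 + 1)) : 0 ≤ w3 i := by
  fin_cases i <;> simp [w3]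

theorem w3_le (i : Fin (2 + 1)) : w3 i ≤ 4 := by
  fin_cases i <;> simp [w3]

theorem weight_w3 (u : Fin (2 + 1) →₀ ℕ) :
    Finsupp.weight w3 u = 2 * ((u 1 : ℤ) + 2 * u 2) := by
  rw [Finsupp.weight_apply, Finsupp.sum_fintype _ _ (by simp)]
  show ∑ i : Fin 3, _ = _
  rw [Fin.sum_univ_three]
  simp [w3]
  ring

theorem weight_wb (u : Fin (2 + 1) →₀ ℕ) :
    Finsupp.weight wb u = (((u 0 : ℤ) + u 1 + u 2), Finsupp.weight w3 u) := by
  rw [weight_w3, Finsupp.weight_apply, Finsupp.sum_fintype _ _ (by simp)]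
  show ∑ i : Fin 3, _ = _
  rw [Fin.sum_univ_three]
  ext
  · simp [wb]
  · simp [wb]
    ring

theorem weight_tw0 (u : Fin (2 + 1) →₀ ℕ) :
    Finsupp.weight (tw (0 : Fin (2 + 1) → ℤ × ℤ)) u = (((u 0 : ℤ) + u 1 + u 2), (0, 0)) := by
  rw [Finsupp.weight_apply, Finsupp.sum_fintype _ _ (by simp)]
  show ∑ i : Fin 3, _ = _
  rw [Fin.sum_univ_three]
  ext
  · simp [tw]
  · simp [tw]
  · simp [tw]

theorem wb_iff {q : P3} {e a : ℤ} : IsWeightedHomogeneous wb q (e, a) ↔
    IsWeightedHomogeneous (tw (0 : Fin (2 + 1) → ℤ × ℤ)) q (e, 0) ∧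
      IsWeightedHomogeneous w3 q a := by
  constructor
  · intro h
    refine ⟨fun u hu => ?_, fun u hu => ?_⟩
    · have h1 := h hu
      rw [weight_wb, Prod.mk.injEq] at h1
      rw [weight_tw0, h1.1]
      rfl
    · have h1 := h hu
      rw [weight_wb, Prod.mk.injEq] at h1
      exact h1.2
  · rintro ⟨h1, h2⟩ u hu
    have h3 := congrArg Prod.fst (h1 hu)
    rw [weight_tw0] at h3
    rw [weight_wb, h2 hu, Prod.mk.injEq]
    exact ⟨h3, rfl⟩

/-- **Parity.** -/
theorem cp_odd {a : ℤ} (ha : Odd a) (p : P3) : cp w3 a p = 0 := by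
  ext u
  rw [coeff_cp, coeff_zero, weight_w3]
  split_ifs with h
  · obtain ⟨k, hk⟩ := ha
    omega
  · rfl

/-- the component of bidegree `τ` -/
noncomputable abbrev bc (τ : ℤ × ℤ) : P3 →ₗ[ℂ] P3 := weightedHomogeneousComponent wb τ

theorem coeff_bc (τ : ℤ × ℤ) (p : P3) (u : Fin (2 + 1) →₀ ℕ) :
    coeff u (bc τ p) = if Finsupp.weight wb u = τ then coeff u p else 0 :=
  coeff_weightedHomogeneousComponent _ _ _

theorem bc_wh (τ : ℤ × ℤ) (p : P3) : IsWeightedHomogeneous wb (bc τ p) τ :=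
  weightedHomogeneousComponent_isWeightedHomogeneous _ _

theorem bc_self {τ : ℤ × ℤ} {p : P3} (h : IsWeightedHomogeneous wb p τ) : bc τ p = p :=
  h.weightedHomogeneousComponent_same

theorem bc_ne {τ σ : ℤ × ℤ} {p : P3} (h : IsWeightedHomogeneous wb p τ) (hne : τ ≠ σ) :
    bc σ p = 0 := h.weightedHomogeneousComponent_ne _ hne.symm

theorem bc_X (τ : ℤ × ℤ) (i : Fin (2 + 1)) (p : P3) :
    bc (τ + wb i) (X i * p) = X i * bc τ p := by
  ext u
  rw [coeff_bc, coeff_X_mul', coeff_X_mul', coeff_bc]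
  by_cases hi : i ∈ u.support
  · rw [if_pos hi, if_pos hi]
    have h1 : Finsupp.weight wb u = Finsupp.weight wb (u - Finsupp.single i 1) + wb i := by
      have h2 : u = (u - Finsupp.single i 1) + Finsupp.single i 1 := by
        ext j
        by_cases hj : j = i
        · subst hj
          have : 1 ≤ u j := Nat.one_le_iff_ne_zero.2 (Finsupp.mem_support_iff.1 hi)
          simp
          omega
        · rw [Finsupp.add_apply, Finsupp.tsub_apply, Finsupp.single_eq_of_ne hj]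
          rfl
      conv_lhs => rw [h2]
      rw [map_add, Finsupp.weight_single, one_smul]
    rw [h1]
    by_cases h3 : Finsupp.weight wb (u - Finsupp.single i 1) = τ
    · rw [if_pos h3, if_pos (by rw [h3])]
    · rw [if_neg h3, if_neg (fun h => h3 (add_right_cancel h))]
  · rw [if_neg hi, if_neg hi, ite_self]

/-! ### the Koszul complex -/

theorem kos_poly {c₀₁ c₀₂ c₁₂ : P3} (h : X 2 * c₀₁ - X 1 * c₀₂ + X 0 * c₁₂ = 0) :
    ∃ q₀ q₁ q₂ : P3, c₀₁ = X 1 * q₀ - X 0 * q₁ ∧ c₀₂ = X 2 * q₀ - X 0 * q₂ ∧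
      c₁₂ = X 2 * q₁ - X 1 * q₂ := by
  have hc : ∀ u, coeff u c₀₁ ≠ 0 → u 0 ≠ 0 ∨ u 1 ≠ 0 := by
    intro u hu
    by_contra hcon
    push Not at hcon
    apply hu
    have h1 := congrArg (coeff (Finsupp.single 2 1 + u)) h
    have e1 : coeff (Finsupp.single 2 1 + u) (X 1 * c₀₂) = 0 := by
      rw [coeff_X_mul', if_neg]
      rw [Finsupp.mem_support_iff, not_not, Finsupp.add_apply, hcon.2, add_zero]
      exact Finsupp.single_eq_of_ne (by decide)
    have e0 : coeff (Finsupp.single 2 1 + u) (X 0 * c₁₂) = 0 := by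
      rw [coeff_X_mul', if_neg]
      rw [Finsupp.mem_support_iff, not_not, Finsupp.add_apply, hcon.1, add_zero]
      exact Finsupp.single_eq_of_ne (by decide)
    rw [coeff_add, coeff_sub, e1, e0, coeff_X_mul, coeff_zero, sub_zero, add_zero] at h1
    exact h1
  obtain ⟨a, b, hab⟩ : ∃ a b, c₀₁ = X 0 * a + X 1 * b := by
    let wx : Fin (2 + 1) → ℤ := ![1, 0, 0]
    have hwx : ∀ u : Fin (2 + 1) →₀ ℕ, Finsupp.weight wx u = u 0 := by
      intro u
      rw [Finsupp.weight_apply, Finsupp.sum_fintype _ _ (by simp)]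
      show ∑ i : Fin 3, _ = _
      rw [Fin.sum_univ_three]
      simp [wx]
    have h0 : Od wx 0 c₀₁ := fun u _ => by rw [hwx]; positivity
    have h1 := h0.sub_cp
    obtain ⟨a, ha⟩ : X 0 ∣ c₀₁ - cp wx 0 c₀₁ := by
      have h2 := Xpow_dvd_of (j := (0 : Fin (2 + 1))) (a := 1) (p := c₀₁ - cp wx 0 c₀₁)
        (fun u hu => by
          have h3 := h1 u hu
          rw [hwx] at h3
          omega)
      rwa [pow_one] at h2
    obtain ⟨b, hb⟩ : X 1 ∣ cp wx 0 c₀₁ := by
      have h2 := Xpow_dvd_of (j := (1 : Fin (2 + 1))) (a := 1) (p := cp wx 0 c₀₁)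
        (fun u hu => by
          rw [coeff_cp, hwx] at hu
          split_ifs at hu with h3
          · rcases hc u hu with h4 | h4
            · omega
            · omega
          · exact absurd rfl hu)
      rwa [pow_one] at h2
    exact ⟨a, b, by rw [← ha, ← hb]; ring⟩
  have hX0 : Prime (X 0 : P3) := X_prime
  have h01 : ¬ (X 0 : P3) ∣ X 1 := by
    rw [X_dvd_X]
    decide
  obtain ⟨q, hq⟩ : X 0 ∣ X 2 * b - c₀₂ := by
    refine (hX0.dvd_or_dvd ?_).resolve_left h01
    refine ⟨-(X 2 * a + c₁₂), ?_⟩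
    rw [hab] at h
    linear_combination h
  refine ⟨b, -a, q, by rw [hab]; ring, by linear_combination -hq, ?_⟩
  apply mul_left_cancel₀ hX0.ne_zero
  rw [hab] at h
  linear_combination h - X 1 * hq

end Pool.Agent.W615
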