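import Pool.Agent.W615.V3

/-!
# Bundles on the plane whose degeneration splits, I (helper615)
-/

set_option autoImplicit false
set_option maxHeartbeats 400000

open MvPolynomial H960VB H938TB

namespace Pool.Agent.W615

section
variable {F : Bundle2 2}

/-- a frame at the fixed point -/
structure PF (W : Wedge (triv F)) where
  f₁ : Vec F.a 2
  f₂ : Vec F.a 2
  τ₁ : ℤ
  τ₂ : ℤ
  h₁ : HSec (triv F) (τ₁, 0) f₁
  h₂ : HSec (triv F) (τ₂, 0) f₂
  m : ℕ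
  c : ℂ
  hc : c ≠ 0
  hw : cp w3 0 (W.wd f₁ f₂) = C c * X 0 ^ m

/-- the shift of the parity -/
def sh (b : Bool) : ℤ := if b then 1 else 0

variable {W : Wedge (triv F)} (A : PF W)

namespace PF

/-- the two coordinates of a section -/
noncomputable def φ (b : Bool) (H : Vec F.a 2) : P3 := if b then W.wd H A.f₂ else W.wd A.f₁ H

/-- the shift of the degrees -/
def kap (b : Bool) : ℤ := if b then A.τ₂ + W.κ.1 else A.τ₁ + W.κ.1

/-- the section has order at least `a` -/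
def SO (a : ℤ) (H : Vec F.a 2) : Prop := Od w3 (a - 1) (A.φ true H) ∧ Od w3 a (A.φ false H)

theorem k₁ : Ker F A.f₁ := A.h₁.ker

theorem k₂ : Ker F A.f₂ := A.h₂.ker

theorem φ_hom (b : Bool) {D : ℤ} {H : Vec F.a 2} (hH : HSec (triv F) (D, 0) H) :
    IsWeightedHomogeneous (tw (0 : Fin (2 + 1) → ℤ × ℤ)) (A.φ b H) (D + A.kap b, 0) := by
  rcases b with _ | _
  · have h := wh_triv (homZ_of (W.hom _ _ _ _ A.h₁ hH))
    have e : ((A.τ₁, 0) + (D, 0) + W.κ : M).1 = D + A.kap false := by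
      simp only [kap, Prod.fst_add]
      simp
      ring
    rw [e] at h
    exact h
  · have h := wh_triv (homZ_of (W.hom _ _ _ _ hH A.h₂))
    have e : ((D, 0) + (A.τ₂, 0) + W.κ : M).1 = D + A.kap true := by
      simp only [kap, Prod.fst_add]
      simp
      ring
    rw [e] at h
    exact h

theorem φ_add (b : Bool) {H K : Vec F.a 2} (hH : Ker F H) (hK : Ker F K) :
    A.φ b (fun i => H i + K i) = A.φ b H + A.φ b K := by
  rcases b with _ | _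
  · exact wd_add_right W hH hK A.k₁
  · exact wd_add_left W hH hK A.k₂

theorem φ_sub (b : Bool) {H K : Vec F.a 2} (hH : Ker F H) (hK : Ker F K) :
    A.φ b (fun i => H i - K i) = A.φ b H - A.φ b K := by
  rcases b with _ | _
  · exact wd_sub_right W hH hK A.k₁
  · exact wd_sub_left W hH hK A.k₂

theorem φ_mul (b : Bool) {H : Vec F.a 2} (hH : Ker F H) (p : P3) :
    A.φ b (fun i => p * H i) = p * A.φ b H := by
  rcases b with _ | _
  · exact wd_mul_right W hH A.k₁ p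
  · exact W.smul _ _ _ hH A.k₂

theorem φ_zero (b : Bool) {H : Vec F.a 2} (hH : Ker F H) (h : ∀ i, H i = 0) : A.φ b H = 0 := by
  rcases b with _ | _
  · exact wd_zero_right W A.k₁ hH h
  · exact wd_zero_left W hH A.k₂ h

theorem hne : W.wd A.f₁ A.f₂ ≠ 0 := by
  intro h
  have h1 := A.hw
  rw [h, map_zero] at h1
  have h2 : (C A.c : P3) ≠ 0 := by
    rw [Ne, C_eq_zero]
    exact A.hc
  exact mul_ne_zero h2 (pow_ne_zero _ (X_ne_zero 0)) h1.symm

theorem eq_zero {H : Vec F.a 2} (hH : Ker F H) (h : ∀ b, A.φ b H = 0) (i : Fin F.a) : H i = 0 := by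
  have h3 := W.three A.f₁ A.f₂ H A.k₁ A.k₂ hH i
  have e1 : W.wd H A.f₂ = 0 := h true
  have e2 : W.wd A.f₁ H = 0 := h false
  rw [W.anti A.f₂ H A.k₂ hH, e1, e2, neg_zero, zero_mul, zero_mul, sub_zero, zero_add] at h3
  exact (mul_eq_zero.1 h3).resolve_left A.hne

variable {A}

theorem SO.add {a : ℤ} {H K : Vec F.a 2} (hH : Ker F H) (hK : Ker F K) (h : A.SO a H)
    (h' : A.SO a K) : A.SO a (fun i => H i + K i) := by
  refine ⟨?_, ?_⟩
  · rw [A.φ_add _ hH hK]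
    exact h.1.add h'.1
  · rw [A.φ_add _ hH hK]
    exact h.2.add h'.2

theorem SO.sub {a : ℤ} {H K : Vec F.a 2} (hH : Ker F H) (hK : Ker F K) (h : A.SO a H)
    (h' : A.SO a K) : A.SO a (fun i => H i - K i) := by
  refine ⟨?_, ?_⟩
  · rw [A.φ_sub _ hH hK]
    exact h.1.sub h'.1
  · rw [A.φ_sub _ hH hK]
    exact h.2.sub h'.2

theorem SO.mul {a v : ℤ} {H : Vec F.a 2} {p : P3} (hH : Ker F H) (h : A.SO a H)
    (hp : Od w3 v p) : A.SO (a + v) (fun i => p * H i) := by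
  refine ⟨?_, ?_⟩
  · rw [A.φ_mul _ hH]
    exact (hp.mul h.1).mono (by omega)
  · rw [A.φ_mul _ hH]
    exact (hp.mul h.2).mono (by omega)

theorem SO.mono {a a' : ℤ} {H : Vec F.a 2} (h : A.SO a H) (ha : a' ≤ a) : A.SO a' H :=
  ⟨h.1.mono (by omega), h.2.mono ha⟩

theorem SO.lead {b : Bool} {k : ℤ} {H : Vec F.a 2} (h : A.SO (2 * k + sh b) H) :
    Od w3 (2 * k) (A.φ b H) := by
  rcases b with _ | _
  · exact h.2.mono (by simp [sh])
  · exact h.1.mono (by simp [sh])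

theorem SO.lead_zero {b : Bool} {k : ℤ} {H : Vec F.a 2} (h : A.SO (2 * k + sh b + 1) H) :
    cp w3 (2 * k) (A.φ b H) = 0 := by
  rcases b with _ | _
  · exact h.2.cp_zero (by simp [sh])
  · exact h.1.cp_zero (by simp [sh])

theorem SO.step {b : Bool} {k : ℤ} {H : Vec F.a 2} (h : A.SO (2 * k + sh b) H)
    (h0 : cp w3 (2 * k) (A.φ b H) = 0) : A.SO (2 * k + sh b + 1) H := by
  rcases b with _ | _
  · have h1 : Od w3 (2 * k - 1) (A.φ true H) := h.1.mono (by simp [sh])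
    have h2 : Od w3 (2 * k) (A.φ false H) := h.2.mono (by simp [sh])
    have h3 := h1.succ (cp_odd ⟨k - 1, by ring⟩ _)
    have h4 := h2.succ h0
    exact ⟨h3.mono (by simp [sh]), h4.mono (by simp [sh])⟩
  · have h1 : Od w3 (2 * k) (A.φ true H) := h.1.mono (by simp [sh])
    have h2 : Od w3 (2 * k + 1) (A.φ false H) := h.2.mono (by simp [sh])
    have h3 := h1.succ h0
    have h4 := h2.succ (cp_odd ⟨k, rfl⟩ _)
    exact ⟨h3.mono (by simp [sh]), h4.mono (by simp [sh])⟩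

variable (A)

theorem wnn : Od w3 0 (W.wd A.f₁ A.f₂) := Od_nonneg w3_nn le_rfl _

theorem w0 : cp w3 0 (W.wd A.f₁ A.f₂) ≠ 0 := by
  rw [A.hw]
  exact mul_ne_zero (by rw [Ne, C_eq_zero]; exact A.hc) (pow_ne_zero _ (X_ne_zero 0))

theorem frame {H H' : Vec F.a 2} (hH : Ker F H) (hH' : Ker F H') :
    W.wd A.f₁ A.f₂ * W.wd H H' = A.φ true H * A.φ false H' - A.φ false H * A.φ true H' := by
  have h1 := W.four A.f₁ A.f₂ H H' A.k₁ A.k₂ hH hH'
  rw [W.anti A.f₂ H' A.k₂ hH', W.anti A.f₂ H A.k₂ hH] at h1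
  show _ = W.wd H A.f₂ * W.wd A.f₁ H' - W.wd A.f₁ H * W.wd H' A.f₂
  linear_combination h1

theorem SO_wd {a b : ℤ} {H H' : Vec F.a 2} (hH : Ker F H) (hH' : Ker F H') (h : A.SO a H)
    (h' : A.SO b H') : Od w3 (a + b - 1) (W.wd H H') := by
  apply Od_cancel A.wnn A.w0
  rw [A.frame hH hH']
  exact ((h.1.mul h'.2).mono (by omega)).sub ((h.2.mul h'.1).mono (by omega))

theorem SO_cp {a b : ℤ} {H H' : Vec F.a 2} (hH : Ker F H) (hH' : Ker F H') (h : A.SO a H)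
    (h' : A.SO b H') : C A.c * X 0 ^ A.m * cp w3 (a + b - 1) (W.wd H H') =
      cp w3 (a - 1) (A.φ true H) * cp w3 b (A.φ false H') -
      cp w3 a (A.φ false H) * cp w3 (b - 1) (A.φ true H') := by
  rw [← A.hw, ← cp_mul A.wnn (A.SO_wd hH hH' h h'), A.frame hH hH', map_sub, ← cp_mul h.1 h'.2,
    ← cp_mul h.2 h'.1]
  congr 2
  · congr 1
    ring
  · congr 1
    ring

/-- base point freeness -/
def Bpf : Prop := ∀ x : Fin (2 + 1) → ℂ, x ≠ 0 → ∃ (a b D D' : ℤ) (H H' : Vec F.a 2),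
  HSec (triv F) (D, 0) H ∧ HSec (triv F) (D', 0) H' ∧ A.SO a H ∧ A.SO b H' ∧
    eval x (cp w3 (a + b - 1) (W.wd H H')) ≠ 0

/-- the leading coefficients -/
def Ld (b : Bool) (u : P3) : Prop := ∃ (k D : ℤ) (H : Vec F.a 2), HSec (triv F) (D, 0) H ∧
  A.SO (2 * k + sh b) H ∧ u = cp w3 (2 * k) (A.φ b H)

theorem Ld_all {u v : P3} (hu : A.Ld true u) (hv : A.Ld false v) :
    ∃ P, u * v = C A.c * X 0 ^ A.m * P := by
  obtain ⟨k, D, H, hH, hS, rfl⟩ := hu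
  obtain ⟨k', D', H', hH', hS', rfl⟩ := hv
  refine ⟨_, ((A.SO_cp hH.ker hH'.ker hS hS').trans ?_).symm⟩
  rw [cp_odd (a := 2 * k + sh true) ⟨k, by simp [sh]⟩, zero_mul, sub_zero]
  simp [sh]

theorem Ld_pair (hb : A.Bpf) {x : Fin (2 + 1) → ℂ} (hx : x ≠ 0) :
    ∃ u v P, A.Ld true u ∧ A.Ld false v ∧ u * v = C A.c * X 0 ^ A.m * P ∧ eval x P ≠ 0 := by
  obtain ⟨a, b, D, D', H, H', hH, hH', hS, hS', hne⟩ := hb x hx
  rcases Int.even_or_odd' a with ⟨k, rfl | rfl⟩ <;> rcases Int.even_or_odd' b with ⟨k', rfl | rfl⟩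
  · exfalso
    apply hne
    rw [cp_odd ⟨k + k' - 1, by ring⟩, map_zero]
  · refine ⟨_, _, -cp w3 (2 * k + (2 * k' + 1) - 1) (W.wd H H'),
      ⟨k', D', H', hH', by simpa [sh] using hS', rfl⟩,
      ⟨k, D, H, hH, by simpa [sh] using hS, rfl⟩, ?_, ?_⟩
    · have h1 := A.SO_cp hH.ker hH'.ker hS hS'
      rw [cp_odd (a := 2 * k - 1) ⟨k - 1, by ring⟩, zero_mul, zero_sub] at h1
      rw [add_sub_cancel_right] at h1
      linear_combination h1
    · rw [map_neg]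
      exact neg_ne_zero.2 hne
  · refine ⟨_, _, cp w3 (2 * k + 1 + 2 * k' - 1) (W.wd H H'),
      ⟨k, D, H, hH, by simpa [sh] using hS, rfl⟩,
      ⟨k', D', H', hH', by simpa [sh] using hS', rfl⟩, ?_, hne⟩
    have h1 := A.SO_cp hH.ker hH'.ker hS hS'
    rw [cp_odd (a := 2 * k + 1) ⟨k, rfl⟩, zero_mul, sub_zero, add_sub_cancel_right] at h1
    exact h1.symm
  · exfalso
    apply hne
    rw [cp_odd ⟨k + k', by ring⟩, map_zero]

end PF

theorem max_pow {S : P3 → Prop} (h : ∃ u, S u ∧ u ≠ 0) :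
    ∃ m : ℕ, (∀ u, S u → X 0 ^ m ∣ u) ∧ ∃ u u', S u ∧ u = X 0 ^ m * u' ∧ ¬ X 0 ∣ u' := by
  classical
  obtain ⟨u₀, hu₀, hne⟩ := h
  have hX : Irreducible (X 0 : P3) := X_prime.irreducible
  have hex : ∃ n : ℕ, ∃ u u', S u ∧ u = X 0 ^ n * u' ∧ ¬ X 0 ∣ u' := by
    obtain ⟨n, a, ha, hb⟩ := WfDvdMonoid.max_power_factor hne hX
    exact ⟨n, u₀, a, hu₀, hb, ha⟩
  refine ⟨Nat.find hex, fun u hu => ?_, Nat.find_spec hex⟩
  by_cases h0 : u = 0
  · rw [h0]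
    exact dvd_zero _
  obtain ⟨n, a, ha, hb⟩ := WfDvdMonoid.max_power_factor h0 hX
  have h1 : Nat.find hex ≤ n := Nat.find_min' hex ⟨u, a, hu, hb, ha⟩
  rw [hb]
  exact Dvd.dvd.mul_right (pow_dvd_pow _ h1) _

/-- the valuations of the leading coefficients -/
structure PG (A : PF W) where
  mb : Bool → ℕ
  hm : mb true + mb false = A.m
  dv : ∀ b u, A.Ld b u → X 0 ^ mb b ∣ u
  nv : ∀ b (x : Fin (2 + 1) → ℂ), x ≠ 0 → ∃ u, A.Ld b (X 0 ^ mb b * u) ∧ eval x u ≠ 0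

theorem exists_PG (A : PF W) (hb : A.Bpf) : Nonempty (PG A) := by
  have he0 : (Pi.single 0 1 : Fin (2 + 1) → ℂ) ≠ 0 := e0_ne 2
  have hX : Prime (X 0 : P3) := X_prime
  have hCc : (C A.c : P3) ≠ 0 := by rw [Ne, C_eq_zero]; exact A.hc
  obtain ⟨u₀, v₀, P₀, hu₀, hv₀, hP₀, hne₀⟩ := A.Ld_pair hb he0
  have h0 : u₀ * v₀ ≠ 0 := by
    rw [hP₀]
    refine mul_ne_zero (mul_ne_zero hCc (pow_ne_zero _ (X_ne_zero 0))) fun h => hne₀ ?_
    rw [h, map_zero]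
  obtain ⟨m₁, hm₁, u₁, u₁', hu₁, hu₁', hdu⟩ := max_pow (S := A.Ld true)
    ⟨u₀, hu₀, left_ne_zero_of_mul h0⟩
  obtain ⟨m₂, hm₂, v₁, v₁', hv₁, hv₁', hdv⟩ := max_pow (S := A.Ld false)
    ⟨v₀, hv₀, right_ne_zero_of_mul h0⟩
  have hle : A.m ≤ m₁ + m₂ := by
    by_contra hlt
    push Not at hlt
    obtain ⟨P, hP⟩ := A.Ld_all hu₁ hv₁
    obtain ⟨d, hd⟩ := Nat.exists_eq_add_of_lt hlt
    have h1 : u₁' * v₁' = X 0 * (C A.c * X 0 ^ d * P) := by
      apply mul_left_cancel₀ (pow_ne_zero (m₁ + m₂) hX.ne_zero)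
      rw [hu₁', hv₁', hd] at hP
      linear_combination hP
    rcases hX.dvd_or_dvd ⟨_, h1⟩ with h2 | h2
    · exact hdu h2
    · exact hdv h2
  have hge : m₁ + m₂ ≤ A.m := by
    by_contra hlt
    push Not at hlt
    obtain ⟨d, hd⟩ := Nat.exists_eq_add_of_lt hlt
    have hx1 : (Pi.single 1 1 : Fin (2 + 1) → ℂ) ≠ 0 := fun h => by simpa using congrFun h 1
    obtain ⟨u, v, P, hu, hv, hP, hne⟩ := A.Ld_pair hb hx1
    obtain ⟨u', rfl⟩ := hm₁ u hu
    obtain ⟨v', rfl⟩ := hm₂ v hv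
    apply hne
    have h1 : C A.c * P = X 0 * (X 0 ^ d * u' * v') := by
      apply mul_left_cancel₀ (pow_ne_zero A.m hX.ne_zero)
      have h2 : (X 0 : P3) ^ m₁ * X 0 ^ m₂ = X 0 ^ A.m * (X 0 * X 0 ^ d) := by
        rw [← pow_add, hd]
        ring
      linear_combination u' * v' * h2 - hP
    have h3 := congrArg (eval (Pi.single 1 1 : Fin (2 + 1) → ℂ)) h1
    rw [map_mul, map_mul, eval_C, eval_X, Pi.single_eq_of_ne (by decide), zero_mul] at h3
    exact (mul_eq_zero.1 h3).resolve_left A.hc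
  have hm : m₁ + m₂ = A.m := le_antisymm hge hle
  have hnv : ∀ x : Fin (2 + 1) → ℂ, x ≠ 0 → ∃ u' v', A.Ld true (X 0 ^ m₁ * u') ∧
      A.Ld false (X 0 ^ m₂ * v') ∧ eval x u' ≠ 0 ∧ eval x v' ≠ 0 := by
    intro x hx
    obtain ⟨u, v, P, hu, hv, hP, hne⟩ := A.Ld_pair hb hx
    obtain ⟨u', rfl⟩ := hm₁ u hu
    obtain ⟨v', rfl⟩ := hm₂ v hv
    have h1 : u' * v' = C A.c * P := by
      apply mul_left_cancel₀ (pow_ne_zero A.m hX.ne_zero)
      have h2 : (X 0 : P3) ^ m₁ * X 0 ^ m₂ = X 0 ^ A.m := by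
        rw [← pow_add, hm]
      linear_combination hP - u' * v' * h2
    have h3 := congrArg (eval x) h1
    rw [map_mul, map_mul, eval_C] at h3
    have h4 := mul_ne_zero A.hc hne
    rw [← h3] at h4
    exact ⟨u', v', hu, hv, left_ne_zero_of_mul h4, right_ne_zero_of_mul h4⟩
  refine ⟨⟨fun b => if b then m₁ else m₂, by simpa using hm, ?_, ?_⟩⟩
  · intro b u hu
    rcases b with _ | _
    · exact hm₂ u hu
    · exact hm₁ u hu
  · intro b x hx
    obtain ⟨u', v', hu, hv, hue, hve⟩ := hnv x hx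
    rcases b with _ | _
    · exact ⟨v', hv, hve⟩
    · exact ⟨u', hu, hue⟩

end

end Pool.Agent.W615
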