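import Pool.Agent.W615.V4

/-!
# Bundles on the plane whose degeneration splits, II (helper615)
-/

set_option autoImplicit false
set_option maxHeartbeats 400000

open MvPolynomial H960VB H938TB

namespace Pool.Agent.W615

theorem tw0_hom_cp {p : P3} {e a : ℤ}
    (h : IsWeightedHomogeneous (tw (0 : Fin (2 + 1) → ℤ × ℤ)) p (e, 0)) :
    IsWeightedHomogeneous (tw (0 : Fin (2 + 1) → ℤ × ℤ)) (cp w3 a p) (e, 0) := by
  intro u hu
  rw [coeff_cp] at hu
  split_ifs at hu with h1
  · exact h hu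
  · exact absurd rfl hu

theorem wb_div {m : ℕ} {u : P3} {e a : ℤ} (h : IsWeightedHomogeneous wb (X 0 ^ m * u) (e, a)) :
    IsWeightedHomogeneous wb u (e - m, a) := by
  intro v hv
  have h1 := h (coeff_Xpow_mul_of (j := 0) (a := m) hv)
  rw [map_add, Finsupp.weight_single] at h1
  have h2 : m • wb 0 = ((m : ℤ), 0) := by
    ext
    · simp [wb]
    · simp [wb]
  rw [h2] at h1
  have h3 : Finsupp.weight wb v = (e, a) - ((m : ℤ), 0) := by
    rw [← h1]
    abel
  rw [h3]
  ext
  · rfl
  · simp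

theorem wb_X (i : Fin (2 + 1)) : wb i = (1, w3 i) := by
  fin_cases i <;> rfl

theorem tw0_X (i : Fin (2 + 1)) : tw (0 : Fin (2 + 1) → ℤ × ℤ) i = (1, 0) := rfl

theorem X_wh3 (i : Fin (2 + 1)) : IsWeightedHomogeneous w3 (X i : P3) (w3 i) :=
  isWeightedHomogeneous_X _ _ _

theorem cp_X_mul (i : Fin (2 + 1)) {a : ℤ} {p : P3} (hp : Od w3 a p) :
    cp w3 (w3 i + a) (X i * p) = X i * cp w3 a p := by
  rw [cp_mul (Od_of_wh (X_wh3 i) le_rfl) hp, cp_self (X_wh3 i)]

/-- half of the weights -/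
def wh (i : Fin (2 + 1)) : ℤ := ![0, 1, 2] i

theorem w3_eq (i : Fin (2 + 1)) : w3 i = 2 * wh i := by
  fin_cases i <;> rfl

section
variable {F : Bundle2 2} {W : Wedge (triv F)} {A : PF W}

theorem hsec_zero {n : ℕ} {w : Fin (n + 1) → ℤ × ℤ} {E : Bundle2 n} {D : EqB E w} (τ : M) :
    HSec D τ (fun _ => 0) :=
  ⟨fun _ => isWeightedHomogeneous_zero _ _ _, ker_zero⟩

theorem hsec_X (i : Fin (2 + 1)) {D : ℤ} {H : Vec F.a 2} (hH : HSec (triv F) (D, 0) H) :
    HSec (triv F) (D + 1, 0) (fun j => X i * H j) :=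
  hsec_mul (isWeightedHomogeneous_X ℂ (tw (0 : Fin (2 + 1) → ℤ × ℤ)) i) hH (by
    rw [tw0_X]
    ext
    · simp [add_comm]
    · simp
    · simp)

namespace PF

/-- the degree of the reduced leading coefficients -/
def K (g : PG A) (b : Bool) : ℤ := A.kap b - g.mb b

/-- a polynomial which is the reduced leading coefficient of a section -/
def Lf (g : PG A) (b : Bool) (D k : ℤ) (q : P3) : Prop := ∃ H : Vec F.a 2,
  HSec (triv F) (D, 0) H ∧ A.SO (2 * k + sh b) H ∧ cp w3 (2 * k) (A.φ b H) = X 0 ^ g.mb b * q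

/-- all polynomials of the right bidegree are reduced leading coefficients -/
def PP (g : PG A) (D : ℤ) : Prop := ∀ b k q, IsWeightedHomogeneous wb q (D + K g b, 2 * k) →
  Lf g b D k q

variable (g : PG A)

theorem SO_zero (a : ℤ) : A.SO a (fun _ => 0) := by
  refine ⟨?_, ?_⟩
  · rw [A.φ_zero _ ker_zero (fun _ => rfl)]
    exact Od.zero _
  · rw [A.φ_zero _ ker_zero (fun _ => rfl)]
    exact Od.zero _

theorem Lf_zero (b : Bool) (D k : ℤ) : Lf g b D k 0 :=
  ⟨fun _ => 0, hsec_zero _, SO_zero _, by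
    rw [A.φ_zero _ ker_zero (fun _ => rfl), map_zero, mul_zero]⟩

theorem Lf_add {b : Bool} {D k : ℤ} {q q' : P3} (h : Lf g b D k q) (h' : Lf g b D k q') :
    Lf g b D k (q + q') := by
  obtain ⟨H, hH, hS, hq⟩ := h
  obtain ⟨H', hH', hS', hq'⟩ := h'
  exact ⟨_, hsec_add hH hH', hS.add hH.ker hH'.ker hS', by
    rw [A.φ_add b hH.ker hH'.ker, map_add, hq, hq']
    ring⟩

theorem Lf_C {b : Bool} {D k : ℤ} {q : P3} (c : ℂ) (h : Lf g b D k q) :
    Lf g b D k (C c * q) := by
  obtain ⟨H, hH, hS, hq⟩ := h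
  refine ⟨_, hsec_mul (wh_C c) hH (zero_add _).symm, ?_, ?_⟩
  · have h1 := hS.mul hH.ker (Od_C c)
    rwa [add_zero] at h1
  · rw [A.φ_mul b hH.ker]
    have h1 := cp_mul (Od_C (wt := w3) c) hS.lead
    rw [zero_add, cp_self (isWeightedHomogeneous_C _ _), hq] at h1
    rw [h1]
    ring

theorem Lf_X {b : Bool} {D k : ℤ} {q : P3} (i : Fin (2 + 1)) (h : Lf g b D k q) :
    Lf g b (D + 1) (k + wh i) (X i * q) := by
  obtain ⟨H, hH, hS, hq⟩ := h
  refine ⟨_, hsec_X i hH, ?_, ?_⟩
  · have h1 := hS.mul hH.ker (Od_of_wh (X_wh3 i) le_rfl)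
    rw [w3_eq] at h1
    exact h1.mono (by omega)
  · rw [A.φ_mul b hH.ker, show 2 * (k + wh i) = w3 i + 2 * k by rw [w3_eq]; ring,
      cp_X_mul i hS.lead, hq]
    ring

/-- the ideal of the reduced leading coefficients -/
noncomputable def Jb (b : Bool) : Ideal P3 := Ideal.span {u | A.Ld b (X 0 ^ g.mb b * u)}

theorem Lf_of_mem (b : Bool) {q : P3} (hq : q ∈ Jb g b) :
    ∀ D k, Lf g b D k (bc (D + K g b, 2 * k) q) := by
  induction hq using Submodule.span_induction with
  | mem u hu =>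
    obtain ⟨k₀, D₀, H, hH, hS, hu⟩ := hu
    intro D k
    have h1 : IsWeightedHomogeneous wb (X 0 ^ g.mb b * u) (D₀ + A.kap b, 2 * k₀) := by
      rw [hu]
      exact wb_iff.2 ⟨tw0_hom_cp (A.φ_hom b hH), cp_wh _ _⟩
    have h2 := wb_div h1
    by_cases he : ((D₀ + A.kap b - (g.mb b : ℤ), 2 * k₀) : ℤ × ℤ) = (D + K g b, 2 * k)
    · rw [← he, bc_self h2]
      rw [Prod.mk.injEq] at he
      obtain ⟨e1, e2⟩ := he
      have e3 : k = k₀ := by omega
      have e4 : D = D₀ := by
        unfold K at e1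
        omega
      subst e3 e4
      exact ⟨H, hH, hS, hu.symm⟩
    · rw [bc_ne h2 he]
      exact Lf_zero g b D k
  | zero =>
    intro D k
    rw [map_zero]
    exact Lf_zero g b D k
  | add p q _ _ hp hq =>
    intro D k
    rw [map_add]
    exact Lf_add g (hp D k) (hq D k)
  | smul r q _ hq =>
    rw [smul_eq_mul]
    induction r using MvPolynomial.induction_on with
    | C c =>
      intro D k
      rw [weightedHomogeneousComponent_C_mul]
      exact Lf_C g c (hq D k)
    | add r r' hr hr' =>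
      intro D k
      rw [add_mul, map_add]
      exact Lf_add g (hr D k) (hr' D k)
    | mul_X r i hr =>
      intro D k
      have h1 := hr (D - 1) (k - wh i)
      have h2 := Lf_X g i h1
      rw [← bc_X] at h2
      have e1 : ((D - 1 + K g b, 2 * (k - wh i)) : ℤ × ℤ) + wb i = (D + K g b, 2 * k) := by
        rw [wb_X, w3_eq]
        ext
        · simp
          ring
        · simp
          ring
      rw [e1, show D - 1 + 1 = D by ring, show k - wh i + wh i = k by ring] at h2
      rw [show r * X i * q = X i * (r * q) by ring]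
      exact h2

/-- the ideal contains a power of the coordinates. -/
theorem pow_mem (b : Bool) (i : Fin (2 + 1)) : ∃ N : ℕ, (X i : P3) ^ N ∈ Jb g b := by
  have hzero : ∀ x : Fin (2 + 1) → ℂ, x ∈ zeroLocus ℂ (Jb g b) → x = 0 := by
    intro x hx
    by_contra hx0
    obtain ⟨u, hu, hne⟩ := g.nv b x hx0
    have h1 := (mem_zeroLocus_iff.1 hx) u (Ideal.subset_span hu)
    exact hne (by simpa [aeval_eq_eval] using h1)
  have h1 : (X i : P3) ∈ (Jb g b).radical := by
    rw [← vanishingIdeal_zeroLocus_eq_radical (K := ℂ), mem_vanishingIdeal_iff]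
    intro x hx
    rw [hzero x hx, aeval_X]
    rfl
  exact h1

theorem exists_large : ∃ D₀ : ℤ, ∀ D, D₀ ≤ D → PP g D := by
  have h1 : ∀ b, ∃ N : ℕ, ∀ i, (X i : P3) ^ N ∈ Jb g b := by
    intro b
    choose N hN using pow_mem g b
    refine ⟨∑ i, N i, fun i => ?_⟩
    have h2 : N i ≤ ∑ i, N i := Finset.single_le_sum (fun _ _ => Nat.zero_le _)
      (Finset.mem_univ i)
    exact (Jb g b).mem_of_dvd (pow_dvd_pow _ h2) (hN i)
  choose N hN using h1
  refine ⟨3 * N true + 3 * N false + |K g true| + |K g false|, fun D hD b k q hq => ?_⟩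
  have h3 : q ∈ Jb g b := by
    rw [q.as_sum]
    refine (Jb g b).sum_mem fun u hu => ?_
    have h4 := congrArg Prod.fst (hq (mem_support_iff.1 hu))
    rw [weight_wb] at h4
    simp only at h4
    have h5 : 3 * (N b : ℤ) ≤ D + K g b := by
      have e1 := neg_abs_le (K g true)
      have e2 := neg_abs_le (K g false)
      have e3 := abs_nonneg (K g true)
      have e4 := abs_nonneg (K g false)
      rcases b with _ | _
      · have : (0 : ℤ) ≤ N true := by positivity
        omega
      · have : (0 : ℤ) ≤ N false := by positivity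
        omega
    obtain ⟨i, hi⟩ : ∃ i, N b ≤ u i := by
      by_contra hc
      push Not at hc
      have e0 := hc 0
      have e1 := hc 1
      have e2 := hc 2
      omega
    have h6 : X i ^ N b ∣ monomial u (coeff u q) := by
      apply Xpow_dvd_of
      intro v hv
      rw [coeff_monomial] at hv
      split_ifs at hv with h7
      · rw [← h7]
        exact hi
      · exact absurd rfl hv
    exact (Jb g b).mem_of_dvd h6 (hN b i)
  have h4 := Lf_of_mem g b h3 D k
  rwa [bc_self hq] at h4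

end PF

end

end Pool.Agent.W615
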