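import Pool.Agent.W615.V5

/-!
# Bundles on the plane whose degeneration splits, III (helper615)
-/

set_option autoImplicit false
set_option maxHeartbeats 400000

open MvPolynomial H960VB H938TB

namespace Pool.Agent.W615

section
variable {F : Bundle2 2} {W : Wedge (triv F)} {A : PF W}

namespace PF

/-- a section with a given reduced leading coefficient -/
structure LD (g : PG A) (b : Bool) (D k : ℤ) (H : Vec F.a 2) (q : P3) : Prop where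
  sec : HSec (triv F) (D, 0) H
  so : A.SO (2 * k + sh b) H
  ld : cp w3 (2 * k) (A.φ b H) = X 0 ^ g.mb b * q

variable {g : PG A}

theorem LD.add {b : Bool} {D k : ℤ} {H H' : Vec F.a 2} {q q' : P3} (h : LD g b D k H q)
    (h' : LD g b D k H' q') : LD g b D k (fun i => H i + H' i) (q + q') :=
  ⟨hsec_add h.sec h'.sec, h.so.add h.sec.ker h'.sec.ker h'.so, by
    rw [A.φ_add b h.sec.ker h'.sec.ker, map_add, h.ld, h'.ld]
    ring⟩

theorem LD.sub {b : Bool} {D k : ℤ} {H H' : Vec F.a 2} {q q' : P3} (h : LD g b D k H q)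
    (h' : LD g b D k H' q') : LD g b D k (fun i => H i - H' i) (q - q') :=
  ⟨hsec_sub h.sec h'.sec, h.so.sub h.sec.ker h'.sec.ker h'.so, by
    rw [A.φ_sub b h.sec.ker h'.sec.ker, map_sub, h.ld, h'.ld]
    ring⟩

theorem LD.X {b : Bool} {D k D' k' : ℤ} {H : Vec F.a 2} {q : P3} (h : LD g b D k H q)
    (i : Fin (2 + 1)) (hD : D' = D + 1) (hk : k' = k + wh i) :
    LD g b D' k' (fun j => MvPolynomial.X i * H j) (MvPolynomial.X i * q) := by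
  subst hD hk
  refine ⟨hsec_X i h.sec, ?_, ?_⟩
  · have h1 := h.so.mul h.sec.ker (Od_of_wh (X_wh3 i) le_rfl)
    rw [w3_eq] at h1
    exact h1.mono (by omega)
  · rw [A.φ_mul b h.sec.ker, show 2 * (k + wh i) = w3 i + 2 * k by rw [w3_eq]; ring,
      cp_X_mul i h.so.lead, h.ld]
    ring

theorem LD.up {b : Bool} {D k : ℤ} {H : Vec F.a 2} {q : P3} (h : LD g b D k H q) (hq : q = 0) :
    A.SO (2 * k + sh b + 1) H :=
  h.so.step (by rw [h.ld, hq, mul_zero])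

theorem exists_LD {b : Bool} {D k : ℤ} {H : Vec F.a 2} (hH : HSec (triv F) (D, 0) H)
    (hS : A.SO (2 * k + sh b) H) : ∃ q, LD g b D k H q ∧
      IsWeightedHomogeneous wb q (D + K g b, 2 * k) := by
  obtain ⟨q, hq⟩ := g.dv b _ ⟨k, D, H, hH, hS, rfl⟩
  refine ⟨q, ⟨hH, hS, hq⟩, ?_⟩
  have h1 : IsWeightedHomogeneous wb (MvPolynomial.X 0 ^ g.mb b * q) (D + A.kap b, 2 * k) := by
    rw [← hq]
    exact wb_iff.2 ⟨tw0_hom_cp (A.φ_hom b hH), cp_wh _ _⟩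
  have h2 := wb_div h1
  rwa [show D + A.kap b - (g.mb b : ℤ) = D + K g b by unfold K; ring] at h2

theorem zero_of_SO {D a : ℤ} {H : Vec F.a 2} (hH : HSec (triv F) (D, 0) H) (hS : A.SO a H)
    (h : ∀ b, 4 * (D + A.kap b) < a - 1) (i : Fin F.a) : H i = 0 := by
  refine A.eq_zero hH.ker (fun b => ?_) i
  have h1 : Od w3 (a - 1) (A.φ b H) := by
    rcases b with _ | _
    · exact hS.2.mono (by omega)
    · exact hS.1
  exact Od_bound w3_le (A.φ_hom b hH) (h b) h1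

theorem kstep {D : ℤ} (hP : PP g (D + 1)) (b : Bool) (k : ℤ) {c₀₁ c₀₂ c₁₂ : Vec F.a 2}
    (h₀₁ : HSec (triv F) (D + 2, 0) c₀₁) (h₀₂ : HSec (triv F) (D + 2, 0) c₀₂)
    (h₁₂ : HSec (triv F) (D + 2, 0) c₁₂) (s₀₁ : A.SO (2 * (k + 1) + sh b) c₀₁)
    (s₀₂ : A.SO (2 * (k + 2) + sh b) c₀₂) (s₁₂ : A.SO (2 * (k + 3) + sh b) c₁₂)
    (hc : ∀ i, X 2 * c₀₁ i - X 1 * c₀₂ i + X 0 * c₁₂ i = 0) :
    ∃ B₀ B₁ B₂ : Vec F.a 2, HSec (triv F) (D + 1, 0) B₀ ∧ HSec (triv F) (D + 1, 0) B₁ ∧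
      HSec (triv F) (D + 1, 0) B₂ ∧ A.SO (2 * k + sh b) B₀ ∧ A.SO (2 * (k + 1) + sh b) B₁ ∧
      A.SO (2 * (k + 2) + sh b) B₂ ∧
      A.SO (2 * (k + 1) + sh b + 1) (fun i => c₀₁ i - (X 1 * B₀ i - X 0 * B₁ i)) ∧
      A.SO (2 * (k + 2) + sh b + 1) (fun i => c₀₂ i - (X 2 * B₀ i - X 0 * B₂ i)) ∧
      A.SO (2 * (k + 3) + sh b + 1) (fun i => c₁₂ i - (X 2 * B₁ i - X 1 * B₂ i)) := by
  obtain ⟨e₀₁, l₀₁, w₀₁⟩ := exists_LD (g := g) h₀₁ s₀₁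
  obtain ⟨e₀₂, l₀₂, w₀₂⟩ := exists_LD (g := g) h₀₂ s₀₂
  obtain ⟨e₁₂, l₁₂, w₁₂⟩ := exists_LD (g := g) h₁₂ s₁₂
  have hco : X 2 * e₀₁ - X 1 * e₀₂ + X 0 * e₁₂ = 0 := by
    have a1 := ((l₀₁.X 2 (D' := D + 3) (k' := k + 3) (by ring) (by simp [wh]; ring)).sub
      (l₀₂.X 1 (D' := D + 3) (k' := k + 3) (by ring) (by simp [wh]; ring))).add
      (l₁₂.X 0 (D' := D + 3) (k' := k + 3) (by ring) (by simp [wh]))
    have a2 := a1.ld
    rw [A.φ_zero b a1.sec.ker hc, map_zero] at a2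
    exact (mul_eq_zero.1 a2.symm).resolve_left (pow_ne_zero _ (X_ne_zero 0))
  obtain ⟨q₀, q₁, q₂, r₀₁, r₀₂, r₁₂⟩ := kos_poly hco
  have hwb : ∀ i : Fin (2 + 1), ∀ l : ℤ, ((D + 1 + K g b, 2 * l) : ℤ × ℤ) + wb i =
      (D + 2 + K g b, 2 * (l + wh i)) := by
    intro i l
    rw [wb_X, w3_eq]
    ext
    · simp
      ring
    · simp
      ring
  have u₀₁ : e₀₁ = X 1 * bc (D + 1 + K g b, 2 * k) q₀ -
      X 0 * bc (D + 1 + K g b, 2 * (k + 1)) q₁ := by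
    rw [← bc_X, ← bc_X, hwb, hwb, show k + wh 1 = k + 1 from rfl,
      show k + 1 + wh 0 = k + 1 by simp [wh], ← map_sub, ← r₀₁, bc_self w₀₁]
  have u₀₂ : e₀₂ = X 2 * bc (D + 1 + K g b, 2 * k) q₀ -
      X 0 * bc (D + 1 + K g b, 2 * (k + 2)) q₂ := by
    rw [← bc_X, ← bc_X, hwb, hwb, show k + wh 2 = k + 2 from rfl,
      show k + 2 + wh 0 = k + 2 by simp [wh], ← map_sub, ← r₀₂, bc_self w₀₂]
  have u₁₂ : e₁₂ = X 2 * bc (D + 1 + K g b, 2 * (k + 1)) q₁ -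
      X 1 * bc (D + 1 + K g b, 2 * (k + 2)) q₂ := by
    rw [← bc_X, ← bc_X, hwb, hwb, show k + 1 + wh 2 = k + 3 by simp [wh]; ring,
      show k + 2 + wh 1 = k + 3 by simp [wh]; ring, ← map_sub, ← r₁₂, bc_self w₁₂]
  obtain ⟨B₀, b₀, b₀', b₀''⟩ := hP b k _ (bc_wh (D + 1 + K g b, 2 * k) q₀)
  obtain ⟨B₁, b₁, b₁', b₁''⟩ := hP b (k + 1) _ (bc_wh (D + 1 + K g b, 2 * (k + 1)) q₁)
  obtain ⟨B₂, b₂, b₂', b₂''⟩ := hP b (k + 2) _ (bc_wh (D + 1 + K g b, 2 * (k + 2)) q₂)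
  have L₀ : LD g b (D + 1) k B₀ _ := ⟨b₀, b₀', b₀''⟩
  have L₁ : LD g b (D + 1) (k + 1) B₁ _ := ⟨b₁, b₁', b₁''⟩
  have L₂ : LD g b (D + 1) (k + 2) B₂ _ := ⟨b₂, b₂', b₂''⟩
  refine ⟨B₀, B₁, B₂, b₀, b₁, b₂, b₀', b₁', b₂', ?_, ?_, ?_⟩
  · exact (l₀₁.sub ((L₀.X 1 (by ring) (by simp [wh])).sub
      (L₁.X 0 (by ring) (by simp [wh])))).up (by rw [← u₀₁, sub_self])
  · exact (l₀₂.sub ((L₀.X 2 (by ring) (by simp [wh])).sub
      (L₂.X 0 (by ring) (by simp [wh])))).up (by rw [← u₀₂, sub_self])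
  · exact (l₁₂.sub ((L₁.X 2 (by ring) (by simp [wh]; ring)).sub
      (L₂.X 1 (by ring) (by simp [wh]; ring)))).up (by rw [← u₁₂, sub_self])

theorem exists_par (r : ℤ) : ∃ (b : Bool) (k : ℤ), r = 2 * k + sh b := by
  rcases Int.even_or_odd' r with ⟨k, h | h⟩
  · exact ⟨false, k, by simp [sh, h]⟩
  · exact ⟨true, k, by simp [sh, h]⟩

/-- **Exactness of the Koszul complex of the filtered module.** -/
theorem kos {D : ℤ} (hP : PP g (D + 1)) : ∀ (N : ℕ) (r : ℤ),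
    (∀ b, 4 * (D + 2 + A.kap b) < r + N + 1) → ∀ c₀₁ c₀₂ c₁₂ : Vec F.a 2,
    HSec (triv F) (D + 2, 0) c₀₁ → HSec (triv F) (D + 2, 0) c₀₂ → HSec (triv F) (D + 2, 0) c₁₂ →
    A.SO (r + 2) c₀₁ → A.SO (r + 4) c₀₂ → A.SO (r + 6) c₁₂ →
    (∀ i, X 2 * c₀₁ i - X 1 * c₀₂ i + X 0 * c₁₂ i = 0) →
    ∃ B₀ B₁ B₂ : Vec F.a 2, HSec (triv F) (D + 1, 0) B₀ ∧ HSec (triv F) (D + 1, 0) B₁ ∧
      HSec (triv F) (D + 1, 0) B₂ ∧ A.SO r B₀ ∧ A.SO (r + 2) B₁ ∧ A.SO (r + 4) B₂ ∧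
      (∀ i, c₀₁ i = X 1 * B₀ i - X 0 * B₁ i) ∧ (∀ i, c₀₂ i = X 2 * B₀ i - X 0 * B₂ i) ∧
      ∀ i, c₁₂ i = X 2 * B₁ i - X 1 * B₂ i := by
  intro N
  induction N with
  | zero =>
    intro r hr c₀₁ c₀₂ c₁₂ h₀₁ h₀₂ h₁₂ s₀₁ s₀₂ s₁₂ _
    have z₀₁ := zero_of_SO h₀₁ s₀₁ (fun b => by have := hr b; push_cast at this; omega)
    have z₀₂ := zero_of_SO h₀₂ s₀₂ (fun b => by have := hr b; push_cast at this; omega)
    have z₁₂ := zero_of_SO h₁₂ s₁₂ (fun b => by have := hr b; push_cast at this; omega)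
    refine ⟨fun _ => 0, fun _ => 0, fun _ => 0, hsec_zero _, hsec_zero _, hsec_zero _, SO_zero _,
      SO_zero _, SO_zero _, fun i => ?_, fun i => ?_, fun i => ?_⟩
    · rw [z₀₁ i]; ring
    · rw [z₀₂ i]; ring
    · rw [z₁₂ i]; ring
  | succ N ih =>
    intro r hr c₀₁ c₀₂ c₁₂ h₀₁ h₀₂ h₁₂ s₀₁ s₀₂ s₁₂ hc
    obtain ⟨b, k, rfl⟩ := exists_par r
    obtain ⟨B₀, B₁, B₂, b₀, b₁, b₂, b₀', b₁', b₂', t₀₁, t₀₂, t₁₂⟩ := kstep hP b k h₀₁ h₀₂ h₁₂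
      (s₀₁.mono (by omega)) (s₀₂.mono (by omega)) (s₁₂.mono (by omega)) hc
    have hX : ∀ (i : Fin (2 + 1)) {H : Vec F.a 2}, HSec (triv F) (D + 1, 0) H →
        HSec (triv F) (D + 2, 0) (fun j => X i * H j) := by
      intro i H hH
      have h1 := hsec_X i hH
      rwa [show D + 1 + 1 = D + 2 by ring] at h1
    obtain ⟨C₀, C₁, C₂, d₀, d₁, d₂, d₀', d₁', d₂', f₀₁, f₀₂, f₁₂⟩ := ih (2 * k + sh b + 1)
      (fun b' => by have := hr b'; push_cast at this; omega)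
      (fun i => c₀₁ i - (X 1 * B₀ i - X 0 * B₁ i)) (fun i => c₀₂ i - (X 2 * B₀ i - X 0 * B₂ i))
      (fun i => c₁₂ i - (X 2 * B₁ i - X 1 * B₂ i))
      (hsec_sub h₀₁ (hsec_sub (hX 1 b₀) (hX 0 b₁)))
      (hsec_sub h₀₂ (hsec_sub (hX 2 b₀) (hX 0 b₂)))
      (hsec_sub h₁₂ (hsec_sub (hX 2 b₁) (hX 1 b₂)))
      (t₀₁.mono (by omega)) (t₀₂.mono (by omega)) (t₁₂.mono (by omega))
      (fun i => by linear_combination hc i)
    refine ⟨_, _, _, hsec_add b₀ d₀, hsec_add b₁ d₁, hsec_add b₂ d₂,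
      b₀'.add b₀.ker d₀.ker (d₀'.mono (by omega)),
      SO.add b₁.ker d₁.ker (b₁'.mono (by omega)) (d₁'.mono (by omega)),
      SO.add b₂.ker d₂.ker (b₂'.mono (by omega)) (d₂'.mono (by omega)),
      fun i => ?_, fun i => ?_, fun i => ?_⟩
    · have h1 := f₀₁ i
      linear_combination h1
    · have h1 := f₀₂ i
      linear_combination h1
    · have h1 := f₁₂ i
      linear_combination h1

/-- **The descending step.** -/
theorem PP_step {D : ℤ} (hP : PP g (D + 1)) : PP g D := by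
  intro b k q hq
  have hXq : ∀ i : Fin (2 + 1), IsWeightedHomogeneous wb (X i * q)
      (D + 1 + K g b, 2 * (k + wh i)) := by
    intro i
    have h1 := (isWeightedHomogeneous_X ℂ wb i).mul hq
    have e1 : wb i + ((D + K g b, 2 * k) : ℤ × ℤ) = (D + 1 + K g b, 2 * (k + wh i)) := by
      rw [wb_X, w3_eq]
      ext
      · simp
        ring
      · simp
        ring
    rwa [e1] at h1
  obtain ⟨A₀, a₀, a₀', a₀''⟩ := hP b _ _ (hXq 0)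
  obtain ⟨A₁, a₁, a₁', a₁''⟩ := hP b _ _ (hXq 1)
  obtain ⟨A₂, a₂, a₂', a₂''⟩ := hP b _ _ (hXq 2)
  have L₀ : LD g b (D + 1) (k + wh 0) A₀ (X 0 * q) := ⟨a₀, a₀', a₀''⟩
  have L₁ : LD g b (D + 1) (k + wh 1) A₁ (X 1 * q) := ⟨a₁, a₁', a₁''⟩
  have L₂ : LD g b (D + 1) (k + wh 2) A₂ (X 2 * q) := ⟨a₂, a₂', a₂''⟩
  -- the cocycle
  have M₀₁ := (L₀.X 1 (D' := D + 2) (k' := k + 1) (by ring) (by simp [wh])).sub
    (L₁.X 0 (D' := D + 2) (k' := k + 1) (by ring) (by simp [wh]))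
  have M₀₂ := (L₀.X 2 (D' := D + 2) (k' := k + 2) (by ring) (by simp [wh])).sub
    (L₂.X 0 (D' := D + 2) (k' := k + 2) (by ring) (by simp [wh]))
  have M₁₂ := (L₁.X 2 (D' := D + 2) (k' := k + 3) (by ring) (by simp [wh]; ring)).sub
    (L₂.X 1 (D' := D + 2) (k' := k + 3) (by ring) (by simp [wh]; ring))
  have t₀₁ := M₀₁.up (by ring)
  have t₀₂ := M₀₂.up (by ring)
  have t₁₂ := M₁₂.up (by ring)
  obtain ⟨N, hN⟩ : ∃ N : ℕ, ∀ b', 4 * (D + 2 + A.kap b') < (2 * k + sh b + 1) + N + 1 := by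
    refine ⟨(max (4 * (D + 2 + A.kap true)) (4 * (D + 2 + A.kap false)) -
      (2 * k + sh b)).toNat, fun b' => ?_⟩
    have h1 := Int.self_le_toNat (max (4 * (D + 2 + A.kap true)) (4 * (D + 2 + A.kap false)) -
      (2 * k + sh b))
    have h2 := le_max_left (4 * (D + 2 + A.kap true)) (4 * (D + 2 + A.kap false))
    have h3 := le_max_right (4 * (D + 2 + A.kap true)) (4 * (D + 2 + A.kap false))
    rcases b' with _ | _
    · omega
    · omega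
  obtain ⟨B₀, B₁, B₂, b₀, b₁, b₂, b₀', b₁', b₂', f₀₁, f₀₂, f₁₂⟩ := kos hP N (2 * k + sh b + 1) hN
    _ _ _ M₀₁.sec M₀₂.sec M₁₂.sec (t₀₁.mono (by omega)) (t₀₂.mono (by omega))
    (t₁₂.mono (by omega)) (fun i => by ring)
  have hX : Prime (X 0 : P3) := X_prime
  have h01 : ¬ (X 0 : P3) ∣ X 1 := by
    rw [X_dvd_X]
    decide
  have hdv : ∀ i, ∃ h, A₀ i - B₀ i = X 0 * h := by
    intro i
    have h1 := f₀₁ i
    refine (hX.dvd_or_dvd (a := X 1) ⟨A₁ i - B₁ i, ?_⟩).resolve_left h01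
    linear_combination h1
  choose H hH using hdv
  have hAB : HSec (triv F) (D + 1, 0) (fun i => A₀ i - B₀ i) := hsec_sub a₀ b₀
  have hHs : HSec (triv F) (D, 0) H := by
    have h1 := sec_div hAB hH
    rw [tw0_X] at h1
    have e1 : ((D + 1, 0) : M) - (1, 0) = (D, 0) := by
      ext
      · simp
      · simp
      · simp
    rwa [e1] at h1
  have hAS : A.SO (2 * k + sh b) (fun i => A₀ i - B₀ i) :=
    SO.sub a₀.ker b₀.ker (a₀'.mono (by simp [wh])) (b₀'.mono (by omega))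
  have hφ : ∀ b', A.φ b' (fun i => A₀ i - B₀ i) = X 0 * A.φ b' H := by
    intro b'
    rw [← A.φ_mul b' hHs.ker]
    congr 1
    funext i
    exact hH i
  have hX0 : Od w3 0 (X 0 : P3) := Od_of_wh (X_wh3 0) le_rfl
  have hX0' : cp w3 0 (X 0 : P3) ≠ 0 := by
    have h1 : cp w3 (w3 0) (X 0 : P3) = X 0 := cp_self (X_wh3 0)
    have h2 : cp w3 0 (X 0 : P3) = X 0 := h1
    rw [h2]
    exact X_ne_zero 0
  have hHS : A.SO (2 * k + sh b) H := by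
    refine ⟨Od_cancel hX0 hX0' ?_, Od_cancel hX0 hX0' ?_⟩
    · rw [← hφ]
      exact hAS.1
    · rw [← hφ]
      exact hAS.2
  refine ⟨H, hHs, hHS, ?_⟩
  apply mul_left_cancel₀ hX.ne_zero
  have h1 := cp_X_mul 0 hHS.lead
  rw [← hφ, A.φ_sub b a₀.ker b₀.ker, map_sub] at h1
  have h2 : w3 0 + 2 * k = 2 * k := by simp [w3]
  rw [h2, b₀'.lead_zero, sub_zero] at h1
  have h3 : k + wh 0 = k := by simp [wh]
  rw [h3] at a₀''
  rw [← h1, a₀'']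
  ring

theorem PP_all (D : ℤ) : PP g D := by
  obtain ⟨D₀, hD₀⟩ := exists_large g
  have key : ∀ (N : ℕ) (D : ℤ), D₀ ≤ D + N → PP g D := by
    intro N
    induction N with
    | zero => intro D hD; exact hD₀ D (by simpa using hD)
    | succ N ih =>
      intro D hD
      exact PP_step (ih (D + 1) (by push_cast at hD; omega))
  exact key (D₀ - D).toNat D (by have := Int.self_le_toNat (D₀ - D); omega)

end PF

/-- **The rigidity theorem.** -/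
theorem splits_of_bpf (A : PF W) (hb : A.Bpf) : F.Splits := by
  obtain ⟨g⟩ := exists_PG A hb
  have h1wb : ∀ b, IsWeightedHomogeneous wb (1 : P3) (-PF.K g b + PF.K g b, 2 * 0) := by
    intro b
    have h := isWeightedHomogeneous_one ℂ wb
    convert h using 1
    ext
    · simp
    · simp
  obtain ⟨H₁, h₁, s₁, l₁⟩ := PF.PP_all (g := g) (-PF.K g true) true 0 1 (h1wb true)
  obtain ⟨H₂, h₂, s₂, l₂⟩ := PF.PP_all (g := g) (-PF.K g false) false 0 1 (h1wb false)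
  have s₁' : A.SO 1 H₁ := s₁.mono (by simp [sh])
  have s₂' : A.SO 0 H₂ := s₂.mono (by simp [sh])
  have h3 := A.SO_cp h₁.ker h₂.ker s₁' s₂'
  have l₁' : cp w3 (1 - 1) (A.φ true H₁) = X 0 ^ g.mb true := by simpa using l₁
  have l₂' : cp w3 0 (A.φ false H₂) = X 0 ^ g.mb false := by simpa using l₂
  rw [cp_odd (a := 1) ⟨0, rfl⟩, zero_mul, sub_zero, l₁', l₂', ← pow_add, g.hm] at h3
  have h4 : C A.c * cp w3 (1 + 0 - 1) (W.wd H₁ H₂) = 1 := by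
    apply mul_left_cancel₀ (pow_ne_zero A.m (X_ne_zero (0 : Fin (2 + 1))) :
      (X 0 ^ A.m : P3) ≠ 0)
    rw [mul_one]
    linear_combination h3
  have h5 := congrArg (coeff 0) h4
  rw [coeff_C_mul, coeff_cp, map_zero, if_pos (by norm_num), coeff_one, if_pos rfl] at h5
  have h6 : coeff 0 (W.wd H₁ H₂) ≠ 0 := right_ne_zero_of_mul (by rw [h5]; exact one_ne_zero)
  have h7 := W.hom _ _ _ _ h₁ h₂
  have h8 := congrArg Prod.fst (h7 h6)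
  rw [map_zero] at h8
  obtain ⟨c, hc, hW⟩ := const_of_degree_zero h7 (fun h => h6 (by rw [h, coeff_zero])) h8.symm
  exact splits_of_const W h₁ h₂ c hc hW

end

end Pool.Agent.W615
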