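import Pool.Agent.W615.V6

/-!
# Restriction of an adapted frame to the plane `X₁ = X₃ = 0` (helper615)
-/

set_option autoImplicit false
set_option maxHeartbeats 400000

open MvPolynomial H960VB H938TB

namespace Pool.Agent.W615

section
variable {m n : ℕ} {E : Bundle2 n}

/-- the wedge product on a subspace and in the space. -/
theorem res_wdT (hm : 1 ≤ m) (T : (Fin (m + 1) → ℂ) →ₗ[ℂ] (Fin (n + 1) → ℂ))
    (hT : Function.Injective T) (W : Wedge (triv E)) (W' : Wedge (triv (E.pull T hT))) :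
    ∃ c : ℂ, c ≠ 0 ∧ ∀ G G', Ker E G → Ker E G' →
      lsub T (W.wd G G') = C c * W'.wd (fun i => lsub T (G i)) (fun i => lsub T (G' i)) := by
  have h1ne : (fun _ => 1 : Fin (m + 1) → ℂ) ≠ 0 := fun h => by simpa using congrFun h 0
  let e : Fin (E.a * E.a) ≃ Fin E.a × Fin E.a := finProdFinEquiv.symm
  let v : Vec (E.a * E.a) m := fun t => W'.P (e t).1 (e t).2
  let u : Vec (E.a * E.a) m := fun t => lsub T (W.P (e t).1 (e t).2)
  have hv : Prm v := by
    apply prm_of_no_zero hm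
    intro x hx h0
    obtain ⟨i, j, hij⟩ := W'.P_ne x hx
    apply hij
    have h2 : eval x (W'.P (e (e.symm (i, j))).1 (e (e.symm (i, j))).2) = 0 :=
      congrFun h0 (e.symm (i, j))
    rwa [Equiv.apply_symm_apply] at h2
  have hu : Prm u := by
    apply prm_of_no_zero hm
    intro x hx h0
    obtain ⟨i, j, hij⟩ := W.P_ne (T x) (fun h => hx (hT (h.trans (map_zero _).symm)))
    apply hij
    have h2 : eval x (lsub T (W.P (e (e.symm (i, j))).1 (e (e.symm (i, j))).2)) = 0 :=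
      congrFun h0 (e.symm (i, j))
    rwa [Equiv.apply_symm_apply, eval_lsub] at h2
  have hrel : ∀ G G', Ker E G → Ker E G' → ∀ i j,
      lsub T (W.wd G G') * lsub T (W.P i j) =
        W'.wd (fun i => lsub T (G i)) (fun i => lsub T (G' i)) * W'.P i j := by
    intro G G' hG hG' i j
    have h2 := congrArg (lsub T) (W.eq G G' hG hG' i j)
    have h3 := W'.eq (fun i => lsub T (G i)) (fun i => lsub T (G' i)) (hG.pull T hT)
      (hG'.pull T hT) i j
    rw [← h3, ← map_mul, ← h2, map_sub, map_mul, map_mul]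
  obtain ⟨τ, τ', G, G', hG, hG', hp⟩ := exists_ne W (D := triv E) (T (fun _ => 1))
    (fun h => h1ne (hT (h.trans (map_zero _).symm)))
  have hA : lsub T (W.wd G G') ≠ 0 := by
    intro h
    apply hp
    rw [← eval_lsub, h, map_zero]
  have hpar : ∀ i j, v i * u j = v j * u i := by
    intro i j
    apply mul_left_cancel₀ hA
    have h2 := hrel G G' hG.ker hG'.ker (e i).1 (e i).2
    have h3 := hrel G G' hG.ker hG'.ker (e j).1 (e j).2
    show lsub T (W.wd G G') * (W'.P (e i).1 (e i).2 * lsub T (W.P (e j).1 (e j).2)) =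
      lsub T (W.wd G G') * (W'.P (e j).1 (e j).2 * lsub T (W.P (e i).1 (e i).2))
    linear_combination W'.P (e i).1 (e i).2 * h3 - W'.P (e j).1 (e j).2 * h2
  obtain ⟨f, hf⟩ := hv.dvd hpar
  have hfu : IsUnit f := hu f fun i => ⟨v i, hf i⟩
  obtain ⟨c, hc, rfl⟩ := isUnit_iff_eq_C_of_isReduced.1 hfu
  have hc0 : c ≠ 0 := hc.ne_zero
  refine ⟨c⁻¹, inv_ne_zero hc0, fun G G' hG hG' => ?_⟩
  obtain ⟨i, j, hij⟩ := exists_P_ne W'
  apply mul_right_cancel₀ hij
  have h2 := hrel G G' hG hG' i j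
  have h3 := hf (e.symm (i, j))
  simp only [u, v, Equiv.apply_symm_apply] at h3
  rw [h3] at h2
  have h4 : (C c⁻¹ * C c : MvPolynomial (Fin (m + 1)) ℂ) = 1 := by
    rw [← C_mul, inv_mul_cancel₀ hc0, C_1]
  linear_combination C c⁻¹ * h2 - lsub T (W.wd G G') * W'.P i j * h4

end

/-- the weights of the coordinates of `P^4` -/
def w5 : Fin (4 + 1) → ℤ := ![0, 1, 2, 3, 4]

/-- the plane `X₁ = X₃ = 0` -/
noncomputable abbrev T5 : (Fin (2 + 1) → ℂ) →ₗ[ℂ] (Fin (4 + 1) → ℂ) :=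
  cInc (![0, 2, 4] : Fin (2 + 1) → Fin (4 + 1))

theorem T5_inj : Function.Injective T5 := cInc_injective _ (by decide)

theorem T5_wt (t : Fin (2 + 1)) (s : Fin (4 + 1)) (h : T5 (Pi.single t 1) s ≠ 0) :
    w5 s = w3 t := by
  rw [cInc_single] at h
  have h1 : s = (![0, 2, 4] : Fin (2 + 1) → Fin (4 + 1)) t := by
    by_contra hne
    exact h (Pi.single_eq_of_ne hne _)
  rw [h1]
  fin_cases t <;> rfl

theorem T5_e0 : T5 (Pi.single 0 1) = Pi.single 0 1 := cInc_single _ _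

theorem Od_of_C_mul {n : ℕ} {wt : Fin (n + 1) → ℤ} {a : ℤ} {c : ℂ} (hc : c ≠ 0)
    {p : MvPolynomial (Fin (n + 1)) ℂ} (h : Od wt a (C c * p)) : Od wt a p := by
  intro u hu
  apply h u
  rw [coeff_C_mul]
  exact mul_ne_zero hc hu

theorem w3_0 : w3 0 = 0 := rfl

theorem w3_pos (i : Fin (2 + 1)) (hi : i ≠ 0) : 0 < w3 i := by
  fin_cases i
  · exact absurd rfl hi
  · norm_num [w3]
  · norm_num [w3]

theorem w5_pos (i : Fin (4 + 1)) (hi : i ≠ 0) : 0 < w5 i := by
  fin_cases i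
  · exact absurd rfl hi
  · norm_num [w5]
  · norm_num [w5]
  · norm_num [w5]
  · norm_num [w5]

section
variable {E : Bundle2 4} {δ : Der 4} {L : Lft (triv E) 0 δ} {W : Wedge (triv E)}

theorem VF.splits (V : VF L W w5) (hX : ∀ i : Fin 4, δ (X i.castSucc) = X i.succ) :
    E.Splits := by
  obtain ⟨W'⟩ := exists_wedge (by norm_num) (triv (E.pull T5 T5_inj))
  obtain ⟨c, hc, hcw⟩ := res_wdT (by norm_num) T5 T5_inj W W'
  have hsec : ∀ {τ : M} {H : Vec E.a 4}, HSec (triv E) τ H →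
      HSec (triv (E.pull T5 T5_inj)) (τ.1, 0) (fun i => lsub T5 (H i)) := by
    intro τ H hH
    exact (hsec_triv hH).pull T5 T5_inj 0 (fun _ _ _ => rfl)
  have hlc : lsub T5 (C c) = C c := by
    rw [lsub, aeval_C]
    rfl
  have h5 := W.hom _ _ _ _ (L.op_hom V.hG) V.hG
  have hne : eval (Pi.single 0 1 : Fin (4 + 1) → ℂ) (W.wd (L.op V.G) V.G) ≠ 0 := by
    have h6 := V.w0
    rcases homZ_of h5 with h7 | ⟨l, -, h7⟩
    · rw [h7, map_zero] at h6
      exact absurd rfl h6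
    · rw [cp0 rfl w5_pos h7] at h6
      intro h8
      rw [h8, C_0, zero_mul] at h6
      exact h6 rfl
  have hne' : eval (Pi.single 0 1 : Fin (2 + 1) → ℂ)
      (W'.wd (fun i => lsub T5 (L.op V.G i)) (fun i => lsub T5 (V.G i))) ≠ 0 := by
    intro h6
    have h7 := congrArg (eval (Pi.single 0 1 : Fin (2 + 1) → ℂ)) (hcw _ _ V.kf V.kG)
    rw [eval_lsub, T5_e0, map_mul] at h7
    apply hne
    rw [h7]
    exact mul_eq_zero_of_right _ h6
  obtain ⟨l, hl⟩ : ∃ l, (W'.wd (fun i => lsub T5 (L.op V.G i))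
      (fun i => lsub T5 (V.G i))).IsHomogeneous l := by
    rcases homZ_of (W'.hom _ _ _ _ (hsec (L.op_hom V.hG)) (hsec V.hG)) with h7 | ⟨l, -, h7⟩
    · exfalso
      apply hne'
      have h8 : W'.wd (fun i => lsub T5 (L.op V.G i)) (fun i => lsub T5 (V.G i)) = 0 := h7
      rw [h8, map_zero]
    · exact ⟨l, h7⟩
  let A : PF W' :=
    { f₁ := fun i => lsub T5 (L.op V.G i)
      f₂ := fun i => lsub T5 (V.G i)
      τ₁ := _
      τ₂ := _
      h₁ := hsec (L.op_hom V.hG)
      h₂ := hsec V.hG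
      m := l
      c := _
      hc := hne'
      hw := cp0 w3_0 w3_pos hl }
  have hA : A.Bpf := by
    intro x hx
    have hTx : T5 x ≠ 0 := fun h => hx (T5_inj (h.trans (map_zero _).symm))
    obtain ⟨a, b, τ, τ', H, H', hH, hH', s, s', hne⟩ := V.bpf rfl w5_pos hX (T5 x) hTx
    have hSO : ∀ (a : ℤ) (H : Vec E.a 4), Ker E H → V.SO a H →
        A.SO a (fun i => lsub T5 (H i)) := by
      intro a H hH s
      refine ⟨Od_of_C_mul hc ?_, Od_of_C_mul hc ?_⟩
      · have h1 := Od_lsub T5 T5_wt s.1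
        rw [hcw H V.G hH V.kG] at h1
        exact h1
      · have h1 := Od_lsub T5 T5_wt s.2
        rw [hcw _ H V.kf hH] at h1
        exact h1
    refine ⟨a, b, τ.1, τ'.1, _, _, hsec hH, hsec hH', hSO a H hH.ker s, hSO b H' hH'.ker s', ?_⟩
    have h1 := cp_lsub T5 T5_wt (V.SO_wd hH.ker hH'.ker s s')
    rw [hcw H H' hH.ker hH'.ker] at h1
    have key : ∀ P : P3, cp w3 (a + b - 1) (C c * P) = lsub T5 (cp w5 (a + b - 1) (W.wd H H')) →
        eval x (cp w3 (a + b - 1) P) ≠ 0 := by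
      intro P hP h3
      apply hne
      have h2 : cp w3 (a + b - 1) (C c * P) = C c * cp w3 (a + b - 1) P :=
        weightedHomogeneousComponent_C_mul _ _ _
      rw [← eval_lsub, ← hP, h2, map_mul, h3, mul_zero]
    exact key _ h1
  exact Bundle2.splits_of_pull 2 2 4 (le_refl 2) (by norm_num) E T5 T5_inj (splits_of_bpf A hA)

end

end Pool.Agent.W615
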