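import Pool.Agent.W615.V7

/-!
# Local structure of a lift at the fixed point (helper615)
-/

set_option autoImplicit false
set_option maxHeartbeats 400000

open MvPolynomial H960VB H938TB

namespace Pool.Agent.W615

section
variable {n : ℕ} {E : Bundle2 n} {δ : Der n} (L : Lft (triv E) 0 δ) (W : Wedge (triv E))
  {wt : Fin (n + 1) → ℤ}

theorem iterK {H : Vec E.a n} (hH : Ker E H) (k : ℕ) : Ker E (L.op^[k] H) := by
  induction k with
  | zero => exact hH
  | succ k ih =>
    rw [Function.iterate_succ_apply']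
    exact L.op_ker ih

theorem iterS {τ : M} {H : Vec E.a n} (hH : HSec (triv E) τ H) (k : ℕ) :
    HSec (triv E) τ (L.op^[k] H) := by
  induction k with
  | zero => exact hH
  | succ k ih =>
    rw [Function.iterate_succ_apply']
    have h := L.op_hom ih
    rwa [add_zero] at h

theorem z2_of (nn : ∀ i, 0 ≤ wt i) {b : ℤ} (hb : ∀ i, wt i ≤ b)
    (hδ : ∀ i, IsWeightedHomogeneous wt (δ (X i)) (wt i + 1))
    (tr : ∀ H H', Ker E H → Ker E H' → W.wd (L.op H) H' + W.wd H (L.op H') = δ (W.wd H H'))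
    {τ : M} {G : Vec E.a n} (hG : HSec (triv E) τ G) (w0 : cp wt 0 (W.wd (L.op G) G) ≠ 0)
    (z1 : Od wt 1 (W.wd (L.op G) (L.op (L.op G)))) :
    Od wt 2 (W.wd (L.op G) (L.op (L.op G))) := by
  have kG := hG.ker
  have kf := L.op_ker kG
  have kff := L.op_ker kf
  have wnn : Od wt 0 (W.wd (L.op G) G) := Od_nonneg nn le_rfl _
  have wne : W.wd (L.op G) G ≠ 0 := fun h => w0 (by rw [h, map_zero])
  have frame : ∀ H H', Ker E H → Ker E H' → W.wd (L.op G) G * W.wd H H' =
      W.wd H G * W.wd (L.op G) H' - W.wd (L.op G) H * W.wd H' G := by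
    intro H H' hH hH'
    have h1 := W.four (L.op G) G H H' kf kG hH hH'
    rw [W.anti G H' kG hH', W.anti G H kG hH] at h1
    linear_combination h1
  have e1 : ∀ H, Ker E H → W.wd (L.op H) G = δ (W.wd H G) + W.wd (L.op G) H := by
    intro H hH
    have h1 := tr H G hH kG
    rw [W.anti H (L.op G) hH kf] at h1
    linear_combination h1
  have e2 : ∀ H, Ker E H → W.wd (L.op G) (L.op H) =
      δ (W.wd (L.op G) H) - W.wd (L.op (L.op G)) H := by
    intro H hH
    have h1 := tr (L.op G) H kf hH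
    linear_combination h1
  have e3 : W.wd (L.op (L.op G)) G = δ (W.wd (L.op G) G) := by
    have h1 := tr (L.op G) G kf kG
    rw [wd_self W kf, add_zero] at h1
    exact h1
  have e4 : ∀ H, Ker E H → W.wd (L.op G) G * W.wd (L.op (L.op G)) H =
      δ (W.wd (L.op G) G) * W.wd (L.op G) H -
        W.wd (L.op G) (L.op (L.op G)) * W.wd H G := by
    intro H hH
    rw [frame _ _ kff hH, e3]
  have hR : ∀ (a : ℤ) (H : Vec E.a n), Ker E H → Od wt a (W.wd H G) →
      Od wt a (W.wd (L.op G) H) → Od wt (a + 1) (W.wd (L.op (L.op G)) H) := by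
    intro a H hH h1 h2
    apply Od_cancel wnn w0
    rw [e4 H hH]
    have h3 := (Od_der hδ wnn).mul h2
    have h4 := z1.mul h1
    exact (h3.mono (by omega)).sub (h4.mono (by omega))
  have step : ∀ (a : ℤ) (H : Vec E.a n), Ker E H → Od wt a (W.wd H G) →
      Od wt a (W.wd (L.op G) H) → Od wt a (W.wd (L.op H) G) ∧
        Od wt (a + 1) (W.wd (L.op G) (L.op H)) := by
    intro a H hH h1 h2
    rw [e1 H hH, e2 H hH]
    exact ⟨((Od_der hδ h1).mono (by omega)).add h2, (Od_der hδ h2).sub (hR a H hH h1 h2)⟩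
  have two : ∀ (a : ℤ) (H : Vec E.a n), Ker E H → Od wt a (W.wd H G) →
      Od wt a (W.wd (L.op G) H) → Od wt (a + 1) (W.wd (L.op (L.op H)) G) ∧
        Od wt (a + 1) (W.wd (L.op G) (L.op (L.op H))) := by
    intro a H hH h1 h2
    obtain ⟨h3, h4⟩ := step a H hH h1 h2
    have kH := L.op_ker hH
    refine ⟨?_, (step a (L.op H) kH h3 (h4.mono (by omega))).2⟩
    rw [e1 _ kH]
    exact (Od_der hδ h3).add h4
  have it : ∀ k : ℕ, Od wt k (W.wd (L.op^[2 * k] G) G) ∧
      Od wt k (W.wd (L.op G) (L.op^[2 * k] G)) := by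
    intro k
    induction k with
    | zero => exact ⟨Od_nonneg nn (by simp) _, Od_nonneg nn (by simp) _⟩
    | succ k ih =>
      have h1 := two _ _ (iterK L kG _) ih.1 ih.2
      rw [← Function.iterate_succ_apply' L.op, ← Function.iterate_succ_apply' L.op] at h1
      push_cast
      exact h1
  have hz : ∀ H, Ker E H → W.wd H G = 0 → W.wd (L.op G) H = 0 → ∀ i, H i = 0 := by
    intro H hH h1 h2 i
    have h3 := W.three (L.op G) G H kf kG hH i
    rw [W.anti G H kG hH, h1, h2, neg_zero, zero_mul, zero_mul, sub_zero, zero_add] at h3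
    exact (mul_eq_zero.1 h3).resolve_left wne
  have hex : ∃ N : ℕ, ∀ i, L.op^[N] G i = 0 := by
    refine ⟨2 * ((b * (τ + τ + W.κ : M).1).toNat + 1), ?_⟩
    have h1 := it ((b * (τ + τ + W.κ : M).1).toNat + 1)
    have h2 := Int.self_le_toNat (b * (τ + τ + W.κ : M).1)
    have hs := iterS L hG (2 * ((b * (τ + τ + W.κ : M).1).toNat + 1))
    have hf : HSec (triv E) τ (L.op G) := by
      have h := L.op_hom hG
      rwa [add_zero] at h
    refine hz _ hs.ker ?_ ?_
    · exact Od_bound hb (W.hom _ _ _ _ hs hG) (by push_cast; omega) h1.1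
    · exact Od_bound hb (W.hom _ _ _ _ hf hs) (by push_cast; omega) h1.2
  classical
  obtain ⟨H, hH, hLH, hHne⟩ : ∃ H, Ker E H ∧ (∀ i, L.op H i = 0) ∧ ¬ ∀ i, H i = 0 := by
    have h1 := Nat.find_spec hex
    have h2 : Nat.find hex ≠ 0 := by
      intro h0
      rw [h0] at h1
      exact wne (wd_zero_right W kf kG h1)
    obtain ⟨N, hN⟩ := Nat.exists_eq_succ_of_ne_zero h2
    refine ⟨L.op^[N] G, iterK L kG N, fun i => ?_, Nat.find_min hex (by omega)⟩
    rw [← Function.iterate_succ_apply' L.op]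
    rw [hN] at h1
    exact h1 i
  have f1 : δ (W.wd H G) + W.wd (L.op G) H = 0 := by
    rw [← e1 H hH]
    exact wd_zero_left W (L.op_ker hH) kG hLH
  have f2 : δ (W.wd (L.op G) H) - W.wd (L.op (L.op G)) H = 0 := by
    rw [← e2 H hH]
    exact wd_zero_right W kf (L.op_ker hH) hLH
  have hne1 : W.wd H G ≠ 0 := by
    intro h0
    apply hHne
    refine hz H hH h0 ?_
    rw [h0, map_zero, zero_add] at f1
    exact f1
  obtain ⟨a, ha, ha0⟩ := exists_lead (wt := wt) hne1
  have g1 : Od wt (a + 1) (W.wd (L.op G) H) := by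
    have h1 : W.wd (L.op G) H = -δ (W.wd H G) := by linear_combination f1
    rw [h1]
    exact (Od_der hδ ha).neg
  have g2 : Od wt (a + 2) (W.wd (L.op G) (L.op (L.op G)) * W.wd H G) := by
    have h1 : W.wd (L.op G) (L.op (L.op G)) * W.wd H G =
        δ (W.wd (L.op G) G) * W.wd (L.op G) H - W.wd (L.op G) G * δ (W.wd (L.op G) H) := by
      have h2 := e4 H hH
      linear_combination h2 + (W.wd (L.op G) G) * f2
    rw [h1]
    have h3 := (Od_der hδ wnn).mul g1
    have h4 := wnn.mul (Od_der hδ g1)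
    exact (h3.mono (by omega)).sub (h4.mono (by omega))
  have g3 := cp_mul z1 ha
  rw [(g2.cp_zero (by omega))] at g3
  exact z1.succ ((mul_eq_zero.1 g3.symm).resolve_right ha0)

end

end Pool.Agent.W615
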