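import Pool.Agent.W615.V8

/-!
# Lifts with two eigenvalues (helper615)
-/

set_option autoImplicit false
set_option maxHeartbeats 400000

open MvPolynomial H960VB H938TB

namespace Pool.Agent.W615

section
variable {n : ℕ} {E : Bundle2 n} {δ : Der n}

/-- nilpotent sections for a lift with nonzero trace are parallel. -/
theorem par_nilG (hδ0 : ∀ (p : MvPolynomial (Fin (n + 1)) ℂ) (c : ℂ), c ≠ 0 → δ p = C c * p → p = 0)
    (W : Wedge (triv E)) (L : Lft (triv E) 0 δ) {θ : ℂ} (hθ : θ ≠ 0)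
    (htr : ∀ G G', Ker E G → Ker E G' →
      W.wd (L.op G) G' + W.wd G (L.op G') = δ (W.wd G G') + C θ * W.wd G G')
    {G G' : Vec E.a n} (hG : Ker E G) (hG' : Ker E G') {a : ℕ}
    (h : ∀ i, L.op^[a] G i = 0) (h' : ∀ i, L.op^[a] G' i = 0) : W.wd G G' = 0 := by
  have hz : ∀ (j : ℕ) (H : Vec E.a n), (∀ i, L.op^[a] H i = 0) → a ≤ j →
      ∀ i, L.op^[j] H i = 0 := by
    intro j H hH haj
    induction j, haj using Nat.le_induction with
    | base => exact hH
    | succ j _ ih =>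
      intro i
      rw [Function.iterate_succ_apply']
      exact L.op_zero ih i
  have key : ∀ (r i j : ℕ), 2 * a ≤ i + j + r → W.wd (L.op^[i] G) (L.op^[j] G') = 0 := by
    intro r
    induction r with
    | zero =>
      intro i j hij
      rcases Nat.lt_or_ge i a with hi | hi
      · exact wd_zero_right W (iterK L hG i) (iterK L hG' j) (hz j G' h' (by omega))
      · exact wd_zero_left W (iterK L hG i) (iterK L hG' j) (hz i G h hi)
    | succ r ih =>
      intro i j hij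
      have h1 := htr _ _ (iterK L hG i) (iterK L hG' j)
      rw [show L.op (L.op^[i] G) = L.op^[i + 1] G from (Function.iterate_succ_apply' L.op i G).symm,
        show L.op (L.op^[j] G') = L.op^[j + 1] G' from (Function.iterate_succ_apply' L.op j G').symm,
        ih (i + 1) j (by omega), ih i (j + 1) (by omega), add_zero] at h1
      refine hδ0 _ (-θ) (neg_ne_zero.2 hθ) ?_
      rw [C_neg]
      linear_combination -h1
  exact key (2 * a) 0 0 (by omega)

/-- the lift as a linear map -/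
noncomputable def LopG (L : Lft (triv E) 0 δ) : Module.End ℂ (Vec E.a n) where
  toFun G := L.op G
  map_add' G H := L.op_add G H
  map_smul' c G := by
    funext i
    have h1 : ∀ i, (c • G) i = C c * G i := fun i => by
      rw [Pi.smul_apply, smul_eq_C_mul]
    rw [op_mul_at L h1]
    show _ = (c • L.op G) i
    rw [Pi.smul_apply, smul_eq_C_mul, derivation_C, zero_mul, zero_add]

theorem aeval_secG (L : Lft (triv E) 0 δ) (p : Polynomial ℂ) {τ : M} {G : Vec E.a n}
    (hG : HSec (triv E) τ G) : HSec (triv E) τ (Polynomial.aeval (LopG L) p G) := by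
  have hz : HSec (triv E) τ (0 : Vec E.a n) :=
    ⟨fun i => isWeightedHomogeneous_zero _ _ _, ker_zero⟩
  have hs : ∀ (c : ℂ) (H : Vec E.a n), HSec (triv E) τ H → HSec (triv E) τ (c • H) := by
    intro c H hH
    have h1 : c • H = fun i => C c * H i := by
      funext i
      rw [Pi.smul_apply, smul_eq_C_mul]
    rw [h1]
    exact hsec_mul (wh_C _) hH (zero_add _).symm
  have hp : ∀ j : ℕ, HSec (triv E) τ ((LopG L ^ j) G) := by
    intro j
    induction j with
    | zero => exact hG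
    | succ j ih =>
      rw [pow_succ', Module.End.mul_apply]
      have h := L.op_hom ih
      rwa [add_zero] at h
  rw [Polynomial.aeval_eq_sum_range, LinearMap.sum_apply]
  induction Finset.range (p.natDegree + 1) using Finset.induction_on with
  | empty => exact hz
  | insert a s ha ih =>
    rw [Finset.sum_insert ha]
    exact hsec_add (hs _ _ (hp a)) ih

theorem LopG_pow (L : Lft (triv E) 0 δ) (j : ℕ) (G : Vec E.a n) :
    (LopG L ^ j) G = L.op^[j] G := by
  rw [Module.End.pow_apply]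
  rfl

/-- a bundle with a lift having two eigenvalues splits. -/
theorem split_of_fin (hn : 1 ≤ n)
    (hδ0 : ∀ (p : MvPolynomial (Fin (n + 1)) ℂ) (c : ℂ), c ≠ 0 → δ p = C c * p → p = 0)
    (W : Wedge (triv E)) (L : Lft (triv E) 0 δ) {θ : ℂ} (hθ : θ ≠ 0)
    (hθ' : ∀ G G', Ker E G → Ker E G' →
      W.wd (L.op G) G' + W.wd G (L.op G') = δ (W.wd G G') + C θ * W.wd G G')
    (hfin : ∀ (τ : M) (G : Vec E.a n), HSec (triv E) τ G → ∃ r : ℕ,
        Polynomial.aeval (LopG L) ((Polynomial.X * (Polynomial.X - Polynomial.C θ)) ^ r) G = 0) :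
    E.Splits := by
  classical
  have htr2 : ∀ G G', Ker E G → Ker E G' →
      W.wd ((L.shift θ).op G) G' + W.wd G ((L.shift θ).op G') =
        δ (W.wd G G') + C (-θ) * W.wd G G' := by
    intro G G' hG hG'
    have e1 : ∀ G, (L.shift θ).op G = fun i => L.op G i - C θ * G i :=
      fun G => funext fun i => L.shift_op θ G i
    have e2 := hθ' G G' hG hG'
    rw [e1, e1, wd_sub_left W (L.op_ker hG) (ker_mul hG _) hG',
      wd_sub_right W (L.op_ker hG') (ker_mul hG' _) hG, W.smul _ _ _ hG hG',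
      wd_mul_right W hG' hG, C_neg]
    linear_combination e2
  -- decomposition
  have hdec : ∀ (τ : M) (G : Vec E.a n), HSec (triv E) τ G →
      ∃ (r : ℕ) (A B : Vec E.a n), HSec (triv E) τ A ∧ HSec (triv E) τ B ∧
        (∀ i, G i = A i + B i) ∧ (∀ i, L.op^[r] A i = 0) ∧
        ∀ i, (L.shift θ).op^[r] B i = 0 := by
    intro τ G hG
    obtain ⟨r, hr'⟩ := hfin τ G hG
    have hcop : IsCoprime ((Polynomial.X : Polynomial ℂ) ^ r)
        ((Polynomial.X - Polynomial.C θ) ^ r) := by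
      apply IsCoprime.pow
      have h1 := Polynomial.isCoprime_X_sub_C_of_isUnit_sub (R := ℂ) (a := 0) (b := θ)
        (isUnit_iff_ne_zero.2 (by rw [zero_sub]; exact neg_ne_zero.2 hθ))
      rwa [Polynomial.C_0, sub_zero] at h1
    obtain ⟨u, v, huv⟩ := hcop
    refine ⟨r, Polynomial.aeval (LopG L) (v * (Polynomial.X - Polynomial.C θ) ^ r) G,
      Polynomial.aeval (LopG L) (u * Polynomial.X ^ r) G, aeval_secG L _ hG, aeval_secG L _ hG,
      fun i => ?_, fun i => ?_, fun i => ?_⟩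
    · rw [← Pi.add_apply, ← LinearMap.add_apply, ← map_add,
        add_comm (v * (Polynomial.X - Polynomial.C θ) ^ r), huv, map_one,
        Module.End.one_apply]
    · rw [← LopG_pow, ← Polynomial.aeval_X (LopG L) (R := ℂ)]
      have e1 : (Polynomial.aeval (LopG L) (Polynomial.X : Polynomial ℂ)) ^ r =
        Polynomial.aeval (LopG L) ((Polynomial.X : Polynomial ℂ) ^ r) := (map_pow _ _ _).symm
      rw [Polynomial.aeval_X] at e1 ⊢
      rw [e1, ← Module.End.mul_apply, ← map_mul]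
      have e2 : (Polynomial.X : Polynomial ℂ) ^ r * (v * (Polynomial.X - Polynomial.C θ) ^ r) =
          v * (Polynomial.X * (Polynomial.X - Polynomial.C θ)) ^ r := by
        rw [mul_pow]
        ring
      rw [e2, map_mul, Module.End.mul_apply, hr', map_zero]
      rfl
    · have e0 : Polynomial.aeval (LopG L) (Polynomial.X - Polynomial.C θ : Polynomial ℂ) =
          LopG (L.shift θ) := by
        refine LinearMap.ext fun H => ?_
        rw [map_sub, Polynomial.aeval_X, Polynomial.aeval_C, LinearMap.sub_apply,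
          Module.algebraMap_end_apply]
        funext i
        rw [Pi.sub_apply, Pi.smul_apply, smul_eq_C_mul]
        exact (L.shift_op θ H i).symm
      rw [← LopG_pow, ← e0]
      have e1 : (Polynomial.aeval (LopG L) (Polynomial.X - Polynomial.C θ : Polynomial ℂ)) ^ r =
        Polynomial.aeval (LopG L) ((Polynomial.X - Polynomial.C θ : Polynomial ℂ) ^ r) :=
          (map_pow _ _ _).symm
      rw [e1, ← Module.End.mul_apply, ← map_mul]
      have e2 : (Polynomial.X - Polynomial.C θ : Polynomial ℂ) ^ r * (u * Polynomial.X ^ r) =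
          u * (Polynomial.X * (Polynomial.X - Polynomial.C θ)) ^ r := by
        rw [mul_pow]
        ring
      rw [e2, map_mul, Module.End.mul_apply, hr', map_zero]
      rfl
  have hzero : ∀ (L' : Lft (triv E) 0 δ) (r r' : ℕ) (H : Vec E.a n), r ≤ r' →
      (∀ i, L'.op^[r] H i = 0) → ∀ i, L'.op^[r'] H i = 0 := by
    intro L' r r' H hrr h
    induction r', hrr using Nat.le_induction with
    | base => exact h
    | succ j _ ih =>
      intro i
      rw [Function.iterate_succ_apply']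
      exact L'.op_zero ih i
  have parA : ∀ (r r' : ℕ) (H H' : Vec E.a n), Ker E H → Ker E H' →
      (∀ i, L.op^[r] H i = 0) → (∀ i, L.op^[r'] H' i = 0) → W.wd H H' = 0 :=
    fun r r' H H' hH hH' h h' => par_nilG hδ0 W L hθ hθ' hH hH' (a := max r r')
      (hzero L _ _ _ (le_max_left _ _) h) (hzero L _ _ _ (le_max_right _ _) h')
  have parB : ∀ (r r' : ℕ) (H H' : Vec E.a n), Ker E H → Ker E H' →
      (∀ i, (L.shift θ).op^[r] H i = 0) → (∀ i, (L.shift θ).op^[r'] H' i = 0) →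
      W.wd H H' = 0 :=
    fun r r' H H' hH hH' h h' => par_nilG hδ0 W (L.shift θ) (neg_ne_zero.2 hθ) htr2 hH hH'
      (a := max r r')
      (hzero _ _ _ _ (le_max_left _ _) h) (hzero _ _ _ _ (le_max_right _ _) h')
  -- nonzero eigensections
  have hne2 : ∀ (x : Fin (n + 1) → ℂ), x ≠ 0 → ∃ (r r' : ℕ) (τ τ' : M)
      (A B : Vec E.a n), HSec (triv E) τ A ∧ HSec (triv E) τ' B ∧ (∀ i, L.op^[r] A i = 0) ∧
        (∀ i, (L.shift θ).op^[r'] B i = 0) ∧ eval x (W.wd A B) ≠ 0 := by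
    intro x hx
    obtain ⟨τ, τ', G, G', hG, hG', hp⟩ := exists_ne W (D := triv E) x hx
    obtain ⟨r, A, B, hA, hB, hAB, eA, eB⟩ := hdec τ G hG
    obtain ⟨r', A', B', hA', hB', hAB', eA', eB'⟩ := hdec τ' G' hG'
    have h1 : W.wd G G' = W.wd A B' + W.wd B A' := by
      rw [show G = fun i => A i + B i from funext hAB,
        show G' = fun i => A' i + B' i from funext hAB',
        wd_add_left W hA.ker hB.ker (ker_add hA'.ker hB'.ker),
        wd_add_right W hA'.ker hB'.ker hA.ker, wd_add_right W hA'.ker hB'.ker hB.ker,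
        parA r r' A A' hA.ker hA'.ker eA eA', parB r r' B B' hB.ker hB'.ker eB eB']
      ring
    rw [h1, map_add] at hp
    by_cases h2 : eval x (W.wd A B') = 0
    · rw [h2, zero_add] at hp
      refine ⟨r', r, τ', τ, A', B, hA', hB, eA', eB, ?_⟩
      rw [W.anti A' B hA'.ker hB.ker, map_neg]
      exact neg_ne_zero.2 hp
    · exact ⟨r, r', τ, τ', A, B', hA, hB', eA, eB', h2⟩
  obtain ⟨r₀, r₀', τ₀, τ₀', A₀, B₀, hA₀, hB₀, eA₀, eB₀, hp₀⟩ := hne2 (fun _ => 1)
    (fun h => by simpa using congrFun h 0)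
  have hw₀ : W.wd A₀ B₀ ≠ 0 := fun h => hp₀ (by rw [h, map_zero])
  obtain ⟨δ₁, g₁, s₁, hg₁, -, hs₁, hsp₁, hAs⟩ := exists_prm hA₀ (ne_of_wd_left W hA₀.ker hB₀.ker hw₀)
  obtain ⟨δ₂, g₂, s₂, hg₂, -, hs₂, hsp₂, hBs⟩ := exists_prm hB₀
    (ne_of_wd_right W hA₀.ker hB₀.ker hw₀)
  refine splits_of_no_zero W hn hs₁ hs₂ fun x hx h0 => ?_
  obtain ⟨r, r', τ, τ', A, B, hA, hB, eA, eB, hp⟩ := hne2 x hx
  obtain ⟨f, hf⟩ := hsp₁.dvd_wd W hs₁.ker hA.ker (by
    have h1 := parA r₀ r A₀ A hA₀.ker hA.ker eA₀ eA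
    rw [wd_of_mul_left W hs₁.ker hA.ker hAs] at h1
    exact (mul_eq_zero.1 h1).resolve_left hg₁)
  obtain ⟨f', hf'⟩ := hsp₂.dvd_wd W hs₂.ker hB.ker (by
    have h1 := parB r₀' r' B₀ B hB₀.ker hB.ker eB₀ eB
    rw [wd_of_mul_left W hs₂.ker hB.ker hBs] at h1
    exact (mul_eq_zero.1 h1).resolve_left hg₂)
  apply hp
  rw [wd_of_mul_left W hs₁.ker hB.ker hf, wd_of_mul_right W hs₂.ker hs₁.ker hf', map_mul, map_mul,
    h0, mul_zero, mul_zero]

/-! ### the order filtration for two distinct eigenvalues -/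

theorem hδ0_of {wt : Fin (n + 1) → ℤ}
    (hδ : ∀ i, IsWeightedHomogeneous wt (δ (X i)) (wt i + 1))
    (p : MvPolynomial (Fin (n + 1)) ℂ) (c : ℂ) (hc : c ≠ 0) (h : δ p = C c * p) : p = 0 := by
  by_contra hne
  obtain ⟨a, ha, ha0⟩ := exists_lead (wt := wt) hne
  have h1 := Od_der hδ ha
  rw [h] at h1
  exact ha0 ((Od_of_C_mul hc h1).cp_zero (by omega))

theorem two_ev {wt : Fin (n + 1) → ℤ} (hn : 1 ≤ n) (h0 : wt 0 = 0) (h1 : ∀ i, i ≠ 0 → 0 < wt i)
    {b : ℤ} (hb : ∀ i, wt i ≤ b) (hδ : ∀ i, IsWeightedHomogeneous wt (δ (X i)) (wt i + 1))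
    (W : Wedge (triv E)) (L : Lft (triv E) 0 δ) {θ : ℂ} (hθ : θ ≠ 0)
    (htr : ∀ G G', Ker E G → Ker E G' →
      W.wd (L.op G) G' + W.wd G (L.op G') = δ (W.wd G G') + C θ * W.wd G G')
    {τ : M} {G : Vec E.a n} (hG : HSec (triv E) τ G)
    (hG0 : eval (Pi.single 0 1) (W.wd (L.op G) G) ≠ 0)
    (hsq : ∀ H, Ker E H → ∀ i, eval (Pi.single 0 1) (L.op (L.op H) i) =
      θ * eval (Pi.single 0 1) (L.op H i)) : E.Splits := by
  have hx : (Pi.single 0 1 : Fin (n + 1) → ℂ) ≠ 0 := e0_ne n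
  have nn : ∀ i, 0 ≤ wt i := fun i => by
    by_cases hi : i = 0
    · rw [hi, h0]
    · exact (h1 i hi).le
  have hLG : HSec (triv E) τ (L.op G) := by
    have h := L.op_hom hG
    rwa [add_zero] at h
  set G₂ := L.op G with hG₂
  let G₁ : Vec E.a n := fun i => L.op G i - (fun i => C θ * G i) i
  have sG₁ : HSec (triv E) τ G₁ := hsec_sub hLG (hsec_mul (wh_C θ) hG (zero_add _).symm)
  have k₁ := sG₁.ker
  have k₂ := hLG.ker
  let K₂ : Vec E.a n := fun i => L.op G₂ i - (fun i => C θ * G₂ i) i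
  have sK₁ : HSec (triv E) τ (L.op G₁) := by
    have h := L.op_hom sG₁
    rwa [add_zero] at h
  have sK₂ : HSec (triv E) τ K₂ := by
    have h := L.op_hom hLG
    rw [add_zero] at h
    exact hsec_sub h (hsec_mul (wh_C θ) hLG (zero_add _).symm)
  have hLC : ∀ H : Vec E.a n, L.op (fun i => C θ * H i) = fun i => C θ * L.op H i := by
    intro H
    rw [L.op_mul, derivation_C]
    funext i
    rw [zero_mul, zero_add]
  have v₁ : evv (L.op G₁) (Pi.single 0 1) = 0 := by
    funext i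
    show eval _ (L.op G₁ i) = 0
    have e : L.op G₁ = fun i => L.op (L.op G) i - L.op (fun i => C θ * G i) i := L.op_sub _ _
    rw [e, hLC]
    simp only
    rw [map_sub, map_mul, eval_C, hsq G hG.ker]
    ring
  have v₂ : evv K₂ (Pi.single 0 1) = 0 := by
    funext i
    show eval _ (L.op G₂ i - C θ * G₂ i) = 0
    rw [map_sub, map_mul, eval_C, hG₂, hsq G hG.ker]
    ring
  have hw : W.wd G₁ G₂ = C θ * W.wd (L.op G) G := by
    have h2 : W.wd G₁ G₂ = W.wd (L.op G) G₂ - W.wd (fun i => C θ * G i) G₂ :=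
      wd_sub_left W k₂ (ker_mul hG.ker _) k₂
    rw [h2, wd_self W k₂, W.smul _ _ _ hG.ker k₂, W.anti G G₂ hG.ker k₂, hG₂]
    ring
  have hwe : eval (Pi.single 0 1) (W.wd G₁ G₂) ≠ 0 := by
    rw [hw, map_mul, eval_C]
    exact mul_ne_zero hθ hG0
  have wnn : Od wt 0 (W.wd G₁ G₂) := Od_nonneg nn le_rfl _
  have w0 : cp wt 0 (W.wd G₁ G₂) ≠ 0 := by
    rcases homZ_of (W.hom _ _ _ _ sG₁ hLG) with h7 | ⟨l, -, h7⟩
    · rw [h7, map_zero] at hwe
      exact absurd rfl hwe
    · rw [cp0 h0 h1 h7]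
      exact mul_ne_zero (by rwa [Ne, C_eq_zero]) (pow_ne_zero _ (X_ne_zero 0))
  have wne : W.wd G₁ G₂ ≠ 0 := fun h => w0 (by rw [h, map_zero])
  have frame : ∀ H H', Ker E H → Ker E H' → W.wd G₁ G₂ * W.wd H H' =
      W.wd H G₂ * W.wd G₁ H' - W.wd G₁ H * W.wd H' G₂ := by
    intro H H' hH hH'
    have h1 := W.four G₁ G₂ H H' k₁ k₂ hH hH'
    rw [W.anti G₂ H' k₂ hH', W.anti G₂ H k₂ hH] at h1
    linear_combination h1
  -- wedge products with sections vanishing at the fixed point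
  have hvan : ∀ (a : ℤ) (H K : Vec E.a n), Ker E H → HSec (triv E) τ K →
      evv K (Pi.single 0 1) = 0 → Od wt a (W.wd H G₂) → Od wt a (W.wd G₁ H) →
      Od wt (a + 1) (W.wd H K) := by
    intro a H K hH hK hK0 o1 o2
    apply Od_cancel wnn w0
    rw [frame H K hH hK.ker]
    have h2 : Od wt 1 (W.wd G₁ K) := Od_one h0 h1 (W.hom _ _ _ _ sG₁ hK)
      (eval_zero_of_wd W hx k₁ hK.ker (Or.inr hK0))
    have h3 : Od wt 1 (W.wd K G₂) := Od_one h0 h1 (W.hom _ _ _ _ hK hLG)
      (eval_zero_of_wd W hx hK.ker k₂ (Or.inl hK0))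
    exact (o1.mul h2).sub (o2.mul h3)
  have r1 : ∀ (a : ℤ) (H : Vec E.a n), Ker E H → Od wt a (W.wd H G₂) → Od wt a (W.wd G₁ H) →
      Od wt (a + 1) (W.wd (L.op H) G₂) := by
    intro a H hH o1 o2
    have h2 := htr H G₂ hH k₂
    have h3 : W.wd H K₂ = W.wd H (L.op G₂) - C θ * W.wd H G₂ := by
      rw [← wd_mul_right W k₂ hH]
      exact wd_sub_right W (L.op_ker k₂) (ker_mul k₂ _) hH
    have h4 : W.wd (L.op H) G₂ = δ (W.wd H G₂) - W.wd H K₂ := by
      rw [h3]
      linear_combination h2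
    rw [h4]
    exact (Od_der hδ o1).sub (hvan a H K₂ hH sK₂ v₂ o1 o2)
  have r2 : ∀ (a : ℤ) (H : Vec E.a n), Ker E H → Od wt a (W.wd H G₂) → Od wt a (W.wd G₁ H) →
      Od wt (a + 1) (W.wd G₁ (L.op H) - C θ * W.wd G₁ H) := by
    intro a H hH o1 o2
    have h2 := htr G₁ H k₁ hH
    have h3 : W.wd G₁ (L.op H) - C θ * W.wd G₁ H = δ (W.wd G₁ H) + W.wd H (L.op G₁) := by
      rw [W.anti H (L.op G₁) hH (L.op_ker k₁)]
      linear_combination h2
    rw [h3]
    exact (Od_der hδ o2).add (hvan a H (L.op G₁) hH sK₁ v₁ o1 o2)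
  have r2' : ∀ (a : ℤ) (H : Vec E.a n), Ker E H → Od wt a (W.wd H G₂) → Od wt a (W.wd G₁ H) →
      Od wt a (W.wd G₁ (L.op H)) := by
    intro a H hH o1 o2
    have h2 := ((r2 a H hH o1 o2).mono (by omega : a ≤ a + 1)).add (o2.C_mul θ)
    rwa [sub_add_cancel] at h2
  -- the polynomial operator
  set q : Polynomial ℂ := Polynomial.X * (Polynomial.X - Polynomial.C θ) with hq
  have e1 : ∀ H : Vec E.a n, Polynomial.aeval (LopG L) q H =
      fun i => L.op (L.op H) i - (fun i => C θ * L.op H i) i := by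
    intro H
    have e2 : Polynomial.aeval (LopG L) q H = LopG L (LopG L H) - θ • LopG L H := by
      rw [hq, mul_sub, map_sub, map_mul, map_mul, Polynomial.aeval_X, Polynomial.aeval_C,
        LinearMap.sub_apply, Module.End.mul_apply, Module.End.mul_apply,
        Module.algebraMap_end_apply, map_smul]
    funext i
    rw [e2, Pi.sub_apply, Pi.smul_apply, smul_eq_C_mul]
    rfl
  have hstep : ∀ (a : ℤ) (H : Vec E.a n), Ker E H → Od wt a (W.wd H G₂) → Od wt a (W.wd G₁ H) →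
      Od wt (a + 1) (W.wd (Polynomial.aeval (LopG L) q H) G₂) ∧
      Od wt (a + 1) (W.wd G₁ (Polynomial.aeval (LopG L) q H)) := by
    intro a H hH o1 o2
    have kH := L.op_ker hH
    have o1' := r1 a H hH o1 o2
    have o2' := r2' a H hH o1 o2
    rw [e1, wd_sub_left W (L.op_ker kH) (ker_mul kH _) k₂,
      wd_sub_right W (L.op_ker kH) (ker_mul kH _) k₁, W.smul _ _ _ kH k₂, wd_mul_right W kH k₁]
    refine ⟨?_, r2 a (L.op H) kH (o1'.mono (by omega)) o2'⟩
    exact (r1 a (L.op H) kH (o1'.mono (by omega)) o2').sub (o1'.C_mul θ)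
  refine split_of_fin hn (hδ0_of hδ) W L hθ htr fun σ H hH => ?_
  have hit : ∀ r : ℕ, HSec (triv E) σ (Polynomial.aeval (LopG L) (q ^ r) H) ∧
      Od wt r (W.wd (Polynomial.aeval (LopG L) (q ^ r) H) G₂) ∧
      Od wt r (W.wd G₁ (Polynomial.aeval (LopG L) (q ^ r) H)) := by
    intro r
    induction r with
    | zero =>
      refine ⟨aeval_secG L _ hH, Od_nonneg nn (by simp) _, Od_nonneg nn (by simp) _⟩
    | succ r ih =>
      have h2 := hstep _ _ ih.1.ker ih.2.1 ih.2.2
      rw [pow_succ', map_mul, Module.End.mul_apply]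
      push_cast
      exact ⟨aeval_secG L _ ih.1, h2⟩
  obtain ⟨r, hr1, hr2⟩ : ∃ r : ℕ, b * (σ + τ + W.κ : M).1 < r ∧ b * (τ + σ + W.κ : M).1 < r := by
    refine ⟨(max (b * (σ + τ + W.κ : M).1) (b * (τ + σ + W.κ : M).1)).toNat + 1, ?_⟩
    have h2 := Int.self_le_toNat (max (b * (σ + τ + W.κ : M).1) (b * (τ + σ + W.κ : M).1))
    have h3 := le_max_left (b * (σ + τ + W.κ : M).1) (b * (τ + σ + W.κ : M).1)
    have h4 := le_max_right (b * (σ + τ + W.κ : M).1) (b * (τ + σ + W.κ : M).1)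
    push_cast
    constructor <;> linarith
  obtain ⟨s1, s2, s3⟩ := hit r
  have z1 := Od_bound hb (W.hom _ _ _ _ s1 hLG) hr1 s2
  have z2 := Od_bound hb (W.hom _ _ _ _ sG₁ s1) hr2 s3
  refine ⟨r, ?_⟩
  funext i
  have h3 := W.three G₁ G₂ _ k₁ k₂ s1.ker i
  rw [W.anti G₂ _ k₂ s1.ker, z1, z2, neg_zero, zero_mul, zero_mul, sub_zero, zero_add] at h3
  exact (mul_eq_zero.1 h3).resolve_left wne

end

end Pool.Agent.W615
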