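import Pool.Agent.W615.GenW

/-!
# Generalised eigenvectors and bilinear maps; operators on sections (helper615)
-/

set_option autoImplicit false
set_option maxHeartbeats 400000

open MvPolynomial H960VB H938TB

namespace Pool.Agent.W615

/-- generalised eigenvectors under a bilinear map compatible with operators. -/
theorem ge_bilin {A B C : Type*} [AddCommGroup A] [Module ℂ A] [AddCommGroup B] [Module ℂ B]
    [AddCommGroup C] [Module ℂ C] (f : A →ₗ[ℂ] A) (g : B →ₗ[ℂ] B) (h : C →ₗ[ℂ] C)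
    (β : A →ₗ[ℂ] B →ₗ[ℂ] C) (θ : ℂ)
    (hβ : ∀ a b, β (f a) b + β a (g b) = h (β a b) + θ • β a b) (l m : ℂ) :
    ∀ (K i j : ℕ) (a : A) (b : B), i + j ≤ K → ((f - l • 1) ^ i) a = 0 → ((g - m • 1) ^ j) b = 0 →
      ((h - (l + m - θ) • 1) ^ K) (β a b) = 0 := by
  intro K
  induction K with
  | zero =>
    intro i j a b hij ha hb
    obtain rfl : i = 0 := by omega
    rw [pow_zero, Module.End.one_apply] at ha
    rw [ha, map_zero, LinearMap.zero_apply, map_zero]
  | succ K ih =>
    intro i j a b hij ha hb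
    rcases Nat.eq_zero_or_pos i with hi | hi
    · subst hi
      rw [pow_zero, Module.End.one_apply] at ha
      rw [ha, map_zero, LinearMap.zero_apply, map_zero]
    rcases Nat.eq_zero_or_pos j with hj | hj
    · subst hj
      rw [pow_zero, Module.End.one_apply] at hb
      rw [hb, map_zero, map_zero]
    obtain ⟨i', rfl⟩ : ∃ i', i = i' + 1 := ⟨i - 1, by omega⟩
    obtain ⟨j', rfl⟩ : ∃ j', j = j' + 1 := ⟨j - 1, by omega⟩
    have h1 : (h - (l + m - θ) • 1) (β a b) = β ((f - l • 1) a) b + β a ((g - m • 1) b) := by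
      have h2 := hβ a b
      simp only [LinearMap.sub_apply, LinearMap.smul_apply, Module.End.one_apply, map_sub, map_smul]
      rw [← sub_eq_iff_eq_add] at h2
      rw [← h2]
      module
    rw [pow_succ, Module.End.mul_apply, h1, map_add, ih i' (j' + 1) _ _ (by omega) _ hb,
      ih (i' + 1) j' _ _ (by omega) ha _, add_zero]
    · rw [pow_succ, Module.End.mul_apply] at hb
      exact hb
    · rw [pow_succ, Module.End.mul_apply] at ha
      exact ha

variable {n : ℕ} {E : Bundle2 n} {N : Matrix (Fin (n + 1)) (Fin (n + 1)) ℂ}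

/-- `G` is a homogeneous section of `E(d)`. -/
abbrev Sec (E : Bundle2 n) (d : ℤ) (G : Vec E.a n) : Prop := HSec (triv E) ((d, 0) : M) G

theorem sec_of_isSection {d : ℤ} {G : Vec E.a n} (h : E.IsSection d G) : Sec E d G := by
  refine ⟨fun i => ?_, fun k => ?_⟩
  · have h1 := wh_triv (h.1 i)
    convert h1 using 1
    simp [triv]
  · have h1 : (∑ i, E.B k i * G i) * X 0 = 0 := by
      apply MvPolynomial.funext
      intro x
      rw [map_mul, map_zero, map_sum]
      by_cases hx : x = 0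
      · rw [hx, eval_X]
        simp
      · have h2 := h.2 x hx
        have h3 := congrFun (LinearMap.mem_ker.1 h2) k
        have h4 : ∑ i, eval x (E.B k i * G i) = 0 := by
          refine Eq.trans ?_ h3
          rw [Matrix.mulVecLin_apply]
          simp only [Matrix.mulVec, dotProduct, evm, evv, Matrix.map_apply, map_mul]
        rw [h4, zero_mul]
    exact (mul_eq_zero.1 h1).resolve_right (X_ne_zero 0)

theorem Sec.homZ {d : ℤ} {G : Vec E.a n} (h : Sec E d G) (i : Fin E.a) : HomZ (G i) (E.β i + d) :=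
  homZ_of (h.hom i)

theorem sec_iff {d : ℤ} {G : Vec E.a n} : Sec E d G ↔ E.IsSection d G :=
  ⟨fun h => isSection h, sec_of_isSection⟩

theorem sec_mul {d e : ℤ} {p : MvPolynomial (Fin (n + 1)) ℂ} {G : Vec E.a n} (hp : HomZ p e)
    (h : Sec E d G) : Sec E (e + d) (fun i => p * G i) := by
  refine ⟨fun i => ?_, ker_mul h.ker p⟩
  have h1 := (wh_triv hp).mul (h.hom i)
  convert h1 using 1
  ext <;> simp
  ring

theorem sec_add {d : ℤ} {G H : Vec E.a n} (h : Sec E d G) (h' : Sec E d H) :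
    Sec E d (fun i => G i + H i) :=
  ⟨fun i => (h.hom i).add (h'.hom i), ker_add h.ker h'.ker⟩

theorem sec_sub {d : ℤ} {G H : Vec E.a n} (h : Sec E d G) (h' : Sec E d H) :
    Sec E d (fun i => G i - H i) :=
  ⟨fun i => (h.hom i).sub (h'.hom i), ker_sub h.ker h'.ker⟩

theorem sec_zero {d : ℤ} : Sec E d (fun _ => 0) :=
  ⟨fun _ => isWeightedHomogeneous_zero _ _ _, ker_zero⟩

theorem wd_homZ (W : Wedge (triv E)) {d e : ℤ} {G H : Vec E.a n} (h : Sec E d G) (h' : Sec E e H) :
    HomZ (W.wd G H) (d + e + W.κ.1) := by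
  have h1 := homZ_of (W.hom _ _ _ _ h h')
  exact h1

/-- an operator on the sections of the twists of `E` which lifts the vector field `N`. -/
structure Op (E : Bundle2 n) (N : Matrix (Fin (n + 1)) (Fin (n + 1)) ℂ) where
  D : Vec E.a n → Vec E.a n
  sec : ∀ (d : ℤ) G, Sec E d G → Sec E d (D G)
  add : ∀ (d : ℤ) G G', Sec E d G → Sec E d G' →
    D (fun i => G i + G' i) = fun i => D G i + D G' i
  leib : ∀ (d e : ℤ) p G, Sec E d G → HomZ p e →
    D (fun i => p * G i) = fun i => vf N p * G i + p * D G i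

variable (O : Op E N) (W : Wedge (triv E))

/-- the defect of the operator with respect to the wedge product -/
noncomputable def Op.Phi (s t : Vec E.a n) : MvPolynomial (Fin (n + 1)) ℂ :=
  W.wd (O.D s) t + W.wd s (O.D t) - vf N (W.wd s t)

theorem Op.smul_sec {d : ℤ} {s : Vec E.a n} (hs : Sec E d s) (c : ℂ) :
    O.D (fun i => C c * s i) = fun i => C c * O.D s i := by
  have hc : HomZ (C c : MvPolynomial (Fin (n + 1)) ℂ) 0 := Or.inr ⟨0, rfl, isHomogeneous_C _ _⟩
  rw [O.leib d 0 (C c) s hs hc]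
  funext i
  rw [derivation_C, zero_mul, zero_add]

theorem Op.Phi_anti {a b : ℤ} {s t : Vec E.a n} (hs : Sec E a s) (ht : Sec E b t) :
    O.Phi W t s = - O.Phi W s t := by
  unfold Op.Phi
  rw [W.anti t s ht.ker hs.ker, W.anti (O.D t) s (O.sec _ _ ht).ker hs.ker,
    W.anti t (O.D s) ht.ker (O.sec _ _ hs).ker, map_neg]
  ring

theorem Op.Phi_self {a : ℤ} {s : Vec E.a n} (hs : Sec E a s) : O.Phi W s s = 0 := by
  have h := O.Phi_anti W hs hs
  have h2 : (2 : MvPolynomial (Fin (n + 1)) ℂ) * O.Phi W s s = 0 := by linear_combination h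
  exact (mul_eq_zero.1 h2).resolve_left two_ne_zero

theorem Op.Phi_mul {a b e : ℤ} {s t : Vec E.a n} {p : MvPolynomial (Fin (n + 1)) ℂ}
    (hs : Sec E a s) (ht : Sec E b t) (hp : HomZ p e) :
    O.Phi W (fun i => p * s i) t = p * O.Phi W s t := by
  unfold Op.Phi
  have h1 := (O.sec _ _ hs).ker
  have h2 := (O.sec _ _ ht).ker
  rw [O.leib a e p s hs hp, W.smul p s t hs.ker ht.ker, W.smul p s _ hs.ker h2,
    wd_add_left W (ker_mul hs.ker _) (ker_mul h1 _) ht.ker, W.smul _ s t hs.ker ht.ker,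
    W.smul _ _ t h1 ht.ker, Derivation.leibniz, smul_eq_mul, smul_eq_mul]
  ring

theorem Op.Phi_add {a b : ℤ} {s s' t : Vec E.a n} (hs : Sec E a s) (hs' : Sec E a s')
    (ht : Sec E b t) :
    O.Phi W (fun i => s i + s' i) t = O.Phi W s t + O.Phi W s' t := by
  unfold Op.Phi
  have h1 := (O.sec _ _ hs).ker
  have h1' := (O.sec _ _ hs').ker
  have h2 := (O.sec _ _ ht).ker
  rw [O.add a s s' hs hs', wd_add_left W h1 h1' ht.ker, wd_add_left W hs.ker hs'.ker h2,
    wd_add_left W hs.ker hs'.ker ht.ker, map_add]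
  ring

/-- the first relation -/
theorem Op.rel {a b c e : ℤ} {s t s' t' : Vec E.a n} (hs : Sec E a s) (ht : Sec E b t)
    (hs' : Sec E c s') (ht' : Sec E e t') :
    W.wd s t * O.Phi W s' t' = W.wd s' t * O.Phi W s t' - W.wd s' s * O.Phi W t t' := by
  have h1 : (fun i => W.wd s t * s' i) =
      fun i => W.wd s' t * s i + (- W.wd s' s) * t i := by
    funext i
    have h2 := W.three s' s t hs'.ker hs.ker ht.ker i
    linear_combination h2
  have d1 := wd_homZ W hs ht
  have d2 := wd_homZ W hs' ht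
  have d3 : HomZ (- W.wd s' s) (c + a + W.κ.1) := by
    have h3 := wd_homZ W hs hs'
    rw [← W.anti s s' hs.ker hs'.ker]
    convert h3 using 1
    ring
  have e1 := sec_mul d2 hs
  have e2 := sec_mul d3 ht
  have h4 : c + b + W.κ.1 + a = c + a + W.κ.1 + b := by ring
  rw [h4] at e1
  rw [← O.Phi_mul W hs' ht' d1, h1, O.Phi_add W e1 e2 ht', O.Phi_mul W hs ht' d2,
    O.Phi_mul W ht ht' d3]
  ring

theorem Op.cross {a b c e : ℤ} {s t s' t' : Vec E.a n} (hs : Sec E a s) (ht : Sec E b t)
    (hs' : Sec E c s') (ht' : Sec E e t') :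
    O.Phi W s' t' * W.wd s t = O.Phi W s t * W.wd s' t' := by
  have key : ∀ {a b c e : ℤ} {s t s' t' : Vec E.a n}, Sec E a s → Sec E b t →
      Sec E c s' → Sec E e t' →
      W.wd s t ^ 2 * O.Phi W s' t' = W.wd s t * W.wd s' t' * O.Phi W s t := by
    intro a b c e s t s' t' hs ht hs' ht'
    have r1 := O.rel W hs ht hs' ht'
    have r2 := O.rel W hs ht ht' hs
    have r3 := O.rel W hs ht ht' ht
    rw [O.Phi_self W hs, O.Phi_anti W hs ht] at r2
    rw [O.Phi_self W ht] at r3
    have a1 := O.Phi_anti W hs ht'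
    have a2 := O.Phi_anti W ht ht'
    have f := W.four s t s' t' hs.ker ht.ker hs'.ker ht'.ker
    have b1 := W.anti s s' hs.ker hs'.ker
    have b2 := W.anti t t' ht.ker ht'.ker
    have b3 := W.anti s t' hs.ker ht'.ker
    have b4 := W.anti t s' ht.ker hs'.ker
    rw [b1, b2, b3, b4] at f
    rw [a1] at r2
    rw [a2] at r3
    linear_combination W.wd s t * r1 - W.wd s' t * r2 + W.wd s' s * r3 - O.Phi W s t * f
  by_cases h0 : W.wd s t = 0
  · by_cases h1 : W.wd s' t' = 0
    · rw [h0, h1, mul_zero, mul_zero]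
    · have h2 := key hs' ht' hs ht
      rw [h0] at h2 ⊢
      rw [mul_zero, zero_mul] at h2
      have h3 : O.Phi W s t = 0 := (mul_eq_zero.1 h2).resolve_left (pow_ne_zero _ h1)
      rw [h3, mul_zero, zero_mul]
  · apply mul_left_cancel₀ h0
    have h2 := key hs ht hs' ht'
    linear_combination h2

end Pool.Agent.W615
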