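import Pool.Agent.W615.X9

/-!
# Intrinsic lifts; the two theorems (helper615)
-/

set_option autoImplicit false
set_option maxHeartbeats 400000

open MvPolynomial H960VB H938TB

namespace Pool.Agent.W615

variable {n : ℕ} {E : Bundle2 n} {N T : Matrix (Fin (n + 1)) (Fin (n + 1)) ℂ}

/-- an operator from its properties in terms of `IsSection`. -/
noncomputable def mkOp (D : (Fin E.a → MvPolynomial (Fin (n + 1)) ℂ) →
      (Fin E.a → MvPolynomial (Fin (n + 1)) ℂ))
    (sec : ∀ d G, E.IsSection d G → E.IsSection d (D G))
    (add : ∀ d G G', E.IsSection d G → E.IsSection d G' → D (G + G') = D G + D G')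
    (leib : ∀ d e p G, E.IsSection d G → HomZ p e →
      D (p • G) = (∑ s, pderiv s p * (∑ t, C (N s t) * X t)) • G + p • D G) : Op E N where
  D := D
  sec d G h := sec_iff.2 (sec d G (sec_iff.1 h))
  add d G G' h h' := add d G G' (sec_iff.1 h) (sec_iff.1 h')
  leib d e p G h hp := by
    rw [vf_eq_sum]
    exact leib d e p G (sec_iff.1 h) hp

/-- an eigenvalue of algebraic multiplicity at least three, and another eigenvalue. -/
theorem triple (hn : 3 ≤ n) (O : Op E N) {l : ℂ} {j : ℕ} (h3 : 3 ≤ kerDim N l j)
    (hne : ¬ IsNilpotent (N - Matrix.scalar (Fin (n + 1)) l)) : E.Splits := by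
  classical
  obtain ⟨P, P', lam, A, h1, h2, h4, hc, hA⟩ := exists_jordan N
  -- the generalised eigenvectors in the coordinates
  have hscal : Matrix.scalar (Fin (n + 1)) l = l • (1 : Matrix (Fin (n + 1)) (Fin (n + 1)) ℂ) := by
    rw [Matrix.scalar_apply, ← Matrix.diagonal_one, ← Matrix.diagonal_smul]
    congr 1
    funext i
    rw [Pi.smul_apply, smul_eq_mul, mul_one]
  have hconj : P' * (N - Matrix.scalar (Fin (n + 1)) l) * P =
      Matrix.diagonal (fun i => lam i - l) + A := by
    rw [mul_sub, sub_mul, h4, hscal, Matrix.mul_smul, Matrix.smul_mul, mul_one, h2]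
    ext a b
    rw [Matrix.sub_apply, Matrix.add_apply, Matrix.add_apply, Matrix.smul_apply,
      Matrix.diagonal_apply, Matrix.diagonal_apply, Matrix.one_apply, smul_eq_mul]
    split_ifs <;> ring
  have hpow : ∀ k : ℕ, P' * (N - Matrix.scalar (Fin (n + 1)) l) ^ k * P =
      (Matrix.diagonal (fun i => lam i - l) + A) ^ k := by
    intro k
    induction k with
    | zero => rw [pow_zero, pow_zero, mul_one, h2]
    | succ k ih =>
      rw [pow_succ, pow_succ, ← ih, ← hconj]
      calc P' * ((N - Matrix.scalar (Fin (n + 1)) l) ^ k * (N - Matrix.scalar (Fin (n + 1)) l)) * P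
          = P' * (N - Matrix.scalar (Fin (n + 1)) l) ^ k * 1 *
            (N - Matrix.scalar (Fin (n + 1)) l) * P := by rw [mul_one]; simp only [mul_assoc]
        _ = _ := by rw [← h1]; simp only [mul_assoc]
  have hent : ∀ i i', A i i' ≠ 0 → lam i = lam i' := by
    intro i i' hne
    have h5 := congrFun (congrFun hc i) i'
    rw [Matrix.diagonal_mul, Matrix.mul_diagonal] at h5
    have h6 : (lam i - lam i') * A i i' = 0 := by linear_combination h5
    exact sub_eq_zero.1 ((mul_eq_zero.1 h6).resolve_right hne)
  -- not all eigenvalues are equal to l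
  obtain ⟨m, hm⟩ : ∃ m, lam m ≠ l := by
    by_contra hcon
    push Not at hcon
    apply hne
    obtain ⟨k, hk⟩ := hA
    have h5 : Matrix.diagonal (fun i => lam i - l) = 0 := by
      rw [← Matrix.diagonal_zero]
      congr 1
      funext i
      rw [hcon i, sub_self]
    refine ⟨k, ?_⟩
    have h6 := hpow k
    rw [h5, zero_add, hk] at h6
    calc (N - Matrix.scalar (Fin (n + 1)) l) ^ k
        = (P * P') * (N - Matrix.scalar (Fin (n + 1)) l) ^ k * (P * P') := by
          rw [h1, one_mul, mul_one]
      _ = P * (P' * (N - Matrix.scalar (Fin (n + 1)) l) ^ k * P) * P' := by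
          simp only [mul_assoc]
      _ = 0 := by rw [h6, mul_zero, zero_mul]
  -- the number of the eigenvalues equal to l
  set I : Finset (Fin (n + 1)) := Finset.univ.filter fun i => lam i = l with hI
  have hcard : 3 ≤ I.card := by
    -- the kernel embeds into the functions on I
    let F : LinearMap.ker ((N - Matrix.scalar (Fin (n + 1)) l).mulVecLin ^ j) →ₗ[ℂ] (I → ℂ) :=
      (LinearMap.funLeft ℂ ℂ (fun i : I => (i : Fin (n + 1)))).comp
        ((P'.mulVecLin).comp (LinearMap.ker ((N - Matrix.scalar (Fin (n + 1)) l).mulVecLin ^ j)).subtype)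
    have hF : Function.Injective F := by
      rw [← LinearMap.ker_eq_bot, eq_bot_iff]
      rintro ⟨v, hv⟩ hFv
      rw [LinearMap.mem_ker] at hFv
      have hu : ∀ i, lam i = l → P'.mulVec v i = 0 := by
        intro i hi
        have h5 := congrFun hFv ⟨i, by rw [hI, Finset.mem_filter]; exact ⟨Finset.mem_univ _, hi⟩⟩
        exact h5
      -- the operator in the coordinates
      set B := Matrix.diagonal (fun i => lam i - l) + A with hB
      have h5 : (B ^ j).mulVec (P'.mulVec v) = 0 := by
        have h6 : ((N - Matrix.scalar (Fin (n + 1)) l) ^ j).mulVec v = 0 := by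
          rw [LinearMap.mem_ker] at hv
          have h7 : ∀ (C' : Matrix (Fin (n + 1)) (Fin (n + 1)) ℂ) (k : ℕ),
              C'.mulVecLin ^ k = (C' ^ k).mulVecLin := by
            intro C' k
            induction k with
            | zero => rw [pow_zero, pow_zero, Matrix.mulVecLin_one]; rfl
            | succ k ih => rw [pow_succ, ih, pow_succ, Matrix.mulVecLin_mul]; rfl
          rw [h7] at hv
          exact hv
        rw [← hpow, Matrix.mulVec_mulVec]
        have h7 : P' * (N - Matrix.scalar (Fin (n + 1)) l) ^ j * P * P' =
            P' * (N - Matrix.scalar (Fin (n + 1)) l) ^ j := by rw [mul_assoc, h1, mul_one]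
        rw [h7, ← Matrix.mulVec_mulVec, h6, Matrix.mulVec_zero]
      -- on the other coordinates the operator is injective
      obtain ⟨k, hk⟩ := hA
      have key : ∀ (u : Fin (n + 1) → ℂ), (∀ i, lam i = l → u i = 0) → B.mulVec u = 0 → u = 0 := by
        intro u hu0 hBu
        by_contra hune
        -- restrict to one eigenvalue
        obtain ⟨i₀, hi₀⟩ : ∃ i, u i ≠ 0 := by
          by_contra hcon
          push Not at hcon
          exact hune (funext hcon)
        set μ := lam i₀ with hμ
        set x : Fin (n + 1) → ℂ := fun i => if lam i = μ then u i else 0 with hx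
        have hμl : μ - l ≠ 0 := by
          intro h0
          exact hi₀ (hu0 i₀ (sub_eq_zero.1 h0))
        have hAx : A.mulVec x = (-(μ - l)) • x := by
          funext i
          rw [Pi.smul_apply, smul_eq_mul]
          by_cases hi : lam i = μ
          · have h6 := congrFun hBu i
            rw [hB, Matrix.add_mulVec, Pi.add_apply, Matrix.mulVec_diagonal, Pi.zero_apply] at h6
            have h7 : A.mulVec x i = A.mulVec u i := by
              simp only [Matrix.mulVec, dotProduct]
              refine Finset.sum_congr rfl fun b _ => ?_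
              by_cases hb : A i b = 0
              · rw [hb, zero_mul, zero_mul]
              · have h8 : lam b = μ := by rw [← hent i b hb, hi]
                simp only [hx, if_pos h8]
            rw [h7]
            simp only [hx, if_pos hi]
            rw [← hi]
            linear_combination h6
          · have h7 : A.mulVec x i = 0 := by
              simp only [Matrix.mulVec, dotProduct]
              refine Finset.sum_eq_zero fun b _ => ?_
              by_cases hb : A i b = 0
              · rw [hb, zero_mul]
              · have h8 : ¬ lam b = μ := by rw [← hent i b hb]; exact hi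
                simp only [hx, if_neg h8, mul_zero]
            rw [h7]
            simp only [hx, if_neg hi, mul_zero]
        have hAk : ∀ k : ℕ, (A ^ k).mulVec x = ((-(μ - l)) ^ k) • x := by
          intro k
          induction k with
          | zero => rw [pow_zero, pow_zero, Matrix.one_mulVec, one_smul]
          | succ k ih =>
            rw [pow_succ', ← Matrix.mulVec_mulVec, ih, Matrix.mulVec_smul, hAx, smul_smul,
              ← pow_succ]
        have h9 := hAk k
        rw [hk, Matrix.zero_mulVec] at h9
        have h10 := congrFun h9 i₀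
        rw [Pi.zero_apply, Pi.smul_apply, smul_eq_mul] at h10
        have h11 : x i₀ = u i₀ := by simp only [hx, if_pos hμ.symm]
        rw [h11] at h10
        exact (mul_ne_zero (pow_ne_zero _ (neg_ne_zero.2 hμl)) hi₀) h10.symm
      have hpres : ∀ (u : Fin (n + 1) → ℂ), (∀ i, lam i = l → u i = 0) →
          ∀ i, lam i = l → B.mulVec u i = 0 := by
        intro u hu0 i hi
        rw [hB, Matrix.add_mulVec, Pi.add_apply, Matrix.mulVec_diagonal, hu0 i hi, mul_zero,
          zero_add]
        simp only [Matrix.mulVec, dotProduct]
        refine Finset.sum_eq_zero fun b _ => ?_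
        by_cases hb : A i b = 0
        · rw [hb, zero_mul]
        · rw [hu0 b (by rw [← hent i b hb, hi]), mul_zero]
      have hinj : ∀ (k : ℕ) (u : Fin (n + 1) → ℂ), (∀ i, lam i = l → u i = 0) →
          (B ^ k).mulVec u = 0 → u = 0 := by
        intro k
        induction k with
        | zero => intro u _ h; rwa [pow_zero, Matrix.one_mulVec] at h
        | succ k ih =>
          intro u hu0 h
          rw [pow_succ, ← Matrix.mulVec_mulVec] at h
          exact key u hu0 (ih _ (hpres u hu0) h)
      have h12 := hinj j _ hu h5
      have h13 : v = 0 := by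
        have h14 := congrArg P.mulVec h12
        rw [Matrix.mulVec_mulVec, h1, Matrix.one_mulVec, Matrix.mulVec_zero] at h14
        exact h14
      rw [Submodule.mem_bot]
      exact Subtype.ext h13
    have h5 := LinearMap.finrank_le_finrank_of_injective hF
    rw [Module.finrank_fintype_fun_eq_card, Fintype.card_coe] at h5
    exact le_trans h3 h5
  obtain ⟨i₀, i₁, i₂, hi₀, hi₁, hi₂, h01, h02, h12⟩ := Finset.two_lt_card_iff.1 (by omega : 2 < I.card)
  rw [hI, Finset.mem_filter] at hi₀ hi₁ hi₂
  exact three_eig hn O h1 h4 hc hA h01 h02 h12 (by rw [hi₁.2, hi₀.2]) (by rw [hi₂.2, hi₀.2])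
    (j := m) (by rw [hi₀.2]; exact hm)

end Pool.Agent.W615
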