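import Pool.Agent.W615.X1

/-!
# The trace of an operator; families of generalised eigensections (helper615)
-/

set_option autoImplicit false
set_option maxHeartbeats 400000

open MvPolynomial H960VB H938TB

namespace Pool.Agent.W615

variable {n : ℕ} {E : Bundle2 n} {N : Matrix (Fin (n + 1)) (Fin (n + 1)) ℂ}
variable (O : Op E N) (W : Wedge (triv E))

theorem exists_sec_ne (x : Fin (n + 1) → ℂ) (hx : x ≠ 0) :
    ∃ (a b : ℤ) (G G' : Vec E.a n), Sec E a G ∧ Sec E b G' ∧ eval x (W.wd G G') ≠ 0 := by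
  obtain ⟨τ, τ', G, G', hG, hG', h⟩ := exists_ne W x hx
  exact ⟨τ.1, τ'.1, G, G', sec_of_isSection (isSection hG), sec_of_isSection (isSection hG'), h⟩

theorem vf_homZ (N : Matrix (Fin (n + 1)) (Fin (n + 1)) ℂ) {p : MvPolynomial (Fin (n + 1)) ℂ}
    {e : ℤ} (hp : HomZ p e) : HomZ (vf N p) e := by
  have h1 := der_hom (vf_hom0 N) (wh_triv hp)
  have h2 := homZ_of h1
  simpa using h2

theorem Op.Phi_wh {a b : ℤ} {s t : Vec E.a n} (hs : Sec E a s) (ht : Sec E b t) :
    IsWeightedHomogeneous (tw (0 : Fin (n + 1) → ℤ × ℤ)) (O.Phi W s t)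
      ((a + b + W.κ.1, 0) : M) := by
  have h1 := wh_triv (wd_homZ W (O.sec _ _ hs) ht)
  have h2 := wh_triv (wd_homZ W hs (O.sec _ _ ht))
  have h3 := wh_triv (vf_homZ N (wd_homZ W hs ht))
  exact (h1.add h2).sub h3

/-- the operator is a derivation of the wedge product up to a constant. -/
theorem Op.trace (hn : 1 ≤ n) : ∃ θ : ℂ, ∀ (a b : ℤ) (s t : Vec E.a n), Sec E a s → Sec E b t →
    W.wd (O.D s) t + W.wd s (O.D t) = vf N (W.wd s t) + C θ * W.wd s t := by
  obtain ⟨a, b, G, G', hG, hG', hp⟩ := exists_sec_ne W (fun _ => 1)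
    (fun h => by simpa using congrFun h 0)
  have h0 : W.wd G G' ≠ 0 := fun h0 => hp (by rw [h0, map_zero])
  have hd : W.wd G G' ∣ O.Phi W G G' := by
    refine dvd_of_primes h0 fun π hπ _ => ?_
    obtain ⟨v, hv, hv0⟩ := no_isolated_prime (by omega) π hπ
    obtain ⟨a', b', H, H', hH, hH', h2⟩ := exists_sec_ne W v hv
    refine ⟨W.wd H H', O.Phi W H H', ?_, ?_⟩
    · have := O.cross W hG hG' hH hH'
      linear_combination this
    · rintro ⟨q, hq⟩
      apply h2
      rw [hq, map_mul, hv0, zero_mul]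
  obtain ⟨f, hf⟩ := hd
  have key : ∃ θ : ℂ, f = C θ := by
    by_cases hf0 : f = 0
    · exact ⟨0, by rw [hf0, C_0]⟩
    · have h1 := O.Phi_wh W hG hG'
      rw [hf] at h1
      obtain ⟨e, e', hee, he, he'⟩ := hom_of_mul _ h1 (mul_ne_zero h0 hf0)
      have h2 : e = (a + b + W.κ.1, 0) := he.inj_right h0 (wh_triv (wd_homZ W hG hG'))
      rw [h2] at hee
      have h3 : e' = 0 := by
        have := add_left_cancel (a := ((a + b + W.κ.1, 0) : M)) (b := e') (c := 0)
          (by rw [hee, add_zero])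
        exact this
      obtain ⟨c, -, hc⟩ := const_of_degree_zero he' hf0 (by rw [h3]; rfl)
      exact ⟨c, hc⟩
  obtain ⟨θ, rfl⟩ := key
  refine ⟨θ, fun a' b' s t hs ht => ?_⟩
  have h1 := O.cross W hG hG' hs ht
  rw [hf] at h1
  have h2 : O.Phi W s t = C θ * W.wd s t := by
    apply mul_right_cancel₀ h0
    rw [h1]
    ring
  unfold Op.Phi at h2
  linear_combination h2

/-- the space of the sections of `E(d)` -/
def S0 (E : Bundle2 n) (d : ℤ) : Submodule ℂ (Vec E.a n) where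
  carrier := {G | Sec E d G}
  add_mem' := fun h h' => sec_add h h'
  zero_mem' := sec_zero
  smul_mem' := by
    intro c G h
    have h1 := sec_mul (Or.inr ⟨0, rfl, isHomogeneous_C _ c⟩ :
      HomZ (C c : MvPolynomial (Fin (n + 1)) ℂ) 0) h
    rw [zero_add] at h1
    have h2 : c • G = fun i => C c * G i := by
      funext i
      rw [Pi.smul_apply, smul_eq_C_mul]
    show Sec E d (c • G)
    rw [h2]
    exact h1

theorem mem_S0 {d : ℤ} {G : Vec E.a n} : G ∈ S0 E d ↔ Sec E d G := Iff.rfl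

instance S0_fin (d : ℤ) : FiniteDimensional ℂ (S0 E d) := by
  have hfin : ∀ k : ℕ, FiniteDimensional ℂ (homogeneousSubmodule (Fin (n + 1)) ℂ k) := by
    intro k
    exact Module.Finite.iff_fg.2 (homogeneousSubmodule_fg (Fin (n + 1)) ℂ k)
  let φ : S0 E d →ₗ[ℂ] ((i : Fin E.a) → homogeneousSubmodule (Fin (n + 1)) ℂ (E.β i + d).toNat) :=
    LinearMap.pi fun i => ((LinearMap.proj i).comp (S0 E d).subtype).codRestrict _ (by
      rintro ⟨G, hG⟩
      rw [mem_homogeneousSubmodule]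
      show (G i).IsHomogeneous _
      rcases (hG : Sec E d G).homZ i with h | ⟨k, hk, hh⟩
      · rw [h]
        exact isHomogeneous_zero _ _ _
      · rw [← hk, Int.toNat_natCast]
        exact hh)
  refine FiniteDimensional.of_injective φ ?_
  rintro ⟨G, hG⟩ ⟨G', hG'⟩ h
  apply Subtype.ext
  funext i
  have h1 := congrArg (fun z => (z i : MvPolynomial (Fin (n + 1)) ℂ)) h
  exact h1

/-- the operator as a linear map -/
noncomputable def Op.lin (d : ℤ) : S0 E d →ₗ[ℂ] S0 E d where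
  toFun G := ⟨O.D G, O.sec d G G.2⟩
  map_add' G H := by
    apply Subtype.ext
    exact O.add d G H G.2 H.2
  map_smul' c G := by
    apply Subtype.ext
    have h1 := O.smul_sec G.2 c
    have h2 : ∀ H : Vec E.a n, c • H = fun i => C c * H i := by
      intro H
      funext i
      rw [Pi.smul_apply, smul_eq_C_mul]
    show O.D (c • (G : Vec E.a n)) = c • O.D G
    rw [h2, h2, h1]

/-- the wedge product as a bilinear map -/
noncomputable def wdB (d e : ℤ) :
    S0 E d →ₗ[ℂ] S0 E e →ₗ[ℂ] MvPolynomial (Fin (n + 1)) ℂ :=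
  LinearMap.mk₂ ℂ (fun G H => W.wd G H)
    (fun G G' H => wd_add_left W G.2.ker G'.2.ker H.2.ker)
    (fun c G H => by
      have h2 : ((c • G : S0 E d) : Vec E.a n) = fun i => C c * (G : Vec E.a n) i := by
        funext i
        rw [Submodule.coe_smul, Pi.smul_apply, smul_eq_C_mul]
      rw [h2, W.smul _ _ _ G.2.ker H.2.ker, smul_eq_C_mul])
    (fun G H H' => wd_add_right W H.2.ker H'.2.ker G.2.ker)
    (fun c G H => by
      have h2 : ((c • H : S0 E e) : Vec E.a n) = fun i => C c * (H : Vec E.a n) i := by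
        funext i
        rw [Submodule.coe_smul, Pi.smul_apply, smul_eq_C_mul]
      rw [h2, wd_mul_right W H.2.ker G.2.ker, smul_eq_C_mul])

theorem wdB_apply {d e : ℤ} (G : S0 E d) (H : S0 E e) : wdB W d e G H = W.wd G H := rfl

/-- a finite spanning family of generalised eigenvectors -/
theorem exists_ge_family {V : Type*} [AddCommGroup V] [Module ℂ V] [FiniteDimensional ℂ V]
    (f : V →ₗ[ℂ] V) : ∃ (r : ℕ) (v : Fin r → V) (ε : Fin r → ℂ) (k : Fin r → ℕ),
    (∀ j, ((f - ε j • 1) ^ k j) (v j) = 0) ∧ Submodule.span ℂ (Set.range v) = ⊤ := by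
  classical
  set t : Set V := {v | ∃ (μ : ℂ) (k : ℕ), ((f - μ • 1) ^ k) v = 0} with ht
  have h1 : Submodule.span ℂ t = ⊤ := by
    rw [eq_top_iff, ← Module.End.iSup_maxGenEigenspace_eq_top f]
    refine iSup_le fun μ v hv => Submodule.subset_span ?_
    rw [Module.End.mem_maxGenEigenspace] at hv
    obtain ⟨k, hk⟩ := hv
    exact ⟨μ, k, hk⟩
  obtain ⟨s, hs1, hs2⟩ := (Submodule.fg_span_iff_fg_span_finset_subset t).1
    (by rw [h1]; exact Module.Finite.fg_top)
  have hs3 : ∀ j : Fin s.card, ∃ (μ : ℂ) (k : ℕ), ((f - μ • 1) ^ k) (s.equivFin.symm j : V) = 0 :=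
    fun j => hs1 (s.equivFin.symm j).2
  choose ε k hk using hs3
  refine ⟨s.card, fun j => s.equivFin.symm j, ε, k, hk, ?_⟩
  rw [← h1, hs2]
  congr 1
  ext v
  constructor
  · rintro ⟨j, rfl⟩
    exact (s.equivFin.symm j).2
  · intro hv
    exact ⟨s.equivFin ⟨v, hv⟩, by simp⟩

/-- a degree in which the sections generate the bundle -/
theorem exists_deg : ∃ d : ℤ, ∀ x : Fin (n + 1) → ℂ, x ≠ 0 →
    ∃ G G' : Vec E.a n, Sec E d G ∧ Sec E d G' ∧ eval x (W.wd G G') ≠ 0 := by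
  classical
  set A : Set (MvPolynomial (Fin (n + 1)) ℂ) :=
    {p | ∃ (a b : ℤ) (G G' : Vec E.a n), Sec E a G ∧ Sec E b G' ∧ p = W.wd G G'} with hA
  obtain ⟨s, hs1, hs2⟩ := (Submodule.fg_span_iff_fg_span_finset_subset
    (R := MvPolynomial (Fin (n + 1)) ℂ) A).1 (IsNoetherian.noetherian _)
  have hs3 : ∀ p : s, ∃ (a b : ℤ) (G G' : Vec E.a n), Sec E a G ∧ Sec E b G' ∧
      (p : MvPolynomial (Fin (n + 1)) ℂ) = W.wd G G' := fun p => hs1 p.2
  choose a b G G' hG hG' hp using hs3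
  obtain ⟨d, hd⟩ : ∃ d : ℤ, ∀ p : s, a p ≤ d ∧ b p ≤ d := by
    obtain ⟨d1, h1⟩ := (Set.finite_range a).bddAbove
    obtain ⟨d2, h2⟩ := (Set.finite_range b).bddAbove
    exact ⟨max d1 d2, fun p => ⟨le_trans (h1 ⟨p, rfl⟩) (le_max_left _ _),
      le_trans (h2 ⟨p, rfl⟩) (le_max_right _ _)⟩⟩
  refine ⟨d, fun x hx => ?_⟩
  have h1 : ∃ p : s, eval x (p : MvPolynomial (Fin (n + 1)) ℂ) ≠ 0 := by
    by_contra hc
    push Not at hc
    obtain ⟨a', b', H, H', hH, hH', h2⟩ := exists_sec_ne W x hx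
    apply h2
    have h3 : W.wd H H' ∈ Submodule.span (MvPolynomial (Fin (n + 1)) ℂ)
        (s : Set (MvPolynomial (Fin (n + 1)) ℂ)) := by
      rw [← hs2]
      exact Submodule.subset_span ⟨a', b', H, H', hH, hH', rfl⟩
    have h4 : Submodule.span (MvPolynomial (Fin (n + 1)) ℂ)
        (s : Set (MvPolynomial (Fin (n + 1)) ℂ)) ≤ RingHom.ker (eval x) := by
      rw [Submodule.span_le]
      intro p hp
      exact hc ⟨p, hp⟩
    exact h4 h3
  obtain ⟨p, hp1⟩ := h1
  obtain ⟨i, hi⟩ : ∃ i, x i ≠ 0 := by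
    by_contra hc
    push Not at hc
    exact hx (funext hc)
  have hX : ∀ e : ℤ, e ≤ d → HomZ ((X i : MvPolynomial (Fin (n + 1)) ℂ) ^ (d - e).toNat)
      (d - e) := by
    intro e he
    right
    refine ⟨(d - e).toNat, Int.toNat_of_nonneg (by omega), ?_⟩
    have h2 := (isHomogeneous_X ℂ i).pow (d - e).toNat
    rwa [one_mul] at h2
  have k1 := sec_mul (hX _ (hd p).1) (hG p)
  have k2 := sec_mul (hX _ (hd p).2) (hG' p)
  rw [sub_add_cancel] at k1 k2
  refine ⟨_, _, k1, k2, ?_⟩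
  rw [W.smul _ _ _ (hG p).ker k2.ker, wd_mul_right W (hG' p).ker (hG p).ker, ← hp p, map_mul,
    map_mul, map_pow, map_pow, eval_X]
  exact mul_ne_zero (pow_ne_zero _ hi) (mul_ne_zero (pow_ne_zero _ hi) hp1)

end Pool.Agent.W615
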