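import Pool.Agent.W615.X2

/-!
# The Plücker presentation (helper615)
-/

set_option autoImplicit false
set_option maxHeartbeats 400000

open MvPolynomial H960VB H938TB

namespace Pool.Agent.W615

/-- an enumeration of the triples -/
noncomputable def ix (r : ℕ) :
    Fin (Fintype.card (Fin r × Fin r × Fin r)) ≃ Fin r × Fin r × Fin r :=
  (Fintype.equivFin _).symm

/-- the three term relations -/
noncomputable def plB {R : Type*} [AddCommGroup R] {r : ℕ} (Q : Fin r → Fin r → R)
    (t : Fin r × Fin r × Fin r) (l : Fin r) : R :=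
  (if l = t.1 then Q t.2.1 t.2.2 else 0) - (if l = t.2.1 then Q t.1 t.2.2 else 0) +
    (if l = t.2.2 then Q t.1 t.2.1 else 0)

theorem plB_sum {R : Type*} [CommRing R] {r : ℕ} (Q : Fin r → Fin r → R)
    (t : Fin r × Fin r × Fin r) (y : Fin r → R) :
    ∑ l, plB Q t l * y l = Q t.2.1 t.2.2 * y t.1 - Q t.1 t.2.2 * y t.2.1 + Q t.1 t.2.1 * y t.2.2 := by
  unfold plB
  simp only [add_mul, sub_mul, ite_mul, zero_mul, Finset.sum_add_distrib, Finset.sum_sub_distrib,
    Finset.sum_ite_eq', Finset.mem_univ, if_true]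

/-- a matrix of Plücker coordinates of a rank two bundle generated by its sections -/
structure PD (n : ℕ) where
  r : ℕ
  Q : Fin r → Fin r → MvPolynomial (Fin (n + 1)) ℂ
  e : ℤ
  hom : ∀ i j, HomZ (Q i j) e
  anti : ∀ i j, Q i j = - Q j i
  four : ∀ i j k l, Q i j * Q k l - Q i k * Q j l + Q i l * Q j k = 0
  gen : ∀ x : Fin (n + 1) → ℂ, x ≠ 0 → ∃ i j, eval x (Q i j) ≠ 0

theorem homZ_add {σ : Type*} {p q : MvPolynomial σ ℂ} {d : ℤ} (hp : HomZ p d) (hq : HomZ q d) :
    HomZ (p + q) d := by
  rcases hp with rfl | ⟨k, hk, hp⟩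
  · rwa [zero_add]
  · rcases hq with rfl | ⟨l, hl, hq⟩
    · rw [add_zero]
      exact Or.inr ⟨k, hk, hp⟩
    · obtain rfl : k = l := by omega
      exact Or.inr ⟨k, hk, hp.add hq⟩

theorem homZ_neg {σ : Type*} {p : MvPolynomial σ ℂ} {d : ℤ} (hp : HomZ p d) :
    HomZ (-p) d := by
  rcases hp with rfl | ⟨k, hk, hp⟩
  · rw [neg_zero]
    exact Or.inl rfl
  · exact Or.inr ⟨k, hk, hp.neg⟩

theorem homZ_ite {σ : Type*} {p : MvPolynomial σ ℂ} {d : ℤ} (c : Prop) [Decidable c]
    (hp : HomZ p d) : HomZ (if c then p else 0) d := by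
  split_ifs
  · exact hp
  · exact Or.inl rfl

/-- the kernel of the matrix of the three term relations -/
theorem plB_ker {r : ℕ} (q : Fin r → Fin r → ℂ) (anti : ∀ i j, q i j = - q j i)
    (four : ∀ i j k l, q i j * q k l - q i k * q j l + q i l * q j k = 0)
    {a b : Fin r} (hab : q a b ≠ 0) {c : ℕ} (B : Matrix (Fin c) (Fin r) ℂ)
    (t : Fin c → Fin r × Fin r × Fin r) (ht : Function.Surjective t)
    (hB : ∀ k l, B k l = plB q (t k) l) :
    Module.finrank ℂ (LinearMap.ker (Matrix.mulVecLin B)) = 2 := by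
  have haa : ∀ i, q i i = 0 := by
    intro i
    have h := anti i i
    have h2 : (2 : ℂ) * q i i = 0 := by linear_combination h
    exact (mul_eq_zero.1 h2).resolve_left two_ne_zero
  have hmem : ∀ y : Fin r → ℂ, y ∈ LinearMap.ker (Matrix.mulVecLin B) ↔
      ∀ i j k, q j k * y i - q i k * y j + q i j * y k = 0 := by
    intro y
    rw [LinearMap.mem_ker, Matrix.mulVecLin_apply]
    constructor
    · intro h i j k
      obtain ⟨s, hs⟩ := ht (i, j, k)
      have h1 := congrFun h s
      have h2 : (B.mulVec y) s = ∑ l, plB q (t s) l * y l := by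
        simp only [Matrix.mulVec, dotProduct, hB]
      rw [h2, plB_sum, hs] at h1
      exact h1
    · intro h
      funext s
      have h2 : (B.mulVec y) s = ∑ l, plB q (t s) l * y l := by
        simp only [Matrix.mulVec, dotProduct, hB]
      rw [h2, plB_sum]
      exact h _ _ _
  set ua : Fin r → ℂ := fun i => q i a with hua
  set ub : Fin r → ℂ := fun i => q i b with hub
  have hli : LinearIndependent ℂ ![ua, ub] := by
    rw [T3aux.li_iff]
    refine ⟨a, b, ?_⟩
    show q a a * q b b - q b a * q a b ≠ 0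
    rw [haa, zero_mul, zero_sub, anti b a, neg_mul, neg_neg]
    exact mul_ne_zero hab hab
  have hspan : LinearMap.ker (Matrix.mulVecLin B) = Submodule.span ℂ (Set.range ![ua, ub]) := by
    apply le_antisymm
    · intro y hy
      rw [hmem] at hy
      have hy2 : y = (-(y b) / q a b) • ua + (y a / q a b) • ub := by
        funext i
        have h1 := hy i a b
        simp only [Pi.add_apply, Pi.smul_apply, smul_eq_mul, hua, hub]
        field_simp
        linear_combination h1
      rw [hy2]
      exact Submodule.add_mem _ (Submodule.smul_mem _ _ (Submodule.subset_span ⟨0, rfl⟩))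
        (Submodule.smul_mem _ _ (Submodule.subset_span ⟨1, rfl⟩))
    · rw [Submodule.span_le]
      rintro _ ⟨s, rfl⟩
      fin_cases s
      · show ua ∈ LinearMap.ker (Matrix.mulVecLin B)
        rw [hmem]
        intro i j k
        have h1 := four i j k a
        simp only [hua]
        linear_combination h1
      · show ub ∈ LinearMap.ker (Matrix.mulVecLin B)
        rw [hmem]
        intro i j k
        have h1 := four i j k b
        simp only [hub]
        linear_combination h1
  rw [hspan, finrank_span_eq_card hli, Fintype.card_fin]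

theorem map_plB {n r : ℕ} (Q : Fin r → Fin r → MvPolynomial (Fin (n + 1)) ℂ)
    (x : Fin (n + 1) → ℂ) (t : Fin r × Fin r × Fin r) (l : Fin r) :
    eval x (plB Q t l) = plB (fun i j => eval x (Q i j)) t l := by
  unfold plB
  split_ifs <;> simp

/-- the bundle given by Plücker coordinates -/
noncomputable def PD.bun {n : ℕ} (P : PD n) : Bundle2 n where
  a := P.r
  c := Fintype.card (Fin P.r × Fin P.r × Fin P.r)
  β := fun _ => 0
  γ := fun _ => P.e
  B := fun k l => plB P.Q (ix P.r k) l
  hom := by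
    intro k l
    show HomZ (plB P.Q (ix P.r k) l) (P.e - 0)
    rw [sub_zero]
    unfold plB
    rw [sub_eq_add_neg]
    exact homZ_add (homZ_add (homZ_ite _ (P.hom _ _)) (homZ_neg (homZ_ite _ (P.hom _ _))))
      (homZ_ite _ (P.hom _ _))
  rank_two := by
    intro x hx
    obtain ⟨a, b, hab⟩ := P.gen x hx
    refine plB_ker (fun i j => eval x (P.Q i j)) (fun i j => ?_) (fun i j k l => ?_) hab _
      (ix P.r) (ix P.r).surjective (fun k l => ?_)
    · rw [P.anti i j, map_neg]
    · have h1 := congrArg (eval x) (P.four i j k l)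
      simpa using h1
    · exact map_plB _ _ _ _

theorem PD.ker_iff {n : ℕ} (P : PD n) (y : Vec P.r n) :
    Ker P.bun y ↔ ∀ i j k, P.Q j k * y i - P.Q i k * y j + P.Q i j * y k = 0 := by
  constructor
  · intro h i j k
    have h1 := h ((ix P.r).symm (i, j, k))
    have h2 : ∑ l, P.bun.B ((ix P.r).symm (i, j, k)) l * y l =
        ∑ l, plB P.Q (i, j, k) l * y l := by
      refine Finset.sum_congr rfl fun l _ => ?_
      show plB P.Q (ix P.r ((ix P.r).symm (i, j, k))) l * y l = _
      rw [Equiv.apply_symm_apply]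
    rw [h2, plB_sum] at h1
    exact h1
  · intro h k
    have h2 : ∑ l, P.bun.B k l * y l = ∑ l, plB P.Q (ix P.r k) l * y l := rfl
    rw [h2, plB_sum]
    exact h _ _ _

/-! ### transfer of splittings -/

theorem homZ_div {n : ℕ} {f g : MvPolynomial (Fin (n + 1)) ℂ} {a c : ℤ} (hf0 : f ≠ 0)
    (hf : HomZ f a) (h : HomZ (f * g) c) : HomZ g (c - a) := by
  by_cases hg : g = 0
  · exact Or.inl hg
  · obtain ⟨e, e', hee, he, he'⟩ := hom_of_mul _ (wh_triv h) (mul_ne_zero hf0 hg)
    have h2 : e = ((a, 0) : M) := he.inj_right hf0 (wh_triv hf)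
    have h3 := homZ_of he'
    have h4 := congrArg Prod.fst hee
    rw [Prod.fst_add, h2] at h4
    have h5 : e'.1 = c - a := by
      simp only at h4
      omega
    rwa [h5] at h3

variable {n : ℕ} {E : Bundle2 n} (W : Wedge (triv E))

/-- a section is determined by its products with a generating family. -/
theorem zero_of_wd {r : ℕ} {s : Fin r → Vec E.a n} (hs : ∀ j, Ker E (s j)) {a b : Fin r}
    (hab : W.wd (s a) (s b) ≠ 0) {H : Vec E.a n} (hH : Ker E H) (h : ∀ i, W.wd (s i) H = 0) :
    ∀ k, H k = 0 := by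
  by_contra hc
  push Not at hc
  rcases wd_ne_or W (hs a) (hs b) hH hab hc with h1 | h1
  · exact h1 (h a)
  · exact h1 (h b)

theorem lift_sec (hn : 1 ≤ n) (P : PD n) {d : ℤ} {s : Fin P.r → Vec E.a n}
    (hs : ∀ j, Sec E d (s j)) (hQ : ∀ i j, P.Q i j = W.wd (s i) (s j)) {e : ℤ} {y : Vec P.r n}
    (hy : P.bun.IsSection e y) :
    ∃ x : Vec E.a n, Sec E (e - d - W.κ.1) x ∧ ∀ i, W.wd (s i) x = y i := by
  have hyk := (P.ker_iff y).1 (sec_of_isSection hy).ker
  obtain ⟨a, b, hab'⟩ := P.gen (fun _ => 1) (fun h => by simpa using congrFun h 0)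
  have hab : P.Q a b ≠ 0 := fun h => hab' (by rw [h, map_zero])
  -- the numerators
  have hnum : ∀ c d', Ker E (fun k => y c * s d' k - y d' * s c k) := fun c d' =>
    ker_sub (ker_mul (hs d').ker _) (ker_mul (hs c).ker _)
  have hnw : ∀ c d' i, W.wd (s i) (fun k => y c * s d' k - y d' * s c k) = P.Q c d' * y i := by
    intro c d' i
    rw [wd_sub_right W (ker_mul (hs d').ker _) (ker_mul (hs c).ker _) (hs i).ker,
      wd_mul_right W (hs d').ker (hs i).ker, wd_mul_right W (hs c).ker (hs i).ker, ← hQ, ← hQ]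
    have h1 := hyk i c d'
    linear_combination -h1
  have hdvd : ∀ k, P.Q a b ∣ y a * s b k - y b * s a k := by
    intro k
    refine dvd_of_primes hab fun π hπ _ => ?_
    obtain ⟨v, hv, hv0⟩ := no_isolated_prime (by omega) π hπ
    obtain ⟨c, d', hcd⟩ := P.gen v hv
    refine ⟨P.Q c d', y c * s d' k - y d' * s c k, ?_, ?_⟩
    · have h1 : Ker E (fun k => P.Q a b * (y c * s d' k - y d' * s c k) -
          P.Q c d' * (y a * s b k - y b * s a k)) :=
        ker_sub (ker_mul (hnum c d') _) (ker_mul (hnum a b) _)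
      have h2 := zero_of_wd W (fun j => (hs j).ker) (by rw [← hQ a b]; exact hab) h1 (by
        intro i
        rw [wd_sub_right W (ker_mul (hnum c d') _) (ker_mul (hnum a b) _) (hs i).ker,
          wd_mul_right W (hnum c d') (hs i).ker, wd_mul_right W (hnum a b) (hs i).ker, hnw, hnw]
        ring) k
      exact sub_eq_zero.1 h2
    · rintro ⟨q, hq⟩
      apply hcd
      rw [hq, map_mul, hv0, zero_mul]
  choose x hx using hdvd
  have hxk : Ker E x := by
    apply ker_of_mul hab
    have h1 : (fun i => P.Q a b * x i) = fun k => y a * s b k - y b * s a k := by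
      funext k
      rw [hx]
    rw [h1]
    exact hnum a b
  refine ⟨x, sec_of_isSection ⟨fun k => ?_, fun v _ => T3aux.ker_mem hxk v⟩, fun i => ?_⟩
  · have h1 : ∀ c d', HomZ (y c * s d' k) (e + (E.β k + d)) := by
      intro c d'
      have h2 : HomZ (y c) (0 + e) := hy.1 c
      rw [zero_add] at h2
      exact homZ_mul h2 ((hs d').homZ k)
    have h2 : HomZ (P.Q a b * x k) (e + (E.β k + d)) := by
      rw [← hx, sub_eq_add_neg]
      exact homZ_add (h1 _ _) (homZ_neg (h1 _ _))
    have h3 : HomZ (P.Q a b) (d + d + W.κ.1) := by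
      rw [hQ]
      exact wd_homZ W (hs a) (hs b)
    have h4 := homZ_div hab h3 h2
    convert h4 using 1
    ring
  · apply mul_left_cancel₀ hab
    rw [← wd_mul_right W hxk (hs i).ker, ← hnw a b i]
    congr 1
    funext k
    rw [hx]

theorem splits_transfer (hn : 1 ≤ n) (P : PD n) {d : ℤ} {s : Fin P.r → Vec E.a n}
    (hs : ∀ j, Sec E d (s j)) (hQ : ∀ i j, P.Q i j = W.wd (s i) (s j))
    (h : P.bun.Splits) : E.Splits := by
  obtain ⟨p, q, y₁, y₂, hy₁, hy₂, hli⟩ := h
  obtain ⟨x₁, hx₁, hw₁⟩ := lift_sec W hn P hs hQ hy₁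
  obtain ⟨x₂, hx₂, hw₂⟩ := lift_sec W hn P hs hQ hy₂
  refine ⟨p + d + W.κ.1, q + d + W.κ.1, x₁, x₂, ?_, ?_, fun v hv => ?_⟩
  · rw [← sec_iff]
    convert hx₁ using 1
    ring
  · rw [← sec_iff]
    convert hx₂ using 1
    ring
  · obtain ⟨k, l, hkl⟩ := W.P_ne v hv
    have h1 := hli v hv
    rw [LinearIndependent.pair_iff] at h1 ⊢
    intro α β hαβ
    apply h1 α β
    funext i
    have e1 := congrArg (eval v) (W.eq (s i) x₁ (hs i).ker hx₁.ker k l)
    have e2 := congrArg (eval v) (W.eq (s i) x₂ (hs i).ker hx₂.ker k l)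
    rw [hw₁, map_sub, map_mul, map_mul, map_mul] at e1
    rw [hw₂, map_sub, map_mul, map_mul, map_mul] at e2
    have f1 := congrFun hαβ k
    have f2 := congrFun hαβ l
    simp only [Pi.add_apply, Pi.smul_apply, smul_eq_mul, Pi.zero_apply, evv] at f1 f2 ⊢
    apply mul_right_cancel₀ hkl
    rw [zero_mul]
    linear_combination (-α) * e1 - β * e2 + eval v (s i k) * f2 - eval v (s i l) * f1

end Pool.Agent.W615
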