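import Pool.Agent.W615.X3

/-!
# Linear vector fields on the polynomial ring: semisimple and nilpotent parts (helper615)
-/

set_option autoImplicit false
set_option maxHeartbeats 400000

open MvPolynomial H960VB H938TB

namespace Pool.Agent.W615

variable {n : ℕ}

/-- the diagonal vector field on monomials -/
theorem vf_diag_monomial (lam : Fin (n + 1) → ℂ) (u : Fin (n + 1) →₀ ℕ) :
    vf (Matrix.diagonal lam) (monomial u (1 : ℂ)) =
      C (Finsupp.weight lam u) * monomial u (1 : ℂ) := by
  have hX : ∀ i, vf (Matrix.diagonal lam) (X i) = C (lam i) * X i := by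
    intro i
    rw [vf_X, Finset.sum_eq_single i]
    · rw [Matrix.diagonal_apply_eq]
    · intro j _ hj
      rw [Matrix.diagonal_apply_ne _ (Ne.symm hj), C_0, zero_mul]
    · intro h; exact absurd (Finset.mem_univ _) h
  induction u using Finsupp.induction_linear with
  | zero =>
    rw [map_zero, C_0, zero_mul]
    exact Derivation.map_one_eq_zero _
  | add u v hu hv =>
    have h1 : monomial (u + v) (1 : ℂ) = monomial u (1 : ℂ) * monomial v (1 : ℂ) := by
      rw [monomial_mul, one_mul]
    rw [h1, Derivation.leibniz, hu, hv, map_add, C_add, smul_eq_mul, smul_eq_mul]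
    ring
  | single i k =>
    have h1 : monomial (Finsupp.single i k) (1 : ℂ) = X i ^ k := by
      rw [X_pow_eq_monomial]
    rw [h1, Derivation.leibniz_pow, hX, Finsupp.weight_single, smul_eq_mul]
    rcases Nat.eq_zero_or_pos k with hk | hk
    · subst hk
      simp
    · obtain ⟨m, rfl⟩ : ∃ m, k = m + 1 := ⟨k - 1, by omega⟩
      rw [Nat.add_sub_cancel, nsmul_eq_mul, nsmul_eq_mul, C_mul, pow_succ]
      simp only [map_natCast]
      ring

theorem coeff_vf_diag (lam : Fin (n + 1) → ℂ) (p : MvPolynomial (Fin (n + 1)) ℂ)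
    (u : Fin (n + 1) →₀ ℕ) :
    coeff u (vf (Matrix.diagonal lam) p) = Finsupp.weight lam u * coeff u p := by
  induction p using MvPolynomial.induction_on' with
  | monomial v a =>
    have h1 : monomial v a = C a * monomial v (1 : ℂ) := by
      rw [C_mul_monomial, mul_one]
    rw [h1, Derivation.leibniz, derivation_C, smul_zero, add_zero, smul_eq_mul,
      vf_diag_monomial, coeff_C_mul, coeff_C_mul, coeff_C_mul]
    by_cases h : v = u
    · subst h
      ring
    · rw [coeff_monomial, if_neg h]
      ring
  | add p q hp hq => rw [map_add, coeff_add, coeff_add, hp, hq]; ring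

theorem wh_of_eig {lam : Fin (n + 1) → ℂ} {p : MvPolynomial (Fin (n + 1)) ℂ} {α : ℂ}
    (h : vf (Matrix.diagonal lam) p = C α * p) : IsWeightedHomogeneous lam p α := by
  intro u hu
  have h1 := coeff_vf_diag lam p u
  rw [h, coeff_C_mul] at h1
  exact (mul_right_cancel₀ hu h1).symm

theorem eig_of_wh {lam : Fin (n + 1) → ℂ} {p : MvPolynomial (Fin (n + 1)) ℂ} {α : ℂ}
    (h : IsWeightedHomogeneous lam p α) : vf (Matrix.diagonal lam) p = C α * p := by
  ext u
  rw [coeff_vf_diag, coeff_C_mul]
  by_cases hu : coeff u p = 0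
  · rw [hu, mul_zero, mul_zero]
  · rw [h hu]

/-- local nilpotency -/
theorem vf_locnil {N : Matrix (Fin (n + 1)) (Fin (n + 1)) ℂ} (hN : IsNilpotent N)
    (p : MvPolynomial (Fin (n + 1)) ℂ) :
    ∃ m : ℕ, ((vf N : Der n).toLinearMap ^ m : MvPolynomial (Fin (n + 1)) ℂ →ₗ[ℂ] _) p = 0 := by
  obtain ⟨k, hk⟩ := hN
  set f : MvPolynomial (Fin (n + 1)) ℂ →ₗ[ℂ] MvPolynomial (Fin (n + 1)) ℂ :=
    (vf N : Der n).toLinearMap with hf
  have hmono : ∀ (a b : ℕ) (q : MvPolynomial (Fin (n + 1)) ℂ), a ≤ b → (f ^ a) q = 0 →
      (f ^ b) q = 0 := by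
    intro a b q hab h
    obtain ⟨c, rfl⟩ := Nat.exists_eq_add_of_le hab
    rw [add_comm a c, pow_add, Module.End.mul_apply, h, map_zero]
  have hX : ∀ (m : ℕ) (i : Fin (n + 1)), (f ^ m) (X i) = ∑ j, C ((N ^ m) i j) * X j := by
    intro m
    induction m with
    | zero =>
      intro i
      rw [pow_zero, pow_zero, Module.End.one_apply, Finset.sum_eq_single i]
      · rw [Matrix.one_apply_eq, C_1, one_mul]
      · intro j _ hj
        rw [Matrix.one_apply_ne (Ne.symm hj), C_0, zero_mul]
      · intro h; exact absurd (Finset.mem_univ _) h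
    | succ m ih =>
      intro i
      rw [pow_succ', Module.End.mul_apply, ih, map_sum]
      have h1 : ∀ j, f (C ((N ^ m) i j) * X j) = ∑ l, C ((N ^ m) i j * N j l) * X l := by
        intro j
        show vf N (C ((N ^ m) i j) * X j) = _
        rw [Derivation.leibniz, derivation_C, smul_zero, add_zero, smul_eq_mul, vf_X,
          Finset.mul_sum]
        exact Finset.sum_congr rfl fun l _ => by rw [C_mul, mul_assoc]
      simp_rw [h1]
      rw [Finset.sum_comm]
      refine Finset.sum_congr rfl fun l _ => ?_
      rw [← Finset.sum_mul, ← map_sum, pow_succ, Matrix.mul_apply]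
  induction p using MvPolynomial.induction_on with
  | C a => exact ⟨1, by rw [pow_one]; exact derivation_C _ _⟩
  | add p q hp hq =>
    obtain ⟨a, ha⟩ := hp
    obtain ⟨b, hb⟩ := hq
    exact ⟨max a b, by rw [map_add, hmono _ _ _ (le_max_left a b) ha,
      hmono _ _ _ (le_max_right a b) hb, add_zero]⟩
  | mul_X p i hp =>
    obtain ⟨a, ha⟩ := hp
    have hb : (f ^ k) (X i) = 0 := by
      rw [hX, hk]
      simp
    have h1 := ge_bilin f f f (LinearMap.mul ℂ (MvPolynomial (Fin (n + 1)) ℂ)) 0 (by
      intro p q
      show vf N p * q + p * vf N q = vf N (p * q) + (0 : ℂ) • (p * q)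
      rw [Derivation.leibniz, zero_smul, smul_eq_mul, smul_eq_mul]
      ring) 0 0 (a + k) a k p (X i) le_rfl (by simpa using ha) (by simpa using hb)
    refine ⟨a + k, ?_⟩
    have e : f - ((0 : ℂ) + 0 - 0) • 1 = f := by simp
    rw [e] at h1
    exact h1

/-- a commuting nilpotent vector field preserves the weight spaces -/
theorem vf_wh {lam : Fin (n + 1) → ℂ} {N : Matrix (Fin (n + 1)) (Fin (n + 1)) ℂ}
    (hc : Matrix.diagonal lam * N = N * Matrix.diagonal lam)
    {p : MvPolynomial (Fin (n + 1)) ℂ} {α : ℂ} (h : IsWeightedHomogeneous lam p α) :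
    IsWeightedHomogeneous lam (vf N p) α := by
  have hij : ∀ i j, N i j ≠ 0 → lam j = lam i := by
    intro i j hne
    have h1 := congrFun (congrFun hc i) j
    rw [Matrix.diagonal_mul, Matrix.mul_diagonal] at h1
    have h2 : (lam j - lam i) * N i j = 0 := by linear_combination -h1
    exact sub_eq_zero.1 ((mul_eq_zero.1 h2).resolve_right hne)
  rw [der_eq_sum]
  refine IsWeightedHomogeneous.sum _ _ _ fun i _ => ?_
  have h1 : IsWeightedHomogeneous lam (pderiv i p) (α - lam i) := h.pderiv (by ring)
  have h2 : IsWeightedHomogeneous lam (vf N (X i)) (lam i) := by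
    rw [vf_X]
    refine IsWeightedHomogeneous.sum _ _ _ fun j _ => ?_
    by_cases h0 : N i j = 0
    · rw [h0, C_0, zero_mul]
      exact isWeightedHomogeneous_zero _ _ _
    · have h3 := (isWeightedHomogeneous_C lam (N i j)).mul (isWeightedHomogeneous_X ℂ lam j)
      rwa [zero_add, hij i j h0] at h3
  have h3 := h1.mul h2
  rwa [sub_add_cancel] at h3

/-- **generalised eigenvectors are weight vectors of the semisimple part.** -/
theorem wh_of_ge {lam : Fin (n + 1) → ℂ} {N : Matrix (Fin (n + 1)) (Fin (n + 1)) ℂ}
    (hc : Matrix.diagonal lam * N = N * Matrix.diagonal lam) (hN : IsNilpotent N)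
    {p : MvPolynomial (Fin (n + 1)) ℂ} {α : ℂ} {K : ℕ}
    (h : (((vf (Matrix.diagonal lam + N) : Der n).toLinearMap - α • 1 :
      MvPolynomial (Fin (n + 1)) ℂ →ₗ[ℂ] _) ^ K) p = 0) :
    IsWeightedHomogeneous lam p α := by
  classical
  have hadd : ∀ q, vf (Matrix.diagonal lam + N) q = vf (Matrix.diagonal lam) q + vf N q := by
    intro q
    rw [der_eq_sum, der_eq_sum (vf (Matrix.diagonal lam)), der_eq_sum (vf N),
      ← Finset.sum_add_distrib]
    refine Finset.sum_congr rfl fun i _ => ?_
    rw [vf_X, vf_X, vf_X, ← mul_add, ← Finset.sum_add_distrib]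
    congr 1
    refine Finset.sum_congr rfl fun j _ => ?_
    rw [Matrix.add_apply, C_add, add_mul]
  set f : MvPolynomial (Fin (n + 1)) ℂ →ₗ[ℂ] MvPolynomial (Fin (n + 1)) ℂ :=
    (vf (Matrix.diagonal lam + N) : Der n).toLinearMap - α • 1 with hf
  set g : MvPolynomial (Fin (n + 1)) ℂ →ₗ[ℂ] MvPolynomial (Fin (n + 1)) ℂ :=
    (vf N : Der n).toLinearMap with hg
  have hfa : ∀ q, f q = vf (Matrix.diagonal lam) q + vf N q - C α * q := by
    intro q
    rw [hf, LinearMap.sub_apply, LinearMap.smul_apply, Module.End.one_apply, smul_eq_C_mul]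
    show vf (Matrix.diagonal lam + N) q - _ = _
    rw [hadd]
  have hfw : ∀ (β : ℂ) (q), IsWeightedHomogeneous lam q β → IsWeightedHomogeneous lam (f q) β := by
    intro β q hq
    rw [hfa, eig_of_wh hq]
    have h1 : ∀ c : ℂ, IsWeightedHomogeneous lam (C c * q) β := by
      intro c
      have h2 := (isWeightedHomogeneous_C lam c).mul hq
      rwa [zero_add] at h2
    exact ((h1 β).add (vf_wh hc hq)).sub (h1 α)
  -- the components
  have hcomp : ∀ (β : ℂ) (q : MvPolynomial (Fin (n + 1)) ℂ),
      weightedHomogeneousComponent lam β (f q) = f (weightedHomogeneousComponent lam β q) := by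
    intro β q
    induction q using MvPolynomial.induction_on' with
    | monomial v a =>
      have h1 : IsWeightedHomogeneous lam (monomial v a) (Finsupp.weight lam v) :=
        isWeightedHomogeneous_monomial _ _ _ rfl
      by_cases h2 : Finsupp.weight lam v = β
      · rw [h2] at h1
        rw [h1.weightedHomogeneousComponent_same, (hfw _ _ h1).weightedHomogeneousComponent_same]
      · rw [h1.weightedHomogeneousComponent_ne β (Ne.symm h2),
          (hfw _ _ h1).weightedHomogeneousComponent_ne β (Ne.symm h2), map_zero]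
    | add p q hp hq => rw [map_add, map_add, map_add, map_add, hp, hq]
  have hpow : ∀ (m : ℕ) (β : ℂ) (q : MvPolynomial (Fin (n + 1)) ℂ),
      weightedHomogeneousComponent lam β ((f ^ m) q) =
        (f ^ m) (weightedHomogeneousComponent lam β q) := by
    intro m
    induction m with
    | zero =>
      intro β q
      rw [pow_zero, Module.End.one_apply, Module.End.one_apply]
    | succ m ih =>
      intro β q
      rw [pow_succ, Module.End.mul_apply, Module.End.mul_apply, ih, hcomp]
  -- components of weight different from α vanish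
  have key : ∀ β : ℂ, β ≠ α → weightedHomogeneousComponent lam β p = 0 := by
    intro β hβ
    by_contra hq0
    set q := weightedHomogeneousComponent lam β p with hq
    have hqw : IsWeightedHomogeneous lam q β :=
      weightedHomogeneousComponent_isWeightedHomogeneous _ _
    have hq1 : (f ^ K) q = 0 := by
      rw [hq, ← hpow, h, map_zero]
    obtain ⟨m, hm⟩ := vf_locnil hN q
    -- minimal power
    obtain ⟨m, hm1, hm2⟩ : ∃ m, (g ^ m) q ≠ 0 ∧ g ((g ^ m) q) = 0 := by
      by_contra hc'
      push Not at hc'
      have h3 : ∀ m, (g ^ m) q ≠ 0 := by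
        intro m
        induction m with
        | zero => rwa [pow_zero, Module.End.one_apply]
        | succ m ih =>
          rw [pow_succ', Module.End.mul_apply]
          exact hc' m ih
      exact h3 m hm
    -- f and g commute on the weight space
    have hgw : ∀ (i : ℕ) (r), IsWeightedHomogeneous lam r β →
        IsWeightedHomogeneous lam ((g ^ i) r) β := by
      intro i
      induction i with
      | zero => intro r hr; rwa [pow_zero, Module.End.one_apply]
      | succ i ih =>
        intro r hr
        rw [pow_succ', Module.End.mul_apply]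
        exact vf_wh hc (ih r hr)
    have hfr : ∀ r, IsWeightedHomogeneous lam r β → f r = C (β - α) * r + g r := by
      intro r hr
      rw [hfa, eig_of_wh hr, C_sub]
      show _ + g r - _ = _
      ring
    have hgC : ∀ (c : ℂ) (r), g (C c * r) = C c * g r := by
      intro c r
      rw [← smul_eq_C_mul, map_smul, smul_eq_C_mul]
    have hfg : ∀ r, IsWeightedHomogeneous lam r β → f (g r) = g (f r) := by
      intro r hr
      have hgv : IsWeightedHomogeneous lam (g r) β := vf_wh hc hr
      rw [hfr _ hgv, hfr r hr, map_add, hgC]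
    have hfgm : ∀ (i : ℕ) (r), IsWeightedHomogeneous lam r β → f ((g ^ i) r) = (g ^ i) (f r) := by
      intro i
      induction i with
      | zero => intro r _; rw [pow_zero, Module.End.one_apply, Module.End.one_apply]
      | succ i ih =>
        intro r hr
        rw [pow_succ', Module.End.mul_apply, Module.End.mul_apply, hfg _ (hgw i r hr), ih r hr]
    have hfKw : ∀ (j : ℕ) (r), IsWeightedHomogeneous lam r β →
        IsWeightedHomogeneous lam ((f ^ j) r) β := by
      intro j
      induction j with
      | zero => intro r hr; rwa [pow_zero, Module.End.one_apply]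
      | succ j ih =>
        intro r hr
        rw [pow_succ', Module.End.mul_apply]
        exact hfw _ _ (ih r hr)
    have h5 : ∀ (j : ℕ), (f ^ j) ((g ^ m) q) = (g ^ m) ((f ^ j) q) := by
      intro j
      induction j with
      | zero => rw [pow_zero, Module.End.one_apply, Module.End.one_apply]
      | succ j ih =>
        rw [pow_succ', Module.End.mul_apply, Module.End.mul_apply, ih,
          hfgm m _ (hfKw j q hqw)]
    have h6 : ∀ j : ℕ, (f ^ j) ((g ^ m) q) = C ((β - α) ^ j) * (g ^ m) q := by
      intro j
      induction j with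
      | zero => rw [pow_zero, Module.End.one_apply, pow_zero, C_1, one_mul]
      | succ j ih =>
        rw [pow_succ', Module.End.mul_apply, ih]
        have h7 : f (C ((β - α) ^ j) * (g ^ m) q) = C ((β - α) ^ j) * f ((g ^ m) q) := by
          rw [← smul_eq_C_mul, map_smul, smul_eq_C_mul]
        rw [h7, hfr _ (hgw m q hqw), hm2, add_zero, pow_succ, C_mul, mul_assoc]
    have h7 := h5 K
    rw [h6, hq1, map_zero] at h7
    rcases mul_eq_zero.1 h7 with h8 | h8
    · rw [C_eq_zero] at h8
      exact pow_ne_zero _ (sub_ne_zero.2 hβ) h8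
    · exact hm1 h8
  intro u hu
  by_contra hne
  have h1 := congrArg (coeff u) (key _ hne)
  rw [coeff_weightedHomogeneousComponent, if_pos rfl, coeff_zero] at h1
  exact hu h1

end Pool.Agent.W615
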