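import Pool.Agent.W615.X4

/-!
# The Jordan decomposition of a linear vector field (helper615)
-/

set_option autoImplicit false
set_option maxHeartbeats 400000

open MvPolynomial H960VB H938TB

namespace Pool.Agent.W615

/-- the Jordan decomposition of a matrix, in coordinates. -/
theorem exists_jordan {m : ℕ} (N : Matrix (Fin m) (Fin m) ℂ) :
    ∃ (P P' : Matrix (Fin m) (Fin m) ℂ) (lam : Fin m → ℂ) (A : Matrix (Fin m) (Fin m) ℂ),
      P * P' = 1 ∧ P' * P = 1 ∧ P' * N * P = Matrix.diagonal lam + A ∧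
      Matrix.diagonal lam * A = A * Matrix.diagonal lam ∧ IsNilpotent A := by
  classical
  obtain ⟨g, hg, s, hs, hnil, hss, hf⟩ := Module.End.exists_isNilpotent_isSemisimple
    (f := (Matrix.toLin' N : (Fin m → ℂ) →ₗ[ℂ] (Fin m → ℂ)))
  have hcomm : Commute g s := by
    have h1 : Commute g (Matrix.toLin' N) :=
      (Algebra.commute_of_mem_adjoin_singleton_of_commute hg (Commute.refl _)).symm
    exact Algebra.commute_of_mem_adjoin_singleton_of_commute hs h1
  set t : Set (Fin m → ℂ) := {v | ∃ μ : ℂ, s v = μ • v} with ht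
  have h1 : Submodule.span ℂ t = ⊤ := by
    rw [eq_top_iff, ← hss.iSup_eigenspace_eq_top]
    refine iSup_le fun μ v hv => Submodule.subset_span ?_
    exact ⟨μ, Module.End.mem_eigenspace_iff.1 hv⟩
  obtain ⟨b, hb1, hb2, hb3⟩ := exists_linearIndependent ℂ t
  let bas₀ : Module.Basis b ℂ (Fin m → ℂ) := Module.Basis.mk hb3 (by
    rw [Subtype.range_coe, hb2, h1])
  have hbas₀ : ∀ v : b, bas₀ v = (v : Fin m → ℂ) := fun v => Module.Basis.mk_apply _ _ _
  let _ : Fintype b := FiniteDimensional.fintypeBasisIndex bas₀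
  have hcard : Fintype.card b = m := by
    rw [← Module.finrank_eq_card_basis bas₀, Module.finrank_fintype_fun_eq_card, Fintype.card_fin]
  let e : b ≃ Fin m := Fintype.equivFinOfCardEq hcard
  let bas := bas₀.reindex e
  have hbas : ∀ j, ∃ μ : ℂ, s (bas j) = μ • bas j := by
    intro j
    have h2 : bas j = (e.symm j : Fin m → ℂ) := by
      rw [Module.Basis.reindex_apply, hbas₀]
    rw [h2]
    exact hb1 (e.symm j).2
  choose lam hlam using hbas
  refine ⟨(Pi.basisFun ℂ (Fin m)).toMatrix bas, bas.toMatrix (Pi.basisFun ℂ (Fin m)), lam,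
    LinearMap.toMatrixAlgEquiv bas g, ?_, ?_, ?_, ?_, ?_⟩
  · exact Module.Basis.toMatrix_mul_toMatrix_flip _ _
  · exact Module.Basis.toMatrix_mul_toMatrix_flip _ _
  · have h2 := basis_toMatrix_mul_linearMap_toMatrix_mul_basis_toMatrix (b := bas) (b' :=
      Pi.basisFun ℂ (Fin m)) (c := bas) (c' := Pi.basisFun ℂ (Fin m)) (f := Matrix.toLin' N)
    have h3 : LinearMap.toMatrix (Pi.basisFun ℂ (Fin m)) (Pi.basisFun ℂ (Fin m))
        (Matrix.toLin' N) = N := by
      rw [LinearMap.toMatrix_eq_toMatrix', LinearMap.toMatrix'_toLin']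
    rw [h3] at h2
    rw [h2, hf, map_add, add_comm]
    congr 1
    ext i j
    rw [LinearMap.toMatrix_apply, hlam, map_smul, Finsupp.smul_apply, Module.Basis.repr_self,
      Finsupp.single_apply, Matrix.diagonal_apply, smul_eq_mul]
    by_cases hij : j = i
    · rw [if_pos hij, if_pos hij.symm, mul_one, hij]
    · rw [if_neg hij, if_neg (Ne.symm hij), mul_zero]
  · have h4 : Matrix.diagonal lam = LinearMap.toMatrixAlgEquiv bas s := by
      ext i j
      rw [LinearMap.toMatrixAlgEquiv_apply, hlam, map_smul, Finsupp.smul_apply,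
        Module.Basis.repr_self, Finsupp.single_apply, Matrix.diagonal_apply, smul_eq_mul]
      by_cases hij : j = i
      · rw [if_pos hij, if_pos hij.symm, mul_one, hij]
      · rw [if_neg hij, if_neg (Ne.symm hij), mul_zero]
    rw [h4, ← map_mul, ← map_mul]
    congr 1
    exact hcomm.symm
  · exact hnil.map (LinearMap.toMatrixAlgEquiv bas)

variable {n : ℕ}

theorem vf_add (A B : Matrix (Fin (n + 1)) (Fin (n + 1)) ℂ) (p : MvPolynomial (Fin (n + 1)) ℂ) :
    vf (A + B) p = vf A p + vf B p := by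
  rw [der_eq_sum (vf (A + B)), der_eq_sum (vf A), der_eq_sum (vf B), ← Finset.sum_add_distrib]
  refine Finset.sum_congr rfl fun i _ => ?_
  rw [vf_X, vf_X, vf_X, ← mul_add, ← Finset.sum_add_distrib]
  congr 1
  refine Finset.sum_congr rfl fun j _ => ?_
  rw [Matrix.add_apply, C_add, add_mul]

theorem vf_smul (c : ℂ) (A : Matrix (Fin (n + 1)) (Fin (n + 1)) ℂ)
    (p : MvPolynomial (Fin (n + 1)) ℂ) : vf (c • A) p = C c * vf A p := by
  rw [der_eq_sum, der_eq_sum (vf A), Finset.mul_sum]
  refine Finset.sum_congr rfl fun i _ => ?_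
  have h : ∑ j, C ((c • A) i j) * X j = C c * ∑ j, C (A i j) * (X j :
      MvPolynomial (Fin (n + 1)) ℂ) := by
    rw [Finset.mul_sum]
    refine Finset.sum_congr rfl fun j _ => ?_
    rw [Matrix.smul_apply, smul_eq_mul, C_mul, mul_assoc]
  rw [vf_X, vf_X, h]
  ring

theorem vf_vf_X (A B : Matrix (Fin (n + 1)) (Fin (n + 1)) ℂ) (i : Fin (n + 1)) :
    vf A (vf B (X i)) = ∑ j, C ((B * A) i j) * X j := by
  rw [vf_X, map_sum]
  have h1 : ∀ j, vf A (C (B i j) * X j) = ∑ l, C (B i j * A j l) * X l := by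
    intro j
    rw [Derivation.leibniz, derivation_C, smul_zero, add_zero, smul_eq_mul, vf_X,
      Finset.mul_sum]
    exact Finset.sum_congr rfl fun l _ => by rw [C_mul, mul_assoc]
  simp_rw [h1]
  rw [Finset.sum_comm]
  refine Finset.sum_congr rfl fun l _ => ?_
  rw [← Finset.sum_mul, ← map_sum, Matrix.mul_apply]

/-- the bracket of two linear vector fields -/
theorem vf_bracket (A B : Matrix (Fin (n + 1)) (Fin (n + 1)) ℂ)
    (p : MvPolynomial (Fin (n + 1)) ℂ) :
    vf A (vf B p) - vf B (vf A p) = vf (B * A - A * B) p := by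
  induction p using MvPolynomial.induction_on with
  | C a => simp only [derivation_C, map_zero, sub_zero]
  | add p q hp hq =>
    rw [map_add, map_add, map_add, map_add, map_add, ← hp, ← hq]
    ring
  | mul_X p i hp =>
    have h1 : vf A (vf B (X i)) - vf B (vf A (X i)) = vf (B * A - A * B) (X i) := by
      rw [vf_vf_X, vf_vf_X, vf_X, ← Finset.sum_sub_distrib]
      refine Finset.sum_congr rfl fun j _ => ?_
      rw [Matrix.sub_apply, C_sub, sub_mul]
    rw [Derivation.leibniz (vf (B * A - A * B)), ← hp, ← h1]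
    simp only [Derivation.leibniz, smul_eq_mul, map_add]
    ring

theorem mulVecLin_single (P : Matrix (Fin (n + 1)) (Fin (n + 1)) ℂ) (t i : Fin (n + 1)) :
    P.mulVecLin (Pi.single t 1) i = P i t := by
  rw [Matrix.mulVecLin_apply, Matrix.mulVec_single_one]
  rfl

/-- change of coordinates -/
theorem lsub_conj {P N N' : Matrix (Fin (n + 1)) (Fin (n + 1)) ℂ} (h : N * P = P * N')
    (p : MvPolynomial (Fin (n + 1)) ℂ) :
    lsub P.mulVecLin (vf N p) = vf N' (lsub P.mulVecLin p) := by
  refine lsub_der _ (fun i => ?_) p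
  rw [lsub_vf, lsub_X, map_sum]
  have h1 : ∀ t, vf N' (C (P.mulVecLin (Pi.single t 1) i) * X t) =
      ∑ l, C (P i t * N' t l) * X l := by
    intro t
    rw [mulVecLin_single, Derivation.leibniz, derivation_C, smul_zero, add_zero, smul_eq_mul,
      vf_X, Finset.mul_sum]
    exact Finset.sum_congr rfl fun l _ => by rw [C_mul, mul_assoc]
  simp_rw [h1]
  rw [Finset.sum_comm]
  refine Finset.sum_congr rfl fun l _ => ?_
  rw [← Finset.sum_mul, ← map_sum]
  congr 2
  have h2 := congrFun (congrFun h i) l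
  rw [Matrix.mul_apply, Matrix.mul_apply] at h2
  rw [← h2]
  simp only [Matrix.mulVec, dotProduct, mulVecLin_single]

theorem lsub_injective {P P' : Matrix (Fin (n + 1)) (Fin (n + 1)) ℂ} (h : P * P' = 1)
    {p q : MvPolynomial (Fin (n + 1)) ℂ} (hpq : lsub P.mulVecLin p = lsub P.mulVecLin q) :
    p = q := by
  apply MvPolynomial.funext
  intro x
  have h1 := congrArg (eval (P'.mulVec x)) hpq
  rw [eval_lsub, eval_lsub, Matrix.mulVecLin_apply, Matrix.mulVec_mulVec, h,
    Matrix.one_mulVec] at h1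
  exact h1

/-- generalised eigenvectors in the coordinates of the Jordan decomposition -/
theorem ge_coord {N P P' A : Matrix (Fin (n + 1)) (Fin (n + 1)) ℂ} {lam : Fin (n + 1) → ℂ}
    (h1 : P * P' = 1) (h3 : P' * N * P = Matrix.diagonal lam + A)
    (hc : Matrix.diagonal lam * A = A * Matrix.diagonal lam) (hA : IsNilpotent A)
    {p : MvPolynomial (Fin (n + 1)) ℂ} {α : ℂ} {K : ℕ}
    (h : (((vf N : Der n).toLinearMap - α • 1 :
      MvPolynomial (Fin (n + 1)) ℂ →ₗ[ℂ] _) ^ K) p = 0) :
    IsWeightedHomogeneous lam (lsub P.mulVecLin p) α ∧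
      vf (P * A * P') p = vf N p - C α * p := by
  have hNP : N * P = P * (Matrix.diagonal lam + A) := by
    rw [← h3, ← mul_assoc, ← mul_assoc, h1, one_mul]
  have h4 : ∀ (j : ℕ) (q : MvPolynomial (Fin (n + 1)) ℂ),
      lsub P.mulVecLin ((((vf N : Der n).toLinearMap - α • 1 :
      MvPolynomial (Fin (n + 1)) ℂ →ₗ[ℂ] _) ^ j) q) =
      (((vf (Matrix.diagonal lam + A) : Der n).toLinearMap - α • 1 :
      MvPolynomial (Fin (n + 1)) ℂ →ₗ[ℂ] _) ^ j) (lsub P.mulVecLin q) := by
    intro j
    induction j with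
    | zero => intro q; rw [pow_zero, pow_zero, Module.End.one_apply, Module.End.one_apply]
    | succ j ih =>
      intro q
      rw [pow_succ, pow_succ, Module.End.mul_apply, Module.End.mul_apply, ih]
      congr 1
      rw [LinearMap.sub_apply, LinearMap.sub_apply, LinearMap.smul_apply, LinearMap.smul_apply,
        Module.End.one_apply, Module.End.one_apply, map_sub, map_smul]
      congr 1
      exact lsub_conj hNP q
  have h5 := h4 K p
  rw [h, map_zero] at h5
  have h6 := wh_of_ge hc hA h5.symm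
  refine ⟨h6, ?_⟩
  apply lsub_injective h1
  have h2 : P' * P = 1 := mul_eq_one_comm.1 h1
  have hMP : (P * A * P') * P = P * A := by
    rw [mul_assoc, h2, mul_one]
  rw [lsub_conj hMP, map_sub, lsub_conj hNP, vf_add, eig_of_wh h6, map_mul]
  have h7 : lsub P.mulVecLin (C α) = C α := by
    rw [lsub, aeval_C]
    rfl
  rw [h7]
  ring

end Pool.Agent.W615
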