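import Pool.Agent.W615.X5

/-!
# The family of generalised eigensections; lifts to the Plücker presentation (helper615)
-/

set_option autoImplicit false
set_option maxHeartbeats 400000

open MvPolynomial H960VB H938TB

namespace Pool.Agent.W615

variable {n : ℕ} {E : Bundle2 n} {N : Matrix (Fin (n + 1)) (Fin (n + 1)) ℂ}

/-- a vector field as a linear map -/
noncomputable abbrev vfl (N : Matrix (Fin (n + 1)) (Fin (n + 1)) ℂ) :
    MvPolynomial (Fin (n + 1)) ℂ →ₗ[ℂ] MvPolynomial (Fin (n + 1)) ℂ := (vf N : Der n).toLinearMap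

theorem exists_fam (hn : 1 ≤ n) (O : Op E N) :
    ∃ (P : PD n) (ε : Fin P.r → ℂ) (θ : ℂ) (τ : Fin P.r → Fin P.r → ℂ),
      (P.bun.Splits → E.Splits) ∧
      (∀ i j, ∃ K : ℕ, ((vfl N - (ε i + ε j - θ) • 1) ^ K) (P.Q i j) = 0) ∧
      ∀ i j, vf N (P.Q i j) - C (ε i + ε j - θ) * P.Q i j =
        ∑ l, C (τ l i) * P.Q l j + ∑ l, C (τ l j) * P.Q i l := by
  obtain ⟨W⟩ := exists_wedge hn (triv E)
  obtain ⟨θ, hθ⟩ := O.trace W hn
  obtain ⟨d, hd⟩ := exists_deg W
  obtain ⟨r, v, ε, k, hk, hspan⟩ := exists_ge_family (O.lin d)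
  have hgen : ∀ x : Fin (n + 1) → ℂ, x ≠ 0 → ∃ i j : Fin r, eval x (W.wd (v i) (v j)) ≠ 0 := by
    intro x hx
    obtain ⟨G, G', hG, hG', h⟩ := hd x hx
    by_contra hc
    push Not at hc
    apply h
    let F : S0 E d →ₗ[ℂ] S0 E d →ₗ[ℂ] ℂ := (wdB W d d).compr₂
      (aeval x : MvPolynomial (Fin (n + 1)) ℂ →ₐ[ℂ] ℂ).toLinearMap
    have hF : F = 0 := by
      refine LinearMap.ext_on_range hspan fun i => LinearMap.ext_on_range hspan fun j => ?_
      exact hc i j
    have h1 := congrArg (fun f : S0 E d →ₗ[ℂ] S0 E d →ₗ[ℂ] ℂ => f ⟨G, hG⟩ ⟨G', hG'⟩) hF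
    exact h1
  let P : PD n :=
    { r := r
      Q := fun i j => W.wd (v i) (v j)
      e := d + d + W.κ.1
      hom := fun i j => wd_homZ W (v i).2 (v j).2
      anti := fun i j => W.anti _ _ (v i).2.ker (v j).2.ker
      four := fun i j k l => W.four _ _ _ _ (v i).2.ker (v j).2.ker (v k).2.ker (v l).2.ker
      gen := hgen }
  have hβ : ∀ a b : S0 E d, wdB W d d (O.lin d a) b + wdB W d d a (O.lin d b) =
      vfl N (wdB W d d a b) + θ • wdB W d d a b := by
    intro a b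
    rw [smul_eq_C_mul]
    exact hθ d d a b a.2 b.2
  have hτ : ∀ j, ∃ c : Fin r → ℂ, ∑ l, c l • v l = (O.lin d - ε j • 1) (v j) := by
    intro j
    have h1 : (O.lin d - ε j • 1) (v j) ∈ Submodule.span ℂ (Set.range v) := by
      rw [hspan]
      exact Submodule.mem_top
    exact (Submodule.mem_span_range_iff_exists_fun ℂ).1 h1
  choose c hc using hτ
  refine ⟨P, ε, θ, fun l j => c j l, ?_, ?_, ?_⟩
  · exact splits_transfer W hn P (s := fun j => (v j : Vec E.a n)) (fun j => (v j).2)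
      (fun i j => rfl)
  · intro i j
    exact ⟨k i + k j, ge_bilin (O.lin d) (O.lin d) (vfl N) (wdB W d d) θ hβ (ε i) (ε j)
      (k i + k j) (k i) (k j) (v i) (v j) le_rfl (hk i) (hk j)⟩
  · intro i j
    have h1 : ∀ (a b : Fin r), wdB W d d ((O.lin d - ε a • 1) (v a)) (v b) =
        ∑ l, C (c a l) * W.wd (v l) (v b) := by
      intro a b
      rw [← hc a, map_sum, LinearMap.sum_apply]
      refine Finset.sum_congr rfl fun l _ => ?_
      rw [map_smul, LinearMap.smul_apply, smul_eq_C_mul]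
      rfl
    have h2 : ∀ (a b : Fin r), wdB W d d (v b) ((O.lin d - ε a • 1) (v a)) =
        ∑ l, C (c a l) * W.wd (v b) (v l) := by
      intro a b
      rw [← hc a, map_sum]
      refine Finset.sum_congr rfl fun l _ => ?_
      rw [map_smul, smul_eq_C_mul]
      rfl
    have h3 := hβ (v i) (v j)
    have h4 : ∀ a, O.lin d (v a) = (O.lin d - ε a • 1) (v a) + ε a • v a := by
      intro a
      rw [LinearMap.sub_apply, LinearMap.smul_apply, Module.End.one_apply, sub_add_cancel]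
    rw [h4 i, h4 j, map_add, map_add, LinearMap.add_apply, h1, h2, map_smul, map_smul,
      LinearMap.smul_apply, smul_eq_C_mul, smul_eq_C_mul, smul_eq_C_mul] at h3
    have h5 : vfl N (wdB W d d (v i) (v j)) = vf N (P.Q i j) := rfl
    have h6 : wdB W d d (v i) (v j) = P.Q i j := rfl
    rw [h5, h6] at h3
    show vf N (P.Q i j) - C (ε i + ε j - θ) * P.Q i j =
        ∑ l, C (c i l) * W.wd (v l) (v j) + ∑ l, C (c j l) * W.wd (v i) (v l)
    rw [C_sub, C_add]
    linear_combination -h3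

/-! ### the lift on the Plücker presentation -/

theorem plB_lift {R : Type*} [CommRing R] {r : ℕ} (Q Q' : Fin r → Fin r → R)
    (τ : Fin r → Fin r → R)
    (h : ∀ i j, Q' i j = ∑ l, τ l i * Q l j + ∑ l, τ l j * Q i l) (i j m y : Fin r) :
    plB Q' (i, j, m) y = (∑ l, τ l i * plB Q (l, j, m) y + ∑ l, τ l j * plB Q (i, l, m) y +
      ∑ l, τ l m * plB Q (i, j, l) y) + ∑ l, plB Q (i, j, m) l * (-τ y l) := by
  rw [plB_sum]
  have a1 : ∑ l, τ l i * plB Q (l, j, m) y = τ y i * Q j m -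
      (if y = j then ∑ l, τ l i * Q l m else 0) + (if y = m then ∑ l, τ l i * Q l j else 0) := by
    unfold plB
    simp only [mul_add, mul_sub, Finset.sum_add_distrib, Finset.sum_sub_distrib, mul_ite, mul_zero]
    rw [Finset.sum_ite_eq, if_pos (Finset.mem_univ _)]
    congr 1
    · congr 1
      split_ifs <;> simp
    · split_ifs <;> simp
  have a2 : ∑ l, τ l j * plB Q (i, l, m) y = (if y = i then ∑ l, τ l j * Q l m else 0) -
      τ y j * Q i m + (if y = m then ∑ l, τ l j * Q i l else 0) := by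
    unfold plB
    simp only [mul_add, mul_sub, Finset.sum_add_distrib, Finset.sum_sub_distrib, mul_ite, mul_zero]
    rw [Finset.sum_ite_eq, if_pos (Finset.mem_univ _)]
    congr 1
    · congr 1
      split_ifs <;> simp
    · split_ifs <;> simp
  have a3 : ∑ l, τ l m * plB Q (i, j, l) y = (if y = i then ∑ l, τ l m * Q j l else 0) -
      (if y = j then ∑ l, τ l m * Q i l else 0) + τ y m * Q i j := by
    unfold plB
    simp only [mul_add, mul_sub, Finset.sum_add_distrib, Finset.sum_sub_distrib, mul_ite, mul_zero]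
    rw [Finset.sum_ite_eq, if_pos (Finset.mem_univ _)]
    congr 1
    · congr 1
      · split_ifs <;> simp
      · split_ifs <;> simp
  rw [a1, a2, a3]
  unfold plB
  simp only [h]
  split_ifs <;> ring

/-- the lift of a vector field to the Plücker presentation. -/
theorem PD.lift (P : PD n) (A : Matrix (Fin (n + 1)) (Fin (n + 1)) ℂ)
    (τ : Fin P.r → Fin P.r → ℂ)
    (h : ∀ i j, vf A (P.Q i j) = ∑ l, C (τ l i) * P.Q l j + ∑ l, C (τ l j) * P.Q i l) :
    ∃ (ν : Matrix (Fin P.bun.a) (Fin P.bun.a) (MvPolynomial (Fin (n + 1)) ℂ))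
      (μ : Matrix (Fin P.bun.c) (Fin P.bun.c) (MvPolynomial (Fin (n + 1)) ℂ)),
      ∀ k i, ∑ s, pderiv s (P.bun.B k i) * (∑ t, C (A s t) * X t) =
        ∑ l, μ k l * P.bun.B l i + ∑ j, P.bun.B k j * ν j i := by
  classical
  refine ⟨fun j i => - C (τ i j), fun k l =>
    (if (ix P.r l).2.1 = (ix P.r k).2.1 ∧ (ix P.r l).2.2 = (ix P.r k).2.2 then
      C (τ (ix P.r l).1 (ix P.r k).1) else 0) +
    (if (ix P.r l).1 = (ix P.r k).1 ∧ (ix P.r l).2.2 = (ix P.r k).2.2 then
      C (τ (ix P.r l).2.1 (ix P.r k).2.1) else 0) +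
    (if (ix P.r l).1 = (ix P.r k).1 ∧ (ix P.r l).2.1 = (ix P.r k).2.1 then
      C (τ (ix P.r l).2.2 (ix P.r k).2.2) else 0), ?_⟩
  intro k y
  rw [← vf_eq_sum]
  obtain ⟨⟨i, j, m⟩, ht⟩ : ∃ t, t = ix P.r k := ⟨_, rfl⟩
  have hB : ∀ k y, P.bun.B k y = plB P.Q (ix P.r k) y := fun _ _ => rfl
  simp only [hB, ← ht]
  have e1 : vf A (plB P.Q (i, j, m) y) = plB (fun i j => vf A (P.Q i j)) (i, j, m) y := by
    unfold plB
    rw [map_add, map_sub, apply_ite (vf A), apply_ite (vf A), apply_ite (vf A), map_zero]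
  have e2 := plB_lift P.Q (fun i j => vf A (P.Q i j)) (fun i j => C (τ i j)) h i j m y
  rw [e1, e2]
  congr 1
  simp only [add_mul, Finset.sum_add_distrib]
  have s1 : ∀ (g : Fin P.r × Fin P.r × Fin P.r → MvPolynomial (Fin (n + 1)) ℂ),
      ∑ l : Fin (Fintype.card (Fin P.r × Fin P.r × Fin P.r)), g (ix P.r l) = ∑ t, g t :=
    fun g => Equiv.sum_comp (ix P.r) g
  have b1 : ∑ l, C (τ l i) * plB P.Q (l, j, m) y =
      ∑ t : Fin P.r × Fin P.r × Fin P.r, (if t.2.1 = j ∧ t.2.2 = m then C (τ t.1 i) else 0) *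
        plB P.Q t y := by
    refine Fintype.sum_of_injective (fun l => (l, j, m)) (fun a b hab => (Prod.mk.inj hab).1) _ _
      (fun t ht' => ?_) (fun l => ?_)
    · rw [if_neg, zero_mul]
      rintro ⟨h1, h2⟩
      apply ht'
      exact ⟨t.1, by rw [← h1, ← h2]⟩
    · simp
  have b2 : ∑ l, C (τ l j) * plB P.Q (i, l, m) y =
      ∑ t : Fin P.r × Fin P.r × Fin P.r, (if t.1 = i ∧ t.2.2 = m then C (τ t.2.1 j) else 0) *
        plB P.Q t y := by
    refine Fintype.sum_of_injective (fun l => (i, l, m))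
      (fun a b hab => (Prod.mk.inj (Prod.mk.inj hab).2).1) _ _
      (fun t ht' => ?_) (fun l => ?_)
    · rw [if_neg, zero_mul]
      rintro ⟨h1, h2⟩
      apply ht'
      exact ⟨t.2.1, by rw [← h1, ← h2]⟩
    · simp
  have b3 : ∑ l, C (τ l m) * plB P.Q (i, j, l) y =
      ∑ t : Fin P.r × Fin P.r × Fin P.r, (if t.1 = i ∧ t.2.1 = j then C (τ t.2.2 m) else 0) *
        plB P.Q t y := by
    refine Fintype.sum_of_injective (fun l => (i, j, l))
      (fun a b hab => (Prod.mk.inj (Prod.mk.inj hab).2).2) _ _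
      (fun t ht' => ?_) (fun l => ?_)
    · rw [if_neg, zero_mul]
      rintro ⟨h1, h2⟩
      apply ht'
      exact ⟨t.2.2, by rw [← h1, ← h2]⟩
    · simp
  rw [b1, b2, b3, ← s1, ← s1, ← s1]
  rfl

end Pool.Agent.W615
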