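import Pool.Agent.W615.X6

/-!
# The semisimple part of a lift: actions of tori (helper615)
-/

set_option autoImplicit false
set_option maxHeartbeats 400000

open MvPolynomial H960VB H938TB

namespace Pool.Agent.W615

theorem exists_denom {ι : Type*} [Fintype ι] (f : ι → ℚ) :
    ∃ D : ℕ, D ≠ 0 ∧ ∀ i, ∃ z : ℤ, (z : ℚ) = D * f i := by
  classical
  refine ⟨∏ i, (f i).den, Finset.prod_ne_zero_iff.2 fun i _ => (f i).den_ne_zero, fun i => ?_⟩
  refine ⟨(f i).num * ((∏ j ∈ Finset.univ.erase i, (f j).den : ℕ) : ℤ), ?_⟩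
  rw [← Finset.mul_prod_erase Finset.univ (fun j => (f j).den) (Finset.mem_univ i)]
  push_cast
  have h1 : (f i) = (f i).num / (f i).den := (Rat.num_div_den _).symm
  have h2 : ((f i).den : ℚ) ≠ 0 := by exact_mod_cast (f i).den_ne_zero
  have h3 : ((f i).den : ℚ) * f i = (f i).num := by
    rw [mul_comm]
    exact Rat.mul_den_eq_num _
  linear_combination (-(∏ j ∈ Finset.univ.erase i, ((f j).den : ℚ))) * h3

theorem exists_dual {V : Type*} [AddCommGroup V] [Module ℚ V] {k : ℕ} {v : Fin k → V}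
    (h : LinearIndependent ℚ v) (i : Fin k) :
    ∃ φ : V →ₗ[ℚ] ℚ, φ (v i) = 1 ∧ ∀ j, j ≠ i → φ (v j) = 0 := by
  obtain ⟨φ, hφ⟩ := LinearMap.exists_extend ((Module.Basis.span h).coord i)
  have h1 : ∀ j, φ (v j) = (Module.Basis.span h).coord i ((Module.Basis.span h) j) := by
    intro j
    have h2 := congrArg (fun f => f ((Module.Basis.span h) j)) hφ
    have h3 : (((Module.Basis.span h) j : Submodule.span ℚ (Set.range v)) : V) = v j :=
      congrArg Subtype.val (Module.Basis.span_apply h j)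
    rw [← h3]
    exact h2
  refine ⟨φ, ?_, fun j hj => ?_⟩
  · rw [h1, Module.Basis.coord_apply, Module.Basis.repr_self, Finsupp.single_eq_same]
  · rw [h1, Module.Basis.coord_apply, Module.Basis.repr_self, Finsupp.single_eq_of_ne (Ne.symm hj)]

variable {n : ℕ} {E : Bundle2 n} {N : Matrix (Fin (n + 1)) (Fin (n + 1)) ℂ}

theorem comp_eq {lam : Fin (n + 1) → ℂ} (φ : ℂ →ₗ[ℚ] ℚ) (D : ℕ) (lz : Fin (n + 1) → ℤ)
    (hlz : ∀ l, (lz l : ℚ) = D * φ (lam l)) {x : ℂ} {zx : ℤ} (hx : (zx : ℚ) = D * φ x)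
    {u : Fin (n + 1) →₀ ℕ} (h : Finsupp.weight lam u = x) :
    ∑ j, (u j : ℤ) * lz j = zx := by
  have h1 : ((∑ j, (u j : ℤ) * lz j : ℤ) : ℚ) = (zx : ℚ) := by
    push_cast
    rw [hx, ← h, Finsupp.weight_apply, Finsupp.sum_fintype _ _ (by simp), map_sum, Finset.mul_sum]
    refine Finset.sum_congr rfl fun j _ => ?_
    rw [hlz, map_nsmul, nsmul_eq_mul]
    ring
  exact_mod_cast h1

/-- **the semisimple part of a lift**: the bundle is equivariant for the subtori of the closure of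
the one-parameter group of the semisimple part. -/
theorem descend (hn : 2 ≤ n) (O : Op E N) {P P' A : Matrix (Fin (n + 1)) (Fin (n + 1)) ℂ}
    {lam : Fin (n + 1) → ℂ} (h1 : P * P' = 1) (h3 : P' * N * P = Matrix.diagonal lam + A)
    (hc : Matrix.diagonal lam * A = A * Matrix.diagonal lam) (hA : IsNilpotent A)
    (φ ψ : ℂ →ₗ[ℚ] ℚ) :
    ∃ (E' : Bundle2 n) (D : ℕ) (w : Fin (n + 1) → ℤ × ℤ), D ≠ 0 ∧ (E'.Splits → E.Splits) ∧
      (∀ l, ((w l).1 : ℚ) = D * φ (lam l) ∧ ((w l).2 : ℚ) = D * ψ (lam l)) ∧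
      Nonempty (EqB E' w) := by
  obtain ⟨Q, ε, θ, τ, hQ1, hQ2, -⟩ := exists_fam (by omega) O
  have hinj : Function.Injective P.mulVecLin := by
    have h2 : P' * P = 1 := mul_eq_one_comm.1 h1
    intro x y hxy
    have h4 := congrArg P'.mulVec hxy
    rw [Matrix.mulVecLin_apply, Matrix.mulVecLin_apply, Matrix.mulVec_mulVec,
      Matrix.mulVec_mulVec, h2, Matrix.one_mulVec, Matrix.one_mulVec] at h4
    exact h4
  -- common denominators
  obtain ⟨D, hD, hz⟩ := exists_denom (ι := (Fin (n + 1) ⊕ (Fin Q.r ⊕ Unit)) × Bool)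
    (fun x => (bif x.2 then φ else ψ) (Sum.elim lam (Sum.elim ε (fun _ => θ)) x.1))
  choose z hz' using hz
  set lz : Fin (n + 1) → ℤ × ℤ := fun l => (z (Sum.inl l, true), z (Sum.inl l, false)) with hlz
  set ez : Fin Q.r → ℤ × ℤ := fun i =>
    (z (Sum.inr (Sum.inl i), true), z (Sum.inr (Sum.inl i), false)) with hez
  set tz : ℤ × ℤ := (z (Sum.inr (Sum.inr ()), true), z (Sum.inr (Sum.inr ()), false)) with htz
  have l1 : ∀ l, ((lz l).1 : ℚ) = D * φ (lam l) := fun l => hz' (Sum.inl l, true)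
  have l2 : ∀ l, ((lz l).2 : ℚ) = D * ψ (lam l) := fun l => hz' (Sum.inl l, false)
  have e1 : ∀ i, ((ez i).1 : ℚ) = D * φ (ε i) := fun i => hz' (Sum.inr (Sum.inl i), true)
  have e2 : ∀ i, ((ez i).2 : ℚ) = D * ψ (ε i) := fun i => hz' (Sum.inr (Sum.inl i), false)
  have t1 : (tz.1 : ℚ) = D * φ θ := hz' (Sum.inr (Sum.inr ()), true)
  have t2 : (tz.2 : ℚ) = D * ψ θ := hz' (Sum.inr (Sum.inr ()), false)
  refine ⟨Q.bun.pull P.mulVecLin hinj, D, lz, hD, fun hs => hQ1
    (Bundle2.splits_of_pull 0 n n hn (by omega) _ _ _ hs), fun l => ⟨l1 l, l2 l⟩, ⟨?_⟩⟩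
  refine mkEqB _ _ (fun i => ez i)
    (fun k => ez (ix Q.r k).1 + ez (ix Q.r k).2.1 + ez (ix Q.r k).2.2 - tz) ?_
  intro k i u hu
  -- the weights
  have hw : IsWeightedHomogeneous lam (lsub P.mulVecLin (plB Q.Q (ix Q.r k) i))
      (ε (ix Q.r k).1 + ε (ix Q.r k).2.1 + ε (ix Q.r k).2.2 - θ - ε i) := by
    have hij : ∀ a b, IsWeightedHomogeneous lam (lsub P.mulVecLin (Q.Q a b)) (ε a + ε b - θ) := by
      intro a b
      obtain ⟨K, hK⟩ := hQ2 a b
      exact (ge_coord h1 h3 hc hA hK).1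
    have hite : ∀ (c : Prop) [Decidable c] (p : MvPolynomial (Fin (n + 1)) ℂ) (α : ℂ),
        (c → IsWeightedHomogeneous lam (lsub P.mulVecLin p) α) →
        IsWeightedHomogeneous lam (lsub P.mulVecLin (if c then p else 0)) α := by
      intro c _ p α h
      split_ifs with hc'
      · exact h hc'
      · rw [map_zero]
        exact isWeightedHomogeneous_zero _ _ _
    unfold plB
    rw [map_add, map_sub]
    refine (IsWeightedHomogeneous.sub (hite _ _ _ fun h => ?_) (hite _ _ _ fun h => ?_)).add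
      (hite _ _ _ fun h => ?_)
    · rw [h]
      convert hij _ _ using 1
      ring
    · rw [h]
      convert hij _ _ using 1
      ring
    · rw [h]
      convert hij _ _ using 1
      ring
  have hwu := hw (mem_support_iff.1 hu)
  ext
  · rw [Prod.fst_sum]
    refine comp_eq φ D (fun l => (lz l).1) l1 (x := _) ?_ hwu
    simp only [Prod.fst_sub, Prod.fst_add, map_sub, map_add]
    push_cast
    rw [e1, e1, e1, e1, t1]
    ring
  · rw [Prod.snd_sum]
    refine comp_eq ψ D (fun l => (lz l).2) l2 (x := _) ?_ hwu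
    simp only [Prod.snd_sub, Prod.snd_add, map_sub, map_add]
    push_cast
    rw [e2, e2, e2, e2, t2]
    ring

/-- two rationally independent differences of eigenvalues -/
theorem rat_indep (hn : 4 ≤ n) (O : Op E N) {P P' A : Matrix (Fin (n + 1)) (Fin (n + 1)) ℂ}
    {lam : Fin (n + 1) → ℂ} (h1 : P * P' = 1) (h3 : P' * N * P = Matrix.diagonal lam + A)
    (hc : Matrix.diagonal lam * A = A * Matrix.diagonal lam) (hA : IsNilpotent A)
    {i j k : Fin (n + 1)} (hli : LinearIndependent ℚ ![lam j - lam i, lam k - lam i]) :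
    E.Splits := by
  obtain ⟨φ, hφ1, hφ2⟩ := exists_dual hli 0
  obtain ⟨ψ, hψ1, hψ2⟩ := exists_dual hli 1
  have a1 : φ (lam j) - φ (lam i) = 1 := by rw [← map_sub]; exact hφ1
  have a2 : φ (lam k) - φ (lam i) = 0 := by rw [← map_sub]; exact hφ2 1 (by decide)
  have a3 : ψ (lam k) - ψ (lam i) = 1 := by rw [← map_sub]; exact hψ1
  have a4 : ψ (lam j) - ψ (lam i) = 0 := by rw [← map_sub]; exact hψ2 0 (by decide)
  obtain ⟨E', D, w, hD, hs, hw, ⟨B⟩⟩ := descend (by omega) O h1 h3 hc hA φ ψ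
  refine hs (H938TB.main hn B ⟨i, j, k, ?_⟩)
  have hD' : (D : ℚ) ≠ 0 := by exact_mod_cast hD
  have h4 : (((w j - w i).1 * (w k - w i).2 - (w j - w i).2 * (w k - w i).1 : ℤ) : ℚ) =
      (D : ℚ) ^ 2 := by
    simp only [Prod.fst_sub, Prod.snd_sub]
    push_cast
    rw [(hw i).1, (hw j).1, (hw k).1, (hw i).2, (hw j).2, (hw k).2]
    linear_combination (D : ℚ) ^ 2 * (ψ (lam k) - ψ (lam i)) * a1 + (D : ℚ) ^ 2 * a3 -
      (D : ℚ) ^ 2 * (φ (lam k) - φ (lam i)) * a4
  intro h0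
  have h0' : (w j - w i).1 * (w k - w i).2 - (w j - w i).2 * (w k - w i).1 = 0 := h0
  rw [h0', Int.cast_zero] at h4
  exact pow_ne_zero 2 hD' h4.symm

/-- three equal eigenvalues and another one -/
theorem three_eig (hn : 3 ≤ n) (O : Op E N) {P P' A : Matrix (Fin (n + 1)) (Fin (n + 1)) ℂ}
    {lam : Fin (n + 1) → ℂ} (h1 : P * P' = 1) (h3 : P' * N * P = Matrix.diagonal lam + A)
    (hc : Matrix.diagonal lam * A = A * Matrix.diagonal lam) (hA : IsNilpotent A)
    {i₀ i₁ i₂ j : Fin (n + 1)} (h01 : i₀ ≠ i₁) (h02 : i₀ ≠ i₂) (h12 : i₁ ≠ i₂)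
    (e1 : lam i₁ = lam i₀) (e2 : lam i₂ = lam i₀) (ej : lam j ≠ lam i₀) : E.Splits := by
  have hli : LinearIndependent ℚ ![lam j - lam i₀] := by
    rw [linearIndependent_unique_iff]
    exact sub_ne_zero.2 ej
  obtain ⟨φ, hφ1, -⟩ := exists_dual hli 0
  have a1 : φ (lam j) - φ (lam i₀) = 1 := by rw [← map_sub]; exact hφ1
  obtain ⟨E', D, w, hD, hs, hw, ⟨B⟩⟩ := descend (by omega) O h1 h3 hc hA φ 0
  have hD' : (D : ℚ) ≠ 0 := by exact_mod_cast hD
  have hw2 : ∀ l, (w l).2 = 0 := by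
    intro l
    have h4 := (hw l).2
    rw [LinearMap.zero_apply, mul_zero] at h4
    exact_mod_cast h4
  have hwe : ∀ a b, lam a = lam b → w a = w b := by
    intro a b hab
    ext
    · have h4 : ((w a).1 : ℚ) = (w b).1 := by rw [(hw a).1, (hw b).1, hab]
      exact_mod_cast h4
    · rw [hw2, hw2]
  refine hs (three_equal hn B h01 h02 h12 (hwe _ _ e1) (hwe _ _ e2) (j := j) ?_)
  intro h4
  have h5 : ((w j).1 : ℚ) = (w i₀).1 := by rw [h4]
  rw [(hw j).1, (hw i₀).1] at h5
  have h6 : (D : ℚ) * (φ (lam j) - φ (lam i₀)) = 0 := by linear_combination h5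
  rw [a1, mul_one] at h6
  exact hD' h6

/-- the nilpotent part of a lift also lifts -/
theorem nil_part (hn : 4 ≤ n) (O : Op E N) {P P' A : Matrix (Fin (n + 1)) (Fin (n + 1)) ℂ}
    {lam : Fin (n + 1) → ℂ} (h1 : P * P' = 1) (h3 : P' * N * P = Matrix.diagonal lam + A)
    (hc : Matrix.diagonal lam * A = A * Matrix.diagonal lam) (hA : IsNilpotent A) (hA0 : A ≠ 0) :
    E.Splits := by
  obtain ⟨Q, ε, θ, τ, hQ1, hQ2, hQ3⟩ := exists_fam (by omega) O
  have h2 : P' * P = 1 := mul_eq_one_comm.1 h1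
  set M := P * A * P' with hM
  have hlift : ∀ i j, vf M (Q.Q i j) =
      ∑ l, C (τ l i) * Q.Q l j + ∑ l, C (τ l j) * Q.Q i l := by
    intro i j
    obtain ⟨K, hK⟩ := hQ2 i j
    rw [(ge_coord h1 h3 hc hA hK).2, hQ3]
  obtain ⟨ν, μ, hνμ⟩ := Q.lift M τ hlift
  apply hQ1
  have hMnil : IsNilpotent M := by
    obtain ⟨k, hk⟩ := hA
    refine ⟨k, ?_⟩
    have h4 : ∀ j : ℕ, M ^ j = P * A ^ j * P' := by
      intro j
      induction j with
      | zero => rw [pow_zero, pow_zero, mul_one, h1]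
      | succ j ih =>
        rw [pow_succ, ih, hM, pow_succ]
        calc P * A ^ j * P' * (P * A * P') = P * A ^ j * (P' * P) * A * P' := by
              simp only [mul_assoc]
          _ = P * (A ^ j * A) * P' := by rw [h2]; simp only [mul_assoc, one_mul]
    rw [h4, hk, mul_zero, zero_mul]
  have hM0 : M ≠ 0 := by
    intro h0
    apply hA0
    have h4 : P' * M * P = A := by
      rw [hM]
      calc P' * (P * A * P') * P = (P' * P) * A * (P' * P) := by simp only [mul_assoc]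
        _ = A := by rw [h2, one_mul, mul_one]
    rw [← h4, h0, mul_zero, zero_mul]
  have hk1 : ∀ j, kerDim M 0 j = Module.finrank ℂ (LinearMap.ker (M.mulVecLin ^ j)) := by
    intro j
    unfold kerDim
    rw [map_zero, sub_zero]
  have hker : ∀ j, M ^ j = 0 → kerDim M 0 j = n + 1 := by
    intro j hj
    rw [hk1]
    have h5 : M.mulVecLin ^ j = 0 := by
      have h6 : ∀ (B : Matrix (Fin (n + 1)) (Fin (n + 1)) ℂ) (j : ℕ),
          B.mulVecLin ^ j = (B ^ j).mulVecLin := by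
        intro B j
        induction j with
        | zero => rw [pow_zero, pow_zero, Matrix.mulVecLin_one]; rfl
        | succ j ih => rw [pow_succ, ih, pow_succ, Matrix.mulVecLin_mul]; rfl
      rw [h6, hj, Matrix.mulVecLin_zero]
    rw [h5, LinearMap.ker_zero, finrank_top, Module.finrank_fintype_fun_eq_card, Fintype.card_fin]
  obtain ⟨k, hk⟩ := hMnil
  refine non_semisimple' M ν μ hνμ 0 ?_ (Or.inl ⟨k, by rw [hker k hk]; omega⟩)
  -- the kernel grows
  rw [hk1, hk1, pow_one]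
  have h7 : LinearMap.ker M.mulVecLin ≤ LinearMap.ker (M.mulVecLin ^ 2) := by
    intro x hx
    rw [LinearMap.mem_ker] at hx ⊢
    rw [pow_two, Module.End.mul_apply, hx, map_zero]
  refine Submodule.finrank_lt_finrank_of_lt (lt_of_le_of_ne h7 fun heq => hM0 ?_)
  have h8 : ∀ (j : ℕ) (x : Fin (n + 1) → ℂ), (M.mulVecLin ^ (j + 1)) x = 0 →
      M.mulVecLin x = 0 := by
    intro j
    induction j with
    | zero => intro x hx; rwa [zero_add, pow_one] at hx
    | succ j ih =>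
      intro x hx
      rw [pow_succ, Module.End.mul_apply] at hx
      have h9 := ih _ hx
      have h10 : x ∈ LinearMap.ker (M.mulVecLin ^ 2) := by
        rw [LinearMap.mem_ker, pow_two, Module.End.mul_apply]
        exact h9
      rw [← heq] at h10
      exact h10
  have h11 : ∀ x, M.mulVecLin x = 0 := by
    intro x
    apply h8 k x
    have h12 := hker (k + 1) (by rw [pow_succ, hk, zero_mul])
    rw [hk1] at h12
    have h13 : LinearMap.ker (M.mulVecLin ^ (k + 1)) = ⊤ := by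
      apply Submodule.eq_top_of_finrank_eq
      rw [h12, Module.finrank_fintype_fun_eq_card, Fintype.card_fin]
    have h14 : x ∈ LinearMap.ker (M.mulVecLin ^ (k + 1)) := by
      rw [h13]
      exact Submodule.mem_top
    exact h14
  ext i j
  have h15 := congrFun (h11 (Pi.single j 1)) i
  rw [mulVecLin_single] at h15
  exact h15

end Pool.Agent.W615
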