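import Pool.Agent.W615.X7

/-!
# The Lie algebra of the vector fields which lift (helper615)
-/

set_option autoImplicit false
set_option maxHeartbeats 400000

open MvPolynomial H960VB H938TB

namespace Pool.Agent.W615

variable {n : ℕ} {E : Bundle2 n} {N N₁ N₂ : Matrix (Fin (n + 1)) (Fin (n + 1)) ℂ}

/-- sums -/
noncomputable def Op.plus (O₁ : Op E N₁) (O₂ : Op E N₂) : Op E (N₁ + N₂) where
  D G := fun i => O₁.D G i + O₂.D G i
  sec d G h := sec_add (O₁.sec d G h) (O₂.sec d G h)
  add d G G' h h' := by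
    rw [O₁.add d G G' h h', O₂.add d G G' h h']
    funext i
    ring
  leib d e p G h hp := by
    rw [O₁.leib d e p G h hp, O₂.leib d e p G h hp]
    funext i
    rw [vf_add]
    ring

theorem homZ_C (c : ℂ) : HomZ (C c : MvPolynomial (Fin (n + 1)) ℂ) 0 :=
  Or.inr ⟨0, rfl, isHomogeneous_C _ _⟩

/-- multiples -/
noncomputable def Op.times (c : ℂ) (O : Op E N) : Op E (c • N) where
  D G := fun i => C c * O.D G i
  sec d G h := by
    have h1 := sec_mul (homZ_C c) (O.sec d G h)
    rwa [zero_add] at h1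
  add d G G' h h' := by
    rw [O.add d G G' h h']
    funext i
    ring
  leib d e p G h hp := by
    rw [O.leib d e p G h hp]
    funext i
    rw [vf_smul]
    ring

/-- the bracket -/
noncomputable def Op.brac (O₁ : Op E N₁) (O₂ : Op E N₂) : Op E (N₂ * N₁ - N₁ * N₂) where
  D G := fun i => O₁.D (O₂.D G) i - O₂.D (O₁.D G) i
  sec d G h := sec_sub (O₁.sec d _ (O₂.sec d G h)) (O₂.sec d _ (O₁.sec d G h))
  add d G G' h h' := by
    rw [O₁.add d G G' h h', O₂.add d G G' h h',
      O₁.add d _ _ (O₂.sec d G h) (O₂.sec d G' h'), O₂.add d _ _ (O₁.sec d G h) (O₁.sec d G' h')]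
    funext i
    ring
  leib d e p G h hp := by
    have v1 := vf_homZ N₁ hp
    have v2 := vf_homZ N₂ hp
    have s1 := sec_mul v1 h
    have s2 := sec_mul v2 h
    have t1 := sec_mul hp (O₁.sec d G h)
    have t2 := sec_mul hp (O₂.sec d G h)
    rw [O₂.leib d e p G h hp, O₁.leib d e p G h hp, O₁.add (e + d) _ _ s2 t2,
      O₂.add (e + d) _ _ s1 t1, O₁.leib d e _ _ h v2, O₂.leib d e _ _ h v1,
      O₁.leib d e _ _ (O₂.sec d G h) hp, O₂.leib d e _ _ (O₁.sec d G h) hp]
    funext i
    have h1 := vf_bracket N₁ N₂ p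
    rw [← h1]
    ring

/-- the Euler field -/
noncomputable def Op.euler (E : Bundle2 n) : Op E 1 where
  D G := fun i => vf 1 (G i) - C (E.β i : ℂ) * G i
  sec d G h := by
    have h1 : (fun i => vf 1 (G i) - C (E.β i : ℂ) * G i) = fun i => C (d : ℂ) * G i := by
      funext i
      have h2 : vf 1 (G i) = C (((E.β i + d : ℤ) : ℂ)) * G i := by
        have h3 : IsWeightedHomogeneous (fun _ : Fin (n + 1) => (1 : ℂ)) (G i)
            (((E.β i + d : ℤ) : ℂ)) := by
          rcases h.homZ i with h4 | ⟨k, hk, h4⟩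
          · rw [h4]
            exact isWeightedHomogeneous_zero _ _ _
          · intro u hu
            have h5 := h4 hu
            rw [← hk, ← h5, Finsupp.weight_apply, Finsupp.weight_apply,
              Finsupp.sum_fintype _ _ (by simp), Finsupp.sum_fintype _ _ (by simp)]
            simp
        have h6 := eig_of_wh h3
        have h7 : Matrix.diagonal (fun _ : Fin (n + 1) => (1 : ℂ)) = 1 := Matrix.diagonal_one
        rwa [h7] at h6
      rw [h2]
      push_cast
      rw [C_add]
      ring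
    rw [h1]
    have h8 := sec_mul (homZ_C (d : ℂ)) h
    rwa [zero_add] at h8
  add d G G' h h' := by
    funext i
    rw [map_add]
    ring
  leib d e p G h hp := by
    funext i
    rw [Derivation.leibniz, smul_eq_mul, smul_eq_mul]
    ring

/-- the vector field lifts -/
def LiftsTo (E : Bundle2 n) (N : Matrix (Fin (n + 1)) (Fin (n + 1)) ℂ) : Prop := Nonempty (Op E N)

theorem LiftsTo.add (h₁ : LiftsTo E N₁) (h₂ : LiftsTo E N₂) : LiftsTo E (N₁ + N₂) := by
  obtain ⟨O₁⟩ := h₁
  obtain ⟨O₂⟩ := h₂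
  exact ⟨O₁.plus O₂⟩

theorem LiftsTo.smul (c : ℂ) (h : LiftsTo E N) : LiftsTo E (c • N) := by
  obtain ⟨O⟩ := h
  exact ⟨O.times c⟩

theorem LiftsTo.bracket (h₁ : LiftsTo E N₁) (h₂ : LiftsTo E N₂) :
    LiftsTo E (N₁ * N₂ - N₂ * N₁) := by
  obtain ⟨O₁⟩ := h₁
  obtain ⟨O₂⟩ := h₂
  exact ⟨O₂.brac O₁⟩

theorem LiftsTo.one (E : Bundle2 n) : LiftsTo E 1 := ⟨Op.euler E⟩

/-! ### linear algebra -/

/-- an invertible matrix with columns in a spanning set -/
theorem exists_cols {m : ℕ} (t : Set (Fin m → ℂ)) (h : Submodule.span ℂ t = ⊤) :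
    ∃ (P P' : Matrix (Fin m) (Fin m) ℂ), P * P' = 1 ∧ P' * P = 1 ∧
      ∀ j, (fun i => P i j) ∈ t := by
  classical
  obtain ⟨b, hb1, hb2, hb3⟩ := exists_linearIndependent ℂ t
  let bas₀ : Module.Basis b ℂ (Fin m → ℂ) := Module.Basis.mk hb3 (by
    rw [Subtype.range_coe, hb2, h])
  have hbas₀ : ∀ v : b, bas₀ v = (v : Fin m → ℂ) := fun v => Module.Basis.mk_apply _ _ _
  let _ : Fintype b := FiniteDimensional.fintypeBasisIndex bas₀
  have hcard : Fintype.card b = m := by
    rw [← Module.finrank_eq_card_basis bas₀, Module.finrank_fintype_fun_eq_card, Fintype.card_fin]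
  let e : b ≃ Fin m := Fintype.equivFinOfCardEq hcard
  let bas := bas₀.reindex e
  refine ⟨(Pi.basisFun ℂ (Fin m)).toMatrix bas, bas.toMatrix (Pi.basisFun ℂ (Fin m)),
    Module.Basis.toMatrix_mul_toMatrix_flip _ _, Module.Basis.toMatrix_mul_toMatrix_flip _ _,
    fun j => ?_⟩
  have h1 : (fun i => (Pi.basisFun ℂ (Fin m)).toMatrix bas i j) = (e.symm j : Fin m → ℂ) := by
    funext i
    rw [Module.Basis.toMatrix_apply, Pi.basisFun_repr, Module.Basis.reindex_apply, hbas₀]
  rw [h1]
  exact hb1 (e.symm j).2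

/-- a diagonalisable matrix -/
def Dz {m : ℕ} (N : Matrix (Fin m) (Fin m) ℂ) : Prop :=
  ∃ (P P' : Matrix (Fin m) (Fin m) ℂ) (lam : Fin m → ℂ), P * P' = 1 ∧ P' * P = 1 ∧
    P' * N * P = Matrix.diagonal lam

theorem Dz.eig {m : ℕ} {N : Matrix (Fin m) (Fin m) ℂ} (h : Dz N) {μ : ℂ} {v : Fin m → ℂ}
    (hv : v ∈ Module.End.maxGenEigenspace (Matrix.toLin' N : Module.End ℂ (Fin m → ℂ)) μ) :
    N.mulVec v = μ • v := by
  obtain ⟨P, P', lam, h1, h2, h3⟩ := h
  rw [Module.End.mem_maxGenEigenspace] at hv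
  obtain ⟨k, hk⟩ := hv
  have hN : N = P * Matrix.diagonal lam * P' := by
    rw [← h3]
    calc N = (P * P') * N * (P * P') := by rw [h1, one_mul, mul_one]
      _ = P * (P' * N * P) * P' := by simp only [mul_assoc]
  have hPN : P' * N = Matrix.diagonal lam * P' := by
    rw [hN]
    calc P' * (P * Matrix.diagonal lam * P') = (P' * P) * Matrix.diagonal lam * P' := by
          simp only [mul_assoc]
      _ = Matrix.diagonal lam * P' := by rw [h2, one_mul]
  have h4 : ∀ (j : ℕ) (u : Fin m → ℂ) (i : Fin m),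
      P'.mulVec (((Matrix.toLin' N - μ • 1) ^ j) u) i = (lam i - μ) ^ j * P'.mulVec u i := by
    intro j
    induction j with
    | zero => intro u i; rw [pow_zero, pow_zero, Module.End.one_apply, one_mul]
    | succ j ih =>
      intro u i
      rw [pow_succ, Module.End.mul_apply, ih, pow_succ, mul_assoc]
      congr 1
      rw [LinearMap.sub_apply, LinearMap.smul_apply, Module.End.one_apply, Matrix.toLin'_apply,
        Matrix.mulVec_sub, Matrix.mulVec_smul, Matrix.mulVec_mulVec, hPN, ← Matrix.mulVec_mulVec,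
        Pi.sub_apply, Matrix.mulVec_diagonal, Pi.smul_apply, smul_eq_mul]
      ring
  have h5 : ∀ i, lam i * P'.mulVec v i = μ * P'.mulVec v i := by
    intro i
    have h6 := h4 k v i
    rw [hk, Matrix.mulVec_zero, Pi.zero_apply] at h6
    rcases mul_eq_zero.1 h6.symm with h7 | h7
    · by_cases h9 : lam i - μ = 0
      · rw [sub_eq_zero.1 h9]
      · exact absurd h7 (pow_ne_zero _ h9)
    · rw [h7, mul_zero, mul_zero]
  have h6 : P'.mulVec (N.mulVec v) = P'.mulVec (μ • v) := by
    rw [Matrix.mulVec_mulVec, hPN, ← Matrix.mulVec_mulVec, Matrix.mulVec_smul]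
    funext i
    rw [Matrix.mulVec_diagonal, Pi.smul_apply, smul_eq_mul]
    exact h5 i
  have h7 := congrArg P.mulVec h6
  have h8 : ∀ x, P.mulVec (P'.mulVec x) = x := by
    intro x
    rw [Matrix.mulVec_mulVec, h1, Matrix.one_mulVec]
  rw [h8, h8] at h7
  exact h7

/-- simultaneous diagonalisation -/
theorem exists_simdiag {m : ℕ} {S T : Matrix (Fin m) (Fin m) ℂ} (hST : S * T = T * S)
    (hS : Dz S) (hT : Dz T) :
    ∃ (P P' : Matrix (Fin m) (Fin m) ℂ) (s t : Fin m → ℂ), P * P' = 1 ∧ P' * P = 1 ∧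
      P' * S * P = Matrix.diagonal s ∧ P' * T * P = Matrix.diagonal t := by
  classical
  set A : Set (Fin m → ℂ) := {v | ∃ μ ν : ℂ, S.mulVec v = μ • v ∧ T.mulVec v = ν • v} with hA
  have h1 : Submodule.span ℂ A = ⊤ := by
    have h2 := Module.End.iSup_iInf_maxGenEigenspace_eq_top_of_iSup_maxGenEigenspace_eq_top_of_commute
      (fun b : Bool => (bif b then Matrix.toLin' S else Matrix.toLin' T :
        Module.End ℂ (Fin m → ℂ))) (by
        have hc : Commute (Matrix.toLin' S : Module.End ℂ (Fin m → ℂ)) (Matrix.toLin' T) := by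
          show Matrix.toLin' S * Matrix.toLin' T = Matrix.toLin' T * Matrix.toLin' S
          have e1 : ∀ A B : Matrix (Fin m) (Fin m) ℂ,
              (Matrix.toLin' A * Matrix.toLin' B : Module.End ℂ (Fin m → ℂ)) =
              Matrix.toLin' (A * B) := fun A B => (Matrix.toLin'_mul A B).symm
          rw [e1, e1, hST]
        intro a b hab
        cases a <;> cases b
        · exact absurd rfl hab
        · exact hc.symm
        · exact hc
        · exact absurd rfl hab)
      (fun b => Module.End.iSup_maxGenEigenspace_eq_top _)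
    rw [eq_top_iff, ← h2]
    refine iSup_le fun χ v hv => Submodule.subset_span ?_
    rw [Submodule.mem_iInf] at hv
    exact ⟨χ true, χ false, hS.eig (hv true), hT.eig (hv false)⟩
  obtain ⟨P, P', h2, h3, h4⟩ := exists_cols A h1
  choose s t hs ht using h4
  refine ⟨P, P', s, t, h2, h3, ?_, ?_⟩
  · have h5 : S * P = P * Matrix.diagonal s := by
      ext i j
      rw [Matrix.mul_diagonal]
      have h6 := congrFun (hs j) i
      rw [Pi.smul_apply, smul_eq_mul, mul_comm] at h6
      exact h6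
    rw [mul_assoc, h5, ← mul_assoc, h3, one_mul]
  · have h5 : T * P = P * Matrix.diagonal t := by
      ext i j
      rw [Matrix.mul_diagonal]
      have h6 := congrFun (ht j) i
      rw [Pi.smul_apply, smul_eq_mul, mul_comm] at h6
      exact h6
    rw [mul_assoc, h5, ← mul_assoc, h3, one_mul]

end Pool.Agent.W615
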