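import Pool.Agent.W615.X8

/-!
# The structure of the Lie algebra of the vector fields which lift (helper615)
-/

set_option autoImplicit false
set_option maxHeartbeats 400000

open MvPolynomial H960VB H938TB

namespace Pool.Agent.W615

variable {n : ℕ} {E : Bundle2 n} {N T : Matrix (Fin (n + 1)) (Fin (n + 1)) ℂ}

theorem lifts_dz (hn : 4 ≤ n) (hE : ¬ E.Splits) (h : LiftsTo E N) : Dz N := by
  obtain ⟨O⟩ := h
  obtain ⟨P, P', lam, A, h1, h2, h3, hc, hA⟩ := exists_jordan N
  by_cases hA0 : A = 0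
  · refine ⟨P, P', lam, h1, h2, ?_⟩
    rw [h3, hA0, add_zero]
  · exact absurd (nil_part hn O h1 h3 hc hA hA0) hE

theorem lifts_rat (hn : 4 ≤ n) (hE : ¬ E.Splits) (h : LiftsTo E N)
    {P P' : Matrix (Fin (n + 1)) (Fin (n + 1)) ℂ} {lam : Fin (n + 1) → ℂ} (h1 : P * P' = 1)
    (h3 : P' * N * P = Matrix.diagonal lam) (i j k : Fin (n + 1)) :
    ¬ LinearIndependent ℚ ![lam j - lam i, lam k - lam i] := by
  intro hli
  obtain ⟨O⟩ := h
  exact hE (rat_indep hn O h1 (by rw [h3, add_zero]) (by rw [mul_zero, zero_mul])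
    IsNilpotent.zero hli)

/-- the eigenvalues are integers up to an affine transformation. -/
theorem lifts_int (hn : 4 ≤ n) (hE : ¬ E.Splits) (h : LiftsTo E N) (hN : ∀ b : ℂ, N ≠ b • 1) :
    ∃ (P P' : Matrix (Fin (n + 1)) (Fin (n + 1)) ℂ) (w : Fin (n + 1) → ℤ) (a b : ℂ), a ≠ 0 ∧
      P * P' = 1 ∧ P' * P = 1 ∧
      N = a • (P * Matrix.diagonal (fun i => (w i : ℂ)) * P') + b • 1 := by
  obtain ⟨P, P', lam, h1, h2, h3⟩ := lifts_dz hn hE h
  have hPN : N = P * Matrix.diagonal lam * P' := by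
    rw [← h3]
    calc N = (P * P') * N * (P * P') := by rw [h1, one_mul, mul_one]
      _ = P * (P' * N * P) * P' := by simp only [mul_assoc]
  obtain ⟨i, j, hij⟩ : ∃ i j, lam j ≠ lam i := by
    by_contra hc
    push Not at hc
    apply hN (lam 0)
    have h4 : Matrix.diagonal lam = lam 0 • (1 : Matrix (Fin (n + 1)) (Fin (n + 1)) ℂ) := by
      rw [← Matrix.diagonal_one, ← Matrix.diagonal_smul]
      congr 1
      funext l
      rw [Pi.smul_apply, smul_eq_mul, mul_one]
      exact hc 0 l
    rw [hPN, h4, Matrix.mul_smul, mul_one, Matrix.smul_mul, h1]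
  have hq : ∀ k, ∃ q : ℚ, lam k - lam i = (q : ℂ) * (lam j - lam i) := by
    intro k
    have h4 := lifts_rat hn hE h h1 h3 i j k
    rw [LinearIndependent.pair_iff] at h4
    push Not at h4
    obtain ⟨s, t, hst, hne⟩ := h4
    have ht : t ≠ 0 := by
      intro ht
      rw [ht, zero_smul, add_zero] at hst
      rcases smul_eq_zero.1 hst with h5 | h5
      · exact hne h5 ht
      · exact (sub_ne_zero.2 hij) h5
    refine ⟨-s / t, ?_⟩
    have ht' : (t : ℂ) ≠ 0 := by exact_mod_cast ht
    rw [Rat.smul_def, Rat.smul_def] at hst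
    push_cast
    field_simp
    linear_combination hst
  choose q hq using hq
  obtain ⟨D, hD, hz⟩ := exists_denom q
  choose z hz using hz
  have hD' : (D : ℂ) ≠ 0 := by exact_mod_cast hD
  refine ⟨P, P', z, (lam j - lam i) / D, lam i,
    div_ne_zero (sub_ne_zero.2 hij) hD', h1, h2, ?_⟩
  have h5 : Matrix.diagonal lam = ((lam j - lam i) / D) • Matrix.diagonal (fun l => (z l : ℂ)) +
      lam i • (1 : Matrix (Fin (n + 1)) (Fin (n + 1)) ℂ) := by
    rw [← Matrix.diagonal_one, ← Matrix.diagonal_smul, ← Matrix.diagonal_smul,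
      Matrix.diagonal_add]
    congr 1
    funext l
    simp only [Pi.smul_apply, smul_eq_mul, mul_one]
    have h6 : (z l : ℂ) = D * q l := by
      have h7 := congrArg (fun x : ℚ => (x : ℂ)) (hz l)
      push_cast at h7
      exact h7
    rw [h6]
    field_simp
    linear_combination hq l
  rw [hPN, h5, mul_add, add_mul, Matrix.mul_smul, Matrix.smul_mul, Matrix.mul_smul, mul_one,
    Matrix.smul_mul, h1]

theorem dz_nil {m : ℕ} {Z : Matrix (Fin m) (Fin m) ℂ} (h : Dz Z) (hZ : IsNilpotent Z) : Z = 0 := by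
  obtain ⟨k, hk⟩ := hZ
  have h1 : ∀ v, Z.mulVec v = 0 := by
    intro v
    have h2 := h.eig (μ := 0) (v := v) (by
      rw [Module.End.mem_maxGenEigenspace]
      refine ⟨k, ?_⟩
      rw [zero_smul, sub_zero]
      have h3 : ∀ j : ℕ, ((Matrix.toLin' Z : Module.End ℂ (Fin m → ℂ)) ^ j) =
          Matrix.toLin' (Z ^ j) := by
        intro j
        induction j with
        | zero => rw [pow_zero, pow_zero, Matrix.toLin'_one]; rfl
        | succ j ih => rw [pow_succ, ih, pow_succ, Matrix.toLin'_mul]; rfl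
      rw [h3, hk, map_zero, LinearMap.zero_apply])
    rw [h2, zero_smul]
  ext i j
  have h4 := congrFun (h1 (Pi.single j 1)) i
  rw [Matrix.mulVec_single_one] at h4
  exact h4

/-- a matrix of pure nonzero weight is nilpotent. -/
theorem nil_of_weight {m : ℕ} {w : Fin m → ℤ} {Y : Matrix (Fin m) (Fin m) ℂ} {r : ℤ} (hr : r ≠ 0)
    (hY : ∀ i j, Y i j ≠ 0 → w i - w j = r) : IsNilpotent Y := by
  have h1 : ∀ (k : ℕ) (i j), (Y ^ k) i j ≠ 0 → w i - w j = k * r := by
    intro k
    induction k with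
    | zero =>
      intro i j h
      rw [pow_zero] at h
      by_cases hij : i = j
      · rw [hij]
        simp
      · exact absurd (Matrix.one_apply_ne hij) h
    | succ k ih =>
      intro i j h
      rw [pow_succ, Matrix.mul_apply] at h
      obtain ⟨l, -, hl⟩ := Finset.exists_ne_zero_of_sum_ne_zero h
      have h2 := ih i l (left_ne_zero_of_mul hl)
      have h3 := hY l j (right_ne_zero_of_mul hl)
      push_cast
      linarith
  refine ⟨(2 * ∑ i, |w i|).toNat + 1, ?_⟩
  ext i j
  by_contra h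
  have h2 := h1 _ i j h
  have h3 : ∀ i, |w i| ≤ ∑ i, |w i| := fun i =>
    Finset.single_le_sum (f := fun i => |w i|) (fun i _ => abs_nonneg _) (Finset.mem_univ i)
  have h4 : |w i - w j| ≤ 2 * ∑ i, |w i| := by
    have := abs_sub (w i) (w j)
    have a := h3 i
    have b := h3 j
    linarith
  have h5 : (0 : ℤ) ≤ 2 * ∑ i, |w i| := le_trans (abs_nonneg _) h4
  rw [h2] at h4
  push_cast at h4
  rw [Int.toNat_of_nonneg h5, abs_mul] at h4
  have h6 : 1 ≤ |r| := Int.one_le_abs hr
  have h7 : |2 * ∑ i, |w i| + 1| = 2 * ∑ i, |w i| + 1 := abs_of_nonneg (by linarith)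
  rw [h7] at h4
  nlinarith

theorem conj_diag_comm {m : ℕ} {P P' A B : Matrix (Fin m) (Fin m) ℂ} (h2 : P' * P = 1) :
    (P * A * P') * (P * B * P') = P * (A * B) * P' := by
  calc (P * A * P') * (P * B * P') = P * A * (P' * P) * B * P' := by simp only [mul_assoc]
    _ = P * (A * B) * P' := by rw [h2]; simp only [mul_assoc, one_mul]

theorem lifts_comm (hn : 4 ≤ n) (hE : ¬ E.Splits) {P P' : Matrix (Fin (n + 1)) (Fin (n + 1)) ℂ}
    {w : Fin (n + 1) → ℤ} (h1 : P * P' = 1) (h2 : P' * P = 1)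
    (hS : LiftsTo E (P * Matrix.diagonal (fun i => (w i : ℂ)) * P')) (hT : LiftsTo E T) :
    (P * Matrix.diagonal (fun i => (w i : ℂ)) * P') * T =
      T * (P * Matrix.diagonal (fun i => (w i : ℂ)) * P') := by
  classical
  set T' := P' * T * P with hT'
  have hTT : T = P * T' * P' := by
    rw [hT']
    calc T = (P * P') * T * (P * P') := by rw [h1, one_mul, mul_one]
      _ = P * (P' * T * P) * P' := by simp only [mul_assoc]
  have key : ∀ i j, w i ≠ w j → T' i j = 0 := by
    intro i₀ j₀ hw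
    by_contra hne
    let Y : Finset ℤ → Matrix (Fin (n + 1)) (Fin (n + 1)) ℂ := fun R =>
      Matrix.of fun i j => T' i j * ∏ r ∈ R, (((w i : ℂ) - w j) - r)
    have hY : ∀ R : Finset ℤ, LiftsTo E (P * Y R * P') := by
      intro R
      induction R using Finset.induction_on with
      | empty =>
        have h3 : Y ∅ = T' := by
          ext i j
          simp [Y]
        rw [h3, ← hTT]
        exact hT
      | insert r R hr ih =>
        have h3 : P * Y (insert r R) * P' =
            ((P * Matrix.diagonal (fun i => (w i : ℂ)) * P') * (P * Y R * P') -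
              (P * Y R * P') * (P * Matrix.diagonal (fun i => (w i : ℂ)) * P')) +
            (-(r : ℂ)) • (P * Y R * P') := by
          rw [conj_diag_comm h2, conj_diag_comm h2, ← Matrix.smul_mul, ← Matrix.mul_smul,
            ← sub_mul, ← mul_sub, ← add_mul, ← mul_add]
          congr 2
          ext i j
          rw [Matrix.add_apply, Matrix.sub_apply, Matrix.diagonal_mul, Matrix.mul_diagonal,
            Matrix.smul_apply, smul_eq_mul]
          simp only [Y, Matrix.of_apply]
          rw [Finset.prod_insert hr]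
          ring
        rw [h3]
        exact (hS.bracket ih).add (ih.smul _)
    set r₀ := w i₀ - w j₀ with hr₀
    set R₀ := ((Finset.univ : Finset (Fin (n + 1) × Fin (n + 1))).image
      (fun p => w p.1 - w p.2)).erase r₀ with hR₀
    have hYw : ∀ i j, Y R₀ i j ≠ 0 → w i - w j = r₀ := by
      intro i j h
      by_contra hc
      apply h
      simp only [Y, Matrix.of_apply]
      rw [Finset.prod_eq_zero (i := w i - w j), mul_zero]
      · rw [hR₀, Finset.mem_erase]
        exact ⟨hc, Finset.mem_image.2 ⟨(i, j), Finset.mem_univ _, rfl⟩⟩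
      · push_cast
        ring
    have hr0 : r₀ ≠ 0 := sub_ne_zero.2 hw
    have hYnil := nil_of_weight hr0 hYw
    have hZnil : IsNilpotent (P * Y R₀ * P') := by
      obtain ⟨k, hk⟩ := hYnil
      refine ⟨k + 1, ?_⟩
      have h4 : ∀ j : ℕ, (P * Y R₀ * P') ^ (j + 1) = P * Y R₀ ^ (j + 1) * P' := by
        intro j
        induction j with
        | zero => rw [zero_add, pow_one, pow_one]
        | succ j ih => rw [pow_succ, ih, conj_diag_comm h2, ← pow_succ]
      rw [h4, pow_succ, hk, zero_mul, mul_zero, zero_mul]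
    have hZ := dz_nil (lifts_dz hn hE (hY R₀)) hZnil
    have hY0 : Y R₀ = 0 := by
      calc Y R₀ = (P' * P) * Y R₀ * (P' * P) := by rw [h2, one_mul, mul_one]
        _ = P' * (P * Y R₀ * P') * P := by simp only [mul_assoc]
        _ = 0 := by rw [hZ, mul_zero, zero_mul]
    have h5 := congrFun (congrFun hY0 i₀) j₀
    simp only [Y, Matrix.of_apply, Matrix.zero_apply] at h5
    rcases mul_eq_zero.1 h5 with h6 | h6
    · exact hne h6
    · rw [Finset.prod_eq_zero_iff] at h6
      obtain ⟨r, hr, h7⟩ := h6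
      rw [hR₀, Finset.mem_erase] at hr
      apply hr.1
      have h8 : (r : ℂ) = ((w i₀ - w j₀ : ℤ) : ℂ) := by
        push_cast
        linear_combination -h7
      rw [hr₀]
      exact_mod_cast h8
  have hcomm : Matrix.diagonal (fun i => (w i : ℂ)) * T' =
      T' * Matrix.diagonal (fun i => (w i : ℂ)) := by
    ext i j
    rw [Matrix.diagonal_mul, Matrix.mul_diagonal]
    by_cases hw : w i = w j
    · rw [hw, mul_comm]
    · rw [key i j hw, mul_zero, zero_mul]
  rw [hTT, conj_diag_comm h2, conj_diag_comm h2, hcomm]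

/-- **The structure theorem.** -/
theorem structure_main (hn : 4 ≤ n) (hE : ¬ E.Splits) :
    ∃ (P P' : Matrix (Fin (n + 1)) (Fin (n + 1)) ℂ) (w : Fin (n + 1) → ℤ),
      P * P' = 1 ∧ ∀ N, LiftsTo E N →
        ∃ a b : ℂ, N = a • (P * Matrix.diagonal (fun i => (w i : ℂ)) * P') + b • 1 := by
  by_cases hall : ∀ N, LiftsTo E N → ∃ b : ℂ, N = b • 1
  · refine ⟨1, 1, 0, one_mul _, fun N hN => ?_⟩
    obtain ⟨b, hb⟩ := hall N hN
    exact ⟨0, b, by rw [zero_smul, zero_add]; exact hb⟩
  push Not at hall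
  obtain ⟨N₀, hN₀, hns⟩ := hall
  obtain ⟨P, P', w, a, b, ha, h1, h2, h3⟩ := lifts_int hn hE hN₀ hns
  set S := P * Matrix.diagonal (fun i => (w i : ℂ)) * P' with hS
  have hSl : LiftsTo E S := by
    have h4 : S = a⁻¹ • (N₀ + (-b) • 1) := by
      rw [h3, add_assoc, ← add_smul, add_neg_cancel, zero_smul, add_zero, smul_smul,
        inv_mul_cancel₀ ha, one_smul]
    rw [h4]
    exact (hN₀.add ((LiftsTo.one E).smul _)).smul _
  have hSns : ∀ c : ℂ, S ≠ c • 1 := by
    intro c hc
    apply hns (a * c + b)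
    rw [h3, hc, smul_smul, ← add_smul]
  refine ⟨P, P', w, h1, fun N hN => ?_⟩
  by_cases hNs : ∃ c : ℂ, N = c • 1
  · obtain ⟨c, hc⟩ := hNs
    exact ⟨0, c, by rw [zero_smul, zero_add]; exact hc⟩
  push Not at hNs
  obtain ⟨R, R', v, a₂, b₂, ha₂, k1, k2, k3⟩ := lifts_int hn hE hN hNs
  set S₂ := R * Matrix.diagonal (fun i => (v i : ℂ)) * R' with hS₂
  have hS₂l : LiftsTo E S₂ := by
    have h4 : S₂ = a₂⁻¹ • (N + (-b₂) • 1) := by
      rw [k3, add_assoc, ← add_smul, add_neg_cancel, zero_smul, add_zero, smul_smul,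
        inv_mul_cancel₀ ha₂, one_smul]
    rw [h4]
    exact (hN.add ((LiftsTo.one E).smul _)).smul _
  have hcomm : S * S₂ = S₂ * S := lifts_comm hn hE h1 h2 hSl hS₂l
  obtain ⟨Q, Q', s, t, q1, q2, q3, q4⟩ := exists_simdiag hcomm (lifts_dz hn hE hSl)
    (lifts_dz hn hE hS₂l)
  -- the eigenvalues are integers
  have hint : ∀ {P P' : Matrix (Fin (n + 1)) (Fin (n + 1)) ℂ} {w : Fin (n + 1) → ℤ}
      {S : Matrix (Fin (n + 1)) (Fin (n + 1)) ℂ} {s : Fin (n + 1) → ℂ}, P * P' = 1 → P' * P = 1 →
      S = P * Matrix.diagonal (fun i => (w i : ℂ)) * P' → Q' * S * Q = Matrix.diagonal s →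
      ∀ j, ∃ z : ℤ, s j = z := by
    intro P P' w S s h1 h2 hS q3 j
    have h4 : S * Q = Q * Matrix.diagonal s := by
      rw [← q3]
      calc S * Q = (Q * Q') * S * Q := by rw [q1, one_mul]
        _ = Q * (Q' * S * Q) := by simp only [mul_assoc]
    have h5 : Matrix.diagonal (fun i => (w i : ℂ)) * (P' * Q) = (P' * Q) * Matrix.diagonal s := by
      calc Matrix.diagonal (fun i => (w i : ℂ)) * (P' * Q) =
          (P' * P) * Matrix.diagonal (fun i => (w i : ℂ)) * (P' * Q) := by rw [h2, one_mul]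
        _ = P' * ((P * Matrix.diagonal (fun i => (w i : ℂ)) * P') * Q) := by
            simp only [mul_assoc]
        _ = P' * (Q * Matrix.diagonal s) := by rw [← hS, h4]
        _ = (P' * Q) * Matrix.diagonal s := by simp only [mul_assoc]
    obtain ⟨i, hi⟩ : ∃ i, (P' * Q) i j ≠ 0 := by
      by_contra hc
      push Not at hc
      have h6 : (Q' * P) * (P' * Q) = 1 := by
        calc (Q' * P) * (P' * Q) = Q' * (P * P') * Q := by simp only [mul_assoc]
          _ = 1 := by rw [h1, mul_one, q2]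
      have h7 := congrFun (congrFun h6 j) j
      rw [Matrix.mul_apply, Matrix.one_apply_eq] at h7
      rw [Finset.sum_eq_zero (fun i _ => by rw [hc i, mul_zero])] at h7
      exact zero_ne_one h7
    refine ⟨w i, ?_⟩
    have h8 := congrFun (congrFun h5 i) j
    rw [Matrix.diagonal_mul, Matrix.mul_diagonal, mul_comm] at h8
    exact (mul_left_cancel₀ hi h8).symm
  have hs := hint h1 h2 hS q3
  have ht := hint k1 k2 hS₂ q4
  choose sz hsz using hs
  choose tz htz using ht
  -- the combination with √2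
  have hK : LiftsTo E (S + ((Real.sqrt 2 : ℝ) : ℂ) • S₂) := hSl.add (hS₂l.smul _)
  have hKd : Q' * (S + ((Real.sqrt 2 : ℝ) : ℂ) • S₂) * Q =
      Matrix.diagonal (fun j => s j + ((Real.sqrt 2 : ℝ) : ℂ) * t j) := by
    rw [mul_add, add_mul, q3, Matrix.mul_smul, Matrix.smul_mul, q4, ← Matrix.diagonal_smul,
      Matrix.diagonal_add]
    rfl
  have hdep : ∀ i j k, (sz j - sz i) * (tz k - tz i) = (sz k - sz i) * (tz j - tz i) := by
    intro i j k
    have h4 := lifts_rat hn hE hK q1 hKd i j k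
    rw [LinearIndependent.pair_iff] at h4
    push Not at h4
    obtain ⟨p, q, hpq, hne⟩ := h4
    simp only [Rat.smul_def, hsz, htz] at hpq
    -- separate the rational and the irrational part
    have h5 : (((p * (sz j - sz i) + q * (sz k - sz i) : ℚ) : ℝ) +
        Real.sqrt 2 * ((p * (tz j - tz i) + q * (tz k - tz i) : ℚ) : ℝ)) = 0 := by
      have h6 : (((((p * (sz j - sz i) + q * (sz k - sz i) : ℚ) : ℝ) +
        Real.sqrt 2 * ((p * (tz j - tz i) + q * (tz k - tz i) : ℚ) : ℝ) : ℝ)) : ℂ) = 0 := by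
        push_cast
        linear_combination hpq
      exact_mod_cast h6
    have h7 : (p * (tz j - tz i) + q * (tz k - tz i) : ℚ) = 0 := by
      by_contra hc
      have hirr := irrational_sqrt_two
      apply hirr
      refine ⟨-(p * (sz j - sz i) + q * (sz k - sz i)) / (p * (tz j - tz i) + q * (tz k - tz i)), ?_⟩
      have hc' : (((p * (tz j - tz i) + q * (tz k - tz i) : ℚ)) : ℝ) ≠ 0 := by exact_mod_cast hc
      rw [Rat.cast_div, Rat.cast_neg]
      rw [div_eq_iff hc']
      linarith
    have h8 : (p * (sz j - sz i) + q * (sz k - sz i) : ℚ) = 0 := by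
      rw [h7, Rat.cast_zero, mul_zero, add_zero] at h5
      exact_mod_cast h5
    have h9 : (((sz j - sz i) * (tz k - tz i) - (sz k - sz i) * (tz j - tz i) : ℤ) : ℚ) = 0 := by
      push_cast
      by_cases hp : p = 0
      · have hq := hne hp
        have e1 : ((sz k : ℚ) - sz i) = 0 := by
          rw [hp, zero_mul, zero_add] at h8
          exact (mul_eq_zero.1 h8).resolve_left hq
        have e2 : ((tz k : ℚ) - tz i) = 0 := by
          rw [hp, zero_mul, zero_add] at h7
          exact (mul_eq_zero.1 h7).resolve_left hq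
        rw [e1, e2]
        ring
      · apply mul_left_cancel₀ hp
        linear_combination ((tz k : ℚ) - tz i) * h8 - ((sz k : ℚ) - sz i) * h7
    have h10 : (sz j - sz i) * (tz k - tz i) - (sz k - sz i) * (tz j - tz i) = 0 := by
      exact_mod_cast h9
    linarith
  obtain ⟨i, j, hij⟩ : ∃ i j, sz j ≠ sz i := by
    by_contra hc
    push Not at hc
    apply hSns (s 0)
    have h4 : Matrix.diagonal s = s 0 • (1 : Matrix (Fin (n + 1)) (Fin (n + 1)) ℂ) := by
      rw [← Matrix.diagonal_one, ← Matrix.diagonal_smul]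
      congr 1
      funext l
      rw [Pi.smul_apply, smul_eq_mul, mul_one, hsz l, hsz 0, hc 0 l]
    calc S = (Q * Q') * S * (Q * Q') := by rw [q1, one_mul, mul_one]
      _ = Q * (Q' * S * Q) * Q' := by simp only [mul_assoc]
      _ = s 0 • 1 := by rw [q3, h4, Matrix.mul_smul, mul_one, Matrix.smul_mul, q1]
  have hij' : ((sz j : ℂ) - sz i) ≠ 0 := by
    have h4 : (sz j - sz i) ≠ 0 := sub_ne_zero.2 hij
    exact_mod_cast h4
  set c : ℂ := ((tz j : ℂ) - tz i) / ((sz j : ℂ) - sz i) with hc
  have hS₂c : S₂ = c • S + ((tz i : ℂ) - c * sz i) • 1 := by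
    have h4 : Matrix.diagonal t = c • Matrix.diagonal s +
        ((tz i : ℂ) - c * sz i) • (1 : Matrix (Fin (n + 1)) (Fin (n + 1)) ℂ) := by
      rw [← Matrix.diagonal_one, ← Matrix.diagonal_smul, ← Matrix.diagonal_smul,
        Matrix.diagonal_add]
      congr 1
      funext k
      simp only [Pi.smul_apply, smul_eq_mul, mul_one]
      rw [htz, hsz, hc]
      have h5 : (((sz j - sz i) * (tz k - tz i) : ℤ) : ℂ) =
          (((sz k - sz i) * (tz j - tz i) : ℤ) : ℂ) := by rw [hdep i j k]
      push_cast at h5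
      field_simp
      linear_combination h5
    calc S₂ = (Q * Q') * S₂ * (Q * Q') := by rw [q1, one_mul, mul_one]
      _ = Q * (Q' * S₂ * Q) * Q' := by simp only [mul_assoc]
      _ = c • (Q * (Q' * S * Q) * Q') + ((tz i : ℂ) - c * sz i) • 1 := by
          rw [q4, h4, mul_add, add_mul, Matrix.mul_smul, Matrix.smul_mul, Matrix.mul_smul, mul_one,
            Matrix.smul_mul, q1, q3]
      _ = c • ((Q * Q') * S * (Q * Q')) + ((tz i : ℂ) - c * sz i) • 1 := by
          simp only [mul_assoc]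
      _ = c • S + ((tz i : ℂ) - c * sz i) • 1 := by rw [q1, one_mul, mul_one]
  refine ⟨a₂ * c, a₂ * ((tz i : ℂ) - c * sz i) + b₂, ?_⟩
  rw [k3, hS₂c, smul_add, smul_smul, smul_smul, add_assoc, ← add_smul]

end Pool.Agent.W615
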