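import Pool.Agent.W615.FixedPlane

/-!
# Weights at fixed points; limits under a one-dimensional torus (helper615)
-/

set_option autoImplicit false
set_option maxHeartbeats 400000

open MvPolynomial H960VB H938TB

namespace Pool.Agent.W615

/-- the weight at the value `v` -/
def chi (v : ℤ) : M →+ ℤ := AddMonoidHom.mk' (fun τ => τ.2.1 - v * τ.1) (by
  intro a b
  simp only [Prod.fst_add, Prod.snd_add]
  ring)

theorem chi_def (v : ℤ) (τ : M) : chi v τ = τ.2.1 - v * τ.1 := rfl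

theorem chi_tw {n : ℕ} (w : Fin (n + 1) → ℤ × ℤ) (v : ℤ) (l : Fin (n + 1)) :
    chi v (tw w l) = (w l).1 - v := by
  show (w l).1 - v * 1 = _
  rw [mul_one]

theorem chi_shift (v v' : ℤ) (τ : M) : chi v' τ = chi v τ - (v' - v) * τ.1 := by
  rw [chi_def, chi_def]
  ring

variable {n : ℕ} {w : Fin (n + 1) → ℤ × ℤ}

theorem chi_weight (v : ℤ) (u : Fin (n + 1) →₀ ℕ) :
    chi v (Finsupp.weight (tw w) u) = ∑ i, (u i : ℤ) * ((w i).1 - v) := by
  rw [weight_chi]
  refine Finset.sum_congr rfl fun i _ => ?_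
  rw [chi_tw, nsmul_eq_mul]

/-- `z` is fixed with the weight `v` -/
def Fixed (w : Fin (n + 1) → ℤ × ℤ) (z : Fin (n + 1) → ℂ) (v : ℤ) : Prop :=
  ∀ l, z l ≠ 0 → (w l).1 = v

/-- a monomial of `p` which does not vanish at `z` -/
theorem exists_mono {p : MvPolynomial (Fin (n + 1)) ℂ} {z : Fin (n + 1) → ℂ} (h : eval z p ≠ 0) :
    ∃ u, coeff u p ≠ 0 ∧ ∀ l, u l ≠ 0 → z l ≠ 0 := by
  by_contra hc
  push Not at hc
  apply h
  rw [eval_eq']
  refine Finset.sum_eq_zero fun u hu => ?_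
  obtain ⟨l, hl, hz⟩ := hc u (mem_support_iff.1 hu)
  rw [Finset.prod_eq_zero (Finset.mem_univ l) (by rw [hz, zero_pow hl]), mul_zero]

variable {p : MvPolynomial (Fin (n + 1)) ℂ} {τ : M} {z : Fin (n + 1) → ℂ} {v : ℤ}

theorem chi_zero (hp : IsWeightedHomogeneous (tw w) p τ) (hz : Fixed w z v) (h : eval z p ≠ 0) :
    chi v τ = 0 := by
  obtain ⟨u, hu, hl⟩ := exists_mono h
  rw [← hp hu, chi_weight]
  refine Finset.sum_eq_zero fun i _ => ?_
  by_cases h0 : u i = 0
  · rw [h0]; simp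
  · rw [hz i (hl i h0)]; simp

theorem chi_nonneg (hp : IsWeightedHomogeneous (tw w) p τ) (hz : ∀ l, z l ≠ 0 → v ≤ (w l).1)
    (h : eval z p ≠ 0) : 0 ≤ chi v τ := by
  obtain ⟨u, hu, hl⟩ := exists_mono h
  rw [← hp hu, chi_weight]
  refine Finset.sum_nonneg fun i _ => ?_
  by_cases h0 : u i = 0
  · rw [h0]; simp
  · have := hz i (hl i h0)
    exact mul_nonneg (Int.natCast_nonneg _) (by omega)

theorem chi_nonpos (hp : IsWeightedHomogeneous (tw w) p τ) (hz : ∀ l, z l ≠ 0 → (w l).1 ≤ v)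
    (h : eval z p ≠ 0) : chi v τ ≤ 0 := by
  obtain ⟨u, hu, hl⟩ := exists_mono h
  rw [← hp hu, chi_weight]
  refine Finset.sum_nonpos fun i _ => ?_
  by_cases h0 : u i = 0
  · rw [h0]; simp
  · have := hz i (hl i h0)
    exact mul_nonpos_of_nonneg_of_nonpos (Int.natCast_nonneg _) (by omega)

theorem wh_pderiv (hp : IsWeightedHomogeneous (tw w) p τ) (l : Fin (n + 1)) :
    IsWeightedHomogeneous (tw w) (pderiv l p) (τ - tw w l) :=
  hp.pderiv (sub_add_cancel _ _)

theorem chi_pderiv (hp : IsWeightedHomogeneous (tw w) p τ) (hz : Fixed w z v) {l : Fin (n + 1)}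
    (h : eval z (pderiv l p) ≠ 0) : chi v τ = (w l).1 - v := by
  have h1 := chi_zero (wh_pderiv hp l) hz h
  rw [map_sub, chi_tw] at h1
  omega

/-- the part of weight `v` -/
def part (w : Fin (n + 1) → ℤ × ℤ) (v : ℤ) (z : Fin (n + 1) → ℂ) : Fin (n + 1) → ℂ :=
  fun l => if (w l).1 = v then z l else 0

theorem part_fixed (w : Fin (n + 1) → ℤ × ℤ) (v : ℤ) (z : Fin (n + 1) → ℂ) :
    Fixed w (part w v z) v := by
  intro l hl
  by_contra h
  apply hl
  show (if (w l).1 = v then z l else 0) = 0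
  rw [if_neg h]

/-- **limits.** -/
theorem eval_part (hp : IsWeightedHomogeneous (tw w) p τ)
    (hz : (∀ l, z l ≠ 0 → v ≤ (w l).1) ∨ (∀ l, z l ≠ 0 → (w l).1 ≤ v))
    (h : eval (part w v z) p ≠ 0) : eval z p = eval (part w v z) p := by
  have hχ := chi_zero hp (part_fixed w v z) h
  rw [eval_eq', eval_eq']
  refine Finset.sum_congr rfl fun u hu => ?_
  congr 1
  by_cases hu0 : ∃ l, u l ≠ 0 ∧ z l = 0
  · obtain ⟨l, hl, hzl⟩ := hu0
    rw [Finset.prod_eq_zero (Finset.mem_univ l) (by rw [hzl, zero_pow hl]),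
      Finset.prod_eq_zero (Finset.mem_univ l)]
    have : part w v z l = 0 := by
      show (if (w l).1 = v then z l else 0) = 0
      rw [hzl, ite_self]
    rw [this, zero_pow hl]
  · push Not at hu0
    have h1 : ∑ i, (u i : ℤ) * ((w i).1 - v) = 0 := by
      rw [← chi_weight, hp (mem_support_iff.1 hu), hχ]
    have h2 : ∀ i, (u i : ℤ) * ((w i).1 - v) = 0 := by
      intro i
      rcases hz with hz | hz
      · rw [Finset.sum_eq_zero_iff_of_nonneg] at h1
        · exact h1 i (Finset.mem_univ i)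
        · intro j _
          by_cases h0 : u j = 0
          · rw [h0]; simp
          · have := hz j (hu0 j h0)
            exact mul_nonneg (Int.natCast_nonneg _) (by omega)
      · rw [Finset.sum_eq_zero_iff_of_nonpos] at h1
        · exact h1 i (Finset.mem_univ i)
        · intro j _
          by_cases h0 : u j = 0
          · rw [h0]; simp
          · have := hz j (hu0 j h0)
            exact mul_nonpos_of_nonneg_of_nonpos (Int.natCast_nonneg _) (by omega)
    refine Finset.prod_congr rfl fun l _ => ?_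
    by_cases h0 : u l = 0
    · rw [h0, pow_zero, pow_zero]
    · have h3 : (w l).1 = v := by
        rcases mul_eq_zero.1 (h2 l) with h4 | h4
        · exact absurd (by exact_mod_cast h4) h0
        · omega
      show z l ^ u l = (if (w l).1 = v then z l else 0) ^ u l
      rw [if_pos h3]

theorem eval_ne_of_part (hp : IsWeightedHomogeneous (tw w) p τ)
    (hz : (∀ l, z l ≠ 0 → v ≤ (w l).1) ∨ (∀ l, z l ≠ 0 → (w l).1 ≤ v))
    (h : eval (part w v z) p ≠ 0) : eval z p ≠ 0 := by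
  rw [eval_part hp hz h]
  exact h

theorem eval_scale (hp : IsWeightedHomogeneous (tw w) p τ) (c : ℂ) :
    ∃ k : ℕ, eval (c • z) p = c ^ k * eval z p := by
  rcases homZ_of hp with rfl | ⟨k, -, hk⟩
  · exact ⟨0, by simp⟩
  · refine ⟨k, ?_⟩
    rw [eval_eq', eval_eq', Finset.mul_sum]
    refine Finset.sum_congr rfl fun u hu => ?_
    have h1 := hk (mem_support_iff.1 hu)
    rw [Finsupp.weight_apply, Finsupp.sum_fintype _ _ (by simp)] at h1
    have h2 : ∏ i, (c • z) i ^ u i = c ^ k * ∏ i, z i ^ u i := by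
      simp only [Pi.smul_apply, smul_eq_mul, mul_pow, Finset.prod_mul_distrib]
      rw [Finset.prod_pow_eq_pow_sum]
      congr 2
      rw [← h1]
      simp
    rw [h2]
    ring

theorem eval_scale_ne (hp : IsWeightedHomogeneous (tw w) p τ) {c : ℂ} (hc : c ≠ 0) :
    eval (c • z) p ≠ 0 ↔ eval z p ≠ 0 := by
  obtain ⟨k, hk⟩ := eval_scale (z := z) hp c
  rw [hk]
  constructor
  · exact right_ne_zero_of_mul
  · exact mul_ne_zero (pow_ne_zero _ hc)

/-- a minimal and a maximal weight on the support -/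
theorem exists_min_weight (w : Fin (n + 1) → ℤ × ℤ) (hz : z ≠ 0) :
    ∃ l, z l ≠ 0 ∧ ∀ l', z l' ≠ 0 → (w l).1 ≤ (w l').1 := by
  classical
  obtain ⟨i, hi⟩ : ∃ i, z i ≠ 0 := by
    by_contra hc
    push Not at hc
    exact hz (funext hc)
  obtain ⟨l, hl, hmin⟩ := Finset.exists_min_image (Finset.univ.filter fun l => z l ≠ 0)
    (fun l => (w l).1) ⟨i, by rw [Finset.mem_filter]; exact ⟨Finset.mem_univ _, hi⟩⟩
  rw [Finset.mem_filter] at hl
  exact ⟨l, hl.2, fun l' hl' => hmin l' (by rw [Finset.mem_filter]; exact ⟨Finset.mem_univ _, hl'⟩)⟩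

theorem exists_max_weight (w : Fin (n + 1) → ℤ × ℤ) (hz : z ≠ 0) :
    ∃ l, z l ≠ 0 ∧ ∀ l', z l' ≠ 0 → (w l').1 ≤ (w l).1 := by
  classical
  obtain ⟨i, hi⟩ : ∃ i, z i ≠ 0 := by
    by_contra hc
    push Not at hc
    exact hz (funext hc)
  obtain ⟨l, hl, hmin⟩ := Finset.exists_max_image (Finset.univ.filter fun l => z l ≠ 0)
    (fun l => (w l).1) ⟨i, by rw [Finset.mem_filter]; exact ⟨Finset.mem_univ _, hi⟩⟩
  rw [Finset.mem_filter] at hl
  exact ⟨l, hl.2, fun l' hl' => hmin l' (by rw [Finset.mem_filter]; exact ⟨Finset.mem_univ _, hl'⟩)⟩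

theorem part_ne {l : Fin (n + 1)} (hl : z l ≠ 0) : part w (w l).1 z ≠ 0 := by
  intro h
  apply hl
  have h1 := congrFun h l
  have h2 : part w (w l).1 z l = z l := by
    show (if (w l).1 = (w l).1 then z l else 0) = z l
    rw [if_pos rfl]
  rw [← h2, h1]
  rfl

/-! ### types of the sections at fixed points -/

variable {E : Bundle2 n} {D : EqB E w} (W : Wedge D)

/-- the vanishing of a section in terms of wedge products -/
theorem wd_zero_of_evv {G s : Vec E.a n} (hG : Ker E G) (hs : Ker E s) (hz : z ≠ 0)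
    (h : evv s z = 0) : eval z (W.wd G s) = 0 := by
  obtain ⟨i, j, hij⟩ := W.P_ne z hz
  have h1 := congrArg (eval z) (W.eq G s hG hs i j)
  have h2 : ∀ i, eval z (s i) = 0 := fun i => congrFun h i
  rw [map_sub, map_mul, map_mul, map_mul, h2, h2, mul_zero, mul_zero, sub_zero] at h1
  exact (mul_eq_zero.1 h1.symm).resolve_right hij

theorem evv_zero_of_wd {G G' s : Vec E.a n} (hG : Ker E G) (hG' : Ker E G') (hs : Ker E s)
    (h : eval z (W.wd G G') ≠ 0) (h1 : eval z (W.wd G s) = 0) (h2 : eval z (W.wd G' s) = 0) :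
    evv s z = 0 := by
  funext i
  have h3 := congrArg (eval z) (W.three G G' s hG hG' hs i)
  rw [map_add, map_sub, map_mul, map_mul, map_mul, h1, h2, map_zero, zero_mul, zero_mul, sub_zero,
    zero_add] at h3
  exact (mul_eq_zero.1 h3).resolve_left h

/-- types of a pair of sections which form a basis of the fibre at `z` -/
def Ty (z : Fin (n + 1) → ℂ) (v A B : ℤ) : Prop :=
  ∃ (τ τ' : M) (G G' : Vec E.a n), HSec D τ G ∧ HSec D τ' G' ∧ eval z (W.wd G G') ≠ 0 ∧
    chi v τ = A ∧ chi v τ' = B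

theorem Ty.exists (hz : z ≠ 0) (v : ℤ) : ∃ A B, Ty W z v A B := by
  obtain ⟨τ, τ', G, G', hG, hG', h⟩ := exists_ne W z hz
  exact ⟨_, _, τ, τ', G, G', hG, hG', h, rfl, rfl⟩

theorem Ty.swap {A B : ℤ} (h : Ty W z v A B) : Ty W z v B A := by
  obtain ⟨τ, τ', G, G', hG, hG', h, hA, hB⟩ := h
  refine ⟨τ', τ, G', G, hG', hG, ?_, hB, hA⟩
  rw [W.anti G' G hG'.ker hG.ker, map_neg]
  exact neg_ne_zero.2 h

theorem Ty.sum {A B : ℤ} (hf : Fixed w z v) (h : Ty W z v A B) : A + B + chi v W.κ = 0 := by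
  obtain ⟨τ, τ', G, G', hG, hG', h, rfl, rfl⟩ := h
  have := chi_zero (W.hom _ _ _ _ hG hG') hf h
  rwa [map_add, map_add] at this

/-- the types only depend on the value -/
theorem Ty.unique {z' : Fin (n + 1) → ℂ} (hz0 : z ≠ 0) (hz : Fixed w z v) (hz' : Fixed w z' v)
    {A B A' B' : ℤ}
    (h : Ty W z v A B) (h' : Ty W z' v A' B') : (A = A' ∧ B = B') ∨ (A = B' ∧ B = A') := by
  have hs := Ty.sum W hz h
  have hs' := Ty.sum W hz' h'
  obtain ⟨τ, τ', G, G', hG, hG', h, rfl, rfl⟩ := h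
  obtain ⟨ρ, ρ', H, H', hH, hH', h', rfl, rfl⟩ := h'
  -- a point where both do not vanish
  obtain ⟨y, hy0, hy, h1, h2⟩ : ∃ y, y ≠ 0 ∧ Fixed w y v ∧ eval y (W.wd G G') ≠ 0 ∧
      eval y (W.wd H H') ≠ 0 := by
    obtain ⟨l0, hl0⟩ : ∃ i, z i ≠ 0 := by
      by_contra hc
      push Not at hc
      exact hz0 (funext hc)
    let T : (Fin (1 + 1) → ℂ) →ₗ[ℂ] (Fin (n + 1) → ℂ) :=
      (LinearMap.proj 0 : (Fin 2 → ℂ) →ₗ[ℂ] ℂ).smulRight z +
        (LinearMap.proj 1 : (Fin 2 → ℂ) →ₗ[ℂ] ℂ).smulRight z'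
    have hT : ∀ x l, T x l = x 0 * z l + x 1 * z' l := fun x l => rfl
    have n1 : lsub T (W.wd G G') ≠ 0 := by
      intro h0
      apply h
      have e : T ![1, 0] = z := by
        funext l
        rw [hT]
        simp
      rw [← e, ← eval_lsub, h0, map_zero]
    have n2 : lsub T (W.wd H H') ≠ 0 := by
      intro h0
      apply h'
      have e : T ![0, 1] = z' := by
        funext l
        rw [hT]
        simp
      rw [← e, ← eval_lsub, h0, map_zero]
    have n3 : lsub T (X l0) ≠ 0 := by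
      intro h0
      apply hl0
      have e : T ![1, 0] = z := by
        funext l
        rw [hT]
        simp
      rw [← e, ← eval_X (f := T ![1, 0]) l0, ← eval_lsub, h0, map_zero]
    obtain ⟨x, hx⟩ : ∃ x, eval x (lsub T (W.wd G G') * lsub T (W.wd H H') * lsub T (X l0)) ≠ 0 := by
      by_contra hc
      push Not at hc
      exact mul_ne_zero (mul_ne_zero n1 n2) n3 (MvPolynomial.funext fun x => by rw [hc x, map_zero])
    rw [map_mul, map_mul, eval_lsub, eval_lsub, eval_lsub, eval_X] at hx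
    have hx1 := left_ne_zero_of_mul hx
    refine ⟨T x, fun h => right_ne_zero_of_mul hx (congrFun h l0), fun l hl => ?_,
      left_ne_zero_of_mul hx1, right_ne_zero_of_mul hx1⟩
    rw [hT] at hl
    by_cases h0 : z l = 0
    · apply hz' l
      intro h0'
      apply hl
      rw [h0, h0', mul_zero, mul_zero, add_zero]
    · exact hz l h0
  have h3 : eval y (W.wd G H) ≠ 0 ∨ eval y (W.wd G' H) ≠ 0 := by
    by_contra hc
    push Not at hc
    have h4 := evv_zero_of_wd W hG.ker hG'.ker hH.ker h1 hc.1 hc.2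
    have h5 := wd_zero_of_evv W hH'.ker hH.ker hy0 h4
    apply h2
    rw [W.anti H H' hH.ker hH'.ker, map_neg, h5, neg_zero]
  rcases h3 with h3 | h3
  · have h4 := chi_zero (W.hom _ _ _ _ hG hH) hy h3
    rw [map_add, map_add] at h4
    right
    constructor <;> linarith
  · have h4 := chi_zero (W.hom _ _ _ _ hG' hH) hy h3
    rw [map_add, map_add] at h4
    left
    constructor <;> linarith

end Pool.Agent.W615
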