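import Pool.Agent.W615.Y8

/-!
# Smooth zero loci of codimension two with a one-dimensional torus of symmetries (helper615)
-/

set_option autoImplicit false
set_option maxHeartbeats 800000

open MvPolynomial H960VB H938TB

namespace Pool.Agent.W615

variable {n : ℕ} {w : Fin (n + 1) → ℤ × ℤ} {E : Bundle2 n} {D : EqB E w}

/-- **The equivariant case.**  A bundle of rank two on `P^n`, `n ≥ 7`, with a nontrivial action of
a one-dimensional torus, and with a semi-invariant section whose zero locus is smooth of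
codimension two, splits. -/
theorem torus_main (hn : 7 ≤ n) (D : EqB E w) (hw2 : ∀ i, (w i).2 = 0) (hb2 : ∀ i, (D.b i).2 = 0)
    (hw : ∃ i j, (w i).1 ≠ (w j).1) {σ : M} {s : Vec E.a n} (hs : HSec D σ s)
    (hsm : SmoothF w s) : E.Splits := by
  classical
  by_contra hE
  obtain ⟨W⟩ := exists_wedge (by omega) D
  obtain ⟨ia, -, hmin⟩ := Finset.exists_min_image Finset.univ (fun l => (w l).1)
    ⟨0, Finset.mem_univ _⟩
  obtain ⟨ib, -, hmax⟩ := Finset.exists_max_image Finset.univ (fun l => (w l).1)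
    ⟨0, Finset.mem_univ _⟩
  obtain ⟨a, ha⟩ : ∃ a, a = (w ia).1 := ⟨_, rfl⟩
  obtain ⟨b, hb⟩ : ∃ b, b = (w ib).1 := ⟨_, rfl⟩
  have H : Dat W σ s a b :=
    { hn := by omega
      hE := hE
      hs := hs
      hsm := hsm
      hw2 := hw2
      hb2 := hb2
      ha := fun l => by rw [ha]; exact hmin l (Finset.mem_univ l)
      hb := fun l => by rw [hb]; exact hmax l (Finset.mem_univ l)
      ha' := ⟨ia, ha.symm⟩
      hb' := ⟨ib, hb.symm⟩
      hab := by
        obtain ⟨i, j, hij⟩ := hw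
        have h1 := hmin i (Finset.mem_univ i)
        have h2 := hmin j (Finset.mem_univ j)
        have h3 := hmax i (Finset.mem_univ i)
        have h4 := hmax j (Finset.mem_univ j)
        omega }
  have hab := H.hab
  set SA : Finset (Fin (n + 1)) := Finset.univ.filter fun l => (w l).1 = a with hSA
  set SB : Finset (Fin (n + 1)) := Finset.univ.filter fun l => (w l).1 = b with hSB
  set SI : Finset (Fin (n + 1)) := Finset.univ.filter fun l => a < (w l).1 ∧ (w l).1 < b ∧
    evv s (ee l : Fin (n + 1) → ℂ) = 0 with hSI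
  set SO : Finset (Fin (n + 1)) := Finset.univ.filter fun l => a < (w l).1 ∧ (w l).1 < b ∧
    evv s (ee l : Fin (n + 1) → ℂ) ≠ 0 with hSO
  have mA : ∀ l, l ∈ SA ↔ (w l).1 = a := fun l => by
    rw [hSA, Finset.mem_filter]
    exact ⟨fun h => h.2, fun h => ⟨Finset.mem_univ _, h⟩⟩
  have mB : ∀ l, l ∈ SB ↔ (w l).1 = b := fun l => by
    rw [hSB, Finset.mem_filter]
    exact ⟨fun h => h.2, fun h => ⟨Finset.mem_univ _, h⟩⟩
  have mI : ∀ l, l ∈ SI ↔ (a < (w l).1 ∧ (w l).1 < b ∧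
      evv s (ee l : Fin (n + 1) → ℂ) = 0) := fun l => by
    rw [hSI, Finset.mem_filter]
    exact ⟨fun h => h.2, fun h => ⟨Finset.mem_univ _, h⟩⟩
  have mO : ∀ l, l ∈ SO ↔ (a < (w l).1 ∧ (w l).1 < b ∧
      evv s (ee l : Fin (n + 1) → ℂ) ≠ 0) := fun l => by
    rw [hSO, Finset.mem_filter]
    exact ⟨fun h => h.2, fun h => ⟨Finset.mem_univ _, h⟩⟩
  have cA : SA.card ≤ 2 := by
    by_contra hc
    obtain ⟨x, y, z, hx, hy, hz, hxy, hxz, hyz⟩ := Finset.two_lt_card_iff.1 (by omega : 2 < SA.card)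
    rw [mA] at hx hy hz
    exact H.mult hxy hxz hyz (by omega) (by omega)
  have cB : SB.card ≤ 2 := by
    by_contra hc
    obtain ⟨x, y, z, hx, hy, hz, hxy, hxz, hyz⟩ := Finset.two_lt_card_iff.1 (by omega : 2 < SB.card)
    rw [mB] at hx hy hz
    exact H.mult hxy hxz hyz (by omega) (by omega)
  have cI : SI.card ≤ 2 := by
    by_contra hc
    obtain ⟨x, y, z, hx, hy, hz, hxy, hxz, hyz⟩ := Finset.two_lt_card_iff.1 (by omega : 2 < SI.card)
    rw [mI] at hx hy hz
    exact H.mid_three hxy hxz hyz hx.1 hx.2.1 hy.1 hy.2.1 hz.1 hz.2.1 hx.2.2 hy.2.2 hz.2.2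
  have cO : SO.card ≤ 2 := by
    by_contra hc
    obtain ⟨x, y, z, hx, hy, hz, hxy, hxz, hyz⟩ := Finset.two_lt_card_iff.1 (by omega : 2 < SO.card)
    rw [mO] at hx hy hz
    exact H.free hxy hxz hyz hx.1 hx.2.1 hy.1 hy.2.1 hx.2.2 hy.2.2 hz.2.2
  have hcov : (Finset.univ : Finset (Fin (n + 1))) ⊆ (SA ∪ SB) ∪ (SI ∪ SO) := by
    intro l _
    rw [Finset.mem_union, Finset.mem_union, Finset.mem_union, mA, mB, mI, mO]
    have h1 := H.ha l
    have h2 := H.hb l
    by_cases h3 : (w l).1 = a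
    · exact Or.inl (Or.inl h3)
    · by_cases h4 : (w l).1 = b
      · exact Or.inl (Or.inr h4)
      · right
        by_cases h5 : evv s (ee l : Fin (n + 1) → ℂ) = 0
        · exact Or.inl ⟨by omega, by omega, h5⟩
        · exact Or.inr ⟨by omega, by omega, h5⟩
  have hcard := Finset.card_le_card hcov
  rw [Finset.card_univ, Fintype.card_fin] at hcard
  have u1 := Finset.card_union_le (SA ∪ SB) (SI ∪ SO)
  have u2 := Finset.card_union_le SA SB
  have u3 := Finset.card_union_le SI SO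
  obtain ⟨i, i', hii, hA⟩ := Finset.card_eq_two.1 (by omega : SA.card = 2)
  obtain ⟨l₀, l₀', hll, hB⟩ := Finset.card_eq_two.1 (by omega : SB.card = 2)
  obtain ⟨p, q, hpq, hI⟩ := Finset.card_eq_two.1 (by omega : SI.card = 2)
  obtain ⟨x, y, hxy, hO⟩ := Finset.card_eq_two.1 (by omega : SO.card = 2)
  have hp := (mI p).1 (by rw [hI]; simp)
  have hx := (mO x).1 (by rw [hO]; simp)
  have hy := (mO y).1 (by rw [hO]; simp)
  have hi := (mA i).1 (by rw [hA]; simp)
  have hi' := (mA i').1 (by rw [hA]; simp)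
  have hl₀ := (mB l₀).1 (by rw [hB]; simp)
  have hdeg := H.degree hp.1 hp.2.1 hx.1 hx.2.1 hp.2.2 hx.2.2
  have ii : evv s (ee i : Fin (n + 1) → ℂ) = 0 := by
    by_contra ho
    exact H.free hxy (by rintro rfl; omega) (by rintro rfl; omega) hx.1 hx.2.1 hy.1 hy.2.1
      hx.2.2 hy.2.2 ho
  have il : evv s (ee l₀ : Fin (n + 1) → ℂ) = 0 := by
    by_contra ho
    exact H.free hxy (by rintro rfl; omega) (by rintro rfl; omega) hx.1 hx.2.1 hy.1 hy.2.1
      hx.2.2 hy.2.2 ho
  -- the types at the extreme points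
  have hfi : Fixed w (ee i : Fin (n + 1) → ℂ) a := by
    have := ee_fixed w i
    rwa [hi] at this
  have hfl : Fixed w (ee l₀ : Fin (n + 1) → ℂ) b := by
    have := ee_fixed w l₀
    rwa [hl₀] at this
  obtain ⟨A, B, hT⟩ := Ty.exists W (ee_ne i) a
  obtain ⟨A', B', hT'⟩ := Ty.exists W (ee_ne l₀) b
  have s1 := Dat.sum (σ := σ) hfi hT
  have s2 := Dat.sum (σ := σ) hfl hT'
  obtain ⟨r, r', -, e1, e2, -⟩ := type_in W hs (ee_ne i) hfi hT ii
    (hsm _ _ (ee_ne i) hfi ii)
  obtain ⟨t, t', -, e3, e4, -⟩ := type_in W hs (ee_ne l₀) hfl hT' il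
    (hsm _ _ (ee_ne l₀) hfl il)
  have b1 := H.hb r
  have b2 := H.hb r'
  have b3 := H.ha r
  have b4 := H.ha r'
  have b5 := H.ha t
  have b6 := H.ha t'
  have b7 := H.hb t
  have b8 := H.hb t'
  set X := σ + σ + W.κ with hX
  set c := X.1 with hc
  have hcW : (b - a) * c = ((w r).1 - a) + ((w r').1 - a) - ((w t).1 - b) - ((w t').1 - b) := by
    rw [e1, e2] at s1
    rw [e3, e4] at s2
    linear_combination s2 - s1
  have hc0 : 0 ≤ c := by
    by_contra hcon
    push Not at hcon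
    have : (b - a) * c < 0 := mul_neg_of_pos_of_neg (by omega) hcon
    omega
  have hc4 : 4 ≤ c := by omega
  have hc4' : (b - a) * 4 ≤ (b - a) * c := mul_le_mul_of_nonneg_left hc4 (by omega)
  refine no_double W hs hsm hii hi hi' hab hT (by omega) (by omega) (l₀ := l₀) (l₀' := l₀') ?_ ?_
  · intro l hl
    have h1 := (mB l).2 hl
    rw [hB, Finset.mem_insert, Finset.mem_singleton] at h1
    exact h1
  · show c ≠ 2
    omega

end Pool.Agent.W615
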