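import Pool.Agent.W615.X10
import Pool.Agent.W615.Y9

/-!
# From an infinitesimal symmetry to a torus action, with a section (helper615)
-/

set_option autoImplicit false
set_option maxHeartbeats 800000

open MvPolynomial H960VB H938TB

namespace Pool.Agent.W615

variable {n : ℕ} {E : Bundle2 n} {N : Matrix (Fin (n + 1)) (Fin (n + 1)) ℂ}

/-- the section seen in the Plücker presentation -/
theorem smoothAt_wd (W : Wedge (triv E)) {x : Fin (n + 1) → ℂ} (hx : x ≠ 0) {r : ℕ}
    {v : Fin r → Vec E.a n} (hv : ∀ i, Ker E (v i)) {s : Vec E.a n} (hs : Ker E s)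
    {a b : Fin r} (hab : eval x (W.wd (v a) (v b)) ≠ 0) (h0 : evv s x = 0) (h : SmoothAt s x) :
    SmoothAt (fun i => W.wd (v i) s) x := by
  obtain ⟨l, l', i, i', hj⟩ := h
  have e1 := deriv_at_zero W (hv a) (hv b) hs hx h0 l i
  have e2 := deriv_at_zero W (hv a) (hv b) hs hx h0 l i'
  have e3 := deriv_at_zero W (hv a) (hv b) hs hx h0 l' i
  have e4 := deriv_at_zero W (hv a) (hv b) hs hx h0 l' i'
  have key : eval x (W.wd (v a) (v b)) ^ 2 * jm s x l l' i i' =
      (eval x (pderiv l (W.wd (v b) s)) * eval x (pderiv l' (W.wd (v a) s)) -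
        eval x (pderiv l (W.wd (v a) s)) * eval x (pderiv l' (W.wd (v b) s))) *
      (eval x (v b i) * eval x (v a i') - eval x (v b i') * eval x (v a i)) := by
    calc eval x (W.wd (v a) (v b)) ^ 2 * jm s x l l' i i' =
        (eval x (W.wd (v a) (v b)) * eval x (pderiv l (s i))) *
          (eval x (W.wd (v a) (v b)) * eval x (pderiv l' (s i'))) -
        (eval x (W.wd (v a) (v b)) * eval x (pderiv l (s i'))) *
          (eval x (W.wd (v a) (v b)) * eval x (pderiv l' (s i))) := by
          unfold jm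
          ring
      _ = _ := by
          rw [e1, e2, e3, e4]
          ring
  refine ⟨l, l', b, a, fun h1 => ?_⟩
  unfold jm at h1
  rw [h1, zero_mul] at key
  exact mul_ne_zero (pow_ne_zero 2 hab) hj key

theorem exists_fam_s (hn : 1 ≤ n) (O : Op E N) {ds : ℤ} {s : Vec E.a n} (hs : Sec E ds s)
    {lam : ℂ} (hl : O.D s = fun i => C lam * s i) :
    ∃ (P : PD n) (ε : Fin P.r → ℂ) (θ : ℂ) (y : Vec P.r n) (e : ℤ),
      (P.bun.Splits → E.Splits) ∧
      (∀ i j, ∃ K : ℕ, ((vfl N - (ε i + ε j - θ) • 1) ^ K) (P.Q i j) = 0) ∧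
      (∀ i, ∃ K : ℕ, ((vfl N - (ε i + lam - θ) • 1) ^ K) (y i) = 0) ∧
      Ker P.bun y ∧ (∀ i, HomZ (y i) e) ∧
      (∀ x : Fin (n + 1) → ℂ, x ≠ 0 → evv y x = 0 → evv s x = 0) ∧
      (∀ x : Fin (n + 1) → ℂ, x ≠ 0 → evv s x = 0 → SmoothAt s x → SmoothAt y x) := by
  obtain ⟨W⟩ := exists_wedge hn (triv E)
  obtain ⟨θ, hθ⟩ := O.trace W hn
  obtain ⟨d, hd⟩ := exists_deg W
  obtain ⟨r, v, ε, k, hk, hspan⟩ := exists_ge_family (O.lin d)
  have hgen : ∀ x : Fin (n + 1) → ℂ, x ≠ 0 → ∃ i j : Fin r, eval x (W.wd (v i) (v j)) ≠ 0 := by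
    intro x hx
    obtain ⟨G, G', hG, hG', h⟩ := hd x hx
    by_contra hc
    push Not at hc
    apply h
    let F : S0 E d →ₗ[ℂ] S0 E d →ₗ[ℂ] ℂ := (wdB W d d).compr₂
      (aeval x : MvPolynomial (Fin (n + 1)) ℂ →ₐ[ℂ] ℂ).toLinearMap
    have hF : F = 0 := by
      refine LinearMap.ext_on_range hspan fun i => LinearMap.ext_on_range hspan fun j => ?_
      exact hc i j
    have h1 := congrArg (fun f : S0 E d →ₗ[ℂ] S0 E d →ₗ[ℂ] ℂ => f ⟨G, hG⟩ ⟨G', hG'⟩) hF
    exact h1
  let P : PD n :=
    { r := r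
      Q := fun i j => W.wd (v i) (v j)
      e := d + d + W.κ.1
      hom := fun i j => wd_homZ W (v i).2 (v j).2
      anti := fun i j => W.anti _ _ (v i).2.ker (v j).2.ker
      four := fun i j k l => W.four _ _ _ _ (v i).2.ker (v j).2.ker (v k).2.ker (v l).2.ker
      gen := hgen }
  have hβ : ∀ (d d' : ℤ) (a : S0 E d) (b : S0 E d'), wdB W d d' (O.lin d a) b +
      wdB W d d' a (O.lin d' b) = vfl N (wdB W d d' a b) + θ • wdB W d d' a b := by
    intro d d' a b
    rw [smul_eq_C_mul]
    exact hθ d d' a b a.2 b.2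
  refine ⟨P, ε, θ, fun i => W.wd (v i) s, d + ds + W.κ.1, ?_, ?_, ?_, ?_, ?_, ?_, ?_⟩
  · exact splits_transfer W hn P (s := fun j => (v j : Vec E.a n)) (fun j => (v j).2)
      (fun i j => rfl)
  · intro i j
    exact ⟨k i + k j, ge_bilin (O.lin d) (O.lin d) (vfl N) (wdB W d d) θ (hβ d d) (ε i) (ε j)
      (k i + k j) (k i) (k j) (v i) (v j) le_rfl (hk i) (hk j)⟩
  · intro i
    have h1 : ((O.lin ds - lam • 1 : S0 E ds →ₗ[ℂ] S0 E ds) ^ 1) (⟨s, hs⟩ : S0 E ds) = 0 := by
      rw [pow_one, LinearMap.sub_apply, LinearMap.smul_apply, Module.End.one_apply, sub_eq_zero]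
      apply Subtype.ext
      show O.D s = lam • s
      rw [hl]
      funext i
      rw [Pi.smul_apply, smul_eq_C_mul]
    exact ⟨k i + 1, ge_bilin (O.lin d) (O.lin ds) (vfl N) (wdB W d ds) θ (hβ d ds) (ε i) lam
      (k i + 1) (k i) 1 (v i) ⟨s, hs⟩ le_rfl (hk i) h1⟩
  · refine (P.ker_iff _).2 fun i j k => ?_
    have h1 := W.four (v i) (v j) (v k) s (v i).2.ker (v j).2.ker (v k).2.ker hs.ker
    show W.wd (v j) (v k) * W.wd (v i) s - W.wd (v i) (v k) * W.wd (v j) s +
      W.wd (v i) (v j) * W.wd (v k) s = 0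
    linear_combination h1
  · intro i
    exact wd_homZ W (v i).2 hs
  · intro x hx h0
    obtain ⟨i, j, hij⟩ := hgen x hx
    exact evv_zero_of_wd W (v i).2.ker (v j).2.ker hs.ker hij (congrFun h0 i) (congrFun h0 j)
  · intro x hx h0 hsm
    obtain ⟨i, j, hij⟩ := hgen x hx
    exact smoothAt_wd W hx (v := fun i => (v i : Vec E.a n)) (fun i => (v i).2.ker) hs.ker hij h0
      hsm

/-- smoothness under a linear change of coordinates -/
theorem smoothAt_lsub {P P' : Matrix (Fin (n + 1)) (Fin (n + 1)) ℂ} (h : P * P' = 1) {a : ℕ}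
    {s : Vec a n} {x : Fin (n + 1) → ℂ} (hs : SmoothAt s (P.mulVecLin x)) :
    SmoothAt (fun i => lsub P.mulVecLin (s i)) x := by
  classical
  -- the chain rule
  have hchain : ∀ (p : MvPolynomial (Fin (n + 1)) ℂ) (l : Fin (n + 1)),
      eval x (pderiv l (lsub P.mulVecLin p)) =
        ∑ m, P m l * eval (P.mulVecLin x) (pderiv m p) := by
    intro p l
    have h1 : pderiv l (lsub P.mulVecLin p) =
        ∑ m, C (P m l) * lsub P.mulVecLin (pderiv m p) := by
      induction p using MvPolynomial.induction_on with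
      | C a => simp [lsub]
      | add p q hp hq =>
        rw [map_add, map_add, hp, hq, ← Finset.sum_add_distrib]
        refine Finset.sum_congr rfl fun m _ => ?_
        rw [map_add, map_add]
        ring
      | mul_X p i hp =>
        have h2 : pderiv l (lsub P.mulVecLin (X i)) = C (P i l) := by
          rw [lsub_X, map_sum, Finset.sum_eq_single l]
          · rw [Derivation.leibniz, derivation_C, smul_zero, add_zero, pderiv_X_self, smul_eq_mul,
              mul_one, mulVecLin_single]
          · intro t _ ht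
            rw [Derivation.leibniz, derivation_C, smul_zero, add_zero, pderiv_X_of_ne ht,
              smul_zero]
          · intro h; exact absurd (Finset.mem_univ _) h
        rw [map_mul, Derivation.leibniz, hp, h2, smul_eq_mul, smul_eq_mul, Finset.mul_sum]
        have h3 : ∀ m, C (P m l) * lsub P.mulVecLin (pderiv m (p * X i)) =
            lsub P.mulVecLin (X i) * (C (P m l) * lsub P.mulVecLin (pderiv m p)) +
            (if m = i then lsub P.mulVecLin p * C (P i l) else 0) := by
          intro m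
          rw [Derivation.leibniz, pderiv_X, map_add, smul_eq_mul, smul_eq_mul, map_mul, map_mul]
          by_cases hmi : m = i
          · subst hmi
            rw [if_pos rfl]
            simp
            ring
          · rw [if_neg hmi, Pi.single_eq_of_ne (Ne.symm hmi)]
            simp
            ring
        simp_rw [h3]
        rw [Finset.sum_add_distrib, Finset.sum_ite_eq', if_pos (Finset.mem_univ _)]
        ring
    rw [h1, map_sum]
    refine Finset.sum_congr rfl fun m _ => ?_
    rw [map_mul, eval_C, eval_lsub]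
  obtain ⟨m, m', i, i', hj⟩ := hs
  by_contra hc
  have hc' : ∀ l l', jm (fun i => lsub P.mulVecLin (s i)) x l l' i i' = 0 := by
    intro l l'
    by_contra h0
    exact hc ⟨l, l', i, i', h0⟩
  apply hj
  -- invert
  have hinv : ∀ (p : MvPolynomial (Fin (n + 1)) ℂ) (m : Fin (n + 1)),
      eval (P.mulVecLin x) (pderiv m p) =
        ∑ l, P' l m * eval x (pderiv l (lsub P.mulVecLin p)) := by
    intro p m
    simp_rw [hchain, Finset.mul_sum]
    rw [Finset.sum_comm, Finset.sum_eq_single m]
    · have h1 : ∑ l, P' l m * (P m l * eval (P.mulVecLin x) (pderiv m p)) =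
          (P * P') m m * eval (P.mulVecLin x) (pderiv m p) := by
        rw [Matrix.mul_apply, Finset.sum_mul]
        exact Finset.sum_congr rfl fun l _ => by ring
      rw [h1, h, Matrix.one_apply_eq, one_mul]
    · intro m₁ _ hm₁
      have h1 : ∑ l, P' l m * (P m₁ l * eval (P.mulVecLin x) (pderiv m₁ p)) =
          (P * P') m₁ m * eval (P.mulVecLin x) (pderiv m₁ p) := by
        rw [Matrix.mul_apply, Finset.sum_mul]
        exact Finset.sum_congr rfl fun l _ => by ring
      rw [h1, h, Matrix.one_apply_ne hm₁, zero_mul]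
    · intro h; exact absurd (Finset.mem_univ _) h
  unfold jm
  rw [hinv, hinv, hinv, hinv, Finset.sum_mul_sum, Finset.sum_mul_sum, ← Finset.sum_sub_distrib]
  refine Finset.sum_eq_zero fun l _ => ?_
  rw [← Finset.sum_sub_distrib]
  refine Finset.sum_eq_zero fun l' _ => ?_
  have h1 := hc' l l'
  unfold jm at h1
  linear_combination (P' l m * P' l' m') * h1

end Pool.Agent.W615
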