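import Pool.Agent.W615.Y10

/-!
# Smooth zero loci of codimension two with an infinitesimal symmetry (helper615)
-/

set_option autoImplicit false
set_option maxHeartbeats 800000

open MvPolynomial H960VB H938TB

namespace Pool.Agent.W615

variable {n : ℕ} {E : Bundle2 n} {N : Matrix (Fin (n + 1)) (Fin (n + 1)) ℂ}

theorem descend_s (hn : 2 ≤ n) (O : Op E N) {ds : ℤ} {s : Vec E.a n} (hs : Sec E ds s)
    {μ : ℂ} (hl : O.D s = fun i => C μ * s i) {P P' A : Matrix (Fin (n + 1)) (Fin (n + 1)) ℂ}
    {lam : Fin (n + 1) → ℂ} (h1 : P * P' = 1) (h3 : P' * N * P = Matrix.diagonal lam + A)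
    (hc : Matrix.diagonal lam * A = A * Matrix.diagonal lam) (hA : IsNilpotent A)
    (φ : ℂ →ₗ[ℚ] ℚ) :
    ∃ (E' : Bundle2 n) (K : ℕ) (w : Fin (n + 1) → ℤ × ℤ) (D : EqB E' w) (σ : M)
      (y : Vec E'.a n), K ≠ 0 ∧ (E'.Splits → E.Splits) ∧ (∀ l, ((w l).1 : ℚ) = K * φ (lam l)) ∧
      (∀ l, (w l).2 = 0) ∧ (∀ i, (D.b i).2 = 0) ∧ HSec D σ y ∧
      (∀ x : Fin (n + 1) → ℂ, x ≠ 0 → evv y x = 0 → evv s (P.mulVecLin x) = 0) ∧
      (∀ x : Fin (n + 1) → ℂ, x ≠ 0 → evv s (P.mulVecLin x) = 0 →
        SmoothAt s (P.mulVecLin x) → SmoothAt y x) := by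
  obtain ⟨Q, ε, θ, y, e, hQ1, hQ2, hy1, hy2, hy3, hy4, hy5⟩ := exists_fam_s (by omega) O hs hl
  have hinj : Function.Injective P.mulVecLin := by
    have h2 : P' * P = 1 := mul_eq_one_comm.1 h1
    intro x y hxy
    have h4 := congrArg P'.mulVec hxy
    rw [Matrix.mulVecLin_apply, Matrix.mulVecLin_apply, Matrix.mulVec_mulVec,
      Matrix.mulVec_mulVec, h2, Matrix.one_mulVec, Matrix.one_mulVec] at h4
    exact h4
  -- common denominators
  obtain ⟨K, hK, hz⟩ := exists_denom (ι := Fin (n + 1) ⊕ (Fin Q.r ⊕ Bool))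
    (fun x => φ (Sum.elim lam (Sum.elim ε (fun t => bif t then θ else μ)) x))
  choose z hz' using hz
  set lz : Fin (n + 1) → ℤ := fun l => z (Sum.inl l) with hlz
  set ez : Fin Q.r → ℤ := fun i => z (Sum.inr (Sum.inl i)) with hez
  set tz : ℤ := z (Sum.inr (Sum.inr true)) with htz
  set mz : ℤ := z (Sum.inr (Sum.inr false)) with hmz
  have l1 : ∀ l, (lz l : ℚ) = K * φ (lam l) := fun l => hz' (Sum.inl l)
  have e1 : ∀ i, (ez i : ℚ) = K * φ (ε i) := fun i => hz' (Sum.inr (Sum.inl i))
  have t1 : (tz : ℚ) = K * φ θ := hz' (Sum.inr (Sum.inr true))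
  have m1 : (mz : ℚ) = K * φ μ := hz' (Sum.inr (Sum.inr false))
  let D : EqB (Q.bun.pull P.mulVecLin hinj) (fun l => (lz l, 0)) :=
    mkEqB _ _ (fun i => (ez i, 0))
      (fun k => (ez (ix Q.r k).1 + ez (ix Q.r k).2.1 + ez (ix Q.r k).2.2 - tz, 0)) (by
      intro k i u hu
      -- the weights
      have hw : IsWeightedHomogeneous lam (lsub P.mulVecLin (plB Q.Q (ix Q.r k) i))
          (ε (ix Q.r k).1 + ε (ix Q.r k).2.1 + ε (ix Q.r k).2.2 - θ - ε i) := by
        have hij : ∀ a b, IsWeightedHomogeneous lam (lsub P.mulVecLin (Q.Q a b))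
            (ε a + ε b - θ) := by
          intro a b
          obtain ⟨K, hK⟩ := hQ2 a b
          exact (ge_coord h1 h3 hc hA hK).1
        have hite : ∀ (c : Prop) [Decidable c] (p : MvPolynomial (Fin (n + 1)) ℂ) (α : ℂ),
            (c → IsWeightedHomogeneous lam (lsub P.mulVecLin p) α) →
            IsWeightedHomogeneous lam (lsub P.mulVecLin (if c then p else 0)) α := by
          intro c _ p α h
          split_ifs with hc'
          · exact h hc'
          · rw [map_zero]
            exact isWeightedHomogeneous_zero _ _ _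
        unfold plB
        rw [map_add, map_sub]
        refine (IsWeightedHomogeneous.sub (hite _ _ _ fun h => ?_) (hite _ _ _ fun h => ?_)).add
          (hite _ _ _ fun h => ?_)
        · rw [h]
          convert hij _ _ using 1
          ring
        · rw [h]
          convert hij _ _ using 1
          ring
        · rw [h]
          convert hij _ _ using 1
          ring
      have hwu := hw (mem_support_iff.1 hu)
      ext
      · rw [Prod.fst_sum]
        refine comp_eq φ K lz l1 (x := _) ?_ hwu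
        simp only [Prod.fst_sub, map_sub, map_add]
        push_cast
        rw [e1, e1, e1, e1, t1]
        ring
      · rw [Prod.snd_sum]
        simp)
  refine ⟨Q.bun.pull P.mulVecLin hinj, K, fun l => (lz l, 0), D, (e, mz - tz, 0),
    fun i => lsub P.mulVecLin (y i), hK, fun hs => hQ1
    (Bundle2.splits_of_pull 0 n n hn (by omega) _ _ _ hs), l1, fun _ => rfl, fun _ => rfl,
    ⟨?_, hy2.pull _ _⟩, ?_, ?_⟩
  · intro i u hu
    obtain ⟨K', hK'⟩ := hy1 i
    have hwu := (ge_coord h1 h3 hc hA hK').1 hu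
    have hE : (((Q.bun.pull P.mulVecLin hinj).β i, D.b i) : M) + (e, mz - tz, 0) =
        (e, ez i + (mz - tz), 0) := by
      show (((0 : ℤ), (ez i, (0 : ℤ))) : M) + (e, mz - tz, 0) = _
      refine Prod.ext ?_ (Prod.ext ?_ ?_)
      · show 0 + e = e
        rw [zero_add]
      · rfl
      · show (0 : ℤ) + 0 = 0
        rw [zero_add]
    rw [hE]
    have hfst := weight_fst (fun l => ((lz l, 0) : ℤ × ℤ)) u
    have hdeg : ∑ j, (u j : ℤ) = e := by
      rcases homZ_lsub P.mulVecLin (hy3 i) with h | ⟨k, hk, hh⟩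
      · rw [h, coeff_zero] at hu
        exact absurd rfl hu
      · have h2 := hh hu
        rw [Finsupp.weight_apply, Finsupp.sum_fintype _ _ (by intro j; simp)] at h2
        rw [← hk, ← h2]
        simp
    refine Prod.ext (hfst.trans hdeg) (Prod.ext ?_ ?_)
    · rw [Finsupp.weight_apply, Finsupp.sum_fintype _ _ (by simp), Prod.snd_sum, Prod.fst_sum]
      have h5 : ∀ j, ((u j) • tw (fun l => ((lz l, 0) : ℤ × ℤ)) j : M).2.1 = (u j : ℤ) * lz j := by
        intro j
        show (u j) • lz j = _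
        rw [nsmul_eq_mul]
      simp_rw [h5]
      refine comp_eq φ K lz l1 (x := _) ?_ hwu
      push_cast
      rw [e1, m1, t1, map_sub, map_add]
      ring
    · rw [Finsupp.weight_apply, Finsupp.sum_fintype _ _ (by simp), Prod.snd_sum, Prod.snd_sum]
      refine Finset.sum_eq_zero fun j _ => ?_
      show (u j) • (0 : ℤ) = 0
      rw [smul_zero]
  · intro x hx h0
    refine hy4 _ (fun h => hx (hinj (by rw [h, map_zero]))) ?_
    rw [← evv_lsub]
    exact h0
  · intro x hx h0 hsm
    exact smoothAt_lsub h1 (hy5 _ (fun h => hx (hinj (by rw [h, map_zero]))) h0 hsm)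

/-- **Theorem.**  A bundle of rank two on `P^n`, `n ≥ 7`, with a section `s` such that `(E, s)` has
an infinitesimal symmetry, and whose zero locus is smooth of codimension two at the points fixed
by this symmetry, splits. -/
theorem symmetric_main (hn : 7 ≤ n) (O : Op E N) (hN : ∀ c : ℂ, N ≠ c • 1) {ds : ℤ}
    {s : Vec E.a n} (hs : Sec E ds s) {μ : ℂ} (hl : O.D s = fun i => C μ * s i)
    (hsm : ∀ x : Fin (n + 1) → ℂ, x ≠ 0 → evv s x = 0 → (∃ c : ℂ, N.mulVec x = c • x) →
      SmoothAt s x) : E.Splits := by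
  by_contra hE
  obtain ⟨P, P', wz, a, b, ha, h1, h2, hNP⟩ := lifts_int (by omega) hE ⟨O⟩ hN
  set lam : Fin (n + 1) → ℂ := fun l => a * wz l + b with hlam
  have h3 : P' * N * P = Matrix.diagonal lam + 0 := by
    have e1 : P' * N * P = a • ((P' * P) * Matrix.diagonal (fun i => (wz i : ℂ)) * (P' * P)) +
        b • (P' * P) := by
      rw [hNP]
      simp only [mul_add, add_mul, Matrix.mul_smul, Matrix.smul_mul, mul_one, mul_assoc]
    rw [e1, h2, one_mul, mul_one, add_zero, ← Matrix.diagonal_one, ← Matrix.diagonal_smul,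
      ← Matrix.diagonal_smul, Matrix.diagonal_add]
    congr 1
    funext l
    simp [hlam]
  have hli : LinearIndependent ℚ ![a] := by
    rw [linearIndependent_unique_iff]
    exact ha
  obtain ⟨φ, hφ1, -⟩ := exists_dual hli 0
  have hφa : φ a = 1 := hφ1
  have hφ : ∀ l, φ (lam l) = wz l + φ b := by
    intro l
    have e1 : lam l = (wz l : ℚ) • a + b := by
      rw [hlam, Rat.smul_def]
      push_cast
      ring
    rw [e1, map_add, map_smul, hφa, smul_eq_mul, mul_one]
  obtain ⟨E', K, w, D, σ, y, hK, hspl, hw, hw2, hb2, hy, hy0, hysm⟩ :=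
    descend_s (by omega) O hs hl h1 h3 (by rw [mul_zero, zero_mul]) IsNilpotent.zero φ
  have hK' : (K : ℚ) ≠ 0 := by exact_mod_cast hK
  have hwe : ∀ l l', (w l).1 = (w l').1 → wz l = wz l' := by
    intro l l' h
    have e1 : ((w l).1 : ℚ) = (w l').1 := by rw [h]
    rw [hw, hw, hφ, hφ] at e1
    have e2 := mul_left_cancel₀ hK' e1
    have e3 : (wz l : ℚ) = wz l' := by linarith
    exact_mod_cast e3
  apply hE
  apply hspl
  refine torus_main hn D hw2 hb2 ?_ hy ?_
  · by_contra hcon
    push Not at hcon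
    have e1 : ∀ l, wz l = wz 0 := fun l => hwe _ _ (hcon l 0)
    apply hN (a * wz 0 + b)
    have e2 : Matrix.diagonal (fun i => (wz i : ℂ)) =
        (wz 0 : ℂ) • (1 : Matrix (Fin (n + 1)) (Fin (n + 1)) ℂ) := by
      rw [← Matrix.diagonal_one, ← Matrix.diagonal_smul]
      congr 1
      funext l
      rw [e1 l]
      simp
    rw [hNP, e2, Matrix.mul_smul, mul_one, Matrix.smul_mul, h1, smul_smul, ← add_smul]
  · intro x v hx hf h0
    have h4 := hy0 x hx h0
    refine hysm x hx h4 (hsm _ ?_ h4 ?_)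
    · intro h5
      apply hx
      have h6 := congrArg P'.mulVec h5
      rw [Matrix.mulVecLin_apply, Matrix.mulVec_mulVec, h2, Matrix.one_mulVec,
        Matrix.mulVec_zero] at h6
      exact h6
    · -- x is an eigenvector of the diagonal matrix
      obtain ⟨l₀, hl₀⟩ : ∃ l, x l ≠ 0 := by
        by_contra hcon
        push Not at hcon
        exact hx (funext hcon)
      refine ⟨lam l₀, ?_⟩
      have h5 : (Matrix.diagonal lam).mulVec x = lam l₀ • x := by
        funext l
        rw [Matrix.mulVec_diagonal, Pi.smul_apply, smul_eq_mul]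
        by_cases hxl : x l = 0
        · rw [hxl, mul_zero, mul_zero]
        · have h6 : wz l = wz l₀ := hwe _ _ ((hf l hxl).trans (hf l₀ hl₀).symm)
          simp only [hlam]
          rw [h6]
      have h6 : N * P = P * Matrix.diagonal lam := by
        rw [add_zero] at h3
        rw [← h3, ← mul_assoc, ← mul_assoc, h1, one_mul]
      rw [Matrix.mulVecLin_apply, Matrix.mulVec_mulVec, h6, ← Matrix.mulVec_mulVec, h5,
        Matrix.mulVec_smul]

end Pool.Agent.W615
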