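import Pool.Agent.W615.Y11

/-!
# Complete intersections from splittings (helper615)
-/

set_option autoImplicit false
set_option maxHeartbeats 400000

open MvPolynomial H960VB H938TB

namespace Pool.Agent.W615

variable {n : ℕ} {E : Bundle2 n}

/-- the zero locus of a section of a split bundle -/
theorem ci_of_splits (hn : 1 ≤ n) (W : Wedge (triv E)) (hE : E.Splits) {d : ℤ} {s : Vec E.a n}
    (hs : Sec E d s) :
    ∃ (f g : MvPolynomial (Fin (n + 1)) ℂ) (a b : ℤ), HomZ f a ∧ HomZ g b ∧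
      (∀ x : Fin (n + 1) → ℂ, x ≠ 0 → (evv s x = 0 ↔ eval x f = 0 ∧ eval x g = 0)) ∧
      (∀ x : Fin (n + 1) → ℂ, x ≠ 0 → evv s x = 0 → SmoothAt s x →
        LinearIndependent ℂ ![fun l => eval x (pderiv l f), fun l => eval x (pderiv l g)]) ∧
      (∀ G, Ker E G → W.wd s G ∈ Ideal.span {f, g}) ∧
      (∃ H, Ker E H ∧ W.wd s H = f) ∧ ∃ H, Ker E H ∧ W.wd s H = g := by
  obtain ⟨p, q, G₁, G₂, h₁, h₂, hli⟩ := hE
  have k₁ := sec_of_isSection h₁
  have k₂ := sec_of_isSection h₂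
  obtain ⟨c, hc0, hc⟩ := const_of_no_zero (by omega : 2 ≤ n + 1)
    (fun x hx => (W.ind x hx G₁ G₂ k₁.ker k₂.ker).2 (hli x hx))
  have hthree : ∀ G, Ker E G → ∀ i, C c * G i = W.wd G₁ G * G₂ i - W.wd G₂ G * G₁ i := by
    intro G hG i
    have h := W.three G₁ G₂ G k₁.ker k₂.ker hG i
    rw [hc] at h
    linear_combination h
  have hC : (C c : MvPolynomial (Fin (n + 1)) ℂ) * C c⁻¹ = 1 := by
    rw [← C_mul, mul_inv_cancel₀ hc0, C_1]
  refine ⟨W.wd s G₂, W.wd s G₁, d + -q + W.κ.1, d + -p + W.κ.1, wd_homZ W hs k₂,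
    wd_homZ W hs k₁, fun x hx => ⟨fun h0 => ?_, fun h0 => ?_⟩, fun x hx h0 hsm => ?_,
    fun G hG => ?_, ⟨G₂, k₂.ker, rfl⟩, ⟨G₁, k₁.ker, rfl⟩⟩
  · constructor
    · rw [W.anti s G₂ hs.ker k₂.ker, map_neg, wd_zero_of_evv W k₂.ker hs.ker hx h0, neg_zero]
    · rw [W.anti s G₁ hs.ker k₁.ker, map_neg, wd_zero_of_evv W k₁.ker hs.ker hx h0, neg_zero]
  · refine evv_zero_of_wd W k₁.ker k₂.ker hs.ker (by rw [hc, eval_C]; exact hc0) ?_ ?_
    · rw [W.anti G₁ s k₁.ker hs.ker, map_neg, h0.2, neg_zero]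
    · rw [W.anti G₂ s k₂.ker hs.ker, map_neg, h0.1, neg_zero]
  · obtain ⟨l, l', i, i', hj⟩ := hsm
    have e1 := deriv_at_zero W k₁.ker k₂.ker hs.ker hx h0 l i
    have e2 := deriv_at_zero W k₁.ker k₂.ker hs.ker hx h0 l i'
    have e3 := deriv_at_zero W k₁.ker k₂.ker hs.ker hx h0 l' i
    have e4 := deriv_at_zero W k₁.ker k₂.ker hs.ker hx h0 l' i'
    have key : eval x (W.wd G₁ G₂) ^ 2 * jm s x l l' i i' =
        (eval x (pderiv l (W.wd G₂ s)) * eval x (pderiv l' (W.wd G₁ s)) -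
          eval x (pderiv l (W.wd G₁ s)) * eval x (pderiv l' (W.wd G₂ s))) *
        (eval x (G₂ i) * eval x (G₁ i') - eval x (G₂ i') * eval x (G₁ i)) := by
      calc eval x (W.wd G₁ G₂) ^ 2 * jm s x l l' i i' =
          (eval x (W.wd G₁ G₂) * eval x (pderiv l (s i))) *
            (eval x (W.wd G₁ G₂) * eval x (pderiv l' (s i'))) -
          (eval x (W.wd G₁ G₂) * eval x (pderiv l (s i'))) *
            (eval x (W.wd G₁ G₂) * eval x (pderiv l' (s i))) := by
            unfold jm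
            ring
        _ = _ := by
            rw [e1, e2, e3, e4]
            ring
    rw [T3aux.li_iff]
    refine ⟨l, l', ?_⟩
    rw [W.anti s G₂ hs.ker k₂.ker, W.anti s G₁ hs.ker k₁.ker]
    simp only [map_neg]
    intro h1
    have h2 : eval x (pderiv l (W.wd G₂ s)) * eval x (pderiv l' (W.wd G₁ s)) -
          eval x (pderiv l (W.wd G₁ s)) * eval x (pderiv l' (W.wd G₂ s)) = 0 := by
      linear_combination h1
    rw [h2, zero_mul, hc, eval_C] at key
    exact mul_ne_zero (pow_ne_zero 2 hc0) hj key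
  · -- wd s G = c⁻¹ (...)
    have h1 : C c * W.wd s G = W.wd G₁ G * W.wd s G₂ - W.wd G₂ G * W.wd s G₁ := by
      rw [← wd_mul_right W hG hs.ker (C c)]
      have h2 : (fun i => C c * G i) = fun i => W.wd G₁ G * G₂ i - W.wd G₂ G * G₁ i :=
        funext (hthree G hG)
      rw [h2, wd_sub_right W (ker_mul k₂.ker _) (ker_mul k₁.ker _) hs.ker,
        wd_mul_right W k₂.ker hs.ker, wd_mul_right W k₁.ker hs.ker]
    have h2 : W.wd s G = (C c⁻¹ * W.wd G₁ G) * W.wd s G₂ - (C c⁻¹ * W.wd G₂ G) * W.wd s G₁ := by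
      linear_combination C c⁻¹ * h1 - W.wd s G * hC
    rw [h2]
    refine Ideal.sub_mem _ (Ideal.mul_mem_left _ _ (Ideal.subset_span (by simp)))
      (Ideal.mul_mem_left _ _ (Ideal.subset_span (by simp)))

end Pool.Agent.W615
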