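import Pool.Agent.W615.Y1

/-!
# Sections with a smooth zero locus: local structure at fixed points (helper615)
-/

set_option autoImplicit false
set_option maxHeartbeats 400000

open MvPolynomial H960VB H938TB

namespace Pool.Agent.W615

/-- a minor of the derivative of a vector of polynomials -/
noncomputable def jm {a n : ℕ} (s : Vec a n) (x : Fin (n + 1) → ℂ) (l l' : Fin (n + 1))
    (i i' : Fin a) : ℂ :=
  eval x (pderiv l (s i)) * eval x (pderiv l' (s i')) -
    eval x (pderiv l (s i')) * eval x (pderiv l' (s i))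

/-- the zero locus of `s` is smooth of codimension two at its point `x` -/
def SmoothAt {a n : ℕ} (s : Vec a n) (x : Fin (n + 1) → ℂ) : Prop :=
  ∃ l l' i i', jm s x l l' i i' ≠ 0

/-- the zeros of `s` at the fixed points are smooth of codimension two. -/
def SmoothF {a n : ℕ} (w : Fin (n + 1) → ℤ × ℤ) (s : Vec a n) : Prop :=
  ∀ (x : Fin (n + 1) → ℂ) (v : ℤ), x ≠ 0 → Fixed w x v → evv s x = 0 → SmoothAt s x

theorem jm_self {a n : ℕ} (s : Vec a n) (x : Fin (n + 1) → ℂ) (l : Fin (n + 1)) (i i' : Fin a) :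
    jm s x l l i i' = 0 := by
  unfold jm
  ring

theorem jm_swap {a n : ℕ} (s : Vec a n) (x : Fin (n + 1) → ℂ) (l l' : Fin (n + 1))
    (i i' : Fin a) : jm s x l' l i i' = - jm s x l l' i i' := by
  unfold jm
  ring

variable {n : ℕ} {w : Fin (n + 1) → ℤ × ℤ} {E : Bundle2 n} {D : EqB E w} (W : Wedge D)
variable {z : Fin (n + 1) → ℂ} {v : ℤ}

theorem deriv_at_zero {G G' s : Vec E.a n} (hG : Ker E G) (hG' : Ker E G') (hs : Ker E s)
    (hz : z ≠ 0) (h : evv s z = 0) (l : Fin (n + 1)) (i : Fin E.a) :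
    eval z (W.wd G G') * eval z (pderiv l (s i)) =
      eval z (pderiv l (W.wd G s)) * eval z (G' i) -
        eval z (pderiv l (W.wd G' s)) * eval z (G i) := by
  have h1 := congrArg (fun q => eval z (pderiv l q)) (W.three G G' s hG hG' hs i)
  have h2 := wd_zero_of_evv W hG hs hz h
  have h3 := wd_zero_of_evv W hG' hs hz h
  have h4 : eval z (s i) = 0 := congrFun h i
  simp only [map_add, map_sub, map_zero, Derivation.leibniz, smul_eq_mul, map_mul, h2, h3, h4,
    zero_mul, zero_add, mul_zero, add_zero] at h1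
  linear_combination h1

theorem smooth_basis {τ τ' : M} {G G' s : Vec E.a n} (hG : HSec D τ G) (hG' : HSec D τ' G')
    (hs : Ker E s) (hz : z ≠ 0) (hF : eval z (W.wd G G') ≠ 0) (h0 : evv s z = 0)
    (hsm : SmoothAt s z) :
    ∃ l l', l ≠ l' ∧ eval z (pderiv l (W.wd G' s)) ≠ 0 ∧ eval z (pderiv l' (W.wd G s)) ≠ 0 ∧
      ∃ i i', jm s z l l' i i' ≠ 0 := by
  obtain ⟨l, l', i, i', hj⟩ := hsm
  have hll : l ≠ l' := by
    rintro rfl
    exact hj (jm_self _ _ _ _ _)
  have e1 := deriv_at_zero W hG.ker hG'.ker hs hz h0 l i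
  have e2 := deriv_at_zero W hG.ker hG'.ker hs hz h0 l i'
  have e3 := deriv_at_zero W hG.ker hG'.ker hs hz h0 l' i
  have e4 := deriv_at_zero W hG.ker hG'.ker hs hz h0 l' i'
  have key : eval z (W.wd G G') ^ 2 * jm s z l l' i i' =
      (eval z (pderiv l (W.wd G' s)) * eval z (pderiv l' (W.wd G s)) -
        eval z (pderiv l' (W.wd G' s)) * eval z (pderiv l (W.wd G s))) *
      (eval z (G' i) * eval z (G i') - eval z (G' i') * eval z (G i)) := by
    calc eval z (W.wd G G') ^ 2 * jm s z l l' i i' =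
        (eval z (W.wd G G') * eval z (pderiv l (s i))) *
          (eval z (W.wd G G') * eval z (pderiv l' (s i'))) -
        (eval z (W.wd G G') * eval z (pderiv l (s i'))) *
          (eval z (W.wd G G') * eval z (pderiv l' (s i))) := by
          unfold jm
          ring
      _ = _ := by
          rw [e1, e2, e3, e4]
          ring
  have hne : eval z (pderiv l (W.wd G' s)) * eval z (pderiv l' (W.wd G s)) -
        eval z (pderiv l' (W.wd G' s)) * eval z (pderiv l (W.wd G s)) ≠ 0 := by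
    intro h1
    rw [h1, zero_mul] at key
    exact mul_ne_zero (pow_ne_zero 2 hF) hj key
  by_cases h1 : eval z (pderiv l (W.wd G' s)) * eval z (pderiv l' (W.wd G s)) = 0
  · rw [h1, zero_sub, neg_ne_zero] at hne
    refine ⟨l', l, hll.symm, left_ne_zero_of_mul hne, right_ne_zero_of_mul hne, i, i', ?_⟩
    rw [jm_swap]
    exact neg_ne_zero.2 hj
  · exact ⟨l, l', hll, left_ne_zero_of_mul h1, right_ne_zero_of_mul h1, i, i', hj⟩

theorem type_out {σ : M} {s : Vec E.a n} (hs : HSec D σ s) (hf : Fixed w z v) {A B : ℤ}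
    (h : Ty W z v A B) (hne : evv s z ≠ 0) : chi v σ = A ∨ chi v σ = B := by
  have hsum := Ty.sum W hf h
  obtain ⟨τ, τ', G, G', hG, hG', h, rfl, rfl⟩ := h
  by_cases h1 : eval z (W.wd G s) = 0
  · by_cases h2 : eval z (W.wd G' s) = 0
    · exact absurd (evv_zero_of_wd W hG.ker hG'.ker hs.ker h h1 h2) hne
    · left
      have h4 := chi_zero (W.hom _ _ _ _ hG' hs) hf h2
      rw [map_add, map_add] at h4
      linarith
  · right
    have h4 := chi_zero (W.hom _ _ _ _ hG hs) hf h1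
    rw [map_add, map_add] at h4
    linarith

theorem type_in {σ : M} {s : Vec E.a n} (hs : HSec D σ s) (hz : z ≠ 0) (hf : Fixed w z v) {A B : ℤ}
    (h : Ty W z v A B) (h0 : evv s z = 0) (hsm : SmoothAt s z) :
    ∃ l l', l ≠ l' ∧ chi v σ - A = (w l).1 - v ∧ chi v σ - B = (w l').1 - v ∧
      ∃ i i', jm s z l l' i i' ≠ 0 := by
  have hsum := Ty.sum W hf h
  obtain ⟨τ, τ', G, G', hG, hG', h, rfl, rfl⟩ := h
  obtain ⟨l, l', hll, h1, h2, i, i', hj⟩ := smooth_basis W hG hG' hs.ker hz h h0 hsm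
  have h3 := chi_pderiv (W.hom _ _ _ _ hG' hs) hf h1
  have h4 := chi_pderiv (W.hom _ _ _ _ hG hs) hf h2
  rw [map_add, map_add] at h3 h4
  exact ⟨l, l', hll, by linarith, by linarith, i, i', hj⟩

/-! ### restriction to linear subspaces -/

section pull

variable {m : ℕ} {T : (Fin (m + 1) → ℂ) →ₗ[ℂ] (Fin (n + 1) → ℂ)} {hT : Function.Injective T}
  {w' : Fin (m + 1) → ℤ × ℤ} {h : ∀ t s, T (Pi.single t 1) s ≠ 0 → w s = w' t}
  (W' : Wedge (D.pull T hT w' h))

theorem pull_rel {G G' : Vec E.a n} (hG : Ker E G) (hG' : Ker E G') (i j : Fin E.a) :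
    lsub T (W.wd G G') * lsub T (W.P i j) =
      W'.wd (fun i => lsub T (G i)) (fun i => lsub T (G' i)) * W'.P i j := by
  have h1 := congrArg (lsub T) (W.eq G G' hG hG' i j)
  have h2 := W'.eq _ _ (hG.pull T hT) (hG'.pull T hT) i j
  rw [map_mul] at h1
  rw [← h1, ← h2, map_sub, map_mul, map_mul]

theorem T_ne {T : (Fin (m + 1) → ℂ) →ₗ[ℂ] (Fin (n + 1) → ℂ)} (hT : Function.Injective T)
    {x : Fin (m + 1) → ℂ} (hx : x ≠ 0) : T x ≠ 0 := by
  intro h
  exact hx (hT (by rw [h, map_zero]))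

theorem pull_ne {G G' : Vec E.a n} (hG : Ker E G) (hG' : Ker E G') {x : Fin (m + 1) → ℂ}
    (hx : x ≠ 0) : eval x (W'.wd (fun i => lsub T (G i)) (fun i => lsub T (G' i))) ≠ 0 ↔
      eval (T x) (W.wd G G') ≠ 0 := by
  rw [W'.ind x hx _ _ (hG.pull T hT) (hG'.pull T hT), W.ind _ (T_ne hT hx) _ _ hG hG', evv_lsub,
    evv_lsub]
  exact Iff.rfl

theorem pull_zero {G G' : Vec E.a n} (hG : Ker E G) (hG' : Ker E G')
    (h0 : lsub T (W.wd G G') = 0) :
    W'.wd (fun i => lsub T (G i)) (fun i => lsub T (G' i)) = 0 := by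
  obtain ⟨i, j, hij⟩ := exists_P_ne W'
  have h1 := pull_rel W W' hG hG' i j
  rw [h0, zero_mul] at h1
  exact (mul_eq_zero.1 h1.symm).resolve_right hij

theorem kappa_pull (hm : 1 ≤ m) : W'.κ = W.κ := by
  have hx : (fun _ => 1 : Fin (m + 1) → ℂ) ≠ 0 := fun h => by simpa using congrFun h 0
  obtain ⟨τ, τ', G, G', hG, hG', hp⟩ := exists_ne W (T (fun _ => 1)) (T_ne hT hx)
  set α := lsub T (W.wd G G') with hα
  set α' := W'.wd (fun i => lsub T (G i)) (fun i => lsub T (G' i)) with hα'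
  have n1 : α ≠ 0 := by
    intro h0
    apply hp
    rw [← eval_lsub, ← hα, h0, map_zero]
  have n2 : α' ≠ 0 := by
    intro h0
    have h1 := (pull_ne W W' hG.ker hG'.ker hx).2 hp
    rw [← hα', h0, map_zero] at h1
    exact h1 rfl
  have hrel : ∀ i j, α * lsub T (W.P i j) = α' * W'.P i j := pull_rel W W' hG.ker hG'.ker
  have d1 : α ∣ α' := by
    refine dvd_of_primes n1 fun π hπ _ => ?_
    obtain ⟨u, hu, hu0⟩ := no_isolated_prime (by omega) π hπ
    obtain ⟨i, j, hij⟩ := W'.P_ne u hu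
    refine ⟨W'.P i j, lsub T (W.P i j), ?_, ?_⟩
    · rw [hrel]
      ring
    · rintro ⟨q, hq⟩
      apply hij
      rw [hq, map_mul, hu0, zero_mul]
  have d2 : α' ∣ α := by
    refine dvd_of_primes n2 fun π hπ _ => ?_
    obtain ⟨u, hu, hu0⟩ := no_isolated_prime (by omega) π hπ
    obtain ⟨i, j, hij⟩ := W.P_ne (T u) (T_ne hT hu)
    refine ⟨lsub T (W.P i j), W'.P i j, ?_, ?_⟩
    · rw [← hrel]
      ring
    · rintro ⟨q, hq⟩
      apply hij
      rw [← eval_lsub, hq, map_mul, hu0, zero_mul]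
  have hass : Associated α α' := associated_of_dvd_dvd d1 d2
  obtain ⟨c, hc⟩ := hass
  have hcu : IsUnit (c : MvPolynomial (Fin (m + 1)) ℂ) := c.isUnit
  rw [MvPolynomial.isUnit_iff_eq_C_of_isReduced] at hcu
  obtain ⟨r, hr, hcr⟩ := hcu
  have w1 : IsWeightedHomogeneous (tw w') α (τ + τ' + W.κ) := isWH_lsub T h (W.hom _ _ _ _ hG hG')
  have w2 : IsWeightedHomogeneous (tw w') α' (τ + τ' + W'.κ) :=
    W'.hom _ _ _ _ (hG.pull T hT w' h) (hG'.pull T hT w' h)
  have w3 : IsWeightedHomogeneous (tw w') α' (τ + τ' + W.κ) := by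
    rw [← hc, hcr]
    have := w1.mul (isWeightedHomogeneous_C (tw w') r)
    rwa [add_zero] at this
  exact add_left_cancel (w2.inj_right n2 w3)

end pull

end Pool.Agent.W615
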