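import Pool.Agent.W615.Y2
import Pool.Agent.W615.NA4

/-!
# The gap of the types at a middle fixed point of a plane (helper615)
-/

set_option autoImplicit false
set_option maxHeartbeats 400000

open MvPolynomial H960VB H938TB

namespace Pool.Agent.W615

theorem X_dvd_of_mono {m : ℕ} (i : Fin m) {p : MvPolynomial (Fin m) ℂ}
    (h : ∀ u, coeff u p ≠ 0 → u i ≠ 0) : X i ∣ p :=
  dvd_of_vanish X_prime fun v hv => by
    rw [eval_X] at hv
    rw [eval_eq']
    exact Finset.sum_eq_zero fun u hu => by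
      rw [Finset.prod_eq_zero (Finset.mem_univ i)
        (by rw [hv, zero_pow (h u (mem_support_iff.1 hu))]), mul_zero]

theorem exists_mono_of_not_dvd {m : ℕ} {i : Fin m} {p : MvPolynomial (Fin m) ℂ}
    (h : ¬ X i ∣ p) : ∃ u, coeff u p ≠ 0 ∧ u i = 0 := by
  by_contra hc
  push Not at hc
  exact h (X_dvd_of_mono i hc)

section plane

variable {w : Fin 3 → ℤ × ℤ}

/-- the middle fixed point -/
abbrev e1 : Fin (2 + 1) → ℂ := Pi.single 1 1

theorem e1_ne : (e1 : Fin (2 + 1) → ℂ) ≠ 0 := by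
  intro h
  have := congrFun h 1
  rw [e1, Pi.single_eq_same] at this
  exact one_ne_zero this

theorem e1_fixed : Fixed w (e1 : Fin (2 + 1) → ℂ) (w 1).1 := by
  intro l hl
  by_cases h : l = 1
  · rw [h]
  · exact absurd (Pi.single_eq_of_ne h _) hl

theorem chi_mono3 {p : MvPolynomial (Fin (2 + 1)) ℂ} {τ : M}
    (hp : IsWeightedHomogeneous (tw w) p τ) {u : Fin (2 + 1) →₀ ℕ} (hu : coeff u p ≠ 0) :
    chi (w 1).1 τ = (u 0 : ℤ) * ((w 0).1 - (w 1).1) + (u 2 : ℤ) * ((w 2).1 - (w 1).1) := by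
  rw [← hp hu, chi_weight, Fin.sum_univ_three]
  ring

variable (h01 : (w 0).1 < (w 1).1) (h12 : (w 1).1 < (w 2).1)

include h01 in
theorem dvd2 {p : MvPolynomial (Fin (2 + 1)) ℂ} {τ : M} (hp : IsWeightedHomogeneous (tw w) p τ)
    (h : 0 < chi (w 1).1 τ) : X 2 ∣ p := by
  refine X_dvd_of_mono 2 fun u hu h0 => ?_
  rw [chi_mono3 hp hu, h0] at h
  have h2 : (u 0 : ℤ) * ((w 0).1 - (w 1).1) ≤ 0 :=
    mul_nonpos_of_nonneg_of_nonpos (Int.natCast_nonneg _) (by omega)
  simp only [Nat.cast_zero, zero_mul, add_zero] at h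
  omega

include h12 in
theorem dvd0 {p : MvPolynomial (Fin (2 + 1)) ℂ} {τ : M} (hp : IsWeightedHomogeneous (tw w) p τ)
    (h : chi (w 1).1 τ < 0) : X 0 ∣ p := by
  refine X_dvd_of_mono 0 fun u hu h0 => ?_
  rw [chi_mono3 hp hu, h0] at h
  have h2 : 0 ≤ (u 2 : ℤ) * ((w 2).1 - (w 1).1) :=
    mul_nonneg (Int.natCast_nonneg _) (by omega)
  simp only [Nat.cast_zero, zero_mul, zero_add] at h
  omega

theorem eval_e1 {p : MvPolynomial (Fin (2 + 1)) ℂ} {τ : M}
    (hp : IsWeightedHomogeneous (tw w) p τ) {u : Fin (2 + 1) →₀ ℕ} (hu : coeff u p ≠ 0)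
    (h0 : u 0 = 0) (h2 : u 2 = 0) : eval (e1 : Fin (2 + 1) → ℂ) p = coeff u p := by
  rw [eval_eq', Finset.sum_eq_single u]
  · rw [Fin.prod_univ_three, h0, h2, pow_zero, pow_zero, e1, Pi.single_eq_same, one_pow]
    ring
  · intro u' hu' hne
    rw [Fin.prod_univ_three]
    by_cases h0' : u' 0 = 0
    · by_cases h2' : u' 2 = 0
      · exfalso
        apply hne
        have e1' := congrArg Prod.fst (hp hu)
        have e2' := congrArg Prod.fst (hp (mem_support_iff.1 hu'))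
        rw [weight_fst, Fin.sum_univ_three] at e1' e2'
        ext i
        fin_cases i
        · exact h0'.trans h0.symm
        · show u' 1 = u 1
          omega
        · exact h2'.trans h2.symm
      · have : (e1 : Fin (2 + 1) → ℂ) 2 = 0 := Pi.single_eq_of_ne (by decide) _
        rw [this, zero_pow h2', mul_zero, mul_zero]
    · have : (e1 : Fin (2 + 1) → ℂ) 0 = 0 := Pi.single_eq_of_ne (by decide) _
      rw [this, zero_pow h0', zero_mul, zero_mul, mul_zero]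
  · intro h
    rw [notMem_support_iff.1 h, zero_mul]

include h01 h12 in
theorem dvd_both {p : MvPolynomial (Fin (2 + 1)) ℂ} {τ : M}
    (hp : IsWeightedHomogeneous (tw w) p τ) (h : chi (w 1).1 τ = 0)
    (h1 : eval (e1 : Fin (2 + 1) → ℂ) p = 0) : X 0 ∣ p ∧ X 2 ∣ p := by
  have key : ∀ u, coeff u p ≠ 0 → ¬ (u 0 = 0 ∧ u 2 = 0) := by
    rintro u hu ⟨h0, h2⟩
    exact hu (by rw [← eval_e1 hp hu h0 h2, h1])
  constructor
  · refine X_dvd_of_mono 0 fun u hu h0 => key u hu ⟨h0, ?_⟩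
    rw [chi_mono3 hp hu, h0] at h
    simp only [Nat.cast_zero, zero_mul, zero_add] at h
    rcases mul_eq_zero.1 h with h3 | h3
    · exact_mod_cast h3
    · omega
  · refine X_dvd_of_mono 2 fun u hu h2 => key u hu ⟨?_, h2⟩
    rw [chi_mono3 hp hu, h2] at h
    simp only [Nat.cast_zero, zero_mul, add_zero] at h
    rcases mul_eq_zero.1 h with h3 | h3
    · exact_mod_cast h3
    · omega

variable {E : Bundle2 2} {D : EqB E w} (W : Wedge D)

include h01 h12 in
/-- a section vanishing at the middle point is divisible by a variable, if the gap is small. -/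
theorem gap_step {τ₁ τ₂ ρ : M} {G₁ G₂ K : Vec E.a 2} (hG₁ : HSec D τ₁ G₁) (hG₂ : HSec D τ₂ G₂)
    (hF : eval (e1 : Fin (2 + 1) → ℂ) (W.wd G₁ G₂) ≠ 0)
    (hlt : |chi (w 1).1 τ₁ - chi (w 1).1 τ₂| < (w 2).1 - (w 0).1) (hK : HSec D ρ K)
    (hK0 : evv K (e1 : Fin (2 + 1) → ℂ) = 0) :
    ∃ j : Fin 3, j ≠ 1 ∧ ∀ i, (X j : MvPolynomial (Fin (2 + 1)) ℂ) ∣ K i := by
  have hsum := chi_zero (W.hom _ _ _ _ hG₁ hG₂) e1_fixed hF
  have hp := W.hom _ _ _ _ hG₁ hK
  have hq := W.hom _ _ _ _ hG₂ hK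
  have hp0 := wd_zero_of_evv W hG₁.ker hK.ker e1_ne hK0
  have hq0 := wd_zero_of_evv W hG₂.ker hK.ker e1_ne hK0
  rw [map_add, map_add] at hsum
  set A := chi (w 1).1 τ₁ with hA
  set B := chi (w 1).1 τ₂ with hB
  set x := chi (w 1).1 ρ with hx
  have hpx : chi (w 1).1 (τ₁ + ρ + W.κ) = x - B := by
    rw [map_add, map_add, ← hA, ← hx]
    linarith
  have hqx : chi (w 1).1 (τ₂ + ρ + W.κ) = x - A := by
    rw [map_add, map_add, ← hB, ← hx]
    linarith
  -- it is enough to divide both wedge products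
  have key : ∀ j : Fin 3, j ≠ 1 → (X j : MvPolynomial (Fin (2 + 1)) ℂ) ∣ W.wd G₁ K →
      (X j : MvPolynomial (Fin (2 + 1)) ℂ) ∣ W.wd G₂ K →
      ∀ i, (X j : MvPolynomial (Fin (2 + 1)) ℂ) ∣ K i := by
    intro j hj h1 h2 i
    have h3 := W.three G₁ G₂ K hG₁.ker hG₂.ker hK.ker i
    have h4 : (X j : MvPolynomial (Fin (2 + 1)) ℂ) ∣ W.wd G₁ G₂ * K i := by
      have h5 : W.wd G₁ G₂ * K i = W.wd G₁ K * G₂ i - W.wd G₂ K * G₁ i := by
        linear_combination h3
      rw [h5]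
      exact dvd_sub (dvd_mul_of_dvd_left h1 _) (dvd_mul_of_dvd_left h2 _)
    rcases (X_prime (i := j) (R := ℂ)).dvd_or_dvd h4 with h5 | h5
    · exfalso
      obtain ⟨q, hq⟩ := h5
      apply hF
      rw [hq, map_mul, eval_X, e1, Pi.single_eq_of_ne hj, zero_mul]
    · exact h5
  have hp2 : 0 ≤ x - B → (X 2 : MvPolynomial (Fin (2 + 1)) ℂ) ∣ W.wd G₁ K := by
    intro h
    rcases h.lt_or_eq with h | h
    · exact dvd2 h01 hp (by rw [hpx]; exact h)
    · exact (dvd_both h01 h12 hp (by rw [hpx]; exact h.symm) hp0).2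
  have hp0' : x - B ≤ 0 → (X 0 : MvPolynomial (Fin (2 + 1)) ℂ) ∣ W.wd G₁ K := by
    intro h
    rcases h.lt_or_eq with h | h
    · exact dvd0 h12 hp (by rw [hpx]; exact h)
    · exact (dvd_both h01 h12 hp (by rw [hpx]; exact h) hp0).1
  have hq2 : 0 ≤ x - A → (X 2 : MvPolynomial (Fin (2 + 1)) ℂ) ∣ W.wd G₂ K := by
    intro h
    rcases h.lt_or_eq with h | h
    · exact dvd2 h01 hq (by rw [hqx]; exact h)
    · exact (dvd_both h01 h12 hq (by rw [hqx]; exact h.symm) hq0).2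
  have hq0' : x - A ≤ 0 → (X 0 : MvPolynomial (Fin (2 + 1)) ℂ) ∣ W.wd G₂ K := by
    intro h
    rcases h.lt_or_eq with h | h
    · exact dvd0 h12 hq (by rw [hqx]; exact h)
    · exact (dvd_both h01 h12 hq (by rw [hqx]; exact h) hq0).1
  -- the mixed cases
  have mixed : ∀ (P Q : MvPolynomial (Fin (2 + 1)) ℂ) (μ ν : M),
      IsWeightedHomogeneous (tw w) P μ → IsWeightedHomogeneous (tw w) Q ν →
      chi (w 1).1 μ < 0 → 0 < chi (w 1).1 ν → chi (w 1).1 ν - chi (w 1).1 μ < (w 2).1 - (w 0).1 →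
      ¬ (X 2 : MvPolynomial (Fin (2 + 1)) ℂ) ∣ P → (X 0 : MvPolynomial (Fin (2 + 1)) ℂ) ∣ Q := by
    intro P Q μ ν hP hQ hμ hν hd h2
    obtain ⟨u, hu, hu2⟩ := exists_mono_of_not_dvd h2
    by_contra h0
    obtain ⟨u', hu', hu0⟩ := exists_mono_of_not_dvd h0
    have e1 := chi_mono3 hP hu
    have e2 := chi_mono3 hQ hu'
    rw [hu2] at e1
    rw [hu0] at e2
    simp only [Nat.cast_zero, zero_mul, add_zero, zero_add] at e1 e2
    have k1 : 1 ≤ u 0 := by
      by_contra hc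
      have : u 0 = 0 := by omega
      rw [this] at e1
      simp only [Nat.cast_zero, zero_mul] at e1
      omega
    have k2 : 1 ≤ u' 2 := by
      by_contra hc
      have : u' 2 = 0 := by omega
      rw [this] at e2
      simp only [Nat.cast_zero, zero_mul] at e2
      omega
    have k1' : (1 : ℤ) ≤ (u 0 : ℤ) := by exact_mod_cast k1
    have k2' : (1 : ℤ) ≤ (u' 2 : ℤ) := by exact_mod_cast k2
    nlinarith
  rcases le_or_gt 0 (x - B) with c1 | c1 <;> rcases le_or_gt 0 (x - A) with c2 | c2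
  · exact ⟨2, by decide, key 2 (by decide) (hp2 c1) (hq2 c2)⟩
  · -- x - B ≥ 0, x - A < 0
    rcases c1.lt_or_eq with c1' | c1'
    · by_cases h2 : (X 2 : MvPolynomial (Fin (2 + 1)) ℂ) ∣ W.wd G₂ K
      · exact ⟨2, by decide, key 2 (by decide) (hp2 c1) h2⟩
      · refine ⟨0, by decide, key 0 (by decide) ?_ (hq0' c2.le)⟩
        refine mixed _ _ _ _ hq hp (by rw [hqx]; exact c2) (by rw [hpx]; exact c1') ?_ h2
        rw [hqx, hpx]
        have := le_abs_self (A - B)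
        linarith
    · exact ⟨0, by decide, key 0 (by decide) (hp0' (by omega)) (hq0' c2.le)⟩
  · -- x - B < 0, x - A ≥ 0
    rcases c2.lt_or_eq with c2' | c2'
    · by_cases h2 : (X 2 : MvPolynomial (Fin (2 + 1)) ℂ) ∣ W.wd G₁ K
      · exact ⟨2, by decide, key 2 (by decide) h2 (hq2 c2)⟩
      · refine ⟨0, by decide, key 0 (by decide) (hp0' c1.le) ?_⟩
        refine mixed _ _ _ _ hp hq (by rw [hpx]; exact c1) (by rw [hqx]; exact c2') ?_ h2
        rw [hqx, hpx]
        have := neg_abs_le (A - B)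
        linarith
    · exact ⟨0, by decide, key 0 (by decide) (hp0' c1.le) (hq0' (by omega))⟩
  · exact ⟨0, by decide, key 0 (by decide) (hp0' c1.le) (hq0' c2.le)⟩

end plane

end Pool.Agent.W615
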