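import Pool.Agent.W615.Y3

/-!
# The gap of the types at a middle fixed point (helper615)
-/

set_option autoImplicit false
set_option maxHeartbeats 400000

open MvPolynomial H960VB H938TB

namespace Pool.Agent.W615

section general

variable {n : ℕ} {w : Fin (n + 1) → ℤ × ℤ} {E : Bundle2 n} {D : EqB E w}

theorem exists_bound (D : EqB E w) : ∃ b : ℤ, ∀ (τ : M) (G : Vec E.a n), HSec D τ G →
    (∃ i, G i ≠ 0) → b ≤ τ.1 := by
  refine ⟨-∑ i, |E.β i|, fun τ G hG => ?_⟩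
  rintro ⟨i, hi⟩
  rcases homZ_of (hG.hom i) with h | ⟨k, hk, -⟩
  · exact absurd h hi
  · have h1 : (((E.β i, D.b i) : M) + τ).1 = E.β i + τ.1 := rfl
    rw [h1] at hk
    have h2 : |E.β i| ≤ ∑ i, |E.β i| :=
      Finset.single_le_sum (f := fun i => |E.β i|) (fun i _ => abs_nonneg _) (Finset.mem_univ i)
    have h3 := le_abs_self (E.β i)
    have h4 : (0 : ℤ) ≤ k := Int.natCast_nonneg _
    linarith

theorem third_zero (hw2 : ∀ i, (w i).2 = 0) (hb2 : ∀ i, (D.b i).2 = 0) {τ : M} {G : Vec E.a n}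
    (hG : HSec D τ G) (h : ∃ i, G i ≠ 0) : τ.2.2 = 0 := by
  obtain ⟨i, hi⟩ := h
  obtain ⟨u, hu⟩ := ne_zero_iff.1 hi
  have h1 := congrArg (fun x : M => x.2.2) (hG.hom i hu)
  have h2 : (((E.β i, D.b i) : M) + τ).2.2 = (D.b i).2 + τ.2.2 := rfl
  have h3 : (Finsupp.weight (tw w) u).2.2 = τ.2.2 := by
    have h4 : (Finsupp.weight (tw w) u).2.2 = (((E.β i, D.b i) : M) + τ).2.2 := h1
    rw [h4, h2, hb2, zero_add]
  clear h1
  have h1 := h3
  rw [← h1, Finsupp.weight_apply, Finsupp.sum_fintype _ _ (by simp), Prod.snd_sum, Prod.snd_sum]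
  refine Finset.sum_eq_zero fun j _ => ?_
  show ((u j) • tw w j : M).2.2 = 0
  have h3 : ((u j) • tw w j : M).2.2 = (u j) • (w j).2 := rfl
  rw [h3, hw2, smul_zero]

theorem evv_ne_of_wd {z : Fin (n + 1) → ℂ} (W : Wedge D) {G s : Vec E.a n} (hG : Ker E G)
    (hs : Ker E s) (hz : z ≠ 0) (h : eval z (W.wd G s) ≠ 0) : evv s z ≠ 0 :=
  fun h0 => h (wd_zero_of_evv W hG hs hz h0)

theorem ne_of_evv {a : ℕ} {z : Fin (n + 1) → ℂ} {s : Vec a n} (h : evv s z ≠ 0) :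
    ∃ i, s i ≠ 0 := by
  by_contra hc
  push Not at hc
  apply h
  funext i
  show eval z (s i) = 0
  rw [hc i, map_zero]

end general

section plane

variable {w : Fin 3 → ℤ × ℤ} {E : Bundle2 2} {D : EqB E w} (W : Wedge D)

theorem gap_plane (h01 : (w 0).1 < (w 1).1) (h12 : (w 1).1 < (w 2).1) (hw2 : ∀ i, (w i).2 = 0)
    (hb2 : ∀ i, (D.b i).2 = 0) (hE : ¬ E.Splits) {A B : ℤ}
    (h : Ty W (e1 : Fin (2 + 1) → ℂ) (w 1).1 A B) : (w 2).1 - (w 0).1 ≤ |A - B| := by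
  by_contra hlt
  push Not at hlt
  obtain ⟨bd, hbd⟩ := exists_bound D
  obtain ⟨ρ₁, ρ₂, H₁, H₂, hH₁, hH₂, hH⟩ := exists_ne W (e1 : Fin (2 + 1) → ℂ) e1_ne
  -- the first section
  obtain ⟨d₁, ⟨τ₁, G₁, rfl, hG₁, hne₁⟩, hmin₁⟩ := Int.exists_least_of_bdd
    (P := fun d => ∃ (τ : M) (G : Vec E.a 2), τ.1 = d ∧ HSec D τ G ∧
      evv G (e1 : Fin (2 + 1) → ℂ) ≠ 0)
    ⟨bd, by
      rintro _ ⟨τ, G, rfl, hG, hne⟩
      exact hbd τ G hG (ne_of_evv hne)⟩
    ⟨_, ρ₂, H₂, rfl, hH₂, evv_ne_of_wd W hH₁.ker hH₂.ker e1_ne hH⟩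
  -- the second section
  obtain ⟨d₂, ⟨τ₂, G₂, rfl, hG₂, hF⟩, hmin₂⟩ := Int.exists_least_of_bdd
    (P := fun d => ∃ (τ : M) (G : Vec E.a 2), τ.1 = d ∧ HSec D τ G ∧
      eval (e1 : Fin (2 + 1) → ℂ) (W.wd G₁ G) ≠ 0)
    ⟨bd, by
      rintro _ ⟨τ, G, rfl, hG, hne⟩
      exact hbd τ G hG (ne_of_evv (evv_ne_of_wd W hG₁.ker hG.ker e1_ne hne))⟩
    (by
      by_cases h1 : eval (e1 : Fin (2 + 1) → ℂ) (W.wd G₁ H₁) = 0
      · refine ⟨_, ρ₂, H₂, rfl, hH₂, fun h2 => hne₁ ?_⟩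
        refine evv_zero_of_wd W hH₁.ker hH₂.ker hG₁.ker hH ?_ ?_
        · rw [W.anti H₁ G₁ hH₁.ker hG₁.ker, map_neg, h1, neg_zero]
        · rw [W.anti H₂ G₁ hH₂.ker hG₁.ker, map_neg, h2, neg_zero]
      · exact ⟨_, ρ₁, H₁, rfl, hH₁, h1⟩)
  have hsum := chi_zero (W.hom _ _ _ _ hG₁ hG₂) e1_fixed hF
  rw [map_add, map_add] at hsum
  have hgap : |chi (w 1).1 τ₁ - chi (w 1).1 τ₂| < (w 2).1 - (w 0).1 := by
    have hT : Ty W (e1 : Fin (2 + 1) → ℂ) (w 1).1 (chi (w 1).1 τ₁) (chi (w 1).1 τ₂) :=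
      ⟨τ₁, τ₂, G₁, G₂, hG₁, hG₂, hF, rfl, rfl⟩
    rcases Ty.unique W e1_ne e1_fixed e1_fixed h hT with ⟨e1', e2'⟩ | ⟨e1', e2'⟩
    · rw [← e1', ← e2']
      exact hlt
    · rw [← e1', ← e2', abs_sub_comm]
      exact hlt
  have t1 := third_zero hw2 hb2 hG₁ (ne_of_evv hne₁)
  have t2 := third_zero hw2 hb2 hG₂ (ne_of_evv (evv_ne_of_wd W hG₁.ker hG₂.ker e1_ne hF))
  -- the degrees
  have hdeg : ∀ (ρ τ : M), ρ.2.2 = 0 → τ.2.2 = 0 → chi (w 1).1 ρ = chi (w 1).1 τ → τ.1 ≤ ρ.1 →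
      ρ = ((ρ.1 - τ.1).toNat • tw w 1 : M) + τ := by
    intro ρ τ h1 h2 h3 h4
    rw [chi_def, chi_def] at h3
    have h5 : (((ρ.1 - τ.1).toNat : ℕ) : ℤ) = ρ.1 - τ.1 := Int.toNat_of_nonneg (by omega)
    have h6 : ((ρ.1 - τ.1).toNat • tw w 1 : M) = (ρ.1 - τ.1, (ρ.1 - τ.1) * (w 1).1, 0) := by
      rw [← natCast_zsmul, h5]
      refine Prod.ext ?_ (Prod.ext ?_ ?_)
      · show (ρ.1 - τ.1) • (1 : ℤ) = _
        simp
      · show (ρ.1 - τ.1) • (w 1).1 = _
        simp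
      · show (ρ.1 - τ.1) • (w 1).2 = _
        rw [hw2, smul_zero]
    rw [h6]
    refine Prod.ext ?_ (Prod.ext ?_ ?_)
    · show ρ.1 = ρ.1 - τ.1 + τ.1
      ring
    · show ρ.2.1 = (ρ.1 - τ.1) * (w 1).1 + τ.2.1
      linear_combination h3
    · show ρ.2.2 = 0 + τ.2.2
      rw [h1, h2, zero_add]
  have hX : ∀ k : ℕ, IsWeightedHomogeneous (tw w) (X 1 ^ k : MvPolynomial (Fin (2 + 1)) ℂ)
      (k • tw w 1) := fun k => (isWeightedHomogeneous_X ℂ (tw w) 1).pow k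
  -- every section is a combination
  have main : ∀ (N : ℕ) (ρ : M) (K : Vec E.a 2), HSec D ρ K → ρ.1 < bd + N →
      ∃ f g : MvPolynomial (Fin (2 + 1)) ℂ, ∀ i, K i = f * G₁ i + g * G₂ i := by
    intro N
    induction N with
    | zero =>
      intro ρ K hK hρ
      refine ⟨0, 0, fun i => ?_⟩
      by_contra hc
      have h1 := hbd ρ K hK ⟨i, fun h0 => hc (by rw [h0]; ring)⟩
      simp at hρ
      omega
    | succ N ih =>
      intro ρ K hK hρ
      by_cases hK0 : ∃ i, K i ≠ 0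
      swap
      · push Not at hK0
        exact ⟨0, 0, fun i => by rw [hK0 i]; ring⟩
      have t3 := third_zero hw2 hb2 hK hK0
      -- subtract to vanish at the middle point
      obtain ⟨f, g, hfg, hz⟩ : ∃ f g : MvPolynomial (Fin (2 + 1)) ℂ,
          HSec D ρ (fun i => K i - (f * G₁ i + g * G₂ i)) ∧
          evv (fun i => K i - (f * G₁ i + g * G₂ i)) (e1 : Fin (2 + 1) → ℂ) = 0 := by
        -- coefficients
        have h3 : ∀ i, eval e1 (W.wd G₁ G₂) * eval e1 (K i) =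
            eval e1 (W.wd G₁ K) * eval e1 (G₂ i) - eval e1 (W.wd G₂ K) * eval e1 (G₁ i) := by
          intro i
          have h4 := congrArg (eval (e1 : Fin (2 + 1) → ℂ))
            (W.three G₁ G₂ K hG₁.ker hG₂.ker hK.ker i)
          rw [map_add, map_sub, map_mul, map_mul, map_mul, map_zero] at h4
          linear_combination h4
        have hf : ∃ f : MvPolynomial (Fin (2 + 1)) ℂ, HSec D ρ (fun i => f * G₁ i) ∧
            eval (e1 : Fin (2 + 1) → ℂ) f =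
              -eval e1 (W.wd G₂ K) / eval e1 (W.wd G₁ G₂) := by
          by_cases h4 : eval (e1 : Fin (2 + 1) → ℂ) (W.wd G₂ K) = 0
          · refine ⟨0, ?_, by rw [h4, map_zero, neg_zero, zero_div]⟩
            refine ⟨fun i => ?_, ker_mul hG₁.ker 0⟩
            rw [zero_mul]
            exact isWeightedHomogeneous_zero _ _ _
          · have h5 := chi_zero (W.hom _ _ _ _ hG₂ hK) e1_fixed h4
            rw [map_add, map_add] at h5
            have h6 : τ₁.1 ≤ ρ.1 := hmin₁ _ ⟨ρ, K, rfl, hK, evv_ne_of_wd W hG₂.ker hK.ker e1_ne h4⟩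
            have h7 := hdeg ρ τ₁ t3 t1 (by linarith) h6
            refine ⟨C (-eval e1 (W.wd G₂ K) / eval e1 (W.wd G₁ G₂)) *
              X 1 ^ (ρ.1 - τ₁.1).toNat, ?_, ?_⟩
            · have h8 := (isWeightedHomogeneous_C (tw w)
                (-eval e1 (W.wd G₂ K) / eval e1 (W.wd G₁ G₂))).mul (hX (ρ.1 - τ₁.1).toNat)
              rw [zero_add] at h8
              exact hsec_mul h8 hG₁ h7
            · rw [map_mul, eval_C, map_pow, eval_X, e1, Pi.single_eq_same, one_pow, mul_one]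
        have hg : ∃ g : MvPolynomial (Fin (2 + 1)) ℂ, HSec D ρ (fun i => g * G₂ i) ∧
            eval (e1 : Fin (2 + 1) → ℂ) g =
              eval e1 (W.wd G₁ K) / eval e1 (W.wd G₁ G₂) := by
          by_cases h4 : eval (e1 : Fin (2 + 1) → ℂ) (W.wd G₁ K) = 0
          · refine ⟨0, ?_, by rw [h4, map_zero, zero_div]⟩
            refine ⟨fun i => ?_, ker_mul hG₂.ker 0⟩
            rw [zero_mul]
            exact isWeightedHomogeneous_zero _ _ _
          · have h5 := chi_zero (W.hom _ _ _ _ hG₁ hK) e1_fixed h4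
            rw [map_add, map_add] at h5
            have h6 : τ₂.1 ≤ ρ.1 := hmin₂ _ ⟨ρ, K, rfl, hK, h4⟩
            have h7 := hdeg ρ τ₂ t3 t2 (by linarith) h6
            refine ⟨C (eval e1 (W.wd G₁ K) / eval e1 (W.wd G₁ G₂)) *
              X 1 ^ (ρ.1 - τ₂.1).toNat, ?_, ?_⟩
            · have h8 := (isWeightedHomogeneous_C (tw w)
                (eval e1 (W.wd G₁ K) / eval e1 (W.wd G₁ G₂))).mul (hX (ρ.1 - τ₂.1).toNat)
              rw [zero_add] at h8
              exact hsec_mul h8 hG₂ h7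
            · rw [map_mul, eval_C, map_pow, eval_X, e1, Pi.single_eq_same, one_pow, mul_one]
        obtain ⟨f, hf1, hf2⟩ := hf
        obtain ⟨g, hg1, hg2⟩ := hg
        refine ⟨f, g, hsec_sub hK (hsec_add hf1 hg1), ?_⟩
        funext i
        show eval (e1 : Fin (2 + 1) → ℂ) (K i - (f * G₁ i + g * G₂ i)) = 0
        rw [map_sub, map_add, map_mul, map_mul, hf2, hg2]
        have h4 := h3 i
        field_simp
        linear_combination h4
      obtain ⟨j, -, hj⟩ := gap_step h01 h12 W hG₁ hG₂ hF hgap hfg hz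
      choose K' hK' using hj
      have h1 := T4aux.HSec_div hfg hK'
      obtain ⟨f', g', hfg'⟩ := ih (ρ - tw w j) K' h1 (by
        have : (ρ - tw w j).1 = ρ.1 - 1 := rfl
        rw [this]
        push_cast at hρ
        linarith)
      refine ⟨f + X j * f', g + X j * g', fun i => ?_⟩
      have h2 := hK' i
      rw [hfg' i] at h2
      linear_combination h2
  have main' : ∀ (ρ : M) (K : Vec E.a 2), HSec D ρ K →
      ∃ f g : MvPolynomial (Fin (2 + 1)) ℂ, ∀ i, K i = f * G₁ i + g * G₂ i := by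
    intro ρ K hK
    refine main (ρ.1 - bd + 1).toNat ρ K hK ?_
    have := Int.self_le_toNat (ρ.1 - bd + 1)
    linarith
  apply hE
  refine splits_of_no_zero W (by norm_num) hG₁ hG₂ fun x hx h0 => ?_
  obtain ⟨μ, μ', K, K', hK, hK', hne⟩ := exists_ne W x hx
  obtain ⟨f, g, hfg⟩ := main' μ K hK
  obtain ⟨f', g', hfg'⟩ := main' μ' K' hK'
  apply hne
  have h1 : W.wd K K' = (f * g' - g * f') * W.wd G₁ G₂ := by
    apply wd_eq_of W hK.ker hK'.ker
    intro i j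
    have h2 := W.eq G₁ G₂ hG₁.ker hG₂.ker i j
    rw [hfg i, hfg j, hfg' i, hfg' j]
    linear_combination (f * g' - g * f') * h2
  rw [h1, map_mul, h0, mul_zero]

end plane

/-- **the gap of the types at a middle fixed point.** -/
theorem gap {n : ℕ} (hn : 2 ≤ n) {w : Fin (n + 1) → ℤ × ℤ} {E : Bundle2 n} {D : EqB E w}
    (W : Wedge D) (hw2 : ∀ i, (w i).2 = 0) (hb2 : ∀ i, (D.b i).2 = 0) (hE : ¬ E.Splits)
    {z : Fin (n + 1) → ℂ} {v : ℤ} (hz : z ≠ 0) (hf : Fixed w z v) {i k : Fin (n + 1)}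
    (hi : (w i).1 < v) (hk : v < (w k).1) {A B : ℤ} (h : Ty W z v A B) :
    (w k).1 - (w i).1 ≤ |A - B| := by
  obtain ⟨j, hj⟩ : ∃ j, z j ≠ 0 := by
    by_contra hc
    push Not at hc
    exact hz (funext hc)
  have hjv : (w j).1 = v := hf j hj
  have hij : i ≠ j := by rintro rfl; omega
  have hik : i ≠ k := by rintro rfl; omega
  have hjk : j ≠ k := by rintro rfl; omega
  let f : Fin 3 → Fin (n + 1) := ![i, j, k]
  have hfi : Function.Injective f := by
    intro a b hab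
    fin_cases a <;> fin_cases b <;> simp [f] at hab ⊢ <;> first | exact hij hab | exact hik hab | exact hjk hab | exact hij hab.symm | exact hik hab.symm | exact hjk hab.symm
  have hE' : ¬ (E.pull (cInc f) (cInc_injective f hfi)).Splits := fun h =>
    hE (splits_of_cInc (by norm_num) hn E f hfi h)
  set D' := D.pull (cInc f) (cInc_injective f hfi) (w ∘ f) (cInc_weight f w) with hD'
  obtain ⟨W'⟩ := exists_wedge (by norm_num) D'
  -- the types at the point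
  have hf1 : Fixed w (Pi.single j 1 : Fin (n + 1) → ℂ) v := by
    intro l hl
    by_cases h : l = j
    · rw [h, hjv]
    · exact absurd (Pi.single_eq_of_ne h _) hl
  have hne1 : (Pi.single j 1 : Fin (n + 1) → ℂ) ≠ 0 := by
    intro h
    have := congrFun h j
    rw [Pi.single_eq_same] at this
    exact one_ne_zero this
  obtain ⟨A', B', hAB⟩ := Ty.exists W hne1 v
  have hpull : Ty W' (e1 : Fin (2 + 1) → ℂ) ((w ∘ f) 1).1 A' B' := by
    obtain ⟨τ, τ', G, G', hG, hG', h, hA, hB⟩ := hAB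
    have hv : ((w ∘ f) 1).1 = v := hjv
    rw [hv]
    refine ⟨τ, τ', _, _, hG.pull _ _ _ _, hG'.pull _ _ _ _, ?_, hA, hB⟩
    refine (pull_ne W W' hG.ker hG'.ker e1_ne).2 ?_
    have e : cInc f (e1 : Fin (2 + 1) → ℂ) = Pi.single j 1 := cInc_single f 1
    rw [e]
    exact h
  have h1 := gap_plane W' (show (w i).1 < (w j).1 by omega) (show (w j).1 < (w k).1 by omega)
    (fun t => hw2 (f t)) hb2 hE' hpull
  have h1' : (w k).1 - (w i).1 ≤ |A' - B'| := h1
  rcases Ty.unique W hz hf hf1 h hAB with ⟨e1', e2'⟩ | ⟨e1', e2'⟩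
  · rw [e1', e2']
    exact h1'
  · rw [e1', e2', abs_sub_comm]
    exact h1'

end Pool.Agent.W615
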