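import Pool.Agent.W615.Y4

/-!
# Planes without zeros, derivatives as sections, reversal of the torus (helper615)
-/

set_option autoImplicit false
set_option maxHeartbeats 400000

open MvPolynomial H960VB H938TB

namespace Pool.Agent.W615

variable {n : ℕ} {w : Fin (n + 1) → ℤ × ℤ} {E : Bundle2 n} {D : EqB E w}

theorem cInc_ne {m : ℕ} (f : Fin (m + 1) → Fin (n + 1)) {z : Fin (m + 1) → ℂ} {l : Fin (n + 1)}
    (h : cInc f z l ≠ 0) : ∃ t, f t = l ∧ z t ≠ 0 := by
  by_contra hc
  push Not at hc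
  apply h
  rw [cInc_apply]
  refine Finset.sum_eq_zero fun t _ => ?_
  split_ifs with ht
  · exact hc t ht
  · rfl

theorem fixed_cInc {m : ℕ} (f : Fin (m + 1) → Fin (n + 1)) {z : Fin (m + 1) → ℂ} {v : ℤ}
    (h : Fixed (w ∘ f) z v) : Fixed w (cInc f z) v := by
  intro l hl
  obtain ⟨t, rfl, ht⟩ := cInc_ne f hl
  exact h t ht

/-- **a plane without zeros at the fixed points does not exist.** -/
theorem no_free_plane (hn : 2 ≤ n) (hE : ¬ E.Splits) {σ : M} {s : Vec E.a n} (hs : HSec D σ s)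
    (f : Fin (2 + 1) → Fin (n + 1)) (hf : Function.Injective f)
    (h : ∀ (z : Fin (2 + 1) → ℂ) (v : ℤ), z ≠ 0 → Fixed (w ∘ f) z v → evv s (cInc f z) ≠ 0) :
    False := by
  have hs' := hs.pull (cInc f) (cInc_injective f hf) (w ∘ f) (cInc_weight f w)
  refine hE (splits_of_cInc (by norm_num) hn E f hf (splits_of_nowhere_zero hs' ?_))
  intro z hz h0
  obtain ⟨l, hl, hmin⟩ := exists_min_weight (w ∘ f) hz
  apply h (part (w ∘ f) ((w ∘ f) l).1 z) ((w ∘ f) l).1 (part_ne hl) (part_fixed _ _ _)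
  rw [← evv_lsub]
  funext i
  by_contra hne
  have h1 := eval_part (hs'.hom i) (Or.inl hmin) hne
  exact hne (h1.symm.trans (congrFun h0 i))

/-- the derivatives of a section which vanishes on a subspace are sections on the subspace -/
theorem deriv_sec {m : ℕ} {T : (Fin (m + 1) → ℂ) →ₗ[ℂ] (Fin (n + 1) → ℂ)}
    (hT : Function.Injective T) {w' : Fin (m + 1) → ℤ × ℤ}
    (h : ∀ t s, T (Pi.single t 1) s ≠ 0 → w s = w' t) {σ : M} {s : Vec E.a n}
    (hs : HSec D σ s) (h0 : ∀ i, lsub T (s i) = 0) (l : Fin (n + 1)) :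
    HSec (D.pull T hT w' h) (σ - tw w l) (fun i => lsub T (pderiv l (s i))) where
  hom := by
    intro i
    have h1 := isWH_lsub T h (wh_pderiv (hs.hom i) l)
    have e : (((E.β i, D.b i) : M) + σ - tw w l) = ((E.β i, D.b i) : M) + (σ - tw w l) := by abel
    rw [e] at h1
    exact h1
  ker := by
    intro k
    have h1 := congrArg (fun q => lsub T (pderiv l q)) (hs.ker k)
    simp only [map_sum, map_zero, Derivation.leibniz, smul_eq_mul, map_add, map_mul, h0,
      zero_mul, add_zero] at h1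
    exact h1

/-- independence of the derivatives as sections -/
theorem deriv_wd_ne {m : ℕ} {T : (Fin (m + 1) → ℂ) →ₗ[ℂ] (Fin (n + 1) → ℂ)}
    (hT : Function.Injective T) {w' : Fin (m + 1) → ℤ × ℤ}
    (h : ∀ t s, T (Pi.single t 1) s ≠ 0 → w s = w' t) (W' : Wedge (D.pull T hT w' h))
    {σ : M} {s : Vec E.a n} (hs : HSec D σ s) (h0 : ∀ i, lsub T (s i) = 0) {l l' : Fin (n + 1)}
    {x : Fin (m + 1) → ℂ} (hx : x ≠ 0) {i i' : Fin E.a} (hj : jm s (T x) l l' i i' ≠ 0) :
    eval x (W'.wd (fun i => lsub T (pderiv l (s i))) (fun i => lsub T (pderiv l' (s i)))) ≠ 0 := by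
  rw [W'.ind x hx _ _ (deriv_sec hT h hs h0 l).ker (deriv_sec hT h hs h0 l').ker, T3aux.li_iff]
  refine ⟨i, i', ?_⟩
  show eval x (lsub T (pderiv l (s i))) * eval x (lsub T (pderiv l' (s i'))) -
    eval x (lsub T (pderiv l (s i'))) * eval x (lsub T (pderiv l' (s i))) ≠ 0
  rw [eval_lsub, eval_lsub, eval_lsub, eval_lsub]
  exact hj

theorem zero_of_ne {p : MvPolynomial (Fin (n + 1)) ℂ} (h : ∀ x, x ≠ 0 → eval x p = 0) : p = 0 := by
  have h1 : p * X 0 = 0 := by
    apply MvPolynomial.funext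
    intro x
    rw [map_mul, map_zero]
    by_cases hx : x = 0
    · rw [hx, eval_X]
      simp
    · rw [h x hx, zero_mul]
  exact (mul_eq_zero.1 h1).resolve_right (X_ne_zero 0)

/-! ### reversal -/

/-- the reversal of the weights -/
def nu : M →+ M := AddMonoidHom.mk' (fun τ => (τ.1, -τ.2)) (by
  intro a b
  ext <;> simp <;> ring)

theorem nu_apply (τ : M) : nu τ = (τ.1, -τ.2) := rfl

theorem nu_nu (τ : M) : nu (nu τ) = τ := by
  rw [nu_apply, nu_apply]
  ext <;> simp

theorem wh_nu {p : MvPolynomial (Fin (n + 1)) ℂ} {τ : M} (hp : IsWeightedHomogeneous (tw w) p τ) :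
    IsWeightedHomogeneous (tw (fun i => -w i)) p (nu τ) := by
  intro u hu
  rw [← hp hu, weight_chi, Finsupp.weight_apply, Finsupp.sum_fintype _ _ (by simp)]
  rfl

theorem wh_nu' {p : MvPolynomial (Fin (n + 1)) ℂ} {τ : M}
    (hp : IsWeightedHomogeneous (tw (fun i => -w i)) p τ) :
    IsWeightedHomogeneous (tw w) p (nu τ) := by
  have h := wh_nu hp
  have e : (fun i => -(fun i => -w i) i) = w := by
    funext i
    exact neg_neg _
  rwa [e] at h

/-- the reversed action -/
def rev (D : EqB E w) : EqB E (fun i => -w i) where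
  b := fun i => -D.b i
  c := fun k => -D.c k
  hB := by
    intro k i
    have h := wh_nu (D.hB k i)
    rw [map_sub] at h
    exact h

theorem hsec_rev {τ : M} {G : Vec E.a n} (h : HSec D τ G) : HSec (rev D) (nu τ) G where
  hom := by
    intro i
    have h1 := wh_nu (h.hom i)
    rw [map_add] at h1
    exact h1
  ker := h.ker

theorem hsec_rev' {τ : M} {G : Vec E.a n} (h : HSec (rev D) τ G) : HSec D (nu τ) G where
  hom := by
    intro i
    have h1 := wh_nu' (h.hom i)
    rw [map_add] at h1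
    have e : nu ((E.β i, (rev D).b i) : M) = (E.β i, D.b i) := by
      show ((E.β i, -(-D.b i)) : M) = _
      rw [neg_neg]
    rw [e] at h1
    exact h1
  ker := h.ker

/-- the wedge product of the reversed action -/
noncomputable def revW (W : Wedge D) : Wedge (rev D) where
  κ := nu W.κ
  P := W.P
  wd := W.wd
  P_ne := W.P_ne
  eq := W.eq
  hom := by
    intro τ τ' G G' hG hG'
    have h := wh_nu (W.hom _ _ _ _ (hsec_rev' hG) (hsec_rev' hG'))
    rw [map_add, map_add, nu_nu, nu_nu] at h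
    exact h
  ind := W.ind
  smul := W.smul
  anti := W.anti
  three := W.three
  four := W.four

theorem Fixed.rev {z : Fin (n + 1) → ℂ} {v : ℤ} (h : Fixed w z v) :
    Fixed (fun i => -w i) z (-v) := by
  intro l hl
  show (-w l).1 = -v
  rw [Prod.fst_neg, h l hl]

theorem chi_nu (v : ℤ) (τ : M) : chi (-v) (nu τ) = -chi v τ := by
  rw [chi_def, chi_def, nu_apply]
  show (-τ.2).1 - -v * τ.1 = _
  rw [Prod.fst_neg]
  ring

theorem Ty.rev {W : Wedge D} {z : Fin (n + 1) → ℂ} {v A B : ℤ} (h : Ty W z v A B) :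
    Ty (revW W) z (-v) (-A) (-B) := by
  obtain ⟨τ, τ', G, G', hG, hG', h, rfl, rfl⟩ := h
  exact ⟨nu τ, nu τ', G, G', hsec_rev hG, hsec_rev hG', h, chi_nu _ _, chi_nu _ _⟩

/-! ### zeros of a form in three variables -/

theorem prime_factor_at {m : ℕ} {p : MvPolynomial (Fin m) ℂ} {x : Fin m → ℂ} (hp : p ≠ 0)
    (h : eval x p = 0) : ∃ π, Prime π ∧ π ∣ p ∧ eval x π = 0 := by
  obtain ⟨f, hf, u, hu⟩ := UniqueFactorizationMonoid.exists_prime_factors p hp
  have h1 : eval x f.prod = 0 := by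
    have h2 : eval x (f.prod * (u : MvPolynomial (Fin m) ℂ)) = 0 := by rw [hu, h]
    rw [map_mul] at h2
    rcases mul_eq_zero.1 h2 with h3 | h3
    · exact h3
    · exfalso
      have h4 : IsUnit (eval x (u : MvPolynomial (Fin m) ℂ)) := u.isUnit.map (eval x)
      exact h4.ne_zero h3
  rw [map_multiset_prod, Multiset.prod_eq_zero_iff, Multiset.mem_map] at h1
  obtain ⟨π, hπ, h2⟩ := h1
  refine ⟨π, hf π hπ, ?_, h2⟩
  rw [← hu]
  exact dvd_mul_of_dvd_left (Multiset.dvd_prod hπ) _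

theorem exists_zero {g : MvPolynomial (Fin (2 + 1)) ℂ} (hg : g ≠ 0)
    (h0 : eval (Pi.single 0 1 : Fin (2 + 1) → ℂ) g = 0) :
    ∃ z : Fin (2 + 1) → ℂ, eval z g = 0 ∧ z 0 ≠ 0 ∧ ∃ t, t ≠ 0 ∧ z t ≠ 0 := by
  obtain ⟨π, hπ, ⟨q, hq⟩, hπ0⟩ := prime_factor_at hg h0
  by_contra hc
  push Not at hc
  have key : ∀ t : Fin (2 + 1), t ≠ 0 → π ∣ X t := by
    intro t ht
    have h1 : π ∣ X 0 * X t := by
      refine dvd_of_vanish hπ fun v hv => ?_
      rw [map_mul, eval_X, eval_X]
      by_cases hv0 : v 0 = 0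
      · rw [hv0, zero_mul]
      · rw [hc v (by rw [hq, map_mul, hv, zero_mul]) hv0 t ht, mul_zero]
    rcases hπ.dvd_or_dvd h1 with ⟨r, hr⟩ | h2
    · exfalso
      have h3 := congrArg (eval (Pi.single 0 1 : Fin (2 + 1) → ℂ)) hr
      rw [map_mul, hπ0, zero_mul, eval_X, Pi.single_eq_same] at h3
      exact one_ne_zero h3
    · exact h2
  have h1 := key 1 (by decide)
  have h2 := key 2 (by decide)
  have h3 := (hπ.associated_of_dvd (X_prime (i := 1) (R := ℂ)) h1).symm.dvd.trans h2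
  rw [X_dvd_X] at h3
  exact absurd h3 (by decide)

/-- limits to a coordinate point -/
theorem ne_of_limit {p : MvPolynomial (Fin (n + 1)) ℂ} {τ : M}
    (hp : IsWeightedHomogeneous (tw w) p τ) {y : Fin (n + 1) → ℂ} {j : Fin (n + 1)}
    (hy : ∀ l, y l ≠ 0 → l = j ∨ (w j).1 < (w l).1) (hj : y j ≠ 0)
    (h : eval (Pi.single j 1 : Fin (n + 1) → ℂ) p ≠ 0) : eval y p ≠ 0 := by
  have h1 : part w (w j).1 y = y j • (Pi.single j 1 : Fin (n + 1) → ℂ) := by
    funext l
    show (if (w l).1 = (w j).1 then y l else 0) = _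
    rw [Pi.smul_apply, smul_eq_mul]
    by_cases hl : l = j
    · subst hl
      rw [if_pos rfl, Pi.single_eq_same, mul_one]
    · rw [Pi.single_eq_of_ne hl, mul_zero]
      by_cases hyl : y l = 0
      · rw [hyl, ite_self]
      · rcases hy l hyl with h2 | h2
        · exact absurd h2 hl
        · rw [if_neg (by omega)]
  apply eval_ne_of_part hp (v := (w j).1)
  · left
    intro l hl
    rcases hy l hl with h2 | h2
    · rw [h2]
    · exact h2.le
  · rw [h1, eval_scale_ne hp hj]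
    exact h

end Pool.Agent.W615
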