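import Pool.Agent.W615.Y5

/-!
# The orbit argument (helper615)
-/

set_option autoImplicit false
set_option maxHeartbeats 800000

open MvPolynomial H960VB H938TB

namespace Pool.Agent.W615

variable {n : ℕ} {w : Fin (n + 1) → ℤ × ℤ} {E : Bundle2 n} {D : EqB E w}

theorem wd_P_eval (W : Wedge D) {G G' : Vec E.a n} (hG : Ker E G) (hG' : Ker E G')
    (x : Fin (n + 1) → ℂ) (i j : Fin E.a) :
    eval x (G i) * eval x (G' j) - eval x (G j) * eval x (G' i) =
      eval x (W.wd G G') * eval x (W.P i j) := by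
  have h := congrArg (eval x) (W.eq G G' hG hG' i j)
  rw [map_sub, map_mul, map_mul, map_mul] at h
  exact h

/-- **the orbit argument.** -/
theorem orbit (hn : 2 ≤ n) (hE : ¬ E.Splits) (W : Wedge D) {σ : M} {s : Vec E.a n}
    (hs : HSec D σ s) {a b A B : ℤ} {j j' j'' : Fin (n + 1)} (h12 : j' ≠ j'')
    (hj' : (w j).1 < (w j').1) (hj'' : (w j).1 < (w j'').1) (hb' : (w j').1 < b)
    (hb'' : (w j'').1 < b) (ha : a < (w j).1)
    (h0 : evv s (Pi.single j 1 : Fin (n + 1) → ℂ) = 0)
    (hsm : SmoothAt s (Pi.single j 1 : Fin (n + 1) → ℂ))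
    (hty : Ty W (Pi.single j 1 : Fin (n + 1) → ℂ) (w j).1 A B)
    (hA : chi (w j).1 σ - A = a - (w j).1) (hB : chi (w j).1 σ - B = b - (w j).1)
    (hc : (σ + σ + W.κ).1 = 2) : False := by
  have hne1 : (Pi.single j 1 : Fin (n + 1) → ℂ) ≠ 0 := by
    intro h
    have := congrFun h j
    rw [Pi.single_eq_same] at this
    exact one_ne_zero this
  have hf1 : Fixed w (Pi.single j 1 : Fin (n + 1) → ℂ) (w j).1 := by
    intro l hl
    by_cases h : l = j
    · rw [h]
    · exact absurd (Pi.single_eq_of_ne h _) hl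
  have hsum := Ty.sum W hf1 hty
  obtain ⟨τ, τ', G, G', hG, hG', hF, hτ, hτ'⟩ := hty
  obtain ⟨l, l', hll, hd, hd', i₀, i₀', hjm⟩ := smooth_basis W hG hG' hs.ker hne1 hF h0 hsm
  -- the plane
  have hij : j ≠ j' := by rintro rfl; omega
  have hik : j ≠ j'' := by rintro rfl; omega
  let f : Fin (2 + 1) → Fin (n + 1) := ![j, j', j'']
  have hfi : Function.Injective f := by
    intro a b hab
    fin_cases a <;> fin_cases b <;> simp [f] at hab ⊢ <;> first | exact hij hab | exact hik hab | exact h12 hab | exact hij hab.symm | exact hik hab.symm | exact h12 hab.symm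
  have hE' : ¬ (E.pull (cInc f) (cInc_injective f hfi)).Splits := fun h =>
    hE (splits_of_cInc (by norm_num) hn E f hfi h)
  set T := cInc f with hT
  have hTi : Function.Injective T := cInc_injective f hfi
  set D' := D.pull T hTi (w ∘ f) (cInc_weight f w) with hD'
  obtain ⟨W'⟩ := exists_wedge (by norm_num) D'
  have hκ : W'.κ = W.κ := kappa_pull W W' (by norm_num)
  have he0 : (Pi.single 0 1 : Fin (2 + 1) → ℂ) ≠ 0 := by
    intro h
    have := congrFun h 0
    rw [Pi.single_eq_same] at this
    exact one_ne_zero this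
  have hTe : T (Pi.single 0 1) = Pi.single j 1 := cInc_single f 0
  have hfix0 : Fixed (w ∘ f) (Pi.single 0 1 : Fin (2 + 1) → ℂ) (w j).1 := by
    intro t ht
    by_cases h : t = 0
    · rw [h]
      rfl
    · exact absurd (Pi.single_eq_of_ne h _) ht
  have hwf : ∀ t : Fin (2 + 1), t = 0 ∨ (w j).1 < ((w ∘ f) t).1 := by
    intro t
    fin_cases t
    · exact Or.inl rfl
    · exact Or.inr hj'
    · exact Or.inr hj''
  have hwb : ∀ t : Fin (2 + 1), ((w ∘ f) t).1 < b := by
    intro t
    fin_cases t
    · exact lt_trans hj' hb'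
    · exact hb'
    · exact hb''
  have hwl : (w l).1 = a := by
    have h1 := chi_pderiv (W.hom _ _ _ _ hG' hs) hf1 hd
    rw [map_add, map_add, hτ'] at h1
    linarith
  -- one of the two coordinates vanishes on the plane
  have hz : lsub T (W.wd G' s) = 0 := by
    apply MvPolynomial.funext
    intro x
    rw [map_zero, eval_lsub]
    by_contra hne
    have h1 := chi_nonneg (v := (w j).1) (W.hom _ _ _ _ hG' hs) (z := T x) (by
      intro l hl
      obtain ⟨t, rfl, ht⟩ := cInc_ne f hl
      rcases hwf t with h | h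
      · rw [h]
        exact le_rfl
      · exact h.le) hne
    rw [map_add, map_add, hτ'] at h1
    linarith
  have hz' := pull_zero W W' hG'.ker hs.ker hz
  have hs' : HSec D' σ (fun i => lsub T (s i)) := hs.pull _ _ _ _
  have hG₁ : HSec D' τ (fun i => lsub T (G i)) := hG.pull _ _ _ _
  have hG₁' : HSec D' τ' (fun i => lsub T (G' i)) := hG'.pull _ _ _ _
  by_cases hs0 : ∀ i, lsub T (s i) = 0
  · -- the section vanishes on the plane
    have h1 := deriv_wd_ne hTi (cInc_weight f w) W' hs hs0 (x := Pi.single 0 1) he0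
      (l := l) (l' := l') (i := i₀) (i' := i₀') (by rw [hTe]; exact hjm)
    have k1 := deriv_sec hTi (cInc_weight f w) hs hs0 l
    have k2 := deriv_sec hTi (cInc_weight f w) hs hs0 l'
    obtain ⟨c, hc0, hcu⟩ := const_of_degree_zero (W'.hom _ _ _ _ k1 k2)
      (fun h => h1 (by rw [h, map_zero])) (by
        rw [hκ]
        show σ.1 - 1 + (σ.1 - 1) + W.κ.1 = 0
        have : σ.1 + σ.1 + W.κ.1 = 2 := hc
        linarith)
    exact hE' (splits_of_const W' k1 k2 c hc0 hcu)
  · push Not at hs0
    obtain ⟨δ, g, U, hg0, hg, hU, hUp, hgU⟩ := exists_prm hs' hs0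
    -- G' is a multiple of U
    have h1 : W'.wd (fun i => lsub T (G' i)) U = 0 := by
      have h2 := wd_of_mul_right W' hU.ker hG₁'.ker hgU
      rw [hz'] at h2
      exact (mul_eq_zero.1 h2.symm).resolve_left hg0
    obtain ⟨hh, hhU⟩ := hUp.dvd_wd W' hU.ker hG₁'.ker (wd_swap W' hG₁'.ker hU.ker h1)
    have hF' := (pull_ne W W' hG.ker hG'.ker he0).2 (by rw [hTe]; exact hF)
    rw [wd_of_mul_right W' hU.ker hG₁.ker hhU, map_mul] at hF'
    have hGU := right_ne_zero_of_mul hF'
    have hδ : chi (w j).1 δ = b - (w j).1 := by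
      have h2 := chi_zero (W'.hom _ _ _ _ hG₁ hU) hfix0 hGU
      rw [hκ, map_add, map_add, map_sub, hτ] at h2
      linarith
    have hδ1 : 2 ≤ δ.1 := by
      obtain ⟨u, hu⟩ := ne_zero_iff.1 hg0
      have h2 := hg hu
      have h3 := congrArg Prod.fst h2
      rw [weight_fst, Fin.sum_univ_three] at h3
      have h4 := congrArg (chi (w j).1) h2
      rw [chi_weight, Fin.sum_univ_three, hδ] at h4
      have h5 : ((w ∘ f) 0).1 = (w j).1 := rfl
      rw [h5, sub_self, mul_zero, zero_add] at h4
      have h6 := hwb 1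
      have h7 := hwb 2
      rw [← h3]
      by_contra hcon
      push Not at hcon
      have h8 : u 0 + u 1 + u 2 ≤ 1 := by omega
      have h9 : u 1 = 0 ∨ u 1 = 1 := by omega
      have h10 : u 2 = 0 ∨ u 2 = 1 := by omega
      rcases h9 with h9 | h9 <;> rcases h10 with h10 | h10 <;> rw [h9, h10] at h4
      · simp only [Nat.cast_zero, zero_mul, add_zero] at h4
        omega
      · simp only [Nat.cast_zero, Nat.cast_one, zero_mul, one_mul, zero_add] at h4
        omega
      · simp only [Nat.cast_zero, Nat.cast_one, zero_mul, one_mul, add_zero] at h4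
        omega
      · omega
    -- a zero of g
    have hge : eval (Pi.single 0 1 : Fin (2 + 1) → ℂ) g = 0 := by
      by_contra hne
      have h2 := chi_zero hg hfix0 hne
      rw [hδ] at h2
      omega
    obtain ⟨z, hzg, hz0, t, ht0, hzt⟩ := exists_zero hg0 hge
    have hzne : z ≠ 0 := fun h => hz0 (congrFun h 0)
    have hy : ∀ t, T z (f t) = z t := cInc_apply_self f hfi z
    have hyne : T z ≠ 0 := T_ne hTi hzne
    have hsy : evv s (T z) = 0 := by
      rw [← evv_lsub]
      funext i
      show eval z (lsub T (s i)) = 0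
      rw [hgU, map_mul, hzg, zero_mul]
    -- nonvanishing at the point
    have hlim : ∀ l, T z l ≠ 0 → l = j ∨ (w j).1 < (w l).1 := by
      intro l hl
      obtain ⟨t, rfl, ht⟩ := cInc_ne f hl
      rcases hwf t with h | h
      · left
        rw [h]
        rfl
      · exact Or.inr h
    have hyj : T z j ≠ 0 := by
      have : T z j = z 0 := hy 0
      rw [this]
      exact hz0
    have hFy : eval (T z) (W.wd G G') ≠ 0 := ne_of_limit (W.hom _ _ _ _ hG hG') hlim hyj hF
    have hdy : eval (T z) (pderiv l (W.wd G' s)) ≠ 0 :=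
      ne_of_limit (wh_pderiv (W.hom _ _ _ _ hG' hs) l) hlim hyj hd
    have hGUz : eval z (W'.wd (fun i => lsub T (G i)) U) ≠ 0 := by
      refine ne_of_limit (W'.hom _ _ _ _ hG₁ hU) (j := 0) (fun t _ => hwf t) hz0 hGU
    obtain ⟨i, i', hP⟩ := W'.P_ne z hzne
    -- the invariant
    set Δ : ℂ := eval z (U i) * eval (T z) (pderiv l (s i')) -
      eval z (U i') * eval (T z) (pderiv l (s i)) with hΔ
    have key : ∀ (H H' : Vec E.a n), Ker E H → Ker E H' →
        eval (T z) (W.wd H H') * Δ = (eval (T z) (pderiv l (W.wd H s)) *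
          eval z (W'.wd U (fun i => lsub T (H' i))) - eval (T z) (pderiv l (W.wd H' s)) *
          eval z (W'.wd U (fun i => lsub T (H i)))) * eval z (W'.P i i') := by
      intro H H' hH hH'
      have k1 := deriv_at_zero W hH hH' hs.ker hyne hsy l i
      have k2 := deriv_at_zero W hH hH' hs.ker hyne hsy l i'
      have k3 := wd_P_eval W' hU.ker (hH.pull T hTi) z i i'
      have k4 := wd_P_eval W' hU.ker (hH'.pull T hTi) z i i'
      simp only [eval_lsub] at k3 k4
      have e1 : eval (T z) (W.wd H H') * Δ =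
          eval z (U i) * (eval (T z) (W.wd H H') * eval (T z) (pderiv l (s i'))) -
          eval z (U i') * (eval (T z) (W.wd H H') * eval (T z) (pderiv l (s i))) := by
        rw [hΔ]
        ring
      rw [e1, k1, k2]
      linear_combination eval (T z) (pderiv l (W.wd H s)) * k4 -
        eval (T z) (pderiv l (W.wd H' s)) * k3
    have hΔ0 : Δ ≠ 0 := by
      intro h
      have h2 := key G G' hG.ker hG'.ker
      have h3 : W'.wd U (fun i => lsub T (G' i)) = 0 := wd_swap W' hG₁'.ker hU.ker h1
      have h4 : W'.wd U (fun i => lsub T (G i)) = -W'.wd (fun i => lsub T (G i)) U :=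
        W'.anti _ _ hU.ker hG₁.ker
      rw [h, mul_zero, h3, h4, map_zero, mul_zero, map_neg, zero_sub] at h2
      have h5 := (mul_eq_zero.1 h2.symm).resolve_right hP
      rw [neg_eq_zero] at h5
      rcases mul_eq_zero.1 h5 with h6 | h6
      · exact hdy h6
      · exact hGUz (neg_eq_zero.1 h6)
    -- the other end of the orbit
    obtain ⟨p, hp, hmax⟩ := exists_max_weight w hyne
    have hvp : (w j).1 < (w p).1 := by
      have h2 : T z (f t) ≠ 0 := by
        rw [hy]
        exact hzt
      have h3 := hmax _ h2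
      rcases hwf t with h | h
      · exact absurd h ht0
      · exact lt_of_lt_of_le h h3
    obtain ⟨μ, μ', H, H', hH, hH', hFp⟩ := exists_ne W (part w (w p).1 (T z)) (part_ne hp)
    have hχF := chi_zero (W.hom _ _ _ _ hH hH') (part_fixed _ _ _) hFp
    have hFpy := eval_ne_of_part (W.hom _ _ _ _ hH hH') (Or.inr hmax) hFp
    have hmax' : ∀ t, z t ≠ 0 → ((w ∘ f) t).1 ≤ (w p).1 := by
      intro t ht
      exact hmax (f t) (by rw [hy]; exact ht)
    have hX : chi (w p).1 (σ + σ + W.κ - tw w l - δ) ≤ 0 := by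
      have h2 := key H H' hH.ker hH'.ker
      have h3 := mul_ne_zero hFpy hΔ0
      rw [h2] at h3
      have h4 := left_ne_zero_of_mul h3
      rw [map_add, map_add] at hχF
      by_cases h5 : eval (T z) (pderiv l (W.wd H s)) *
          eval z (W'.wd U (fun i => lsub T (H' i))) = 0
      · rw [h5, zero_sub, neg_ne_zero] at h4
        have h6 := chi_nonpos (wh_pderiv (W.hom _ _ _ _ hH' hs) l) hmax (left_ne_zero_of_mul h4)
        have h7 := chi_nonpos (W'.hom _ _ _ _ hU (hH.pull T hTi _ _)) hmax'
          (right_ne_zero_of_mul h4)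
        rw [hκ] at h7
        simp only [map_add, map_sub] at h6 h7 ⊢
        linarith
      · have h6 := chi_nonpos (wh_pderiv (W.hom _ _ _ _ hH hs) l) hmax (left_ne_zero_of_mul h5)
        have h7 := chi_nonpos (W'.hom _ _ _ _ hU (hH'.pull T hTi _ _)) hmax'
          (right_ne_zero_of_mul h5)
        rw [hκ] at h7
        simp only [map_add, map_sub] at h6 h7 ⊢
        linarith
    rw [chi_shift (w j).1] at hX
    have hX1 : (σ + σ + W.κ - tw w l - δ).1 = 1 - δ.1 := by
      show (σ + σ + W.κ).1 - 1 - δ.1 = 1 - δ.1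
      rw [hc]
      ring
    have hX2 : chi (w j).1 (σ + σ + W.κ - tw w l - δ) = 0 := by
      rw [map_sub, map_sub, map_add, map_add, chi_tw, hwl, hδ]
      linarith
    rw [hX1, hX2] at hX
    have h2 : 0 < ((w p).1 - (w j).1) * (δ.1 - 1) := mul_pos (by omega) (by omega)
    linarith

end Pool.Agent.W615
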