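import Pool.Agent.W615.Y6

/-!
# Fixed lines and lines joining two fixed points (helper615)
-/

set_option autoImplicit false
set_option maxHeartbeats 400000

open MvPolynomial H960VB H938TB

namespace Pool.Agent.W615

variable {n : ℕ} {w : Fin (n + 1) → ℤ × ℤ} {E : Bundle2 n} {D : EqB E w}

/-- the coordinate points -/
abbrev ee {n : ℕ} (j : Fin (n + 1)) : Fin (n + 1) → ℂ := Pi.single j 1

theorem ee_ne (j : Fin (n + 1)) : (ee j : Fin (n + 1) → ℂ) ≠ 0 := by
  intro h
  have := congrFun h j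
  rw [ee, Pi.single_eq_same] at this
  exact one_ne_zero this

theorem ee_fixed (w : Fin (n + 1) → ℤ × ℤ) (j : Fin (n + 1)) :
    Fixed w (ee j : Fin (n + 1) → ℂ) (w j).1 := by
  intro l hl
  by_cases h : l = j
  · rw [h]
  · exact absurd (Pi.single_eq_of_ne h _) hl

theorem inj2 {i i' : Fin (n + 1)} (h : i ≠ i') :
    Function.Injective (![i, i'] : Fin (1 + 1) → Fin (n + 1)) := by
  intro a b hab
  fin_cases a <;> fin_cases b <;> simp at hab ⊢ <;> first | exact h hab | exact h hab.symm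

/-- **a fixed line of smooth zeros, with only two normal directions**: the degree is two. -/
theorem no_double (W : Wedge D) {σ : M} {s : Vec E.a n} (hs : HSec D σ s) (hsm : SmoothF w s)
    {a b A B : ℤ} {i i' : Fin (n + 1)} (hii : i ≠ i') (hi : (w i).1 = a) (hi' : (w i').1 = a)
    (hab : a < b) (hty : Ty W (ee i : Fin (n + 1) → ℂ) a A B) (hA : chi a σ - A = b - a)
    (hB : chi a σ - B = b - a) {l₀ l₀' : Fin (n + 1)}
    (hl : ∀ l, (w l).1 = b → l = l₀ ∨ l = l₀') (hc : (σ + σ + W.κ).1 ≠ 2) : False := by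
  have hfi := inj2 hii
  set f : Fin (1 + 1) → Fin (n + 1) := ![i, i'] with hf
  set T := cInc f with hT
  have hTi : Function.Injective T := cInc_injective f hfi
  obtain ⟨W'⟩ := exists_wedge (by norm_num) (D.pull T hTi (w ∘ f) (cInc_weight f w))
  have hκ : W'.κ = W.κ := kappa_pull W W' (by norm_num)
  have hfix : ∀ x, Fixed w (T x) a := by
    intro x l hl
    obtain ⟨t, rfl, -⟩ := cInc_ne f hl
    fin_cases t
    · exact hi
    · exact hi'
  have hfi0 : Fixed w (ee i : Fin (n + 1) → ℂ) a := by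
    have := ee_fixed w i
    rwa [hi] at this
  -- the types on the line
  have htype : ∀ x, x ≠ 0 → ∃ A' B', Ty W (T x) a A' B' ∧ chi a σ - A' = b - a ∧
      chi a σ - B' = b - a := by
    intro x hx
    obtain ⟨A', B', h⟩ := Ty.exists W (T_ne hTi hx) a
    refine ⟨A', B', h, ?_⟩
    rcases Ty.unique W (ee_ne i) hfi0 (hfix x) hty h with ⟨e1', e2'⟩ | ⟨e1', e2'⟩
    · rw [← e1', ← e2']
      exact ⟨hA, hB⟩
    · rw [← e1', ← e2']
      exact ⟨hB, hA⟩
  have hzero : ∀ x, x ≠ 0 → evv s (T x) = 0 := by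
    intro x hx
    by_contra hne
    obtain ⟨A', B', h, h1, h2⟩ := htype x hx
    rcases type_out W hs (hfix x) h hne with h3 | h3
    · rw [h3] at h1
      omega
    · rw [h3] at h2
      omega
  have hs0 : ∀ i, lsub T (s i) = 0 := by
    intro i
    apply zero_of_ne
    intro x hx
    rw [eval_lsub]
    exact congrFun (hzero x hx) i
  have k1 := deriv_sec hTi (cInc_weight f w) hs hs0 l₀
  have k2 := deriv_sec hTi (cInc_weight f w) hs hs0 l₀'
  have hne : ∀ x : Fin (1 + 1) → ℂ, x ≠ 0 →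
      eval x (W'.wd (fun i => lsub T (pderiv l₀ (s i))) (fun i => lsub T (pderiv l₀' (s i)))) ≠ 0 := by
    intro x hx
    obtain ⟨A', B', h, h1, h2⟩ := htype x hx
    obtain ⟨l, l', hll, e1, e2, i₁, i₂, hj⟩ :=
      type_in W hs (T_ne hTi hx) (hfix x) h (hzero x hx)
        (hsm _ _ (T_ne hTi hx) (hfix x) (hzero x hx))
    have m1 : (w l).1 = b := by omega
    have m2 : (w l').1 = b := by omega
    have hj' : jm s (T x) l₀ l₀' i₁ i₂ ≠ 0 := by
      rcases hl l m1 with r1 | r1 <;> rcases hl l' m2 with r2 | r2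
      · exact absurd (r1.trans r2.symm) hll
      · rw [← r1, ← r2]
        exact hj
      · rw [← r1, ← r2, jm_swap]
        exact neg_ne_zero.2 hj
      · exact absurd (r1.trans r2.symm) hll
    exact deriv_wd_ne hTi (cInc_weight f w) W' hs hs0 hx hj'
  obtain ⟨c, hc0, hcu⟩ := const_of_no_zero (by norm_num) hne
  have h1 := W'.hom _ _ _ _ k1 k2
  rw [hcu] at h1
  have h2 := h1 (d := 0) (by rw [coeff_zero_C]; exact hc0)
  rw [map_zero, hκ] at h2
  apply hc
  have h3 := congrArg Prod.fst h2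
  have h4 : (0 : ℤ) = σ.1 - 1 + (σ.1 - 1) + W.κ.1 := h3
  show σ.1 + σ.1 + W.κ.1 = 2
  linarith

/-- **the line joining a fixed point with a fixed point outside.** -/
theorem line_deg (W : Wedge D) {σ : M} {s : Vec E.a n} (hs : HSec D σ s) {A B : ℤ}
    {j k : Fin (n + 1)} (hjk : j ≠ k) (hty : Ty W (ee j : Fin (n + 1) → ℂ) (w j).1 A B)
    (hk : evv s (ee k : Fin (n + 1) → ℂ) ≠ 0) :
    ∃ α : ℕ, (α : ℤ) * ((w k).1 - (w j).1) = chi (w j).1 σ - A ∨
      (α : ℤ) * ((w k).1 - (w j).1) = chi (w j).1 σ - B := by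
  have hsum := Ty.sum W (ee_fixed w j) hty
  obtain ⟨τ, τ', G, G', hG, hG', hF, rfl, rfl⟩ := hty
  have hfi := inj2 hjk
  set f : Fin (1 + 1) → Fin (n + 1) := ![j, k] with hf
  set T := cInc f with hT
  have hTj : T (Pi.single 0 1) = ee j := cInc_single f 0
  have hTk : T (Pi.single 1 1) = ee k := cInc_single f 1
  have key : ∀ (p : MvPolynomial (Fin (n + 1)) ℂ) (ρ : M), IsWeightedHomogeneous (tw w) p ρ →
      lsub T p ≠ 0 → ∃ α : ℕ, (α : ℤ) * ((w k).1 - (w j).1) = chi (w j).1 ρ := by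
    intro p ρ hp h0
    obtain ⟨x, hx⟩ : ∃ x, eval x (lsub T p) ≠ 0 := by
      by_contra hc
      push Not at hc
      exact h0 (MvPolynomial.funext fun x => by rw [hc x, map_zero])
    rw [eval_lsub] at hx
    obtain ⟨u, hu, hl⟩ := exists_mono hx
    refine ⟨u k, ?_⟩
    rw [← hp hu, chi_weight, Finset.sum_eq_single k]
    · intro l _ hlk
      by_cases h1 : u l = 0
      · rw [h1]; simp
      · obtain ⟨t, ht, -⟩ := cInc_ne f (hl l h1)
        fin_cases t
        · have : j = l := ht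
          rw [← this, sub_self, mul_zero]
        · exact absurd ht.symm hlk
    · intro h
      exact absurd (Finset.mem_univ _) h
  by_cases h1 : lsub T (W.wd G s) = 0
  · by_cases h2 : lsub T (W.wd G' s) = 0
    · exfalso
      have h3 : ∀ i, lsub T (s i) = 0 := by
        intro i
        have h4 := congrArg (lsub T) (W.three G G' s hG.ker hG'.ker hs.ker i)
        rw [map_add, map_sub, map_mul, map_mul, map_mul, h1, h2, map_zero, zero_mul, zero_mul,
          sub_zero, zero_add] at h4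
        refine (mul_eq_zero.1 h4).resolve_left fun h5 => hF ?_
        rw [← hTj, ← eval_lsub, h5, map_zero]
      apply hk
      funext i
      show eval (ee k) (s i) = 0
      rw [← hTk, ← eval_lsub, h3, map_zero]
    · obtain ⟨α, hα⟩ := key _ _ (W.hom _ _ _ _ hG' hs) h2
      refine ⟨α, Or.inl ?_⟩
      rw [hα, map_add, map_add]
      linarith
  · obtain ⟨α, hα⟩ := key _ _ (W.hom _ _ _ _ hG hs) h1
    refine ⟨α, Or.inr ?_⟩
    rw [hα, map_add, map_add]
    linarith

end Pool.Agent.W615
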