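import Pool.Agent.W615.Y7

/-!
# Smooth zero loci of codimension two with a one-dimensional torus of symmetries (helper615)
-/

set_option autoImplicit false
set_option maxHeartbeats 800000

open MvPolynomial H960VB H938TB

namespace Pool.Agent.W615

variable {n : ℕ} {w : Fin (n + 1) → ℤ × ℤ} {E : Bundle2 n} {D : EqB E w}

/-- the data of the numerical argument -/
structure Dat (W : Wedge D) (σ : M) (s : Vec E.a n) (a b : ℤ) : Prop where
  hn : 3 ≤ n
  hE : ¬ E.Splits
  hs : HSec D σ s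
  hsm : SmoothF w s
  hw2 : ∀ i, (w i).2 = 0
  hb2 : ∀ i, (D.b i).2 = 0
  ha : ∀ l, a ≤ (w l).1
  hb : ∀ l, (w l).1 ≤ b
  ha' : ∃ l, (w l).1 = a
  hb' : ∃ l, (w l).1 = b
  hab : a < b

variable {W : Wedge D} {σ : M} {s : Vec E.a n} {a b : ℤ}

theorem Dat.rev (H : Dat W σ s a b) : Dat (revW W) (nu σ) s (-b) (-a) where
  hn := H.hn
  hE := H.hE
  hs := hsec_rev H.hs
  hsm := fun x v hx hf h0 => H.hsm x (-v) hx (fun l hl => by
    have h1 : (-w l).1 = v := hf l hl
    rw [Prod.fst_neg] at h1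
    omega) h0
  hw2 := fun i => by
    show (-w i).2 = 0
    rw [Prod.snd_neg, H.hw2, neg_zero]
  hb2 := fun i => by
    show (-D.b i).2 = 0
    rw [Prod.snd_neg, H.hb2, neg_zero]
  ha := fun l => by
    show -b ≤ (-w l).1
    have := H.hb l
    rw [Prod.fst_neg]
    omega
  hb := fun l => by
    show (-w l).1 ≤ -a
    have := H.ha l
    rw [Prod.fst_neg]
    omega
  ha' := by
    obtain ⟨l, hl⟩ := H.hb'
    exact ⟨l, by show (-w l).1 = -b; rw [Prod.fst_neg, hl]⟩
  hb' := by
    obtain ⟨l, hl⟩ := H.ha'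
    exact ⟨l, by show (-w l).1 = -a; rw [Prod.fst_neg, hl]⟩
  hab := by
    have := H.hab
    omega

/-- the sum of the two weights -/
theorem Dat.sum {z : Fin (n + 1) → ℂ} {v A B : ℤ} (hf : Fixed w z v) (h : Ty W z v A B) :
    (chi v σ - A) + (chi v σ - B) = (σ + σ + W.κ).2.1 - v * (σ + σ + W.κ).1 := by
  have h1 := Ty.sum W hf h
  rw [← chi_def, map_add, map_add]
  linarith

/-- middle zeros -/
theorem Dat.mid_in (H : Dat W σ s a b) {z : Fin (n + 1) → ℂ} {v : ℤ} (hz : z ≠ 0)
    (hf : Fixed w z v) (hav : a < v) (hvb : v < b) (h0 : evv s z = 0) {A B : ℤ}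
    (h : Ty W z v A B) : (chi v σ - A = a - v ∧ chi v σ - B = b - v) ∨
      (chi v σ - A = b - v ∧ chi v σ - B = a - v) := by
  obtain ⟨i, hi⟩ := H.ha'
  obtain ⟨k, hk⟩ := H.hb'
  have h1 := gap (by have := H.hn; omega) W H.hw2 H.hb2 H.hE hz hf (i := i) (k := k) (by omega)
    (by omega) h
  obtain ⟨l, l', -, e1, e2, -⟩ := type_in W H.hs hz hf h h0
    (H.hsm _ _ hz hf h0)
  have a1 := H.ha l
  have a2 := H.ha l'
  have b1 := H.hb l
  have b2 := H.hb l'
  rw [hi, hk] at h1
  rcases abs_cases (A - B) with ⟨h2, -⟩ | ⟨h2, -⟩ <;> rw [h2] at h1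
  · left
    constructor <;> omega
  · right
    constructor <;> omega

/-- middle points outside -/
theorem Dat.mid_out (H : Dat W σ s a b) {z : Fin (n + 1) → ℂ} {v : ℤ} (hz : z ≠ 0)
    (hf : Fixed w z v) (hav : a < v) (hvb : v < b) (h0 : evv s z ≠ 0) {A B : ℤ}
    (h : Ty W z v A B) : (chi v σ = A ∨ chi v σ = B) ∧ b - a ≤ |A - B| := by
  obtain ⟨i, hi⟩ := H.ha'
  obtain ⟨k, hk⟩ := H.hb'
  have h1 := gap (by have := H.hn; omega) W H.hw2 H.hb2 H.hE hz hf (i := i) (k := k) (by omega)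
    (by omega) h
  rw [hi, hk] at h1
  exact ⟨type_out W H.hs hf h h0, h1⟩

theorem Dat.const (H : Dat W σ s a b) {z z' : Fin (n + 1) → ℂ} {v : ℤ} (hz : z ≠ 0)
    (hz' : z' ≠ 0) (hf : Fixed w z v) (hf' : Fixed w z' v) (hav : a < v) (hvb : v < b)
    (h0 : evv s z = 0) : evv s z' = 0 := by
  by_contra hne
  obtain ⟨A, B, h⟩ := Ty.exists W hz v
  obtain ⟨A', B', h'⟩ := Ty.exists W hz' v
  have h1 := H.mid_in hz hf hav hvb h0 h
  have h2 := (H.mid_out hz' hf' hav hvb hne h').1
  rcases Ty.unique W hz hf hf' h h' with ⟨e1', e2'⟩ | ⟨e1', e2'⟩ <;> rcases h1 with h1 | h1 <;>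
    rcases h2 with h2 | h2 <;> omega

/-- three coordinate points outside -/
theorem Dat.free (H : Dat W σ s a b) {x y k : Fin (n + 1)} (hxy : x ≠ y) (hxk : x ≠ k)
    (hyk : y ≠ k) (hx : a < (w x).1) (hx' : (w x).1 < b) (hy : a < (w y).1) (hy' : (w y).1 < b)
    (ox : evv s (ee x : Fin (n + 1) → ℂ) ≠ 0) (oy : evv s (ee y : Fin (n + 1) → ℂ) ≠ 0)
    (ok : evv s (ee k : Fin (n + 1) → ℂ) ≠ 0) : False := by
  let f : Fin (2 + 1) → Fin (n + 1) := ![x, y, k]
  have hfi : Function.Injective f := by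
    intro a b hab
    fin_cases a <;> fin_cases b <;> simp [f] at hab ⊢ <;> first | exact hxy hab | exact hxk hab | exact hyk hab | exact hxy hab.symm | exact hxk hab.symm | exact hyk hab.symm
  refine no_free_plane (by have := H.hn; omega) H.hE H.hs f hfi ?_
  intro z v hz hfz h0
  have hfz' := fixed_cInc f hfz
  have hzne : cInc f z ≠ 0 := T_ne (cInc_injective f hfi) hz
  have hfo : ∀ t, evv s (ee (f t) : Fin (n + 1) → ℂ) ≠ 0 := by
    intro t
    fin_cases t
    · exact ox
    · exact oy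
    · exact ok
  -- a middle weight
  by_cases hmid : a < v ∧ v < b
  · obtain ⟨t, ht⟩ : ∃ t, z t ≠ 0 := by
      by_contra hc
      push Not at hc
      exact hz (funext hc)
    have h1 : (w (f t)).1 = v := hfz t ht
    have h2 := ee_fixed w (f t)
    rw [h1] at h2
    exact hfo t (H.const hzne (ee_ne (f t)) hfz' h2 hmid.1 hmid.2 h0)
  · have h0' : z 0 = 0 := by
      by_contra hc
      have h1 : (w x).1 = v := hfz 0 hc
      exact hmid (by rw [← h1]; exact ⟨hx, hx'⟩)
    have h1' : z 1 = 0 := by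
      by_contra hc
      have h1 : (w y).1 = v := hfz 1 hc
      exact hmid (by rw [← h1]; exact ⟨hy, hy'⟩)
    have h2' : z 2 ≠ 0 := by
      intro hc
      apply hz
      funext t
      fin_cases t
      · exact h0'
      · exact h1'
      · exact hc
    have h3 : cInc f z = z 2 • (ee k : Fin (n + 1) → ℂ) := by
      have e : z = z 2 • (Pi.single 2 1 : Fin (2 + 1) → ℂ) := by
        funext t
        fin_cases t
        · simp [h0']
        · simp [h1']
        · simp
      conv_lhs => rw [e]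
      rw [map_smul, cInc_single]
      rfl
    apply ok
    funext i
    by_contra hne
    have h4 := (eval_scale_ne (H.hs.hom i) h2').2 hne
    apply h4
    rw [← h3]
    exact congrFun h0 i

/-- two middle zeros of different weights -/
theorem Dat.mid_pair (H : Dat W σ s a b) {x y t : Fin (n + 1)} (htx : t ≠ x) (hty : t ≠ y)
    (hxy : (w x).1 < (w y).1) (hx : a < (w x).1) (hy' : (w y).1 < b) (ht : a < (w t).1)
    (ht' : (w t).1 < b) (ix : evv s (ee x : Fin (n + 1) → ℂ) = 0)
    (iy : evv s (ee y : Fin (n + 1) → ℂ) = 0) : False := by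
  have hn2 : 2 ≤ n := by
    have := H.hn
    omega
  -- the types
  have htyp : ∀ z : Fin (n + 1), a < (w z).1 → (w z).1 < b →
      evv s (ee z : Fin (n + 1) → ℂ) = 0 → ∃ A B, Ty W (ee z : Fin (n + 1) → ℂ) (w z).1 A B ∧
      chi (w z).1 σ - A = a - (w z).1 ∧ chi (w z).1 σ - B = b - (w z).1 := by
    intro z hz hz' iz
    obtain ⟨A, B, h⟩ := Ty.exists W (ee_ne z) (w z).1
    rcases H.mid_in (ee_ne z) (ee_fixed w z) hz hz' iz h with h1 | h1
    · exact ⟨A, B, h, h1⟩
    · exact ⟨B, A, h.swap, h1.symm⟩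
  obtain ⟨A, B, hT, hA, hB⟩ := htyp x hx (by omega) ix
  obtain ⟨A', B', hT', hA', hB'⟩ := htyp y (by omega) hy' iy
  have s1 := Dat.sum (σ := σ) (ee_fixed w x) hT
  have s2 := Dat.sum (σ := σ) (ee_fixed w y) hT'
  have hc : (σ + σ + W.κ).1 = 2 := by
    have h1 : ((w y).1 - (w x).1) * ((σ + σ + W.κ).1 - 2) = 0 := by
      linear_combination s2 - s1 - hA' - hB' + hA + hB
    rcases mul_eq_zero.1 h1 with h2 | h2 <;> omega
  by_cases hlt : (w x).1 < (w t).1
  · exact orbit hn2 H.hE W H.hs (a := a) (b := b) (j := x) (j' := y) (j'' := t)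
      (Ne.symm hty) hxy hlt hy' ht' hx ix (H.hsm _ _ (ee_ne x) (ee_fixed w x) ix) hT hA hB hc
  · refine orbit hn2 H.hE (revW W) (hsec_rev H.hs) (a := -b) (b := -a) (j := y) (j' := x)
      (j'' := t) (A := -B') (B := -A') (Ne.symm htx) ?_ ?_ ?_ ?_ ?_ iy
      (H.hsm _ _ (ee_ne y) (ee_fixed w y) iy) ?_ ?_ ?_ ?_
    · show (-w y).1 < (-w x).1
      rw [Prod.fst_neg, Prod.fst_neg]
      omega
    · show (-w y).1 < (-w t).1
      rw [Prod.fst_neg, Prod.fst_neg]
      omega
    · show (-w x).1 < -a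
      rw [Prod.fst_neg]
      omega
    · show (-w t).1 < -a
      rw [Prod.fst_neg]
      omega
    · show -b < (-w y).1
      rw [Prod.fst_neg]
      omega
    · exact (Ty.rev hT').swap
    · show chi (-(w y).1) (nu σ) - -B' = -b - -(w y).1
      rw [chi_nu]
      omega
    · show chi (-(w y).1) (nu σ) - -A' = -a - -(w y).1
      rw [chi_nu]
      omega
    · exact hc

/-- at most two coordinates of equal weight -/
theorem Dat.mult (H : Dat W σ s a b) {x y z : Fin (n + 1)} (hxy : x ≠ y) (hxz : x ≠ z)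
    (hyz : y ≠ z) (h1 : (w y).1 = (w x).1) (h2 : (w z).1 = (w x).1) : False := by
  obtain ⟨i, hi⟩ := H.ha'
  obtain ⟨k, hk⟩ := H.hb'
  have hab := H.hab
  have e1 : w y = w x := Prod.ext h1 (by rw [H.hw2, H.hw2])
  have e2 : w z = w x := Prod.ext h2 (by rw [H.hw2, H.hw2])
  by_cases h : (w i).1 = (w x).1
  · exact H.hE (three_equal H.hn D hxy hxz hyz e1 e2 (j := k) (by omega))
  · exact H.hE (three_equal H.hn D hxy hxz hyz e1 e2 (j := i) h)

/-- at most two middle zeros -/
theorem Dat.mid_three (H : Dat W σ s a b) {x y z : Fin (n + 1)} (hxy : x ≠ y) (hxz : x ≠ z)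
    (hyz : y ≠ z) (hx : a < (w x).1) (hx' : (w x).1 < b) (hy : a < (w y).1) (hy' : (w y).1 < b)
    (hz : a < (w z).1) (hz' : (w z).1 < b) (ix : evv s (ee x : Fin (n + 1) → ℂ) = 0)
    (iy : evv s (ee y : Fin (n + 1) → ℂ) = 0) (iz : evv s (ee z : Fin (n + 1) → ℂ) = 0) :
    False := by
  rcases lt_trichotomy (w x).1 (w y).1 with h1 | h1 | h1
  · exact H.mid_pair hxz.symm hyz.symm h1 hx hy' hz hz' ix iy
  · rcases lt_trichotomy (w x).1 (w z).1 with h2 | h2 | h2
    · exact H.mid_pair hxy.symm hyz h2 hx hz' hy hy' ix iz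
    · exact H.mult hxy hxz hyz h1.symm h2.symm
    · exact H.mid_pair hyz hxy.symm h2 hz hx' hy hy' iz ix
  · exact H.mid_pair hyz.symm hxz.symm h1 hy hx' hz hz' iy ix

/-- the degree, from a middle zero and a middle point outside -/
theorem Dat.degree (H : Dat W σ s a b) {p x : Fin (n + 1)} (hp : a < (w p).1) (hp' : (w p).1 < b)
    (hx : a < (w x).1) (hx' : (w x).1 < b) (ip : evv s (ee p : Fin (n + 1) → ℂ) = 0)
    (ox : evv s (ee x : Fin (n + 1) → ℂ) ≠ 0) :
    4 ≤ (σ + σ + W.κ).1 ∨ (σ + σ + W.κ).1 < 0 := by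
  have hpx : p ≠ x := by
    rintro rfl
    exact ox ip
  obtain ⟨A, B, hT⟩ := Ty.exists W (ee_ne p) (w p).1
  obtain ⟨A', B', hT'⟩ := Ty.exists W (ee_ne x) (w x).1
  obtain ⟨α, hα⟩ := line_deg W H.hs hpx hT ox
  have s1 := Dat.sum (σ := σ) (ee_fixed w p) hT
  have s2 := Dat.sum (σ := σ) (ee_fixed w x) hT'
  have m1 := H.mid_in (ee_ne p) (ee_fixed w p) hp hp' ip hT
  obtain ⟨m2, m3⟩ := H.mid_out (ee_ne x) (ee_fixed w x) hx hx' ox hT'
  set X := σ + σ + W.κ with hX
  set c := X.1 with hc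
  set P := (w p).1 with hP
  set Q := (w x).1 with hQ
  -- L at the two points
  have L1 : X.2.1 - P * c = a + b - 2 * P := by
    rw [← s1]
    rcases m1 with h | h <;> linarith [h.1, h.2]
  have L2 : b - a ≤ |X.2.1 - Q * c| := by
    rw [← s2]
    rcases m2 with h | h
    · rw [h, sub_self, zero_add]
      exact m3
    · rw [h, sub_self, add_zero, abs_sub_comm]
      exact m3
  have hd : (α : ℤ) * (Q - P) = a - P ∨ (α : ℤ) * (Q - P) = b - P := by
    rcases m1 with h | h <;> rcases hα with h' | h' <;> rw [h']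
    · exact Or.inl h.1
    · exact Or.inr h.2
    · exact Or.inr h.1
    · exact Or.inl h.2
  have hα2 : 2 ≤ α := by
    by_contra hc
    have h1 : α = 0 ∨ α = 1 := by omega
    rcases h1 with h1 | h1 <;> rw [h1] at hd
    · simp only [Nat.cast_zero, zero_mul] at hd
      omega
    · simp only [Nat.cast_one, one_mul] at hd
      omega
  have hα2' : (2 : ℤ) ≤ (α : ℤ) := by exact_mod_cast hα2
  have L3 : X.2.1 - Q * c = a + b - 2 * P - (Q - P) * c := by linear_combination L1
  rw [L3] at L2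
  rcases hd with hd | hd
  · -- Q < P
    have hQP : Q - P < 0 := by
      by_contra hcon
      push Not at hcon
      have : 0 ≤ (α : ℤ) * (Q - P) := mul_nonneg (by omega) hcon
      omega
    rcases abs_cases (a + b - 2 * P - (Q - P) * c) with ⟨h2, -⟩ | ⟨h2, -⟩ <;> rw [h2] at L2
    · left
      -- (Q-P) c ≤ 2 (a - P) = 2 α (Q - P)
      have h3 : (Q - P) * c ≤ (Q - P) * (2 * α) := by linarith
      have h4 : 2 * (α : ℤ) ≤ c := by
        by_contra hcon
        push Not at hcon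
        have := mul_lt_mul_of_neg_left hcon hQP
        linarith
      linarith
    · right
      -- (Q-P) c ≥ 2 (b - P) > 0
      have h3 : 0 < (Q - P) * c := by linarith
      by_contra hcon
      push Not at hcon
      have := mul_nonpos_of_nonpos_of_nonneg hQP.le hcon
      linarith
  · have hQP : 0 < Q - P := by
      by_contra hcon
      push Not at hcon
      have : (α : ℤ) * (Q - P) ≤ 0 := mul_nonpos_of_nonneg_of_nonpos (by omega) hcon
      omega
    rcases abs_cases (a + b - 2 * P - (Q - P) * c) with ⟨h2, -⟩ | ⟨h2, -⟩ <;> rw [h2] at L2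
    · right
      have h3 : (Q - P) * c < 0 := by linarith
      by_contra hcon
      push Not at hcon
      have := mul_nonneg hQP.le hcon
      linarith
    · left
      have h3 : (Q - P) * (2 * α) ≤ (Q - P) * c := by linarith
      have h4 : 2 * (α : ℤ) ≤ c := le_of_mul_le_mul_left h3 hQP
      linarith

end Pool.Agent.W615
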