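import Mathlib

/-!
# Ideals generated by two functions with independent differentials are radical (helper615)

Let `T` be a derivation with `T P = Δ P`, `T Q = Δ Q`, and with values in `J = (P, Q)`.
-/

set_option autoImplicit false
set_option maxHeartbeats 400000

open MvPolynomial

namespace Pool.Agent.W615.Rad

section ring

variable {R : Type*} [CommRing R] [Algebra ℚ R] {J : Ideal R} (T : Derivation ℚ R R) (Δ : R)

/-- the twisted operator -/
def Te (e : ℕ) (u : R) : R := Δ * T u - (e : R) * T Δ * u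

variable (hT : ∀ u, T u ∈ J) (hk : ∀ (k : ℕ) (r : R), r ∈ J ^ k → T r - (k : R) * Δ * r ∈ J ^ (k + 1))

include hT hk in
theorem it {e k : ℕ} {u : R} (hu : Te T Δ e u ∈ J ^ k) :
    Te T Δ (e + 2) ((k : R) * Δ ^ 2 * u - Te T Δ e u) ∈ J ^ (k + 1) := by
  set r := Te T Δ e u with hr
  have h1 : T ((k : R) * Δ ^ 2 * u - r) =
      2 * (k : R) * Δ * T Δ * u + (k : R) * Δ ^ 2 * T u - T r := by
    rw [map_sub, Derivation.leibniz, Derivation.leibniz, Derivation.leibniz_pow]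
    simp only [smul_eq_mul, Derivation.map_natCast, mul_zero, add_zero, nsmul_eq_mul]
    push_cast
    ring
  have h2 : Te T Δ (e + 2) ((k : R) * Δ ^ 2 * u - r) =
      -(Δ * (T r - (k : R) * Δ * r)) + ((e : R) + 2) * T Δ * r := by
    have h3 : r = Δ * T u - (e : R) * T Δ * u := rfl
    unfold Te
    rw [h1]
    push_cast
    linear_combination (-(k : R) * Δ ^ 2) * h3
  rw [h2]
  refine Ideal.add_mem _ (neg_mem (Ideal.mul_mem_left _ _ (hk k r hu))) ?_
  have h3 : ((e : R) + 2) * T Δ * r = ((e : R) + 2) * (T Δ * r) := by ring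
  rw [h3, pow_succ']
  exact Ideal.mul_mem_left _ _ (Ideal.mul_mem_mul (hT Δ) hu)

include hT hk in
theorem seq (u : R) : ∀ N : ℕ, ∃ (e m c : ℕ) (y : R), 1 ≤ c ∧ y - (c : R) * Δ ^ m * u ∈ J ∧
    Te T Δ e y ∈ J ^ (N + 1) := by
  intro N
  induction N with
  | zero =>
    refine ⟨0, 0, 1, u, le_rfl, ?_, ?_⟩
    · simp
    · unfold Te
      simp only [Nat.cast_zero, zero_mul, sub_zero, zero_add, pow_one]
      exact Ideal.mul_mem_left _ _ (hT u)
  | succ N ih =>
    obtain ⟨e, m, c, y, hc, hy, hTy⟩ := ih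
    refine ⟨e + 2, m + 2, (N + 1) * c, ((N + 1 : ℕ) : R) * Δ ^ 2 * y - Te T Δ e y,
      Nat.mul_pos (Nat.succ_pos _) hc, ?_, it T Δ hT hk hTy⟩
    have h1 : ((N + 1 : ℕ) : R) * Δ ^ 2 * y - Te T Δ e y - (((N + 1) * c : ℕ) : R) * Δ ^ (m + 2) * u =
        ((N + 1 : ℕ) : R) * Δ ^ 2 * (y - (c : R) * Δ ^ m * u) - Te T Δ e y := by
      push_cast
      ring
    rw [h1]
    refine Ideal.sub_mem _ (Ideal.mul_mem_left _ _ hy) ?_
    exact Ideal.pow_le_self (Nat.succ_ne_zero N) hTy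

theorem nat_cancel {K : Ideal R} {k : ℕ} (hk0 : 1 ≤ k) {x : R} (h : (k : R) * x ∈ K) : x ∈ K := by
  have h1 : x = algebraMap ℚ R ((k : ℚ)⁻¹) * ((k : R) * x) := by
    have h2 : algebraMap ℚ R ((k : ℚ)⁻¹) * (k : R) = 1 := by
      rw [← map_natCast (algebraMap ℚ R), ← map_mul, inv_mul_cancel₀, map_one]
      exact_mod_cast (by omega : k ≠ 0)
    rw [← mul_assoc, h2, one_mul]
  rw [h1]
  exact Ideal.mul_mem_left _ _ h

include hT hk in
theorem sq {u : R} (hu : u ^ 2 ∈ J) (N : ℕ) : ∃ (m c : ℕ) (y : R), 1 ≤ c ∧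
    y - (c : R) * Δ ^ m * u ∈ J ∧ y ^ 2 ∈ J ^ (N + 1) := by
  obtain ⟨e, m, c, y, hc, hy, hTy⟩ := seq T Δ hT hk u N
  have hv : y ^ 2 ∈ J := by
    have h1 : y ^ 2 = (y - (c : R) * Δ ^ m * u) * (y + (c : R) * Δ ^ m * u) +
        ((c : R) * Δ ^ m) ^ 2 * u ^ 2 := by ring
    rw [h1]
    exact Ideal.add_mem _ (Ideal.mul_mem_right _ _ hy) (Ideal.mul_mem_left _ _ hu)
  have hTv : Te T Δ (2 * e) (y ^ 2) ∈ J ^ (N + 1) := by
    have h1 : Te T Δ (2 * e) (y ^ 2) = 2 * y * Te T Δ e y := by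
      unfold Te
      rw [Derivation.leibniz_pow]
      simp only [smul_eq_mul, nsmul_eq_mul]
      push_cast
      ring
    rw [h1]
    exact Ideal.mul_mem_left _ _ hTy
  have key : ∀ k : ℕ, k ≤ N → ∃ a : ℕ, Δ ^ a * y ^ 2 ∈ J ^ (k + 1) := by
    intro k
    induction k with
    | zero =>
      intro _
      refine ⟨0, ?_⟩
      rw [pow_zero, one_mul, zero_add, pow_one]
      exact hv
    | succ k ih =>
      intro hkN
      obtain ⟨a, ha⟩ := ih (by omega)
      refine ⟨a + 2, ?_⟩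
      have h1 : Te T Δ (2 * e + a) (Δ ^ a * y ^ 2) = Δ ^ a * Te T Δ (2 * e) (y ^ 2) := by
        unfold Te
        rw [Derivation.leibniz T (Δ ^ a) (y ^ 2), Derivation.leibniz_pow T (Δ) a]
        simp only [smul_eq_mul, nsmul_eq_mul]
        rcases Nat.eq_zero_or_pos a with ha0 | ha0
        · subst ha0
          simp
        · obtain ⟨b, rfl⟩ : ∃ b, a = b + 1 := ⟨a - 1, by omega⟩
          rw [Nat.add_sub_cancel]
          push_cast
          ring
      have h2 : Te T Δ (2 * e + a) (Δ ^ a * y ^ 2) ∈ J ^ (k + 1 + 1) := by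
        rw [h1]
        exact Ideal.mul_mem_left _ _ (Ideal.pow_le_pow_right (by omega) hTv)
      have h3 := hk (k + 1) _ ha
      have h4 : T Δ * (Δ ^ a * y ^ 2) ∈ J ^ (k + 1 + 1) := by
        rw [pow_succ' J (k + 1)]
        exact Ideal.mul_mem_mul (hT Δ) ha
      refine nat_cancel (k := k + 1) (by omega) ?_
      have h5 : ((k + 1 : ℕ) : R) * (Δ ^ (a + 2) * y ^ 2) =
          Te T Δ (2 * e + a) (Δ ^ a * y ^ 2) -
          Δ * (T (Δ ^ a * y ^ 2) - ((k + 1 : ℕ) : R) * Δ * (Δ ^ a * y ^ 2)) +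
          ((2 * e + a : ℕ) : R) * (T Δ * (Δ ^ a * y ^ 2)) := by
        unfold Te
        ring
      rw [h5]
      exact Ideal.add_mem _ (Ideal.sub_mem _ h2 (Ideal.mul_mem_left _ _ h3))
        (Ideal.mul_mem_left _ _ h4)
  obtain ⟨a, ha⟩ := key N le_rfl
  refine ⟨a + m, c, Δ ^ a * y, hc, ?_, ?_⟩
  · have h1 : Δ ^ a * y - (c : R) * Δ ^ (a + m) * u = Δ ^ a * (y - (c : R) * Δ ^ m * u) := by
      ring
    rw [h1]
    exact Ideal.mul_mem_left _ _ hy
  · have h1 : (Δ ^ a * y) ^ 2 = Δ ^ a * (Δ ^ a * y ^ 2) := by ring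
    rw [h1]
    exact Ideal.mul_mem_left _ _ ha

theorem hk_of {P Q : R} (hJ : J = Ideal.span {P, Q}) (hT : ∀ u, T u ∈ J) (hP : T P = Δ * P)
    (hQ : T Q = Δ * Q) (k : ℕ) (r : R) (hr : r ∈ J ^ k) :
    T r - (k : R) * Δ * r ∈ J ^ (k + 1) := by
  have h1 : ∀ a ∈ J, T a - Δ * a ∈ J ^ 2 := by
    intro a ha
    rw [hJ, Ideal.mem_span_pair] at ha
    obtain ⟨α, β, rfl⟩ := ha
    have hPJ : P ∈ J := by rw [hJ]; exact Ideal.subset_span (by simp)
    have hQJ : Q ∈ J := by rw [hJ]; exact Ideal.subset_span (by simp)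
    have h2 : T (α * P + β * Q) - Δ * (α * P + β * Q) = T α * P + T β * Q := by
      rw [map_add, Derivation.leibniz, Derivation.leibniz, hP, hQ]
      simp only [smul_eq_mul]
      ring
    rw [h2, pow_two]
    exact Ideal.add_mem _ (Ideal.mul_mem_mul (hT α) hPJ) (Ideal.mul_mem_mul (hT β) hQJ)
  induction k generalizing r with
  | zero =>
    simp only [Nat.cast_zero, zero_mul, sub_zero, zero_add, pow_one]
    exact hT r
  | succ k ih =>
    rw [pow_succ'] at hr
    refine Submodule.mul_induction_on hr (fun a ha b hb => ?_) (fun x y hx hy => ?_)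
    · have h2 : T (a * b) - ((k + 1 : ℕ) : R) * Δ * (a * b) =
          a * (T b - (k : R) * Δ * b) + (T a - Δ * a) * b := by
        rw [Derivation.leibniz]
        simp only [smul_eq_mul]
        push_cast
        ring
      rw [h2]
      refine Ideal.add_mem _ ?_ ?_
      · rw [pow_succ' J (k + 1)]
        exact Ideal.mul_mem_mul ha (ih b hb)
      · have h3 : J ^ (k + 1 + 1) = J ^ 2 * J ^ k := by
          rw [← pow_add]
          congr 1
          omega
        rw [h3]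
        exact Ideal.mul_mem_mul (h1 a ha) hb
    · have h2 : T (x + y) - ((k + 1 : ℕ) : R) * Δ * (x + y) =
          (T x - ((k + 1 : ℕ) : R) * Δ * x) + (T y - ((k + 1 : ℕ) : R) * Δ * y) := by
        rw [map_add]
        ring
      rw [h2]
      exact Ideal.add_mem _ hx hy

end ring

end Pool.Agent.W615.Rad
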