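import Pool.Agent.W615.Z1

/-!
# Ideals generated by two functions with independent differentials are radical (helper615)
-/

set_option autoImplicit false
set_option maxHeartbeats 400000

open MvPolynomial

namespace Pool.Agent.W615.Rad

variable {N : ℕ}

theorem order_sq {y : MvPolynomial (Fin N) ℂ} {K : ℕ}
    (h : y ^ 2 ∈ idealOfVars (Fin N) ℂ ^ (2 * K)) : y ∈ idealOfVars (Fin N) ℂ ^ K := by
  rw [mem_pow_idealOfVars_iff'] at h ⊢
  have h1 : ((2 * K : ℕ) : ℕ∞) ≤ ((y : MvPowerSeries (Fin N) ℂ) * (y : MvPowerSeries (Fin N) ℂ)).order := by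
    refine MvPowerSeries.nat_le_order fun d hd => ?_
    rw [← MvPolynomial.coe_mul, MvPolynomial.coeff_coe, ← pow_two]
    exact h d hd
  rw [MvPowerSeries.order_mul] at h1
  have h2 : (K : ℕ∞) ≤ (y : MvPowerSeries (Fin N) ℂ).order := by
    generalize (y : MvPowerSeries (Fin N) ℂ).order = o at h1
    induction o using ENat.recTopCoe with
    | top => exact le_top
    | coe o =>
      rw [← Nat.cast_add, Nat.cast_le] at h1
      rw [Nat.cast_le]
      omega
  intro x hx
  have h3 := MvPowerSeries.coeff_of_lt_order (f := (y : MvPowerSeries (Fin N) ℂ)) (d := x)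
    (lt_of_lt_of_le (by exact_mod_cast hx) h2)
  rwa [MvPolynomial.coeff_coe] at h3

theorem mem_vars {p : MvPolynomial (Fin N) ℂ} (h : eval 0 p = 0) : p ∈ idealOfVars (Fin N) ℂ := by
  rw [← pow_one (idealOfVars (Fin N) ℂ), mem_pow_idealOfVars_iff']
  intro x hx
  have hx0 : x = 0 := by
    have : Finsupp.degree x = 0 := by omega
    exact (Finsupp.degree_eq_zero_iff x).1 this
  rw [hx0, ← constantCoeff_eq, ← MvPolynomial.eval_zero]
  exact h

theorem eval_vars {p : MvPolynomial (Fin N) ℂ} (h : p ∈ idealOfVars (Fin N) ℂ) : eval 0 p = 0 := by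
  rw [← pow_one (idealOfVars (Fin N) ℂ), mem_pow_idealOfVars_iff'] at h
  rw [MvPolynomial.eval_zero, constantCoeff_eq]
  exact h 0 (by simp)

theorem rad0 {P Q Δ u : MvPolynomial (Fin N) ℂ}
    (T : Derivation ℂ (MvPolynomial (Fin N) ℂ) (MvPolynomial (Fin N) ℂ))
    (hT : ∀ u, T u ∈ Ideal.span {P, Q}) (hTP : T P = Δ * P) (hTQ : T Q = Δ * Q)
    (hP : eval 0 P = 0) (hQ : eval 0 Q = 0) (hΔ : eval 0 Δ ≠ 0) (hu : u ^ 2 ∈ Ideal.span {P, Q}) :
    ∃ v, eval 0 v ≠ 0 ∧ v * u ∈ Ideal.span {P, Q} := by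
  set J : Ideal (MvPolynomial (Fin N) ℂ) := Ideal.span {P, Q} with hJ
  set m := idealOfVars (Fin N) ℂ with hm
  have hJm : J ≤ m := by
    rw [hJ, Ideal.span_le]
    intro p hp
    rcases hp with rfl | hp
    · exact mem_vars hP
    · rw [Set.mem_singleton_iff] at hp
      rw [hp]
      exact mem_vars hQ
  have key : ∀ K : ℕ, u ∈ J ⊔ m ^ K := by
    intro K
    have hk := hk_of (J := J) (T.restrictScalars ℚ) Δ hJ hT hTP hTQ
    obtain ⟨M, c, y, hc, hy, hy2⟩ := sq (T.restrictScalars ℚ) Δ hT hk hu (2 * K)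
    have h1 : y ∈ m ^ K := by
      apply order_sq
      exact Ideal.pow_le_pow_right (by omega) (Ideal.pow_right_mono hJm _ hy2)
    set δ := (c : MvPolynomial (Fin N) ℂ) * Δ ^ M with hδ
    have hδ0 : eval 0 δ ≠ 0 := by
      rw [hδ, map_mul, map_pow, map_natCast]
      exact mul_ne_zero (by exact_mod_cast (by omega : c ≠ 0)) (pow_ne_zero _ hΔ)
    have h2 : δ * u ∈ J ⊔ m ^ K := by
      have h3 : δ * u = -(y - δ * u) + y := by ring
      rw [h3]
      exact Submodule.add_mem_sup (neg_mem hy) h1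
    set a := C (eval 0 δ)⁻¹ * δ with ha
    have ha0 : 1 - a ∈ m := by
      apply mem_vars
      rw [ha, map_sub, map_mul, eval_C, inv_mul_cancel₀ hδ0, map_one, sub_self]
    obtain ⟨q, hq⟩ : a ∣ 1 - (1 - a) ^ K := by
      have := sub_dvd_pow_sub_pow (1 : MvPolynomial (Fin N) ℂ) (1 - a) K
      rw [one_pow, sub_sub_cancel] at this
      exact this
    have h3 : u = C (eval 0 δ)⁻¹ * q * (δ * u) + (1 - a) ^ K * u := by
      have h4 : u = (1 - (1 - a) ^ K) * u + (1 - a) ^ K * u := by ring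
      rw [hq] at h4
      rw [ha] at h4 ⊢
      linear_combination h4
    rw [h3]
    exact Ideal.add_mem _ (Ideal.mul_mem_left _ _ h2)
      (Ideal.mul_mem_right _ _ ((le_sup_right : m ^ K ≤ J ⊔ m ^ K) (Ideal.pow_mem_pow ha0 K)))
  -- Krull
  have hx : (Submodule.Quotient.mk u : MvPolynomial (Fin N) ℂ ⧸ J) ∈
      (⨅ i : ℕ, m ^ i • ⊤ : Submodule (MvPolynomial (Fin N) ℂ) (MvPolynomial (Fin N) ℂ ⧸ J)) := by
    rw [Submodule.mem_iInf]
    intro i
    obtain ⟨j, hj, z, hz, hjz⟩ := Submodule.mem_sup.1 (key i)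
    have h1 : (Submodule.Quotient.mk u : MvPolynomial (Fin N) ℂ ⧸ J) =
        z • (Submodule.Quotient.mk 1 : MvPolynomial (Fin N) ℂ ⧸ J) := by
      rw [← Submodule.Quotient.mk_smul, smul_eq_mul, mul_one, Submodule.Quotient.eq]
      have : u - z = j := by rw [← hjz]; ring
      rw [this]
      exact hj
    rw [h1]
    exact Submodule.smul_mem_smul hz Submodule.mem_top
  rw [Ideal.mem_iInf_smul_pow_eq_bot_iff] at hx
  obtain ⟨⟨r, hr⟩, h1⟩ := hx
  refine ⟨1 - r, ?_, ?_⟩
  · rw [map_sub, eval_vars hr, map_one, sub_zero]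
    exact one_ne_zero
  · rw [← Submodule.Quotient.mk_smul, Submodule.Quotient.eq] at h1
    have h2 : (1 - r) * u = -(r • u - u) := by
      rw [smul_eq_mul]
      ring
    rw [h2]
    exact neg_mem h1

/-! ### translation to an arbitrary point -/

/-- translation -/
noncomputable def tr (x : Fin N → ℂ) : MvPolynomial (Fin N) ℂ →ₐ[ℂ] MvPolynomial (Fin N) ℂ :=
  aeval fun i => X i + C (x i)

theorem eval_tr (x y : Fin N → ℂ) (p : MvPolynomial (Fin N) ℂ) :
    eval y (tr x p) = eval (y + x) p := by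
  induction p using MvPolynomial.induction_on with
  | C a => simp [tr]
  | add p q hp hq => rw [map_add, map_add, map_add, hp, hq]
  | mul_X p i hp =>
    rw [map_mul, map_mul, map_mul, hp]
    simp [tr]

theorem tr_tr (x : Fin N → ℂ) (p : MvPolynomial (Fin N) ℂ) : tr (-x) (tr x p) = p := by
  apply MvPolynomial.funext
  intro y
  rw [eval_tr, eval_tr, neg_add_cancel_right]

theorem pderiv_tr (x : Fin N → ℂ) (l : Fin N) (p : MvPolynomial (Fin N) ℂ) :
    pderiv l (tr x p) = tr x (pderiv l p) := by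
  induction p using MvPolynomial.induction_on with
  | C a => simp [tr]
  | add p q hp hq => rw [map_add, map_add, map_add, map_add, hp, hq]
  | mul_X p i hp =>
    have h1 : tr x (X i) = X i + C (x i) := by simp [tr]
    have h2 : pderiv l (tr x (X i)) = tr x (pderiv l (X i)) := by
      rw [h1, map_add, pderiv_C, add_zero, pderiv_X]
      by_cases h : l = i
      · subst h
        simp
      · rw [Pi.single_eq_of_ne (Ne.symm h), map_zero]
    rw [map_mul, Derivation.leibniz, Derivation.leibniz, hp, h2, map_add, smul_eq_mul, smul_eq_mul,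
      smul_eq_mul, smul_eq_mul, map_mul, map_mul]

theorem rad1 {P Q u : MvPolynomial (Fin N) ℂ} {x : Fin N → ℂ} {l l' : Fin N}
    (hP : eval x P = 0) (hQ : eval x Q = 0)
    (hΔ : eval x (pderiv l P * pderiv l' Q - pderiv l Q * pderiv l' P) ≠ 0)
    (hu : u ^ 2 ∈ Ideal.span {P, Q}) :
    ∃ v, eval x v ≠ 0 ∧ v * u ∈ Ideal.span {P, Q} := by
  set P' := tr x P with hP'
  set Q' := tr x Q with hQ'
  set Δ := pderiv l P' * pderiv l' Q' - pderiv l Q' * pderiv l' P' with hΔ'
  have hz : ∀ p, eval 0 (tr x p) = eval x p := by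
    intro p
    rw [eval_tr, zero_add]
  let D₁ : Derivation ℂ (MvPolynomial (Fin N) ℂ) (MvPolynomial (Fin N) ℂ) :=
    pderiv l' Q' • pderiv l - pderiv l Q' • pderiv l'
  let D₂ : Derivation ℂ (MvPolynomial (Fin N) ℂ) (MvPolynomial (Fin N) ℂ) :=
    pderiv l P' • pderiv l' - pderiv l' P' • pderiv l
  have e₁ : ∀ p, D₁ p = pderiv l' Q' * pderiv l p - pderiv l Q' * pderiv l' p := fun p => rfl
  have e₂ : ∀ p, D₂ p = pderiv l P' * pderiv l' p - pderiv l' P' * pderiv l p := fun p => rfl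
  let T : Derivation ℂ (MvPolynomial (Fin N) ℂ) (MvPolynomial (Fin N) ℂ) := P' • D₁ + Q' • D₂
  have eT : ∀ p, T p = P' * D₁ p + Q' * D₂ p := fun p => rfl
  have hmemJ : ∀ p, p ∈ Ideal.span {P, Q} → tr x p ∈ Ideal.span {P', Q'} := by
    intro p hp
    rw [Ideal.mem_span_pair] at hp ⊢
    obtain ⟨a, b, rfl⟩ := hp
    exact ⟨tr x a, tr x b, by rw [map_add, map_mul, map_mul]⟩
  obtain ⟨v, hv, hvu⟩ := rad0 (P := P') (Q := Q') (Δ := Δ) (u := tr x u) T (by
      intro u
      rw [eT]
      refine Ideal.add_mem _ (Ideal.mul_mem_right _ _ (Ideal.subset_span (by simp)))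
        (Ideal.mul_mem_right _ _ (Ideal.subset_span (by simp))))
    (by rw [eT, e₁, e₂, hΔ']; ring) (by rw [eT, e₁, e₂, hΔ']; ring)
    (by rw [hP', hz, hP]) (by rw [hQ', hz, hQ])
    (by
      rw [hΔ', hP', hQ', pderiv_tr, pderiv_tr, pderiv_tr, pderiv_tr, ← map_mul, ← map_mul,
        ← map_sub, hz]
      exact hΔ)
    (by
      rw [← map_pow]
      exact hmemJ _ hu)
  refine ⟨tr (-x) v, ?_, ?_⟩
  · rw [eval_tr, add_neg_cancel]
    exact hv
  · rw [Ideal.mem_span_pair] at hvu ⊢
    obtain ⟨a, b, hab⟩ := hvu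
    refine ⟨tr (-x) a, tr (-x) b, ?_⟩
    have h1 := congrArg (tr (-x)) hab
    rw [map_add, map_mul, map_mul, map_mul, hP', hQ', tr_tr, tr_tr, tr_tr] at h1
    exact h1

/-- **Local radicality.** -/
theorem rad {P Q : MvPolynomial (Fin N) ℂ} {x : Fin N → ℂ} {l l' : Fin N}
    (hP : eval x P = 0) (hQ : eval x Q = 0)
    (hΔ : eval x (pderiv l P * pderiv l' Q - pderiv l Q * pderiv l' P) ≠ 0)
    {u : MvPolynomial (Fin N) ℂ} (hu : ∀ y, eval y P = 0 → eval y Q = 0 → eval y u = 0) :
    ∃ v, eval x v ≠ 0 ∧ v * u ∈ Ideal.span {P, Q} := by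
  have h1 : u ∈ (Ideal.span {P, Q}).radical := by
    rw [← vanishingIdeal_zeroLocus_eq_radical (K := ℂ), mem_vanishingIdeal_iff]
    intro y hy
    refine hu y ?_ ?_
    · have := (mem_zeroLocus_iff.1 hy) P (Ideal.subset_span (by simp))
      simpa [MvPolynomial.aeval_eq_eval] using this
    · have := (mem_zeroLocus_iff.1 hy) Q (Ideal.subset_span (by simp))
      simpa [MvPolynomial.aeval_eq_eval] using this
  obtain ⟨k, hk⟩ := h1
  -- descending induction on the exponent
  have key : ∀ k : ℕ, ∀ u, u ^ k ∈ Ideal.span {P, Q} → 1 ≤ k →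
      ∃ v, eval x v ≠ 0 ∧ v * u ∈ Ideal.span {P, Q} := by
    intro k
    induction k using Nat.strong_induction_on with
    | _ k ih =>
      intro u hu hk1
      rcases Nat.lt_or_ge k 2 with h2 | h2
      · obtain rfl : k = 1 := by omega
        rw [pow_one] at hu
        exact ⟨1, by rw [map_one]; exact one_ne_zero, by rw [one_mul]; exact hu⟩
      · -- w = u ^ (k-1) has square in the ideal
        obtain ⟨v, hv, hvu⟩ := rad1 (u := u ^ (k - 1)) hP hQ hΔ (by
          rw [← pow_mul]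
          exact Ideal.pow_mem_of_pow_mem _ hu (by omega))
        have h3 : (v * u) ^ (k - 1) ∈ Ideal.span {P, Q} := by
          rw [mul_pow]
          have h4 : v ^ (k - 1) * u ^ (k - 1) = v ^ (k - 2) * (v * u ^ (k - 1)) := by
            have h5 : v ^ (k - 1) = v ^ (k - 2) * v := by
              rw [← pow_succ]
              congr 1
              omega
            rw [h5, mul_assoc]
          rw [h4]
          exact Ideal.mul_mem_left _ _ hvu
        obtain ⟨v', hv', hvu'⟩ := ih (k - 1) (by omega) (v * u) h3 (by omega)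
        refine ⟨v' * v, ?_, ?_⟩
        · rw [map_mul]
          exact mul_ne_zero hv' hv
        · rw [mul_assoc]
          exact hvu'
  rcases Nat.eq_zero_or_pos k with h0 | h0
  · exfalso
    rw [h0, pow_zero] at hk
    rw [Ideal.mem_span_pair] at hk
    obtain ⟨a, b, hab⟩ := hk
    have h2 := congrArg (eval x) hab
    rw [map_add, map_mul, map_mul, hP, hQ, mul_zero, mul_zero, add_zero, map_one] at h2
    exact zero_ne_one h2
  · exact key k u hk h0

end Pool.Agent.W615.Rad
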