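import Pool.Agent.W615.Z2
import Pool.Agent.W615.Y12

/-!
# The ideal of the zero locus of a section (helper615)
-/

set_option autoImplicit false
set_option maxHeartbeats 400000

open MvPolynomial H960VB H938TB

namespace Pool.Agent.W615

variable {n : ℕ} {w : Fin (n + 1) → ℤ × ℤ} {E : Bundle2 n} {D : EqB E w} (W : Wedge D)

theorem prm_of_smooth (hn : 1 ≤ n) {a : ℕ} {s : Vec a n}
    (hsm : ∀ x : Fin (n + 1) → ℂ, x ≠ 0 → evv s x = 0 → SmoothAt s x) : Prm s := by
  intro p hp
  by_contra hu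
  -- a factor with a zero
  obtain ⟨π, v, hv, hπv, hπ⟩ : ∃ (π : MvPolynomial (Fin (n + 1)) ℂ) (v : Fin (n + 1) → ℂ),
      v ≠ 0 ∧ eval v π = 0 ∧ ∀ i, π ∣ s i := by
    by_cases h0 : p = 0
    · exact ⟨0, fun _ => 1, fun h => by simpa using congrFun h 0, by rw [map_zero],
        fun i => by rw [← h0]; exact hp i⟩
    · obtain ⟨π, hπ, hπp⟩ := WfDvdMonoid.exists_irreducible_factor hu h0
      obtain ⟨v, hv, hv0⟩ := no_isolated_prime (by omega) π
        (UniqueFactorizationMonoid.irreducible_iff_prime.1 hπ)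
      exact ⟨π, v, hv, hv0, fun i => hπp.trans (hp i)⟩
  choose q hq using hπ
  have hsv : evv s v = 0 := by
    funext i
    show eval v (s i) = 0
    rw [hq, map_mul, hπv, zero_mul]
  obtain ⟨l, l', i, i', hj⟩ := hsm v hv hsv
  apply hj
  unfold jm
  rw [hq i, hq i', Derivation.leibniz, Derivation.leibniz, Derivation.leibniz, Derivation.leibniz]
  simp only [smul_eq_mul, map_add, map_mul, hπv, zero_mul, zero_add]
  ring

/-- gluing -/
theorem glue (hn : 2 ≤ n) {s : Vec E.a n} (hs : Ker E s) (hp : Prm s)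
    {u : MvPolynomial (Fin (n + 1)) ℂ}
    (hloc : ∀ x : Fin (n + 1) → ℂ, x ≠ 0 → ∃ v, eval x v ≠ 0 ∧ ∃ H, Ker E H ∧ W.wd s H = v * u) :
    ∃ H, Ker E H ∧ W.wd s H = u := by
  classical
  let A : Ideal (MvPolynomial (Fin (n + 1)) ℂ) :=
    { carrier := {f | ∃ H : Vec E.a n, Ker E H ∧ W.wd s H = f * u}
      add_mem' := by
        rintro f g ⟨p, hp, hp'⟩ ⟨q, hq, hq'⟩
        exact ⟨fun i => p i + q i, ker_add hp hq, by
          rw [wd_add_right W hp hq hs, hp', hq']; ring⟩
      zero_mem' := ⟨fun _ => 0, ker_zero, by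
        rw [wd_zero_right W hs ker_zero (fun _ => rfl), zero_mul]⟩
      smul_mem' := by
        rintro g f ⟨p, hp, hp'⟩
        exact ⟨fun i => g * p i, ker_mul hp g, by
          rw [wd_mul_right W hp hs g, hp', smul_eq_mul]; ring⟩ }
  have hmem : ∀ f, f ∈ A ↔ ∃ H : Vec E.a n, Ker E H ∧ W.wd s H = f * u := fun f => Iff.rfl
  have hzero : ∀ x : Fin (n + 1) → ℂ, x ∈ zeroLocus ℂ A → x = 0 := by
    intro x hx
    by_contra hx0
    obtain ⟨v, hv, hH⟩ := hloc x hx0
    have := (mem_zeroLocus_iff.1 hx) _ ((hmem _).2 hH)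
    exact hv (by simpa [MvPolynomial.aeval_eq_eval] using this)
  have hrad : ∀ i : Fin (n + 1), ∃ N : ℕ, X i ^ N ∈ A := by
    intro i
    have h1 : (X i : MvPolynomial (Fin (n + 1)) ℂ) ∈ A.radical := by
      rw [← vanishingIdeal_zeroLocus_eq_radical (K := ℂ) A, mem_vanishingIdeal_iff]
      intro x hx
      rw [hzero x hx]
      simp
    exact h1
  choose Nf hNf using hrad
  obtain ⟨N, hN⟩ : ∃ N : ℕ, ∀ i : Fin (n + 1), X i ^ N ∈ A := by
    refine ⟨∑ i, Nf i, fun i => ?_⟩
    exact A.pow_mem_of_pow_mem (hNf i) (Finset.single_le_sum (f := Nf) (fun _ _ => Nat.zero_le _)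
      (Finset.mem_univ i))
  let i0 : Fin (n + 1) := ⟨0, by omega⟩
  let i1 : Fin (n + 1) := ⟨1, by omega⟩
  let i2 : Fin (n + 1) := ⟨2, by omega⟩
  have d02 : i0 ≠ i2 := by simp [i0, i2]
  have d12 : i1 ≠ i2 := by simp [i1, i2]
  have d01 : i0 ≠ i1 := by simp [i0, i1]
  obtain ⟨H0, hH0, w0⟩ := (hmem _).1 (hN i0)
  obtain ⟨H1, hH1, w1⟩ := (hmem _).1 (hN i1)
  obtain ⟨H2, hH2, w2⟩ := (hmem _).1 (hN i2)
  have key : ∀ (p q : MvPolynomial (Fin (n + 1)) ℂ) (H K : Vec E.a n), Ker E H → Ker E K →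
      p * W.wd s H = q * W.wd s K → ∃ f, ∀ i, p * H i - q * K i = f * s i := by
    intro p q H K hH hK h
    apply hp.dvd_wd W hs (ker_sub (ker_mul hH p) (ker_mul hK q))
    rw [wd_sub_right W (ker_mul hH p) (ker_mul hK q) hs, wd_mul_right W hH hs,
      wd_mul_right W hK hs, h, sub_self]
  obtain ⟨f01, h01⟩ := key (X i1 ^ N) (X i0 ^ N) H0 H1 hH0 hH1 (by rw [w0, w1]; ring)
  obtain ⟨f12, h12⟩ := key (X i2 ^ N) (X i1 ^ N) H1 H2 hH1 hH2 (by rw [w1, w2]; ring)
  obtain ⟨f20, h20⟩ := key (X i0 ^ N) (X i2 ^ N) H2 H0 hH2 hH0 (by rw [w0, w2]; ring)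
  obtain ⟨k0, hk0⟩ := hp.ne
  have hrel : X i2 ^ N * f01 = X i1 ^ N * (-f20) - X i0 ^ N * f12 := by
    apply mul_right_cancel₀ hk0
    linear_combination (-X i2 ^ N) * h01 k0 - X i0 ^ N * h12 k0 - X i1 ^ N * h20 k0
  obtain ⟨b₀, b₁, hb⟩ := H1_mono i0 i1 i2 d02 d12 N f01 (-f20) f12 hrel
  -- the corrected sections
  have h3 : ∀ i, X i1 ^ N * (H0 i - b₀ * s i) = X i0 ^ N * (H1 i - b₁ * s i) := by
    intro i
    linear_combination h01 i + s i * hb
  have h4 : ∀ i, (X i0 : MvPolynomial (Fin (n + 1)) ℂ) ^ N ∣ H0 i - b₀ * s i := by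
    intro i
    refine Prime.pow_dvd_of_dvd_mul_left (X_prime (i := i0) (R := ℂ)) N
      (a := X i1 ^ N) ?_ ⟨_, h3 i⟩
    intro h5
    have h6 := (X_prime (i := i0) (R := ℂ)).dvd_of_dvd_pow h5
    rw [X_dvd_X] at h6
    exact absurd h6 d01
  choose G hG using h4
  have hX : (X i0 : MvPolynomial (Fin (n + 1)) ℂ) ^ N ≠ 0 := pow_ne_zero _ (X_ne_zero _)
  have hGk : Ker E G := by
    apply ker_of_mul hX
    have h5 : (fun i => X i0 ^ N * G i) = fun i => H0 i - b₀ * s i := funext fun i => (hG i).symm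
    rw [h5]
    exact ker_sub hH0 (ker_mul hs b₀)
  refine ⟨G, hGk, ?_⟩
  apply mul_left_cancel₀ hX
  have h6 := wd_of_mul_right W hGk hs (K := s) hG
  rw [← h6, wd_sub_right W hH0 (ker_mul hs b₀) hs, wd_mul_right W hs hs, wd_self W hs, w0]
  ring

/-- **the polynomials which vanish on the zero locus of `s` are wedge products with `s`.** -/
theorem mem_of_vanish (hn : 2 ≤ n) {s : Vec E.a n} (hs : Ker E s)
    (hsm : ∀ x : Fin (n + 1) → ℂ, x ≠ 0 → evv s x = 0 → SmoothAt s x)
    {u : MvPolynomial (Fin (n + 1)) ℂ}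
    (hu : ∀ x : Fin (n + 1) → ℂ, x ≠ 0 → evv s x = 0 → eval x u = 0) :
    ∃ H, Ker E H ∧ W.wd s H = u := by
  refine glue W hn hs (prm_of_smooth (by omega) hsm) fun x hx => ?_
  obtain ⟨τ, τ', G, G', hG, hG', hF⟩ := exists_ne W x hx
  by_cases h0 : evv s x = 0
  · -- a zero
    obtain ⟨l, l', h1, h2⟩ : ∃ l l', eval x (pderiv l (W.wd G' s) * pderiv l' (W.wd G s) -
        pderiv l (W.wd G s) * pderiv l' (W.wd G' s)) ≠ 0 ∧ True := by
      obtain ⟨l, l', i, i', hj⟩ := hsm x hx h0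
      refine ⟨l, l', ?_, trivial⟩
      have e1 := deriv_at_zero W hG.ker hG'.ker hs hx h0 l i
      have e2 := deriv_at_zero W hG.ker hG'.ker hs hx h0 l i'
      have e3 := deriv_at_zero W hG.ker hG'.ker hs hx h0 l' i
      have e4 := deriv_at_zero W hG.ker hG'.ker hs hx h0 l' i'
      have key : eval x (W.wd G G') ^ 2 * jm s x l l' i i' =
          eval x (pderiv l (W.wd G' s) * pderiv l' (W.wd G s) -
            pderiv l (W.wd G s) * pderiv l' (W.wd G' s)) *
          (eval x (G' i) * eval x (G i') - eval x (G' i') * eval x (G i)) := by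
        calc eval x (W.wd G G') ^ 2 * jm s x l l' i i' =
            (eval x (W.wd G G') * eval x (pderiv l (s i))) *
              (eval x (W.wd G G') * eval x (pderiv l' (s i'))) -
            (eval x (W.wd G G') * eval x (pderiv l (s i'))) *
              (eval x (W.wd G G') * eval x (pderiv l' (s i))) := by
              unfold jm
              ring
          _ = _ := by
              rw [e1, e2, e3, e4, map_sub, map_mul, map_mul]
              ring
      intro h1
      rw [h1, zero_mul] at key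
      exact mul_ne_zero (pow_ne_zero 2 hF) hj key
    obtain ⟨k, hk⟩ : ∃ k, x k ≠ 0 := by
      by_contra hc
      push Not at hc
      exact hx (funext hc)
    obtain ⟨v, hv, hvu⟩ := Rad.rad (P := W.wd G' s) (Q := W.wd G s) (x := x) (l := l) (l' := l')
      (wd_zero_of_evv W hG'.ker hs hx h0) (wd_zero_of_evv W hG.ker hs hx h0) h1
      (u := X k * W.wd G G' * u) (by
        intro y hy1 hy2
        rw [map_mul, map_mul, eval_X]
        by_cases hy : y = 0
        · rw [hy]
          simp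
        · by_cases hFy : eval y (W.wd G G') = 0
          · rw [hFy, mul_zero, zero_mul]
          · rw [hu y hy (evv_zero_of_wd W hG.ker hG'.ker hs hFy hy2 hy1), mul_zero])
    rw [Ideal.mem_span_pair] at hvu
    obtain ⟨a, b, hab⟩ := hvu
    refine ⟨v * (X k * W.wd G G'), ?_, fun i => -(a * G' i) + -(b * G i), ?_, ?_⟩
    · rw [map_mul, map_mul, eval_X]
      exact mul_ne_zero hv (mul_ne_zero hk hF)
    · have h3 : (fun i => -(a * G' i) + -(b * G i)) = fun i => (-a) * G' i + (-b) * G i := by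
        funext i
        ring
      rw [h3]
      exact ker_add (ker_mul hG'.ker _) (ker_mul hG.ker _)
    · have h3 : (fun i => -(a * G' i) + -(b * G i)) = fun i => (-a) * G' i + (-b) * G i := by
        funext i
        ring
      rw [h3, wd_add_right W (ker_mul hG'.ker _) (ker_mul hG.ker _) hs,
        wd_mul_right W hG'.ker hs, wd_mul_right W hG.ker hs, W.anti s G' hs hG'.ker,
        W.anti s G hs hG.ker]
      linear_combination hab
  · by_cases h1 : eval x (W.wd G s) = 0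
    · by_cases h2 : eval x (W.wd G' s) = 0
      · exact absurd (evv_zero_of_wd W hG.ker hG'.ker hs hF h1 h2) h0
      · refine ⟨W.wd s G', ?_, fun i => u * G' i, ker_mul hG'.ker u, ?_⟩
        · rw [W.anti s G' hs hG'.ker, map_neg]
          exact neg_ne_zero.2 h2
        · rw [wd_mul_right W hG'.ker hs]
          ring
    · refine ⟨W.wd s G, ?_, fun i => u * G i, ker_mul hG.ker u, ?_⟩
      · rw [W.anti s G hs hG.ker, map_neg]
        exact neg_ne_zero.2 h1
      · rw [wd_mul_right W hG.ker hs]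
        ring

end Pool.Agent.W615
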