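import Pool.Agent.W615.Z3

/-!
# Partial lifts of a vector field tangent to the zero locus of a section (helper615)
-/

set_option autoImplicit false
set_option maxHeartbeats 400000

open MvPolynomial H960VB H938TB

namespace Pool.Agent.W615

/-- the ideal of the polynomials which vanish on the zero locus of `s` -/
def vanI {a n : ℕ} (s : Vec a n) : Ideal (MvPolynomial (Fin (n + 1)) ℂ) where
  carrier := {p | ∀ x : Fin (n + 1) → ℂ, x ≠ 0 → evv s x = 0 → eval x p = 0}
  add_mem' := by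
    intro p q hp hq x hx h0
    rw [map_add, hp x hx h0, hq x hx h0, add_zero]
  zero_mem' := by
    intro x _ _
    rw [map_zero]
  smul_mem' := by
    intro c p hp x hx h0
    rw [smul_eq_mul, map_mul, hp x hx h0, mul_zero]

theorem mem_vanI {a n : ℕ} {s : Vec a n} {p : MvPolynomial (Fin (n + 1)) ℂ} :
    p ∈ vanI s ↔ ∀ x : Fin (n + 1) → ℂ, x ≠ 0 → evv s x = 0 → eval x p = 0 := Iff.rfl

variable {n : ℕ} {E : Bundle2 n} (W : Wedge (triv E))
  (N : Matrix (Fin (n + 1)) (Fin (n + 1)) ℂ) (s : Vec E.a n)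

/-- `L` is `F` times a lift of the vector field `N`, and multiplies `s` by `h`. -/
structure FL (F h : MvPolynomial (Fin (n + 1)) ℂ) (L : Vec E.a n → Vec E.a n) : Prop where
  ker : ∀ G, Ker E G → Ker E (L G)
  add : ∀ G G', Ker E G → Ker E G' → ∀ i, L (fun i => G i + G' i) i = L G i + L G' i
  mul : ∀ p G, Ker E G → ∀ i, L (fun i => p * G i) i = F * vf N p * G i + p * L G i
  wds : ∀ G, Ker E G → W.wd s (L G) = F * vf N (W.wd s G)
  ls : ∀ i, L s i = h * s i

variable {W N s}

theorem FL.add' {F h F' h' : MvPolynomial (Fin (n + 1)) ℂ} {L L' : Vec E.a n → Vec E.a n}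
    (hs : Ker E s) (H : FL W N s F h L) (H' : FL W N s F' h' L') :
    FL W N s (F + F') (h + h') (fun G i => L G i + L' G i) where
  ker := fun G hG => ker_add (H.ker G hG) (H'.ker G hG)
  add := fun G G' hG hG' i => by
    show L _ i + L' _ i = _
    rw [H.add G G' hG hG', H'.add G G' hG hG']
    ring
  mul := fun p G hG i => by
    show L _ i + L' _ i = _
    rw [H.mul p G hG, H'.mul p G hG]
    ring
  wds := fun G hG => by
    rw [wd_add_right W (H.ker G hG) (H'.ker G hG) hs, H.wds G hG, H'.wds G hG]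
    ring
  ls := fun i => by
    show L _ i + L' _ i = _
    rw [H.ls, H'.ls]
    ring

theorem FL.smul {F h : MvPolynomial (Fin (n + 1)) ℂ} {L : Vec E.a n → Vec E.a n}
    (hs : Ker E s) (H : FL W N s F h L) (r : MvPolynomial (Fin (n + 1)) ℂ) :
    FL W N s (r * F) (r * h) (fun G i => r * L G i) where
  ker := fun G hG => ker_mul (H.ker G hG) r
  add := fun G G' hG hG' i => by
    show r * L _ i = _
    rw [H.add G G' hG hG']
    ring
  mul := fun p G hG i => by
    show r * L _ i = _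
    rw [H.mul p G hG]
    ring
  wds := fun G hG => by
    rw [wd_mul_right W (H.ker G hG) hs, H.wds G hG]
    ring
  ls := fun i => by
    show r * L _ i = _
    rw [H.ls]
    ring

/-- the zero operator -/
theorem FL.zero (hs : Ker E s) : FL W N s 0 0 (fun _ _ => 0) where
  ker := fun _ _ => ker_zero
  add := fun _ _ _ _ _ => by rw [add_zero]
  mul := fun _ _ _ _ => by ring
  wds := fun G _ => by
    rw [wd_zero_right W hs ker_zero (fun _ => rfl), zero_mul]
  ls := fun _ => by rw [zero_mul]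

/-- changing the multiplier of `s` -/
theorem FL.modify {F h : MvPolynomial (Fin (n + 1)) ℂ} {L : Vec E.a n → Vec E.a n}
    (hs : Ker E s) (H : FL W N s F h L) {K : Vec E.a n} (hK : Ker E K) :
    FL W N s F (h - W.wd s K) (fun G i => L G i - W.wd G K * s i) where
  ker := fun G hG => ker_sub (H.ker G hG) (ker_mul hs _)
  add := fun G G' hG hG' i => by
    show L _ i - W.wd _ K * s i = _
    rw [H.add G G' hG hG', wd_add_left W hG hG' hK]
    ring
  mul := fun p G hG i => by
    show L _ i - W.wd _ K * s i = _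
    rw [H.mul p G hG, W.smul p G K hG hK]
    ring
  wds := fun G hG => by
    rw [wd_sub_right W (H.ker G hG) (ker_mul hs _) hs, wd_mul_right W hs hs, wd_self W hs,
      H.wds G hG]
    ring
  ls := fun i => by
    show L _ i - W.wd _ K * s i = _
    rw [H.ls]
    ring

/-- the partial lift given by a pair of sections -/
theorem FL.pair (hs : Ker E s) (hp : Prm s) {G₁ G₂ R₁ R₂ : Vec E.a n} (h₁ : Ker E G₁)
    (h₂ : Ker E G₂) (r₁ : Ker E R₁) (r₂ : Ker E R₂) (e₁ : W.wd s R₁ = vf N (W.wd s G₁))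
    (e₂ : W.wd s R₂ = vf N (W.wd s G₂)) :
    ∃ h, FL W N s (W.wd G₁ G₂) h (fun G i => vf N (W.wd G G₂) * G₁ i + W.wd G G₂ * R₁ i -
      vf N (W.wd G G₁) * G₂ i - W.wd G G₁ * R₂ i - vf N (W.wd G₁ G₂) * G i) := by
  set L : Vec E.a n → Vec E.a n := fun G i => vf N (W.wd G G₂) * G₁ i + W.wd G G₂ * R₁ i -
      vf N (W.wd G G₁) * G₂ i - W.wd G G₁ * R₂ i - vf N (W.wd G₁ G₂) * G i with hL
  have hker : ∀ G, Ker E G → Ker E (L G) := fun G hG =>
    ker_sub (ker_sub (ker_sub (ker_add (ker_mul h₁ _) (ker_mul r₁ _)) (ker_mul h₂ _))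
      (ker_mul r₂ _)) (ker_mul hG _)
  have hwds : ∀ G, Ker E G → W.wd s (L G) = W.wd G₁ G₂ * vf N (W.wd s G) := by
    intro G hG
    have k1 := wd_sub_right W (ker_sub (ker_sub (ker_add (ker_mul h₁ (vf N (W.wd G G₂)))
      (ker_mul r₁ (W.wd G G₂))) (ker_mul h₂ (vf N (W.wd G G₁)))) (ker_mul r₂ (W.wd G G₁)))
      (ker_mul hG (vf N (W.wd G₁ G₂))) hs
    have k2 := wd_sub_right W (ker_sub (ker_add (ker_mul h₁ (vf N (W.wd G G₂)))
      (ker_mul r₁ (W.wd G G₂))) (ker_mul h₂ (vf N (W.wd G G₁)))) (ker_mul r₂ (W.wd G G₁)) hs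
    have k3 := wd_sub_right W (ker_add (ker_mul h₁ (vf N (W.wd G G₂)))
      (ker_mul r₁ (W.wd G G₂))) (ker_mul h₂ (vf N (W.wd G G₁))) hs
    have k4 := wd_add_right W (ker_mul h₁ (vf N (W.wd G G₂))) (ker_mul r₁ (W.wd G G₂)) hs
    have h5 : W.wd G₁ G₂ * W.wd s G = W.wd G G₂ * W.wd s G₁ - W.wd G G₁ * W.wd s G₂ := by
      have h6 : (fun i => W.wd G₁ G₂ * G i) = fun i => W.wd G G₂ * G₁ i - W.wd G G₁ * G₂ i := by
        funext i
        have h7 := W.three G G₁ G₂ hG h₁ h₂ i
        linear_combination h7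
      rw [← wd_mul_right W hG hs, h6, wd_sub_right W (ker_mul h₁ _) (ker_mul h₂ _) hs,
        wd_mul_right W h₁ hs, wd_mul_right W h₂ hs]
    have h6 := congrArg (vf N) h5
    rw [map_sub, Derivation.leibniz, Derivation.leibniz, Derivation.leibniz] at h6
    simp only [smul_eq_mul] at h6
    show W.wd s (fun i => vf N (W.wd G G₂) * G₁ i + W.wd G G₂ * R₁ i -
      vf N (W.wd G G₁) * G₂ i - W.wd G G₁ * R₂ i - vf N (W.wd G₁ G₂) * G i) = _
    rw [k1, k2, k3, k4, wd_mul_right W h₁ hs, wd_mul_right W r₁ hs, wd_mul_right W h₂ hs,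
      wd_mul_right W r₂ hs, wd_mul_right W hG hs, e₁, e₂]
    linear_combination -h6
  obtain ⟨h, hh⟩ := hp.dvd_wd W hs (hker s hs) (by
    rw [hwds s hs, wd_self W hs, map_zero, mul_zero])
  refine ⟨h, hker, ?_, ?_, hwds, hh⟩
  · intro G G' hG hG' i
    simp only [hL]
    rw [wd_add_left W hG hG' h₂, wd_add_left W hG hG' h₁, map_add, map_add]
    ring
  · intro p G hG i
    have h7 := W.three G G₁ G₂ hG h₁ h₂ i
    simp only [hL]
    rw [W.smul p G G₂ hG h₂, W.smul p G G₁ hG h₁, Derivation.leibniz, Derivation.leibniz]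
    simp only [smul_eq_mul]
    linear_combination (-vf N p) * h7

/-- comparison of two partial lifts -/
theorem FL.diff {F h F' h' : MvPolynomial (Fin (n + 1)) ℂ} {L L' : Vec E.a n → Vec E.a n}
    (hs : Ker E s) (hp : Prm s) (H : FL W N s F h L) (H' : FL W N s F' h' L') :
    ∀ G, Ker E G → ∃ ψ, ∀ i, F' * L G i - F * L' G i = ψ * s i := by
  intro G hG
  refine hp.dvd_wd W hs (ker_sub (ker_mul (H.ker G hG) F') (ker_mul (H'.ker G hG) F)) ?_
  rw [wd_sub_right W (ker_mul (H.ker G hG) F') (ker_mul (H'.ker G hG) F) hs,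
    wd_mul_right W (H.ker G hG) hs, wd_mul_right W (H'.ker G hG) hs, H.wds G hG, H'.wds G hG]
  ring

theorem FL.compare {F h F' h' : MvPolynomial (Fin (n + 1)) ℂ} {L L' : Vec E.a n → Vec E.a n}
    (hs : Ker E s) (hp : Prm s) (H : FL W N s F h L) (H' : FL W N s F' h' L') :
    F' * h - F * h' ∈ vanI s := by
  intro x hx h0
  obtain ⟨τ, τ', G, G', hG, hG', hF⟩ := exists_ne W x hx
  obtain ⟨a, ha⟩ := H.diff hs hp H' G hG.ker
  obtain ⟨b, hb⟩ := H.diff hs hp H' G' hG'.ker
  obtain ⟨k, hk⟩ := hp.ne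
  -- the linear operator Ψ = F' L - F L'
  have hlin : ∀ (p : MvPolynomial (Fin (n + 1)) ℂ) (K : Vec E.a n), Ker E K → ∀ i,
      F' * L (fun i => p * K i) i - F * L' (fun i => p * K i) i =
        p * (F' * L K i - F * L' K i) := by
    intro p K hK i
    rw [H.mul p K hK, H'.mul p K hK]
    ring
  have e1 : (fun i => W.wd G G' * s i) =
      fun i => (W.wd G s) * G' i + (-W.wd G' s) * G i := by
    funext i
    have h7 := W.three G G' s hG.ker hG'.ker hs i
    linear_combination h7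
  have e2 := hlin (W.wd G G') s hs k
  rw [e1, H.add _ _ (ker_mul hG'.ker _) (ker_mul hG.ker _),
    H'.add _ _ (ker_mul hG'.ker _) (ker_mul hG.ker _)] at e2
  have e3 := hlin (W.wd G s) G' hG'.ker k
  have e4 := hlin (-W.wd G' s) G hG.ker k
  rw [ha k] at e4
  rw [hb k] at e3
  rw [H.ls, H'.ls] at e2
  have e5 : W.wd G G' * (F' * h - F * h') = W.wd G s * b - W.wd G' s * a := by
    apply mul_right_cancel₀ hk
    linear_combination e3 + e4 - e2
  have e6 : eval x (W.wd G G') * eval x (F' * h - F * h') = 0 := by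
    rw [← map_mul, e5, map_sub, map_mul, map_mul, wd_zero_of_evv W hG.ker hs hx h0,
      wd_zero_of_evv W hG'.ker hs hx h0, zero_mul, zero_mul, sub_zero]
  exact (mul_eq_zero.1 e6).resolve_left hF

end Pool.Agent.W615
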