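import Pool.Agent.W615.Z4

/-!
# The trace function of a tangent vector field is constant (helper615)
-/

set_option autoImplicit false
set_option maxHeartbeats 400000

open MvPolynomial H960VB H938TB

namespace Pool.Agent.W615

theorem wd_vcomp' {n : ℕ} {w : Fin (n + 1) → ℤ × ℤ} {E : Bundle2 n} {D : EqB E w} (W : Wedge D)
    {σ : M} {s R : Vec E.a n} (hs : HSec D σ s) (hR : Ker E R) (τ : M) :
    W.wd s (vcomp D τ R) = weightedHomogeneousComponent (tw w) (σ + τ + W.κ) (W.wd s R) := by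
  have h1 := vcomp_sec (D := D) hR τ
  apply wd_eq_of W hs.ker h1.ker
  intro i j
  have e1 := whc_mul (q := R j) (hs.hom i) (((E.β j, D.b j) : M) + τ)
  have e2 := whc_mul (q := R i) (hs.hom j) (((E.β i, D.b i) : M) + τ)
  have e3 := whc_mul (q := W.wd s R) (P_hom W i j) (σ + τ + W.κ)
  rw [show ((E.β j, D.b j) + σ + ((E.β i, D.b i) + τ) : M) =
    (E.β i, D.b i) + σ + ((E.β j, D.b j) + τ) by abel] at e2
  rw [show (((E.β i, D.b i) : M) + (E.β j, D.b j) - W.κ + (σ + τ + W.κ) : M) =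
    (E.β i, D.b i) + σ + ((E.β j, D.b j) + τ) by abel] at e3
  show s i * weightedHomogeneousComponent (tw w) (((E.β j, D.b j) : M) + τ) (R j) -
    s j * weightedHomogeneousComponent (tw w) (((E.β i, D.b i) : M) + τ) (R i) = _
  rw [← e1, ← e2, mul_comm _ (W.P i j), ← e3, ← map_sub]
  congr 1
  rw [W.eq s R hs.ker hR i j]
  ring

/-- the ideal of the zero locus of a homogeneous vector is homogeneous. -/
theorem vanI_hom {n : ℕ} {E : Bundle2 n} {ds : ℤ} {s : Vec E.a n} (hs : Sec E ds s)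
    {p : MvPolynomial (Fin (n + 1)) ℂ} (hp : p ∈ vanI s) (τ : M) :
    weightedHomogeneousComponent (tw (0 : Fin (n + 1) → ℤ × ℤ)) τ p ∈ vanI s := by
  classical
  intro x hx h0
  -- the polynomial in the scaling parameter
  set r : Polynomial ℂ := ∑ u ∈ p.support, Polynomial.monomial (∑ l, u l)
    (coeff u p * ∏ l, x l ^ u l) with hr
  have hev : ∀ c : ℂ, r.eval c = eval (c • x) p := by
    intro c
    rw [hr, Polynomial.eval_finsetSum, eval_eq']
    refine Finset.sum_congr rfl fun u _ => ?_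
    rw [Polynomial.eval_monomial]
    have h2 : ∏ i, (c • x) i ^ u i = c ^ (∑ l, u l) * ∏ i, x i ^ u i := by
      simp only [Pi.smul_apply, smul_eq_mul, mul_pow, Finset.prod_mul_distrib]
      rw [Finset.prod_pow_eq_pow_sum]
    rw [h2]
    ring
  have hroot : ∀ c : ℂ, c ≠ 0 → r.eval c = 0 := by
    intro c hc
    rw [hev]
    apply hp
    · exact smul_ne_zero hc hx
    · funext i
      obtain ⟨k, hk⟩ := eval_scale (z := x) (hs.hom i) c
      show eval (c • x) (s i) = 0
      rw [hk]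
      have : eval x (s i) = 0 := congrFun h0 i
      rw [this, mul_zero]
  have hr0 : r = 0 := by
    have h1 : r * Polynomial.X = 0 := by
      apply Polynomial.funext
      intro c
      rw [Polynomial.eval_mul, Polynomial.eval_X, Polynomial.eval_zero]
      by_cases hc : c = 0
      · rw [hc, mul_zero]
      · rw [hroot c hc, zero_mul]
    exact (mul_eq_zero.1 h1).resolve_right Polynomial.X_ne_zero
  -- the weights of the monomials
  have hwt : ∀ u : Fin (n + 1) →₀ ℕ, Finsupp.weight (tw (0 : Fin (n + 1) → ℤ × ℤ)) u =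
      (((∑ l, u l : ℕ) : ℤ), 0) := by
    intro u
    rw [Finsupp.weight_apply, Finsupp.sum_fintype _ _ (by simp)]
    have h4 : ∀ j, u j • tw (0 : Fin (n + 1) → ℤ × ℤ) j = ((u j : ℤ), 0) := by
      intro j
      simp [tw]
    simp_rw [h4]
    ext
    · rw [Prod.fst_sum]
      push_cast
      rfl
    · rw [Prod.snd_sum]
      simp
    · rw [Prod.snd_sum]
      simp
  have hsub : (weightedHomogeneousComponent (tw (0 : Fin (n + 1) → ℤ × ℤ)) τ p).support ⊆
      p.support := by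
    intro u hu
    rw [mem_support_iff, coeff_weightedHomogeneousComponent] at hu
    rw [mem_support_iff]
    intro h
    rw [h, ite_self] at hu
    exact hu rfl
  rw [eval_eq', Finset.sum_subset hsub (by
    intro u _ hu
    rw [notMem_support_iff.1 hu, zero_mul])]
  by_cases hτ : ∃ k : ℕ, τ = ((k : ℤ), 0)
  · obtain ⟨k, rfl⟩ := hτ
    have h1 := congrArg (fun q => Polynomial.coeff q k) hr0
    simp only [hr, Polynomial.finsetSum_coeff, Polynomial.coeff_monomial,
      Polynomial.coeff_zero] at h1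
    rw [← h1]
    refine Finset.sum_congr rfl fun u _ => ?_
    rw [coeff_weightedHomogeneousComponent, hwt]
    by_cases hk : ∑ l, u l = k
    · rw [if_pos hk, if_pos (by rw [hk])]
    · rw [if_neg hk, if_neg, zero_mul]
      intro h2
      apply hk
      have h3 : ((∑ l, u l : ℕ) : ℤ) = (k : ℤ) := congrArg Prod.fst h2
      exact_mod_cast h3
  · refine Finset.sum_eq_zero fun u _ => ?_
    rw [coeff_weightedHomogeneousComponent, if_neg, zero_mul]
    intro h2
    exact hτ ⟨_, by rw [← h2, hwt]⟩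

variable {n : ℕ} {E : Bundle2 n} {W : Wedge (triv E)}
  {N : Matrix (Fin (n + 1)) (Fin (n + 1)) ℂ} {s : Vec E.a n} {ds : ℤ}

/-- the standing assumptions -/
structure Tan (W : Wedge (triv E)) (N : Matrix (Fin (n + 1)) (Fin (n + 1)) ℂ) (s : Vec E.a n)
    (ds : ℤ) : Prop where
  hn : 2 ≤ n
  hs : Sec E ds s
  hsm : ∀ x : Fin (n + 1) → ℂ, x ≠ 0 → evv s x = 0 → SmoothAt s x
  prime : (vanI s).IsPrime
  tan : ∀ G, Ker E G → vf N (W.wd s G) ∈ vanI s

theorem Tan.prm (H : Tan W N s ds) : Prm s := prm_of_smooth (by have := H.hn; omega) H.hsm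

theorem Tan.exists_R (H : Tan W N s ds) {d : ℤ} {G : Vec E.a n} (hG : Sec E d G) :
    ∃ R, Sec E d R ∧ W.wd s R = vf N (W.wd s G) := by
  obtain ⟨R, hR, hR'⟩ := mem_of_vanish W H.hn H.hs.ker H.hsm (H.tan G hG.ker)
  refine ⟨vcomp (triv E) ((d, 0) : M) R, vcomp_sec hR _, ?_⟩
  rw [wd_vcomp' W H.hs hR, hR']
  apply weightedHomogeneousComponent_eq_self
  have h1 := wh_triv (vf_homZ N (wd_homZ W H.hs hG))
  have h2 : W.κ.2 = 0 := by
    -- the wedge product of two sections is homogeneous for the trivial weights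
    obtain ⟨a, b, G₁, G₂, hG₁, hG₂, hp⟩ := exists_sec_ne W (fun _ => 1)
      (fun h => by simpa using congrFun h 0)
    have h0 : W.wd G₁ G₂ ≠ 0 := fun h0 => hp (by rw [h0, map_zero])
    have e1 := W.hom _ _ _ _ hG₁ hG₂
    have e2 := wh_triv (wd_homZ W hG₁ hG₂)
    have e3 := e1.inj_right h0 e2
    have e4 := congrArg Prod.snd e3
    have e5 : (0 : ℤ × ℤ) + 0 + W.κ.2 = 0 := e4
    rwa [add_zero, zero_add] at e5
  have h3 : (((ds, 0) : M) + (d, 0) + W.κ) = ((ds + d + W.κ.1, 0) : M) := by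
    refine Prod.ext rfl ?_
    show (0 : ℤ × ℤ) + 0 + W.κ.2 = 0
    rw [h2, add_zero, add_zero]
  rw [h3]
  exact h1

/-- a zero of `s` -/
theorem Tan.exists_zero (H : Tan W N s ds) : ∃ x : Fin (n + 1) → ℂ, x ≠ 0 ∧ evv s x = 0 := by
  by_contra hc
  push Not at hc
  apply H.prime.ne_top
  rw [Ideal.eq_top_iff_one]
  intro x hx h0
  exact absurd h0 (hc x hx)

/-- all multiples of lifts -/
def FI (W : Wedge (triv E)) (N : Matrix (Fin (n + 1)) (Fin (n + 1)) ℂ) {s : Vec E.a n}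
    (hs : Ker E s) : Ideal (MvPolynomial (Fin (n + 1)) ℂ) where
  carrier := {F | ∃ h L, FL W N s F h L}
  add_mem' := by
    rintro F F' ⟨h, L, H⟩ ⟨h', L', H'⟩
    exact ⟨_, _, H.add' hs H'⟩
  zero_mem' := ⟨_, _, FL.zero hs⟩
  smul_mem' := by
    rintro r F ⟨h, L, H⟩
    exact ⟨_, _, H.smul hs r⟩

theorem Tan.pow_le (H : Tan W N s ds) :
    ∃ m : ℕ, idealOfVars (Fin (n + 1)) ℂ ^ m ≤ FI W N H.hs.ker := by
  have hzero : ∀ x : Fin (n + 1) → ℂ, x ∈ zeroLocus ℂ (FI W N H.hs.ker) → x = 0 := by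
    intro x hx
    by_contra hx0
    obtain ⟨a, b, G₁, G₂, h₁, h₂, hp⟩ := exists_sec_ne W x hx0
    obtain ⟨R₁, r₁, e₁⟩ := H.exists_R h₁
    obtain ⟨R₂, r₂, e₂⟩ := H.exists_R h₂
    obtain ⟨h, hL⟩ := FL.pair (W := W) (N := N) H.hs.ker H.prm h₁.ker h₂.ker r₁.ker r₂.ker e₁ e₂
    have := (mem_zeroLocus_iff.1 hx) (W.wd G₁ G₂) ⟨h, _, hL⟩
    exact hp (by simpa [MvPolynomial.aeval_eq_eval] using this)
  have hrad : idealOfVars (Fin (n + 1)) ℂ ≤ (FI W N H.hs.ker).radical := by
    rw [Ideal.span_le]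
    rintro _ ⟨i, rfl⟩
    show (X i : MvPolynomial (Fin (n + 1)) ℂ) ∈ (FI W N H.hs.ker).radical
    rw [← vanishingIdeal_zeroLocus_eq_radical (K := ℂ), mem_vanishingIdeal_iff]
    intro x hx
    rw [hzero x hx]
    simp
  obtain ⟨m, hm⟩ := Ideal.exists_radical_pow_le_of_fg (FI W N H.hs.ker)
    (IsNoetherian.noetherian _)
  exact ⟨m, (Ideal.pow_right_mono hrad m).trans hm⟩

end Pool.Agent.W615
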