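import Pool.Agent.W615.Z5

/-!
# The trace function of a tangent vector field is constant, II (helper615)
-/

set_option autoImplicit false
set_option maxHeartbeats 800000

open MvPolynomial H960VB H938TB

namespace Pool.Agent.W615

variable {n : ℕ} {E : Bundle2 n} {W : Wedge (triv E)}
  {N : Matrix (Fin (n + 1)) (Fin (n + 1)) ℂ} {s : Vec E.a n} {ds : ℤ}

theorem homZ_sub' {σ : Type*} {p q : MvPolynomial σ ℂ} {d : ℤ} (hp : HomZ p d) (hq : HomZ q d) :
    HomZ (p - q) d := by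
  rw [sub_eq_add_neg]
  exact homZ_add hp (homZ_neg hq)

/-- an abstract eigenvalue argument -/
theorem eig_arg {R : Type*} [CommRing R] [Algebra ℂ R] (I : Ideal R) [hI : I.IsPrime]
    (V : Submodule ℂ R) [FiniteDimensional ℂ V] {F h : R} (hF : F ∉ I)
    (hV : ∀ q ∈ V, ∃ r ∈ V, F * r - q * h ∈ I) (hne : ∃ q ∈ V, q ∉ I) :
    ∃ lam : ℂ, h - algebraMap ℂ R lam * F ∈ I := by
  classical
  let bas := Module.finBasis ℂ V
  choose r hr hr' using fun i => hV (bas i) (bas i).2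
  let φ : V →ₗ[ℂ] V := bas.constr ℂ (fun i => (⟨r i, hr i⟩ : V))
  have hφ : ∀ q : V, F * (φ q : R) - (q : R) * h ∈ I := by
    let A : V →ₗ[ℂ] (R ⧸ I) := (Ideal.Quotient.mkₐ ℂ I).toLinearMap ∘ₗ
      (LinearMap.mulLeft ℂ F ∘ₗ V.subtype ∘ₗ φ - LinearMap.mulRight ℂ h ∘ₗ V.subtype)
    have hA : A = 0 := by
      apply bas.ext
      intro i
      show (Ideal.Quotient.mk I) (F * (φ (bas i) : R) - (bas i : R) * h) = 0
      rw [Ideal.Quotient.eq_zero_iff_mem]
      have : φ (bas i) = ⟨r i, hr i⟩ := bas.constr_basis ℂ _ i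
      rw [this]
      exact hr' i
    intro q
    have h1 : A q = 0 := by rw [hA]; rfl
    exact Ideal.Quotient.eq_zero_iff_mem.1 h1
  let K : Submodule ℂ V := (I.restrictScalars ℂ).comap V.subtype
  have hmemK : ∀ q : V, q ∈ K ↔ (q : R) ∈ I := fun q => Iff.rfl
  have hK : K ≤ K.comap φ := by
    intro q hq
    rw [Submodule.mem_comap, hmemK]
    rw [hmemK] at hq
    have h1 := hφ q
    have h2 : F * (φ q : R) ∈ I := by
      have := I.add_mem h1 (I.mul_mem_right h hq)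
      rwa [sub_add_cancel] at this
    exact (hI.mem_or_mem h2).resolve_left hF
  have hnt : Nontrivial (V ⧸ K) := by
    rw [Submodule.Quotient.nontrivial_iff]
    intro h
    obtain ⟨q, hq, hq'⟩ := hne
    have h1 : (⟨q, hq⟩ : V) ∈ K := by rw [h]; trivial
    exact hq' ((hmemK _).1 h1)
  obtain ⟨lam, hlam⟩ := Module.End.exists_eigenvalue (K.mapQ K φ hK)
  obtain ⟨v, hv⟩ := hlam.exists_hasEigenvector
  obtain ⟨q, rfl⟩ := Submodule.Quotient.mk_surjective K v
  have hq0 : q ∉ K := by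
    intro h
    exact hv.2 ((Submodule.Quotient.mk_eq_zero K).2 h)
  have hq1 : φ q - lam • q ∈ K := by
    have h1 := hv.apply_eq_smul
    rw [Submodule.mapQ_apply, ← Submodule.Quotient.mk_smul] at h1
    exact (Submodule.Quotient.eq K).1 h1
  refine ⟨lam, ?_⟩
  have h2 : (φ q : R) - algebraMap ℂ R lam * (q : R) ∈ I := by
    have := (hmemK _).1 hq1
    rw [Submodule.coe_sub, Submodule.coe_smul, Algebra.smul_def] at this
    exact this
  have h3 := hφ q
  have h4 : (q : R) * (h - algebraMap ℂ R lam * F) ∈ I := by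
    have h5 := I.sub_mem (I.mul_mem_left F h2) h3
    have e : F * ((φ q : R) - algebraMap ℂ R lam * (q : R)) - (F * (φ q : R) - (q : R) * h) =
      (q : R) * (h - algebraMap ℂ R lam * F) := by ring
    rwa [e] at h5
  exact (hI.mem_or_mem h4).resolve_left fun h => hq0 ((hmemK _).2 h)

theorem Tan.const (H : Tan W N s ds) :
    ∃ lam : ℂ, ∀ F h L, FL W N s F h L → h - C lam * F ∈ vanI s := by
  classical
  haveI := H.prime
  obtain ⟨x, hx, h0⟩ := H.exists_zero
  obtain ⟨a, b, G₁, G₂, g₁, g₂, hF⟩ := exists_sec_ne W x hx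
  obtain ⟨R₁, r₁, e₁⟩ := H.exists_R g₁
  obtain ⟨R₂, r₂, e₂⟩ := H.exists_R g₂
  obtain ⟨h₀, H₀⟩ := FL.pair (W := W) (N := N) H.hs.ker H.prm g₁.ker g₂.ker r₁.ker r₂.ker e₁ e₂
  have hF₀h : HomZ (W.wd G₁ G₂) (a + b + W.κ.1) := wd_homZ W g₁ g₂
  have hF₀v : W.wd G₁ G₂ ∉ vanI s := fun hc => hF (hc x hx h0)
  obtain ⟨k, hk⟩ := H.prm.ne
  have hh₀ : HomZ h₀ (a + b + W.κ.1) := by
    have e := H₀.ls k
    have hA : HomZ (h₀ * s k) (a + b + W.κ.1 + (E.β k + ds)) := by
      rw [← e]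
      have t1 := homZ_mul (vf_homZ N (wd_homZ W H.hs g₂)) (g₁.homZ k)
      have t2 := homZ_mul (wd_homZ W H.hs g₂) (r₁.homZ k)
      have t3 := homZ_mul (vf_homZ N (wd_homZ W H.hs g₁)) (g₂.homZ k)
      have t4 := homZ_mul (wd_homZ W H.hs g₁) (r₂.homZ k)
      have t5 := homZ_mul (vf_homZ N (wd_homZ W g₁ g₂)) (H.hs.homZ k)
      rw [show ds + b + W.κ.1 + (E.β k + a) = a + b + W.κ.1 + (E.β k + ds) by ring] at t1 t2
      rw [show ds + a + W.κ.1 + (E.β k + b) = a + b + W.κ.1 + (E.β k + ds) by ring] at t3 t4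
      exact homZ_sub' (homZ_sub' (homZ_sub' (homZ_add t1 t2) t3) t4) t5
    rw [mul_comm] at hA
    have := homZ_div hk (H.hs.homZ k) hA
    rwa [add_sub_cancel_right] at this
  obtain ⟨m, hm⟩ := H.pow_le
  haveI : FiniteDimensional ℂ (homogeneousSubmodule (Fin (n + 1)) ℂ m) :=
    Module.Finite.iff_fg.2 (homogeneousSubmodule_fg (Fin (n + 1)) ℂ m)
  have hV : ∀ q ∈ homogeneousSubmodule (Fin (n + 1)) ℂ m,
      ∃ r ∈ homogeneousSubmodule (Fin (n + 1)) ℂ m, W.wd G₁ G₂ * r - q * h₀ ∈ vanI s := by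
    intro q hq
    have hq' : q.IsHomogeneous m := hq
    have hqI : q ∈ FI W N H.hs.ker := by
      apply hm
      rw [mem_pow_idealOfVars_iff']
      intro u hu
      by_contra hc
      have h1 := hq' hc
      have h2 : Finsupp.weight (1 : Fin (n + 1) → ℕ) u = m := h1
      have h3 : Finsupp.degree u = m := by
        rw [← h2, Finsupp.degree_eq_weight_one]
        rfl
      omega
    obtain ⟨h, L, HL⟩ := hqI
    have h1 := H₀.compare H.hs.ker H.prm HL
    have h2 := vanI_hom H.hs h1 (((a + b + W.κ.1, 0) : M) + ((m : ℤ), 0))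
    have hqz : HomZ q (m : ℤ) := Or.inr ⟨m, rfl, hq'⟩
    have e1 := whc_mul (q := h) (wh_triv hF₀h) (((m : ℤ), 0) : M)
    have e2 : weightedHomogeneousComponent (tw (0 : Fin (n + 1) → ℤ × ℤ))
        (((a + b + W.κ.1, 0) : M) + ((m : ℤ), 0)) (q * h₀) = q * h₀ := by
      apply weightedHomogeneousComponent_eq_self
      have h3 := wh_triv (homZ_mul hqz hh₀)
      have h4 : (((a + b + W.κ.1, 0) : M) + ((m : ℤ), 0)) = ((m : ℤ) + (a + b + W.κ.1), 0) := by
        refine Prod.ext (add_comm _ _) ?_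
        exact add_zero _
      rw [h4]
      exact h3
    rw [map_sub, e1, e2] at h2
    refine ⟨weightedHomogeneousComponent (tw (0 : Fin (n + 1) → ℤ × ℤ)) (((m : ℤ), 0) : M) h,
      ?_, ?_⟩
    · have h5 := homZ_of (weightedHomogeneousComponent_isWeightedHomogeneous
        (w := tw (0 : Fin (n + 1) → ℤ × ℤ)) (((m : ℤ), 0) : M) h)
      rw [mem_homogeneousSubmodule]
      rcases h5 with h5 | ⟨k', hk', h5⟩
      · rw [h5]
        exact isHomogeneous_zero _ _ _
      · have h6 : (k' : ℤ) = (m : ℤ) := hk'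
        have h7 : k' = m := by exact_mod_cast h6
        rwa [h7] at h5
    · have := (vanI s).neg_mem h2
      rwa [neg_sub] at this
  have hne : ∃ q ∈ homogeneousSubmodule (Fin (n + 1)) ℂ m, q ∉ vanI s := by
    obtain ⟨j, hj⟩ : ∃ j, x j ≠ 0 := by
      by_contra hc
      push Not at hc
      exact hx (funext hc)
    refine ⟨X j ^ m, ?_, ?_⟩
    · rw [mem_homogeneousSubmodule]
      exact isHomogeneous_X_pow _ _
    · intro hc
      have := hc x hx h0
      rw [map_pow, eval_X] at this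
      exact pow_ne_zero m hj this
  obtain ⟨lam, hlam⟩ := eig_arg (vanI s) (homogeneousSubmodule (Fin (n + 1)) ℂ m) hF₀v hV hne
  rw [algebraMap_eq] at hlam
  refine ⟨lam, fun F h L HL => ?_⟩
  have h1 := H₀.compare H.hs.ker H.prm HL
  have h2 : W.wd G₁ G₂ * (h - C lam * F) ∈ vanI s := by
    have h3 := (vanI s).sub_mem ((vanI s).mul_mem_left F hlam) h1
    have e : F * (h₀ - C lam * W.wd G₁ G₂) - (F * h₀ - W.wd G₁ G₂ * h) =
      W.wd G₁ G₂ * (h - C lam * F) := by ring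
    rwa [e] at h3
  exact (H.prime.mem_or_mem h2).resolve_left hF₀v

/-- all multiples of the vector field lift with the right multiplier. -/
theorem Tan.lifts (H : Tan W N s ds) :
    ∃ lam : ℂ, ∀ F ∈ FI W N H.hs.ker, ∃ L, FL W N s F (C lam * F) L := by
  obtain ⟨lam, hlam⟩ := H.const
  refine ⟨lam, fun F hF => ?_⟩
  obtain ⟨h, L, HL⟩ := hF
  obtain ⟨K, hK, hK'⟩ := mem_of_vanish W H.hn H.hs.ker H.hsm (hlam F h L HL)
  have h1 := HL.modify H.hs.ker hK
  rw [hK', show h - (h - C lam * F) = C lam * F by ring] at h1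
  exact ⟨_, h1⟩

end Pool.Agent.W615
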