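import Pool.Agent.W615.Z6

/-!
# Gluing the partial lifts of a tangent vector field (helper615)
-/

set_option autoImplicit false
set_option maxHeartbeats 800000

open MvPolynomial H960VB H938TB

namespace Pool.Agent.W615

variable {n : ℕ} {E : Bundle2 n} {W : Wedge (triv E)}
  {N : Matrix (Fin (n + 1)) (Fin (n + 1)) ℂ} {s : Vec E.a n} {ds : ℤ}

/-- the wedge products with `s` have no common factor. -/
theorem unit_of_dvd (hn : 2 ≤ n) (W : Wedge (triv E)) {s : Vec E.a n} (hs : Ker E s) (hp : Prm s)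
    {b : MvPolynomial (Fin (n + 1)) ℂ} (hb : ∀ G, Ker E G → b ∣ W.wd s G) : IsUnit b := by
  by_contra hu
  have key : ∀ π : MvPolynomial (Fin (n + 1)) ℂ, (∀ G, Ker E G → π ∣ W.wd s G) →
      ∀ v : Fin (n + 1) → ℂ, v ≠ 0 → eval v π = 0 → evv s v = 0 := by
    intro π hπ v hv h0
    obtain ⟨_, _, G, G', hG, hG', hF⟩ := exists_ne W v hv
    apply evv_zero_of_wd W hG.ker hG'.ker hs hF
    · obtain ⟨c, hc⟩ := hπ G hG.ker
      rw [W.anti G s hG.ker hs, map_neg, hc, map_mul, h0, zero_mul, neg_zero]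
    · obtain ⟨c, hc⟩ := hπ G' hG'.ker
      rw [W.anti G' s hG'.ker hs, map_neg, hc, map_mul, h0, zero_mul, neg_zero]
  let i0 : Fin (n + 1) := ⟨0, by omega⟩
  let i1 : Fin (n + 1) := ⟨1, by omega⟩
  have d01 : i0 ≠ i1 := by simp [i0, i1]
  by_cases hb0 : b = 0
  · obtain ⟨k, hk⟩ := hp.ne
    have h1 : X i0 * s k = 0 := by
      apply MvPolynomial.funext
      intro v
      rw [map_mul, eval_X, map_zero]
      by_cases h : v = 0
      · rw [h]
        simp
      · have h2 := congrFun (key b hb v h (by rw [hb0, map_zero])) k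
        have h3 : eval v (s k) = 0 := h2
        rw [h3, mul_zero]
    exact hk ((mul_eq_zero.1 h1).resolve_left (X_ne_zero _))
  · obtain ⟨π, hπ, hπb⟩ := WfDvdMonoid.exists_irreducible_factor hu hb0
    have hπp := UniqueFactorizationMonoid.irreducible_iff_prime.1 hπ
    have h1 := key π (fun G hG => hπb.trans (hb G hG))
    have h2 : ∀ j i, π ∣ X j * s i := by
      intro j i
      refine dvd_of_vanish hπp fun v hv => ?_
      rw [map_mul, eval_X]
      by_cases h : v = 0
      · rw [h]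
        simp
      · have h3 : eval v (s i) = 0 := congrFun (h1 v h hv) i
        rw [h3, mul_zero]
    by_cases h3 : π ∣ X i0
    · have h4 : ¬ π ∣ X i1 := by
        intro h4
        have h5 : (X i0 : MvPolynomial (Fin (n + 1)) ℂ) ∣ π :=
          hπ.dvd_symm (X_prime (i := i0) (R := ℂ)).irreducible h3
        have h6 := h5.trans h4
        rw [X_dvd_X] at h6
        exact absurd h6 d01
      exact hπ.not_isUnit (hp π fun i => (hπp.dvd_or_dvd (h2 i1 i)).resolve_left h4)
    · exact hπ.not_isUnit (hp π fun i => (hπp.dvd_or_dvd (h2 i0 i)).resolve_left h3)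

theorem exists_wd_ne (hn : 2 ≤ n) (W : Wedge (triv E)) {s : Vec E.a n} (hs : Ker E s)
    (hp : Prm s) : ∃ G, Ker E G ∧ W.wd s G ≠ 0 := by
  by_contra hc
  push Not at hc
  exact not_isUnit_zero (unit_of_dvd hn W hs hp (b := 0) fun G hG => by rw [hc G hG])

/-- a function on the sections proportional to the wedge product with `s` is a multiple of it. -/
theorem fac (hn : 2 ≤ n) (W : Wedge (triv E)) {s : Vec E.a n} (hs : Ker E s) (hp : Prm s)
    (ψ : Vec E.a n → MvPolynomial (Fin (n + 1)) ℂ)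
    (h1 : ∀ G G', Ker E G → Ker E G' → W.wd s G' * ψ G = W.wd s G * ψ G') :
    ∃ w, ∀ G, Ker E G → ψ G = w * W.wd s G := by
  obtain ⟨G₀, hG₀, h0⟩ := exists_wd_ne hn W hs hp
  obtain ⟨a', b', c', hrel, ha, hb⟩ :=
    UniqueFactorizationMonoid.exists_reduced_factors' (ψ G₀) (W.wd s G₀) h0
  have hc : c' ≠ 0 := by
    intro h
    rw [h, zero_mul] at hb
    exact h0 hb.symm
  have h2 : ∀ G, Ker E G → W.wd s G * a' = b' * ψ G := by
    intro G hG
    apply mul_left_cancel₀ hc
    have h3 := h1 G₀ G hG₀ hG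
    rw [← ha, ← hb] at h3
    linear_combination h3
  have hu : IsUnit b' := by
    refine unit_of_dvd hn W hs hp fun G hG => ?_
    exact hrel.symm.dvd_of_dvd_mul_right ⟨ψ G, h2 G hG⟩
  obtain ⟨u, hu'⟩ := hu.exists_right_inv
  refine ⟨a' * u, fun G hG => ?_⟩
  have h3 := h2 G hG
  linear_combination (-ψ G) * hu' - u * h3

/-- the defect of two partial lifts with proportional multipliers -/
theorem FL.defect {F F' : MvPolynomial (Fin (n + 1)) ℂ} {lam : ℂ} {L L' : Vec E.a n → Vec E.a n}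
    (hn : 2 ≤ n) (hs : Ker E s) (hp : Prm s) (H : FL W N s F (C lam * F) L)
    (H' : FL W N s F' (C lam * F') L') :
    ∃ w, ∀ G, Ker E G → ∀ k, F' * L G k - F * L' G k = w * W.wd s G * s k := by
  classical
  have hd := H.diff hs hp H'
  choose ψ hψ using hd
  obtain ⟨k, hk⟩ := hp.ne
  obtain ⟨w, hw⟩ := fac hn W hs hp (fun G => if h : Ker E G then ψ G h else 0) (by
    intro G G' hG hG'
    rw [dif_pos hG, dif_pos hG']
    have hlin : ∀ (p : MvPolynomial (Fin (n + 1)) ℂ) (K : Vec E.a n), Ker E K → ∀ i,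
        F' * L (fun i => p * K i) i - F * L' (fun i => p * K i) i =
          p * (F' * L K i - F * L' K i) := by
      intro p K hK i
      rw [H.mul p K hK, H'.mul p K hK]
      ring
    have e1 : (fun i => W.wd G G' * s i) =
        fun i => (W.wd G s) * G' i + (-W.wd G' s) * G i := by
      funext i
      have h7 := W.three G G' s hG hG' hs i
      linear_combination h7
    have e2 := hlin (W.wd G G') s hs k
    rw [e1, H.add _ _ (ker_mul hG' _) (ker_mul hG _),
      H'.add _ _ (ker_mul hG' _) (ker_mul hG _)] at e2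
    have e3 := hlin (W.wd G s) G' hG' k
    have e4 := hlin (-W.wd G' s) G hG k
    rw [hψ G hG k] at e4
    rw [hψ G' hG' k] at e3
    rw [H.ls, H'.ls] at e2
    apply mul_right_cancel₀ hk
    rw [W.anti s G hs hG, W.anti s G' hs hG']
    linear_combination e2 - e3 - e4)
  refine ⟨w, fun G hG k => ?_⟩
  have h1 := hw G hG
  simp only [dif_pos hG] at h1
  rw [hψ G hG k, h1]

/-- division of a partial lift -/
theorem FL.div {c F h : MvPolynomial (Fin (n + 1)) ℂ} {L : Vec E.a n → Vec E.a n}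
    (hs : Ker E s) (hc : c ≠ 0) (H : FL W N s (c * F) (c * h) L)
    (hd : ∀ G, Ker E G → ∀ i, c ∣ L G i) : ∃ D, FL W N s F h D := by
  classical
  choose q hq using hd
  set D : Vec E.a n → Vec E.a n := fun G => if h : Ker E G then fun i => q G h i else fun _ => 0
    with hD
  have hDq : ∀ G, Ker E G → ∀ i, c * D G i = L G i := by
    intro G hG i
    rw [hD]
    simp only [dif_pos hG]
    exact (hq G hG i).symm
  have hDk : ∀ G, Ker E G → Ker E (D G) := by
    intro G hG
    apply ker_of_mul hc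
    have h1 : (fun i => c * D G i) = L G := funext fun i => hDq G hG i
    rw [h1]
    exact H.ker G hG
  refine ⟨D, hDk, ?_, ?_, ?_, ?_⟩
  · intro G G' hG hG' i
    apply mul_left_cancel₀ hc
    rw [hDq _ (ker_add hG hG'), mul_add, hDq G hG, hDq G' hG', H.add G G' hG hG']
  · intro p G hG i
    apply mul_left_cancel₀ hc
    rw [hDq _ (ker_mul hG p), H.mul p G hG, ← hDq G hG]
    ring
  · intro G hG
    apply mul_left_cancel₀ hc
    rw [← wd_mul_right W (hDk G hG) hs]
    have h1 : (fun i => c * D G i) = L G := funext fun i => hDq G hG i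
    rw [h1, H.wds G hG]
    ring
  · intro i
    apply mul_left_cancel₀ hc
    rw [hDq s hs, H.ls]
    ring

/-- gluing -/
theorem glue_op (hn : 2 ≤ n) (hs : Ker E s) (hp : Prm s) {lam : ℂ} {m : ℕ}
    (hL : ∀ i : Fin (n + 1), ∃ L, FL W N s (X i ^ m) (C lam * X i ^ m) L) :
    ∃ D, FL W N s 1 (C lam) D := by
  classical
  let i0 : Fin (n + 1) := ⟨0, by omega⟩
  let i1 : Fin (n + 1) := ⟨1, by omega⟩
  let i2 : Fin (n + 1) := ⟨2, by omega⟩
  have d02 : i0 ≠ i2 := by simp [i0, i2]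
  have d12 : i1 ≠ i2 := by simp [i1, i2]
  have d01 : i0 ≠ i1 := by simp [i0, i1]
  obtain ⟨L0, H0⟩ := hL i0
  obtain ⟨L1, H1⟩ := hL i1
  obtain ⟨L2, H2⟩ := hL i2
  obtain ⟨w01, h01⟩ := H0.defect hn hs hp H1
  obtain ⟨w12, h12⟩ := H1.defect hn hs hp H2
  obtain ⟨w20, h20⟩ := H2.defect hn hs hp H0
  obtain ⟨G₀, hG₀, h0⟩ := exists_wd_ne hn W hs hp
  obtain ⟨k0, hk0⟩ := hp.ne
  have hrel : X i2 ^ m * w01 = X i1 ^ m * (-w20) - X i0 ^ m * w12 := by
    apply mul_right_cancel₀ (mul_ne_zero h0 hk0)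
    linear_combination (-X i2 ^ m) * h01 G₀ hG₀ k0 - X i0 ^ m * h12 G₀ hG₀ k0 -
      X i1 ^ m * h20 G₀ hG₀ k0
  obtain ⟨b₀, b₁, hb⟩ := H1_mono i0 i1 i2 d02 d12 m w01 (-w20) w12 hrel
  have hX : (X i0 : MvPolynomial (Fin (n + 1)) ℂ) ^ m ≠ 0 := pow_ne_zero _ (X_ne_zero _)
  have hK : Ker E (fun i => (-b₀) * s i) := ker_mul hs _
  have H0' := H0.modify hs hK
  have e0 : W.wd s (fun i => (-b₀) * s i) = 0 := by
    rw [wd_mul_right W hs hs, wd_self W hs, mul_zero]
  have e1 : ∀ G, Ker E G → W.wd G (fun i => (-b₀) * s i) = b₀ * W.wd s G := by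
    intro G hG
    rw [wd_mul_right W hs hG, W.anti G s hG hs]
    ring
  rw [e0, sub_zero] at H0'
  have h3 : ∀ G, Ker E G → ∀ i, X i1 ^ m * (L0 G i - b₀ * W.wd s G * s i) =
      X i0 ^ m * (L1 G i - b₁ * W.wd s G * s i) := by
    intro G hG i
    linear_combination h01 G hG i + W.wd s G * s i * hb
  refine FL.div (c := X i0 ^ m) (F := 1) (h := C lam) (W := W) (N := N) (s := s)
    (L := fun G i => L0 G i - W.wd G (fun i => (-b₀) * s i) * s i) hs hX ?_ ?_
  · rw [mul_one, mul_comm (X i0 ^ m) (C lam)]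
    exact H0'
  · intro G hG i
    rw [e1 G hG]
    refine Prime.pow_dvd_of_dvd_mul_left (X_prime (i := i0) (R := ℂ)) m
      (a := X i1 ^ m) ?_ ⟨_, h3 G hG i⟩
    intro h5
    have h6 := (X_prime (i := i0) (R := ℂ)).dvd_of_dvd_pow h5
    rw [X_dvd_X] at h6
    exact absurd h6 d01

/-- **a vector field tangent to an irreducible smooth zero locus lifts.** -/
theorem Tan.exists_lift (H : Tan W N s ds) : ∃ lam D, FL W N s 1 (C lam) D := by
  obtain ⟨lam, hlam⟩ := H.lifts
  obtain ⟨m, hm⟩ := H.pow_le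
  refine ⟨lam, glue_op H.hn H.hs.ker H.prm (m := m) fun i => ?_⟩
  have h1 : (X i : MvPolynomial (Fin (n + 1)) ℂ) ∈ idealOfVars (Fin (n + 1)) ℂ :=
    Ideal.subset_span (Set.mem_range_self i)
  exact hlam _ (hm (Ideal.pow_mem_pow h1 m))

end Pool.Agent.W615
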