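import Pool.Agent.W615.Z7

/-!
# Codimension two subvarieties with a tangent vector field (helper615)
-/

set_option autoImplicit false
set_option maxHeartbeats 800000

open MvPolynomial H960VB H938TB

namespace Pool.Agent.W615

variable {n : ℕ} {E : Bundle2 n} {W : Wedge (triv E)}
  {N : Matrix (Fin (n + 1)) (Fin (n + 1)) ℂ} {s : Vec E.a n} {ds : ℤ}

theorem sec_deg_unique {d d' : ℤ} {G : Vec E.a n} (h : Sec E d G) (h' : Sec E d' G) {i : Fin E.a}
    (hi : G i ≠ 0) : d = d' := by
  have h1 := wh_triv (h.homZ i)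
  have h2 := wh_triv (h'.homZ i)
  have h3 := congrArg Prod.fst (h1.inj_right hi h2)
  have h4 : E.β i + d = E.β i + d' := h3
  omega

open Classical in
/-- the homogeneous part of a lift -/
noncomputable def homOp (D : Vec E.a n → Vec E.a n) (G : Vec E.a n) : Vec E.a n :=
  if h : ∃ d : ℤ, Sec E d G ∧ ∃ i, G i ≠ 0 then vcomp (triv E) ((h.choose, 0) : M) (D G)
  else fun _ => 0

theorem homOp_eq {h : MvPolynomial (Fin (n + 1)) ℂ} {D : Vec E.a n → Vec E.a n}
    (H : FL W N s 1 h D) {d : ℤ} {G : Vec E.a n} (hG : Sec E d G) :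
    homOp D G = vcomp (triv E) ((d, 0) : M) (D G) := by
  classical
  unfold homOp
  split_ifs with h1
  · obtain ⟨h2, i, hi⟩ := h1.choose_spec
    rw [sec_deg_unique h2 hG hi]
  · push Not at h1
    have h2 := h1 d hG
    funext i
    have h3 : (fun i => (0 : MvPolynomial (Fin (n + 1)) ℂ) * G i) = G := by
      funext j
      rw [zero_mul, h2 j]
    have h4 := H.mul 0 G hG.ker i
    rw [h3, map_zero, zero_mul, mul_zero, zero_mul, add_zero] at h4
    show 0 = weightedHomogeneousComponent _ _ (D G i)
    rw [h4, map_zero]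

/-- the homogeneous part of a lift is an operator. -/
noncomputable def FL.op {h : MvPolynomial (Fin (n + 1)) ℂ} {D : Vec E.a n → Vec E.a n}
    (H : FL W N s 1 h D) : Op E N where
  D := homOp D
  sec := by
    intro d G hG
    rw [homOp_eq H hG]
    exact vcomp_sec (H.ker G hG.ker) _
  add := by
    intro d G G' hG hG'
    rw [homOp_eq H hG, homOp_eq H hG', homOp_eq H (sec_add hG hG')]
    funext i
    show weightedHomogeneousComponent _ _ (D _ i) = weightedHomogeneousComponent _ _ (D G i) +
      weightedHomogeneousComponent _ _ (D G' i)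
    rw [H.add G G' hG.ker hG'.ker, map_add]
  leib := by
    intro d e p G hG hp
    have h1 := sec_mul hp hG
    rw [homOp_eq H hG, homOp_eq H h1]
    funext i
    show weightedHomogeneousComponent _ _ (D _ i) =
      vf N p * G i + p * weightedHomogeneousComponent _ _ (D G i)
    rw [H.mul p G hG.ker, map_add, one_mul]
    congr 1
    · apply weightedHomogeneousComponent_eq_self
      exact (sec_mul (vf_homZ N hp) hG).hom i
    · have h3 := whc_mul (q := D G i) (wh_triv hp) (((E.β i, (triv E).b i) : M) + (d, 0))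
      rw [← h3]
      congr 1
      ext <;> simp
      ring

/-- **Theorem.** -/
theorem Tan.main (hn : 7 ≤ n) (H : Tan W N s ds) (hN : ∀ c : ℂ, N ≠ c • 1) :
    E.Splits ∧ ∃ (f g : MvPolynomial (Fin (n + 1)) ℂ) (a b : ℤ), HomZ f a ∧ HomZ g b ∧
      vanI s = Ideal.span {f, g} := by
  obtain ⟨lam, D, HD⟩ := H.exists_lift
  have hspl : E.Splits := by
    refine symmetric_main hn HD.op hN H.hs (μ := lam) ?_ (fun x hx h0 _ => H.hsm x hx h0)
    show homOp D s = _
    rw [homOp_eq HD H.hs]
    funext i
    show weightedHomogeneousComponent _ _ (D s i) = _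
    rw [HD.ls]
    apply weightedHomogeneousComponent_eq_self
    have h1 := (sec_mul (homZ_C lam) H.hs).hom i
    rw [zero_add] at h1
    exact h1
  obtain ⟨f, g, a, b, hf, hg, h1, -, h3, -, -⟩ := ci_of_splits (by omega) W hspl H.hs
  refine ⟨hspl, f, g, a, b, hf, hg, le_antisymm ?_ ?_⟩
  · intro p hp
    obtain ⟨K, hK, hK'⟩ := mem_of_vanish W (by omega) H.hs.ker H.hsm hp
    rw [← hK']
    exact h3 K hK
  · rw [Ideal.span_le]
    rintro p (rfl | rfl)
    · intro x hx h0
      exact ((h1 x hx).1 h0).1
    · intro x hx h0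
      exact ((h1 x hx).1 h0).2

end Pool.Agent.W615
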